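import Pool.Agent.Work.Monodromy.Interface9
import Pool.Agent.Work.Monodromy.Final1
import Pool.Agent.Work.Monodromy6.Final6

/-!
# Phase 9: singularities of corank at most two, final form (helper2)
-/

set_option autoImplicit false

namespace Pool.Agent.Mono.C9

open MvPolynomial TS RO SP PC

theorem good_of (hS : Stmt_STP9) (hC : Stmt_COM9) (hP : Stmt_POL9) (P : HodgeMeasure)
    {ι : Type} [Fintype ι] [DecidableEq ι] (f : MvPolynomial ι ℂ) (hf : f.totalDegree ≠ 0)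
    (hc : Cor2 f) (e : ℕ) (he : 1 ≤ e) (R : RatFunc ℚ)
    (hR : IsLim (zetaSer P.rat xq f e) R ∨ IsLim (zetaSer1 P.rat xq f e) R) :
    GoodPoles f R :=
  hP P ι f hf (hC ι f (hS ι f hf hc)) e R he hR

theorem cor_top (hS : Stmt_STP9) (hC : Stmt_COM9) (hP : Stmt_POL9) (P : HodgeMeasure)
    {ι : Type} [Fintype ι] [DecidableEq ι] (f : MvPolynomial ι ℂ) (hf : f.totalDegree ≠ 0)
    (hc : Cor2 f) (R : RatFunc ℚ) (hR : IsTopologicalZeta P f R) : GoodPoles f R :=
  good_of hS hC hP P f hf hc 1 le_rfl R (Or.inl ((isTopologicalZeta_iff P f R).1 hR))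

theorem cor_tw (hS : Stmt_STP9) (hC : Stmt_COM9) (hP : Stmt_POL9) (P : HodgeMeasure)
    {ι : Type} [Fintype ι] [DecidableEq ι] (f : MvPolynomial ι ℂ) (hf : f.totalDegree ≠ 0)
    (hc : Cor2 f) (e : ℕ) (he : 1 ≤ e) (R : RatFunc ℚ) (hR : IsTwTopZeta P f e R) :
    GoodPoles f R := by
  obtain ⟨r, hr, hR'⟩ := hR
  have hpos : ∀ d ∈ e.divisors, 1 ≤ d := fun d hd => Nat.pos_of_mem_divisors hd
  have hg : ∀ d ∈ e.divisors, GoodPoles f (r d) := fun d hd =>
    good_of hS hC hP P f hf hc d (hpos d hd) (r d) (Or.inr (hr d hd))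
  have htot : ((e.totient : ℚ)) ≠ 0 := by exact_mod_cast (Nat.totient_pos.2 he).ne'
  have h3 : R = RatFunc.C ((e.totient : ℚ)⁻¹) * (RatFunc.C (e.totient : ℚ) * R) := by
    rw [← mul_assoc, ← map_mul, inv_mul_cancel₀ htot, map_one, one_mul]
  rw [h3, hR']
  refine goodPoles_mul (goodPoles_C _) (goodPoles_sum _ _ fun d hd => ?_)
  exact goodPoles_mul (goodPoles_C _) (hg d hd)

/-- the hypothesis of the theorem -/
theorem cor2_of {ι : Type} [Fintype ι] [DecidableEq ι] {f : MvPolynomial ι ℂ}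
    (h : ∀ p : ι → ℂ, eval p f = 0 → (∀ a, eval p (pderiv a f) = 0) →
      Fintype.card ι ≤ (Matrix.of fun a b => eval p (pderiv a (pderiv b f))).rank + 2 ∨
        IsSemiQuasiHomogeneousAt f p) : Cor2 f := by
  intro p hp
  rcases h p hp.1 hp.2 with h | h
  · exact Or.inl h
  · exact Or.inr (RO.sqAt_of h)

end Pool.Agent.Mono.C9
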