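import Pool.Agent.Work.Monodromy.Interface9
import Pool.Agent.Work.Monodromy8.MAIN8
import Pool.Agent.Work.Monodromy8.ISO8
import Pool.Agent.Work.Monodromy8.EIG8

/-! MONODROMY, phase 9, block STP9: irreducible components (helper60). -/

set_option autoImplicit false

namespace Pool.Agent.Mono.C9

open MvPolynomial TS RO SP PC

namespace STP9Aux

variable {ι : Type} [Fintype ι] [DecidableEq ι]

/-- the Nullstellensatz for prime ideals -/
theorem nss {I : Ideal (MvPolynomial ι ℂ)} (hI : I.IsPrime) {g : MvPolynomial ι ℂ} (hg : g ∉ I) :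
    ∃ q : ι → ℂ, (∀ g' ∈ I, eval q g' = 0) ∧ eval q g ≠ 0 := by
  by_contra hc
  push Not at hc
  apply hg
  rw [← hI.isRadical.radical, ← MvPolynomial.vanishingIdeal_zeroLocus_eq_radical (K := ℂ),
    MvPolynomial.mem_vanishingIdeal_iff]
  intro x hx
  rw [MvPolynomial.mem_zeroLocus_iff] at hx
  have h1 := hc x fun g' hg' => by
    have := hx g' hg'
    simpa [MvPolynomial.aeval_eq_eval] using this
  simpa [MvPolynomial.aeval_eq_eval] using h1

/-- maximal ideals -/
theorem maxi {I : Ideal (MvPolynomial ι ℂ)} (hI : I.IsMaximal) :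
    ∃ p : ι → ℂ, ∀ g, g ∈ I ↔ eval p g = 0 := by
  obtain ⟨p, hp⟩ := (MvPolynomial.isMaximal_iff_eq_vanishingIdeal_singleton (K := ℂ)).1 hI
  refine ⟨p, fun g => ?_⟩
  rw [hp, MvPolynomial.mem_vanishingIdeal_iff]
  constructor
  · intro h
    have := h p rfl
    simpa [MvPolynomial.aeval_eq_eval] using this
  · intro h x hx
    rw [Set.mem_singleton_iff] at hx
    rw [hx]
    simpa [MvPolynomial.aeval_eq_eval] using h

/-- an ideal which contains all `x_a - p_a` is maximal -/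
theorem max_of {I : Ideal (MvPolynomial ι ℂ)} (hI : I.IsPrime) (p : ι → ℂ)
    (h : ∀ a, X a - C (p a) ∈ I) : I.IsMaximal := by
  obtain ⟨q, hq, -⟩ := nss hI (g := 1) ((Ideal.ne_top_iff_one I).1 hI.ne_top)
  rw [MvPolynomial.isMaximal_iff_eq_vanishingIdeal_singleton (K := ℂ)]
  refine ⟨q, le_antisymm (fun g hg => ?_) fun g hg => ?_⟩
  · rw [MvPolynomial.mem_vanishingIdeal_iff]
    intro x hx
    rw [Set.mem_singleton_iff] at hx
    rw [hx]
    simpa [MvPolynomial.aeval_eq_eval] using hq g hg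
  · rw [MvPolynomial.mem_vanishingIdeal_iff] at hg
    have h0 : eval q g = 0 := by simpa [MvPolynomial.aeval_eq_eval] using hg q rfl
    have hqp : q = p := by
      funext a
      have := hq _ (h a)
      rwa [map_sub, eval_X, eval_C, sub_eq_zero] at this
    -- `g` is congruent to its value
    have h1 : ∀ g : MvPolynomial ι ℂ, g - C (eval p g) ∈ I := by
      intro g
      induction g using MvPolynomial.induction_on with
      | C c => simp
      | add g h hg hh =>
        have h2 : g + h - C (eval p (g + h)) = (g - C (eval p g)) + (h - C (eval p h)) := by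
          rw [map_add, map_add]
          ring
        rw [h2]
        exact Ideal.add_mem _ hg hh
      | mul_X g b hg =>
        have h2 : g * X b - C (eval p (g * X b)) = (g - C (eval p g)) * X b +
            C (eval p g) * (X b - C (p b)) := by
          rw [map_mul, eval_X, map_mul]
          ring
        rw [h2]
        exact Ideal.add_mem _ (Ideal.mul_mem_right _ _ hg) (Ideal.mul_mem_left _ _ (h b))
    have h2 := h1 g
    rwa [← hqp, h0, map_zero, sub_zero] at h2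

/-- the empty set -/
theorem gd_empty (f : MvPolynomial ι ℂ) : Gd f ∅ := by
  intro P E _ Q hQ
  have h : (fun m => vol P.rat xq (ZL f (∅ : Set (ι → ℂ)) Q m)) = fun _ => 0 := by
    funext m
    exact MAIN8Aux.zero_ZL P f hQ.1 m
  rw [h]
  exact stmt_Q1.2.2.2.1 _ (fun _ => 0) 0 (fun _ _ => rfl)

theorem gd_sub {f : MvPolynomial ι ℂ} {p : ι → ℂ} (h : Gd f {p}) (S : Set (ι → ℂ))
    (hS : ∀ q ∈ S, q = p) : Gd f S := by
  by_cases hne : p ∈ S
  · have : S = {p} := Set.eq_singleton_iff_unique_mem.2 ⟨hne, hS⟩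
    rwa [this]
  · have : S = ∅ := by
      ext q
      simp only [Set.mem_empty_iff_false, iff_false]
      intro hq
      rw [hS q hq] at hq
      exact hne hq
    rw [this]
    exact gd_empty f

/-- semi-quasi-homogeneous points -/
theorem gd_sq (f : MvPolynomial ι ℂ) (htd : f.totalDegree ≠ 0) (p : ι → ℂ) (hp : p ∈ Crit0 f)
    (r : ℚ) (hSQ : SQAt f p r) : Gd f {p} := by
  have hne : Nonempty ι := by
    by_contra hc
    rw [not_nonempty_iff] at hc
    apply htd
    rw [MvPolynomial.eq_C_of_isEmpty f, totalDegree_C]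
  have hr : r ∈ EV f := by
    obtain ⟨hr0, β, k, hβ, hk, hw⟩ := stmt_WE ι f p r htd hp.2 hSQ
    rw [hp.1, C_0, sub_zero] at hw
    have hne : ∀ n : ℕ, (β : ℂ) ≠ n := by
      intro n h
      have h1 : β = (n : ℚ) := by exact_mod_cast h
      rw [h1] at hβ
      have : (0 : ℚ) ≤ (n : ℚ) := Nat.cast_nonneg _
      linarith
    refine ⟨hr0, (β : ℂ), fun b hb => stmt_W5 ι f β hne hw b (isEvBernstein_of hb), ?_⟩
    have h1 : (β : ℂ) = -(r : ℂ) + k := by
      rw [hk]
      push_cast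
      ring
    rw [h1, mul_add, Complex.exp_add]
    have h2 : Complex.exp (2 * Real.pi * Complex.I * (k : ℂ)) = 1 := by
      rw [Complex.exp_eq_one_iff]
      exact ⟨k, by ring⟩
    rw [h2, mul_one]
  intro P E _ Q hQ
  refine stmt_Q1.1 _ _ _ ?_ (stmt_SQV8 P ι f p r hp hSQ E Q hQ)
  rintro x (rfl | rfl)
  · exact Or.inl rfl
  · exact Or.inr hr

theorem TZ.mono' {f : MvPolynomial ι ℂ} {S T : Set (ι → ℂ)} {Z : Finset ι}
    {s : MvPolynomial ι ℂ} (h : TZ f T Z s) (hST : S ⊆ T) : TZ f S Z s :=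
  ⟨fun q hq => h.crit q (hST hq), fun q hq => h.det q (hST hq), fun q hq => h.s0 q (hST hq), h.eq⟩

theorem TH.mono' {f : MvPolynomial ι ℂ} {S T : Set (ι → ℂ)} {Z : Finset ι} {b : ι}
    {h' s w : MvPolynomial ι ℂ} {e : ℕ} (h : TH f T Z b h' s w e) (hST : S ⊆ T) :
    TH f S Z b h' s w e :=
  ⟨h.hb, h.he, fun q hq => h.crit q (hST hq), fun q hq => h.det q (hST hq),
    fun q hq => h.h0 q (hST hq), fun q hq => h.h1 q (hST hq), fun q hq => h.s0 q (hST hq),
    fun q hq => h.w0 q (hST hq), h.eq⟩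

/-- the generic case -/
theorem generic (hGEN : Stmt_GEN9) (hVGG : Stmt_VGG9) (f : MvPolynomial ι ℂ)
    (htd : f.totalDegree ≠ 0) (I : Ideal (MvPolynomial ι ℂ)) (hI : I.IsPrime) (hf : f ∈ I)
    (hd : ∀ a, pderiv a f ∈ I) (Z : Finset ι) (hZ : dt f Z ∉ I)
    (h2 : ∀ b c, dl f Z b (dl f Z c f) ∈ I)
    (h3 : (∀ L : List ι, wd f Z L ∈ I) ∨ (Zᶜ.card ≤ 2 ∧ (Zᶜ.card = 2 → ¬ I.IsMaximal))) :
    ∃ s, s ∉ I ∧ ∀ S : Set (ι → ℂ), Constructible S →
      (∀ q ∈ S, (∀ g ∈ I, eval q g = 0) ∧ eval q s ≠ 0) → Gd f S := by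
  obtain ⟨s₀, hs₀, h⟩ := hGEN ι f I hI hf hd Z hZ h2 h3
  refine ⟨s₀, hs₀, fun S hS hq => ?_⟩
  rcases h with ⟨s, hs⟩ | ⟨b, h', s, w, e, hs⟩
  · exact (hVGG ι f htd S Z s hS).1 (TZ.mono' hs hq)
  · exact (hVGG ι f htd S Z s hS).2 b h' w e (TH.mono' hs hq)

end STP9Aux

open STP9Aux in
/-- **STP9** -/
theorem stmt_STP9 (hRNK : Stmt_RNK9) (hGEN : Stmt_GEN9) (hVGG : Stmt_VGG9) (hSPC : Stmt_SPC9) :
    Stmt_STP9 := by
  intro ι _ _ f htd hcor I hI hf hd
  have hcrit : ∀ q : ι → ℂ, (∀ g ∈ I, eval q g = 0) → q ∈ Crit0 f :=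
    fun q hq => ⟨hq f hf, fun a => hq _ (hd a)⟩
  have hone : (1 : MvPolynomial ι ℂ) ∉ I := (Ideal.ne_top_iff_one I).1 hI.ne_top
  by_cases hmax : I.IsMaximal
  · -- one point
    obtain ⟨p, hp⟩ := maxi hmax
    have hpc : p ∈ Crit0 f := hcrit p fun g hg => (hp g).1 hg
    have hSp : ∀ S : Set (ι → ℂ), (∀ q ∈ S, (∀ g ∈ I, eval q g = 0) ∧
        eval q (1 : MvPolynomial ι ℂ) ≠ 0) → ∀ q ∈ S, q = p := by
      intro S hS q hq
      funext a
      have h1 := (hS q hq).1 (X a - C (p a)) ((hp _).2 (by rw [map_sub, eval_X, eval_C, sub_self]))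
      rwa [map_sub, eval_X, eval_C, sub_eq_zero] at h1
    rcases hcor p hpc with hrk | ⟨r, hSQ⟩
    · obtain ⟨Z, hZ, h2, h3⟩ := hRNK ι f I hI hd
      have hdt : eval p (dt f Z) ≠ 0 := fun h => hZ ((hp _).2 h)
      have h4 := h3 p (fun g hg => (hp g).1 hg) hdt
      have h5 : Zᶜ.card ≤ 2 := by
        rw [Finset.card_compl]
        omega
      by_cases h6 : (∀ L : List ι, wd f Z L ∈ I) ∨ Zᶜ.card ≤ 1
      · refine generic hGEN hVGG f htd I hI hf hd Z hZ h2 ?_
        rcases h6 with h6 | h6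
        · exact Or.inl h6
        · exact Or.inr ⟨h5, fun h7 => by omega⟩
      · push Not at h6
        obtain ⟨⟨L, hL⟩, h7⟩ := h6
        have h8 : Gd f {p} := hSPC ι f Z p htd hpc (by omega) hdt ⟨L, fun h => hL ((hp _).2 h)⟩
        exact ⟨1, hone, fun S _ hS => gd_sub h8 S (hSp S hS)⟩
    · exact ⟨1, hone, fun S _ hS => gd_sub (gd_sq f htd p hpc r hSQ) S (hSp S hS)⟩
  · -- all points of `V(I)` have corank at most two
    have hrk : ∀ q : ι → ℂ, (∀ g ∈ I, eval q g = 0) → Fintype.card ι ≤ (Hs f q).rank + 2 := by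
      intro q hq
      rcases hcor q (hcrit q hq) with h | ⟨r, hSQ⟩
      · exact h
      · exfalso
        obtain ⟨s, hs, hiso⟩ := stmt_ISO8 ι f q r (hcrit q hq).2 hSQ
        apply hmax
        refine max_of hI q fun a => ?_
        by_contra hc
        have hsI : s ∉ I := fun h => hs (hq s h)
        have h1 : s * (X a - C (q a)) ∉ I := fun h => (hI.mem_or_mem h).elim hsI hc
        obtain ⟨x, hx, hne⟩ := nss hI h1
        rw [map_mul] at hne
        have h2 := hiso x (hcrit x hx).2 (left_ne_zero_of_mul hne)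
        apply right_ne_zero_of_mul hne
        rw [h2, map_sub, eval_X, eval_C, sub_self]
    obtain ⟨Z, hZ, h2, h3⟩ := hRNK ι f I hI hd
    obtain ⟨q, hq, hqZ⟩ := nss hI hZ
    have h4 := h3 q hq hqZ
    have h5 := hrk q hq
    refine generic hGEN hVGG f htd I hI hf hd Z hZ h2 (Or.inr ⟨?_, fun _ => hmax⟩)
    rw [Finset.card_compl]
    omega

end Pool.Agent.Mono.C9
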