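import Pool.Agent.Work.Monodromy.Interface9
import Pool.Agent.Work.Monodromy8.POL8
import Pool.Agent.Work.Monodromy8.MAIN8
import Pool.Agent.Work.Monodromy8.SMZ8
import Pool.Agent.Work.Monodromy.SS

/-!
# Block POL9 (helper83): the poles
-/

set_option autoImplicit false
set_option linter.unusedSectionVars false

namespace Pool.Agent.Mono.C9

open MvPolynomial TS RO SP PC

namespace POL9Aux

open SP.MAIN8Aux SP.POL8Aux

/-- all arcs: smooth start points and critical start points -/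
theorem vol_split (P : HodgeMeasure) {E ι : Type} [Fintype ι] [DecidableEq ι] [Finite E]
    (f : MvPolynomial ι ℂ) {Q : Set (E ⊕ Unit → ℂ)} (hQ : QU Q) {α : K}
    (hα : ∀ m : ℕ, 1 ≤ m →
      vol P.rat xq (ZL f {x | eval x f = 0 ∧ ∃ a, eval x (pderiv a f) ≠ 0} Q m) = α * xq ^ m)
    (m : ℕ) (hm : 1 ≤ m) :
    vol P.rat xq {z : (E → ℂ) × (ι → PowerSeries ℂ) | Lead Q m z.1 (aeval z.2 f)} =
      α * xq ^ m + vol P.rat xq (ZL f (Crit0 f) Q m) := by
  set R : Set (ι → ℂ) := {x | eval x f = 0 ∧ ∃ a, eval x (pderiv a f) ≠ 0} with hR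
  have cRg : Constructible R := by
    have h1 : Constructible {x : ι → ℂ | ∀ a, eval x (pderiv a f) = 0} :=
      Constructible.all fun a => Constructible.zero _
    have h2 := (Constructible.zero f).inter h1.compl
    convert h2 using 1
    ext x
    simp only [hR, Set.mem_ofPred_eq, Set.mem_inter_iff, Set.mem_compl_iff, not_forall, ne_eq]
  have e1 : vol P.rat xq (ZL f (R ∪ Crit0 f) Q m) =
      vol P.rat xq (ZL f R Q m) + vol P.rat xq (ZL f (Crit0 f) Q m) := by
    rw [vol_ZL P f cRg (con_crit f) ?_ hQ.1 m]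
    rw [Set.disjoint_left]
    rintro p ⟨-, a, ha⟩ hp'
    exact ha (hp'.2 a)
  rw [← hα m hm, ← e1]
  congr 1
  ext z
  constructor
  · intro h
    refine ⟨?_, h⟩
    have h0 : eval (fun a => PowerSeries.coeff 0 (z.2 a)) f = 0 := by
      have h4 := h.1 0 (by omega)
      rw [← h4]
      exact (coeff0 f z.2).symm
    by_cases hsm : ∃ a, eval (fun a => PowerSeries.coeff 0 (z.2 a)) (pderiv a f) ≠ 0
    · exact Or.inl ⟨h0, hsm⟩
    · push Not at hsm
      exact Or.inr ⟨h0, hsm⟩
  · exact fun h => h.2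

theorem core (P : HodgeMeasure) {ι : Type} [Fintype ι] [DecidableEq ι]
    (f : MvPolynomial ι ℂ) (hf : f.totalDegree ≠ 0) (hG : Gd f (Crit0 f)) (e : ℕ)
    (κ : ℕ → K) (R : K)
    (hκ : ∀ m, 1 ≤ m → κ m = P.rat.L ^ Fintype.card ι *
      vol P.rat xq {z : (Bool → ℂ) × (ι → PowerSeries ℂ) | Lead (QE e) m z.1 (aeval z.2 f)})
    (hR : IsLim (PowerSeries.mk κ) R) (s : ℂ) (hs : Polynomial.aeval s R.denom = 0) :
    IsEigenvalue f (Complex.exp (2 * Real.pi * Complex.I * s)) := by
  obtain ⟨α, hα⟩ := stmt_SMZ8 P ι f Bool (QE e) (QU_QE e)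
  obtain ⟨Qmono, Qadd, Qsc, Qfin, -⟩ := stmt_Q1
  set u : K := P.rat.L ^ Fintype.card ι with hu
  have E1 : ESeq ({1} ∪ EV f) fun m => u * (α * xq ^ m + vol P.rat xq (ZL f (Crit0 f) (QE e) m)) :=
    Qsc _ _ _ (Qadd _ _ _ (SQV8Aux.eseq_one (Or.inl rfl) α) (hG P Bool (QE e) (QU_QE e)))
  have E2 : ESeq ({1} ∪ EV f) κ := by
    have F3 : ESeq ({1} ∪ EV f) fun m => if m = 0 then
        κ m - u * (α * xq ^ m + vol P.rat xq (ZL f (Crit0 f) (QE e) m)) else 0 :=
      Qfin _ _ 1 fun m hm => by rw [if_neg (by omega)]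
    have h := Qadd _ _ _ E1 F3
    convert h using 1
    funext m
    by_cases hm : m = 0
    · simp only [if_pos hm]; ring
    · simp only [if_neg hm]
      rw [add_zero, hκ m (by omega), vol_split P f (QU_QE e) hα m (by omega)]
  obtain ⟨r, hr, rfl⟩ := stmt_Q5 _ κ R E2 hR s hs
  rcases hr with hr | hr
  · rw [Set.mem_singleton_iff] at hr
    subst hr
    refine SSAux.eig_int f hf _ (Or.inr ?_)
    rw [Rat.cast_one]
  · exact hr.2

end POL9Aux

open POL9Aux SP.POL8Aux

theorem stmt_POL9 : Stmt_POL9 := by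
  intro P ι _ _ f hf hG e R he hR s hs
  have hV := (stmt_VA P ι f).2.2 e
  rcases hR with hR | hR
  · refine core P f hf hG e (fun m => PowerSeries.coeff m (zetaSer P.rat xq f e)) R ?_ ?_ s hs
    · intro m _
      show PowerSeries.coeff m (zetaSer P.rat xq f e) = _
      rw [hV, PowerSeries.coeff_mk, AA, ctc_eq]
    · convert hR using 1
      ext m
      rw [PowerSeries.coeff_mk]
  · refine core P f hf hG e (fun m => PowerSeries.coeff m (zetaSer1 P.rat xq f e)) R ?_ ?_ s hs
    · intro m hm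
      have h1 : PowerSeries.coeff m (zetaSer1 P.rat xq f e) =
          PowerSeries.coeff m (zetaSer P.rat xq f e) := by
        rw [zetaSer1, zetaSer, PowerSeries.coeff_mk, PowerSeries.coeff_mk, if_neg (by omega)]
      show PowerSeries.coeff m (zetaSer1 P.rat xq f e) = _
      rw [h1, hV, PowerSeries.coeff_mk, AA, ctc_eq]
    · convert hR using 1
      ext m
      rw [PowerSeries.coeff_mk]

end Pool.Agent.Mono.C9
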