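import Pool.Agent.Work.Monodromy.Interface9
import Pool.Agent.Work.Monodromy8.ISO8A
import Pool.Agent.Work.Monodromy6.WA
import Pool.Agent.Work.Monodromy6.WB

/-!
# Block CTW9 (helper72): witnesses and contact equivalence
-/

set_option autoImplicit false
set_option linter.unusedSectionVars false

namespace Pool.Agent.Mono.C9

open MvPolynomial TS RO SP PC

namespace CTW9Aux

/-! ## Binomial coefficients -/

/-- binomial coefficients -/
noncomputable def bc (γ : ℂ) : ℕ → ℂ
  | 0 => 1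
  | j + 1 => bc γ j * (γ - j) / (j + 1)

theorem bc_zero (γ : ℂ) : bc γ 0 = 1 := rfl

theorem bc_succ (γ : ℂ) (j : ℕ) : ((j : ℂ) + 1) * bc γ (j + 1) = bc γ j * (γ - j) := by
  have h : ((j : ℂ) + 1) ≠ 0 := by exact_mod_cast Nat.succ_ne_zero j
  rw [bc]
  field_simp

theorem bc_sub (γ : ℂ) (j : ℕ) : γ * bc (γ - 1) j = bc γ j * (γ - j) := by
  induction j with
  | zero => simp [bc]
  | succ j ih =>
    have h : ((j : ℂ) + 1) ≠ 0 := by exact_mod_cast Nat.succ_ne_zero j
    have h1 := bc_succ (γ - 1) j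
    have h2 := bc_succ γ j
    apply mul_left_cancel₀ h
    push_cast
    calc ((j : ℂ) + 1) * (γ * bc (γ - 1) (j + 1)) = γ * (((j : ℂ) + 1) * bc (γ - 1) (j + 1)) := by
          ring
      _ = (γ * bc (γ - 1) j) * (γ - 1 - j) := by rw [h1]; ring
      _ = (bc γ j * (γ - j)) * (γ - (j + 1)) := by rw [ih]; ring
      _ = _ := by rw [← h2]; ring

theorem bc_deriv (γ : ℂ) (j : ℕ) : ((j : ℂ) + 1) * bc γ (j + 1) = γ * bc (γ - 1) j := by
  rw [bc_succ, bc_sub]

theorem bc_pascal (γ : ℂ) (j : ℕ) : bc (γ + 1) (j + 1) = bc γ (j + 1) + bc γ j := by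
  have h : ((j : ℂ) + 1) ≠ 0 := by exact_mod_cast Nat.succ_ne_zero j
  have h1 := bc_deriv (γ + 1) j
  have h2 := bc_succ γ j
  rw [add_sub_cancel_right] at h1
  apply mul_left_cancel₀ h
  rw [h1, mul_add, h2]
  ring

/-! ## Powers of the maximal ideal -/

section

variable {R : Type} [CommRing R] [Algebra ℂ R]

theorem D_pow (D : Derivation ℂ R R) (I : Ideal R) (k : ℕ) :
    ∀ {g : R}, g ∈ I ^ (k + 1) → D g ∈ I ^ k := by
  induction k with
  | zero => simp
  | succ k ih =>
    intro g hg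
    rw [pow_succ] at hg
    refine Submodule.mul_induction_on hg ?_ ?_
    · intro m hm n hn
      rw [Derivation.leibniz, smul_eq_mul, smul_eq_mul]
      refine Ideal.add_mem _ (Ideal.mul_mem_right _ _ hm) ?_
      rw [pow_succ, mul_comm (I ^ k) I]
      exact Ideal.mul_mem_mul hn (ih hm)
    · intro x y hx hy
      rw [map_add]
      exact Ideal.add_mem _ hx hy

/-- the binomial series, truncated -/
noncomputable def bin (γ : ℂ) (t : R) (k : ℕ) : R := ∑ j ∈ Finset.range k, bc γ j • t ^ j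

theorem bin_mul (γ : ℂ) (t : R) (k : ℕ) (I : Ideal R) (ht : t ∈ I) :
    (1 + t) * bin γ t k - bin (γ + 1) t k ∈ I ^ k := by
  have key : ∀ k, (1 + t) * bin γ t (k + 1) - bin (γ + 1) t (k + 1) = bc γ k • t ^ (k + 1) := by
    intro k
    induction k with
    | zero =>
      simp [bin, bc]
    | succ k ih =>
      have e1 : ∀ γ : ℂ, bin γ t (k + 1 + 1) = bin γ t (k + 1) + bc γ (k + 1) • t ^ (k + 1) := by
        intro γ
        rw [bin, Finset.sum_range_succ, ← bin]
      rw [e1, e1, bc_pascal, mul_add]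
      have e2 : (1 + t) * bin γ t (k + 1) + (1 + t) * bc γ (k + 1) • t ^ (k + 1) -
          (bin (γ + 1) t (k + 1) + (bc γ (k + 1) + bc γ k) • t ^ (k + 1)) =
          ((1 + t) * bin γ t (k + 1) - bin (γ + 1) t (k + 1)) +
            ((1 + t) * bc γ (k + 1) • t ^ (k + 1) - (bc γ (k + 1) + bc γ k) • t ^ (k + 1)) := by
        ring
      rw [e2, ih, add_smul, mul_smul_comm, add_mul, one_mul, smul_add]
      have e3 : t * t ^ (k + 1) = t ^ (k + 1 + 1) := by ring
      rw [e3]
      abel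
  cases k with
  | zero => simp
  | succ k =>
    rw [key]
    exact Submodule.smul_of_tower_mem _ _ (Ideal.pow_mem_pow ht _)

theorem bin_D (γ : ℂ) (t : R) (k : ℕ) (D : Derivation ℂ R R) :
    D (bin γ t (k + 1)) = γ • (bin (γ - 1) t k * D t) := by
  induction k with
  | zero => simp [bin, bc]
  | succ k ih =>
    have e1 : ∀ (γ : ℂ) (k : ℕ), bin γ t (k + 1) = bin γ t k + bc γ k • t ^ k := by
      intro γ k
      rw [bin, Finset.sum_range_succ, ← bin]
    rw [e1 γ (k + 1), map_add, ih, e1 (γ - 1) k, add_mul, smul_add]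
    congr 1
    rw [Derivation.map_smul, Derivation.leibniz_pow, smul_mul_assoc, smul_smul, ← bc_deriv,
      Nat.add_sub_cancel, mul_comm, mul_smul, smul_eq_mul, ← Nat.cast_smul_eq_nsmul ℂ]
    push_cast
    rfl

theorem bin_one (γ : ℂ) (t : R) (k : ℕ) (hk : 1 ≤ k) (I : Ideal R) (ht : t ∈ I) :
    bin γ t k - 1 ∈ I := by
  obtain ⟨k, rfl⟩ := Nat.exists_eq_add_of_le hk
  induction k with
  | zero => simp [bin, bc]
  | succ k ih =>
    rw [bin, ← add_assoc, Finset.sum_range_succ, ← bin, add_sub_right_comm]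
    refine Ideal.add_mem _ (ih (by omega)) (Submodule.smul_of_tower_mem _ _ ?_)
    rw [Nat.add_comm, pow_succ]
    exact Ideal.mul_mem_left _ _ ht

end

section

variable {ι : Type} [Fintype ι] [DecidableEq ι]

theorem mI_eq : mI (fun _ : ι => (0 : ℂ)) = idealOfVars ι ℂ := by
  ext g
  rw [ISO8Aux.mem_mm]
  rfl

/-- units modulo powers of the maximal ideal of a point -/
theorem exists_inv (p : ι → ℂ) (s : MvPolynomial ι ℂ) (hs : eval p s ≠ 0) (k : ℕ) :
    ∃ t, t * s - 1 ∈ mI p ^ k := by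
  induction k with
  | zero => exact ⟨0, by simp⟩
  | succ k ih =>
    obtain ⟨t, ht⟩ := ih
    have h0 : C (eval p s)⁻¹ * s - 1 ∈ mI p := by
      change eval p _ = 0
      rw [map_sub, map_mul, eval_C, map_one, inv_mul_cancel₀ hs, sub_self]
    refine ⟨t + C (eval p s)⁻¹ * (1 - t * s), ?_⟩
    have e1 : (t + C (eval p s)⁻¹ * (1 - t * s)) * s - 1 =
        - ((t * s - 1) * (C (eval p s)⁻¹ * s - 1)) := by ring
    rw [e1, pow_succ]
    exact neg_mem (Ideal.mul_mem_mul ht h0)

/-- surjectivity for coordinates at `p` -/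
theorem sur_co (p : ι → ℂ) (φ : ι → MvPolynomial ι ℂ) (h : IsCo p φ) (k : ℕ)
    (b : MvPolynomial ι ℂ) : ∃ a, b - bind₁ φ a ∈ mI (fun _ : ι => (0 : ℂ)) ^ k := by
  have h0 : ∀ a, eval (fun _ => 0) (φ a - C (p a)) = 0 := by
    intro a
    rw [map_sub, h.1, eval_C, sub_self]
  have hJ : (Matrix.of fun a b => eval (fun _ => (0 : ℂ)) (pderiv b (φ a - C (p a)))).det ≠ 0 := by
    have e : (Matrix.of fun a b => eval (fun _ => (0 : ℂ)) (pderiv b (φ a - C (p a)))) =
        (Matrix.of fun a b => eval (fun _ => (0 : ℂ)) (pderiv b (φ a))) := by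
      ext a b
      simp
    rw [e]
    exact h.2
  obtain ⟨a, ha⟩ := ISO8Aux.sur (fun a => φ a - C (p a)) h0 hJ k b
  refine ⟨bind₁ (fun c => X c - C (p c)) a, ?_⟩
  rw [mI_eq]
  convert ha using 2
  rw [bind₁_bind₁]
  congr 2
  funext c
  simp

end

end CTW9Aux

open CTW9Aux WBAux

theorem stmt_CTW9 : Stmt_CTW9 := by
  rintro ι _ _ f p G hC β ⟨v, hv0, hsup, hG', hG, hD, hF⟩ L
  -- a common order
  choose Nf hNf using hsup
  set N : ℕ := (Finset.range (L + 1)).sup Nf with hN
  have hvN : ∀ i ≤ L, ∀ g ∈ mI (fun _ : ι => (0 : ℂ)) ^ N, v i g = 0 := by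
    intro i hi g hg
    refine hNf i g (Ideal.pow_le_pow_right ?_ hg)
    exact Finset.le_sup (f := Nf) (Finset.mem_range.2 (by omega))
  obtain ⟨φ, U, hφ, hU, hfU⟩ := hC (N + 1)
  set m := mI (fun _ : ι => (0 : ℂ)) with hm
  have hvc : ∀ i ≤ L, ∀ g g', g - g' ∈ m ^ N → v i g = v i g' := by
    intro i hi g g' h
    have := hvN i hi _ h
    rwa [map_sub, sub_eq_zero] at this
  have ht : U - 1 ∈ m := by
    change eval _ _ = 0
    rw [map_sub, hU, map_one, sub_self]
  -- the powers of U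
  obtain ⟨W, hW⟩ : ∃ W : ℂ → MvPolynomial ι ℂ, ∀ γ, W γ = bin γ (U - 1) (N + 1) := ⟨_, fun _ => rfl⟩
  have hW1 : ∀ γ, U * W γ - W (γ + 1) ∈ m ^ N := by
    intro γ
    have h1 := bin_mul γ (U - 1) (N + 1) m ht
    rw [add_sub_cancel, ← hW, ← hW] at h1
    exact Ideal.pow_le_pow_right (Nat.le_succ N) h1
  have hWD : ∀ γ b, pderiv b (W (γ + 1)) - (γ + 1) • (W γ * pderiv b U) ∈ m ^ N := by
    intro γ b
    have h1 := bin_D (γ + 1) (U - 1) N (pderiv b : Derivation ℂ (MvPolynomial ι ℂ) (MvPolynomial ι ℂ))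
    rw [← hW, add_sub_cancel_right, map_sub, Derivation.map_one_eq_zero, sub_zero] at h1
    rw [h1, hW, ← smul_sub, ← sub_mul]
    refine Submodule.smul_of_tower_mem _ _ (Ideal.mul_mem_right _ _ ?_)
    rw [bin, bin, Finset.sum_range_succ, sub_add_cancel_left]
    exact neg_mem (Submodule.smul_of_tower_mem _ _ (Ideal.pow_mem_pow ht _))
  -- the Jacobian matrix
  obtain ⟨J, hJ⟩ : ∃ J, J = (jac φ).det := ⟨_, rfl⟩
  have hJ0 : eval (fun _ => (0 : ℂ)) J ≠ 0 := by
    have hdet : eval (fun _ => (0 : ℂ)) (jac φ).det =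
        (Matrix.of fun a b => eval (fun _ => (0 : ℂ)) (pderiv b (φ a))).det := by
      rw [RingHom.map_det]
      rfl
    rw [hJ, hdet]
    exact hφ.2
  have hJ1 : (jac φ).det ≠ 0 := by
    rw [← hJ]
    intro h
    apply hJ0
    rw [h, map_zero]
  have hder : ∀ b, pderiv b (bind₁ φ f) - (pderiv b U * G + U * pderiv b G) ∈ m ^ N := by
    intro b
    have h1 := D_pow (pderiv b : Derivation ℂ (MvPolynomial ι ℂ) (MvPolynomial ι ℂ)) m N hfU
    rw [map_sub, Derivation.leibniz, smul_eq_mul, smul_eq_mul] at h1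
    have e : pderiv b (bind₁ φ f) - (pderiv b U * G + U * pderiv b G) =
        pderiv b (bind₁ φ f) - (U * pderiv b G + G * pderiv b U) := by ring
    rw [e]
    exact h1
  have hbf : bind₁ φ f - U * G ∈ m ^ N := Ideal.pow_le_pow_right (Nat.le_succ N) hfU
  obtain ⟨v', hv'⟩ : ∃ v' : ℕ → MvPolynomial ι ℂ →ₗ[ℂ] ℂ, ∀ i g,
      v' i g = v i (J * W (β - i) * bind₁ φ g) :=
    ⟨fun i => (v i).comp ((LinearMap.mulLeft ℂ (J * W (β - i))).comp (bind₁ φ).toLinearMap),
      fun _ _ => rfl⟩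
  -- rewriting `J (∂_a f)∘φ`
  have hstep : ∀ a g (w : MvPolynomial ι ℂ), J * w * bind₁ φ (pderiv a f * g) -
      (∑ b, (G * (pderiv b U * (jac φ).adjugate b a * w * bind₁ φ g) +
        pderiv b G * (U * w * ((jac φ).adjugate b a * bind₁ φ g)))) ∈ m ^ N := by
    intro a g w
    have e1 : J * w * bind₁ φ (pderiv a f * g) =
        ∑ b, pderiv b (bind₁ φ f) * (jac φ).adjugate b a * w * bind₁ φ g := by
      rw [map_mul, hJ]
      have h2 := det_bind φ f a
      calc (jac φ).det * w * (bind₁ φ (pderiv a f) * bind₁ φ g) =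
          ((jac φ).det * bind₁ φ (pderiv a f)) * (w * bind₁ φ g) := by ring
        _ = _ := by
          rw [h2, Finset.sum_mul]
          exact Finset.sum_congr rfl fun b _ => by ring
    rw [e1, ← Finset.sum_sub_distrib]
    refine Ideal.sum_mem _ fun b _ => ?_
    have e2 : pderiv b (bind₁ φ f) * (jac φ).adjugate b a * w * bind₁ φ g -
        (G * (pderiv b U * (jac φ).adjugate b a * w * bind₁ φ g) +
          pderiv b G * (U * w * ((jac φ).adjugate b a * bind₁ φ g))) =
        (pderiv b (bind₁ φ f) - (pderiv b U * G + U * pderiv b G)) *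
          ((jac φ).adjugate b a * w * bind₁ φ g) := by ring
    rw [e2]
    exact Ideal.mul_mem_right _ _ (hder b)
  refine ⟨MvPolynomial ι ℂ →ₗ[ℂ] ℂ, inferInstance, inferInstance, WAAux.dualW ι, v', ?_, ?_, ?_,
    ?_, ?_⟩
  · -- nonzero
    intro h0
    apply hv0
    refine LinearMap.ext fun g => ?_
    have hne : eval (fun _ => (0 : ℂ)) (J * W (β - (0 : ℕ))) ≠ 0 := by
      have h1 := bin_one (β - (0 : ℕ)) (U - 1) (N + 1) (by omega) m ht
      rw [← hW] at h1
      have h2 : eval (fun _ => (0 : ℂ)) (W (β - (0 : ℕ))) = 1 := by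
        have h3 : eval (fun _ => (0 : ℂ)) (W (β - (0 : ℕ)) - 1) = 0 := h1
        rwa [map_sub, map_one, sub_eq_zero] at h3
      rw [map_mul, h2, mul_one]
      exact hJ0
    obtain ⟨t, ht'⟩ := exists_inv _ _ hne N
    obtain ⟨a, ha⟩ := sur_co p φ hφ N (t * g)
    have h1 := hv' 0 a
    rw [h0, LinearMap.zero_apply] at h1
    rw [LinearMap.zero_apply, h1]
    refine hvc 0 (Nat.zero_le _) _ _ ?_
    have e : g - J * W (β - (0 : ℕ)) * bind₁ φ a = (J * W (β - (0 : ℕ))) * (t * g - bind₁ φ a) -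
        (t * (J * W (β - (0 : ℕ))) - 1) * g := by ring
    rw [e]
    exact Ideal.sub_mem _ (Ideal.mul_mem_left _ _ ha) (Ideal.mul_mem_right _ _ ht')
  · -- `f v'_0 = 0`
    refine LinearMap.ext fun g => ?_
    rw [WAAux.dualW_pX, hv', LinearMap.zero_apply,
      hvc 0 (Nat.zero_le _) _ (G * (U * J * W (β - (0 : ℕ)) * bind₁ φ g)) ?_, hG]
    rw [map_mul]
    have e : J * W (β - (0 : ℕ)) * (bind₁ φ f * bind₁ φ g) -
        G * (U * J * W (β - (0 : ℕ)) * bind₁ φ g) =
        (J * W (β - (0 : ℕ)) * bind₁ φ g) * (bind₁ φ f - U * G) := by ring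
    rw [e]
    exact Ideal.mul_mem_left _ _ hbf
  · -- `(∂_a f) v'_0 = 0`
    intro a
    refine LinearMap.ext fun g => ?_
    rw [WAAux.dualW_pX, hv', LinearMap.zero_apply, hvc 0 (Nat.zero_le _) _ _ (hstep a g _),
      map_sum]
    refine Finset.sum_eq_zero fun b _ => ?_
    rw [map_add, hG, hG', add_zero]
  · -- derivatives
    intro i hi a
    refine LinearMap.ext fun g => ?_
    rw [WAAux.dualW_pX, WAAux.dualW_D, hv', hv', hvc (i + 1) (by omega) _ _ (hstep a g _),
      map_sum]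
    have hγ : β - ((i + 1 : ℕ) : ℂ) + 1 = β - i := by push_cast; ring
    have h1 : ∀ b, v (i + 1) (G * (pderiv b U * (jac φ).adjugate b a * W (β - ((i + 1 : ℕ) : ℂ)) *
        bind₁ φ g) + pderiv b G * (U * W (β - ((i + 1 : ℕ) : ℂ)) *
          ((jac φ).adjugate b a * bind₁ φ g))) =
        -v i (W (β - i) * (pderiv b (bind₁ φ g) * (jac φ).adjugate b a +
          pderiv b ((jac φ).adjugate b a) * bind₁ φ g)) := by
      intro b
      have h2 : v (i + 1) (pderiv b G * (U * W (β - ((i + 1 : ℕ) : ℂ)) *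
          ((jac φ).adjugate b a * bind₁ φ g))) =
          -v i (pderiv b (W (β - i) * ((jac φ).adjugate b a * bind₁ φ g))) := by
        rw [← hD]
        refine hvc (i + 1) (by omega) _ _ ?_
        have h3 := hW1 (β - ((i + 1 : ℕ) : ℂ))
        rw [hγ] at h3
        have e : pderiv b G * (U * W (β - ((i + 1 : ℕ) : ℂ)) *
            ((jac φ).adjugate b a * bind₁ φ g)) -
            pderiv b G * (W (β - i) * ((jac φ).adjugate b a * bind₁ φ g)) =
            (pderiv b G * ((jac φ).adjugate b a * bind₁ φ g)) *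
              (U * W (β - ((i + 1 : ℕ) : ℂ)) - W (β - i)) := by ring
        rw [e]
        exact Ideal.mul_mem_left _ _ h3
      rw [map_add, hF, h2]
      have h4 : v i (pderiv b (W (β - i) * ((jac φ).adjugate b a * bind₁ φ g))) =
          (β - i) * v i (pderiv b U * (jac φ).adjugate b a * W (β - ((i + 1 : ℕ) : ℂ)) *
            bind₁ φ g) + v i (W (β - i) * (pderiv b (bind₁ φ g) * (jac φ).adjugate b a +
              pderiv b ((jac φ).adjugate b a) * bind₁ φ g)) := by
        rw [← smul_eq_mul (a := β - i), ← map_smul, ← map_add]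
        refine hvc i (by omega) _ _ ?_
        have h5 := hWD (β - ((i + 1 : ℕ) : ℂ)) b
        rw [hγ] at h5
        have e : pderiv b (W (β - i) * ((jac φ).adjugate b a * bind₁ φ g)) -
            ((β - i) • (pderiv b U * (jac φ).adjugate b a * W (β - ((i + 1 : ℕ) : ℂ)) *
              bind₁ φ g) + W (β - i) * (pderiv b (bind₁ φ g) * (jac φ).adjugate b a +
                pderiv b ((jac φ).adjugate b a) * bind₁ φ g)) =
            ((jac φ).adjugate b a * bind₁ φ g) * (pderiv b (W (β - i)) -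
              (β - i) • (W (β - ((i + 1 : ℕ) : ℂ)) * pderiv b U)) := by
          rw [Derivation.leibniz, Derivation.leibniz]
          simp only [smul_eq_mul, MvPolynomial.smul_eq_C_mul]
          ring
        rw [e]
        exact Ideal.mul_mem_left _ _ h5
      rw [h4]
      ring
    rw [Finset.sum_congr rfl fun b _ => h1 b, Finset.sum_neg_distrib, ← map_sum,
      ← Finset.mul_sum, Finset.sum_add_distrib, ← det_bind,
      ← Finset.sum_mul (f := fun b => pderiv b ((jac φ).adjugate b a)), piola φ hJ1 a, zero_mul,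
      add_zero, ← hJ]
    congr 2
    ring
  · intro i hi
    refine LinearMap.ext fun g => ?_
    rw [WAAux.dualW_pX, hv', LinearMap.smul_apply, hv', smul_eq_mul, ← hF]
    refine hvc (i + 1) (by omega) _ _ ?_
    have hγ : β - ((i + 1 : ℕ) : ℂ) + 1 = β - i := by push_cast; ring
    have h3 := hW1 (β - ((i + 1 : ℕ) : ℂ))
    rw [hγ] at h3
    rw [map_mul]
    have e : J * W (β - ((i + 1 : ℕ) : ℂ)) * (bind₁ φ f * bind₁ φ g) -
        G * (J * W (β - i) * bind₁ φ g) =
        (J * W (β - ((i + 1 : ℕ) : ℂ)) * bind₁ φ g) * (bind₁ φ f - U * G) +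
          (G * J * bind₁ φ g) * (U * W (β - ((i + 1 : ℕ) : ℂ)) - W (β - i)) := by ring
    rw [e]
    exact Ideal.add_mem _ (Ideal.mul_mem_left _ _ hbf) (Ideal.mul_mem_left _ _ h3)

end Pool.Agent.Mono.C9
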