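import Pool.Agent.Work.Monodromy.Interface9

/-!
# Phase 9, common lemmas for CG9, MO9, CT9 (helper99)
-/

set_option autoImplicit false
set_option linter.unusedSectionVars false

namespace Pool.Agent.Mono.C9

open MvPolynomial TS RO SP PC

namespace CTAux

lemma mem_mI {ι : Type} {q : ι → ℂ} {g : MvPolynomial ι ℂ} : g ∈ mI q ↔ eval q g = 0 :=
  RingHom.mem_ker

/-- A derivation lowers the power of an ideal by at most one. -/
lemma der_pow {R : Type*} [CommRing R] [Algebra ℂ R] (D : Derivation ℂ R R) (I : Ideal R)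
    (k : ℕ) : ∀ g ∈ I ^ (k + 1), D g ∈ I ^ k := by
  induction k with
  | zero =>
    intro g _
    rw [pow_zero, Ideal.one_eq_top]
    exact Submodule.mem_top
  | succ k ih =>
    intro g hg
    rw [pow_succ] at hg
    refine Submodule.mul_induction_on hg ?_ ?_
    · intro m hm n hn
      rw [Derivation.leibniz, smul_eq_mul, smul_eq_mul]
      refine Ideal.add_mem _ (Ideal.mul_mem_right _ _ hm) ?_
      rw [pow_succ, mul_comm n]
      exact Ideal.mul_mem_mul (ih m hm) hn
    · intro x y hx hy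
      rw [map_add]
      exact Ideal.add_mem _ hx hy

/-- A polynomial which does not vanish at `q` is invertible modulo the powers of `mI q`. -/
lemma unit_mod {ι : Type} {q : ι → ℂ} {s : MvPolynomial ι ℂ} (hs : eval q s ≠ 0) (N : ℕ) :
    ∃ t, s * t - 1 ∈ mI q ^ N := by
  set x : MvPolynomial ι ℂ := C ((eval q s)⁻¹) * s with hx
  have h1 : 1 - x ∈ mI q := by
    rw [mem_mI, map_sub, map_one, hx, map_mul, eval_C, inv_mul_cancel₀ hs, sub_self]
  have h2 := geom_sum_mul (1 - x) N
  refine ⟨C ((eval q s)⁻¹) * ∑ i ∈ Finset.range N, (1 - x) ^ i, ?_⟩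
  have h3 : s * (C ((eval q s)⁻¹) * ∑ i ∈ Finset.range N, (1 - x) ^ i) - 1 =
      -(1 - x) ^ N := by
    have h4 : s * (C ((eval q s)⁻¹) * ∑ i ∈ Finset.range N, (1 - x) ^ i) =
        x * ∑ i ∈ Finset.range N, (1 - x) ^ i := by
      rw [hx]
      ring
    rw [h4]
    linear_combination -h2
  rw [h3]
  exact (mI q ^ N).neg_mem (Ideal.pow_mem_pow h1 N)

section

variable {ι : Type} (f : MvPolynomial ι ℂ) (Z : Finset ι)

lemma mem_Zi (g : MvPolynomial ι ℂ) :
    g ∈ Zi f Z ↔ ∃ c : Z → MvPolynomial ι ℂ, ∑ z, c z * pderiv (z : ι) f = g := by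
  unfold Zi
  rw [Set.image_eq_range]
  exact Ideal.mem_span_range_iff_exists_fun

lemma pd_mem_Zi {z : ι} (hz : z ∈ Z) : pderiv z f ∈ Zi f Z :=
  Ideal.subset_span ⟨z, hz, rfl⟩

lemma pd_mem_Zi' (z : Z) : pderiv (z : ι) f ∈ Zi f Z := pd_mem_Zi f Z z.2

/-- Elements of the square are quadratic forms in the derivatives. -/
lemma mem_Zi_sq (g : MvPolynomial ι ℂ) (hg : g ∈ Zi f Z ^ 2) :
    ∃ c : Matrix Z Z (MvPolynomial ι ℂ), c.transpose = c ∧
      g = ∑ a, ∑ b, c a b * pderiv (a : ι) f * pderiv (b : ι) f := by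
  have h1 : ∃ c : Matrix Z Z (MvPolynomial ι ℂ),
      g = ∑ a, ∑ b, c a b * pderiv (a : ι) f * pderiv (b : ι) f := by
    rw [pow_two] at hg
    refine Submodule.mul_induction_on hg ?_ ?_
    · intro m hm n hn
      obtain ⟨c, rfl⟩ := (mem_Zi f Z m).1 hm
      obtain ⟨d, rfl⟩ := (mem_Zi f Z n).1 hn
      refine ⟨Matrix.of fun a b => c a * d b, ?_⟩
      rw [Finset.sum_mul_sum]
      refine Finset.sum_congr rfl fun a _ => Finset.sum_congr rfl fun b _ => ?_
      rw [Matrix.of_apply]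
      ring
    · rintro x y ⟨c, rfl⟩ ⟨d, rfl⟩
      refine ⟨c + d, ?_⟩
      rw [← Finset.sum_add_distrib]
      refine Finset.sum_congr rfl fun a _ => ?_
      rw [← Finset.sum_add_distrib]
      refine Finset.sum_congr rfl fun b _ => ?_
      rw [Matrix.add_apply]
      ring
  obtain ⟨c, rfl⟩ := h1
  refine ⟨(C (1 / 2 : ℂ) : MvPolynomial ι ℂ) • (c + c.transpose), ?_, ?_⟩
  · rw [Matrix.transpose_smul, Matrix.transpose_add, Matrix.transpose_transpose, add_comm]
  · have h2 : ∑ a, ∑ b, c.transpose a b * pderiv (a : ι) f * pderiv (b : ι) f =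
        ∑ a, ∑ b, c a b * pderiv (a : ι) f * pderiv (b : ι) f := by
      rw [Finset.sum_comm]
      refine Finset.sum_congr rfl fun a _ => Finset.sum_congr rfl fun b _ => ?_
      rw [Matrix.transpose_apply]
      ring
    have h3 : ∑ a, ∑ b, ((C (1 / 2 : ℂ) : MvPolynomial ι ℂ) • (c + c.transpose)) a b *
        pderiv (a : ι) f * pderiv (b : ι) f = C (1 / 2 : ℂ) *
        (∑ a, ∑ b, c a b * pderiv (a : ι) f * pderiv (b : ι) f +
          ∑ a, ∑ b, c.transpose a b * pderiv (a : ι) f * pderiv (b : ι) f) := by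
      rw [← Finset.sum_add_distrib, Finset.mul_sum]
      refine Finset.sum_congr rfl fun a _ => ?_
      rw [← Finset.sum_add_distrib, Finset.mul_sum]
      refine Finset.sum_congr rfl fun b _ => ?_
      rw [Matrix.smul_apply, Matrix.add_apply, smul_eq_mul]
      ring
    rw [h3, h2, ← two_mul, ← mul_assoc]
    have h4 : (C (1 / 2 : ℂ) : MvPolynomial ι ℂ) * 2 = 1 := by
      have : (2 : MvPolynomial ι ℂ) = C (2 : ℂ) := (map_ofNat C 2).symm
      rw [this, ← C_mul]
      norm_num
    rw [h4, one_mul]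

end

section

variable {ι : Type} [DecidableEq ι] (f : MvPolynomial ι ℂ) (Z : Finset ι)

/-- Evaluation of the determinant. -/
lemma eval_dt (q : ι → ℂ) : eval q (dt f Z) =
    (Matrix.of fun a b : Z => eval q (pderiv (a : ι) (pderiv (b : ι) f))).det := by
  unfold dt
  rw [RingHom.map_det]
  rfl

end

/-- Polynomials in two of the variables have no other derivatives. -/
lemma pd_lc9 {ι : Type} (p : ι → ℂ) {u v z : ι} (hu : z ≠ u) (hv : z ≠ v) (lam : ℂ) (G : P2) :
    pderiv z (lc9 p u v lam G) = 0 := by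
  induction G using MvPolynomial.induction_on with
  | C a =>
    rw [MvPolynomial.algHom_C]
    exact pderiv_C
  | add g h hg hh => rw [map_add, map_add, hg, hh, add_zero]
  | mul_X g i hg =>
    rw [map_mul, Derivation.leibniz, hg, smul_zero, add_zero, smul_eq_mul]
    have h1 : pderiv z (lc9 p u v lam (X i)) = 0 := by
      unfold lc9
      rw [aeval_X]
      have h2 : pderiv z (X u : MvPolynomial ι ℂ) = 0 := pderiv_X_of_ne (Ne.symm hu)
      have h3 : pderiv z (X v : MvPolynomial ι ℂ) = 0 := pderiv_X_of_ne (Ne.symm hv)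
      fin_cases i
      · simp [h2, h3]
      · simp [h3]
    rw [h1, mul_zero]

/-- Constants. -/
lemma alg_cc (c : ℂ) : algebraMap ℂ N2 c = cc c := by
  unfold cc
  rw [PowerSeries.algebraMap_apply, PowerSeries.algebraMap_apply]
  rfl

lemma rho_C {ι : Type} (ρ : MvPolynomial ι ℂ →ₐ[ℂ] N2) (c : ℂ) : ρ (C c) = cc c := by
  rw [MvPolynomial.algHom_C, alg_cc]

/-- The parametrisation in the local coordinates. -/
lemma rho_lc9 {ι : Type} {f : MvPolynomial ι ℂ} {Z : Finset ι} {p : ι → ℂ} {u v : ι} {lam : ℂ}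
    {ρ : MvPolynomial ι ℂ →ₐ[ℂ] N2} (hρ : Par9 f Z p u v lam ρ) (G : P2) :
    ρ (lc9 p u v lam G) = sub2 G yy := by
  have h2 : (ρ.comp (lc9 p u v lam)) = aeval ![xx, yy] := by
    apply MvPolynomial.algHom_ext
    intro i
    rw [AlgHom.comp_apply]
    unfold lc9
    rw [aeval_X, aeval_X]
    fin_cases i
    · simp only [Fin.zero_eta, Matrix.cons_val_zero]
      rw [map_sub, map_sub, map_mul, map_sub, rho_C, rho_C, rho_C, hρ.hu, hρ.hv]
      ring
    · simp only [Fin.mk_one, Matrix.cons_val_one, Matrix.cons_val_fin_one]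
      rw [map_sub, rho_C, hρ.hv]
      ring
  exact DFunLike.congr_fun h2 G

end CTAux

end Pool.Agent.Mono.C9
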