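import Pool.Agent.Work.Monodromy.Interface9

/-! MONODROMY, phase 9: basic facts on `N2 = ℂ⟦x⟧⟦y⟧` (helper60).

`cf i j g` = coefficient of `x^i y^j`; `mem_pow_iff`: `g ∈ m2 ^ k` iff all coefficients of degree
`< k` vanish; `mul_cf`; derivations `dX`, `dY`; Taylor formula `taylor2`; limits `lim2`. -/

set_option autoImplicit false

namespace Pool.Agent.Mono.C9

open MvPolynomial

namespace N2Lib

/-- the coefficient of `x^i y^j` -/
noncomputable def cf (i j : ℕ) (g : N2) : ℂ := PowerSeries.coeff i (PowerSeries.coeff j g)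

theorem ext' {g h : N2} (H : ∀ i j, cf i j g = cf i j h) : g = h :=
  PowerSeries.ext fun j => PowerSeries.ext fun i => H i j

@[simp] theorem cf_zero (i j : ℕ) : cf i j 0 = 0 := by simp [cf]

@[simp] theorem cf_add (i j : ℕ) (g h : N2) : cf i j (g + h) = cf i j g + cf i j h := by
  simp [cf]

@[simp] theorem cf_sub (i j : ℕ) (g h : N2) : cf i j (g - h) = cf i j g - cf i j h := by
  simp [cf]

@[simp] theorem cf_neg (i j : ℕ) (g : N2) : cf i j (-g) = -cf i j g := by
  simp [cf]

theorem cf_sum {α : Type*} (s : Finset α) (i j : ℕ) (g : α → N2) :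
    cf i j (∑ a ∈ s, g a) = ∑ a ∈ s, cf i j (g a) := by
  simp [cf, map_sum]

theorem cf_mul (i j : ℕ) (g h : N2) : cf i j (g * h) =
    ∑ q ∈ Finset.HasAntidiagonal.antidiagonal j,
      ∑ p ∈ Finset.HasAntidiagonal.antidiagonal i, cf p.1 q.1 g * cf p.2 q.2 h := by
  unfold cf
  rw [PowerSeries.coeff_mul, map_sum]
  exact Finset.sum_congr rfl fun q _ => PowerSeries.coeff_mul _ _ _

theorem cf_mk (f : ℕ → ℕ → ℂ) (i j : ℕ) :
    cf i j (PowerSeries.mk fun n => PowerSeries.mk fun m => f m n) = f i j := by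
  unfold cf
  rw [PowerSeries.coeff_mk, PowerSeries.coeff_mk]

theorem cf_cc (i j : ℕ) (c : ℂ) : cf i j (cc c) = if i = 0 ∧ j = 0 then c else 0 := by
  unfold cf cc
  rw [PowerSeries.coeff_C]
  by_cases hj : j = 0
  · rw [if_pos hj, PowerSeries.coeff_C]
    simp [hj]
  · rw [if_neg hj, map_zero, if_neg fun h => hj h.2]

theorem cf_xx (i j : ℕ) : cf i j xx = if i = 1 ∧ j = 0 then 1 else 0 := by
  unfold cf xx
  rw [PowerSeries.coeff_C]
  by_cases hj : j = 0
  · rw [if_pos hj, PowerSeries.coeff_X]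
    simp [hj]
  · rw [if_neg hj, map_zero, if_neg fun h => hj h.2]

theorem cf_yy (i j : ℕ) : cf i j yy = if i = 0 ∧ j = 1 then 1 else 0 := by
  unfold cf yy
  rw [PowerSeries.coeff_X]
  by_cases hj : j = 1
  · rw [if_pos hj, PowerSeries.coeff_one]
    simp [hj]
  · rw [if_neg hj, map_zero, if_neg fun h => hj h.2]

/-- series all of whose monomials have degree at least `k` (equal to `m2 ^ k`, see `pow_eq`) -/
noncomputable def Fk (k : ℕ) : Ideal N2 where
  carrier := {g | ∀ i j, i + j < k → cf i j g = 0}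
  add_mem' := by
    intro g h hg hh i j hij
    rw [cf_add, hg i j hij, hh i j hij, add_zero]
  zero_mem' := fun i j _ => cf_zero i j
  smul_mem' := by
    intro c g hg i j hij
    rw [smul_eq_mul, cf_mul]
    refine Finset.sum_eq_zero fun q hq => Finset.sum_eq_zero fun p hp => ?_
    rw [Finset.HasAntidiagonal.mem_antidiagonal] at hq hp
    rw [hg p.2 q.2 (by omega), mul_zero]

theorem mem_Fk {k : ℕ} {g : N2} : g ∈ Fk k ↔ ∀ i j, i + j < k → cf i j g = 0 := Iff.rfl

theorem mul_mem_Fk {k l : ℕ} {g h : N2} (hg : g ∈ Fk k) (hh : h ∈ Fk l) : g * h ∈ Fk (k + l) := by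
  intro i j hij
  rw [cf_mul]
  refine Finset.sum_eq_zero fun q hq => Finset.sum_eq_zero fun p hp => ?_
  rw [Finset.HasAntidiagonal.mem_antidiagonal] at hq hp
  by_cases h1 : p.1 + q.1 < k
  · rw [hg _ _ h1, zero_mul]
  · rw [hh p.2 q.2 (by omega), mul_zero]

theorem xx_mem_Fk : xx ∈ Fk 1 := by
  intro i j hij
  rw [cf_xx, if_neg]
  omega

theorem yy_mem_Fk : yy ∈ Fk 1 := by
  intro i j hij
  rw [cf_yy, if_neg]
  omega

theorem xx_mem : xx ∈ m2 := Ideal.subset_span (by simp)

theorem yy_mem : yy ∈ m2 := Ideal.subset_span (by simp)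

theorem pow_eq (k : ℕ) : m2 ^ k = Fk k := by
  apply le_antisymm
  · induction k with
    | zero =>
      intro g _ i j hij
      omega
    | succ k ih =>
      rw [pow_succ]
      refine Ideal.mul_le.2 fun g hg h hh => mul_mem_Fk (ih hg) ?_
      have h1 : m2 ≤ Fk 1 := by
        refine Ideal.span_le.2 ?_
        rintro z (rfl | rfl)
        · exact xx_mem_Fk
        · exact yy_mem_Fk
      exact h1 hh
  · intro g hg
    have h1 : (PowerSeries.X : N2) ^ k ∣
        g - ∑ j ∈ Finset.range k, PowerSeries.C (PowerSeries.coeff j g) * PowerSeries.X ^ j := by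
      rw [PowerSeries.X_pow_dvd_iff]
      intro m hm
      rw [map_sub, map_sum, Finset.sum_eq_single m]
      · rw [PowerSeries.coeff_C_mul_X_pow, if_pos rfl, sub_self]
      · intro j _ hj
        rw [PowerSeries.coeff_C_mul_X_pow, if_neg (Ne.symm hj)]
      · intro h
        exact absurd (Finset.mem_range.2 hm) h
    obtain ⟨r, hr⟩ := h1
    have h2 : g = yy ^ k * r +
        ∑ j ∈ Finset.range k, PowerSeries.C (PowerSeries.coeff j g) * yy ^ j := by
      unfold yy
      rw [← hr]
      ring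
    rw [h2]
    refine Ideal.add_mem _ (Ideal.mul_mem_right _ _ (Ideal.pow_mem_pow yy_mem k))
      (Ideal.sum_mem _ fun j hj => ?_)
    have hjk := Finset.mem_range.1 hj
    have h3 : (PowerSeries.X : PowerSeries ℂ) ^ (k - j) ∣ PowerSeries.coeff j g := by
      rw [PowerSeries.X_pow_dvd_iff]
      intro i hi
      exact hg i j (by omega)
    obtain ⟨s, hs⟩ := h3
    rw [hs, map_mul, map_pow]
    have h4 : xx ^ (k - j) * yy ^ j ∈ m2 ^ k := by
      have h5 := Ideal.mul_mem_mul (Ideal.pow_mem_pow xx_mem (k - j)) (Ideal.pow_mem_pow yy_mem j)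
      rwa [← pow_add, Nat.sub_add_cancel hjk.le] at h5
    have h6 : PowerSeries.C PowerSeries.X ^ (k - j) * PowerSeries.C s * yy ^ j =
        PowerSeries.C s * (xx ^ (k - j) * yy ^ j) := by
      unfold xx
      ring
    rw [h6]
    exact Ideal.mul_mem_left _ _ h4

/-- **membership in the powers of the maximal ideal** -/
theorem mem_pow_iff {k : ℕ} {g : N2} : g ∈ m2 ^ k ↔ ∀ i j, i + j < k → cf i j g = 0 := by
  rw [pow_eq]
  exact Iff.rfl

theorem e0_eq (g : N2) : e0 g = cf 0 0 g := by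
  unfold e0 cf
  rw [RingHom.comp_apply, PowerSeries.coeff_zero_eq_constantCoeff_apply,
    PowerSeries.coeff_zero_eq_constantCoeff_apply]

theorem mem_m2_iff {g : N2} : g ∈ m2 ↔ e0 g = 0 := by
  rw [← pow_one m2, mem_pow_iff, e0_eq]
  constructor
  · intro h
    exact h 0 0 (by omega)
  · intro h i j hij
    have hi : i = 0 := by omega
    have hj : j = 0 := by omega
    rw [hi, hj, h]

theorem isUnit_iff {g : N2} : IsUnit g ↔ e0 g ≠ 0 := by
  unfold e0
  rw [PowerSeries.isUnit_iff_constantCoeff, PowerSeries.isUnit_iff_constantCoeff,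
    RingHom.comp_apply, isUnit_iff_ne_zero]

theorem eq_zero_of_forall {g : N2} (h : ∀ k, g ∈ m2 ^ k) : g = 0 := by
  refine ext' fun i j => ?_
  rw [cf_zero]
  exact mem_pow_iff.1 (h (i + j + 1)) i j (by omega)

@[simp] theorem e0_cc (c : ℂ) : e0 (cc c) = c := by
  rw [e0_eq, cf_cc, if_pos ⟨rfl, rfl⟩]

@[simp] theorem e0_xx : e0 xx = 0 := by
  rw [e0_eq, cf_xx, if_neg (by omega)]

@[simp] theorem e0_yy : e0 yy = 0 := by
  rw [e0_eq, cf_yy, if_neg (by omega)]

theorem algebraMap_eq (c : ℂ) : algebraMap ℂ N2 c = cc c := by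
  unfold cc
  rw [PowerSeries.algebraMap_apply, PowerSeries.algebraMap_apply]
  rfl

theorem smul_eq (c : ℂ) (g : N2) : c • g = cc c * g := by
  rw [← algebraMap_eq, Algebra.smul_def]

theorem cf_cc_mul (i j : ℕ) (c : ℂ) (g : N2) : cf i j (cc c * g) = c * cf i j g := by
  unfold cc cf
  rw [PowerSeries.coeff_C_mul, PowerSeries.coeff_C_mul]

theorem e0_algebraMap (c : ℂ) : e0 (algebraMap ℂ N2 c) = c := by
  rw [algebraMap_eq, e0_cc]

/-! ### Derivations -/

theorem cf_dX (i j : ℕ) (g : N2) : cf i j (dX g) = cf (i + 1) j g * (i + 1) := by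
  unfold cf dX
  rw [PowerSeries.coeff_mk, PowerSeries.coeff_derivative]

theorem cf_dY (i j : ℕ) (g : N2) : cf i j (dY g) = cf i (j + 1) g * (j + 1) := by
  unfold cf dY
  rw [PowerSeries.coeff_derivative]
  have : ((j : PowerSeries ℂ) + 1) = PowerSeries.C ((j : ℂ) + 1) := by simp
  rw [this, PowerSeries.coeff_mul_C]

theorem dX_add (g h : N2) : dX (g + h) = dX g + dX h := by
  refine ext' fun i j => ?_
  rw [cf_add, cf_dX, cf_dX, cf_dX, cf_add, add_mul]

theorem dY_add (g h : N2) : dY (g + h) = dY g + dY h := by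
  refine ext' fun i j => ?_
  rw [cf_add, cf_dY, cf_dY, cf_dY, cf_add, add_mul]

theorem dX_cc_mul (c : ℂ) (g : N2) : dX (cc c * g) = cc c * dX g := by
  refine ext' fun i j => ?_
  rw [cf_cc_mul, cf_dX, cf_dX, cf_cc_mul, mul_assoc]

theorem dY_cc_mul (c : ℂ) (g : N2) : dY (cc c * g) = cc c * dY g := by
  refine ext' fun i j => ?_
  rw [cf_cc_mul, cf_dY, cf_dY, cf_cc_mul, mul_assoc]

theorem dX_mul (g h : N2) : dX (g * h) = g * dX h + h * dX g := by
  rw [mul_comm h (dX g)]
  refine PowerSeries.ext fun n => ?_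
  rw [map_add, PowerSeries.coeff_mul, PowerSeries.coeff_mul]
  unfold dX
  rw [PowerSeries.coeff_mk, PowerSeries.coeff_mul, map_sum, ← Finset.sum_add_distrib]
  refine Finset.sum_congr rfl fun p _ => ?_
  rw [PowerSeries.coeff_mk, PowerSeries.coeff_mk, Derivation.leibniz, smul_eq_mul, smul_eq_mul,
    mul_comm (PowerSeries.coeff p.2 h)]

theorem der_mul {R : Type} [CommRing R] (g h : PowerSeries R) : PowerSeries.derivative R (g * h) =
    g * PowerSeries.derivative R h + h * PowerSeries.derivative R g := by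
  rw [Derivation.leibniz, smul_eq_mul, smul_eq_mul]

theorem dY_mul (g h : N2) : dY (g * h) = g * dY h + h * dY g := der_mul g h

theorem dX_cc (c : ℂ) : dX (cc c) = 0 := by
  refine ext' fun i j => ?_
  rw [cf_dX, cf_cc, if_neg (by omega), zero_mul, cf_zero]

theorem dY_cc (c : ℂ) : dY (cc c) = 0 := by
  refine ext' fun i j => ?_
  rw [cf_dY, cf_cc, if_neg (by omega), zero_mul, cf_zero]

theorem dX_zero : dX 0 = 0 := by
  refine ext' fun i j => ?_
  rw [cf_dX, cf_zero, cf_zero, zero_mul]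

theorem dY_zero : dY 0 = 0 := by
  refine ext' fun i j => ?_
  rw [cf_dY, cf_zero, cf_zero, zero_mul]

theorem cc_zero : cc 0 = 0 := by
  unfold cc
  rw [map_zero, map_zero]

theorem cc_one : cc 1 = 1 := by
  unfold cc
  rw [map_one, map_one]

theorem dX_xx : dX xx = 1 := by
  rw [← cc_one]
  refine ext' fun i j => ?_
  rw [cf_dX, cf_xx, cf_cc]
  by_cases h : i = 0 ∧ j = 0
  · rw [if_pos (by omega), if_pos h, h.1]
    simp
  · rw [if_neg (by omega), if_neg h, zero_mul]

theorem dX_yy : dX yy = 0 := by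
  refine ext' fun i j => ?_
  rw [cf_dX, cf_yy, if_neg (by omega), zero_mul, cf_zero]

theorem dY_xx : dY xx = 0 := by
  refine ext' fun i j => ?_
  rw [cf_dY, cf_xx, if_neg (by omega), zero_mul, cf_zero]

theorem dY_yy : dY yy = 1 := by
  rw [← cc_one]
  refine ext' fun i j => ?_
  rw [cf_dY, cf_yy, cf_cc]
  by_cases h : i = 0 ∧ j = 0
  · rw [if_pos (by omega), if_pos h, h.2]
    simp
  · rw [if_neg (by omega), if_neg h, zero_mul]

theorem dX_dY (g : N2) : dX (dY g) = dY (dX g) := by
  refine ext' fun i j => ?_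
  rw [cf_dX, cf_dY, cf_dY, cf_dX]
  ring

theorem dX_mem {k : ℕ} {g : N2} (h : g ∈ m2 ^ (k + 1)) : dX g ∈ m2 ^ k := by
  rw [mem_pow_iff] at h ⊢
  intro i j hij
  rw [cf_dX, h (i + 1) j (by omega), zero_mul]

theorem dY_mem {k : ℕ} {g : N2} (h : g ∈ m2 ^ (k + 1)) : dY g ∈ m2 ^ k := by
  rw [mem_pow_iff] at h ⊢
  intro i j hij
  rw [cf_dY, h i (j + 1) (by omega), zero_mul]

/-- `ρ` is determined by derivatives: a derivation over `ρ` -/
theorem der_eq {ι : Type} [Fintype ι] (ρ : MvPolynomial ι ℂ →ₐ[ℂ] N2) (E : MvPolynomial ι ℂ → N2)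
    (hC : ∀ c, E (C c) = 0) (hadd : ∀ g h, E (g + h) = E g + E h)
    (hmul : ∀ g h, E (g * h) = ρ g * E h + ρ h * E g) (g : MvPolynomial ι ℂ) :
    E g = ∑ a, ρ (pderiv a g) * E (X a) := by
  classical
  induction g using MvPolynomial.induction_on with
  | C c => simp [hC]
  | add g h hg hh =>
    rw [hadd, hg, hh, ← Finset.sum_add_distrib]
    exact Finset.sum_congr rfl fun a _ => by rw [map_add, map_add, add_mul]
  | mul_X g b hg =>
    rw [hmul, hg, Finset.mul_sum]
    have h1 : ∀ a, ρ (pderiv a (g * X b)) * E (X a) =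
        (if a = b then ρ g * E (X b) else 0) + ρ (X b) * (ρ (pderiv a g) * E (X a)) := by
      intro a
      rw [Derivation.leibniz, smul_eq_mul, smul_eq_mul, pderiv_X, map_add, map_mul, map_mul]
      by_cases hab : a = b
      · subst hab
        rw [Pi.single_eq_same, if_pos rfl, map_one]
        ring
      · rw [Pi.single_eq_of_ne (Ne.symm hab), if_neg hab, map_zero]
        ring
    rw [Finset.sum_congr rfl fun a _ => h1 a, Finset.sum_add_distrib, Finset.sum_ite_eq']
    simp

/-- Taylor formula of order two for values in a ring -/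
theorem taylor2 {ι : Type} [Fintype ι] {R : Type} [CommRing R] [Algebra ℂ R] (J : Ideal R)
    (ξ η : ι → R) (hη : ∀ a b, η a * η b ∈ J) (F : MvPolynomial ι ℂ) :
    aeval (fun a => ξ a + η a) F - aeval ξ F - ∑ a, η a * aeval ξ (pderiv a F) ∈ J := by
  classical
  induction F using MvPolynomial.induction_on with
  | C c => simp [algHom_C]
  | add g h hg hh =>
    have h1 : aeval (fun a => ξ a + η a) (g + h) - aeval ξ (g + h) -
        ∑ a, η a * aeval ξ (pderiv a (g + h)) =
        (aeval (fun a => ξ a + η a) g - aeval ξ g - ∑ a, η a * aeval ξ (pderiv a g)) +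
        (aeval (fun a => ξ a + η a) h - aeval ξ h - ∑ a, η a * aeval ξ (pderiv a h)) := by
      have h2 : ∑ a, η a * aeval ξ (pderiv a (g + h)) =
          ∑ a, η a * aeval ξ (pderiv a g) + ∑ a, η a * aeval ξ (pderiv a h) := by
        rw [← Finset.sum_add_distrib]
        exact Finset.sum_congr rfl fun a _ => by rw [map_add, map_add, mul_add]
      rw [h2, map_add, map_add]
      ring
    rw [h1]
    exact Ideal.add_mem _ hg hh
  | mul_X g b hg =>
    have h1 : ∑ a, η a * aeval ξ (pderiv a (g * X b)) =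
        η b * aeval ξ g + ξ b * ∑ a, η a * aeval ξ (pderiv a g) := by
      have h2 : ∀ a, η a * aeval ξ (pderiv a (g * X b)) =
          (if a = b then η b * aeval ξ g else 0) + ξ b * (η a * aeval ξ (pderiv a g)) := by
        intro a
        rw [Derivation.leibniz, smul_eq_mul, smul_eq_mul, pderiv_X, map_add, map_mul, map_mul,
          aeval_X]
        by_cases hab : a = b
        · subst hab
          rw [Pi.single_eq_same, if_pos rfl, map_one]
          ring
        · rw [Pi.single_eq_of_ne (Ne.symm hab), if_neg hab, map_zero]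
          ring
      rw [Finset.sum_congr rfl fun a _ => h2 a, Finset.sum_add_distrib, Finset.sum_ite_eq',
        if_pos (Finset.mem_univ _), Finset.mul_sum]
    rw [h1, map_mul, map_mul, aeval_X, aeval_X]
    have h3 : aeval (fun a => ξ a + η a) g * (ξ b + η b) - aeval ξ g * ξ b -
        (η b * aeval ξ g + ξ b * ∑ a, η a * aeval ξ (pderiv a g)) =
        (aeval (fun a => ξ a + η a) g - aeval ξ g - ∑ a, η a * aeval ξ (pderiv a g)) *
          (ξ b + η b) + ∑ a, η a * η b * aeval ξ (pderiv a g) := by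
      have h4 : ∑ a, η a * η b * aeval ξ (pderiv a g) =
          η b * ∑ a, η a * aeval ξ (pderiv a g) := by
        rw [Finset.mul_sum]
        exact Finset.sum_congr rfl fun a _ => by ring
      rw [h4]
      ring
    rw [h3]
    exact Ideal.add_mem _ (Ideal.mul_mem_right _ _ hg)
      (Ideal.sum_mem _ fun a _ => Ideal.mul_mem_right _ _ (hη a b))

/-- congruent arguments give congruent values -/
theorem aeval_congr {ι : Type} {R : Type} [CommRing R] [Algebra ℂ R] (J : Ideal R) (ξ ξ' : ι → R)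
    (h : ∀ a, ξ a - ξ' a ∈ J) (F : MvPolynomial ι ℂ) : aeval ξ F - aeval ξ' F ∈ J := by
  induction F using MvPolynomial.induction_on with
  | C c => simp [algHom_C]
  | add g h hg hh =>
    have h1 : aeval ξ (g + h) - aeval ξ' (g + h) =
        (aeval ξ g - aeval ξ' g) + (aeval ξ h - aeval ξ' h) := by
      rw [map_add, map_add]
      ring
    rw [h1]
    exact Ideal.add_mem _ hg hh
  | mul_X g b hg =>
    have h1 : aeval ξ (g * X b) - aeval ξ' (g * X b) =
        (aeval ξ g - aeval ξ' g) * ξ b + aeval ξ' g * (ξ b - ξ' b) := by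
      rw [map_mul, map_mul, aeval_X, aeval_X]
      ring
    rw [h1]
    exact Ideal.add_mem _ (Ideal.mul_mem_right _ _ hg) (Ideal.mul_mem_left _ _ (h b))

/-- limits of Cauchy sequences -/
theorem lim2 (ξ : ℕ → N2) (h : ∀ k, ξ (k + 1) - ξ k ∈ m2 ^ (k + 1)) :
    ∃ η : N2, ∀ k, η - ξ k ∈ m2 ^ (k + 1) := by
  have h1 : ∀ k l i j, i + j ≤ k → cf i j (ξ (k + l)) = cf i j (ξ k) := by
    intro k l i j hij
    induction l with
    | zero => rfl
    | succ l ih =>
      have h2 := mem_pow_iff.1 (h (k + l)) i j (by omega)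
      rw [cf_sub, sub_eq_zero] at h2
      rw [← ih, ← h2]
      rfl
  refine ⟨PowerSeries.mk fun n => PowerSeries.mk fun m => cf m n (ξ (m + n)), fun k => ?_⟩
  rw [mem_pow_iff]
  intro i j hij
  rw [cf_sub, cf_mk fun m n => cf m n (ξ (m + n))]
  obtain ⟨l, rfl⟩ := Nat.exists_eq_add_of_le (show i + j ≤ k by omega)
  rw [h1 (i + j) l i j le_rfl, sub_self]

end N2Lib

end Pool.Agent.Mono.C9
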