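import Pool.Agent.Work.Monodromy.Interface9
import Pool.Agent.Work.Monodromy6.VPT

/-!
# Block BAS9 (helper72): the volumes of a plane germ in the form `PD9`
-/

set_option autoImplicit false
set_option linter.unusedSectionVars false

namespace Pool.Agent.Mono.C9

open MvPolynomial TS RO SP PC VGAux VPTAux

namespace BAS9Aux

theorem Ft_zero (F : P2) (h : eval (fun _ => 0) F = 0) : Ft F (fun _ => 0) = F := by
  unfold Ft
  rw [h, C_0, sub_zero]
  have : (fun i : Fin 2 => (X i + C ((fun _ => (0 : ℂ)) i) : P2)) = X := by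
    funext i
    simp
  rw [this, aeval_X_left, AlgHom.id_apply]

theorem coeff_zero (F : P2) (x : Fin 2 → PowerSeries ℂ)
    (hx : ∀ i, PowerSeries.coeff 0 (x i) = 0) :
    PowerSeries.coeff 0 (aeval x F) = eval (fun _ => 0) F := by
  have h1 := O5Aux.coeff_zero (E := Empty) F ((fun a => a.elim), x)
  simp only [O5Aux.bs, Sum.elim_inr] at h1
  rw [h1]
  congr 2
  funext j
  exact hx j

theorem ZL_LS {E : Type} (F : P2) (Q : Set (E ⊕ Unit → ℂ)) (m : ℕ) :
    ZL F {fun _ => 0} Q m = LS F Q m := by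
  ext z
  constructor
  · rintro ⟨h1, h2⟩
    exact ⟨fun i => congrFun h1 i, h2⟩
  · rintro ⟨h1, h2⟩
    exact ⟨funext h1, h2⟩

theorem vol_empty (P : HodgeMeasure) {E ι : Type} [Finite E] [Fintype ι] :
    vol P.rat xq (∅ : Set ((E → ℂ) × (ι → PowerSeries ℂ))) = 0 := by
  have h3 := vol_biU P (∅ : Finset ℕ)
    (s := fun _ => (∅ : Set ((E → ℂ) × (ι → PowerSeries ℂ)))) (by simp) (by simp)
  simpa using h3

theorem fcl_haar (P : HodgeMeasure) {E : Type} [Finite E] (α : K) {Q : Set (E ⊕ Unit → ℂ)}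
    (hQ : QU Q) : fcl P (haar α) Q = P.rat.val Q := by
  have e1 : fcl P (haar α) Q = P.rat.val {z : E ⊕ Unit → ℂ |
      (fun s => z (Sum.inr s)) ∈ {z : Unit → ℂ | z () ≠ 0} ∧ z ∈ Q} := by
    unfold fcl
    have h4 : {z : E ⊕ (haar α).σ → ℂ | (fun s => z (Sum.inr s)) ∈ (haar α).S ∧
        (Sum.elim (fun e => z (Sum.inl e))
          fun _ => eval (fun s => z (Sum.inr s)) (haar α).u) ∈ Q} =
        {z : E ⊕ Unit → ℂ | (fun s => z (Sum.inr s)) ∈ {z : Unit → ℂ | z () ≠ 0} ∧
          z ∈ Q} := by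
      ext (z : E ⊕ Unit → ℂ)
      have h5 : (Sum.elim (fun e => z (Sum.inl e))
          fun _ : Unit => eval (fun s => z (Sum.inr s)) (haar α).u) = z := by
        funext s
        rcases s with s | s
        · rfl
        · exact eval_X (f := fun s => z (Sum.inr s)) ()
      constructor
      · rintro ⟨h1, h2⟩
        refine ⟨h1, ?_⟩
        have h6 : (Sum.elim (fun e => z (Sum.inl e))
          fun _ : Unit => eval (fun s => z (Sum.inr s)) (haar α).u) ∈ Q := h2
        rw [h5] at h6
        exact h6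
      · rintro ⟨h1, h2⟩
        refine ⟨h1, ?_⟩
        rw [← h5] at h2
        exact h2
    rw [h4]
    rfl
  rw [e1]
  congr 1
  ext z
  exact ⟨fun h => h.2, fun h => ⟨hQ.2 z h, h⟩⟩

/-- germs which do not vanish at the origin -/
theorem unit (P : HodgeMeasure) (Λ : Set ℚ) (F : P2) (h : eval (fun _ => 0) F ≠ 0) :
    PD9 P F Λ := by
  obtain ⟨-, -, -, hfin, -, -, -⟩ := stmt_Q1
  refine ⟨0, ?_, ?_⟩
  · intro E _ Q hQ
    refine hfin Λ _ 0 fun m _ => ?_
    split_ifs with hm
    · rfl
    · have h1 : ZL F {fun _ => 0} Q m = ∅ := by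
        rw [ZL_LS]
        ext z
        simp only [Set.mem_empty_iff_false, iff_false]
        rintro ⟨h1, h2, -⟩
        exact h (by rw [← coeff_zero F z.2 h1]; exact h2 0 (by omega))
      rw [h1, vol_empty]
      ring
  · refine hfin Λ _ 0 fun m _ => ?_
    have h1 : {z : (Empty → ℂ) × (Fin 2 → PowerSeries ℂ) |
      (∀ a, PowerSeries.coeff 0 (z.2 a) = 0) ∧
        ∀ l ≤ m, PowerSeries.coeff l (aeval z.2 F) = 0} = ∅ := by
      ext z
      simp only [Set.mem_ofPred_eq, Set.mem_empty_iff_false, iff_false]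
      rintro ⟨h1, h2⟩
      exact h (by rw [← coeff_zero F z.2 h1]; exact h2 0 (by omega))
    rw [h1, vol_empty]
    ring

end BAS9Aux

open BAS9Aux

theorem stmt_BAS9 (hVL : Stmt_VL0) (hVM : Stmt_VM0) (hEMB : Stmt_EMB) (hES : Stmt_ESUM) :
    Stmt_BAS9 := by
  classical
  intro P Λ F hΛ hG
  by_cases hF0 : eval (fun _ => 0) F = 0
  swap
  · exact unit P Λ F hF0
  have hFt := Ft_zero F hF0
  obtain ⟨φ, hφ⟩ := hEMB
  obtain ⟨α, ts, hts, hex⟩ := hVL P Λ F hG
  have hmass := hVM P φ Λ F hφ hG
  have hL := VAAux.L_mul P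
  -- the sequences
  have hQ3 := stmt_Q3.1
  have hv : ∀ t ∈ ts, ∃ v : K, ESeq Λ fun m => v - ∑ j ∈ Finset.range (m + 1), t.κ j :=
    fun t ht => hQ3 Λ t.κ hΛ (hts t ht).2
  choose! v hv using hv
  set b : ℕ → K := fun m => (ts.map fun t => famV P t *
    (v t - ∑ j ∈ Finset.range (m + 1), t.κ j)).sum with hb
  have hbE : ESeq Λ b := ESeq_sum Λ ts (famV P)
    (fun t m => v t - ∑ j ∈ Finset.range (m + 1), t.κ j) hv
  set c0 : K := α + (ts.map fun t => famV P t * (v t - t.κ 0)).sum with hc0
  have hgood : ∀ t ∈ haar α :: ts, t.Good := by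
    intro t ht
    rcases List.mem_cons.1 ht with rfl | h
    · exact haar_good α
    · exact (hts t h).1
  -- the volumes of the exact sets with all leading coefficients
  set g : ℕ → K := fun m => ((haar α :: ts).map fun t => t.κ m * famV P t).sum with hg
  have hvolB : ∀ (E : Type) [Finite E] (B : Set (E → ℂ)), Constructible B → ∀ m, 1 ≤ m →
      vol P.rat xq (LS F (QB B) m) = P.rat.val B * g m := by
    intro E _ B hB m hm
    rw [hex E (QB B) ⟨con_QB hB, fun z hz => hz.2⟩ m hm]
    simp only [hg]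
    rw [← List.sum_map_mul_left]
    congr 1
    apply List.map_congr_left
    intro t ht
    rw [fcl_QB P (hgood t ht) hB]
    ring
  have hsumg : ∀ i, ∑ j ∈ Finset.range i, g (j + 1) = c0 - α * xq ^ i - b i := by
    intro i
    have h1 : ∀ m, g m = α * (xq ^ m * (P.rat.L - 1)) +
        (ts.map fun t => t.κ m * famV P t).sum := by
      intro m
      simp only [hg, List.map_cons, List.sum_cons, famV_haar]
      change α * xq ^ m * (P.rat.L - 1) + _ = _
      ring
    rw [Finset.sum_congr rfl (fun j _ => h1 (j + 1)), Finset.sum_add_distrib, ← Finset.mul_sum,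
      geom P i, sum_list]
    simp only [hc0, hb]
    have h2 : (ts.map fun t => ∑ j ∈ Finset.range i, t.κ (j + 1) * famV P t).sum =
        (ts.map fun t => famV P t * (v t - t.κ 0)).sum -
        (ts.map fun t => famV P t * (v t - ∑ j ∈ Finset.range (i + 1), t.κ j)).sum := by
      rw [← sum_sub]
      congr 1
      apply List.map_congr_left
      intro t _
      rw [Finset.sum_range_succ' (fun j => t.κ j), ← Finset.sum_mul]
      ring
    rw [h2]
    ring
  -- the constant
  have hconst : (xq : K) ^ 2 = c0 := by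
    apply φ.injective
    have hq : (fun m : ℕ => φ (vol P.rat xq (LS F QF m))) =
        fun m => if m = 0 then 0 else φ (g m) := by
      funext m
      have hQF : (QF : Set (Empty ⊕ Unit → ℂ)) = QB Set.univ := by
        ext z
        simp [QF, QB]
      split_ifs with hm
      · subst hm
        have h1 : LS F (QF : Set (Empty ⊕ Unit → ℂ)) 0 = ∅ := by
          ext z
          simp only [Set.mem_empty_iff_false, iff_false]
          rintro ⟨h1, -, h3⟩
          refine h3 ?_
          change PowerSeries.coeff 0 (aeval z.2 F) = 0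
          rw [coeff_zero F z.2 h1, hF0]
        rw [h1, BAS9Aux.vol_empty P, map_zero]
      · rw [hQF, hvolB Empty Set.univ Constructible.univ m (by omega), P.rat.point, one_mul]
    rw [hq] at hmass
    have h1 := hmass.tendsto_sum_nat
    have h2 : (fun n : ℕ => ∑ i ∈ Finset.range (n + 1), (if i = 0 then (0 : ℝ) else φ (g i))) =
        fun n => φ c0 - φ α * φ xq ^ n - φ (b n) := by
      funext n
      rw [Finset.sum_range_succ']
      simp only [Nat.add_eq_zero_iff, one_ne_zero, and_false, if_false, if_true, add_zero]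
      rw [← map_sum, hsumg n, map_sub, map_sub, map_mul, map_pow]
    have h3 := (Filter.tendsto_add_atTop_iff_nat 1).2 h1
    rw [h2] at h3
    have hxq : φ xq = (φ RatFunc.X)⁻¹ := by rw [xq, map_inv₀]
    have h4 : Filter.Tendsto (fun n : ℕ => φ xq ^ n) Filter.atTop (nhds 0) := by
      apply tendsto_pow_atTop_nhds_zero_of_lt_one
      · rw [hxq]
        exact inv_nonneg.mpr (by linarith)
      · rw [hxq]
        exact inv_lt_one_of_one_lt₀ hφ
    have h5 : Filter.Tendsto (fun n : ℕ => φ (b n)) Filter.atTop (nhds 0) := by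
      have h6 := hES φ b hφ (stmt_Q1.1 Λ (Set.Ioi 0) b hΛ hbE)
      have h7 := h6.tendsto_atTop_zero
      exact (tendsto_zero_iff_abs_tendsto_zero _).2 h7
    have h6 : Filter.Tendsto (fun n => φ c0 - φ α * φ xq ^ n - φ (b n)) Filter.atTop
        (nhds (φ c0 - φ α * 0 - 0)) := ((tendsto_const_nhds.sub (h4.const_mul _)).sub h5)
    have h7 := tendsto_nhds_unique h3 h6
    rw [h7]
    ring
  obtain ⟨-, hadd, hmul, hfin, -, -, -⟩ := stmt_Q1
  refine ⟨α, ?_, ?_⟩
  · intro E _ Q hQ
    have h1 : ESeq Λ fun m => (ts.map fun t => fcl P t Q * t.κ m).sum :=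
      ESeq_sum Λ ts (fun t => fcl P t Q) (fun t m => t.κ m) fun t ht => (hts t ht).2
    have h2 : ESeq Λ fun m => if m = 0 then - (ts.map fun t => fcl P t Q * t.κ 0).sum else 0 :=
      hfin Λ _ 1 fun m hm => by rw [if_neg (by omega)]
    have h3 := hadd Λ _ _ h1 h2
    convert h3 using 1
    funext m
    by_cases hm : m = 0
    · subst hm
      simp
    · rw [if_neg hm, if_neg hm, add_zero, ZL_LS, hex E Q hQ m (by omega), List.map_cons,
        List.sum_cons, fcl_haar P α hQ]
      change α * xq ^ m * P.rat.val Q + _ - _ = _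
      rw [add_sub_cancel_left]
      congr 1
      apply List.map_congr_left
      intro t _
      rw [mul_comm]
  · convert hbE using 1
    funext m
    have h1 := TT_eq P F (fun _ => 0) (E := Empty) Constructible.univ m
    rw [hFt] at h1
    have h2 : {z : (Empty → ℂ) × (Fin 2 → PowerSeries ℂ) |
      (∀ a, PowerSeries.coeff 0 (z.2 a) = 0) ∧
        ∀ l ≤ m, PowerSeries.coeff l (aeval z.2 F) = 0} = TT F Set.univ m := by
      ext z
      constructor
      · rintro ⟨h1, h2⟩
        exact ⟨Set.mem_univ _, h1, fun j hj => h2 j (by omega)⟩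
      · rintro ⟨-, h1, h2⟩
        exact ⟨h1, fun j hj => h2 j (by omega)⟩
    rw [h2, h1, Finset.sum_congr rfl (fun j _ => hvolB Empty Set.univ Constructible.univ (j + 1)
      (by omega)), ← Finset.mul_sum, hsumg m, P.rat.point, hconst]
    ring

end Pool.Agent.Mono.C9
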