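import Pool.Agent.Work.Monodromy.Interface9

/-!
# Block CE9 (helper1): truncation of Weierstrass polynomials
-/

set_option autoImplicit false

namespace Pool.Agent.Mono.C9

open MvPolynomial

namespace CE9Aux

/-! ### coefficients -/

theorem algMap (a : ℂ) : algebraMap ℂ N2 a = PowerSeries.C (PowerSeries.C a) := by
  rw [PowerSeries.algebraMap_apply]
  rfl

theorem gen_add {R : Type} [CommRing R] (a b : PowerSeries R) :
    PowerSeries.derivative R (a + b) = PowerSeries.derivative R a + PowerSeries.derivative R b :=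
  map_add _ _ _

theorem gen_mul {R : Type} [CommRing R] (a b : PowerSeries R) :
    PowerSeries.derivative R (a * b) =
      a * PowerSeries.derivative R b + b * PowerSeries.derivative R a :=
  (PowerSeries.derivative R).leibniz a b

theorem aeval_xx (p : Polynomial ℂ) :
    Polynomial.aeval xx p = (PowerSeries.C (p : PowerSeries ℂ) : N2) := by
  induction p using Polynomial.induction_on' with
  | add p q hp hq => rw [map_add, hp, hq, Polynomial.coe_add, map_add]
  | monomial n a =>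
    rw [Polynomial.aeval_monomial, Polynomial.coe_monomial, PowerSeries.monomial_eq_C_mul_X_pow,
      map_mul, map_pow, algMap]
    rfl

/-- evaluation of polynomials with coefficients in `ℂ⟦x⟧` -/
noncomputable def ev (ψ : N2) : Polynomial (PowerSeries ℂ) →+* N2 :=
  Polynomial.eval₂RingHom PowerSeries.C ψ

theorem ev_monomial (ψ : N2) (n : ℕ) (a : PowerSeries ℂ) :
    ev ψ (Polynomial.monomial n a) = PowerSeries.C a * ψ ^ n := by
  unfold ev
  rw [Polynomial.coe_eval₂RingHom, Polynomial.eval₂_monomial]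

/-- truncated coefficients -/
noncomputable def Tr (N : ℕ) (W : Polynomial (PowerSeries ℂ)) : Polynomial (PowerSeries ℂ) :=
  ∑ i ∈ Finset.range (W.natDegree + 1),
    Polynomial.monomial i ((PowerSeries.trunc N (W.coeff i) : Polynomial ℂ) : PowerSeries ℂ)

/-- as a polynomial in two variables -/
noncomputable def Gp (N : ℕ) (W : Polynomial (PowerSeries ℂ)) : PC.P2 :=
  ∑ i ∈ Finset.range (W.natDegree + 1),
    Polynomial.aeval (X 0 : PC.P2) (PowerSeries.trunc N (W.coeff i)) * X 1 ^ i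

theorem sub2_Gp (N : ℕ) (W : Polynomial (PowerSeries ℂ)) (ψ : N2) :
    sub2 (Gp N W) ψ = ev ψ (Tr N W) := by
  unfold sub2 Gp Tr
  rw [map_sum, map_sum]
  refine Finset.sum_congr rfl fun i _ => ?_
  rw [map_mul, map_pow, ev_monomial, aeval_X, ← Polynomial.aeval_algHom_apply,
    aeval_X]
  simp only [Matrix.cons_val_zero, Matrix.cons_val_one]
  rw [aeval_xx]

theorem Tr_eq (N : ℕ) (W : Polynomial (PowerSeries ℂ)) :
    ∃ ρ : Polynomial (PowerSeries ℂ), Tr N W = W + Polynomial.C (PowerSeries.X ^ N) * ρ := by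
  have h : ∀ i, ∃ b : PowerSeries ℂ,
      ((PowerSeries.trunc N (W.coeff i) : Polynomial ℂ) : PowerSeries ℂ) =
        W.coeff i + PowerSeries.X ^ N * b := by
    intro i
    refine ⟨-PowerSeries.mk (fun j => PowerSeries.coeff (j + N) (W.coeff i)), ?_⟩
    have := PowerSeries.eq_X_pow_mul_shift_add_trunc N (W.coeff i)
    linear_combination -this
  choose b hb using h
  refine ⟨∑ i ∈ Finset.range (W.natDegree + 1), Polynomial.monomial i (b i), ?_⟩
  unfold Tr
  have hW := W.as_sum_range' (W.natDegree + 1) (Nat.lt_succ_self _)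
  have h2 : W + Polynomial.C (PowerSeries.X ^ N) *
      ∑ i ∈ Finset.range (W.natDegree + 1), Polynomial.monomial i (b i) =
      ∑ i ∈ Finset.range (W.natDegree + 1), Polynomial.monomial i (W.coeff i) +
      Polynomial.C (PowerSeries.X ^ N) *
      ∑ i ∈ Finset.range (W.natDegree + 1), Polynomial.monomial i (b i) := by
    rw [← hW]
  rw [h2, Finset.mul_sum, ← Finset.sum_add_distrib]
  refine Finset.sum_congr rfl fun i _ => ?_
  rw [hb i, Polynomial.C_mul_monomial, ← map_add]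

theorem ev_yy (W : Polynomial (PowerSeries ℂ)) : ev yy W = (W : N2) := by
  induction W using Polynomial.induction_on' with
  | add p q hp hq => rw [map_add, hp, hq, Polynomial.coe_add]
  | monomial n a =>
    rw [ev_monomial, Polynomial.coe_monomial, PowerSeries.monomial_eq_C_mul_X_pow]
    rfl

theorem dY_add (a b : N2) : dY (a + b) = dY a + dY b := gen_add a b

theorem dY_mul (a b : N2) : dY (a * b) = a * dY b + b * dY a := by
  exact gen_mul a b

theorem dY_C (a : PowerSeries ℂ) : dY (PowerSeries.C a : N2) = 0 := by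
  unfold dY
  exact PowerSeries.derivative_C

theorem dY_pow (a : N2) (n : ℕ) : dY (a ^ n) = n * a ^ (n - 1) * dY a :=
  PowerSeries.derivative_pow a n

theorem dY_xx_pow (k : ℕ) : dY (xx ^ k) = 0 := by
  unfold xx
  rw [← map_pow]
  exact dY_C _

theorem dY_aeval (W : Polynomial (PowerSeries ℂ)) (ψ : N2) :
    dY (ev ψ W) = ev ψ W.derivative * dY ψ := by
  induction W using Polynomial.induction_on' with
  | add p q hp hq => rw [map_add, dY_add, hp, hq, Polynomial.derivative_add, map_add, add_mul]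
  | monomial n a =>
    rw [ev_monomial, dY_mul, dY_C, Polynomial.derivative_monomial, ev_monomial, dY_pow, map_mul]
    rw [map_natCast]
    ring

theorem dY_coe (W : Polynomial (PowerSeries ℂ)) : dY (W : N2) = (W.derivative : N2) := by
  unfold dY
  exact PowerSeries.derivative_coe W

theorem binom (W : Polynomial (PowerSeries ℂ)) (ψ η : N2) :
    ∃ q : N2, ev (ψ + η) W = ev ψ W + ev ψ W.derivative * η + q * η ^ 2 := by
  obtain ⟨q, hq⟩ := Polynomial.binomExpansion (W.map (PowerSeries.C : PowerSeries ℂ →+* N2)) ψ η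
  refine ⟨q, ?_⟩
  rw [Polynomial.derivative_map] at hq
  unfold ev
  simpa only [Polynomial.eval_map, Polynomial.coe_eval₂RingHom] using hq

theorem e0_add (a b : N2) : e0 (a + b) = e0 a + e0 b := map_add _ _ _
theorem e0_mul (a b : N2) : e0 (a * b) = e0 a * e0 b := map_mul _ _ _

theorem e0_xx : e0 xx = 0 := by
  unfold e0 xx
  simp

theorem isUnit_of_e0 (v : N2) (h : e0 v ≠ 0) : IsUnit v := by
  rw [PowerSeries.isUnit_iff_constantCoeff, PowerSeries.isUnit_iff_constantCoeff]
  exact isUnit_iff_ne_zero.2 h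

/-! ### the iteration -/

theorem step (n : ℕ) (W : ℕ → N2) (Γ : ℕ → Polynomial (PowerSeries ℂ)) (c : ℕ) (A B : ℕ → N2)
    (cert : ∀ j ∈ Finset.Icc 1 n, xx ^ c = A j * W j +
      B j * (∏ i ∈ (Finset.Icc 1 n).erase j, W i) * dY (W j)) (k : ℕ) (hk : 2 * c + 1 ≤ k)
    (ψ : N2) (v : ℕ → N2) (h1 : xx ∣ ψ - yy) (h2 : ∀ j ∈ Finset.Icc 1 n, e0 (v j) = 1)
    (h3 : ∀ j ∈ Finset.Icc 1 n, xx ^ k ∣ ev ψ (Γ j) - v j * W j) :
    ∃ (ψ' : N2) (v' : ℕ → N2), xx ∣ ψ' - yy ∧ (∀ j ∈ Finset.Icc 1 n, e0 (v' j) = 1) ∧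
      ∀ j ∈ Finset.Icc 1 n, xx ^ (k + 1) ∣ ev ψ' (Γ j) - v' j * W j := by
  classical
  have h3' : ∀ j, ∃ r, j ∈ Finset.Icc 1 n → ev ψ (Γ j) - v j * W j = xx ^ k * r := by
    intro j
    by_cases hj : j ∈ Finset.Icc 1 n
    · obtain ⟨r, hr⟩ := h3 j hj
      exact ⟨r, fun _ => hr⟩
    · exact ⟨0, fun h => absurd h hj⟩
  choose r hr using h3'
  have hu : ∀ j, ∃ u, j ∈ Finset.Icc 1 n → u * v j = 1 := by
    intro j
    by_cases hj : j ∈ Finset.Icc 1 n
    · obtain ⟨u, hu⟩ := (isUnit_of_e0 (v j) (by rw [h2 j hj]; exact one_ne_zero)).exists_left_inv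
      exact ⟨u, fun _ => hu⟩
    · exact ⟨0, fun h => absurd h hj⟩
  choose u hu using hu
  set η : N2 := -∑ i ∈ Finset.Icc 1 n, r i * dY ψ * u i * B i *
    (∏ l ∈ (Finset.Icc 1 n).erase i, W l) with hη
  obtain ⟨d, rfl⟩ : ∃ d, k = 2 * c + 1 + d := ⟨k - (2 * c + 1), by omega⟩
  have key : ∀ j, ∃ v' : N2, j ∈ Finset.Icc 1 n → (e0 v' = 1 ∧
      xx ^ (2 * c + 1 + d + 1) ∣
        ev (ψ + xx ^ (c + 1 + d) * η) (Γ j) - v' * W j) := by
    intro j
    by_cases hj : j ∈ Finset.Icc 1 n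
    swap
    · exact ⟨0, fun h => absurd h hj⟩
    obtain ⟨q, hq⟩ := binom (Γ j) ψ (xx ^ (c + 1 + d) * η)
    have e1 : ev ψ (Γ j) = v j * W j + xx ^ (2 * c + 1 + d) * r j := by
      rw [← hr j hj]; ring
    have e2 : ev ψ (Γ j).derivative * dY ψ = v j * dY (W j) + W j * dY (v j) +
        xx ^ (2 * c + 1 + d) * dY (r j) := by
      rw [← dY_aeval, e1, dY_add, dY_mul, dY_mul, dY_xx_pow]
      ring
    obtain ⟨T, hT⟩ : W j ∣ ∑ i ∈ (Finset.Icc 1 n).erase j, r i * dY ψ * u i * B i *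
        (∏ l ∈ (Finset.Icc 1 n).erase i, W l) := by
      refine Finset.dvd_sum fun i hi => Dvd.dvd.mul_left ?_ _
      refine Finset.dvd_prod_of_mem W ?_
      rw [Finset.mem_erase] at hi ⊢
      exact ⟨hi.1.symm, hj⟩
    have hη' : η = -(r j * dY ψ * u j * B j * (∏ l ∈ (Finset.Icc 1 n).erase j, W l) + W j * T) := by
      rw [hη, ← Finset.add_sum_erase _ _ hj, hT]
    set Pj := ∏ l ∈ (Finset.Icc 1 n).erase j, W l with hPj
    have hc := cert j hj
    have huj := hu j hj
    -- the main congruence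
    refine ⟨v j + xx ^ (c + 1 + d) * (r j * A j - r j * u j * B j * Pj * dY (v j) -
      T * ev ψ (Γ j).derivative), fun _ => ⟨?_, ?_⟩⟩
    · rw [e0_add, e0_mul, map_pow, e0_xx, h2 j hj, zero_pow (by omega)]
      ring
    · refine ⟨q * xx ^ d * η ^ 2 - xx ^ (c + d) * (r j * u j * B j * Pj * dY (r j)), ?_⟩
      rw [hq, e1]
      have e3 : ev ψ (Γ j).derivative * η =
          -(r j * u j * B j * Pj * (v j * dY (W j) + W j * dY (v j) +
        xx ^ (2 * c + 1 + d) * dY (r j)) + W j * T * ev ψ (Γ j).derivative) := by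
        rw [← e2, hη']; ring
      have e4 : r j * u j * B j * Pj * (v j * dY (W j)) = r j * (xx ^ c - A j * W j) := by
        rw [hc]
        linear_combination (r j * B j * Pj * dY (W j)) * huj
      have e5 : ev ψ (Γ j).derivative * η = -(r j * (xx ^ c - A j * W j) +
          r j * u j * B j * Pj * (W j * dY (v j) + xx ^ (2 * c + 1 + d) * dY (r j)) +
          W j * T * ev ψ (Γ j).derivative) := by
        rw [e3, ← e4]; ring
      have e6 : ev ψ (Γ j).derivative * (xx ^ (c + 1 + d) * η) =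
        xx ^ (c + 1 + d) * (ev ψ (Γ j).derivative * η) := by ring
      rw [e6, e5]
      ring
  choose v' hv' using key
  refine ⟨ψ + xx ^ (c + 1 + d) * η, v', ?_, fun j hj => (hv' j hj).1, fun j hj => (hv' j hj).2⟩
  have : ψ + xx ^ (c + 1 + d) * η - yy = (ψ - yy) + xx ^ (c + 1 + d) * η := by ring
  rw [this]
  exact dvd_add h1 (Dvd.dvd.mul_right (dvd_pow_self _ (by omega)) _)

/-! ### reduction modulo `x` -/

/-- `g(0, y)` -/
noncomputable def r0 : N2 →+* PowerSeries ℂ :=
  PowerSeries.map (PowerSeries.constantCoeff (R := ℂ))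

theorem xx_dvd_iff (g : N2) : xx ∣ g ↔ r0 g = 0 := by
  constructor
  · rintro ⟨h, rfl⟩
    rw [map_mul]
    have : r0 xx = 0 := by
      unfold r0 xx
      rw [PowerSeries.map_C, PowerSeries.constantCoeff_X, map_zero]
    rw [this, zero_mul]
  · intro h
    have h' : ∀ n, ∃ a : PowerSeries ℂ, PowerSeries.coeff n g = PowerSeries.X * a := by
      intro n
      have h1 : PowerSeries.constantCoeff (PowerSeries.coeff n g) = 0 := by
        have := congrArg (PowerSeries.coeff n) h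
        rwa [r0, PowerSeries.coeff_map, map_zero] at this
      exact PowerSeries.X_dvd_iff.2 h1
    choose a ha using h'
    refine ⟨PowerSeries.mk a, ?_⟩
    ext1 n
    unfold xx
    rw [PowerSeries.coeff_C_mul, PowerSeries.coeff_mk, ha]

theorem xx_ne : (xx : N2) ≠ 0 := by
  unfold xx
  intro h
  have h1 : (PowerSeries.X : PowerSeries ℂ) = 0 := by
    have := congrArg PowerSeries.constantCoeff h
    rwa [PowerSeries.constantCoeff_C, map_zero] at this
  exact PowerSeries.X_ne_zero h1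

theorem xx_prime : Prime (xx : N2) := by
  refine ⟨xx_ne, ?_, ?_⟩
  · intro h
    have := h.map e0
    rw [e0_xx] at this
    exact not_isUnit_zero this
  · intro a b h
    rw [xx_dvd_iff, map_mul, mul_eq_zero] at h
    rw [xx_dvd_iff, xx_dvd_iff]
    exact h

theorem r0_coe (W : Polynomial (PowerSeries ℂ)) (d : ℕ)
    (h : W.map (PowerSeries.constantCoeff (R := ℂ)) = Polynomial.X ^ d) :
    r0 (W : N2) = PowerSeries.X ^ d := by
  unfold r0
  rw [← Polynomial.polynomial_map_coe, h, Polynomial.coe_pow, Polynomial.coe_X]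

/-! ### polynomials in two variables -/

theorem sub2_add (F G : PC.P2) (ψ : N2) : sub2 (F + G) ψ = sub2 F ψ + sub2 G ψ := map_add _ _ _
theorem sub2_mul (F G : PC.P2) (ψ : N2) : sub2 (F * G) ψ = sub2 F ψ * sub2 G ψ := map_mul _ _ _
theorem sub2_C (a : ℂ) (ψ : N2) : sub2 (C a) ψ = cc a := by
  unfold sub2
  rw [aeval_C, algMap]
  rfl

theorem sub2_pderiv (G : PC.P2) : dY (sub2 G yy) = sub2 (pderiv 1 G) yy := by
  induction G using MvPolynomial.induction_on with
  | C a =>
    rw [sub2_C, pderiv_C]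
    unfold cc
    rw [dY_C]
    exact (map_zero _).symm
  | add p q hp hq => rw [sub2_add, dY_add, hp, hq, map_add, sub2_add]
  | mul_X p i hp =>
    have hX : dY (sub2 (X i) yy) = sub2 (pderiv 1 (X i)) yy := by
      unfold sub2
      rw [aeval_X]
      fin_cases i
      · show dY xx = _
        unfold xx
        rw [dY_C, Fin.zero_eta, pderiv_X_of_ne (by decide), map_zero]
      · show dY yy = _
        rw [Fin.mk_one, pderiv_X_self, map_one]
        unfold dY yy
        exact PowerSeries.derivative_X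
    rw [sub2_mul, dY_mul, hX, hp, pderiv_mul, sub2_add, sub2_mul, sub2_mul]
    ring

theorem e0_sub2 (G : PC.P2) : e0 (sub2 G yy) = eval 0 G := by
  induction G using MvPolynomial.induction_on with
  | C a =>
    rw [sub2_C, eval_C]
    unfold cc e0
    simp
  | add p q hp hq => rw [sub2_add, e0_add, hp, hq, map_add]
  | mul_X p i hp =>
    rw [sub2_mul, e0_mul, hp, map_mul, eval_X]
    have : e0 (sub2 (X i) yy) = 0 := by
      unfold sub2
      rw [aeval_X]
      fin_cases i
      · exact e0_xx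
      · show e0 yy = 0
        unfold e0 yy
        simp
    rw [this]
    rfl

/-- polynomials in `y` over `ℂ[x]` -/
noncomputable def Th : PC.P2 →ₐ[ℂ] Polynomial (Polynomial ℂ) :=
  aeval ![Polynomial.C Polynomial.X, Polynomial.X]

theorem isUnit_of_Th (p : PC.P2) (h : IsUnit (Th p)) : IsUnit p := by
  have key : ∀ p : PC.P2, Polynomial.eval₂RingHom
      ((Polynomial.aeval (X 0 : PC.P2) : Polynomial ℂ →ₐ[ℂ] PC.P2) : Polynomial ℂ →+* PC.P2)
      (X 1) (Th p) = p := by
    intro p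
    unfold Th
    induction p using MvPolynomial.induction_on with
    | C a =>
      rw [aeval_C]
      have : algebraMap ℂ (Polynomial (Polynomial ℂ)) a = Polynomial.C (Polynomial.C a) := rfl
      rw [this, Polynomial.coe_eval₂RingHom, Polynomial.eval₂_C]
      simp [MvPolynomial.algebraMap_eq]
    | add p q hp hq => rw [map_add, map_add, hp, hq]
    | mul_X p i hp =>
      rw [map_mul, map_mul, hp, aeval_X]
      congr 1
      fin_cases i <;> simp
  rw [← key p]
  exact h.map _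

theorem Th_Gp (N : ℕ) (W : Polynomial (PowerSeries ℂ)) :
    Th (Gp N W) = ∑ i ∈ Finset.range (W.natDegree + 1),
      Polynomial.monomial i (PowerSeries.trunc N (W.coeff i)) := by
  unfold Gp
  rw [map_sum]
  refine Finset.sum_congr rfl fun i _ => ?_
  rw [map_mul, map_pow, ← Polynomial.aeval_algHom_apply]
  unfold Th
  rw [aeval_X, aeval_X]
  simp only [Matrix.cons_val_zero, Matrix.cons_val_one]
  rw [← Polynomial.C_mul_X_pow_eq_monomial]
  congr 1
  generalize PowerSeries.trunc N (W.coeff i) = q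
  induction q using Polynomial.induction_on' with
  | add p q hp hq => rw [map_add, hp, hq, map_add]
  | monomial n a =>
    rw [Polynomial.aeval_monomial, ← Polynomial.C_mul_X_pow_eq_monomial, map_mul, map_pow]
    rfl

theorem coeff_Th_Gp (N : ℕ) (W : Polynomial (PowerSeries ℂ)) (i : ℕ) (hi : i ≤ W.natDegree) :
    (Th (Gp N W)).coeff i = PowerSeries.trunc N (W.coeff i) := by
  rw [Th_Gp, Polynomial.finsetSum_coeff]
  rw [Finset.sum_eq_single i]
  · rw [Polynomial.coeff_monomial, if_pos rfl]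
  · intro b _ hb
    rw [Polynomial.coeff_monomial, if_neg hb]
  · intro h
    exact absurd (Finset.mem_range.2 (Nat.lt_succ_of_le hi)) h

theorem natDegree_Th_Gp (N : ℕ) (W : Polynomial (PowerSeries ℂ)) :
    (Th (Gp N W)).natDegree ≤ W.natDegree := by
  rw [Th_Gp]
  refine Polynomial.natDegree_sum_le_of_forall_le _ _ fun i hi => ?_
  refine (Polynomial.natDegree_monomial_le _).trans ?_
  exact Nat.lt_succ_iff.1 (Finset.mem_range.1 hi)

theorem monic_Th_Gp (N : ℕ) (hN : 1 ≤ N) (W : Polynomial (PowerSeries ℂ)) (hW : W.Monic) :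
    (Th (Gp N W)).Monic := by
  refine Polynomial.monic_of_natDegree_le_of_coeff_eq_one W.natDegree (natDegree_Th_Gp N W) ?_
  rw [coeff_Th_Gp N W _ le_rfl, hW.coeff_natDegree]
  obtain ⟨M, rfl⟩ : ∃ M, N = M + 1 := ⟨N - 1, by omega⟩
  exact PowerSeries.trunc_one M

theorem map_Th_Gp (N : ℕ) (hN : 1 ≤ N) (W : Polynomial (PowerSeries ℂ)) (d : ℕ)
    (hW : W.map (PowerSeries.constantCoeff (R := ℂ)) = Polynomial.X ^ d) :
    (Th (Gp N W)).map (Polynomial.evalRingHom 0) = Polynomial.X ^ d := by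
  ext i
  rw [← hW, Polynomial.coeff_map, Polynomial.coeff_map]
  by_cases hi : i ≤ W.natDegree
  · rw [coeff_Th_Gp N W _ hi, Polynomial.coe_evalRingHom, ← Polynomial.coeff_zero_eq_eval_zero,
      PowerSeries.coeff_trunc, if_pos (by omega), PowerSeries.coeff_zero_eq_constantCoeff]
  · rw [Polynomial.coeff_eq_zero_of_natDegree_lt (lt_of_le_of_lt (natDegree_Th_Gp N W) (by omega)),
      Polynomial.coeff_eq_zero_of_natDegree_lt (n := i) (p := W) (by omega), map_zero, map_zero]

theorem eval_Th (p : PC.P2) :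
    ((Th p).map (Polynomial.evalRingHom 0)).eval 0 = eval 0 p := by
  unfold Th
  induction p using MvPolynomial.induction_on with
  | C a =>
    rw [aeval_C, eval_C]
    have : algebraMap ℂ (Polynomial (Polynomial ℂ)) a = Polynomial.C (Polynomial.C a) := rfl
    rw [this]
    simp
  | add p q hp hq => rw [map_add, Polynomial.map_add, Polynomial.eval_add, hp, hq, map_add]
  | mul_X p i hp =>
    rw [map_mul, Polynomial.map_mul, Polynomial.eval_mul, hp, map_mul, aeval_X, eval_X]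
    congr 1
    fin_cases i <;> simp

/-- divisors of the truncated Weierstrass polynomials which do not vanish at the origin -/
theorem isUnit_of_dvd_Gp (N : ℕ) (hN : 1 ≤ N) (W : Polynomial (PowerSeries ℂ)) (hm : W.Monic)
    (d : ℕ) (hW : W.map (PowerSeries.constantCoeff (R := ℂ)) = Polynomial.X ^ d) (p : PC.P2)
    (hp : p ∣ Gp N W) (h0 : eval 0 p ≠ 0) : IsUnit p := by
  apply isUnit_of_Th
  have h1 : Th p ∣ Th (Gp N W) := map_dvd Th hp
  have h2 := (monic_Th_Gp N hN W hm).isUnit_leadingCoeff_of_dvd h1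
  have h3 : (Th p).map (Polynomial.evalRingHom 0) ∣ Polynomial.X ^ d := by
    rw [← map_Th_Gp N hN W d hW]
    exact Polynomial.map_dvd _ h1
  have h4 : (Th p).map (Polynomial.evalRingHom 0) ≠ 0 := by
    intro h
    have := eval_Th p
    rw [h, Polynomial.eval_zero] at this
    exact h0 this.symm
  have h5 : IsUnit ((Th p).map (Polynomial.evalRingHom 0)) := by
    obtain ⟨i, -, hi⟩ := (dvd_prime_pow Polynomial.prime_X d).1 h3
    rcases Nat.eq_zero_or_pos i with rfl | hi'
    · rw [pow_zero] at hi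
      exact (associated_one_iff_isUnit.1 hi)
    · exfalso
      have : Polynomial.X ∣ (Th p).map (Polynomial.evalRingHom 0) :=
        (dvd_pow_self _ (by omega)).trans hi.symm.dvd
      rw [Polynomial.X_dvd_iff, Polynomial.coeff_zero_eq_eval_zero, eval_Th] at this
      exact h0 this
  have h6 : ((Th p).map (Polynomial.evalRingHom 0)).natDegree = (Th p).natDegree := by
    refine Polynomial.natDegree_map_of_leadingCoeff_ne_zero _ ?_
    exact (h2.map (Polynomial.evalRingHom 0)).ne_zero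
  have h7 : (Th p).natDegree = 0 := by
    rw [← h6]
    exact Polynomial.natDegree_eq_zero_of_isUnit h5
  rw [Polynomial.eq_C_of_natDegree_eq_zero h7]
  have h8 : (Th p).leadingCoeff = (Th p).coeff 0 := by
    rw [Polynomial.leadingCoeff, h7]
  rw [← h8]
  exact h2.map Polynomial.C

/-- congruent factors -/
theorem prod_congr_mod (s : Finset ℕ) (m : N2) (U V : ℕ → N2) (h : ∀ i ∈ s, m ∣ U i - V i) :
    m ∣ ∏ i ∈ s, U i - ∏ i ∈ s, V i := by
  rw [← Ideal.mem_span_singleton, ← Ideal.Quotient.eq, map_prod, map_prod]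
  refine Finset.prod_congr rfl fun i hi => ?_
  rw [Ideal.Quotient.eq, Ideal.mem_span_singleton]
  exact h i hi

theorem sqf (n : ℕ) (W : ℕ → Polynomial (PowerSeries ℂ)) (hW : WP9 n W) (c N : ℕ) (hN : c < N)
    (A B : ℕ → N2) (cert : ∀ j ∈ Finset.Icc 1 n, xx ^ c = A j * (W j : N2) +
      B j * (∏ i ∈ (Finset.Icc 1 n).erase j, (W i : N2)) * dY (W j : N2)) :
    Squarefree (∏ j ∈ Finset.Icc 1 n, Gp N (W j)) := by
  classical
  have hN1 : 1 ≤ N := by omega
  -- comparison
  have hcmp : ∀ j, ∃ ρ : N2, sub2 (Gp N (W j)) yy = (W j : N2) + xx ^ N * ρ := by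
    intro j
    obtain ⟨ρ, hρ⟩ := Tr_eq N (W j)
    refine ⟨(ρ : N2), ?_⟩
    rw [sub2_Gp, hρ, map_add, map_mul, ev_yy, ev_yy, ev_yy]
    congr 2
    unfold xx
    rw [Polynomial.coe_C, map_pow]
  choose ρ hρ using hcmp
  have hr0 : ∀ j, r0 (sub2 (Gp N (W j)) yy) = PowerSeries.X ^ (W j).natDegree := by
    intro j
    rw [hρ j, map_add, map_mul, r0_coe _ _ (hW.dis j), map_pow,
      (xx_dvd_iff xx).1 dvd_rfl, zero_pow (by omega), zero_mul, add_zero]
  have hnx : ∀ j, ¬ xx ∣ sub2 (Gp N (W j)) yy := by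
    intro j h
    rw [xx_dvd_iff, hr0] at h
    exact pow_ne_zero _ PowerSeries.X_ne_zero h
  have hne : ∀ j, Gp N (W j) ≠ 0 := by
    intro j h
    apply hnx j
    rw [h]
    unfold sub2
    rw [map_zero]
    exact dvd_zero _
  intro D hD
  by_contra hu
  have hP0 : (∏ j ∈ Finset.Icc 1 n, Gp N (W j)) ≠ 0 := Finset.prod_ne_zero_iff.2 fun j _ => hne j
  have hD0 : D ≠ 0 := by
    rintro rfl
    rw [zero_mul, zero_dvd_iff] at hD
    exact hP0 hD
  obtain ⟨p, hp, hpD⟩ := WfDvdMonoid.exists_irreducible_factor hu hD0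
  have hpp : Prime p := hp.prime
  have hp2 : p * p ∣ ∏ j ∈ Finset.Icc 1 n, Gp N (W j) := (mul_dvd_mul hpD hpD).trans hD
  obtain ⟨j, hj, hpj⟩ := hpp.exists_mem_finset_dvd ((dvd_mul_right p p).trans hp2)
  have hk : p ∣ (∏ i ∈ (Finset.Icc 1 n).erase j, Gp N (W i)) * pderiv 1 (Gp N (W j)) := by
    by_cases h1 : p ∣ ∏ i ∈ (Finset.Icc 1 n).erase j, Gp N (W i)
    · exact h1.mul_right _
    · refine Dvd.dvd.mul_left ?_ _
      rw [← Finset.mul_prod_erase _ _ hj] at hp2
      obtain ⟨G', hG'⟩ := hpj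
      rw [hG', mul_assoc, mul_dvd_mul_iff_left hpp.ne_zero] at hp2
      have h2 := (hpp.dvd_or_dvd hp2).resolve_right h1
      obtain ⟨G'', hG''⟩ := h2
      rw [hG', hG'', pderiv_mul, pderiv_mul]
      exact ⟨pderiv 1 p * G'' + (pderiv 1 p * G'' + p * pderiv 1 G''), by ring⟩
  -- map to power series
  set Φ : PC.P2 →ₐ[ℂ] N2 := aeval ![xx, yy] with hΦ
  have hΦ' : ∀ F : PC.P2, Φ F = sub2 F yy := fun F => rfl
  have h1 : Φ p ∣ sub2 (Gp N (W j)) yy := by
    rw [← hΦ']
    exact map_dvd Φ hpj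
  have h2 : Φ p ∣ (∏ i ∈ (Finset.Icc 1 n).erase j, sub2 (Gp N (W i)) yy) *
      dY (sub2 (Gp N (W j)) yy) := by
    have := map_dvd Φ hk
    rw [map_mul, map_prod, hΦ' (pderiv 1 _), ← sub2_pderiv] at this
    exact this
  obtain ⟨τ, hτ⟩ : xx ^ N ∣ ∏ i ∈ (Finset.Icc 1 n).erase j, sub2 (Gp N (W i)) yy -
      ∏ i ∈ (Finset.Icc 1 n).erase j, (W i : N2) := by
    refine prod_congr_mod _ _ _ _ fun i _ => ⟨ρ i, ?_⟩
    rw [hρ i]; ring
  have hd : dY (sub2 (Gp N (W j)) yy) = dY (W j : N2) + xx ^ N * dY (ρ j) := by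
    rw [hρ j, dY_add, dY_mul, dY_xx_pow]; ring
  have h3 : Φ p ∣ A j * sub2 (Gp N (W j)) yy + B j *
      ((∏ i ∈ (Finset.Icc 1 n).erase j, sub2 (Gp N (W i)) yy) *
        dY (sub2 (Gp N (W j)) yy)) := dvd_add (h1.mul_left _) (h2.mul_left _)
  obtain ⟨e, rfl⟩ : ∃ e, N = c + 1 + e := ⟨N - (c + 1), by omega⟩
  have h4 : ∃ s : N2, A j * sub2 (Gp (c + 1 + e) (W j)) yy + B j *
      ((∏ i ∈ (Finset.Icc 1 n).erase j, sub2 (Gp (c + 1 + e) (W i)) yy) *
        dY (sub2 (Gp (c + 1 + e) (W j)) yy)) = xx ^ c * (1 + xx * s) := by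
    have hτ' : ∏ i ∈ (Finset.Icc 1 n).erase j, sub2 (Gp (c + 1 + e) (W i)) yy =
        ∏ i ∈ (Finset.Icc 1 n).erase j, (W i : N2) + xx ^ (c + 1 + e) * τ := by
      rw [← hτ]; ring
    rw [hτ', hd, hρ j]
    set Pj := ∏ i ∈ (Finset.Icc 1 n).erase j, (W i : N2) with hPj
    refine ⟨xx ^ e * (A j * ρ j + B j * (Pj * dY (ρ j) + τ * dY (W j : N2)) +
      B j * xx ^ (c + 1 + e) * τ * dY (ρ j)), ?_⟩
    have hc := cert j hj
    have : xx ^ c * (1 + xx * (xx ^ e * (A j * ρ j + B j * (Pj * dY (ρ j) + τ * dY (W j : N2)) +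
      B j * xx ^ (c + 1 + e) * τ * dY (ρ j)))) = xx ^ c + xx ^ (c + 1 + e) *
      (A j * ρ j + B j * (Pj * dY (ρ j) + τ * dY (W j : N2)) +
      B j * xx ^ (c + 1 + e) * τ * dY (ρ j)) := by ring
    rw [this]
    linear_combination -hc
  obtain ⟨s, hs⟩ := h4
  rw [hs] at h3
  have hunit : IsUnit (1 + xx * s) := by
    apply isUnit_of_e0
    rw [e0_add, e0_mul, e0_xx, zero_mul, add_zero, map_one]
    exact one_ne_zero
  have h5 : Φ p ∣ xx ^ c := hunit.dvd_mul_right.1 h3
  obtain ⟨i, -, hi⟩ := (dvd_prime_pow xx_prime c).1 h5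
  have h6 : IsUnit (Φ p) := by
    rcases Nat.eq_zero_or_pos i with rfl | hi'
    · rw [pow_zero] at hi
      exact associated_one_iff_isUnit.1 hi
    · exfalso
      exact hnx j (((dvd_pow_self _ (by omega)).trans hi.symm.dvd).trans h1)
  have h7 : eval 0 p ≠ 0 := by
    rw [← e0_sub2, ← hΦ']
    exact (h6.map e0).ne_zero
  exact hp.not_isUnit (isUnit_of_dvd_Gp _ hN1 (W j) (hW.mon j) _ (hW.dis j) p hpj h7)

theorem coe_prod (s : Finset ℕ) (W : ℕ → Polynomial (PowerSeries ℂ)) :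
    ((∏ i ∈ s, W i : Polynomial (PowerSeries ℂ)) : N2) = ∏ i ∈ s, (W i : N2) := by
  classical
  induction s using Finset.induction_on with
  | empty => simp
  | insert a s ha ih => rw [Finset.prod_insert ha, Finset.prod_insert ha, Polynomial.coe_mul, ih]

/-- certificates with a common exponent, as power series -/
theorem certs (n : ℕ) (W : ℕ → Polynomial (PowerSeries ℂ)) (hW : WP9 n W) :
    ∃ (c : ℕ) (A B : ℕ → N2), ∀ j ∈ Finset.Icc 1 n, xx ^ c = A j * (W j : N2) +
      B j * (∏ i ∈ (Finset.Icc 1 n).erase j, (W i : N2)) * dY (W j : N2) := by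
  classical
  have h : ∀ j, ∃ (c : ℕ) (A B : N2), j ∈ Finset.Icc 1 n → xx ^ c = A * (W j : N2) +
      B * (∏ i ∈ (Finset.Icc 1 n).erase j, (W i : N2)) * dY (W j : N2) := by
    intro j
    by_cases hj : j ∈ Finset.Icc 1 n
    · obtain ⟨c, A, B, h⟩ := hW.cert j hj
      refine ⟨c, (A : N2), (B : N2), fun _ => ?_⟩
      have := congrArg (fun q : Polynomial (PowerSeries ℂ) => (q : N2)) h
      rw [Polynomial.coe_add, Polynomial.coe_mul, Polynomial.coe_mul, Polynomial.coe_mul,
        Polynomial.coe_C, map_pow] at this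
      rw [dY_coe]
      refine Eq.trans ?_ (this.trans ?_)
      · rfl
      · rw [coe_prod]
    · exact ⟨0, 0, 0, fun h => absurd h hj⟩
  choose c A B h using h
  refine ⟨∑ j ∈ Finset.Icc 1 n, c j, fun j => xx ^ (∑ j ∈ Finset.Icc 1 n, c j - c j) * A j,
    fun j => xx ^ (∑ j ∈ Finset.Icc 1 n, c j - c j) * B j, fun j hj => ?_⟩
  have h1 : c j ≤ ∑ j ∈ Finset.Icc 1 n, c j :=
    Finset.single_le_sum (f := c) (fun _ _ => Nat.zero_le _) hj
  have h2 : xx ^ (∑ j ∈ Finset.Icc 1 n, c j) =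
      xx ^ (∑ j ∈ Finset.Icc 1 n, c j - c j) * xx ^ c j := by
    rw [← pow_add]
    congr 1
    omega
  rw [h2, h j hj]
  ring

end CE9Aux

open CE9Aux in
theorem stmt_CE9 : Stmt_CE9 := by
  classical
  intro n W hW
  obtain ⟨c, A, B, cert⟩ := certs n W hW
  refine ⟨fun j => Gp (2 * c + 1) (W j), sqf n W hW c (2 * c + 1) (by omega) A B cert, ?_, ?_⟩
  · intro j _ hj
    have h1 : W j = 1 := Polynomial.eq_one_of_monic_natDegree_zero (hW.mon j) hj
    show Gp (2 * c + 1) (W j) = 1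
    rw [h1]
    unfold Gp
    rw [Polynomial.natDegree_one, Finset.sum_range_one, Polynomial.coeff_one_zero,
      PowerSeries.trunc_one, map_one, pow_zero, one_mul]
  · have key : ∀ d : ℕ, ∃ (ψ : N2) (v : ℕ → N2), xx ∣ ψ - yy ∧
        (∀ j ∈ Finset.Icc 1 n, e0 (v j) = 1) ∧
        ∀ j ∈ Finset.Icc 1 n, xx ^ (2 * c + 1 + d) ∣
          ev ψ (Tr (2 * c + 1) (W j)) - v j * (W j : N2) := by
      intro d
      induction d with
      | zero =>
        refine ⟨yy, fun _ => 1, by simp, fun j _ => map_one _, fun j _ => ?_⟩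
        obtain ⟨ρ, hρ⟩ := Tr_eq (2 * c + 1) (W j)
        refine ⟨(ρ : N2), ?_⟩
        rw [hρ, map_add, map_mul, ev_yy, ev_yy, ev_yy, one_mul, add_zero, add_sub_cancel_left]
        congr 1
        unfold xx
        rw [Polynomial.coe_C, map_pow]
      | succ d ih =>
        obtain ⟨ψ, v, h1, h2, h3⟩ := ih
        obtain ⟨ψ', v', h1', h2', h3'⟩ := step n (fun j => (W j : N2))
          (fun j => Tr (2 * c + 1) (W j)) c A B cert (2 * c + 1 + d) (by omega) ψ v h1 h2 h3
        exact ⟨ψ', v', h1', h2', h3'⟩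
    intro k
    obtain ⟨ψ, v, h1, h2, h3⟩ := key k
    refine ⟨ψ, v, h1, h2, fun j hj => ?_⟩
    rw [sub2_Gp]
    exact (pow_dvd_pow _ (by omega)).trans (h3 j hj)

end Pool.Agent.Mono.C9
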