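import Pool.Agent.Work.Monodromy9.CTAux

/-!
# Phase 9, block CG9 (helper99): `f` modulo the square of `(∂_z f)`
-/

set_option autoImplicit false
set_option linter.unusedSectionVars false

namespace Pool.Agent.Mono.C9

open MvPolynomial TS RO SP PC

open CTAux in
/-- **CG9** -/
theorem stmt_CG9 (hKER : Stmt_KER9) : Stmt_CG9 := by
  intro ι _ _ f Z p u v huv hZ hz hdt lam ρ hρ N G hG
  have hzu : ∀ z ∈ Z, z ≠ u := by
    rintro z hz' rfl
    have : z ∈ Zᶜ := by rw [hZ]; simp
    exact Finset.mem_compl.1 this hz'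
  have hzv : ∀ z ∈ Z, z ≠ v := by
    rintro z hz' rfl
    have : z ∈ Zᶜ := by rw [hZ]; simp
    exact Finset.mem_compl.1 this hz'
  set r := f - lc9 p u v lam G with hr
  -- `ρ r`
  have h1 : ρ (lc9 p u v lam G) = sub2 G yy := rho_lc9 hρ G
  have h2 : ρ r ∈ m2 ^ (N + 1) := by
    rw [hr, map_sub, h1]
    exact hG
  have h3 := hKER ι f Z p u v huv hZ hz hdt lam ρ hρ (N + 1) r h2
  obtain ⟨a, ha, t, ht, hat⟩ := Submodule.mem_sup.1 h3
  obtain ⟨g, hg⟩ := (mem_Zi f Z a).1 ha
  have hrt : r = ∑ z, g z * pderiv (z : ι) f + t := by rw [hg, hat]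
  -- the derivatives of `r`
  have hw : ∀ z' : Z, ∑ z, g z * HM f Z z' z ∈ Zi f Z ⊔ mI p ^ N := by
    intro z'
    have h4 : pderiv (z' : ι) r = pderiv (z' : ι) f := by
      rw [hr, map_sub, pd_lc9 p (hzu z' z'.2) (hzv z' z'.2), sub_zero]
    have h5 : pderiv (z' : ι) r = ∑ z, g z * HM f Z z' z +
        ∑ z : Z, pderiv (z' : ι) (g z) * pderiv (z : ι) f + pderiv (z' : ι) t := by
      rw [hrt, map_add, map_sum, ← Finset.sum_add_distrib]
      congr 1
      refine Finset.sum_congr rfl fun z _ => ?_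
      rw [Derivation.leibniz, smul_eq_mul, smul_eq_mul]
      unfold HM
      rw [Matrix.of_apply]
      ring
    have h6 : ∑ z, g z * HM f Z z' z = pderiv (z' : ι) f -
        ∑ z : Z, pderiv (z' : ι) (g z) * pderiv (z : ι) f - pderiv (z' : ι) t := by
      rw [← h4, h5]
      ring
    rw [h6]
    refine Ideal.sub_mem _ (Ideal.sub_mem _ ?_ ?_) ?_
    · exact Ideal.mem_sup_left (pd_mem_Zi' f Z z')
    · exact Ideal.mem_sup_left (Ideal.sum_mem _ fun z _ =>
        Ideal.mul_mem_left _ _ (pd_mem_Zi' f Z z))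
    · exact Ideal.mem_sup_right (der_pow (pderiv (z' : ι)) (mI p) N t ht)
  have hdg : ∀ z'' : Z, dt f Z * g z'' ∈ Zi f Z ⊔ mI p ^ N := by
    intro z''
    have h7 : dt f Z * g z'' = ∑ z', (HM f Z).adjugate z'' z' * ∑ z, g z * HM f Z z' z := by
      have h8 := Matrix.adjugate_mul (HM f Z)
      have h9 : ∀ z, ∑ z', (HM f Z).adjugate z'' z' * HM f Z z' z =
          if z'' = z then dt f Z else 0 := by
        intro z
        have h10 := congrFun (congrFun h8 z'') z
        rw [Matrix.mul_apply] at h10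
        rw [h10, Matrix.smul_apply, Matrix.one_apply, smul_eq_mul]
        unfold dt
        split_ifs <;> simp
      calc dt f Z * g z'' = ∑ z, g z * (if z'' = z then dt f Z else 0) := by
            simp [mul_comm]
        _ = ∑ z, g z * ∑ z', (HM f Z).adjugate z'' z' * HM f Z z' z := by
            refine Finset.sum_congr rfl fun z _ => ?_
            rw [h9]
        _ = ∑ z', (HM f Z).adjugate z'' z' * ∑ z, g z * HM f Z z' z := by
            simp only [Finset.mul_sum]
            rw [Finset.sum_comm]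
            refine Finset.sum_congr rfl fun z' _ => Finset.sum_congr rfl fun z _ => ?_
            ring
    rw [h7]
    exact Ideal.sum_mem _ fun z' _ => Ideal.mul_mem_left _ _ (hw z')
  obtain ⟨s, hs⟩ := unit_mod (q := p) hdt N
  have hgz : ∀ z : Z, g z ∈ Zi f Z ⊔ mI p ^ N := by
    intro z
    have h8 : g z = s * (dt f Z * g z) - (dt f Z * s - 1) * g z := by ring
    rw [h8]
    refine Ideal.sub_mem _ (Ideal.mul_mem_left _ _ (hdg z)) ?_
    exact Ideal.mem_sup_right (Ideal.mul_mem_right _ _ hs)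
  rw [hrt]
  refine Ideal.add_mem _ (Ideal.sum_mem _ fun z _ => ?_) ?_
  · obtain ⟨a, ha, b, hb, hab⟩ := Submodule.mem_sup.1 (hgz z)
    rw [← hab, add_mul]
    refine Ideal.add_mem _ (Ideal.mem_sup_left ?_) (Ideal.mem_sup_right ?_)
    · rw [pow_two]
      exact Ideal.mul_mem_mul ha (pd_mem_Zi' f Z z)
    · exact Ideal.mul_mem_right _ _ hb
  · exact Ideal.mem_sup_right (Ideal.pow_le_pow_right (Nat.le_succ N) ht)

end Pool.Agent.Mono.C9
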