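import Pool.Agent.Work.Monodromy9.N2Lib

/-! MONODROMY, phase 9, block CHI9: the formal parametrisation (helper60). -/

set_option autoImplicit false

namespace Pool.Agent.Mono.C9

open MvPolynomial TS RO SP PC

namespace CHI9Aux

open N2Lib

theorem cc_mul (a b : ℂ) : cc (a * b) = cc a * cc b := by
  unfold cc
  rw [map_mul, map_mul]

theorem cc_sum {α : Type} (s : Finset α) (g : α → ℂ) : cc (∑ a ∈ s, g a) = ∑ a ∈ s, cc (g a) := by
  unfold cc
  rw [map_sum, map_sum]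

theorem e0_aeval {ι : Type} {p : ι → ℂ} {ξ : ι → N2} (h0 : ∀ a, e0 (ξ a) = p a) (g : MvPolynomial ι ℂ) :
    e0 (aeval ξ g) = eval p g := by
  induction g using MvPolynomial.induction_on with
  | C c => rw [algHom_C, eval_C, e0_algebraMap]
  | add g h hg hh => rw [map_add, map_add, map_add, hg, hh]
  | mul_X g b hg => rw [map_mul, map_mul, map_mul, hg, aeval_X, eval_X, h0]

variable {ι : Type} [Fintype ι] [DecidableEq ι]

/-- one Newton step -/
theorem step (f : MvPolynomial ι ℂ) (Z : Finset ι) (p : ι → ℂ)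
    (hdt : eval p (dt f Z) ≠ 0) (k : ℕ) (ξ : ι → N2) (h0 : ∀ a, e0 (ξ a) = p a)
    (hk : ∀ z ∈ Z, aeval ξ (pderiv z f) ∈ m2 ^ (k + 1)) :
    ∃ ξ' : ι → N2, (∀ a, a ∉ Z → ξ' a = ξ a) ∧ (∀ a, ξ' a - ξ a ∈ m2 ^ (k + 1)) ∧
      ∀ z ∈ Z, aeval ξ' (pderiv z f) ∈ m2 ^ (k + 2) := by
  -- the complex matrix and its inverse
  set M : Matrix Z Z ℂ := (HM f Z).map (eval p) with hM
  have hdet : M.det = eval p (dt f Z) := by
    rw [hM]
    unfold dt
    rw [RingHom.map_det]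
    rfl
  have hMi : M⁻¹ * M = 1 := Matrix.nonsing_inv_mul M (by rw [hdet]; exact isUnit_iff_ne_zero.2 hdt)
  -- the correction
  set η : ι → N2 := fun a => if h : a ∈ Z then
    -∑ z : Z, cc (M⁻¹ z ⟨a, h⟩) * aeval ξ (pderiv (z : ι) f) else 0 with hη
  have hη0 : ∀ a, a ∉ Z → η a = 0 := fun a ha => by rw [hη]; exact dif_neg ha
  have hη1 : ∀ a : Z, η a =
      -∑ z : Z, cc (M⁻¹ z a) * aeval ξ (pderiv (z : ι) f) :=
    fun a => by rw [hη]; exact dif_pos a.2
  have hηk : ∀ a, η a ∈ m2 ^ (k + 1) := by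
    intro a
    by_cases h : a ∈ Z
    · rw [hη1 ⟨a, h⟩]
      exact neg_mem (Ideal.sum_mem _ fun z _ => Ideal.mul_mem_left _ _ (hk z z.2))
    · rw [hη0 a h]
      exact zero_mem _
  have hηη : ∀ a b, η a * η b ∈ m2 ^ (k + 2) := by
    intro a b
    have h1 := Ideal.mul_mem_mul (hηk a) (hηk b)
    rw [← pow_add] at h1
    exact Ideal.pow_le_pow_right (by omega) h1
  refine ⟨fun a => ξ a + η a, fun a ha => ?_, fun a => ?_, ?_⟩
  · show ξ a + η a = ξ a
    rw [hη0 a ha, add_zero]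
  · have : ξ a + η a - ξ a = η a := by ring
    show ξ a + η a - ξ a ∈ _
    rw [this]
    exact hηk a
  · intro z hz
    have h1 := taylor2 (m2 ^ (k + 2)) ξ η hηη (pderiv z f)
    -- the linear terms
    have h2 : ∀ a, η a * aeval ξ (pderiv a (pderiv z f)) -
        η a * cc (eval p (pderiv a (pderiv z f))) ∈ m2 ^ (k + 2) := by
      intro a
      rw [← mul_sub]
      have h3 : aeval ξ (pderiv a (pderiv z f)) - cc (eval p (pderiv a (pderiv z f))) ∈ m2 := by
        rw [mem_m2_iff, map_sub, e0_aeval h0, e0_cc, sub_self]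
      have h4 := Ideal.mul_mem_mul (hηk a) h3
      rwa [← pow_succ] at h4
    have h5 : ∑ a, η a * cc (eval p (pderiv a (pderiv z f))) = -aeval ξ (pderiv z f) := by
      have h6 : ∑ a, η a * cc (eval p (pderiv a (pderiv z f))) =
          ∑ a : Z, η a * cc (M a ⟨z, hz⟩) := by
        have h7 : ∑ a ∈ Z, η a * cc (eval p (pderiv a (pderiv z f))) =
            ∑ a, η a * cc (eval p (pderiv a (pderiv z f))) :=
          Finset.sum_subset (Finset.subset_univ Z) fun a _ ha => by rw [hη0 a ha, zero_mul]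
        rw [← h7, ← Finset.sum_coe_sort Z fun a => η a * cc (eval p (pderiv a (pderiv z f)))]
        rfl
      rw [h6]
      have h8 : ∀ a : Z, η a * cc (M a ⟨z, hz⟩) =
          -∑ z' : Z, cc (M⁻¹ z' a * M a ⟨z, hz⟩) * aeval ξ (pderiv (z' : ι) f) := by
        intro a
        rw [hη1 a, neg_mul, Finset.sum_mul]
        congr 1
        refine Finset.sum_congr rfl fun z' _ => ?_
        rw [cc_mul]
        ring
      rw [Finset.sum_congr rfl fun a _ => h8 a, Finset.sum_neg_distrib, Finset.sum_comm]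
      congr 1
      have h9 : ∀ z' : Z, ∑ a : Z, cc (M⁻¹ z' a * M a ⟨z, hz⟩) * aeval ξ (pderiv (z' : ι) f) =
          if z' = ⟨z, hz⟩ then aeval ξ (pderiv (z' : ι) f) else 0 := by
        intro z'
        rw [← Finset.sum_mul, ← cc_sum, ← Matrix.mul_apply, hMi, Matrix.one_apply]
        by_cases h : z' = ⟨z, hz⟩
        · rw [if_pos h, if_pos h, cc_one, one_mul]
        · rw [if_neg h, if_neg h, cc_zero, zero_mul]
      rw [Finset.sum_congr rfl fun z' _ => h9 z', Finset.sum_ite_eq', if_pos (Finset.mem_univ _)]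
    have h10 : aeval (fun a => ξ a + η a) (pderiv z f) =
        (aeval (fun a => ξ a + η a) (pderiv z f) - aeval ξ (pderiv z f) -
          ∑ a, η a * aeval ξ (pderiv a (pderiv z f))) +
        ∑ a, (η a * aeval ξ (pderiv a (pderiv z f)) -
          η a * cc (eval p (pderiv a (pderiv z f)))) := by
      rw [Finset.sum_sub_distrib, h5]
      ring
    rw [h10]
    exact Ideal.add_mem _ h1 (Ideal.sum_mem _ fun a _ => h2 a)

/-- the solution of the system -/
theorem solve (f : MvPolynomial ι ℂ) (Z : Finset ι) (p : ι → ℂ)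
    (hz : ∀ z ∈ Z, eval p (pderiv z f) = 0) (hdt : eval p (dt f Z) ≠ 0)
    (ξ₀ : ι → N2) (h0 : ∀ a, e0 (ξ₀ a) = p a) :
    ∃ ξ : ι → N2, (∀ a, a ∉ Z → ξ a = ξ₀ a) ∧ (∀ a, e0 (ξ a) = p a) ∧
      ∀ z ∈ Z, aeval ξ (pderiv z f) = 0 := by
  classical
  -- the sequence of approximations
  let S : ℕ → Type := fun k => {ξ : ι → N2 // (∀ a, a ∉ Z → ξ a = ξ₀ a) ∧ (∀ a, e0 (ξ a) = p a) ∧
    ∀ z ∈ Z, aeval ξ (pderiv z f) ∈ m2 ^ (k + 1)}
  have hstep : ∀ (k : ℕ) (s : S k), ∃ s' : S (k + 1), ∀ a, s'.1 a - s.1 a ∈ m2 ^ (k + 1) := by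
    intro k s
    obtain ⟨ξ', h1, h2, h3⟩ := step f Z p hdt k s.1 s.2.2.1 s.2.2.2
    refine ⟨⟨ξ', fun a ha => (h1 a ha).trans (s.2.1 a ha), fun a => ?_, h3⟩, h2⟩
    have h4 : ξ' a - s.1 a ∈ m2 := Ideal.pow_le_self (Nat.succ_ne_zero k) (h2 a)
    rw [mem_m2_iff, map_sub, s.2.2.1 a, sub_eq_zero] at h4
    exact h4
  choose nxt hnxt using hstep
  have s0 : S 0 := ⟨ξ₀, fun _ _ => rfl, h0, fun z hz' => by
    rw [pow_one, mem_m2_iff, e0_aeval h0]
    exact hz z hz'⟩
  let seq : ∀ k, S k := fun k => Nat.rec s0 (fun k s => nxt k s) k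
  have hseq : ∀ k a, (seq (k + 1)).1 a - (seq k).1 a ∈ m2 ^ (k + 1) := fun k a => hnxt k (seq k) a
  have hlim : ∀ a, ∃ η : N2, ∀ k, η - (seq k).1 a ∈ m2 ^ (k + 1) :=
    fun a => lim2 (fun k => (seq k).1 a) fun k => hseq k a
  choose ξ hξ using hlim
  refine ⟨ξ, fun a ha => ?_, fun a => ?_, fun z hz' => ?_⟩
  · have h1 : ξ a - ξ₀ a = 0 := by
      refine eq_zero_of_forall fun k => ?_
      have h2 := hξ a k
      rw [(seq k).2.1 a ha] at h2
      exact Ideal.pow_le_pow_right (by omega) h2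
    exact sub_eq_zero.1 h1
  · have h1 : ξ a - (seq 0).1 a ∈ m2 := Ideal.pow_le_self (Nat.succ_ne_zero 0) (hξ a 0)
    rw [mem_m2_iff, map_sub, (seq 0).2.2.1 a, sub_eq_zero] at h1
    exact h1
  · refine eq_zero_of_forall fun k => ?_
    have h1 := aeval_congr (m2 ^ (k + 1)) ξ (seq k).1 (fun a => hξ a k) (pderiv z f)
    have h2 := Ideal.add_mem _ h1 ((seq k).2.2.2 z hz')
    rw [sub_add_cancel] at h2
    exact Ideal.pow_le_pow_right (by omega) h2

end CHI9Aux

open CHI9Aux N2Lib in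
/-- **CHI9** -/
theorem stmt_CHI9 : Stmt_CHI9 := by
  intro ι _ _ f Z p u v huv hZ hz hdt lam
  have huZ : u ∉ Z := by
    rw [← Finset.mem_compl, hZ]
    simp
  have hvZ : v ∉ Z := by
    rw [← Finset.mem_compl, hZ]
    simp
  obtain ⟨ξ, h1, h2, h3⟩ := solve f Z p hz hdt
    (fun a => if a = u then cc (p u) + xx + cc lam * yy else if a = v then cc (p v) + yy else cc (p a))
    (fun a => by
      by_cases hu : a = u
      · rw [if_pos hu, hu]
        simp
      · rw [if_neg hu]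
        by_cases hv : a = v
        · rw [if_pos hv, hv]
          simp
        · rw [if_neg hv]
          simp)
  refine ⟨aeval ξ, ⟨?_, ?_, e0_aeval h2, h3⟩⟩
  · rw [aeval_X, h1 u huZ, if_pos rfl]
  · rw [aeval_X, h1 v hvZ, if_neg (Ne.symm huv), if_pos rfl]

end Pool.Agent.Mono.C9
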