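import Pool.Agent.Work.Monodromy.Interface9
import Pool.Agent.Work.Monodromy8.MAIN8

/-!
# Block COM9 (helper94): noetherian induction (the file cannot be called COM9: reserved name)
-/

set_option autoImplicit false
set_option linter.unusedSectionVars false

namespace Pool.Agent.Mono.C9

open MvPolynomial TS RO SP PC

namespace COM9Aux

open SP.MAIN8Aux

variable {ι : Type} [Fintype ι] [DecidableEq ι]

theorem gd_empty (f : MvPolynomial ι ℂ) : Gd f (∅ : Set (ι → ℂ)) := by
  intro P E _ Q hQ
  have e : ∀ m, vol P.rat xq (ZL f (∅ : Set (ι → ℂ)) Q m) = 0 := fun m => zero_ZL P f hQ.1 m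
  simp only [e]
  exact stmt_Q1.2.2.2.1 _ (fun _ => 0) 0 (fun _ _ => rfl)

theorem gd_union (f : MvPolynomial ι ℂ) {S T : Set (ι → ℂ)} (hS : Constructible S)
    (hT : Constructible T) (hd : Disjoint S T) (h1 : Gd f S) (h2 : Gd f T) : Gd f (S ∪ T) := by
  intro P E _ Q hQ
  have e : ∀ m, vol P.rat xq (ZL f (S ∪ T) Q m) =
      vol P.rat xq (ZL f S Q m) + vol P.rat xq (ZL f T Q m) :=
    fun m => vol_ZL P f hS hT hd hQ.1 m
  simp only [e]
  exact stmt_Q1.2.1 _ _ _ (h1 P E Q hQ) (h2 P E Q hQ)

/-- split a constructible set along a polynomial -/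
theorem gd_split (f a : MvPolynomial ι ℂ) {S : Set (ι → ℂ)} (hS : Constructible S)
    (h1 : Gd f (S ∩ {q | eval q a = 0})) (h2 : Gd f (S ∩ {q | eval q a = 0}ᶜ)) : Gd f S := by
  have e : S = (S ∩ {q | eval q a = 0}) ∪ (S ∩ {q | eval q a = 0}ᶜ) := by
    rw [← Set.inter_union_distrib_left, Set.union_compl_self, Set.inter_univ]
  have hz : Constructible {q : ι → ℂ | eval q a = 0} := Constructible.zero _
  rw [e]
  refine gd_union f (hS.inter hz) (hS.inter hz.compl) ?_ h1 h2
  rw [Set.disjoint_left]
  exact fun p hp hp' => hp'.2 hp.2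

theorem vanish_sup (J : Ideal (MvPolynomial ι ℂ)) (a : MvPolynomial ι ℂ) (q : ι → ℂ)
    (hJ : ∀ g ∈ J, eval q g = 0) (ha : eval q a = 0) :
    ∀ g ∈ J ⊔ Ideal.span {a}, eval q g = 0 := by
  intro g hg
  have h : J ⊔ Ideal.span {a} ≤ RingHom.ker (eval q) := by
    refine sup_le (fun x hx => hJ x hx) ?_
    rw [Ideal.span_le]
    intro x hx
    rw [Set.mem_singleton_iff.1 hx]
    exact ha
  exact h hg

theorem main (f : MvPolynomial ι ℂ)
    (h : ∀ I : Ideal (MvPolynomial ι ℂ), I.IsPrime → f ∈ I → (∀ a, pderiv a f ∈ I) →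
      ∃ s, s ∉ I ∧ ∀ S : Set (ι → ℂ), Constructible S →
        (∀ q ∈ S, (∀ g ∈ I, eval q g = 0) ∧ eval q s ≠ 0) → Gd f S) :
    ∀ J : Ideal (MvPolynomial ι ℂ), f ∈ J → (∀ a, pderiv a f ∈ J) →
      ∀ S : Set (ι → ℂ), Constructible S → (∀ q ∈ S, ∀ g ∈ J, eval q g = 0) → Gd f S := by
  intro J
  induction J using IsNoetherian.induction with
  | hgt J ih =>
    intro hf hd S hS hv
    -- one polynomial outside of J: the part in its zero set is good
    have step : ∀ a, a ∉ J → Gd f (S ∩ {q | eval q a = 0}) := by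
      intro a ha
      refine ih (J ⊔ Ideal.span {a}) ?_ (Ideal.mem_sup_left hf) (fun b => Ideal.mem_sup_left (hd b))
        _ (hS.inter (Constructible.zero _)) ?_
      · refine lt_of_le_of_ne le_sup_left ?_
        intro e
        apply ha
        rw [e]
        exact Ideal.mem_sup_right (Ideal.mem_span_singleton_self a)
      · rintro q ⟨hq, hqa⟩
        exact vanish_sup J a q (hv q hq) hqa
    by_cases hp : Ideal.IsPrime J
    · obtain ⟨s, hs, hgd⟩ := h J hp hf hd
      refine gd_split f s hS (step s hs) ?_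
      refine hgd _ (hS.inter (Constructible.zero _).compl) ?_
      rintro q ⟨hq, hqs⟩
      exact ⟨hv q hq, hqs⟩
    · rw [Ideal.isPrime_iff] at hp
      by_cases ht : J = ⊤
      · have e : S = ∅ := by
          ext q
          simp only [Set.mem_empty_iff_false, iff_false]
          intro hq
          have := hv q hq 1 (by rw [ht]; trivial)
          rw [map_one] at this
          exact one_ne_zero this
        rw [e]
        exact gd_empty f
      · have : ∃ a b, a * b ∈ J ∧ a ∉ J ∧ b ∉ J := by
          by_contra hcon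
          apply hp
          refine ⟨ht, ?_⟩
          intro a b hab
          by_contra h2
          rw [not_or] at h2
          exact hcon ⟨a, b, hab, h2.1, h2.2⟩
        obtain ⟨a, b, hab, ha, hb⟩ := this
        refine gd_split f a hS (step a ha) ?_
        -- the rest lies in V(b)
        have e : S ∩ {q | eval q a = 0}ᶜ = (S ∩ {q | eval q b = 0}) ∩ {q | eval q a = 0}ᶜ := by
          ext q
          constructor
          · rintro ⟨hq, hqa⟩
            refine ⟨⟨hq, ?_⟩, hqa⟩
            have := hv q hq _ hab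
            rw [map_mul] at this
            rcases mul_eq_zero.1 this with h1 | h1
            · exact absurd h1 hqa
            · exact h1
          · rintro ⟨⟨hq, -⟩, hqa⟩
            exact ⟨hq, hqa⟩
        rw [e]
        refine ih (J ⊔ Ideal.span {b}) ?_ (Ideal.mem_sup_left hf)
          (fun c => Ideal.mem_sup_left (hd c)) _
          ((hS.inter (Constructible.zero _)).inter (Constructible.zero _).compl) ?_
        · refine lt_of_le_of_ne le_sup_left ?_
          intro e
          apply hb
          rw [e]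
          exact Ideal.mem_sup_right (Ideal.mem_span_singleton_self b)
        · rintro q ⟨⟨hq, hqb⟩, -⟩
          exact vanish_sup J b q (hv q hq) hqb

end COM9Aux

open COM9Aux in
theorem stmt_COM9 : Stmt_COM9 := by
  intro ι _ _ f h
  refine main f h (Ideal.span (insert f (Set.range fun a => pderiv a f)))
    (Ideal.subset_span (Set.mem_insert _ _))
    (fun a => Ideal.subset_span (Set.mem_insert_of_mem _ ⟨a, rfl⟩)) (Crit0 f)
    (SP.MAIN8Aux.con_crit f) ?_
  rintro q ⟨h0, h1⟩ g hg
  have hle : Ideal.span (insert f (Set.range fun a => pderiv a f)) ≤ RingHom.ker (eval q) := by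
    rw [Ideal.span_le]
    rintro x (rfl | ⟨a, rfl⟩)
    · exact h0
    · exact h1 a
  exact hle hg

end Pool.Agent.Mono.C9
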