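import Pool.Agent.Work.Monodromy9.CTAux
import Pool.Agent.Work.Monodromy9.N2Lib
import Pool.Agent.Work.Monodromy.Push

/-!
# Phase 9, block CT9 (helper99): contact equivalence with a polynomial in separate variables
-/

set_option autoImplicit false
set_option linter.unusedSectionVars false

namespace Pool.Agent.Mono.C9

open MvPolynomial TS RO SP PC

namespace CT9Aux

open N2Lib CTAux

lemma cf_mon (a b i j : ℕ) : cf i j (xx ^ a * yy ^ b) = if i = a ∧ j = b then 1 else 0 := by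
  have h : (xx ^ a * yy ^ b : N2) = PowerSeries.C (PowerSeries.X ^ a) * PowerSeries.X ^ b := by
    unfold xx yy
    rw [map_pow]
  unfold cf
  rw [h, PowerSeries.coeff_C_mul_X_pow]
  by_cases hj : j = b
  · rw [if_pos hj, PowerSeries.coeff_X_pow]
    simp [hj]
  · rw [if_neg hj, map_zero, if_neg fun h => hj h.2]

/-- truncation -/
lemma trunc (g : N2) (M : ℕ) : ∃ T : P2, sub2 T yy - g ∈ m2 ^ M := by
  refine ⟨∑ a ∈ Finset.range M, ∑ b ∈ Finset.range M,
    C (cf a b g) * (X 0 ^ a * X 1 ^ b), ?_⟩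
  rw [mem_pow_iff]
  intro i j hij
  have h1 : sub2 (∑ a ∈ Finset.range M, ∑ b ∈ Finset.range M,
      C (cf a b g) * (X 0 ^ a * X 1 ^ b)) yy =
      ∑ a ∈ Finset.range M, ∑ b ∈ Finset.range M, cc (cf a b g) * (xx ^ a * yy ^ b) := by
    unfold sub2
    rw [map_sum]
    refine Finset.sum_congr rfl fun a _ => ?_
    rw [map_sum]
    refine Finset.sum_congr rfl fun b _ => ?_
    rw [map_mul, map_mul, map_pow, map_pow, aeval_X, aeval_X, MvPolynomial.algHom_C, alg_cc]
    rfl
  rw [cf_sub, h1, cf_sum, Finset.sum_eq_single i]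
  · rw [cf_sum, Finset.sum_eq_single j]
    · rw [cf_cc_mul, cf_mon, if_pos ⟨rfl, rfl⟩, mul_one, sub_self]
    · intro b _ hb
      rw [cf_cc_mul, cf_mon, if_neg fun h => hb h.2.symm, mul_zero]
    · intro h
      exact absurd (Finset.mem_range.2 (by omega)) h
  · intro a _ ha
    rw [cf_sum]
    refine Finset.sum_eq_zero fun b _ => ?_
    rw [cf_cc_mul, cf_mon, if_neg fun h => ha h.1.symm, mul_zero]
  · intro h
    exact absurd (Finset.mem_range.2 (by omega)) h

lemma e0_sub2 (T : P2) : e0 (sub2 T yy) = eval (fun _ => 0) T := by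
  induction T using MvPolynomial.induction_on with
  | C a =>
    unfold sub2
    rw [MvPolynomial.algHom_C, alg_cc, e0_cc, eval_C]
  | add g h hg hh =>
    unfold sub2 at hg hh ⊢
    rw [map_add, map_add, hg, hh, map_add]
  | mul_X g i hg =>
    unfold sub2 at hg ⊢
    rw [map_mul, map_mul, hg, map_mul, aeval_X, eval_X]
    fin_cases i
    · simp
    · simp

lemma dY_sub2 (T : P2) : dY (sub2 T yy) = sub2 (pderiv 1 T) yy := by
  unfold sub2
  rw [der_eq (aeval ![xx, yy] : P2 →ₐ[ℂ] N2) (fun g => dY (aeval ![xx, yy] g)) ?_ ?_ ?_ T]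
  · rw [Fin.sum_univ_two, aeval_X, aeval_X]
    simp [dY_xx, dY_yy]
  · intro c
    rw [MvPolynomial.algHom_C, alg_cc, dY_cc]
  · intro g h
    rw [map_add, dY_add]
  · intro g h
    rw [map_mul, dY_mul]

section

variable {ι : Type} (p : ι → ℂ) (u v : ι) (lam : ℂ)

lemma eval_lc9 (T : P2) : eval p (lc9 p u v lam T) = eval (fun _ => 0) T := by
  induction T using MvPolynomial.induction_on with
  | C a => rw [MvPolynomial.algHom_C]; simp
  | add g h hg hh => rw [map_add, map_add, hg, hh, map_add]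
  | mul_X g i hg =>
    rw [map_mul, map_mul, hg, map_mul, eval_X]
    unfold lc9
    rw [aeval_X]
    fin_cases i
    · simp
    · simp

lemma pd_u (huv : u ≠ v) (T : P2) :
    eval p (pderiv u (lc9 p u v lam T)) = eval (fun _ => 0) (pderiv 0 T) := by
  classical
  rw [pderiv_algHom, Fin.sum_univ_two, map_add, map_mul, map_mul, eval_lc9, eval_lc9]
  have h0 : pderiv u (lc9 p u v lam (X 0)) = 1 := by
    unfold lc9
    rw [aeval_X]
    simp [pderiv_X_of_ne huv.symm]
  have h1 : pderiv u (lc9 p u v lam (X 1)) = 0 := by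
    unfold lc9
    rw [aeval_X]
    simp [pderiv_X_of_ne huv.symm]
  rw [h0, h1]
  simp

lemma pd_v (huv : u ≠ v) (T : P2) :
    eval p (pderiv v (lc9 p u v lam T)) =
      eval (fun _ => 0) (pderiv 1 T) - lam * eval (fun _ => 0) (pderiv 0 T) := by
  classical
  rw [pderiv_algHom, Fin.sum_univ_two, map_add, map_mul, map_mul, eval_lc9, eval_lc9]
  have h0 : pderiv v (lc9 p u v lam (X 0)) = -C lam := by
    unfold lc9
    rw [aeval_X]
    simp [pderiv_X_of_ne huv]
  have h1 : pderiv v (lc9 p u v lam (X 1)) = 1 := by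
    unfold lc9
    rw [aeval_X]
    simp
  rw [h0, h1]
  simp
  ring

end

/-- square roots modulo powers of the maximal ideal -/
lemma sqrt_mod {ι : Type} {p : ι → ℂ} {W : MvPolynomial ι ℂ} (hW : eval p W = 1) (N : ℕ) :
    ∃ s, eval p s = 1 ∧ s ^ 2 * W - 1 ∈ mI p ^ (N + 1) := by
  induction N with
  | zero =>
    refine ⟨1, map_one _, ?_⟩
    rw [zero_add, pow_one, mem_mI]
    simp [hW]
  | succ N ih =>
    obtain ⟨s, hs1, hs⟩ := ih
    set e := s ^ 2 * W - 1 with he
    refine ⟨s * (1 - C (1 / 2) * e), ?_, ?_⟩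
    · have h0 : eval p e = 0 := by
        rw [he]
        simp [hs1, hW]
      simp [hs1, h0]
    · have h2 : (C (1 / 2 : ℂ) : MvPolynomial ι ℂ) * 2 = 1 := by
        have : (2 : MvPolynomial ι ℂ) = C (2 : ℂ) := (map_ofNat C 2).symm
        rw [this, ← C_mul]
        norm_num
      have h3 : (s * (1 - C (1 / 2) * e)) ^ 2 * W - 1 =
          e * e * (C (1 / 2) ^ 2 * (1 + e) - 1) := by
        have h4 : s ^ 2 * W = 1 + e := by rw [he]; ring
        have h5 : (s * (1 - C (1 / 2) * e)) ^ 2 * W = (1 - C (1 / 2) * e) ^ 2 * (s ^ 2 * W) := by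
          ring
        rw [h5, h4]
        linear_combination (-e * (1 + e)) * h2
      rw [h3]
      refine Ideal.mul_mem_right _ _ ?_
      have h6 : e * e ∈ mI p ^ (N + 1) * mI p ^ (N + 1) := Ideal.mul_mem_mul hs hs
      rw [← pow_add] at h6
      exact Ideal.pow_le_pow_right (by omega) h6

lemma map_pow_mem {R S : Type} [CommRing R] [CommRing S] (θ : R →+* S) (I : Ideal R)
    (J : Ideal S) (h : ∀ g ∈ I, θ g ∈ J) (N : ℕ) : ∀ g ∈ I ^ N, θ g ∈ J ^ N := by
  intro g hg
  have h1 : I.map θ ≤ J := Ideal.map_le_iff_le_comap.2 h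
  have h2 : θ g ∈ (I ^ N).map θ := Ideal.mem_map_of_mem θ hg
  rw [Ideal.map_pow] at h2
  exact Ideal.pow_right_mono h1 N h2

end CT9Aux

open N2Lib CTAux CT9Aux in
/-- **CT9** -/
theorem stmt_CT9 (hCG : Stmt_CG9) (hMO : Stmt_MO9) (hINV : Stmt_INV9) : Stmt_CT9 := by
  intro ι _ _ f Z p u v huv hZ hz hdt lam ρ hρ n G hG k
  set F : P2 := ∏ j ∈ Finset.Icc 1 n, G j ^ j with hF
  have hzu : u ∉ Z := Finset.mem_compl.1 (by rw [hZ]; simp)
  have hzv : v ∉ Z := Finset.mem_compl.1 (by rw [hZ]; simp)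
  obtain ⟨N, hN3, hNk⟩ : ∃ N : ℕ, 3 ≤ N ∧ k ≤ N := ⟨k + 3, by omega, by omega⟩
  obtain ⟨ψ, U, hψ, hU, hdvd⟩ := hG.eq (N + 1)
  obtain ⟨ψ', hψ'⟩ := trunc ψ (N + 1)
  obtain ⟨U', hU'⟩ := trunc U (N + 1)
  have hm : ∀ (M : ℕ) (g : N2), g ∈ m2 ^ (M + 1) → e0 g = 0 := fun M g hg =>
    mem_m2_iff.1 (Ideal.pow_le_self (by omega) hg)
  have hU0 : eval (fun _ => 0) U' = 1 := by
    rw [← e0_sub2]
    have := hm _ _ hU'
    rw [map_sub, hU, sub_eq_zero] at this
    exact this
  obtain ⟨w, hw⟩ := hψ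
  have h2 : ψ = yy + xx * w := by rw [← hw]; ring
  have hψ0 : eval (fun _ => 0) ψ' = 0 := by
    rw [← e0_sub2]
    have := hm _ _ hψ'
    rw [map_sub, sub_eq_zero] at this
    rw [this, h2, map_add, map_mul, e0_yy, e0_xx]
    ring
  have hψ1 : eval (fun _ => 0) (pderiv 1 ψ') = 1 := by
    rw [← e0_sub2, ← dY_sub2]
    have h1 : e0 (dY (sub2 ψ' yy - ψ)) = 0 := by
      obtain ⟨M, rfl⟩ : ∃ M, N = M + 1 := ⟨N - 1, by omega⟩
      exact hm M _ (dY_mem hψ')
    have h3 : dY (sub2 ψ' yy) = dY (sub2 ψ' yy - ψ) + dY ψ := by rw [← dY_add, sub_add_cancel]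
    rw [h3, map_add, h1, h2, dY_add, dY_yy, dY_mul, dY_xx, mul_zero, add_zero, map_add, map_one,
      map_mul, e0_xx]
    ring
  -- the polynomial in two variables
  set Gh : P2 := U' * aeval ![X 0, ψ'] F with hGh
  have hsub : sub2 Gh yy = sub2 U' yy * sub2 F (sub2 ψ' yy) := by
    have h3 : sub2 (aeval ![X 0, ψ'] F : P2) yy = sub2 F (sub2 ψ' yy) := by
      unfold sub2
      have h4 : (aeval ![xx, yy] : P2 →ₐ[ℂ] N2).comp (aeval ![X 0, ψ'] : P2 →ₐ[ℂ] P2) =
          aeval ![xx, aeval ![xx, yy] ψ'] := by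
        apply MvPolynomial.algHom_ext
        intro i
        rw [AlgHom.comp_apply, aeval_X, aeval_X]
        fin_cases i
        · simp
        · simp
      exact DFunLike.congr_fun h4 F
    rw [← h3, hGh]
    unfold sub2
    rw [map_mul]
  have hmem : ρ f - sub2 Gh yy ∈ m2 ^ (N + 1) := by
    have h3 : ρ f - sub2 Gh yy = (ρ f - U * sub2 F ψ) +
        (U * (sub2 F ψ - sub2 F (sub2 ψ' yy)) -
          (sub2 U' yy - U) * sub2 F (sub2 ψ' yy)) := by
      rw [hsub]
      ring
    rw [h3]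
    refine Ideal.add_mem _ ?_ (Ideal.sub_mem _ (Ideal.mul_mem_left _ _ ?_)
      (Ideal.mul_mem_right _ _ hU'))
    · obtain ⟨c, hc⟩ := hdvd
      rw [hc]
      exact Ideal.mul_mem_right _ _ (Ideal.pow_mem_pow xx_mem _)
    · refine aeval_congr (m2 ^ (N + 1)) _ _ ?_ F
      intro i
      fin_cases i
      · simp
      · have := (m2 ^ (N + 1)).neg_mem hψ'
        rw [neg_sub] at this
        simpa using this
  have h3 := hCG ι f Z p u v huv hZ hz hdt lam ρ hρ N Gh hmem
  -- the Morse lemma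
  obtain ⟨Y, hY0, hYdet, hY⟩ := hMO ι f (f - lc9 p u v lam Gh) Z p hz hdt (by
    intro a ha b hb
    have h4 : pderiv b (f - lc9 p u v lam Gh) = pderiv b f := by
      rw [map_sub, pd_lc9 p (fun h : b = u => hzu (h ▸ hb)) (fun h : b = v => hzv (h ▸ hb)), sub_zero]
    rw [h4]) N hN3 h3
  -- the unit
  set V := lc9 p u v lam U' with hV
  have hV1 : eval p V = 1 := by rw [hV, eval_lc9, hU0]
  obtain ⟨s, hs1, hs⟩ := sqrt_mod hV1 N
  have hs' : s ^ 2 * V - 1 ∈ mI p ^ N := Ideal.pow_le_pow_right (by omega) hs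
  have hlc : lc9 p u v lam Gh =
      V * aeval ![lc9 p u v lam (X 0), lc9 p u v lam ψ'] F := by
    rw [hGh, map_mul]
    congr 1
    have h4 : (lc9 p u v lam).comp (aeval ![X 0, ψ'] : P2 →ₐ[ℂ] P2) =
        aeval ![lc9 p u v lam (X 0), lc9 p u v lam ψ'] := by
      apply MvPolynomial.algHom_ext
      intro i
      rw [AlgHom.comp_apply, aeval_X, aeval_X]
      fin_cases i
      · simp
      · simp
    exact DFunLike.congr_fun h4 F
  -- the coordinates
  set x : ι → MvPolynomial ι ℂ := fun a => if h : a ∈ Z then Y ⟨a, h⟩ * s else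
    if a = u then lc9 p u v lam (X 0) else lc9 p u v lam ψ' with hx
  have hxz : ∀ z : Z, x z = Y z * s := by
    intro z
    rw [hx]
    simp
  have hxu : x u = lc9 p u v lam (X 0) := by
    rw [hx]
    simp [hzu]
  have hxv : x v = lc9 p u v lam ψ' := by
    rw [hx]
    simp [hzv, huv.symm]
  have hcases : ∀ a : ι, a ∈ Z ∨ a = u ∨ a = v := by
    intro a
    by_cases h : a ∈ Z
    · exact Or.inl h
    · right
      have : a ∈ Zᶜ := Finset.mem_compl.2 h
      rw [hZ] at this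
      simpa using this
  have hx0 : ∀ a, eval p (x a) = 0 := by
    intro a
    rcases hcases a with h | rfl | rfl
    · rw [hxz ⟨a, h⟩, map_mul, mem_mI.1 (hY0 ⟨a, h⟩), zero_mul]
    · rw [hxu, eval_lc9, eval_X]
    · rw [hxv, eval_lc9, hψ0]
  have hJ : (Matrix.of fun a b => eval p (pderiv b (x a))).det ≠ 0 := by
    intro hdet
    obtain ⟨y, hy, hyM⟩ := Matrix.exists_mulVec_eq_zero_iff.2 hdet
    apply hy
    have hrow : ∀ a, ∑ b : Z, eval p (pderiv (b : ι) (x a)) * y b +
        (eval p (pderiv u (x a)) * y u + eval p (pderiv v (x a)) * y v) = 0 := by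
      intro a
      have h4 := congrFun hyM a
      rw [Matrix.mulVec, dotProduct, Pi.zero_apply] at h4
      simp only [Matrix.of_apply] at h4
      rw [← Finset.sum_add_sum_compl Z, hZ, Finset.sum_pair huv,
        ← Finset.sum_coe_sort Z] at h4
      exact h4
    have hzero : ∀ (b : Z) (T : P2), pderiv (b : ι) (lc9 p u v lam T) = 0 := fun b T =>
      pd_lc9 p (fun h : (b : ι) = u => hzu (h ▸ b.2)) (fun h : (b : ι) = v => hzv (h ▸ b.2)) lam T
    have h5 := hrow u
    have h6 := hrow v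
    rw [hxu] at h5
    rw [hxv] at h6
    simp only [hzero, map_zero, zero_mul, Finset.sum_const_zero, zero_add, pd_u p u v lam huv,
      pd_v p u v lam huv, hψ1] at h5 h6
    have h7 : (pderiv 1 (X 0 : P2)) = 0 := pderiv_X_of_ne (by decide)
    have h8 : (pderiv 0 (X 0 : P2)) = 1 := pderiv_X_self 0
    rw [h7, h8, map_one, map_zero] at h5
    have hyv : y v = 0 := by
      linear_combination h6 - eval (fun _ => 0) (pderiv 0 ψ') * h5
    have hyu : y u = 0 := by
      rw [hyv] at h5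
      linear_combination h5
    have hyZ : (fun b : Z => y b) = 0 := by
      by_contra hne
      apply hYdet
      refine Matrix.exists_mulVec_eq_zero_iff.1 ⟨fun b : Z => y b, hne, ?_⟩
      funext a
      have h9 := hrow a
      rw [hyu, hyv, mul_zero, mul_zero, add_zero, add_zero, hxz a] at h9
      rw [Matrix.mulVec, dotProduct, Pi.zero_apply]
      simp only [Matrix.of_apply]
      rw [← h9]
      refine Finset.sum_congr rfl fun b _ => ?_
      rw [Derivation.leibniz, map_add, smul_eq_mul, smul_eq_mul, map_mul, map_mul,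
        mem_mI.1 (hY0 a), hs1]
      ring
    funext a
    rcases hcases a with h | rfl | rfl
    · exact congrFun hyZ ⟨a, h⟩
    · exact hyu
    · exact hyv
  -- inversion
  obtain ⟨φ, μ, hφ⟩ := hINV ι {p} x (by rintro q rfl; exact hJ) N
  obtain ⟨hμ, hco, hinv⟩ := hφ p rfl
  set c0 := eval p μ with hc0
  set θ : MvPolynomial ι ℂ →ₐ[ℂ] MvPolynomial ι ℂ := aeval fun a => C c0⁻¹ * X a with hθ
  set φ' : ι → MvPolynomial ι ℂ := fun a => θ (sp p (φ a)) with hφ'
  have hθ0 : ∀ g, eval (fun _ => 0) (θ g) = eval (fun _ => 0) g := by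
    intro g
    induction g using MvPolynomial.induction_on with
    | C a => rw [MvPolynomial.algHom_C]; simp
    | add g h hg hh => rw [map_add, map_add, hg, hh, map_add]
    | mul_X g i hg =>
      rw [map_mul, map_mul, hg, map_mul, eval_X, hθ, aeval_X]
      simp
  have hθd : ∀ (b : ι) (g : MvPolynomial ι ℂ), pderiv b (θ g) = C c0⁻¹ * θ (pderiv b g) := by
    intro b g
    rw [pderiv_algHom, Finset.sum_eq_single b]
    · rw [hθ, aeval_X, ← smul_eq_C_mul, Derivation.map_smul, pderiv_X_self, smul_eq_C_mul, mul_one]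
    · intro a _ hab
      rw [hθ, aeval_X, ← smul_eq_C_mul, Derivation.map_smul, pderiv_X_of_ne hab, smul_zero,
        zero_mul]
    · intro h
      exact absurd (Finset.mem_univ _) h
  have hbind : ∀ g, bind₁ φ' g = θ (bind₁ (fun c => sp p (φ c)) g) := by
    intro g
    have h4 : (bind₁ φ' : MvPolynomial ι ℂ →ₐ[ℂ] MvPolynomial ι ℂ) =
        θ.comp (bind₁ fun c => sp p (φ c)) := by
      apply MvPolynomial.algHom_ext
      intro i
      rw [AlgHom.comp_apply, bind₁_X_right, bind₁_X_right]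
    rw [h4, AlgHom.comp_apply]
  have hco' : IsCo p φ' := by
    constructor
    · intro a
      rw [hφ']
      simp only
      rw [hθ0]
      exact hco.1 a
    · have h4 : (Matrix.of fun a b => eval (fun _ => (0 : ℂ)) (pderiv b (φ' a))) =
          c0⁻¹ • (Matrix.of fun a b => eval (fun _ => (0 : ℂ)) (pderiv b (sp p (φ a)))) := by
        ext a b
        rw [Matrix.smul_apply, Matrix.of_apply, Matrix.of_apply, hφ']
        simp only
        rw [hθd, map_mul, eval_C, hθ0, smul_eq_mul]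
      rw [h4, Matrix.det_smul]
      exact mul_ne_zero (pow_ne_zero _ (inv_ne_zero hμ)) hco.2
  have h0 : ∀ g : MvPolynomial ι ℂ, eval (fun _ => 0) (bind₁ φ' g) = eval p g := by
    intro g
    induction g using MvPolynomial.induction_on with
    | C a => simp
    | add g h hg hh => rw [map_add, map_add, hg, hh, map_add]
    | mul_X g i hg =>
      rw [map_mul, map_mul, hg, map_mul, eval_X, bind₁_X_right, hco'.1]
  have hxa : ∀ a, bind₁ φ' (x a) - X a ∈ mI (fun _ : ι => (0 : ℂ)) ^ N := by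
    intro a
    have h4 := map_pow_mem (θ : MvPolynomial ι ℂ →+* MvPolynomial ι ℂ)
      (mI fun _ => (0 : ℂ)) (mI fun _ => (0 : ℂ))
      (fun g hg => by
        rw [mem_mI] at hg ⊢
        rw [RingHom.coe_coe, hθ0, hg]) N _ (hinv a)
    have h5 : (θ : MvPolynomial ι ℂ →+* MvPolynomial ι ℂ) (bind₁ (fun c => sp p (φ c)) (x a) -
        C (eval p (x a)) - C c0 * X a) = bind₁ φ' (x a) - X a := by
      rw [RingHom.coe_coe, hbind, hx0, map_zero, sub_zero, map_sub, map_mul,
        MvPolynomial.algHom_C, MvPolynomial.algebraMap_eq, hθ, aeval_X, ← mul_assoc, ← C_mul,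
        mul_inv_cancel₀ hμ, C_1, one_mul]
    rw [h5] at h4
    exact h4
  refine ⟨φ', bind₁ φ' V, hco', by rw [h0, hV1], ?_⟩
  have hle : mI (fun _ : ι => (0 : ℂ)) ^ N ≤ mI (fun _ : ι => (0 : ℂ)) ^ k :=
    Ideal.pow_le_pow_right hNk
  apply hle
  -- `f` in the coordinates
  have hf : f - V * (∑ z : Z, x z ^ 2 + aeval ![x u, x v] F) ∈ mI p ^ N := by
    have h4 : f - V * (∑ z : Z, x z ^ 2 + aeval ![x u, x v] F) =
        (f - lc9 p u v lam Gh - ∑ z : Z, Y z ^ 2) - (s ^ 2 * V - 1) * ∑ z : Z, Y z ^ 2 := by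
      rw [hlc, hxu, hxv]
      have h5 : ∑ z : Z, x z ^ 2 = s ^ 2 * ∑ z : Z, Y z ^ 2 := by
        rw [Finset.mul_sum]
        refine Finset.sum_congr rfl fun z _ => ?_
        rw [hxz]
        ring
      rw [h5]
      ring
    rw [h4]
    exact Ideal.sub_mem _ hY (Ideal.mul_mem_right _ _ hs')
  have hbf := map_pow_mem ((bind₁ φ' : MvPolynomial ι ℂ →ₐ[ℂ] MvPolynomial ι ℂ) :
    MvPolynomial ι ℂ →+* MvPolynomial ι ℂ) (mI p) (mI fun _ => (0 : ℂ))
    (fun g hg => by
      rw [mem_mI] at hg ⊢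
      rw [RingHom.coe_coe, h0, hg]) N _ hf
  rw [RingHom.coe_coe, map_sub, map_mul, map_add, map_sum] at hbf
  have h4 : bind₁ φ' (aeval ![x u, x v] F) = aeval ![bind₁ φ' (x u), bind₁ φ' (x v)] F := by
    have h5 : (bind₁ φ').comp (aeval ![x u, x v] : P2 →ₐ[ℂ] MvPolynomial ι ℂ) =
        aeval ![bind₁ φ' (x u), bind₁ φ' (x v)] := by
      apply MvPolynomial.algHom_ext
      intro i
      rw [AlgHom.comp_apply, aeval_X, aeval_X]
      fin_cases i
      · simp
      · simp
    exact DFunLike.congr_fun h5 F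
  rw [h4] at hbf
  have h5 : bind₁ φ' f - bind₁ φ' V * GG Z u v F =
      (bind₁ φ' f - bind₁ φ' V * (∑ z : Z, bind₁ φ' (x z ^ 2) +
        aeval ![bind₁ φ' (x u), bind₁ φ' (x v)] F)) +
      bind₁ φ' V * ((∑ z : Z, (bind₁ φ' (x z) - X (z : ι)) * (bind₁ φ' (x z) + X (z : ι))) +
        (aeval ![bind₁ φ' (x u), bind₁ φ' (x v)] F - aeval ![X u, X v] F)) := by
    have h6 : ∑ z : Z, (bind₁ φ' (x z) - X (z : ι)) * (bind₁ φ' (x z) + X (z : ι)) =
        ∑ z : Z, bind₁ φ' (x z ^ 2) - ∑ z ∈ Z, X z ^ 2 := by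
      rw [← Finset.sum_coe_sort Z, ← Finset.sum_sub_distrib]
      refine Finset.sum_congr rfl fun z _ => ?_
      rw [map_pow]
      ring
    rw [h6]
    unfold GG
    ring
  rw [h5]
  refine Ideal.add_mem _ hbf (Ideal.mul_mem_left _ _ (Ideal.add_mem _ ?_ ?_))
  · exact Ideal.sum_mem _ fun z _ => Ideal.mul_mem_right _ _ (hxa z)
  · refine aeval_congr (mI (fun _ : ι => (0 : ℂ)) ^ N) _ _ ?_ F
    intro i
    fin_cases i
    · simpa using hxa u
    · simpa using hxa v

end Pool.Agent.Mono.C9
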