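import Pool.Agent.Work.Monodromy.Interface9
import Pool.Agent.Work.Monodromy8.SQV8

/-!
# Block CTV9 (helper83): volumes and contact equivalence
-/

set_option autoImplicit false
set_option linter.unusedSectionVars false

namespace Pool.Agent.Mono.C9

open MvPolynomial TS RO SP PC

namespace CTV9Aux

/-- elements of `m_0^k` have order at least `k` on arcs which start at the origin -/
theorem dvd_arc {ι : Type} (y : ι → PowerSeries ℂ) (hy : ∀ a, PowerSeries.coeff 0 (y a) = 0)
    (k : ℕ) (g : MvPolynomial ι ℂ) (hg : g ∈ mI (fun _ => (0 : ℂ)) ^ k) :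
    (PowerSeries.X : PowerSeries ℂ) ^ k ∣ aeval y g := by
  have h1 : mI (fun _ : ι => (0 : ℂ)) ≤
      Ideal.comap (aeval y : MvPolynomial ι ℂ →ₐ[ℂ] PowerSeries ℂ)
        (Ideal.span {(PowerSeries.X : PowerSeries ℂ)}) := by
    intro h hh
    rw [Ideal.mem_comap, Ideal.mem_span_singleton]
    rw [mI, RingHom.mem_ker] at hh
    rw [PowerSeries.X_dvd_iff]
    have h2 : ∀ h : MvPolynomial ι ℂ, PowerSeries.constantCoeff (aeval y h) =
        eval (fun _ => (0 : ℂ)) h := by
      intro h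
      induction h using MvPolynomial.induction_on with
      | C c =>
        rw [aeval_C, eval_C]
        exact PowerSeries.constantCoeff_C c
      | add p q hp hq => rw [map_add, map_add, map_add, hp, hq]
      | mul_X p i hp =>
        rw [map_mul, map_mul, map_mul, hp, aeval_X, eval_X]
        have := hy i
        rw [PowerSeries.coeff_zero_eq_constantCoeff_apply] at this
        rw [this]
    exact (h2 h).trans hh
  have h3 := Ideal.pow_right_mono h1 k hg
  have h4 := Ideal.le_comap_pow (aeval y : MvPolynomial ι ℂ →ₐ[ℂ] PowerSeries ℂ) k h3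
  rw [Ideal.mem_comap, Ideal.span_singleton_pow, Ideal.mem_span_singleton] at h4
  exact h4

/-- leading coefficients modulo units with value `1` -/
theorem lead_unit {E : Type} (Q : Set (E ⊕ Unit → ℂ)) (m : ℕ) (p : E → ℂ)
    (F u H : PowerSeries ℂ) (hu : PowerSeries.constantCoeff u = 1)
    (h : (PowerSeries.X : PowerSeries ℂ) ^ (m + 1) ∣ F - u * H) :
    Lead Q m p F ↔ Lead Q m p H := by
  have hunit : IsUnit u := by
    rw [PowerSeries.isUnit_iff_constantCoeff, hu]
    exact isUnit_one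
  have hm : (PowerSeries.X : PowerSeries ℂ) ^ m ∣ F - u * H :=
    dvd_trans (pow_dvd_pow _ (Nat.le_succ m)) h
  have key : (PowerSeries.X : PowerSeries ℂ) ^ m ∣ F ↔ (PowerSeries.X : PowerSeries ℂ) ^ m ∣ H := by
    constructor
    · intro hF
      have h1 : (PowerSeries.X : PowerSeries ℂ) ^ m ∣ u * H := by
        have := dvd_sub hF hm
        rwa [sub_sub_cancel] at this
      exact (hunit.dvd_mul_left).1 h1
    · intro hH
      have h1 := dvd_add hm (Dvd.dvd.mul_left hH u)
      rwa [sub_add_cancel] at h1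
  have kc : (PowerSeries.X : PowerSeries ℂ) ^ m ∣ H →
      PowerSeries.coeff m F = PowerSeries.coeff m H := by
    rintro ⟨H', rfl⟩
    obtain ⟨r, hr⟩ := h
    have h1 : F = PowerSeries.X ^ (m + 1) * r + PowerSeries.X ^ m * (u * H') := by
      rw [← hr]; ring
    rw [h1, map_add]
    have h2 : PowerSeries.coeff m (PowerSeries.X ^ (m + 1) * r) = 0 := by
      rw [PowerSeries.coeff_X_pow_mul', if_neg (by omega)]
    rw [h2, zero_add, PowerSeries.coeff_X_pow_mul', if_pos le_rfl, Nat.sub_self,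
      PowerSeries.coeff_X_pow_mul', if_pos le_rfl, Nat.sub_self,
      PowerSeries.coeff_zero_eq_constantCoeff_apply, map_mul, hu, one_mul,
      PowerSeries.coeff_zero_eq_constantCoeff_apply]
  constructor
  · rintro ⟨h1, h2⟩
    have h3 : (PowerSeries.X : PowerSeries ℂ) ^ m ∣ H := key.1 (PowerSeries.X_pow_dvd_iff.2 h1)
    refine ⟨PowerSeries.X_pow_dvd_iff.1 h3, ?_⟩
    rw [← kc h3]
    exact h2
  · rintro ⟨h1, h2⟩
    have h3 : (PowerSeries.X : PowerSeries ℂ) ^ m ∣ H := PowerSeries.X_pow_dvd_iff.2 h1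
    refine ⟨PowerSeries.X_pow_dvd_iff.1 (key.2 h3), ?_⟩
    rw [kc h3]
    exact h2

end CTV9Aux

open CTV9Aux in
theorem stmt_CTV9 : Stmt_CTV9 := by
  intro ι _ _ f p G hC P E _ Q hQ m
  obtain ⟨φ, U, hφ, hU, hk⟩ := hC (m + 1)
  obtain ⟨N, hN⟩ := SP.SQV8Aux.cy_lead (E := E) f hQ.1 m
  have h1 := stmt_CVSQ P ι p φ hφ.1 hφ.2 E _ (max N 1) (le_max_right _ _) (hN _ (le_max_left _ _))
  have e1 : ZL f {p} Q m = {z : (E → ℂ) × (ι → PowerSeries ℂ) |
      (∀ a, PowerSeries.coeff 0 (z.2 a) = p a) ∧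
      z ∈ {z : (E → ℂ) × (ι → PowerSeries ℂ) | Lead Q m z.1 (aeval z.2 f)}} := by
    ext z
    constructor
    · rintro ⟨h1, h2⟩
      exact ⟨fun a => congrFun h1 a, h2⟩
    · rintro ⟨h1, h2⟩
      exact ⟨funext h1, h2⟩
  have e2 : {z : (E → ℂ) × (ι → PowerSeries ℂ) | (∀ a, PowerSeries.coeff 0 (z.2 a) = 0) ∧
      (z.1, fun a => aeval z.2 (φ a)) ∈
        {z : (E → ℂ) × (ι → PowerSeries ℂ) | Lead Q m z.1 (aeval z.2 f)}} =
      ZL G {fun _ => 0} Q m := by
    ext z
    have key : (∀ a, PowerSeries.coeff 0 (z.2 a) = 0) →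
        (Lead Q m z.1 (aeval (fun a => aeval z.2 (φ a)) f) ↔ Lead Q m z.1 (aeval z.2 G)) := by
      intro h0
      refine lead_unit Q m z.1 _ (aeval z.2 U) _ ?_ ?_
      · have h2 := dvd_arc z.2 h0 1 (U - 1) (by
          rw [pow_one, mI, RingHom.mem_ker, map_sub, hU, map_one, sub_self])
        rw [pow_one, PowerSeries.X_dvd_iff, map_sub, map_sub, map_one, map_one, sub_eq_zero] at h2
        exact h2
      · have h2 := dvd_arc z.2 h0 (m + 1) _ hk
        rw [map_sub, map_mul, aeval_bind₁] at h2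
        exact h2
    constructor
    · rintro ⟨h0, h2⟩
      exact ⟨funext h0, (key h0).1 h2⟩
    · rintro ⟨h0, h2⟩
      have h0' : ∀ a, PowerSeries.coeff 0 (z.2 a) = 0 := fun a => congrFun h0 a
      exact ⟨h0', (key h0').2 h2⟩
  rw [e1, h1, e2]

end Pool.Agent.Mono.C9
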