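import Pool.Agent.Work.Monodromy.Interface9

/-!
# Phase 9, block DER9: rules for the derivations `δ_b` (helper26)
-/

set_option autoImplicit false

namespace Pool.Agent.Mono.C9

open MvPolynomial TS RO SP PC

namespace DER9Aux

variable {ι : Type} [DecidableEq ι]

theorem pd_comm (f : MvPolynomial ι ℂ) (a b : ι) :
    pderiv a (pderiv b f) = pderiv b (pderiv a f) := by
  induction f using MvPolynomial.induction_on with
  | C c => simp
  | add p q hp hq => simp [hp, hq]
  | mul_X p n hp =>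
    have h1 : pderiv a (pderiv b (X n : MvPolynomial ι ℂ)) = 0 := by
      rw [pderiv_X]
      by_cases h : n = b
      · subst h
        simp
      · rw [Pi.single_eq_of_ne h]
        simp
    have h2 : pderiv b (pderiv a (X n : MvPolynomial ι ℂ)) = 0 := by
      rw [pderiv_X]
      by_cases h : n = a
      · subst h
        simp
      · rw [Pi.single_eq_of_ne h]
        simp
    simp only [Derivation.leibniz, map_add, smul_eq_mul, hp, h1, h2]
    ring

theorem HM_symm (f : MvPolynomial ι ℂ) (Z : Finset ι) (a b : Z) :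
    HM f Z a b = HM f Z b a := by
  simp only [HM, Matrix.of_apply]
  exact pd_comm _ _ _

/-- `δ_b g` -/
theorem dl_apply (f : MvPolynomial ι ℂ) (Z : Finset ι) (b : ι) (g : MvPolynomial ι ℂ) :
    dl f Z b g = dt f Z * pderiv b g -
      ∑ a : Z, (∑ a' : Z, (HM f Z).adjugate a a' * pderiv (a' : ι) (pderiv b f)) *
        pderiv (a : ι) g := by
  simp only [dl, Derivation.coe_sub, Derivation.coe_smul, Pi.sub_apply, Pi.smul_apply,
    smul_eq_mul]
  congr 1
  have : ∀ (s : Finset Z) (F : Z → Derivation ℂ (MvPolynomial ι ℂ) (MvPolynomial ι ℂ)),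
      (∑ a ∈ s, F a) g = ∑ a ∈ s, F a g := by
    intro s F
    induction s using Finset.induction_on with
    | empty => simp
    | insert a s ha ih => rw [Finset.sum_insert ha, Finset.sum_insert ha, Derivation.add_apply, ih]
  rw [this]
  simp [smul_eq_mul]

theorem adj_mul (f : MvPolynomial ι ℂ) (Z : Finset ι) (a b : Z) :
    ∑ a' : Z, (HM f Z).adjugate a a' * pderiv (a' : ι) (pderiv (b : ι) f) =
      if a = b then dt f Z else 0 := by
  have h := congrFun (congrFun (Matrix.adjugate_mul (HM f Z)) a) b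
  rw [Matrix.mul_apply] at h
  simp only [Matrix.smul_apply, Matrix.one_apply, smul_eq_mul, mul_ite, mul_one, mul_zero] at h
  rw [← dt] at h
  rw [← h]
  rfl

theorem mul_adj (f : MvPolynomial ι ℂ) (Z : Finset ι) (a' b : Z) :
    ∑ a : Z, pderiv (a : ι) (pderiv (b : ι) f) * (HM f Z).adjugate a a' =
      if b = a' then dt f Z else 0 := by
  have h := congrFun (congrFun (Matrix.mul_adjugate (HM f Z)) b) a'
  rw [Matrix.mul_apply] at h
  simp only [Matrix.smul_apply, Matrix.one_apply, smul_eq_mul, mul_ite, mul_one, mul_zero] at h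
  rw [← dt] at h
  rw [← h]
  refine Finset.sum_congr rfl fun a _ => ?_
  rw [HM_symm]
  rfl

theorem dl_z (f : MvPolynomial ι ℂ) (Z : Finset ι) (b z : ι) (hz : z ∈ Z) :
    dl f Z b (pderiv z f) = 0 := by
  rw [dl_apply, sub_eq_zero]
  have h1 : ∀ a : Z, (∑ a' : Z, (HM f Z).adjugate a a' * pderiv (a' : ι) (pderiv b f)) *
      pderiv (a : ι) (pderiv z f) =
      ∑ a' : Z, (pderiv (a : ι) (pderiv z f) * (HM f Z).adjugate a a') *
        pderiv (a' : ι) (pderiv b f) := by
    intro a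
    rw [Finset.sum_mul]
    refine Finset.sum_congr rfl fun a' _ => ?_
    ring
  simp only [h1]
  rw [Finset.sum_comm]
  have h2 : ∀ a' : Z, ∑ a : Z, (pderiv (a : ι) (pderiv z f) * (HM f Z).adjugate a a') *
        pderiv (a' : ι) (pderiv b f) =
      (if (⟨z, hz⟩ : Z) = a' then dt f Z else 0) * pderiv (a' : ι) (pderiv b f) := by
    intro a'
    rw [← Finset.sum_mul]
    congr 1
    exact mul_adj f Z a' ⟨z, hz⟩
  simp only [h2, ite_mul, zero_mul]
  rw [Finset.sum_ite_eq, if_pos (Finset.mem_univ _)]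
  rw [pd_comm]

theorem dl_X (f : MvPolynomial ι ℂ) (Z : Finset ι) (b c : ι) (hc : c ∉ Z) :
    dl f Z b (X c) = if b = c then dt f Z else 0 := by
  rw [dl_apply]
  have h1 : ∀ a : Z, pderiv (a : ι) (X c : MvPolynomial ι ℂ) = 0 := by
    intro a
    rw [pderiv_X, Pi.single_eq_of_ne']
    intro h
    exact hc (h ▸ a.2)
  simp only [h1, mul_zero, Finset.sum_const_zero, sub_zero]
  rw [pderiv_X]
  by_cases h : b = c
  · subst h
    simp
  · rw [if_neg h, Pi.single_eq_of_ne (Ne.symm h), mul_zero]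

theorem dl_mem (f : MvPolynomial ι ℂ) (Z : Finset ι) (b : ι) (hb : b ∈ Z)
    (g : MvPolynomial ι ℂ) : dl f Z b g = 0 := by
  rw [dl_apply, sub_eq_zero]
  have h1 : ∀ a : Z, ∑ a' : Z, (HM f Z).adjugate a a' * pderiv (a' : ι) (pderiv b f) =
      if a = ⟨b, hb⟩ then dt f Z else 0 := fun a => adj_mul f Z a ⟨b, hb⟩
  simp only [h1, ite_mul, zero_mul]
  rw [Finset.sum_ite_eq', if_pos (Finset.mem_univ _)]

theorem dl_Zi (f : MvPolynomial ι ℂ) (Z : Finset ι) (b : ι) (g : MvPolynomial ι ℂ)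
    (hg : g ∈ Zi f Z) : dl f Z b g ∈ Zi f Z := by
  rw [Zi] at hg
  induction hg using Submodule.span_induction with
  | mem x hx =>
    obtain ⟨z, hz, rfl⟩ := hx
    rw [dl_z f Z b z hz]
    exact Ideal.zero_mem _
  | zero => rw [map_zero]; exact Ideal.zero_mem _
  | add x y _ _ hx hy => rw [map_add]; exact Ideal.add_mem _ hx hy
  | smul c x hx0 hx =>
    rw [smul_eq_mul, Derivation.leibniz, smul_eq_mul, smul_eq_mul]
    exact Ideal.add_mem _ (Ideal.mul_mem_left _ _ hx) (Ideal.mul_mem_right _ _ hx0)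

omit [DecidableEq ι] in
theorem z_mem (f : MvPolynomial ι ℂ) (Z : Finset ι) (z : ι) (hz : z ∈ Z) :
    pderiv z f ∈ Zi f Z := Ideal.subset_span ⟨z, hz, rfl⟩

theorem dl_f (f : MvPolynomial ι ℂ) (Z : Finset ι) (b : ι) :
    dl f Z b f - dt f Z * pderiv b f ∈ Zi f Z := by
  rw [dl_apply]
  have : ∀ x y : MvPolynomial ι ℂ, x - y - x = -y := fun x y => by ring
  rw [this]
  refine (Ideal.neg_mem_iff _).2 (Ideal.sum_mem _ fun a _ => ?_)
  exact Ideal.mul_mem_left _ _ (z_mem f Z a a.2)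

theorem dt_eval (f : MvPolynomial ι ℂ) (Z : Finset ι) (q : ι → ℂ) :
    eval q (dt f Z) = (HZ f Z q).det := by
  rw [dt, RingHom.map_det]
  rfl

end DER9Aux

theorem stmt_DER9 : Stmt_DER9 := by
  intro ι _ _ f Z
  exact ⟨DER9Aux.dl_z f Z, DER9Aux.dl_X f Z, DER9Aux.dl_mem f Z, DER9Aux.dl_Zi f Z,
    DER9Aux.dl_f f Z, DER9Aux.dt_eval f Z⟩

end Pool.Agent.Mono.C9
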