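import Pool.Agent.Work.Monodromy9.N2Lib

/-! MONODROMY, phase 9, block DRV9: derivations under the parametrisation (helper60). -/

set_option autoImplicit false

namespace Pool.Agent.Mono.C9

open MvPolynomial TS RO SP PC

namespace DRV9Aux

open N2Lib

variable {ι : Type} [Fintype ι] [DecidableEq ι]

/-- two derivations over `ρ` which agree on `X u`, `X v` and the `∂_z f` -/
theorem key (h : Stmt_DER9) (f : MvPolynomial ι ℂ) (Z : Finset ι) (p : ι → ℂ) (u v : ι)
    (hZ : Zᶜ = {u, v}) (hdt : eval p (dt f Z) ≠ 0) (lam : ℂ)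
    (ρ : MvPolynomial ι ℂ →ₐ[ℂ] N2) (hρ : Par9 f Z p u v lam ρ) (b : ι) (D : N2 → N2)
    (hadd : ∀ g h, D (g + h) = D g + D h) (hcc : ∀ c, D (cc c) = 0)
    (hmul : ∀ g h, D (g * h) = g * D h + h * D g)
    (hu : ρ (dl f Z b (X u)) = ρ (dt f Z) * D (ρ (X u)))
    (hv : ρ (dl f Z b (X v)) = ρ (dt f Z) * D (ρ (X v))) (g : MvPolynomial ι ℂ) :
    ρ (dl f Z b g) = ρ (dt f Z) * D (ρ g) := by
  have hD0 : D 0 = 0 := by
    have := hcc 0
    rwa [cc_zero] at this
  set E : MvPolynomial ι ℂ → N2 := fun g => ρ (dl f Z b g) - ρ (dt f Z) * D (ρ g) with hE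
  have hEg : ∀ g, E g = ∑ a, ρ (pderiv a g) * E (X a) := by
    refine der_eq ρ E (fun c => ?_) (fun g h => ?_) fun g h => ?_
    · show ρ (dl f Z b (C c)) - ρ (dt f Z) * D (ρ (C c)) = 0
      have h1 : dl f Z b (C c) = 0 := (dl f Z b).map_algebraMap c
      rw [h1, algHom_C, N2Lib.algebraMap_eq, hcc, map_zero, mul_zero, sub_zero]
    · show ρ (dl f Z b (g + h)) - ρ (dt f Z) * D (ρ (g + h)) =
        (ρ (dl f Z b g) - ρ (dt f Z) * D (ρ g)) + (ρ (dl f Z b h) - ρ (dt f Z) * D (ρ h))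
      rw [map_add, map_add, map_add, hadd]
      ring
    · show ρ (dl f Z b (g * h)) - ρ (dt f Z) * D (ρ (g * h)) =
        ρ g * (ρ (dl f Z b h) - ρ (dt f Z) * D (ρ h)) +
          ρ h * (ρ (dl f Z b g) - ρ (dt f Z) * D (ρ g))
      rw [Derivation.leibniz, smul_eq_mul, smul_eq_mul, map_add, map_mul, map_mul, map_mul, hmul]
      ring
  have hout : ∀ a, a ∉ Z → E (X a) = 0 := by
    intro a ha
    rw [← Finset.mem_compl, hZ, Finset.mem_insert, Finset.mem_singleton] at ha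
    rcases ha with rfl | rfl
    · exact sub_eq_zero.2 hu
    · exact sub_eq_zero.2 hv
  -- the linear system
  set N : Matrix Z Z N2 := (HM f Z).map ρ with hN
  have hdet : N.det = ρ (dt f Z) := by
    rw [hN]
    unfold dt
    rw [AlgHom.map_det]
    rfl
  have hunit : IsUnit N.det := by
    rw [hdet, N2Lib.isUnit_iff, hρ.h0]
    exact hdt
  have hsys : ∀ z : Z, ∑ a : Z, E (X (a : ι)) * N a z = 0 := by
    intro z
    have h1 : E (pderiv (z : ι) f) = 0 := by
      show ρ (dl f Z b (pderiv (z : ι) f)) - ρ (dt f Z) * D (ρ (pderiv (z : ι) f)) = 0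
      rw [(h ι f Z).1 b z z.2, hρ.hz z z.2, map_zero, hD0, mul_zero, sub_zero]
    rw [hEg] at h1
    have h2 : ∑ a ∈ Z, ρ (pderiv a (pderiv (z : ι) f)) * E (X a) =
        ∑ a, ρ (pderiv a (pderiv (z : ι) f)) * E (X a) :=
      Finset.sum_subset (Finset.subset_univ Z) fun a _ ha => by rw [hout a ha, mul_zero]
    rw [← h2, ← Finset.sum_coe_sort Z fun a => ρ (pderiv a (pderiv (z : ι) f)) * E (X a)] at h1
    rw [← h1]
    exact Finset.sum_congr rfl fun a _ => mul_comm _ _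
  have hzero : (fun a : Z => E (X (a : ι))) = 0 := by
    have h1 : Matrix.vecMul (fun a : Z => E (X (a : ι))) N = 0 := by
      funext z
      exact hsys z
    have h2 : Matrix.vecMul (Matrix.vecMul (fun a : Z => E (X (a : ι))) N) N⁻¹ = 0 := by
      rw [h1, Matrix.zero_vecMul]
    rwa [Matrix.vecMul_vecMul, Matrix.mul_nonsing_inv N hunit, Matrix.vecMul_one] at h2
  have h3 : E g = 0 := by
    rw [hEg]
    refine Finset.sum_eq_zero fun a _ => ?_
    by_cases ha : a ∈ Z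
    · have := congrFun hzero ⟨a, ha⟩
      rw [show E (X a) = 0 from this, mul_zero]
    · rw [hout a ha, mul_zero]
  exact sub_eq_zero.1 h3

end DRV9Aux

open DRV9Aux N2Lib in
/-- **DRV9** -/
theorem stmt_DRV9 (h : Stmt_DER9) : Stmt_DRV9 := by
  intro ι _ _ f Z p u v huv hZ hdt lam ρ hρ g
  have huZ : u ∉ Z := by
    rw [← Finset.mem_compl, hZ]
    simp
  have hvZ : v ∉ Z := by
    rw [← Finset.mem_compl, hZ]
    simp
  have h1 : ∀ b c, c ∉ Z → dl f Z b (X c) = if b = c then dt f Z else 0 := (h ι f Z).2.1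
  have hXu : dX (ρ (X u)) = 1 := by
    rw [hρ.hu, dX_add, dX_add, dX_cc, dX_xx, dX_cc_mul, dX_yy, mul_zero]
    ring
  have hYu : dY (ρ (X u)) = cc lam := by
    rw [hρ.hu, dY_add, dY_add, dY_cc, dY_xx, dY_cc_mul, dY_yy, mul_one]
    ring
  have hXv : dX (ρ (X v)) = 0 := by
    rw [hρ.hv, dX_add, dX_cc, dX_yy]
    ring
  have hYv : dY (ρ (X v)) = 1 := by
    rw [hρ.hv, dY_add, dY_cc, dY_yy]
    ring
  constructor
  · refine key h f Z p u v hZ hdt lam ρ hρ u dX dX_add dX_cc dX_mul ?_ ?_ g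
    · rw [h1 u u huZ, if_pos rfl, hXu, mul_one]
    · rw [h1 u v hvZ, if_neg huv, hXv, mul_zero, map_zero]
  · refine key h f Z p u v hZ hdt lam ρ hρ v (fun g => dY g - cc lam * dX g) (fun g h => ?_)
      (fun c => ?_) (fun g h => ?_) ?_ ?_ g
    · show dY (g + h) - cc lam * dX (g + h) = (dY g - cc lam * dX g) + (dY h - cc lam * dX h)
      rw [dY_add, dX_add]
      ring
    · show dY (cc c) - cc lam * dX (cc c) = 0
      rw [dY_cc, dX_cc, mul_zero, sub_zero]
    · show dY (g * h) - cc lam * dX (g * h) =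
        g * (dY h - cc lam * dX h) + h * (dY g - cc lam * dX g)
      rw [dY_mul, dX_mul]
      ring
    · show ρ (dl f Z v (X u)) = ρ (dt f Z) * (dY (ρ (X u)) - cc lam * dX (ρ (X u)))
      rw [h1 v u huZ, if_neg (Ne.symm huv), hYu, hXu, mul_one, sub_self, mul_zero, map_zero]
    · show ρ (dl f Z v (X v)) = ρ (dt f Z) * (dY (ρ (X v)) - cc lam * dX (ρ (X v)))
      rw [h1 v v hvZ, if_pos rfl, hYv, hXv, mul_zero, sub_zero, mul_one]

end Pool.Agent.Mono.C9
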