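import Pool.Agent.Work.Monodromy.Interface9
import Pool.Agent.Work.Monodromy6.WB
import Pool.Agent.Work.Monodromy6.WE

/-!
# Block SLS9 (helper72): slices

`Stmt_SLS9` is false as stated (at smooth points, `D = 1`); `Stmt_SLS9X` has the additional
hypothesis `q ∈ Crit0 f`.
-/

set_option autoImplicit false
set_option linter.unusedSectionVars false

namespace Pool.Agent.Mono.C9

open MvPolynomial TS RO SP PC

/-- slices (at critical points) -/
def Stmt_SLS9X : Prop :=
  ∀ (ι : Type) [Fintype ι] [DecidableEq ι] (f : MvPolynomial ι ℂ) (q : ι → ℂ), q ∈ Crit0 f →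
    ∀ (A : Finset ι) (w : ι → ℕ) (D : ℕ) (Y : ι → MvPolynomial ι ℂ) (s : MvPolynomial ι ℂ)
    (Φ : MvPolynomial ι (MvPolynomial ι ℂ)), Str9 f {q} A w D Y s Φ →
      SQAt (slice f A q) (fun a => q a) (((∑ a ∈ A, w a : ℕ) : ℚ) / (D : ℚ))

namespace SLS9Aux

variable {ι : Type} [Fintype ι] [DecidableEq ι]

/-- the restriction to the slice -/
noncomputable def rs (A : Finset ι) (q : ι → ℂ) : MvPolynomial ι ℂ →ₐ[ℂ] MvPolynomial A ℂ :=
  aeval (fun a => if h : a ∈ A then X ⟨a, h⟩ else C (q a))

theorem rs_X (A : Finset ι) (q : ι → ℂ) (a : ι) :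
    rs A q (X a) = if h : a ∈ A then X ⟨a, h⟩ else C (q a) := by
  rw [rs, aeval_X]

theorem slice_eq (f : MvPolynomial ι ℂ) (A : Finset ι) (q : ι → ℂ) : slice f A q = rs A q f := rfl

theorem eval_rs (A : Finset ι) (q : ι → ℂ) (g : MvPolynomial ι ℂ) :
    eval (fun a : A => q a) (rs A q g) = eval q g := by
  have h : (aeval (fun a : A => q a) : MvPolynomial A ℂ →ₐ[ℂ] ℂ).comp (rs A q) = aeval q := by
    refine MvPolynomial.algHom_ext fun a => ?_
    rw [AlgHom.comp_apply, rs_X, aeval_X]
    split_ifs with h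
    · rw [aeval_X]
    · rw [MvPolynomial.algHom_C]
      rfl
  have h1 := DFunLike.congr_fun h g
  rw [AlgHom.comp_apply] at h1
  rw [← MvPolynomial.aeval_eq_eval, ← MvPolynomial.aeval_eq_eval]
  exact h1

theorem pd_rs (A : Finset ι) (q : ι → ℂ) (b : A) (g : MvPolynomial ι ℂ) :
    pderiv b (rs A q g) = rs A q (pderiv (b : ι) g) := by
  induction g using MvPolynomial.induction_on with
  | C c => simp [MvPolynomial.algHom_C]
  | add p q hp hq => rw [map_add, map_add, map_add, map_add, hp, hq]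
  | mul_X p i hp =>
    rw [map_mul, Derivation.leibniz, Derivation.leibniz, hp, map_add]
    simp only [smul_eq_mul, map_mul]
    congr 2
    rw [rs_X]
    by_cases h : i ∈ A
    · rw [dif_pos h]
      by_cases hb : (b : ι) = i
      · subst hb
        rw [pderiv_X_self, pderiv_X_self, map_one]
      · rw [pderiv_X_of_ne (Ne.symm hb), map_zero, pderiv_X_of_ne]
        intro h1
        exact hb (congrArg Subtype.val h1).symm
    · rw [dif_neg h, pderiv_C, pderiv_X_of_ne, map_zero]
      intro h1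
      exact h (h1 ▸ b.2)

theorem weight_val (A : Finset ι) (w : ι → ℕ) (d : A →₀ ℕ) :
    Finsupp.weight w (Finsupp.mapDomain (fun a : A => (a : ι)) d) =
      Finsupp.weight (fun a : A => w a) d := by
  rw [Finsupp.weight_apply, Finsupp.weight_apply, Finsupp.sum_mapDomain_index]
  · intro b
    rw [zero_smul]
  · intro b m₁ m₂
    rw [add_smul]

theorem ini_rename (A : Finset ι) (w : ι → ℕ) (D : ℕ) (G : MvPolynomial A ℂ) :
    ini w D (rename (fun a : A => (a : ι)) G) =
      rename (fun a : A => (a : ι)) (ini (fun a : A => w a) D G) := by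
  ext e
  rw [WEAux.coeff_ini]
  by_cases he : ∃ d : A →₀ ℕ, Finsupp.mapDomain (fun a : A => (a : ι)) d = e
  · obtain ⟨d, rfl⟩ := he
    rw [coeff_rename_mapDomain _ Subtype.val_injective,
      coeff_rename_mapDomain _ Subtype.val_injective, WEAux.coeff_ini, weight_val]
  · rw [coeff_rename_eq_zero _ G e fun d hd => absurd ⟨d, hd⟩ he,
      coeff_rename_eq_zero _ (ini (fun a : A => w a) D G) e fun d hd => absurd ⟨d, hd⟩ he]
    split_ifs <;> rfl

theorem det_block (A : Finset ι) (M : Matrix ι ι ℂ)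
    (h : ∀ a, a ∉ A → ∀ b, M a b = if a = b then 1 else 0) (hM : M.det ≠ 0) :
    (Matrix.of fun a b : A => M a b).det ≠ 0 := by
  have h1 := Matrix.twoBlockTriangular_det M (fun a => a ∈ A) (by
    intro i hi j hj
    rw [h i hi, if_neg]
    rintro rfl
    exact hi hj)
  intro h2
  apply hM
  rw [h1]
  have h3 : M.toSquareBlockProp (fun a => a ∈ A) = Matrix.of fun a b : A => M a b := rfl
  refine mul_eq_zero_of_left ?_ _
  rw [h3]
  have h4 : ∀ (i1 i2 : Fintype {a // a ∈ A}) (d1 d2 : DecidableEq {a // a ∈ A})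
      (N : Matrix {a // a ∈ A} {a // a ∈ A} ℂ),
      @Matrix.det _ d1 i1 _ _ N = @Matrix.det _ d2 i2 _ _ N := by
    intro i1 i2 d1 d2 N
    have e1 : i1 = i2 := Subsingleton.elim _ _
    have e2 : d1 = d2 := Subsingleton.elim _ _
    subst e1 e2
    rfl
  exact (h4 _ _ _ _ _).trans h2

/-- the structure on the slice -/
theorem str (f : MvPolynomial ι ℂ) (q : ι → ℂ) (A : Finset ι) (w : ι → ℕ) (D : ℕ)
    (Y : ι → MvPolynomial ι ℂ) (s : MvPolynomial ι ℂ)
    (Φ : MvPolynomial ι (MvPolynomial ι ℂ)) (H : Str9 f {q} A w D Y s Φ) :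
    ∃ Φ', Str9 (slice f A q) {fun a : A => q a} Finset.univ (fun a => w a) D
      (fun a => rs A q (Y a)) (rs A q s) Φ' := by
  -- the polynomial without the other variables
  obtain ⟨Φ'', hΦ''⟩ : ∃ Φ'' : MvPolynomial A (MvPolynomial ι ℂ),
      rename (fun a : A => (a : ι)) Φ'' = Φ := by
    refine exists_rename_eq_of_vars_subset_range Φ _ Subtype.val_injective ?_
    intro a ha
    rw [Finset.mem_coe, mem_vars] at ha
    obtain ⟨d, hd, hda⟩ := ha
    rw [Finsupp.mem_support_iff] at hda
    by_contra h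
    refine hda ((H.hΦ d hd).1 a fun ha => h ⟨⟨a, ha⟩, rfl⟩)
  have hmap : ∀ r : MvPolynomial ι ℂ →+* ℂ, MvPolynomial.map r Φ =
      rename (fun a : A => (a : ι)) (MvPolynomial.map r Φ'') := by
    intro r
    rw [← hΦ'', map_rename]
  refine ⟨MvPolynomial.map (rs A q : MvPolynomial ι ℂ →+* MvPolynomial A ℂ) Φ'',
    fun a _ => H.hw a a.2, fun a ha => absurd (Finset.mem_univ a) ha, H.hD,
    fun a ha => absurd (Finset.mem_univ a) ha, ?_, ?_, ?_, ?_, ?_, ?_⟩
  · rintro q' rfl a _
    rw [eval_rs]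
    exact H.Y0 q rfl a a.2
  · rintro q' rfl
    have h1 := det_block A (Matrix.of fun a b => eval q (pderiv b (Y a))) (by
      intro a ha b
      rw [Matrix.of_apply, H.hY a ha]
      by_cases hab : a = b
      · subst hab
        rw [pderiv_X_self, map_one, if_pos rfl]
      · rw [pderiv_X_of_ne hab, map_zero, if_neg hab]) (H.J q rfl)
    have e : (Matrix.of fun a b : A => eval (fun a : A => q a) (pderiv b (rs A q (Y a)))) =
        Matrix.of fun a b : A => (Matrix.of fun a b => eval q (pderiv b (Y a))) (a : ι) (b : ι) := by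
      ext a b
      rw [Matrix.of_apply, Matrix.of_apply, Matrix.of_apply, pd_rs, eval_rs]
    rw [e]
    exact h1
  · rintro q' rfl
    rw [eval_rs]
    exact H.s0 q rfl
  · intro d hd
    refine ⟨fun a ha => absurd (Finset.mem_univ a) ha, ?_⟩
    have h1 : d ∈ Φ''.support := support_map_subset _ _ hd
    have h2 : Finsupp.mapDomain (fun a : A => (a : ι)) d ∈ Φ.support := by
      rw [mem_support_iff, ← hΦ'', coeff_rename_mapDomain _ Subtype.val_injective]
      exact mem_support_iff.1 h1
    have h3 := (H.hΦ _ h2).2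
    rwa [weight_val] at h3
  · rw [slice_eq, ← map_mul, H.eq, ← hΦ'', eval_rename]
    rw [eval_map]
    exact eval₂_comp_left (rs A q : MvPolynomial ι ℂ →+* MvPolynomial A ℂ) (RingHom.id _)
      (Y ∘ fun a : A => (a : ι)) Φ''
  · rintro q' rfl x - hx
    have hcomp : (eval fun a : A => q a).comp (rs A q : MvPolynomial ι ℂ →+* MvPolynomial A ℂ) =
        eval q := by
      refine RingHom.ext fun g => ?_
      exact eval_rs A q g
    rw [map_map, hcomp] at hx
    set xt : ι → ℂ := fun a => if h : a ∈ A then x ⟨a, h⟩ else 0 with hxt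
    have hxv : (xt ∘ fun a : A => (a : ι)) = x := by
      funext a
      simp [hxt]
    have h1 := H.iso q rfl xt (fun b hb => by simp [hxt, hb]) (by
      intro a ha
      rw [hmap, ini_rename]
      have h2 := pderiv_rename (f := fun a : A => (a : ι)) Subtype.val_injective ⟨a, ha⟩
        (ini (fun a : A => w a) D (MvPolynomial.map (eval q) Φ''))
      rw [h2, eval_rename, hxv]
      exact hx ⟨a, ha⟩ (Finset.mem_univ _))
    rw [← hxv, h1]
    rfl

end SLS9Aux

open SLS9Aux

theorem stmt_SLS9X (hFAM : Stmt_FAM9) : Stmt_SLS9X := by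
  intro ι _ _ f q hq A w D Y s Φ H
  obtain ⟨Φ', H'⟩ := str f q A w D Y s Φ H
  obtain ⟨φ, hφ⟩ := hFAM A (slice f A q) {fun a : A => q a} Finset.univ (fun a => w a) D _ _ Φ' H'
    (D + 1) (Nat.lt_succ_self D)
  obtain ⟨hco, hmon, hiso⟩ := hφ (fun a : A => q a) rfl
  set ψ : A → MvPolynomial A ℂ := fun a => sp (fun a : A => q a) (φ a) with hψ
  set F := bind₁ ψ (slice f A q) with hF
  have hw : ∀ a : A, 1 ≤ w a := fun a => H.hw a a.2
  have hf0 : eval (fun a : A => q a) (slice f A q) = 0 := by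
    rw [slice_eq, eval_rs]
    exact hq.1
  have hg0 : ∀ b, eval (fun _ => (0 : ℂ)) (pderiv b F) = 0 := by
    intro b
    rw [hF, WBAux.chain ψ (slice f A q) b, map_sum]
    refine Finset.sum_eq_zero fun a _ => ?_
    rw [map_mul, WBAux.eval_bind ψ _ _ hco.1, slice_eq, pd_rs, eval_rs, hq.2, zero_mul]
  refine ⟨fun a => w a, D, ψ, hco.1, hco.2, ?_, ?_⟩
  · rw [hf0, C_0, sub_zero]
    refine ⟨hw, H.hD, ?_, ?_⟩
    · intro d hd
      rcases hmon d hd with h | h
      · exact h
      · refine le_trans (le_trans (Nat.le_succ D) h) ?_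
        rw [Finsupp.degree, Finsupp.weight_apply, Finsupp.sum]
        refine Finset.sum_le_sum fun a _ => ?_
        rw [smul_eq_mul]
        exact Nat.le_mul_of_pos_right _ (hw a)
    · intro x
      constructor
      · intro hx
        exact hiso x (fun b hb => absurd (Finset.mem_univ b) hb) fun a _ => hx a
      · rintro rfl a
        have h1 := hg0 a
        change eval (fun _ => (0 : ℂ)) _ = 0
        rw [MvPolynomial.eval_zero', constantCoeff_eq, coeff_pderiv] at h1 ⊢
        rw [WEAux.coeff_ini]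
        split_ifs
        · exact h1
        · simp
  · rw [Finset.sum_coe_sort A w]

end Pool.Agent.Mono.C9
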