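import Pool.Agent.Work.Monodromy.Interface9
import Pool.Agent.Work.Monodromy4.W5
import Pool.Agent.Work.Monodromy5.TM5
import Pool.Agent.Work.Monodromy9.SLS9

/-!
# Block EGG9 (helper94): generic eigenvalues
-/

set_option autoImplicit false
set_option linter.unusedSectionVars false

namespace Pool.Agent.Mono.C9

open MvPolynomial TS RO SP PC

namespace EGG9Aux

variable {ι : Type} [Fintype ι] [DecidableEq ι]

theorem slice_X (A : Finset ι) (q : ι → ℂ) (a : ι) :
    slice (X a) A q = if h : a ∈ A then (X ⟨a, h⟩ : MvPolynomial A ℂ) else C (q a) := by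
  rw [slice, aeval_X]

theorem slice_C (A : Finset ι) (q : ι → ℂ) (c : ℂ) : slice (C c) A q = C c := by
  rw [slice, aeval_C]
  rfl

theorem slice_0 (A : Finset ι) (q : ι → ℂ) : slice (0 : MvPolynomial ι ℂ) A q = 0 := map_zero _

theorem slice_1 (A : Finset ι) (q : ι → ℂ) : slice (1 : MvPolynomial ι ℂ) A q = 1 := map_one _

theorem slice_add (A : Finset ι) (q : ι → ℂ) (f g : MvPolynomial ι ℂ) :
    slice (f + g) A q = slice f A q + slice g A q := map_add _ _ _

theorem slice_mul (A : Finset ι) (q : ι → ℂ) (f g : MvPolynomial ι ℂ) :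
    slice (f * g) A q = slice f A q * slice g A q := map_mul _ _ _

theorem pderiv_slice (A : Finset ι) (q : ι → ℂ) (a : A) (P : MvPolynomial ι ℂ) :
    pderiv a (slice P A q) = slice (pderiv (a : ι) P) A q := by
  induction P using MvPolynomial.induction_on with
  | C c => rw [pderiv_C, slice_C, pderiv_C, slice_0]
  | add p q hp hq => rw [slice_add, map_add, map_add, slice_add, hp, hq]
  | mul_X p i hp =>
    rw [slice_mul, Derivation.leibniz, Derivation.leibniz, smul_eq_mul, smul_eq_mul,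
      smul_eq_mul, smul_eq_mul, slice_add, slice_mul, slice_mul, hp]
    congr 2
    rw [slice_X, pderiv_X]
    by_cases h : i ∈ A
    · rw [dif_pos h, pderiv_X]
      by_cases h2 : i = (a : ι)
      · subst h2
        simp only [Subtype.coe_eta, Pi.single_eq_same]
        rw [slice_1]
      · have h3 : (⟨i, h⟩ : A) ≠ a := fun h4 => h2 (by rw [← h4])
        rw [Pi.single_eq_of_ne h3, Pi.single_eq_of_ne h2, slice_0]
    · rw [dif_neg h, pderiv_C]
      have h2 : i ≠ (a : ι) := fun h3 => h (h3 ▸ a.2)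
      rw [Pi.single_eq_of_ne h2, slice_0]

theorem eval_slice (A : Finset ι) (q : ι → ℂ) (P : MvPolynomial ι ℂ) :
    eval (fun a : A => q a) (slice P A q) = eval q P := by
  induction P using MvPolynomial.induction_on with
  | C c => rw [slice_C, eval_C, eval_C]
  | add p q hp hq => rw [slice_add, map_add, map_add, hp, hq]
  | mul_X p i hp =>
    rw [slice_mul, map_mul, map_mul, hp, slice_X, eval_X]
    congr 1
    by_cases h : i ∈ A
    · rw [dif_pos h, eval_X]
    · rw [dif_neg h, eval_C]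

theorem ev_of_wit (f : MvPolynomial ι ℂ) (r : ℚ) (hr : 0 < r) (h : Wit f (-(r : ℂ))) :
    r ∈ EV f := by
  refine ⟨hr, -(r : ℂ), ?_, rfl⟩
  intro b hb
  have hne : ∀ n : ℕ, (-(r : ℂ)) ≠ n := by
    intro n hn
    have h1 : (-r : ℚ) = (n : ℚ) := by exact_mod_cast hn
    have : (0 : ℚ) ≤ (n : ℚ) := Nat.cast_nonneg _
    linarith
  exact stmt_W5 ι f _ hne h b (isEvBernstein_of hb)

theorem core (hSLS : Stmt_SLS9X) (hPTS : Stmt_PTS9) (hWG : Stmt_WG9) (f : MvPolynomial ι ℂ)
    (q : ι → ℂ) (hq : q ∈ Crit0 f) (A : Finset ι) (w : ι → ℕ) (D : ℕ)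
    (Y : ι → MvPolynomial ι ℂ) (s : MvPolynomial ι ℂ) (Φ : MvPolynomial ι (MvPolynomial ι ℂ))
    (hS : Str9 f {q} A w D Y s Φ) (hF : Fld9 f A q)
    (hr : (0 : ℚ) < ((∑ a ∈ A, w a : ℕ) : ℚ) / (D : ℚ)) :
    ((∑ a ∈ A, w a : ℕ) : ℚ) / (D : ℚ) ∈ EV f := by
  refine ev_of_wit f _ hr ?_
  refine hWG ι f A q _ hq hF ?_
  refine hPTS A (slice f A q) (fun a => q a) _ ?_ ?_ (hSLS ι f q hq A w D Y s Φ hS)
  · rw [eval_slice]; exact hq.1
  · intro a
    rw [pderiv_slice, eval_slice]
    exact hq.2 a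

theorem val_TZ (Z : Finset ι) :
    ((Z.card : ℚ) / 2) = ((∑ a ∈ Z, (if a ∈ Z then 1 else 0) : ℕ) : ℚ) / ((2 : ℕ) : ℚ) := by
  have h2 : (∑ a ∈ Z, if a ∈ Z then 1 else 0) = Z.card := by
    rw [Finset.sum_ite_mem, Finset.inter_self]
    simp
  rw [h2]
  norm_num

theorem val_TH (Z : Finset ι) (b : ι) (hb : b ∉ Z) (e : ℕ) (he : 3 ≤ e) :
    ((Z.card : ℚ) / 2 + 1 / (e : ℚ)) =
      ((∑ a ∈ insert b Z, (if a ∈ Z then e else if a = b then 2 else 0) : ℕ) : ℚ) /
        ((2 * e : ℕ) : ℚ) := by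
  have h2 : (∑ a ∈ insert b Z, if a ∈ Z then e else if a = b then 2 else 0) =
      Z.card * e + 2 := by
    rw [Finset.sum_insert hb, if_neg hb, if_pos rfl]
    have : (∑ a ∈ Z, if a ∈ Z then e else if a = b then 2 else 0) = Z.card * e := by
      rw [Finset.sum_congr rfl (g := fun _ => e) (fun a ha => if_pos ha)]
      simp
    rw [this]
    ring
  have he' : (e : ℚ) ≠ 0 := by
    have : e ≠ 0 := by omega
    exact_mod_cast this
  rw [h2]
  push_cast
  field_simp

end EGG9Aux

open EGG9Aux in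
theorem stmt_EGG9 (hSTR : Stmt_STR9) (hSLS : Stmt_SLS9X) (hPTS : Stmt_PTS9) (hFLD : Stmt_FLD9)
    (hWG : Stmt_WG9) : Stmt_EGG9 := by
  intro ι _ _ f htd q Z s
  constructor
  · intro hT
    obtain ⟨Y, Φ, hS⟩ := (hSTR ι f {q} Z s).1 hT
    have hF := (hFLD ι f q Z s).1 hT
    have hZ : Z.Nonempty := by
      by_contra hne
      rw [Finset.not_nonempty_iff_eq_empty] at hne
      subst hne
      have h1 := hT.eq
      have h2 : Zi f (∅ : Finset ι) = ⊥ := by
        unfold Zi
        simp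
      rw [h2, pow_two, Ideal.bot_mul, Ideal.mem_bot] at h1
      rcases mul_eq_zero.1 h1 with h3 | h3
      · have := hT.s0 q rfl
        rw [h3, map_zero] at this
        exact this rfl
      · apply htd
        rw [h3, totalDegree_zero]
    have h3 := val_TZ Z
    rw [h3]
    refine core hSLS hPTS hWG f q (hT.crit q rfl) Z _ 2 Y s Φ hS hF ?_
    rw [← h3]
    have : (0 : ℚ) < Z.card := by exact_mod_cast Finset.card_pos.2 hZ
    positivity
  · intro b h w e hT
    obtain ⟨Y, Φ, hS⟩ := (hSTR ι f {q} Z s).2 b h w e hT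
    have hF := (hFLD ι f q Z s).2 b h w e hT
    have he := hT.he
    have h3 := val_TH Z b hT.hb e he
    rw [h3]
    refine core hSLS hPTS hWG f q (hT.crit q rfl) (insert b Z) _ (2 * e) Y s Φ hS hF ?_
    rw [← h3]
    have h4 : (0 : ℚ) < e := by
      have : 0 < e := by omega
      exact_mod_cast this
    positivity

end Pool.Agent.Mono.C9
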