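import Pool.Agent.Work.Monodromy.Interface9

/-!
# Monodromy, phase 9, block FAM9: families of coordinates (helper49)
-/

set_option autoImplicit false

namespace Pool.Agent.Mono.C9

open MvPolynomial TS RO SP PC

namespace FAM9Aux

variable {ι : Type}

/-- all monomials have weight at least `j` or degree at least `k` -/
def WW (w : ι → ℕ) (k j : ℕ) (G : MvPolynomial ι ℂ) : Prop :=
  ∀ d ∈ G.support, j ≤ Finsupp.weight w d ∨ k ≤ Finsupp.degree d

lemma ww_zero (w : ι → ℕ) (k : ℕ) (G : MvPolynomial ι ℂ) : WW w k 0 G :=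
  fun _ _ => Or.inl (Nat.zero_le _)

lemma ww_add {w : ι → ℕ} {k j : ℕ} {F G : MvPolynomial ι ℂ} (hF : WW w k j F) (hG : WW w k j G) :
    WW w k j (F + G) := by
  classical
  intro d hd
  rcases Finset.mem_union.1 (support_add hd) with h | h
  · exact hF d h
  · exact hG d h

lemma ww_mono {w : ι → ℕ} {k i j : ℕ} (hij : i ≤ j) {F : MvPolynomial ι ℂ} (hF : WW w k j F) :
    WW w k i F := fun d hd => (hF d hd).imp (fun h => hij.trans h) id

lemma ww_mul {w : ι → ℕ} {k i j : ℕ} {F G : MvPolynomial ι ℂ} (hF : WW w k i F)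
    (hG : WW w k j G) : WW w k (i + j) (F * G) := by
  classical
  intro d hd
  obtain ⟨u, hu, v, hv, rfl⟩ := Finset.mem_add.1 (support_mul F G hd)
  rw [map_add, map_add]
  rcases hF u hu with h | h
  · rcases hG v hv with h' | h'
    · exact Or.inl (Nat.add_le_add h h')
    · exact Or.inr (by omega)
  · exact Or.inr (by omega)

lemma ww_pow {w : ι → ℕ} {k j : ℕ} {F : MvPolynomial ι ℂ} (hF : WW w k j F) (n : ℕ) :
    WW w k (n * j) (F ^ n) := by
  induction n with
  | zero => simpa using ww_zero w k _
  | succ n ih =>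
    rw [pow_succ, Nat.succ_mul]
    exact ww_mul ih hF

lemma ww_prod {w : ι → ℕ} {k : ℕ} {κ : Type} (T : Finset κ) (F : κ → MvPolynomial ι ℂ)
    (j : κ → ℕ) (h : ∀ a ∈ T, WW w k (j a) (F a)) : WW w k (∑ a ∈ T, j a) (∏ a ∈ T, F a) := by
  classical
  induction T using Finset.induction_on with
  | empty => simpa using ww_zero w k _
  | insert a T ha ih =>
    rw [Finset.sum_insert ha, Finset.prod_insert ha]
    exact ww_mul (h a (Finset.mem_insert_self _ _))
      (ih fun b hb => h b (Finset.mem_insert_of_mem hb))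

lemma ww_sum {w : ι → ℕ} {k j : ℕ} {κ : Type} (T : Finset κ) (F : κ → MvPolynomial ι ℂ)
    (h : ∀ a ∈ T, WW w k j (F a)) : WW w k j (∑ a ∈ T, F a) := by
  classical
  induction T using Finset.induction_on with
  | empty =>
    intro d hd
    simp at hd
  | insert a T ha ih =>
    rw [Finset.sum_insert ha]
    exact ww_add (h a (Finset.mem_insert_self _ _))
      (ih fun b hb => h b (Finset.mem_insert_of_mem hb))

lemma deg_pow (k : ℕ) : ∀ {G : MvPolynomial ι ℂ}, G ∈ mI (fun _ : ι => (0 : ℂ)) ^ k →
    ∀ d ∈ G.support, k ≤ Finsupp.degree d := by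
  classical
  induction k with
  | zero => intro G _ d _; exact Nat.zero_le _
  | succ k ih =>
    intro G hG
    rw [pow_succ] at hG
    refine Submodule.mul_induction_on hG ?_ ?_
    · intro u hu v hv d hd
      obtain ⟨x, hx, y, hy, rfl⟩ := Finset.mem_add.1 (support_mul u v hd)
      have h1 := ih hu x hx
      have h2 : 1 ≤ Finsupp.degree y := by
        rw [mI, RingHom.mem_ker] at hv
        by_contra h
        have h0 : Finsupp.degree y = 0 := by omega
        rw [Finsupp.degree_eq_zero_iff] at h0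
        rw [h0, mem_support_iff, ← constantCoeff_eq, ← eval_zero'] at hy
        exact hy hv
      rw [map_add]
      omega
    · intro x y hx hy d hd
      rcases Finset.mem_union.1 (support_add hd) with h | h
      · exact hx d h
      · exact hy d h

lemma ww_cancel (w : ι → ℕ) (k D : ℕ) (s F : MvPolynomial ι ℂ) (hs : coeff 0 s ≠ 0)
    (h : WW w k D (s * F)) : WW w k D F := by
  classical
  by_contra hne
  have hne' : ∃ d, d ∈ F.support ∧ ¬ (D ≤ Finsupp.weight w d ∨ k ≤ Finsupp.degree d) := by
    by_contra h'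
    push Not at h'
    apply hne
    intro d hd
    by_contra h''
    push Not at h''
    have := h' d hd
    omega
  obtain ⟨d, ⟨hd, hd'⟩, hmin⟩ : ∃ d, (d ∈ F.support ∧
      ¬ (D ≤ Finsupp.weight w d ∨ k ≤ Finsupp.degree d)) ∧ ∀ v, (v ∈ F.support ∧
        ¬ (D ≤ Finsupp.weight w v ∨ k ≤ Finsupp.degree v)) →
          Finsupp.degree d ≤ Finsupp.degree v := by
    obtain ⟨d, hd⟩ := hne'
    have hex : ∃ n, ∃ d, (d ∈ F.support ∧
      ¬ (D ≤ Finsupp.weight w d ∨ k ≤ Finsupp.degree d)) ∧ Finsupp.degree d = n := ⟨_, d, hd, rfl⟩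
    obtain ⟨d0, hd0, hn⟩ := Nat.find_spec hex
    refine ⟨d0, hd0, fun v hv => ?_⟩
    rw [hn]
    exact Nat.find_min' hex ⟨v, hv, rfl⟩
  apply hd'
  apply h
  rw [mem_support_iff, coeff_mul, Finset.sum_eq_single (0, d)]
  · exact mul_ne_zero hs (mem_support_iff.1 hd)
  · rintro ⟨u, v⟩ huv hne0
    rw [Finset.HasAntidiagonal.mem_antidiagonal] at huv
    simp only at huv ⊢
    by_cases hv : coeff v F = 0
    · rw [hv, mul_zero]
    · exfalso
      have hu : u ≠ 0 := by
        rintro rfl
        rw [zero_add] at huv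
        exact hne0 (by rw [huv])
      have h1 : Finsupp.degree d = Finsupp.degree u + Finsupp.degree v := by
        rw [← huv, map_add]
      have h2 : Finsupp.weight w d = Finsupp.weight w u + Finsupp.weight w v := by
        rw [← huv, map_add]
      have h3 : Finsupp.degree u ≠ 0 := by
        rw [Ne, Finsupp.degree_eq_zero_iff]
        exact hu
      have h4 := hmin v ⟨mem_support_iff.2 hv, by
        intro h5
        apply hd'
        omega⟩
      omega
  · intro h0
    exact absurd (Finset.HasAntidiagonal.mem_antidiagonal.2 (zero_add d)) h0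

variable [DecidableEq ι]

/-- grading by the weight on `x_B = 0` -/
noncomputable def th (A : Finset ι) (w : ι → ℕ) :
    MvPolynomial ι ℂ →ₐ[ℂ] Polynomial (MvPolynomial ι ℂ) :=
  aeval fun a => if a ∈ A then Polynomial.C (X a) * Polynomial.X ^ w a else 0

lemma th_X (A : Finset ι) (w : ι → ℕ) (a : ι) (ha : a ∈ A) :
    th A w (X a) = Polynomial.C (X a) * Polynomial.X ^ w a := by
  rw [th, aeval_X, if_pos ha]

lemma th_C (A : Finset ι) (w : ι → ℕ) (c : ℂ) : th A w (C c) = Polynomial.C (C c) := by
  rw [th, MvPolynomial.algHom_C]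
  rfl

lemma th_coeff_zero (A : Finset ι) (w : ι → ℕ) (hw : ∀ a ∈ A, 1 ≤ w a) (G : MvPolynomial ι ℂ) :
    (th A w G).coeff 0 = C (eval (fun _ => 0) G) := by
  induction G using MvPolynomial.induction_on with
  | C c => rw [th_C]; simp
  | add p q hp hq => rw [map_add, Polynomial.coeff_add, hp, hq, map_add, map_add]
  | mul_X p a hp =>
    rw [map_mul, Polynomial.mul_coeff_zero, map_mul, eval_X, mul_zero, map_zero]
    by_cases ha : a ∈ A
    · rw [th_X _ _ _ ha]
      have : w a ≠ 0 := by have := hw a ha; omega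
      rw [Polynomial.coeff_C_mul, Polynomial.coeff_X_pow, if_neg (Ne.symm this), mul_zero, mul_zero]
    · rw [th, aeval_X, if_neg ha]
      simp

/-- congruence modulo `t^(D+1)` -/
lemma th_mem (A : Finset ι) (w : ι → ℕ) (hw : ∀ a ∈ A, 1 ≤ w a) (k : ℕ) {G : MvPolynomial ι ℂ}
    (hG : G ∈ mI (fun _ : ι => (0 : ℂ)) ^ k) :
    th A w G ∈ (Ideal.span {Polynomial.X ^ k} : Ideal (Polynomial (MvPolynomial ι ℂ))) := by
  have h : (mI (fun _ : ι => (0 : ℂ))).map (th A w).toRingHom ≤ Ideal.span {Polynomial.X} := by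
    rw [Ideal.map_le_iff_le_comap]
    intro g hg
    rw [mI, RingHom.mem_ker] at hg
    rw [Ideal.mem_comap, Ideal.mem_span_singleton, Polynomial.X_dvd_iff]
    have := th_coeff_zero A w hw g
    rw [hg, map_zero] at this
    exact this
  have h2 : (mI (fun _ : ι => (0 : ℂ)) ^ k).map (th A w).toRingHom ≤
      Ideal.span {Polynomial.X ^ k} := by
    rw [Ideal.map_pow, ← Ideal.span_singleton_pow]
    exact Ideal.pow_right_mono h k
  exact h2 (Ideal.mem_map_of_mem _ hG)

lemma th_monomial [Fintype ι] (A : Finset ι) (w : ι → ℕ) (d : ι →₀ ℕ) (c : ℂ)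
    (hd : ∀ b, b ∉ A → d b = 0) : th A w (monomial d c) =
      Polynomial.C (monomial d c) * Polynomial.X ^ Finsupp.weight w d := by
  rw [monomial_eq, map_mul, th_C, Finsupp.prod_fintype _ _ (by simp), map_prod, map_mul, map_prod,
    Finsupp.weight_apply, Finsupp.sum_fintype _ _ (by simp), mul_assoc, ← Finset.prod_pow_eq_pow_sum,
    ← Finset.prod_mul_distrib]
  congr 1
  refine Finset.prod_congr rfl fun a _ => ?_
  by_cases ha : a ∈ A
  · rw [map_pow, th_X _ _ _ ha, mul_pow, map_pow, ← pow_mul, smul_eq_mul, mul_comm (w a)]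
  · rw [hd a ha]
    simp

lemma th_monomial' [Fintype ι] (A : Finset ι) (w : ι → ℕ) (d : ι →₀ ℕ) (c : ℂ) (b : ι)
    (hb : b ∉ A) (hd : d b ≠ 0) : th A w (monomial d c) = 0 := by
  rw [monomial_eq, map_mul, Finsupp.prod_fintype _ _ (by simp), map_prod]
  have : ∏ a, th A w (X a ^ d a) = 0 := by
    apply Finset.prod_eq_zero (Finset.mem_univ b)
    rw [map_pow, th, aeval_X, if_neg hb, zero_pow hd]
  rw [this, mul_zero]

/-- the coefficients of `th G` are the weighted components on `x_B = 0` -/
lemma th_ini [Fintype ι] (A : Finset ι) (w : ι → ℕ) (D : ℕ) (x : ι → ℂ)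
    (hx : ∀ b, b ∉ A → x b = 0) (a : ι) (ha : a ∈ A) (G : MvPolynomial ι ℂ) :
    eval x (pderiv a (ini w D G)) = eval x (pderiv a ((th A w G).coeff D)) := by
  induction G using MvPolynomial.induction_on' with
  | add p q hp hq =>
    rw [ini, map_add, ← ini, ← ini, map_add, map_add, hp, hq, map_add, Polynomial.coeff_add,
      map_add, map_add]
  | monomial d c =>
    have h1 : ini w D (monomial d c) = if Finsupp.weight w d = D then monomial d c else 0 := by
      rw [ini]
      split_ifs with h
      · exact (isWeightedHomogeneous_monomial w d c h).weightedHomogeneousComponent_same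
      · exact (isWeightedHomogeneous_monomial w d c rfl).weightedHomogeneousComponent_ne _ (Ne.symm h)
    rw [h1]
    by_cases hd : ∀ b, b ∉ A → d b = 0
    · rw [th_monomial A w d c hd, Polynomial.coeff_C_mul, Polynomial.coeff_X_pow]
      by_cases h : Finsupp.weight w d = D
      · rw [if_pos h, if_pos h.symm, mul_one]
      · rw [if_neg h, if_neg (Ne.symm h), mul_zero]
    · push Not at hd
      obtain ⟨b, hb, hdb⟩ := hd
      rw [th_monomial' A w d c b hb hdb, Polynomial.coeff_zero, map_zero, map_zero]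
      split_ifs
      · rw [pderiv_monomial, eval_monomial, Finsupp.prod_fintype _ _ (by simp)]
        have hba : b ≠ a := fun h => hb (h ▸ ha)
        have : ∏ i, x i ^ (d - Finsupp.single a 1 : ι →₀ ℕ) i = 0 := by
          apply Finset.prod_eq_zero (Finset.mem_univ b)
          rw [hx b hb]
          apply zero_pow
          rw [Finsupp.tsub_apply, Finsupp.single_eq_of_ne (by first | exact hba | exact hba.symm)]
          simpa using hdb
        rw [this, mul_zero]
      · rw [map_zero, map_zero]

omit [DecidableEq ι] in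
lemma pow_congr_mod {R : Type} [CommRing R] (T : Ideal R) (a b : R) (h : a - b ∈ T) (n : ℕ) :
    a ^ n - b ^ n ∈ T := by
  obtain ⟨c, hc⟩ := sub_dvd_pow_sub_pow a b n
  rw [hc]
  exact Ideal.mul_mem_right _ _ h

omit [DecidableEq ι] in
lemma pow_form {R : Type} [CommRing R] (T : Ideal (Polynomial R)) (P : Polynomial R) (Z : R)
    (w n : ℕ) (h : P - Polynomial.C Z * Polynomial.X ^ w ∈ T) :
    P ^ n - Polynomial.C (Z ^ n) * Polynomial.X ^ (n • w) ∈ T := by
  have h5 := pow_congr_mod T _ _ h n
  have e : (Polynomial.C Z * Polynomial.X ^ w : Polynomial R) ^ n =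
      Polynomial.C (Z ^ n) * Polynomial.X ^ (n • w) := by
    rw [mul_pow, ← pow_mul, ← Polynomial.C_pow, smul_eq_mul, mul_comm w n]
  rwa [e] at h5

omit [DecidableEq ι] in
lemma prod_congr_mod {R κ : Type} [CommRing R] (T : Ideal R) (K : Finset κ) (a b : κ → R)
    (h : ∀ i ∈ K, a i - b i ∈ T) : ∏ i ∈ K, a i - ∏ i ∈ K, b i ∈ T := by
  classical
  induction K using Finset.induction_on with
  | empty => simp
  | insert j K hj ih =>
    rw [Finset.prod_insert hj, Finset.prod_insert hj]
    have e : a j * ∏ i ∈ K, a i - b j * ∏ i ∈ K, b i =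
        (a j - b j) * ∏ i ∈ K, a i + b j * (∏ i ∈ K, a i - ∏ i ∈ K, b i) := by ring
    rw [e]
    exact Ideal.add_mem _ (Ideal.mul_mem_right _ _ (h j (Finset.mem_insert_self _ _)))
      (Ideal.mul_mem_left _ _ (ih fun i hi => h i (Finset.mem_insert_of_mem hi)))

/-- `bind₁ (μ X)` -/
noncomputable def sc (μ : ℂ) : MvPolynomial ι ℂ →ₐ[ℂ] MvPolynomial ι ℂ := aeval fun a => C μ * X a

omit [DecidableEq ι] in
lemma sc_pderiv (μ : ℂ) (a : ι) (G : MvPolynomial ι ℂ) :
    pderiv a (sc μ G) = C μ * sc μ (pderiv a G) := by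
  classical
  induction G using MvPolynomial.induction_on with
  | C c => simp [sc, MvPolynomial.algHom_C]
  | add p q hp hq => rw [map_add, map_add, hp, hq, map_add, map_add]; ring
  | mul_X p b hp =>
    rw [map_mul, Derivation.leibniz, Derivation.leibniz, hp, map_add, smul_eq_mul, smul_eq_mul,
      smul_eq_mul, smul_eq_mul, map_mul, map_mul]
    have h1 : sc μ (X b : MvPolynomial ι ℂ) = C μ * X b := by rw [sc, aeval_X]
    have h2 : pderiv a (sc μ (X b : MvPolynomial ι ℂ)) = C μ * sc μ (pderiv a (X b)) := by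
      rw [h1, ← smul_eq_C_mul, Derivation.map_smul, pderiv_X, Pi.single_apply]
      split_ifs
      · rw [map_one, smul_eq_C_mul]
      · rw [map_zero, smul_zero, mul_zero]
    rw [h2]
    ring

omit [DecidableEq ι] in
lemma sc_eval (μ : ℂ) (x : ι → ℂ) (G : MvPolynomial ι ℂ) :
    eval x (sc μ G) = eval (fun a => μ * x a) G := by
  induction G using MvPolynomial.induction_on with
  | C c => simp [sc, MvPolynomial.algHom_C]
  | add p q hp hq => rw [map_add, map_add, hp, hq, map_add]
  | mul_X p b hp =>
    rw [map_mul, map_mul, hp, map_mul, eval_X]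
    congr 1
    rw [sc, aeval_X, map_mul, eval_C, eval_X]

omit [DecidableEq ι] in
lemma fin_mod [Fintype ι] (w : ι → ℕ) (D : ℕ) (μ : ℂ) (d : ι →₀ ℕ) (c : ℂ)
    (hD : D ≤ Finsupp.weight w d) (P Q : Polynomial (MvPolynomial ι ℂ))
    (hP : P - Polynomial.C (C c) ∈
      (Ideal.span {Polynomial.X} : Ideal (Polynomial (MvPolynomial ι ℂ))))
    (hQ : Q - Polynomial.C (∏ i, (C μ * X i) ^ d i) * Polynomial.X ^ Finsupp.weight w d ∈
      (Ideal.span {Polynomial.X ^ (D + 1)} : Ideal (Polynomial (MvPolynomial ι ℂ)))) :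
    P * Q - Polynomial.C (sc μ (weightedHomogeneousComponent w D (monomial d c))) *
      Polynomial.X ^ D ∈
        (Ideal.span {Polynomial.X ^ (D + 1)} : Ideal (Polynomial (MvPolynomial ι ℂ))) := by
  rw [Ideal.mem_span_singleton] at hP hQ ⊢
  obtain ⟨u, hu⟩ := hP
  obtain ⟨v, hv⟩ := hQ
  have hP' : P = Polynomial.C (C c) + Polynomial.X * u := by rw [← hu]; ring
  have hQ' : Q = Polynomial.C (∏ i, (C μ * X i) ^ d i) * Polynomial.X ^ Finsupp.weight w d +
    Polynomial.X ^ (D + 1) * v := by rw [← hv]; ring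
  by_cases hwt : Finsupp.weight w d = D
  · rw [(isWeightedHomogeneous_monomial w d _ hwt).weightedHomogeneousComponent_same]
    have e1 : sc μ (monomial d c) = C c * ∏ i, (C μ * X i) ^ d i := by
      rw [monomial_eq, map_mul, sc, MvPolynomial.algHom_C, Finsupp.prod_fintype _ _ (by simp),
        map_prod]
      congr 1
      refine Finset.prod_congr rfl fun i _ => ?_
      rw [map_pow, aeval_X]
    rw [e1, map_mul]
    rw [hwt] at hQ'
    generalize Polynomial.C (∏ i, (C μ * X i) ^ d i : MvPolynomial ι ℂ) = W at *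
    refine ⟨P * v + u * W, ?_⟩
    rw [hQ']
    have : P * (W * Polynomial.X ^ D + Polynomial.X ^ (D + 1) * v) =
      P * W * Polynomial.X ^ D + Polynomial.X ^ (D + 1) * (P * v) := by ring
    rw [this, hP']
    ring
  · rw [(isWeightedHomogeneous_monomial w d _ rfl).weightedHomogeneousComponent_ne _
      (Ne.symm hwt), map_zero, map_zero, zero_mul, sub_zero]
    apply Dvd.dvd.mul_left
    rw [hQ']
    refine dvd_add (Dvd.dvd.mul_left (pow_dvd_pow _ (by omega)) _) (Dvd.intro _ rfl)

end FAM9Aux

open FAM9Aux in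
theorem stmt_FAM9 (hI : Stmt_INV9) : Stmt_FAM9 := by
  intro ι _ _ f S A w D Y s Φ H k hk
  obtain ⟨φ, μ, hφ⟩ := hI ι S Y H.J k
  refine ⟨φ, fun q hq => ?_⟩
  obtain ⟨hμ, hco, hY⟩ := hφ q hq
  refine ⟨hco, ?_⟩
  set ψ : ι → MvPolynomial ι ℂ := fun c => sp q (φ c) with hψ
  set F := bind₁ ψ f with hF
  -- values at the origin
  have h0 : ∀ g : MvPolynomial ι ℂ, eval (fun _ => 0) (bind₁ ψ g) = eval q g := by
    intro g
    have e : (eval fun _ : ι => (0 : ℂ)).comp (bind₁ ψ : MvPolynomial ι ℂ →+* MvPolynomial ι ℂ) =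
        eval q := by
      apply MvPolynomial.ringHom_ext
      · intro c; simp
      · intro a
        simp only [RingHom.comp_apply, RingHom.coe_coe, bind₁_X_right, eval_X]
        exact hco.1 a
    exact congrArg (fun h => h g) (congrArg DFunLike.coe e)
  -- the coordinates
  have hYa : ∀ a ∈ A, ∃ r ∈ mI (fun _ : ι => (0 : ℂ)) ^ k,
      bind₁ ψ (Y a) = C (eval q μ) * X a + r := by
    intro a ha
    refine ⟨_, hY a, ?_⟩
    rw [H.Y0 q hq a ha, map_zero]
    ring
  -- the equation
  have heq : bind₁ ψ s * F = ∑ d ∈ Φ.support, bind₁ ψ (coeff d Φ) * ∏ i, bind₁ ψ (Y i) ^ d i := by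
    rw [hF, ← map_mul, H.eq, eval_eq', map_sum]
    refine Finset.sum_congr rfl fun d _ => ?_
    rw [map_mul, map_prod]
    congr 1
    exact Finset.prod_congr rfl fun i _ => by rw [map_pow]
  have hs0 : coeff 0 (bind₁ ψ s) ≠ 0 := by
    rw [← constantCoeff_eq, ← eval_zero']
    have := h0 s
    rw [this]
    exact H.s0 q hq
  have hWW : WW w k D F := by
    apply ww_cancel w k D (bind₁ ψ s) F hs0
    rw [heq]
    refine ww_sum _ _ fun d hd => ?_
    have h1 : WW w k (∑ i, d i * w i) (∏ i, bind₁ ψ (Y i) ^ d i) := by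
      refine ww_prod _ _ _ fun i _ => ?_
      apply ww_pow
      by_cases hi : i ∈ A
      · obtain ⟨r, hr, e⟩ := hYa i hi
        rw [e]
        refine ww_add ?_ (fun d hd => Or.inr (deg_pow k hr d hd))
        intro d hd
        left
        rw [← smul_eq_C_mul] at hd
        have := support_smul hd
        rw [support_X, Finset.mem_singleton] at this
        rw [this, Finsupp.weight_single]
        simp
      · rw [H.hw0 i hi]
        exact ww_zero _ _ _
    have h2 : D ≤ ∑ i, d i * w i := by
      have := (H.hΦ d hd).2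
      rw [Finsupp.weight_apply, Finsupp.sum_fintype _ _ (by simp)] at this
      simpa using this
    have h3 := ww_mul (ww_zero w k (bind₁ ψ (coeff d Φ))) (ww_mono h2 h1)
    simpa using h3
  refine ⟨hWW, ?_⟩
  -- the grading
  have hlow : ∀ j < D, (th A w F).coeff j = 0 := by
    intro j hj
    have e : th A w F = ∑ d ∈ F.support, th A w (monomial d (coeff d F)) := by
      rw [← map_sum, support_sum_monomial_coeff]
    rw [e, Polynomial.finsetSum_coeff]
    refine Finset.sum_eq_zero fun d hd => ?_
    by_cases hdA : ∀ b, b ∉ A → d b = 0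
    · rw [th_monomial A w d _ hdA, Polynomial.coeff_C_mul, Polynomial.coeff_X_pow]
      have hdeg : Finsupp.degree d ≤ Finsupp.weight w d := by
        rw [Finsupp.degree_eq_sum, Finsupp.weight_apply, Finsupp.sum_fintype _ _ (by simp)]
        refine Finset.sum_le_sum fun i _ => ?_
        by_cases hi : i ∈ A
        · have := H.hw i hi
          rw [smul_eq_mul]
          exact Nat.le_mul_of_pos_right _ this
        · rw [hdA i hi]
          exact Nat.zero_le _
      have : j ≠ Finsupp.weight w d := by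
        rcases hWW d hd with h | h <;> omega
      rw [if_neg this, mul_zero]
    · push Not at hdA
      obtain ⟨b, hb, hdb⟩ := hdA
      rw [th_monomial' A w d _ b hb hdb, Polynomial.coeff_zero]
  have hmain : C (eval q s) * (th A w F).coeff D =
      sc (eval q μ) (ini w D (map (eval q) Φ)) := by
    have hL : (th A w (bind₁ ψ s * F)).coeff D = C (eval q s) * (th A w F).coeff D := by
      rw [map_mul, Polynomial.coeff_mul, Finset.sum_eq_single (0, D)]
      · rw [th_coeff_zero A w H.hw, h0]
      · rintro ⟨i, j⟩ hij hne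
        rw [Finset.HasAntidiagonal.mem_antidiagonal] at hij
        simp only at hij ⊢
        rw [hlow j (by
          by_contra hj
          apply hne
          have h1 : j = D := by omega
          have h2 : i = 0 := by omega
          rw [h1, h2]), mul_zero]
      · intro h
        exact absurd (Finset.HasAntidiagonal.mem_antidiagonal.2 (zero_add D)) h
    have hR : map (eval q) Φ = ∑ d ∈ Φ.support, monomial d (eval q (coeff d Φ)) := by
      conv_lhs => rw [← support_sum_monomial_coeff Φ]
      rw [map_sum]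
      exact Finset.sum_congr rfl fun d _ => by rw [map_monomial]
    rw [← hL, heq, map_sum, Polynomial.finsetSum_coeff, hR, ini, map_sum, map_sum]
    refine Finset.sum_congr rfl fun d hd => ?_
    obtain ⟨hdA, hdD⟩ := H.hΦ d hd
    -- modulo `t^(D+1)`
    set T : Ideal (Polynomial (MvPolynomial ι ℂ)) := Ideal.span {Polynomial.X ^ (D + 1)} with hT
    have hprod : th A w (∏ i, bind₁ ψ (Y i) ^ d i) -
        Polynomial.C (∏ i, (C (eval q μ) * X i) ^ d i) * Polynomial.X ^ Finsupp.weight w d ∈ T := by
      have hwt : Finsupp.weight w d = ∑ i, d i • w i := by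
        rw [Finsupp.weight_apply, Finsupp.sum_fintype _ _ (by simp)]
      rw [hwt, map_prod, map_prod, ← Finset.prod_pow_eq_pow_sum, ← Finset.prod_mul_distrib]
      refine prod_congr_mod T _ _ _ fun i _ => ?_
      rw [map_pow]
      by_cases hi : i ∈ A
      · obtain ⟨r, hr, e⟩ := hYa i hi
        have h1 : th A w (bind₁ ψ (Y i)) -
            Polynomial.C (C (eval q μ) * X i) * Polynomial.X ^ w i ∈ T := by
          rw [e, map_add, map_mul, th_C, th_X _ _ _ hi, map_mul]
          have h2 := th_mem A w H.hw k hr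
          have h3 : (Ideal.span {Polynomial.X ^ k} : Ideal (Polynomial (MvPolynomial ι ℂ))) ≤ T := by
            rw [hT, Ideal.span_singleton_le_span_singleton]
            exact pow_dvd_pow _ hk
          have h4 : Polynomial.C (C (eval q μ)) * (Polynomial.C (X i) * Polynomial.X ^ w i) +
              th A w r - Polynomial.C (C (eval q μ)) * Polynomial.C (X i) *
                Polynomial.X ^ w i = th A w r := by ring
          rw [h4]
          exact h3 h2
        exact pow_form T _ _ (w i) (d i) h1
      · rw [hdA i hi]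
        simp
    have hco0 : th A w (bind₁ ψ (coeff d Φ)) - Polynomial.C (C (eval q (coeff d Φ))) ∈
        (Ideal.span {Polynomial.X} : Ideal (Polynomial (MvPolynomial ι ℂ))) := by
      rw [Ideal.mem_span_singleton, Polynomial.X_dvd_iff, Polynomial.coeff_sub,
        th_coeff_zero A w H.hw, h0, Polynomial.coeff_C_zero, sub_self]
    have hfin : th A w (bind₁ ψ (coeff d Φ) * ∏ i, bind₁ ψ (Y i) ^ d i) -
        Polynomial.C (sc (eval q μ) (weightedHomogeneousComponent w D
          (monomial d (eval q (coeff d Φ))))) * Polynomial.X ^ D ∈ T := by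
      rw [map_mul]
      exact fin_mod w D (eval q μ) d _ hdD _ _ hco0 hprod
    have hz := Ideal.mem_span_singleton.1 hfin
    rw [Polynomial.X_pow_dvd_iff] at hz
    have hzD := hz D (Nat.lt_succ_self D)
    rw [Polynomial.coeff_sub, Polynomial.coeff_C_mul, Polynomial.coeff_X_pow, if_pos rfl, mul_one,
      sub_eq_zero] at hzD
    exact hzD
  intro x hx hx2
  have h1 : (fun a => eval q μ * x a) = 0 := by
    apply H.iso q hq
    · intro b hb
      rw [hx b hb, mul_zero]
    · intro a ha
      have h2 := hx2 a ha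
      rw [th_ini A w D x hx a ha] at h2
      have h3 := congrArg (fun G => eval x (pderiv a G)) hmain
      rw [← smul_eq_C_mul, Derivation.map_smul, smul_eval, h2, mul_zero, sc_pderiv, map_mul,
        eval_C, sc_eval] at h3
      exact (mul_eq_zero.1 h3.symm).resolve_left hμ
  ext a
  exact (mul_eq_zero.1 (congrFun h1 a)).resolve_left hμ

end Pool.Agent.Mono.C9
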