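import Pool.Agent.Work.Monodromy.Interface9

/-!
# Block FLD9 (helper94): the fields
-/

set_option autoImplicit false
set_option linter.unusedSectionVars false

namespace Pool.Agent.Mono.C9

open MvPolynomial TS RO SP PC

namespace FLD9Aux

variable {ι : Type} [Fintype ι] [DecidableEq ι]

/-- a derivation maps `I J` into `I + J` -/
theorem der_mul {R : Type} [CommRing R] [Algebra ℂ R] (D : Derivation ℂ R R) (I J : Ideal R)
    {x : R} (hx : x ∈ I * J) : D x ∈ I ⊔ J := by
  refine Submodule.mul_induction_on hx ?_ ?_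
  · intro a ha b hb
    rw [Derivation.leibniz]
    refine Ideal.add_mem _ ?_ ?_
    · exact Ideal.mem_sup_left (by rw [smul_eq_mul]; exact I.mul_mem_right _ ha)
    · exact Ideal.mem_sup_right (by rw [smul_eq_mul]; exact J.mul_mem_right _ hb)
  · intro a b ha hb
    rw [map_add]
    exact Ideal.add_mem _ ha hb

/-- a derivation which maps `I` into itself maps `I J` into `I` -/
theorem der_mul' {R : Type} [CommRing R] [Algebra ℂ R] (D : Derivation ℂ R R) (I J : Ideal R)
    (hD : ∀ g ∈ I, D g ∈ I) {x : R} (hx : x ∈ I * J) : D x ∈ I := by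
  refine Submodule.mul_induction_on hx ?_ ?_
  · intro a ha b hb
    rw [Derivation.leibniz]
    refine Ideal.add_mem _ ?_ ?_
    · rw [smul_eq_mul]; exact I.mul_mem_right _ ha
    · rw [smul_eq_mul]; exact I.mul_mem_left _ (hD a ha)
  · intro a b ha hb
    rw [map_add]
    exact Ideal.add_mem _ ha hb

theorem to_sum (f : MvPolynomial ι ℂ) (A : Finset ι) {x : MvPolynomial ι ℂ} (hx : x ∈ Zi f A) :
    ∃ c : ι → MvPolynomial ι ℂ, x = ∑ a ∈ A, c a * pderiv a f := by
  unfold Zi Ideal.span at hx
  rw [Submodule.mem_span_image_finset_iff_exists_fun] at hx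
  obtain ⟨c, hc⟩ := hx
  refine ⟨fun a => if h : a ∈ A then c ⟨a, h⟩ else 0, ?_⟩
  rw [← hc, ← Finset.sum_coe_sort A]
  apply Finset.sum_congr rfl
  rintro ⟨a, ha⟩ _
  simp [ha]

theorem Zi_mono (f : MvPolynomial ι ℂ) {A B : Finset ι} (h : A ⊆ B) : Zi f A ≤ Zi f B := by
  unfold Zi
  apply Ideal.span_mono
  exact Set.image_mono (by exact_mod_cast h)

theorem mem_Zi (f : MvPolynomial ι ℂ) {A : Finset ι} {a : ι} (h : a ∈ A) :
    pderiv a f ∈ Zi f A := Ideal.subset_span ⟨a, h, rfl⟩

end FLD9Aux

open FLD9Aux in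
theorem stmt_FLD9 (hDER : Stmt_DER9) : Stmt_FLD9 := by
  intro ι _ _ f q Z s
  constructor
  · intro hT c hc
    have h1 : s * pderiv c f + pderiv c s * f ∈ Zi f Z := by
      have h2 := der_mul (pderiv c) (Zi f Z) (Zi f Z) (x := s * f) (by
        have := hT.eq; rwa [pow_two] at this)
      rw [sup_idem, Derivation.leibniz, smul_eq_mul, smul_eq_mul] at h2
      have e : s * pderiv c f + pderiv c s * f = s * pderiv c f + f * pderiv c s := by ring
      rw [e]; exact h2
    have h3 : s * f ∈ Zi f Z := Ideal.pow_le_self two_ne_zero hT.eq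
    have h4 : s * s * pderiv c f ∈ Zi f Z := by
      have e : s * s * pderiv c f = s * (s * pderiv c f + pderiv c s * f) -
          pderiv c s * (s * f) := by ring
      rw [e]
      exact Ideal.sub_mem _ (Ideal.mul_mem_left _ _ h1) (Ideal.mul_mem_left _ _ h3)
    obtain ⟨k, hk⟩ := to_sum f Z h4
    refine ⟨s * s, k, ?_, hk⟩
    rw [map_mul]
    exact mul_ne_zero (hT.s0 q rfl) (hT.s0 q rfl)
  · intro b h w e hT c hc
    obtain ⟨-, -, -, d4, d5, -⟩ := hDER ι f Z
    set I := Zi f Z with hI
    set g := h ^ (e - 1) with hg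
    have he := hT.he
    have hge : h ^ e = h * g := by
      rw [hg, ← pow_succ']; congr 1; omega
    -- `s f - w h^e ∈ I`
    have hle : Zi f Z ^ 2 ⊔ Zi f Z * Ideal.span {h ^ (e - 1)} ≤ I := by
      exact sup_le (Ideal.pow_le_self two_ne_zero) Ideal.mul_le_left
    have h0 : s * f - w * h ^ e ∈ I := hle hT.eq
    -- `∂_c`
    have h1 : s * s * pderiv c f ∈ I ⊔ Ideal.span {g} := by
      have hx : pderiv c (s * f - w * h ^ e) ∈ I ⊔ Ideal.span {g} := by
        obtain ⟨y, hy, z, hz, hyz⟩ := Submodule.mem_sup.1 hT.eq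
        rw [← hyz, map_add]
        refine Ideal.add_mem _ ?_ ?_
        · rw [pow_two] at hy
          have := der_mul (pderiv c) (Zi f Z) (Zi f Z) hy
          rw [sup_idem] at this
          exact Ideal.mem_sup_left this
        · exact der_mul (pderiv c) (Zi f Z) (Ideal.span {g}) hz
      have hgm : g ∈ I ⊔ Ideal.span {g} := Ideal.mem_sup_right (Ideal.mem_span_singleton_self g)
      have hpe : pderiv c (h ^ e) = (e : MvPolynomial ι ℂ) * g * pderiv c h := by
        rw [Derivation.leibniz_pow, smul_eq_mul, nsmul_eq_mul, hg]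
        ring
      rw [map_sub, Derivation.leibniz, Derivation.leibniz, hpe, smul_eq_mul, smul_eq_mul,
        smul_eq_mul, smul_eq_mul] at hx
      have e1 : s * s * pderiv c f = s * (s * pderiv c f + f * pderiv c s -
          (w * ((e : MvPolynomial ι ℂ) * g * pderiv c h) + h ^ e * pderiv c w)) -
          pderiv c s * (s * f - w * h ^ e) +
          (s * w * (e : MvPolynomial ι ℂ) * pderiv c h + s * h * pderiv c w -
            pderiv c s * w * h) * g := by
        rw [hge]; ring
      rw [e1]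
      refine Ideal.add_mem _ (Ideal.sub_mem _ (Ideal.mul_mem_left _ _ hx)
        (Ideal.mul_mem_left _ _ (Ideal.mem_sup_left h0))) (Ideal.mul_mem_left _ _ hgm)
    -- `δ_b`
    set D := dl f Z b with hD
    have h2 : D (s * f - w * h ^ e) ∈ I := by
      obtain ⟨y, hy, z, hz, hyz⟩ := Submodule.mem_sup.1 hT.eq
      rw [← hyz, map_add]
      refine Ideal.add_mem _ ?_ ?_
      · rw [pow_two] at hy
        exact der_mul' D I I (d4 b) hy
      · exact der_mul' D I _ (d4 b) hz
    have hpe : D (h ^ e) = (e : MvPolynomial ι ℂ) * g * D h := by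
      rw [Derivation.leibniz_pow, smul_eq_mul, nsmul_eq_mul, hg]
      ring
    rw [map_sub, Derivation.leibniz, Derivation.leibniz, hpe, smul_eq_mul, smul_eq_mul,
      smul_eq_mul, smul_eq_mul] at h2
    set U := s * (e : MvPolynomial ι ℂ) * w * D h + h * (s * D w - w * D s) with hU
    have h3 : U * g ∈ Zi f (insert b Z) := by
      have hIle : I ≤ Zi f (insert b Z) := Zi_mono f (Finset.subset_insert b Z)
      have hDf : D f ∈ Zi f (insert b Z) := by
        have e1 : D f = (D f - dt f Z * pderiv b f) + dt f Z * pderiv b f := by ring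
        rw [e1]
        exact Ideal.add_mem _ (hIle (d5 b))
          (Ideal.mul_mem_left _ _ (mem_Zi f (Finset.mem_insert_self b Z)))
      have e1 : U * g = s * s * D f - s * (s * D f + f * D s -
          (w * ((e : MvPolynomial ι ℂ) * g * D h) + h ^ e * D w)) +
          D s * (s * f - w * h ^ e) := by
        rw [hU, hge]; ring
      rw [e1]
      exact Ideal.add_mem _ (Ideal.sub_mem _ (Ideal.mul_mem_left _ _ hDf)
        (Ideal.mul_mem_left _ _ (hIle h2))) (Ideal.mul_mem_left _ _ (hIle h0))
    have h4 : U * (s * s) * pderiv c f ∈ Zi f (insert b Z) := by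
      obtain ⟨y, hy, z, hz, hyz⟩ := Submodule.mem_sup.1 h1
      obtain ⟨r, rfl⟩ := Ideal.mem_span_singleton'.1 hz
      have e1 : U * (s * s) * pderiv c f = U * y + r * (U * g) := by
        rw [mul_assoc, ← hyz]; ring
      rw [e1]
      exact Ideal.add_mem _ (Ideal.mul_mem_left _ _ (Zi_mono f (Finset.subset_insert b Z) hy))
        (Ideal.mul_mem_left _ _ h3)
    obtain ⟨k, hk⟩ := to_sum f (insert b Z) h4
    refine ⟨U * (s * s), k, ?_, hk⟩
    have hUq : eval q U ≠ 0 := by
      rw [hU]
      simp only [map_add, map_mul, map_sub, hT.h0 q rfl, zero_mul, add_zero, map_natCast]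
      refine mul_ne_zero (mul_ne_zero (mul_ne_zero (hT.s0 q rfl) ?_) (hT.w0 q rfl)) (hT.h1 q rfl)
      exact_mod_cast (by omega : e ≠ 0)
    rw [map_mul, map_mul]
    exact mul_ne_zero hUq (mul_ne_zero (hT.s0 q rfl) (hT.s0 q rfl))

end Pool.Agent.Mono.C9
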