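import Pool.Agent.Work.Monodromy.Interface9
import Pool.Agent.Work.Monodromy8.EVF

/-!
# Block FUB9 (helper83): variables outside of `A` as parameters
-/

set_option autoImplicit false
set_option linter.unusedSectionVars false

namespace Pool.Agent.Mono.C9

open MvPolynomial TS RO SP PC

namespace FUB9Aux

open TS.VAAux TS.VPAux TS.VSAux RO.VGAux SP.EVF

section

variable {E ι : Type}

/-- lowering the level -/
theorem cyl_lower {N M : ℕ} (hNM : N ≤ M) {C : Set ((E → ℂ) × (ι → PowerSeries ℂ))}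
    (hC : IsCyl (fun _ => M) C)
    (h : ∀ p x y, (∀ i, ∀ l < N, PowerSeries.coeff l (x i) = PowerSeries.coeff l (y i)) →
      ((p, x) ∈ C ↔ (p, y) ∈ C)) : IsCyl (fun _ => N) C := by
  refine ⟨h, ?_⟩
  obtain ⟨g, hg⟩ : ∃ g : E ⊕ (Σ _ : ι, Fin M) → MvPolynomial (E ⊕ (Σ _ : ι, Fin N)) ℂ,
      g = Sum.elim (fun e => X (Sum.inl e)) (fun s => if h : (s.2 : ℕ) < N then
        X (Sum.inr ⟨s.1, ⟨(s.2 : ℕ), h⟩⟩) else 0) := ⟨_, rfl⟩
  have h1 : sec (fun _ => N) C = {v | (fun a => eval v (g a)) ∈ sec (fun _ => M) C} := by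
    ext v
    have e1 : toArc (fun _ : ι => N) (fun s => v (Sum.inr s)) =
        toArc (fun _ : ι => M) fun s => eval v (g (Sum.inr s)) := by
      funext i
      ext l
      rw [coeff_toArc, coeff_toArc]
      by_cases hl : l < N
      · rw [dif_pos hl, dif_pos (lt_of_lt_of_le hl hNM), hg]
        simp only [Sum.elim_inr]
        rw [dif_pos hl, eval_X]
      · rw [dif_neg hl]
        by_cases hl' : l < M
        · rw [dif_pos hl', hg]
          simp only [Sum.elim_inr]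
          rw [dif_neg hl, map_zero]
        · rw [dif_neg hl']
    have e2 : (fun p => v (Sum.inl p)) = fun p => eval v (g (Sum.inl p)) := by
      funext p
      rw [hg, Sum.elim_inl, eval_X]
    change ((fun p => v (Sum.inl p)), toArc (fun _ => N) fun s => v (Sum.inr s)) ∈ C ↔
      ((fun p => eval v (g (Sum.inl p))), toArc (fun _ => M) fun s => eval v (g (Sum.inr s))) ∈ C
    rw [e1, e2]
  rw [h1]
  exact Constructible.preimage _ hC.2

/-- the arc with the coefficients `c` -/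
noncomputable def arcN {N : ℕ} (c : Fin N → ℂ) : PowerSeries ℂ :=
  ∑ j : Fin N, PowerSeries.C (c j) * PowerSeries.X ^ (j : ℕ)

theorem coeff_arcN {N : ℕ} (c : Fin N → ℂ) (l : ℕ) :
    PowerSeries.coeff l (arcN c) = if h : l < N then c ⟨l, h⟩ else 0 := by
  rw [arcN, map_sum]
  have h1 : ∀ j : Fin N, PowerSeries.coeff l (PowerSeries.C (c j) * PowerSeries.X ^ (j : ℕ)) =
      if l = (j : ℕ) then c j else 0 := by
    intro j
    rw [PowerSeries.coeff_C_mul, PowerSeries.coeff_X_pow]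
    split_ifs
    · rw [mul_one]
    · rw [mul_zero]
  simp only [h1]
  by_cases h : l < N
  · rw [dif_pos h, Finset.sum_eq_single ⟨l, h⟩]
    · rw [if_pos rfl]
    · intro j _ hj
      rw [if_neg]
      intro h2
      exact hj (Fin.ext h2.symm)
    · intro h2
      exact absurd (Finset.mem_univ _) h2
  · rw [dif_neg h]
    refine Finset.sum_eq_zero fun j _ => ?_
    rw [if_neg]
    have := j.2
    omega

variable [DecidableEq ι]

/-- the variables outside of `A` are polynomials with coefficients in the parameters -/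
noncomputable def tau (A : Finset ι) (N : ℕ) (p : (E ⊕ ({b : ι // b ∉ A} × Fin N)) → ℂ)
    (y : A → PowerSeries ℂ) (a : ι) : PowerSeries ℂ :=
  if h : a ∈ A then y ⟨a, h⟩ else arcN fun j => p (Sum.inr (⟨a, h⟩, j))

theorem evH_spc (A : Finset ι) (N : ℕ) (F : MvPolynomial (E ⊕ ι) ℂ)
    (p : (E ⊕ ({b : ι // b ∉ A} × Fin N)) → ℂ) (y : A → PowerSeries ℂ) :
    evH (spc A N F) p y = evF F (fun e => p (Sum.inl e)) (tau A N p y) := by
  rw [evH, spc, evF, ← AlgHom.comp_apply, MvPolynomial.comp_aeval]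
  congr 2
  funext s
  rcases s with e | a
  · simp only [Sum.elim_inl, aeval_X]
  · simp only [Sum.elim_inr, tau]
    by_cases h : a ∈ A
    · rw [dif_pos h, dif_pos h, aeval_X]
      simp only [Sum.elim_inr]
    · rw [dif_neg h, dif_neg h, map_sum, arcN]
      refine Finset.sum_congr rfl fun j _ => ?_
      rw [map_mul, map_pow, aeval_X, aeval_X]
      simp only [Sum.elim_inl, Sum.elim_inr]

theorem coeff_tau_mem {A : Finset ι} (N : ℕ) (p : (E ⊕ ({b : ι // b ∉ A} × Fin N)) → ℂ)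
    (y : A → PowerSeries ℂ) {a : ι} (h : a ∈ A) (l : ℕ) :
    PowerSeries.coeff l (tau A N p y a) = PowerSeries.coeff l (y ⟨a, h⟩) := by
  rw [tau, dif_pos h]

theorem coeff_tau_not {A : Finset ι} (N : ℕ) (p : (E ⊕ ({b : ι // b ∉ A} × Fin N)) → ℂ)
    (y : A → PowerSeries ℂ) {a : ι} (h : a ∉ A) (l : ℕ) :
    PowerSeries.coeff l (tau A N p y a) =
      if hl : l < N then p (Sum.inr (⟨a, h⟩, ⟨l, hl⟩)) else 0 := by
  rw [tau, dif_neg h, coeff_arcN]

/-- the polynomials which describe `tau` below the level `N` -/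
noncomputable def phi (E : Type) (A : Finset ι) (N : ℕ) : E ⊕ (Σ _ : ι, Fin N) →
    MvPolynomial ((E ⊕ ({b : ι // b ∉ A} × Fin N)) ⊕ (Σ _ : A, Fin N)) ℂ :=
  Sum.elim (fun e => X (Sum.inl (Sum.inl e))) fun s =>
    if h : s.1 ∈ A then X (Sum.inr ⟨⟨s.1, h⟩, s.2⟩) else X (Sum.inl (Sum.inr (⟨s.1, h⟩, s.2)))

theorem trd_tau (A : Finset ι) (N : ℕ)
    (z : ((E ⊕ ({b : ι // b ∉ A} × Fin N)) → ℂ) × (A → PowerSeries ℂ)) :
    CV.trd (fun _ => N) (fun e => z.1 (Sum.inl e)) (tau A N z.1 z.2) =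
      fun a => eval (CV.trd (fun _ => N) z.1 z.2) (phi E A N a) := by
  funext a
  rcases a with e | ⟨i, l⟩
  · simp only [phi, Sum.elim_inl, eval_X, CV.trd]
  · simp only [phi, Sum.elim_inr, CV.trd]
    by_cases h : i ∈ A
    · rw [dif_pos h, eval_X, coeff_tau_mem N _ _ h]
      simp only [Sum.elim_inr]
    · rw [dif_neg h, eval_X, coeff_tau_not N _ _ h, dif_pos l.2]
      simp only [Sum.elim_inl]

theorem mem_iff {m N : ℕ} (hN : 0 < N) (A : Finset ι) (F : MvPolynomial (E ⊕ ι) ℂ)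
    (Q : Set (E ⊕ Unit → ℂ))
    (z : ((E ⊕ ({b : ι // b ∉ A} × Fin N)) → ℂ) × (A → PowerSeries ℂ)) :
    z ∈ H0 (spc A N F) (Qspc A N Q) m ↔
      (((fun e => z.1 (Sum.inl e)), tau A N z.1 z.2) : (E → ℂ) × (ι → PowerSeries ℂ)) ∈
      {z : (E → ℂ) × (ι → PowerSeries ℂ) |
        (∀ a, PowerSeries.coeff 0 (z.2 a) = 0) ∧ Lead Q m z.1 (evF F z.1 z.2)} := by
  change ((∀ a, PowerSeries.coeff 0 (z.2 a) = 0) ∧
    Lead (Qspc A N Q) m z.1 (evH (spc A N F) z.1 z.2)) ↔
    ((∀ a, PowerSeries.coeff 0 (tau A N z.1 z.2 a) = 0) ∧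
      Lead Q m (fun e => z.1 (Sum.inl e)) (evF F (fun e => z.1 (Sum.inl e)) (tau A N z.1 z.2)))
  rw [evH_spc]
  set G := evF F (fun e => z.1 (Sum.inl e)) (tau A N z.1 z.2)
  constructor
  · rintro ⟨h0, h1, h2, h3⟩
    refine ⟨?_, h1, h2⟩
    intro a
    by_cases h : a ∈ A
    · rw [coeff_tau_mem N _ _ h]
      exact h0 _
    · rw [coeff_tau_not N _ _ h, dif_pos hN]
      exact h3 ⟨a, h⟩ ⟨0, hN⟩ rfl
  · rintro ⟨h0, h1, h2⟩
    refine ⟨?_, h1, h2, ?_⟩
    · intro a
      have := h0 a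
      rw [coeff_tau_mem N _ _ a.2] at this
      exact this
    · rintro ⟨b, hb⟩ ⟨j, hj⟩ h
      change j = 0 at h
      subst h
      have := h0 b
      rw [coeff_tau_not N _ _ hb, dif_pos hN] at this
      exact this

end

end FUB9Aux

open FUB9Aux TS.VAAux TS.VPAux TS.VSAux RO.VGAux RO.CVSQAux SP.EVF

theorem stmt_FUB9 : Stmt_FUB9 := by
  intro P E ι _ _ _ F A Q hQ m N hmN
  have hN0 : 0 < N := by omega
  obtain ⟨S1, hS1⟩ : ∃ S1 : Set ((E → ℂ) × (ι → PowerSeries ℂ)), S1 =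
      {z : (E → ℂ) × (ι → PowerSeries ℂ) |
        (∀ a, PowerSeries.coeff 0 (z.2 a) = 0) ∧ Lead Q m z.1 (evF F z.1 z.2)} := ⟨_, rfl⟩
  have hcy : Cy S1 := by
    rw [hS1]
    refine Cy.and (Cy_ctr fun _ => 0) ?_
    exact PC.PL.cy_lead hQ.1 m (fun e => e) (s := fun z => evF F z.1 z.2)
      fun l => RF_evF F (g := fun e z => z.1 e) (fun e => RF.par e) (y := fun b z => z.2 b)
        (fun b l => RF.arc b l) l
  have hdep : ∀ (p : E → ℂ) (x y : ι → PowerSeries ℂ),
      (∀ i, ∀ l < N, PowerSeries.coeff l (x i) = PowerSeries.coeff l (y i)) →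
      ((p, x) ∈ S1 → (p, y) ∈ S1) := by
    intro p x y h
    have h2 := evF_congr F p x y N h
    rw [hS1]
    rintro ⟨a1, a2, a3⟩
    refine ⟨fun a => ?_, fun j hj => ?_, ?_⟩
    · rw [← h a 0 hN0]
      exact a1 a
    · rw [← h2 j (by omega)]
      exact a2 j hj
    · change (Sum.elim p fun _ => PowerSeries.coeff m (evF F p y)) ∈ Q
      rw [← h2 m hmN]
      exact a3
  have hc1 : IsCyl (fun _ => N) S1 := by
    obtain ⟨N0, hN0'⟩ := hcy
    refine cyl_lower (le_max_left N N0) (hN0' _ (le_max_right _ _)) fun p x y h => ?_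
    exact ⟨hdep p x y h, hdep p y x fun i l hl => (h i l hl).symm⟩
  have hr : ∀ i l, RF fun z : ((E ⊕ ({b : ι // b ∉ A} × Fin N)) → ℂ) × (A → PowerSeries ℂ) =>
      PowerSeries.coeff l (tau A N z.1 z.2 i) := by
    intro i l
    by_cases h : i ∈ A
    · simp only [coeff_tau_mem N _ _ h]
      exact RF.arc _ _
    · simp only [coeff_tau_not N _ _ h]
      by_cases hl : l < N
      · simp only [dif_pos hl]
        exact RF.par _
      · simp only [dif_neg hl]
        exact RF.const 0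
  have hc : ∀ (p : (E ⊕ ({b : ι // b ∉ A} × Fin N)) → ℂ) (x y : A → PowerSeries ℂ) (N' : ℕ),
      (∀ i, ∀ l < N', PowerSeries.coeff l (x i) = PowerSeries.coeff l (y i)) →
      ∀ i, ∀ l < N', PowerSeries.coeff l (tau A N p x i) =
        PowerSeries.coeff l (tau A N p y i) := by
    intro p x y N' hxy i l hl
    by_cases h : i ∈ A
    · rw [coeff_tau_mem N _ _ h, coeff_tau_mem N _ _ h]
      exact hxy _ l hl
    · rw [coeff_tau_not N _ _ h, coeff_tau_not N _ _ h]
  have hpre := cyl_preG hc1 (E' := E ⊕ ({b : ι // b ∉ A} × Fin N)) (κ := A)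
    (fun p e => p (Sum.inl e)) (fun e => ⟨X (Sum.inl e), fun p => by rw [eval_X]⟩)
    (fun p x => tau A N p x) hr hc
  have hS2 : {z : ((E ⊕ ({b : ι // b ∉ A} × Fin N)) → ℂ) × (A → PowerSeries ℂ) |
      (((fun e => z.1 (Sum.inl e)), tau A N z.1 z.2) : (E → ℂ) × (ι → PowerSeries ℂ)) ∈ S1} =
      H0 (spc A N F) (Qspc A N Q) m := by
    ext z
    rw [mem_iff hN0 A F Q z, hS1]
    exact Iff.rfl
  change IsCyl (fun _ => N) {z : ((E ⊕ ({b : ι // b ∉ A} × Fin N)) → ℂ) × (A → PowerSeries ℂ) |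
      (((fun e => z.1 (Sum.inl e)), tau A N z.1 z.2) : (E → ℂ) × (ι → PowerSeries ℂ)) ∈ S1} at hpre
  rw [← hS1, ← hS2]
  have key := CV.vol_cvp P hc1 hpre
    (fun z => (((fun e => z.1 (Sum.inl e)), tau A N z.1 z.2) : (E → ℂ) × (ι → PowerSeries ℂ)))
    (phi E A N) (fun z _ => trd_tau A N z) (fun z hz => hz) ?_ ?_
  · rw [Finset.sum_const, Finset.sum_const, smul_eq_mul, smul_eq_mul, Finset.card_univ,
      Finset.card_univ, Fintype.card_coe] at key
    have hx : (xq : K) ^ (A.card * N) ≠ 0 := pow_ne_zero _ (inv_ne_zero RatFunc.X_ne_zero)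
    have hcard : Fintype.card ι * N = N * Aᶜ.card + A.card * N := by
      rw [Finset.card_compl, mul_comm N, ← add_mul,
        Nat.sub_add_cancel (Finset.card_le_univ A)]
    rw [hcard, pow_add] at key
    apply mul_right_cancel₀ hx
    rw [key]
    ring
  · intro z _ z' _ hzz
    dsimp only at hzz
    funext s
    rcases s with (e | ⟨b, j⟩) | ⟨i, l⟩
    · exact congrFun hzz (Sum.inl e)
    · have h2 := congrFun hzz (Sum.inr ⟨b, j⟩)
      simp only [CV.trd, Sum.elim_inr] at h2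
      rw [coeff_tau_not N _ _ b.2, coeff_tau_not N _ _ b.2, dif_pos j.2, dif_pos j.2] at h2
      exact h2
    · have h2 := congrFun hzz (Sum.inr ⟨(i : ι), l⟩)
      simp only [CV.trd, Sum.elim_inr] at h2
      rw [coeff_tau_mem N _ _ i.2, coeff_tau_mem N _ _ i.2] at h2
      exact h2
  · intro y hy
    have hag : ∀ i, ∀ l < N, PowerSeries.coeff l (tau A N
        (Sum.elim y.1 fun s => PowerSeries.coeff (s.2 : ℕ) (y.2 s.1)) (fun a => y.2 a) i) =
        PowerSeries.coeff l (y.2 i) := by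
      intro i l hl
      by_cases h : i ∈ A
      · rw [coeff_tau_mem N _ _ h]
      · rw [coeff_tau_not N _ _ h, dif_pos hl, Sum.elim_inr]
    refine ⟨(Sum.elim y.1 fun s => PowerSeries.coeff (s.2 : ℕ) (y.2 s.1), fun a => y.2 a), ?_, ?_⟩
    · exact hdep y.1 y.2 _ (fun i l hl => (hag i l hl).symm) hy
    · funext s
      rcases s with s | s
      · rfl
      · exact hag s.1 s.2 s.2.2

end Pool.Agent.Mono.C9
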