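import Pool.Agent.Work.Monodromy9.RNK9

/-!
# Phase 9, block GEN9: the structure at the generic points of `V(I)` (helper52)
-/

set_option autoImplicit false

namespace Pool.Agent.Mono.C9

open MvPolynomial TS RO SP PC

namespace GEN9Aux

theorem wd_cons {ι : Type} [DecidableEq ι] (f : MvPolynomial ι ℂ) (Z : Finset ι) (b : ι)
    (L : List ι) : wd f Z (b :: L) = dl f Z b (wd f Z L) := rfl

theorem wd_nil {ι : Type} [DecidableEq ι] (f : MvPolynomial ι ℂ) (Z : Finset ι) :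
    wd f Z [] = f := rfl

theorem Zi_le {ι : Type} {f : MvPolynomial ι ℂ} {Z : Finset ι} {I : Ideal (MvPolynomial ι ℂ)}
    (h : ∀ z ∈ Z, pderiv z f ∈ I) : Zi f Z ≤ I := by
  unfold Zi
  rw [Ideal.span_le]
  rintro _ ⟨z, hz, rfl⟩
  exact h z hz

/-- a word of minimal length outside of `I` -/
theorem min_word {ι : Type} [DecidableEq ι] {f : MvPolynomial ι ℂ} {Z : Finset ι}
    {I : Ideal (MvPolynomial ι ℂ)} (h : ¬ ∀ L : List ι, wd f Z L ∈ I) :
    ∃ L : List ι, wd f Z L ∉ I ∧ ∀ L' : List ι, L'.length < L.length → wd f Z L' ∈ I := by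
  classical
  push Not at h
  have hex : ∃ n : ℕ, ∃ L : List ι, L.length = n ∧ wd f Z L ∉ I := by
    obtain ⟨L, hL⟩ := h
    exact ⟨L.length, L, rfl, hL⟩
  obtain ⟨L, hL, hLI⟩ := Nat.find_spec hex
  refine ⟨L, hLI, fun L' hL' => ?_⟩
  by_contra hc
  exact Nat.find_min hex (hL ▸ hL') ⟨L', rfl, hc⟩

variable {ι : Type} [Fintype ι] [DecidableEq ι]

/-- words of length at most two -/
theorem short (hDER : Stmt_DER9) {f : MvPolynomial ι ℂ} {Z : Finset ι}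
    {I : Ideal (MvPolynomial ι ℂ)} (hfI : f ∈ I) (hdf : ∀ a, pderiv a f ∈ I)
    (hbc : ∀ b c, dl f Z b (dl f Z c f) ∈ I) (b : ι) (L : List ι)
    (hL : wd f Z (b :: L) ∉ I) : 2 ≤ L.length := by
  have hZi : Zi f Z ≤ I := Zi_le fun z _ => hdf z
  by_contra hlt
  push Not at hlt
  interval_cases hl : L.length
  · rw [List.length_eq_zero_iff] at hl
    subst hl
    apply hL
    rw [wd_cons, wd_nil]
    have h1 := hZi ((hDER ι f Z).2.2.2.2.1 b)
    have h2 : dt f Z * pderiv b f ∈ I := I.mul_mem_left _ (hdf b)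
    have := I.add_mem h1 h2
    rwa [sub_add_cancel] at this
  · obtain ⟨c, rfl⟩ := List.length_eq_one_iff.1 hl
    exact hL (hbc b c)

/-- the structure `TH` from a minimal word -/
theorem gen_TH (hDER : Stmt_DER9) (hGSA : Stmt_GSA9) (hGSC : Stmt_GSC9) {f : MvPolynomial ι ℂ}
    {Z : Finset ι} {I : Ideal (MvPolynomial ι ℂ)} (hI : I.IsPrime) (hfI : f ∈ I)
    (hdf : ∀ a, pderiv a f ∈ I) (hZ : dt f Z ∉ I) (hc2 : Zᶜ.card ≤ 2)
    (hc2' : Zᶜ.card = 2 → ¬ I.IsMaximal) (b : ι) (L : List ι) (hlen : 2 ≤ L.length)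
    (hle : ∀ L' : List ι, L'.length ≤ L.length → wd f Z L' ∈ I) (hL : wd f Z (b :: L) ∉ I) :
    ∃ s₀, s₀ ∉ I ∧ ∃ s w, TH f {q | (∀ g ∈ I, eval q g = 0) ∧ eval q s₀ ≠ 0} Z b (wd f Z L) s w
      (L.length + 1) := by
  have hgsa := hGSA ι f Z I hI (fun z _ => hdf z) hZ hc2 b (wd f Z L) (hle L le_rfl) hL
  obtain ⟨s', hs', hs'g⟩ := hgsa.2 hc2'
  obtain ⟨s, w, hs, hw, hsw⟩ := hGSC ι f Z I hI (fun z _ => hdf z) hZ b L hlen hle hL
    ⟨s', hs', hs'g⟩
  refine ⟨s * w * (dt f Z * dl f Z b (wd f Z L)), ?_, s, w, ?_⟩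
  · intro h
    rcases hI.mem_or_mem h with h | h
    · exact (hI.mem_or_mem h).elim hs hw
    · exact (hI.mem_or_mem h).elim hZ hL
  · constructor
    · intro hb
      apply hL
      rw [wd_cons, (hDER ι f Z).2.2.1 b hb]
      exact I.zero_mem
    · omega
    · rintro q ⟨hq, -⟩
      exact ⟨hq _ hfI, fun a => hq _ (hdf a)⟩
    · rintro q ⟨-, hq⟩ h0
      apply hq
      simp only [map_mul]
      rw [h0]
      ring
    · rintro q ⟨hq, -⟩
      exact hq _ (hle L le_rfl)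
    · rintro q ⟨-, hq⟩ h0
      apply hq
      simp only [map_mul]
      rw [h0]
      ring
    · rintro q ⟨-, hq⟩ h0
      apply hq
      simp only [map_mul]
      rw [h0]
      ring
    · rintro q ⟨-, hq⟩ h0
      apply hq
      simp only [map_mul]
      rw [h0]
      ring
    · rw [Nat.add_sub_cancel]
      exact hsw

/-- the structure `TZ` if all words are in `I` -/
theorem gen_TZ (hGSB : Stmt_GSB9) {f : MvPolynomial ι ℂ}
    {Z : Finset ι} {I : Ideal (MvPolynomial ι ℂ)} (hI : I.IsPrime) (hfI : f ∈ I)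
    (hdf : ∀ a, pderiv a f ∈ I) (hZ : dt f Z ∉ I) (hall : ∀ L : List ι, wd f Z L ∈ I) :
    ∃ s₀, s₀ ∉ I ∧ ∃ s, TZ f {q | (∀ g ∈ I, eval q g = 0) ∧ eval q s₀ ≠ 0} Z s := by
  obtain ⟨q, hq, hdq⟩ := RNK9Aux.exists_pt hI hZ
  obtain ⟨s, hs, hsf⟩ := hGSB ι f Z q (fun z _ => hq _ (hdf z)) hdq
    (fun L => hq _ (hall L))
  have hsI : s ∉ I := fun h => hs (hq _ h)
  refine ⟨s * dt f Z, fun h => (hI.mem_or_mem h).elim hsI hZ, s, ?_⟩
  constructor
  · rintro q' ⟨hq', -⟩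
    exact ⟨hq' _ hfI, fun a => hq' _ (hdf a)⟩
  · rintro q' ⟨-, hq'⟩ h0
    apply hq'
    rw [map_mul, h0, mul_zero]
  · rintro q' ⟨-, hq'⟩ h0
    apply hq'
    rw [map_mul, h0, zero_mul]
  · exact hsf

end GEN9Aux

theorem stmt_GEN9 (hDER : Stmt_DER9) (hGSB : Stmt_GSB9) (hGSA : Stmt_GSA9) (hGSC : Stmt_GSC9) :
    Stmt_GEN9 := by
  intro ι _ _ f I hI hfI hdf Z hZ hbc hcase
  by_cases hall : ∀ L : List ι, wd f Z L ∈ I
  · obtain ⟨s₀, hs₀, s, h⟩ := GEN9Aux.gen_TZ hGSB hI hfI hdf hZ hall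
    exact ⟨s₀, hs₀, Or.inl ⟨s, h⟩⟩
  · obtain ⟨hc2, hc2'⟩ := hcase.resolve_left hall
    obtain ⟨L, hL, hmin⟩ := GEN9Aux.min_word hall
    cases L with
    | nil => exact absurd hfI hL
    | cons b L =>
      have hlen : 2 ≤ L.length := GEN9Aux.short hDER hfI hdf hbc b L hL
      have hle : ∀ L' : List ι, L'.length ≤ L.length → wd f Z L' ∈ I := fun L' hL' =>
        hmin L' (by rw [List.length_cons]; omega)
      obtain ⟨s₀, hs₀, s, w, h⟩ := GEN9Aux.gen_TH hDER hGSA hGSC hI hfI hdf hZ hc2 hc2' b L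
        hlen hle hL
      exact ⟨s₀, hs₀, Or.inr ⟨b, _, s, w, _, h⟩⟩

end Pool.Agent.Mono.C9
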