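import Pool.Agent.Work.Monodromy.Interface9

/-!
# Phase 9, block GGI9: induction on the number of squares (helper54)
-/

set_option autoImplicit false

namespace Pool.Agent.Mono.C9

open MvPolynomial TS RO SP PC

namespace GGI9Aux

theorem aeval_pair_map {ι κ : Type} (u v : ι) (φ : ι → κ) (G : P2) :
    rename φ (aeval ![X u, X v] G : MvPolynomial ι ℂ) = aeval ![X (φ u), X (φ v)] G := by
  have h : (rename φ : MvPolynomial ι ℂ →ₐ[ℂ] MvPolynomial κ ℂ).comp
      (aeval ![X u, X v] : P2 →ₐ[ℂ] MvPolynomial ι ℂ) = aeval ![X (φ u), X (φ v)] := by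
    apply MvPolynomial.algHom_ext
    intro i
    fin_cases i <;> simp
  exact DFunLike.congr_fun h G

theorem main (Pr : ∀ (ι : Type) [Fintype ι], MvPolynomial ι ℂ → ℕ → Prop)
    (hs : ∀ (ι : Type) [Fintype ι] (F : MvPolynomial ι ℂ) (k : ℕ), Pr ι F k →
      Pr (ι ⊕ Unit) (oplus F (X () ^ 2 : MvPolynomial Unit ℂ)) (k + 1))
    (hr : ∀ (ι κ : Type) [Fintype ι] [Fintype κ] (φ : ι ≃ κ) (F : MvPolynomial ι ℂ) (k : ℕ),
      Pr ι F k → Pr κ (rename φ F) k) (G : P2) (h0 : Pr (Fin 2) G 0) :
    ∀ (n : ℕ) (ι : Type) [Fintype ι] [DecidableEq ι] (Z : Finset ι) (u v : ι), u ≠ v →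
      Zᶜ = {u, v} → Z.card = n → Pr ι (GG Z u v G) n := by
  intro n
  induction n with
  | zero =>
    intro ι _ _ Z u v huv hZ hn
    have hZ0 : Z = ∅ := Finset.card_eq_zero.1 hn
    subst hZ0
    have hall : ∀ a : ι, a = u ∨ a = v := by
      intro a
      have : a ∈ (∅ : Finset ι)ᶜ := by simp
      rw [hZ] at this
      simpa using this
    have hbij : Function.Bijective (![u, v] : Fin 2 → ι) := by
      constructor
      · intro i j hij
        fin_cases i <;> fin_cases j <;> simp_all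
      · intro a
        rcases hall a with h | h
        · exact ⟨0, by simp [h]⟩
        · exact ⟨1, by simp [h]⟩
    have h1 := hr (Fin 2) ι (Equiv.ofBijective _ hbij) G 0 h0
    have h2 : GG (∅ : Finset ι) u v G = rename (Equiv.ofBijective _ hbij) G := by
      rw [GG, Finset.sum_empty, zero_add]
      have : (aeval ![X u, X v] : P2 →ₐ[ℂ] MvPolynomial ι ℂ) =
          rename (Equiv.ofBijective _ hbij) := by
        apply MvPolynomial.algHom_ext
        intro i
        rw [aeval_X, rename_X]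
        fin_cases i <;> simp
      exact DFunLike.congr_fun this G
    rw [h2]
    exact h1
  | succ n ih =>
    intro ι _ _ Z u v huv hZ hn
    have hne : Z.Nonempty := by
      rw [← Finset.card_pos]; omega
    obtain ⟨z, hz⟩ := hne
    have hu : u ∉ Z := by
      have : u ∈ Zᶜ := by rw [hZ]; simp
      simpa using this
    have hv : v ∉ Z := by
      have : v ∈ Zᶜ := by rw [hZ]; simp
      simpa using this
    have huz : u ≠ z := fun h => hu (h ▸ hz)
    have hvz : v ≠ z := fun h => hv (h ▸ hz)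
    let Z' : Finset {a : ι // a ≠ z} := Z.subtype (fun a => a ≠ z)
    have hZ' : Z'ᶜ = {⟨u, huz⟩, ⟨v, hvz⟩} := by
      ext ⟨a, ha⟩
      have h1 : a ∈ Zᶜ ↔ a = u ∨ a = v := by rw [hZ]; simp
      simp only [Finset.mem_compl, Z', Finset.mem_subtype, Finset.mem_insert,
        Finset.mem_singleton, Subtype.mk.injEq]
      simpa using h1
    have hcard : Z'.card = n := by
      have h1 : Z' = Z.subtype (fun a => a ≠ z) := rfl
      rw [h1, Finset.card_subtype, Finset.filter_ne', Finset.card_erase_of_mem hz, hn]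
      rfl
    have h1 := ih {a : ι // a ≠ z} Z' ⟨u, huz⟩ ⟨v, hvz⟩
      (fun h => huv (congrArg Subtype.val h)) hZ' hcard
    have h2 := hs _ _ _ h1
    let φ : {a : ι // a ≠ z} ⊕ Unit ≃ ι :=
      { toFun := Sum.elim (fun a => a.1) fun _ => z
        invFun := fun a => if h : a = z then Sum.inr () else Sum.inl ⟨a, h⟩
        left_inv := by
          intro a
          rcases a with a | a
          · simp [a.2]
          · simp
        right_inv := by
          intro a
          by_cases h : a = z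
          · simp [h]
          · simp [h] }
    have h3 := hr _ ι φ _ _ h2
    have h4 : rename φ (oplus (GG Z' ⟨u, huz⟩ ⟨v, hvz⟩ G) (X () ^ 2 : MvPolynomial Unit ℂ)) =
        GG Z u v G := by
      rw [oplus, GG, GG]
      simp only [map_add, map_sum, map_pow, rename_X, rename_rename]
      rw [aeval_pair_map]
      have h5 : (∑ x ∈ Z', (X ((φ ∘ Sum.inl) x) : MvPolynomial ι ℂ) ^ 2) =
          ∑ x ∈ Z.erase z, X x ^ 2 := by
        rw [← Finset.filter_ne', ← Finset.sum_subtype_eq_sum_filter]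
        rfl
      have h6 : ∑ x ∈ Z, (X x : MvPolynomial ι ℂ) ^ 2 = X z ^ 2 + ∑ x ∈ Z.erase z, X x ^ 2 :=
        (Finset.add_sum_erase Z _ hz).symm
      have h7 : (∑ x ∈ Z', (X (φ (Sum.inl x)) : MvPolynomial ι ℂ) ^ 2) =
          ∑ x ∈ Z.erase z, X x ^ 2 := h5
      first
        | rw [h5, h6]
        | rw [h7, h6]
      have h8 : (φ ∘ Sum.inl) (⟨u, huz⟩ : {a : ι // a ≠ z}) = u := rfl
      have h9 : (φ ∘ Sum.inl) (⟨v, hvz⟩ : {a : ι // a ≠ z}) = v := rfl
      have h10 : φ (Sum.inr ()) = z := rfl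
      rw [h8, h9, h10]
      ring
    rw [← h4]
    exact h3

end GGI9Aux

theorem stmt_GGI9 : Stmt_GGI9 := by
  intro Pr hs hr G h0 ι _ _ Z u v huv hZ
  exact GGI9Aux.main Pr hs hr G h0 Z.card ι Z u v huv hZ rfl

end Pool.Agent.Mono.C9
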