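import Pool.Agent.Work.Monodromy9.DER9

/-!
# Phase 9, block SCH9: Schur complements (helper26)
-/

set_option autoImplicit false

namespace Pool.Agent.Mono.C9

open MvPolynomial TS RO SP PC

namespace SCH9Aux

variable {ι : Type} [DecidableEq ι]

theorem eval_dl (f : MvPolynomial ι ℂ) (Z : Finset ι) (q : ι → ℂ) (b : ι)
    (g : MvPolynomial ι ℂ) :
    eval q (dl f Z b g) = (HZ f Z q).det * eval q (pderiv b g) -
      ∑ a : Z, (∑ a' : Z, (HZ f Z q).adjugate a a' * Hs f q a' b) *
        eval q (pderiv (a : ι) g) := by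
  have hadj : ∀ a a' : Z, eval q ((HM f Z).adjugate a a') = (HZ f Z q).adjugate a a' := by
    intro a a'
    have h := RingHom.map_adjugate (eval q : MvPolynomial ι ℂ →+* ℂ) (HM f Z)
    have h2 := congrFun (congrFun h a) a'
    simp only [RingHom.mapMatrix_apply, Matrix.map_apply] at h2
    rw [h2]
    rfl
  rw [DER9Aux.dl_apply, map_sub, map_mul, DER9Aux.dt_eval, map_sum]
  congr 1
  refine Finset.sum_congr rfl fun a _ => ?_
  rw [map_mul, map_sum]
  congr 1
  refine Finset.sum_congr rfl fun a' _ => ?_
  rw [map_mul, hadj]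
  rfl

/-- the Schur complement, up to the factor `det²` -/
theorem eval_dl_dl (f : MvPolynomial ι ℂ) (Z : Finset ι) (q : ι → ℂ)
    (hq : ∀ a, eval q (pderiv a f) = 0) (b c : ι) :
    eval q (dl f Z b (dl f Z c f)) = (HZ f Z q).det * ((HZ f Z q).det * Hs f q b c -
      ∑ a : Z, (∑ a' : Z, (HZ f Z q).adjugate a a' * Hs f q a' b) * Hs f q a c) := by
  have h1 : eval q (dl f Z b (dl f Z c f)) = (HZ f Z q).det * eval q (dl f Z b (pderiv c f)) := by
    rw [DER9Aux.dl_apply f Z c f, map_sub, map_sum, Derivation.leibniz]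
    simp only [smul_eq_mul, map_sub, map_add, map_mul, map_sum, Derivation.leibniz, hq,
      zero_mul, add_zero, mul_zero]
    have h2 : ∀ a : Z, dl f Z b (pderiv (a : ι) f) = 0 := fun a => DER9Aux.dl_z f Z b a a.2
    simp only [h2, map_zero, mul_zero, Finset.sum_const_zero, sub_zero]
    rw [DER9Aux.dt_eval]
  rw [h1, eval_dl]
  rfl

variable [Fintype ι]

theorem schur (H : Matrix ι ι ℂ) (hs : ∀ a b, H a b = H b a) (Z : Finset ι)
    (hd : (H.submatrix (fun a : Z => (a : ι)) fun a : Z => (a : ι)).det ≠ 0) :
    H.rank = Z.card ↔ ∀ b c, (H.submatrix (fun a : Z => (a : ι)) fun a : Z => (a : ι)).det * H b c -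
      ∑ a : Z, (∑ a' : Z, (H.submatrix (fun a : Z => (a : ι)) fun a : Z => (a : ι)).adjugate a a' *
        H a' b) * H a c = 0 := by
  set M := H.submatrix (fun a : Z => (a : ι)) fun a : Z => (a : ι) with hM
  have hMr : M.rank = Z.card := by
    rw [Matrix.rank_of_det_ne_zero hd, Fintype.card_coe]
  constructor
  · intro hr b c
    by_contra hne
    letI : Invertible M := Matrix.invertibleOfIsUnitDet M (isUnit_iff_ne_zero.2 hd)
    let N : Matrix (Z ⊕ Unit) (Z ⊕ Unit) ℂ :=
      H.submatrix (Sum.elim (fun a : Z => (a : ι)) fun _ => b)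
        (Sum.elim (fun a : Z => (a : ι)) fun _ => c)
    have hN : N = Matrix.fromBlocks M (Matrix.of fun a (_ : Unit) => H (a : ι) c)
        (Matrix.of fun (_ : Unit) a => H b (a : ι)) (Matrix.of fun (_ _ : Unit) => H b c) := by
      ext x y
      rcases x with x | x <;> rcases y with y | y <;> rfl
    have hdet : N.det ≠ 0 := by
      rw [hN, Matrix.det_fromBlocks₁₁]
      refine mul_ne_zero hd ?_
      rw [Matrix.det_unique]
      intro h0
      apply hne
      have h1 : (Matrix.of (fun (_ : Unit) (a : Z) => H b (a : ι)) * ⅟M *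
          Matrix.of (fun (a : Z) (_ : Unit) => H (a : ι) c)) default default =
          ∑ a : Z, (∑ a' : Z, H b a' * (⅟M) a' a) * H a c := by
        rw [Matrix.mul_apply]
        refine Finset.sum_congr rfl fun a _ => ?_
        rw [Matrix.mul_apply]
        rfl
      rw [Matrix.sub_apply, h1] at h0
      have h2 : ∀ a a' : Z, M.det * (⅟M) a' a = M.adjugate a a' := by
        intro a a'
        have h3 : M.adjugate = M.det • ⅟M := by
          have h4 : M.adjugate * M * ⅟M = M.adjugate := by
            rw [Matrix.mul_assoc, mul_invOf_self, Matrix.mul_one]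
          rw [← h4, Matrix.adjugate_mul, Matrix.smul_mul, Matrix.one_mul]
        have h5 : M.adjugate a a' = M.adjugate a' a := by
          have h6 := congrFun (congrFun (Matrix.adjugate_transpose M) a') a
          rw [Matrix.transpose_apply] at h6
          rw [h6]
          congr 2
          ext x y
          exact hs _ _
        rw [h5, h3]
        rfl
      have h7 : H b c = ∑ a : Z, (∑ a' : Z, H b a' * (⅟M) a' a) * H a c := by
        have : (Matrix.of (fun (_ _ : Unit) => H b c) : Matrix Unit Unit ℂ) default default =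
          H b c := rfl
        rw [this] at h0
        linear_combination h0
      rw [h7, Finset.mul_sum, sub_eq_zero]
      refine Finset.sum_congr rfl fun a _ => ?_
      rw [← mul_assoc, Finset.mul_sum]
      congr 1
      refine Finset.sum_congr rfl fun a' _ => ?_
      rw [← h2, hs b a']
      ring
    have h8 : N.rank = Z.card + 1 := by
      rw [Matrix.rank_of_det_ne_zero hdet]
      simp
    have h9 : N.rank ≤ H.rank := Matrix.rank_submatrix_le _ _ _
    omega
  · intro h
    apply le_antisymm
    · have h1 : H = (Matrix.of fun (b : ι) (a : Z) =>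
          M.det⁻¹ * ∑ a' : Z, M.adjugate a a' * H a' b) *
          (Matrix.of fun (a : Z) (c : ι) => H a c) := by
        ext b c
        rw [Matrix.mul_apply]
        simp only [Matrix.of_apply]
        have h2 := h b c
        have h3 : ∑ a : Z, M.det⁻¹ * (∑ a' : Z, M.adjugate a a' * H a' b) * H a c =
            M.det⁻¹ * ∑ a : Z, (∑ a' : Z, M.adjugate a a' * H a' b) * H a c := by
          rw [Finset.mul_sum]
          refine Finset.sum_congr rfl fun a _ => ?_
          ring
        rw [h3, ← sub_eq_zero.1 h2, ← mul_assoc, inv_mul_cancel₀ hd, one_mul]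
      rw [h1]
      refine (Matrix.rank_mul_le_left _ _).trans ((Matrix.rank_le_card_width _).trans ?_)
      rw [Fintype.card_coe]
    · rw [← hMr]
      exact Matrix.rank_submatrix_le _ _ _

end SCH9Aux

theorem stmt_SCH9 : Stmt_SCH9 := by
  intro ι _ _ f Z q hq hdt
  rw [DER9Aux.dt_eval] at hdt
  have hs : ∀ a b, Hs f q a b = Hs f q b a := by
    intro a b
    simp only [Hs, Matrix.of_apply]
    rw [DER9Aux.pd_comm]
  rw [SCH9Aux.schur (Hs f q) hs Z hdt]
  refine forall_congr' fun b => forall_congr' fun c => ?_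
  rw [SCH9Aux.eval_dl_dl f Z q hq b c]
  constructor
  · intro h
    rw [show (HZ f Z q).det * Hs f q b c - ∑ a : Z, (∑ a' : Z,
      (HZ f Z q).adjugate a a' * Hs f q a' b) * Hs f q a c = 0 from h, mul_zero]
  · intro h
    exact (mul_eq_zero.1 h).resolve_left hdt

end Pool.Agent.Mono.C9
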