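import Pool.Agent.Work.Monodromy9.GSAux
import Pool.Agent.Work.Monodromy9.SCH9

/-!
# Phase 9, block GSA9: generators of a prime ideal (helper26)
-/

set_option autoImplicit false

namespace Pool.Agent.Mono.C9

open MvPolynomial TS RO SP PC GSAux

namespace GSA9Aux

variable {ι : Type} [Fintype ι] [DecidableEq ι]

theorem sum_split (Z : Finset ι) (b : ι) (hb : b ∉ Z) (F : ι → ℂ)
    (hF : ∀ j, j ∉ Z → j ≠ b → F j = 0) : ∑ j, F j = ∑ j : Z, F j + F b := by
  rw [← Finset.sum_subset (Finset.subset_univ (insert b Z)), Finset.sum_insert hb,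
    ← Finset.sum_coe_sort Z F, add_comm]
  intro x _ hx
  rw [Finset.mem_insert, not_or] at hx
  exact hF x hx.2 hx.1

/-- the linear terms of `∂_z f`, `h`, `x_c - q_c` are independent -/
theorem det_ne (f : MvPolynomial ι ℂ) (Z : Finset ι) (q : ι → ℂ) (b : ι) (hb : b ∉ Z)
    (h : MvPolynomial ι ℂ) (hd : (HZ f Z q).det ≠ 0) (hh : eval q (dl f Z b h) ≠ 0) :
    (Matrix.of fun i j => eval q (pderiv j (if i ∈ Z then pderiv i f else
      if i = b then h else X i - C (q i)))).det ≠ 0 := by
  intro h0
  obtain ⟨v, hv0, hv⟩ := Matrix.exists_mulVec_eq_zero_iff.2 h0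
  have hT : ∀ i, i ∉ Z → i ≠ b → v i = 0 := by
    intro i hi hib
    have h1 := congrFun hv i
    simp only [Matrix.mulVec, dotProduct, Matrix.of_apply, Pi.zero_apply, if_neg hi,
      if_neg hib] at h1
    have h2 : ∀ j, eval q (pderiv j (X i - C (q i) : MvPolynomial ι ℂ)) * v j =
        if j = i then v j else 0 := by
      intro j
      rw [map_sub, pderiv_C, sub_zero, pderiv_X]
      by_cases hji : j = i
      · subst hji
        rw [Pi.single_eq_same, map_one, one_mul, if_pos rfl]
      · rw [Pi.single_eq_of_ne (Ne.symm hji), map_zero, zero_mul, if_neg hji]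
    simp only [h2] at h1
    rwa [Finset.sum_ite_eq', if_pos (Finset.mem_univ _)] at h1
  have hsym : ∀ a c, Hs f q a c = Hs f q c a := by
    intro a c
    simp only [Hs, Matrix.of_apply]
    rw [DER9Aux.pd_comm]
  have hZ : ∀ i : Z, ∑ j : Z, Hs f q i j * v j = -(Hs f q i b * v b) := by
    intro i
    have h1 := congrFun hv i
    simp only [Matrix.mulVec, dotProduct, Matrix.of_apply, Pi.zero_apply, if_pos i.2] at h1
    rw [sum_split Z b hb _ (fun j hj hjb => by rw [hT j hj hjb, mul_zero])] at h1
    have h2 : ∀ j, eval q (pderiv j (pderiv (i : ι) f)) = Hs f q i j := by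
      intro j
      rw [hsym]
      rfl
    simp only [h2] at h1
    linear_combination h1
  have hB : ∑ j : Z, eval q (pderiv (j : ι) h) * v j + eval q (pderiv b h) * v b = 0 := by
    have h1 := congrFun hv b
    simp only [Matrix.mulVec, dotProduct, Matrix.of_apply, Pi.zero_apply, if_neg hb,
      if_true] at h1
    rw [sum_split Z b hb _ (fun j hj hjb => by rw [hT j hj hjb, mul_zero])] at h1
    exact h1
  have hadj : ∀ a : Z, ∑ a' : Z, (HZ f Z q).adjugate a a' * -(Hs f q a' b * v b) =
      (HZ f Z q).det * v a := by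
    intro a
    have h1 : ∀ a' : Z, (HZ f Z q).adjugate a a' * -(Hs f q a' b * v b) =
        ∑ j : Z, (HZ f Z q).adjugate a a' * Hs f q a' j * v j := by
      intro a'
      rw [← hZ a', Finset.mul_sum]
      refine Finset.sum_congr rfl fun j _ => ?_
      ring
    simp only [h1]
    rw [Finset.sum_comm]
    have h2 : ∀ j : Z, ∑ a' : Z, (HZ f Z q).adjugate a a' * Hs f q a' j * v j =
        if a = j then (HZ f Z q).det * v j else 0 := by
      intro j
      rw [← Finset.sum_mul]
      have h3 := congrFun (congrFun (Matrix.adjugate_mul (HZ f Z q)) a) j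
      rw [Matrix.mul_apply] at h3
      simp only [Matrix.smul_apply, Matrix.one_apply, smul_eq_mul, mul_ite, mul_one,
        mul_zero] at h3
      have h4 : ∑ a' : Z, (HZ f Z q).adjugate a a' * Hs f q a' j =
          if a = j then (HZ f Z q).det else 0 := h3
      rw [h4, ite_mul, zero_mul]
    simp only [h2]
    rw [Finset.sum_ite_eq, if_pos (Finset.mem_univ _)]
  have hvb : v b = 0 := by
    have h1 : eval q (dl f Z b h) * v b = 0 := by
      rw [SCH9Aux.eval_dl]
      have h2 : (∑ a : Z, (∑ a' : Z, (HZ f Z q).adjugate a a' * Hs f q a' b) *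
          eval q (pderiv (a : ι) h)) * v b =
          -∑ a : Z, (HZ f Z q).det * (eval q (pderiv (a : ι) h) * v a) := by
        rw [Finset.sum_mul, ← Finset.sum_neg_distrib]
        refine Finset.sum_congr rfl fun a _ => ?_
        have h3 := hadj a
        have h4 : ∑ a' : Z, (HZ f Z q).adjugate a a' * -(Hs f q a' b * v b) =
            -((∑ a' : Z, (HZ f Z q).adjugate a a' * Hs f q a' b) * v b) := by
          rw [Finset.sum_mul, ← Finset.sum_neg_distrib]
          refine Finset.sum_congr rfl fun a' _ => ?_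
          ring
        rw [h4] at h3
        linear_combination (-eval q (pderiv (a : ι) h)) * h3
      rw [sub_mul, h2, ← Finset.mul_sum]
      linear_combination (HZ f Z q).det * hB
    exact (mul_eq_zero.1 h1).resolve_left hh
  apply hv0
  funext i
  rw [Pi.zero_apply]
  by_cases hi : i ∈ Z
  · have h1 := hadj ⟨i, hi⟩
    simp only [hvb, mul_zero, neg_zero, Finset.sum_const_zero] at h1
    exact (mul_eq_zero.1 h1.symm).resolve_left hd
  · by_cases hib : i = b
    · rw [hib, hvb]
    · exact hT i hi hib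

end GSA9Aux

open GSA9Aux in
theorem stmt_GSA9 : Stmt_GSA9 := by
  intro ι _ _ f Z I hI hz hdt hc2 b h hh hdl
  have hb : b ∉ Z := by
    intro hb
    apply hdl
    rw [DER9Aux.dl_mem f Z b hb h]
    exact Ideal.zero_mem _
  obtain ⟨q, hq, hq2⟩ := nullst I hI (dt f Z * dl f Z b h)
    (fun hm => (hI.mem_or_mem hm).elim hdt hdl)
  rw [map_mul] at hq2
  have hq3 : eval q (dt f Z) ≠ 0 := left_ne_zero_of_mul hq2
  have hq4 : eval q (dl f Z b h) ≠ 0 := right_ne_zero_of_mul hq2
  have hIq : I ≤ mI q := fun x hx => mem_mI.2 (hq x hx)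
  have hnI : ∀ r, eval q r ≠ 0 → r ∉ I := fun r hr hrI => hr (hq r hrI)
  set g : ι → MvPolynomial ι ℂ := fun i => if i ∈ Z then pderiv i f else
      if i = b then h else X i - C (q i) with hg
  have hdet := det_ne f Z q b hb h (by rw [← DER9Aux.dt_eval]; exact hq3) hq4
  have hg0 : ∀ i, eval q (g i) = 0 := by
    intro i
    simp only [hg]
    split_ifs with h1 h2
    · exact hq _ (hz i h1)
    · exact hq _ hh
    · simp
  have hJI : Zi f Z ⊔ Ideal.span {h} ≤ I := by
    refine sup_le ?_ ?_
    · rw [Zi, Ideal.span_le]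
      rintro _ ⟨z, hz1, rfl⟩
      exact hz z hz1
    · rw [Ideal.span_le, Set.singleton_subset_iff]
      exact hh
  have hgZ : ∀ i, (i ∈ Z ∨ i = b) → g i ∈ Zi f Z ⊔ Ideal.span {h} := by
    intro i hi
    simp only [hg]
    split_ifs with h1 h2
    · exact Ideal.mem_sup_left (DER9Aux.z_mem f Z i h1)
    · exact Ideal.mem_sup_right (Ideal.subset_span rfl)
    · exact absurd hi (not_or.2 ⟨h1, h2⟩)
  have hbc : b ∈ Zᶜ := Finset.mem_compl.2 hb
  by_cases hT : ∀ i, i ∈ Z ∨ i = b
  · obtain ⟨r, hr, hr2⟩ := gen_mI q (Zi f Z ⊔ Ideal.span {h}) g (fun i => hgZ i (hT i)) hg0 hdet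
    have hmI : I = mI q := by
      refine le_antisymm hIq fun x hx => ?_
      exact (hI.mem_or_mem (hJI (hr2 x hx))).resolve_left (hnI r hr)
    refine ⟨fun _ => ?_, fun _ => ⟨r, hnI r hr, fun x hx => hr2 x (hIq hx)⟩⟩
    rw [hmI]
    exact mI_max q
  · push Not at hT
    obtain ⟨c, hcZ, hcb⟩ := hT
    have hcard : Zᶜ.card = 2 ∧ ∀ i, i ∉ Z → i ≠ b → i = c := by
      have h1 : ({b, c} : Finset ι) ⊆ Zᶜ := by
        intro x hx
        rw [Finset.mem_insert, Finset.mem_singleton] at hx
        rcases hx with rfl | rfl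
        · exact hbc
        · exact Finset.mem_compl.2 hcZ
      have h2 : ({b, c} : Finset ι).card = 2 := Finset.card_pair (Ne.symm hcb)
      have h3 := Finset.card_le_card h1
      have h4 : ({b, c} : Finset ι) = Zᶜ := Finset.eq_of_subset_of_card_le h1 (by omega)
      refine ⟨by rw [← h4, h2], fun i hi hib => ?_⟩
      have h5 : i ∈ ({b, c} : Finset ι) := by rw [h4]; exact Finset.mem_compl.2 hi
      rw [Finset.mem_insert, Finset.mem_singleton] at h5
      exact h5.resolve_left hib
    refine ⟨fun h1 => absurd hcard.1 (by omega), fun hmax => ?_⟩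
    have hmax := hmax hcard.1
    set t : MvPolynomial ι ℂ := X c - C (q c) with ht
    obtain ⟨r, hr, hr2⟩ := gen_mI q (Zi f Z ⊔ Ideal.span {h} ⊔ Ideal.span {t}) g (fun i => by
      by_cases hi : i ∈ Z ∨ i = b
      · exact Ideal.mem_sup_left (hgZ i hi)
      · rw [not_or] at hi
        have hic := hcard.2 i hi.1 hi.2
        refine Ideal.mem_sup_right ?_
        simp only [hg, if_neg hi.1, if_neg hi.2]
        rw [hic]
        exact Ideal.subset_span rfl) hg0 hdet
    have htI : t ∉ I := by
      intro htI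
      apply hmax
      have hmI : I = mI q := by
        refine le_antisymm hIq fun x hx => ?_
        have h1 : Zi f Z ⊔ Ideal.span {h} ⊔ Ideal.span {t} ≤ I := by
          refine sup_le hJI ?_
          rw [Ideal.span_le, Set.singleton_subset_iff]
          exact htI
        exact (hI.mem_or_mem (h1 (hr2 x hx))).resolve_left (hnI r hr)
      rw [hmI]
      exact mI_max q
    obtain ⟨s, hs, hs2⟩ := nakS q (Zi f Z ⊔ Ideal.span {h}) I r hr (fun x hx => by
      obtain ⟨a, ha, y, hy, hay⟩ := Submodule.mem_sup.1 (hr2 x (hIq hx))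
      obtain ⟨y', hy'⟩ := Ideal.mem_span_singleton'.1 hy
      have h1 : y ∈ I := by
        have h2 : y = r * x - a := by rw [← hay]; ring
        rw [h2]
        exact Ideal.sub_mem _ (Ideal.mul_mem_left _ _ hx) (hJI ha)
      have h3 : y' ∈ I := by
        rw [← hy'] at h1
        exact (hI.mem_or_mem h1).resolve_right htI
      rw [← hay, ← hy']
      refine Ideal.add_mem _ (Ideal.mem_sup_left ha) (Ideal.mem_sup_right ?_)
      rw [mul_comm y' t]
      refine Ideal.mul_mem_mul ?_ h3
      rw [mem_mI]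
      simp [ht])
    exact ⟨s, hnI s hs, hs2⟩

end Pool.Agent.Mono.C9
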