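import Pool.Agent.Work.Monodromy.Interface9

/-! # Phase 9, block GSB9: points of infinite order -/

set_option autoImplicit false
set_option linter.unusedSectionVars false

namespace Pool.Agent.Mono.C9

open MvPolynomial TS RO SP PC

namespace GSB9Aux

variable {ι : Type} [Fintype ι] [DecidableEq ι]

lemma mem_mI (q : ι → ℂ) (g : MvPolynomial ι ℂ) : g ∈ mI q ↔ eval q g = 0 := RingHom.mem_ker

/-- `G(x - q)` -/
noncomputable def tau (q : ι → ℂ) : MvPolynomial ι ℂ →ₐ[ℂ] MvPolynomial ι ℂ :=
  aeval fun a => X a - C (q a)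

lemma chain (D : Derivation ℂ (MvPolynomial ι ℂ) (MvPolynomial ι ℂ)) (q : ι → ℂ)
    (p : MvPolynomial ι ℂ) : D (tau q p) = ∑ a, tau q (pderiv a p) * D (X a) := by
  have hC : ∀ c : ℂ, D (C c) = 0 := fun c => D.map_algebraMap c
  induction p using MvPolynomial.induction_on with
  | C c =>
    have : tau q (C c) = C c := by simp [tau]
    rw [this, hC]
    simp
  | add p r hp hr =>
    simp only [map_add, hp, hr, add_mul, Finset.sum_add_distrib]
  | mul_X p b hp =>
    have h0 : tau q (X b) = X b - C (q b) := by simp [tau]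
    have h1 : ∀ a, tau q (pderiv a (p * X b)) * D (X a) =
        (X b - C (q b)) * (tau q (pderiv a p) * D (X a)) +
          (if b = a then tau q p * D (X b) else 0) := by
      intro a
      rw [Derivation.leibniz, pderiv_X]
      simp only [smul_eq_mul, map_add, map_mul, h0]
      by_cases hab : b = a
      · subst hab
        simp
        ring
      · have : (Pi.single b (1 : MvPolynomial ι ℂ) : ι → MvPolynomial ι ℂ) a = 0 := by
          rw [Pi.single_eq_of_ne (fun h => hab h.symm)]
        simp [hab]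
        ring
    rw [map_mul, h0, Derivation.leibniz, hp, Finset.sum_congr rfl fun a _ => h1 a,
      Finset.sum_add_distrib, Finset.sum_ite_eq, ← Finset.mul_sum]
    simp only [Finset.mem_univ, if_true, smul_eq_mul, map_sub, hC, sub_zero]
    ring

/-- `G` does not contain the variables of `Z` -/
def off (Z : Finset ι) (G : MvPolynomial ι ℂ) : Prop := ∀ d ∈ G.support, ∀ z ∈ Z, d z = 0

lemma off_pderiv {Z : Finset ι} {G : MvPolynomial ι ℂ} (h : off Z G) (b : ι) :
    off Z (pderiv b G) := by
  intro d hd z hz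
  rw [mem_support_iff, coeff_pderiv] at hd
  have h1 : d + Finsupp.single b 1 ∈ G.support := by
    rw [mem_support_iff]
    exact fun h' => hd (by rw [h', zero_mul])
  have h2 := h _ h1 z hz
  rw [Finsupp.add_apply] at h2
  omega

lemma off_zero {Z : Finset ι} {G : MvPolynomial ι ℂ} (h : off Z G) {z : ι} (hz : z ∈ Z) :
    pderiv z G = 0 := by
  ext d
  rw [coeff_pderiv, coeff_zero]
  by_cases h1 : d + Finsupp.single z 1 ∈ G.support
  · have h2 := h _ h1 z hz
    rw [Finsupp.add_apply, Finsupp.single_eq_same] at h2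
    omega
  · rw [notMem_support_iff] at h1
    rw [h1, zero_mul]

lemma chain9 (hD : Stmt_DER9) (f : MvPolynomial ι ℂ) (Z : Finset ι) (q : ι → ℂ)
    {G : MvPolynomial ι ℂ} (h : off Z G) (b : ι) :
    dl f Z b (tau q G) = dt f Z * tau q (pderiv b G) := by
  obtain ⟨-, d2, d3, -, -, -⟩ := hD ι f Z
  by_cases hb : b ∈ Z
  · rw [d3 b hb, off_zero h hb, map_zero, mul_zero]
  · rw [chain]
    rw [Finset.sum_eq_single b]
    · rw [d2 b b hb, if_pos rfl, mul_comm]
    · intro a _ hab
      by_cases ha : a ∈ Z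
      · rw [off_zero h ha, map_zero, zero_mul]
      · rw [d2 b a ha, if_neg (fun h' => hab h'.symm), mul_zero]
    · intro h'; exact absurd (Finset.mem_univ b) h'

/-- iterated partial derivatives -/
noncomputable def pdL (L : List ι) (G : MvPolynomial ι ℂ) : MvPolynomial ι ℂ :=
  L.foldr (fun b h => pderiv b h) G

lemma off_pdL {Z : Finset ι} {G : MvPolynomial ι ℂ} (h : off Z G) (L : List ι) :
    off Z (pdL L G) := by
  induction L with
  | nil => exact h
  | cons b L ih => exact off_pderiv ih b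

/-- iterated `δ` -/
noncomputable def wdg (f : MvPolynomial ι ℂ) (Z : Finset ι) (L : List ι) (h : MvPolynomial ι ℂ) :
    MvPolynomial ι ℂ := L.foldr (fun b h => dl f Z b h) h

lemma wdg_add (f : MvPolynomial ι ℂ) (Z : Finset ι) (L : List ι) (h h' : MvPolynomial ι ℂ) :
    wdg f Z L (h + h') = wdg f Z L h + wdg f Z L h' := by
  induction L with
  | nil => rfl
  | cons b L ih =>
    show dl f Z b (wdg f Z L (h + h')) = dl f Z b (wdg f Z L h) + dl f Z b (wdg f Z L h')
    rw [ih, map_add]

/-- a derivation maps the ideal generated by `S` to `K` if `S` and `D S` are in `K` -/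
lemma der_span (D : Derivation ℂ (MvPolynomial ι ℂ) (MvPolynomial ι ℂ))
    (S : Set (MvPolynomial ι ℂ)) (K : Ideal (MvPolynomial ι ℂ)) (h1 : S ⊆ K)
    (h2 : ∀ g ∈ S, D g ∈ K) : ∀ g ∈ Ideal.span S, D g ∈ K := by
  intro g hg
  have h3 : g ∈ K ∧ D g ∈ K := by
    refine Submodule.span_induction (p := fun x _ => x ∈ K ∧ D x ∈ K) ?_ ?_ ?_ ?_ hg
    · intro x hx
      exact ⟨h1 hx, h2 x hx⟩
    · exact ⟨K.zero_mem, by rw [map_zero]; exact K.zero_mem⟩
    · rintro x y - - ⟨hx1, hx2⟩ ⟨hy1, hy2⟩
      exact ⟨K.add_mem hx1 hy1, by rw [map_add]; exact K.add_mem hx2 hy2⟩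
    · rintro a x - ⟨hx1, hx2⟩
      refine ⟨K.mul_mem_left a hx1, ?_⟩
      rw [smul_eq_mul, Derivation.leibniz]
      exact K.add_mem (K.mul_mem_left _ hx2) (K.mul_mem_right _ hx1)
  exact h3.2

lemma der_pow (D : Derivation ℂ (MvPolynomial ι ℂ) (MvPolynomial ι ℂ))
    (I : Ideal (MvPolynomial ι ℂ)) (m : ℕ) : ∀ g ∈ I ^ (m + 1), D g ∈ I ^ m := by
  induction m with
  | zero => intro g _; simp
  | succ m ih =>
    intro g hg
    rw [pow_succ] at hg
    refine Submodule.mul_induction_on hg ?_ ?_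
    · intro a ha b hb
      rw [Derivation.leibniz, smul_eq_mul, smul_eq_mul]
      refine Ideal.add_mem _ (Ideal.mul_mem_right _ _ ha) ?_
      rw [pow_succ, mul_comm b]
      exact Ideal.mul_mem_mul (ih a ha) hb
    · intro a b ha hb
      rw [map_add]
      exact Ideal.add_mem _ ha hb

/-- the ideal generated by the derivatives of order less than `j` -/
noncomputable def JJ (q : ι → ℂ) (G : MvPolynomial ι ℂ) (j : ℕ) : Ideal (MvPolynomial ι ℂ) :=
  Ideal.span {h | ∃ L : List ι, L.length < j ∧ h = tau q (pdL L G)}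

lemma JJ_mono (q : ι → ℂ) (G : MvPolynomial ι ℂ) (j : ℕ) : JJ q G j ≤ JJ q G (j + 1) := by
  refine Ideal.span_mono ?_
  rintro h ⟨L, hL, rfl⟩
  exact ⟨L, by omega, rfl⟩

lemma words (hD : Stmt_DER9) (f : MvPolynomial ι ℂ) (Z : Finset ι) (q : ι → ℂ)
    {G : MvPolynomial ι ℂ} (h : off Z G) (L : List ι) :
    wdg f Z L (tau q G) - dt f Z ^ L.length * tau q (pdL L G) ∈ JJ q G L.length := by
  induction L with
  | nil =>
    have : wdg f Z [] (tau q G) - dt f Z ^ ([] : List ι).length * tau q (pdL [] G) = 0 := by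
      simp [wdg, pdL]
    rw [this]
    exact Ideal.zero_mem _
  | cons b L ih =>
    set r := wdg f Z L (tau q G) - dt f Z ^ L.length * tau q (pdL L G) with hr
    have e : wdg f Z (b :: L) (tau q G) = dl f Z b (dt f Z ^ L.length * tau q (pdL L G) + r) := by
      show dl f Z b (wdg f Z L (tau q G)) = _
      rw [hr]
      congr 1
      ring
    have e2 : dl f Z b (dt f Z ^ L.length * tau q (pdL L G)) =
        dt f Z ^ (L.length + 1) * tau q (pdL (b :: L) G) +
          tau q (pdL L G) * dl f Z b (dt f Z ^ L.length) := by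
      rw [Derivation.leibniz, chain9 hD f Z q (off_pdL h L) b]
      simp only [smul_eq_mul]
      show dt f Z ^ L.length * (dt f Z * tau q (pderiv b (pdL L G))) + _ =
        dt f Z ^ (L.length + 1) * tau q (pderiv b (pdL L G)) + _
      ring
    rw [e, map_add, e2, List.length_cons]
    have e3 : dt f Z ^ (L.length + 1) * tau q (pdL (b :: L) G) +
        tau q (pdL L G) * dl f Z b (dt f Z ^ L.length) + dl f Z b r -
        dt f Z ^ (L.length + 1) * tau q (pdL (b :: L) G) =
        tau q (pdL L G) * dl f Z b (dt f Z ^ L.length) + dl f Z b r := by ring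
    rw [e3]
    refine Ideal.add_mem _ (Ideal.mul_mem_right _ _ (Ideal.subset_span ⟨L, by omega, rfl⟩)) ?_
    refine der_span (dl f Z b) _ (JJ q G (L.length + 1)) ?_ ?_ r ih
    · rintro x ⟨L', hL', rfl⟩
      exact Ideal.subset_span ⟨L', by omega, rfl⟩
    · rintro x ⟨L', hL', rfl⟩
      rw [chain9 hD f Z q (off_pdL h L') b]
      refine Ideal.mul_mem_left _ _ (Ideal.subset_span ⟨b :: L', ?_, rfl⟩)
      rw [List.length_cons]
      omega

lemma const_of_pderiv {G : MvPolynomial ι ℂ} (h : ∀ b, pderiv b G = 0) : G = C (coeff 0 G) := by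
  ext d
  rw [coeff_C]
  split_ifs with hd
  · rw [hd]
  · obtain ⟨a, ha⟩ := Finsupp.ne_iff.1 (fun h' : d = 0 => hd h'.symm)
    rw [Finsupp.zero_apply] at ha
    have h1 := congrArg (coeff (d - Finsupp.single a 1)) (h a)
    rw [coeff_pderiv, coeff_zero] at h1
    have h2 : d - Finsupp.single a 1 + Finsupp.single a 1 = d := by
      ext i
      rw [Finsupp.add_apply, Finsupp.tsub_apply]
      by_cases hi : i = a
      · subst hi
        rw [Finsupp.single_eq_same]
        omega
      · rw [Finsupp.single_eq_of_ne hi]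
        omega
    rw [h2] at h1
    rcases mul_eq_zero.1 h1 with h3 | h3
    · exact h3
    · exfalso
      exact Nat.cast_add_one_ne_zero _ h3

lemma zero_of_derivs (q : ι → ℂ) (N : ℕ) : ∀ G : MvPolynomial ι ℂ,
    (∀ d ∈ G.support, Finsupp.degree d < N) →
    (∀ L : List ι, L.length < N → eval q (tau q (pdL L G)) = 0) → G = 0 := by
  induction N with
  | zero =>
    intro G h1 _
    rw [← support_eq_empty]
    by_contra h
    obtain ⟨d, hd⟩ := Finset.nonempty_iff_ne_empty.2 h
    exact absurd (h1 d hd) (by omega)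
  | succ N ih =>
    intro G h1 h2
    have h3 : ∀ b, pderiv b G = 0 := by
      intro b
      refine ih _ ?_ ?_
      · intro d hd
        rw [mem_support_iff, coeff_pderiv] at hd
        have h4 : d + Finsupp.single b 1 ∈ G.support := by
          rw [mem_support_iff]
          exact fun h' => hd (by rw [h', zero_mul])
        have h5 := h1 _ h4
        rw [map_add, Finsupp.degree_single] at h5
        omega
      · intro L hL
        have h4 := h2 (L ++ [b]) (by rw [List.length_append]; simpa using hL)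
        have h5 : pdL (L ++ [b]) G = pdL L (pderiv b G) := by
          unfold pdL
          rw [List.foldr_append]
          rfl
        rwa [h5] at h4
    have h4 := const_of_pderiv h3
    have h5 := h2 [] (by simp)
    have h6 : eval q (tau q (pdL [] G)) = coeff 0 G := by
      show eval q (tau q G) = coeff 0 G
      rw [h4]
      simp [tau]
    rw [h6] at h5
    rw [h4, h5, map_zero]

lemma inf (hD : Stmt_DER9) (hR : Stmt_RED9) (f : MvPolynomial ι ℂ) (Z : Finset ι) (q : ι → ℂ)
    (h0 : ∀ z ∈ Z, eval q (pderiv z f) = 0) (hd : eval q (dt f Z) ≠ 0)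
    (hw : ∀ L : List ι, eval q (wd f Z L) = 0) (N : ℕ) : f ∈ Zi f Z ⊔ mI q ^ N := by
  obtain ⟨G, hG, hfG⟩ := hR ι f Z q h0 hd N f
  obtain ⟨-, -, -, d4, -, -⟩ := hD ι f Z
  have hoff : off Z G := fun d hd' => (hG d hd').1
  have hZm : Zi f Z ≤ mI q := by
    unfold Zi
    rw [Ideal.span_le]
    rintro _ ⟨z, hz, rfl⟩
    exact (mem_mI q _).2 (h0 z hz)
  set r := f - tau q G with hr
  have hr' : r ∈ Zi f Z ⊔ mI q ^ N := hfG
  have hwr : ∀ L : List ι, ∀ j, L.length + j ≤ N → wdg f Z L r ∈ Zi f Z ⊔ mI q ^ j := by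
    intro L
    induction L with
    | nil =>
      intro j hj
      have hle : Zi f Z ⊔ mI q ^ N ≤ Zi f Z ⊔ mI q ^ j :=
        sup_le_sup_left (Ideal.pow_le_pow_right (by simpa using hj)) _
      exact hle hr'
    | cons b L ih =>
      intro j hj
      rw [List.length_cons] at hj
      have h1 := ih (j + 1) (by omega)
      obtain ⟨u, hu, v, hv, huv⟩ := Submodule.mem_sup.1 h1
      show dl f Z b (wdg f Z L r) ∈ _
      rw [← huv, map_add]
      exact Ideal.add_mem _ (Ideal.mem_sup_left (d4 b u hu))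
        (Ideal.mem_sup_right (der_pow (dl f Z b) (mI q) j v hv))
  have hval : ∀ k : ℕ, ∀ L : List ι, L.length = k → k < N → eval q (tau q (pdL L G)) = 0 := by
    intro k
    induction k using Nat.strong_induction_on with
    | _ k ih =>
      intro L hL hk
      have h1 := words hD f Z q hoff L
      have h2 : JJ q G L.length ≤ mI q := by
        unfold JJ
        rw [Ideal.span_le]
        rintro x ⟨L', hL', rfl⟩
        exact (mem_mI q _).2 (ih L'.length (by omega) L' rfl (by omega))
      have h3 := (mem_mI q _).1 (h2 h1)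
      have h4 : wdg f Z L r ∈ mI q := by
        have := hwr L 1 (by omega)
        rw [pow_one] at this
        exact sup_le hZm le_rfl this
      have h5 := (mem_mI q _).1 h4
      have h6 : wd f Z L = wdg f Z L (tau q G) + wdg f Z L r := by
        rw [← wdg_add, hr]
        have : tau q G + (f - tau q G) = f := by ring
        rw [this]
        rfl
      have h7 := hw L
      rw [h6, map_add, h5, add_zero] at h7
      rw [map_sub, h7, zero_sub, neg_eq_zero, map_mul, map_pow] at h3
      rcases mul_eq_zero.1 h3 with h8 | h8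
      · exact absurd h8 (pow_ne_zero _ hd)
      · exact h8
  have hG0 : G = 0 := zero_of_derivs q N G (fun d hd' => (hG d hd').2)
    fun L hL => hval L.length L rfl hL
  have : r = f := by rw [hr, hG0, map_zero, sub_zero]
  rw [← this] at hr' ⊢
  exact hr'

lemma krull (f : MvPolynomial ι ℂ) (Z : Finset ι) (q : ι → ℂ)
    (h : ∀ N, f ∈ Zi f Z ⊔ mI q ^ N) : ∃ s : MvPolynomial ι ℂ, eval q s ≠ 0 ∧ s * f ∈ Zi f Z := by
  have h1 : (Ideal.Quotient.mk (Zi f Z) f : MvPolynomial ι ℂ ⧸ Zi f Z) ∈
      (⨅ i : ℕ, mI q ^ i • ⊤ : Submodule (MvPolynomial ι ℂ) (MvPolynomial ι ℂ ⧸ Zi f Z)) := by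
    rw [Submodule.mem_iInf]
    intro N
    obtain ⟨u, hu, v, hv, huv⟩ := Submodule.mem_sup.1 (h N)
    have e : (Ideal.Quotient.mk (Zi f Z) f : MvPolynomial ι ℂ ⧸ Zi f Z) =
        v • (1 : MvPolynomial ι ℂ ⧸ Zi f Z) := by
      have e1 : v • (1 : MvPolynomial ι ℂ ⧸ Zi f Z) = Ideal.Quotient.mk (Zi f Z) v := by
        change Ideal.Quotient.mk (Zi f Z) (v • 1) = _
        rw [smul_eq_mul, mul_one]
      have hfu : f - v = u := by linear_combination (-1 : MvPolynomial ι ℂ) * huv
      rw [e1, Ideal.Quotient.eq, hfu]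
      exact hu
    rw [e]
    exact Submodule.smul_mem_smul hv Submodule.mem_top
  obtain ⟨⟨r, hr⟩, h2⟩ := (Ideal.mem_iInf_smul_pow_eq_bot_iff (mI q) _).1 h1
  refine ⟨1 - r, ?_, ?_⟩
  · rw [map_sub, map_one, (mem_mI q r).1 hr, sub_zero]
    exact one_ne_zero
  · rw [← Ideal.Quotient.eq_zero_iff_mem]
    have e1 : (r : MvPolynomial ι ℂ) • (Ideal.Quotient.mk (Zi f Z) f) =
        Ideal.Quotient.mk (Zi f Z) (r * f) := rfl
    have h3 : Ideal.Quotient.mk (Zi f Z) (r * f) = Ideal.Quotient.mk (Zi f Z) f := by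
      rw [← e1]; exact h2
    rw [sub_mul, one_mul, map_sub, h3, sub_self]

lemma square (f : MvPolynomial ι ℂ) (Z : Finset ι) (q : ι → ℂ) (hd : eval q (dt f Z) ≠ 0)
    (s : MvPolynomial ι ℂ) (hs : eval q s ≠ 0) (h : s * f ∈ Zi f Z) :
    ∃ s : MvPolynomial ι ℂ, eval q s ≠ 0 ∧ s * f ∈ Zi f Z ^ 2 := by
  obtain ⟨g, hg⟩ := (Submodule.mem_span_image_finset_iff_exists_fun (MvPolynomial ι ℂ)).1 h
  simp only [smul_eq_mul] at hg
  have hg' : s * f = ∑ z : Z, g z * pderiv (z : ι) f := hg.symm
  have hz : ∀ z : Z, pderiv (z : ι) f ∈ Zi f Z := fun z => Ideal.subset_span ⟨z, z.2, rfl⟩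
  -- derivatives of the relation
  have h1 : ∀ z' : Z, ∑ z : Z, (s * g z) * HM f Z z' z ∈ Zi f Z := by
    intro z'
    have h2 : s * pderiv (z' : ι) (s * f) =
        s * pderiv (z' : ι) (∑ z : Z, g z * pderiv (z : ι) f) :=
      congrArg (fun x => s * pderiv (z' : ι) x) hg'
    rw [Derivation.leibniz, map_sum] at h2
    simp only [Derivation.leibniz, smul_eq_mul] at h2
    have h3 : ∑ z : Z, (s * g z) * HM f Z z' z =
        s * (s * pderiv (z' : ι) f) + pderiv (z' : ι) s * (s * f) -
          s * ∑ z : Z, pderiv (z : ι) f * pderiv (z' : ι) (g z) := by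
      have h4 : s * ∑ z : Z, (g z * pderiv (z' : ι) (pderiv (z : ι) f) +
          pderiv (z : ι) f * pderiv (z' : ι) (g z)) =
          ∑ z : Z, (s * g z) * HM f Z z' z +
          s * ∑ z : Z, pderiv (z : ι) f * pderiv (z' : ι) (g z) := by
        rw [Finset.sum_add_distrib, mul_add, Finset.mul_sum]
        congr 1
        refine Finset.sum_congr rfl fun z _ => ?_
        simp only [HM, Matrix.of_apply]
        ring
      rw [h4] at h2
      linear_combination -h2
    rw [h3]
    refine Ideal.sub_mem _ (Ideal.add_mem _ ?_ ?_) ?_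
    · exact Ideal.mul_mem_left _ _ (Ideal.mul_mem_left _ _ (hz z'))
    · exact Ideal.mul_mem_left _ _ h
    · refine Ideal.mul_mem_left _ _ (Ideal.sum_mem _ fun z _ => ?_)
      exact Ideal.mul_mem_right _ _ (hz z)
  have h5 : ∀ z : Z, s * g z * dt f Z ∈ Zi f Z := by
    intro z
    have e : s * g z * dt f Z =
        ∑ z' : Z, (HM f Z).adjugate z z' * ∑ z'' : Z, (s * g z'') * HM f Z z' z'' := by
      have e1 : ∀ z' : Z, (HM f Z).adjugate z z' * ∑ z'' : Z, (s * g z'') * HM f Z z' z'' =
          ∑ z'' : Z, ((HM f Z).adjugate z z' * HM f Z z' z'') * (s * g z'') := by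
        intro z'
        rw [Finset.mul_sum]
        refine Finset.sum_congr rfl fun z'' _ => ?_
        ring
      rw [Finset.sum_congr rfl fun z' _ => e1 z', Finset.sum_comm]
      have e2 : ∀ z'' : Z, ∑ z' : Z, ((HM f Z).adjugate z z' * HM f Z z' z'') * (s * g z'') =
          if z = z'' then dt f Z * (s * g z) else 0 := by
        intro z''
        rw [← Finset.sum_mul, ← Matrix.mul_apply, Matrix.adjugate_mul, Matrix.smul_apply,
          Matrix.one_apply]
        by_cases hzz : z = z''
        · subst hzz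
          simp [dt]
        · simp [hzz]
      rw [Finset.sum_congr rfl fun z'' _ => e2 z'']
      simp
      ring
    rw [e]
    exact Ideal.sum_mem _ fun z' _ => Ideal.mul_mem_left _ _ (h1 z')
  refine ⟨s * dt f Z * s, ?_, ?_⟩
  · rw [map_mul, map_mul]
    exact mul_ne_zero (mul_ne_zero hs hd) hs
  · rw [mul_assoc, hg', Finset.mul_sum, pow_two]
    refine Ideal.sum_mem _ fun z _ => ?_
    have e : s * dt f Z * (g z * pderiv (z : ι) f) = (s * g z * dt f Z) * pderiv (z : ι) f := by
      ring
    rw [e]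
    exact Ideal.mul_mem_mul (h5 z) (hz z)

end GSB9Aux

open GSB9Aux in
theorem stmt_GSB9 (hD : Stmt_DER9) (hR : Stmt_RED9) : Stmt_GSB9 := by
  intro ι _ _ f Z q h0 hd hw
  obtain ⟨s, hs, h1⟩ := krull f Z q (inf hD hR f Z q h0 hd hw)
  exact square f Z q hd s hs h1

end Pool.Agent.Mono.C9
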