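import Pool.Agent.Work.Monodromy.Interface9

/-!
# Phase 9, block GSC9: generic points of finite order (helper54)
-/

set_option autoImplicit false

namespace Pool.Agent.Mono.C9

open MvPolynomial TS RO SP PC

namespace GSC9Aux

section

variable {R : Type} [CommRing R]

/-- the elements which are in `J` after multiplication by an element not in `I` -/
def sat (I : Ideal R) [hI : I.IsPrime] (J : Ideal R) : Ideal R where
  carrier := {g | ∃ s, s ∉ I ∧ s * g ∈ J}
  add_mem' := by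
    rintro a b ⟨s, hs, ha⟩ ⟨t, ht, hb⟩
    refine ⟨s * t, fun h => (hI.mem_or_mem h).elim hs ht, ?_⟩
    have : s * t * (a + b) = t * (s * a) + s * (t * b) := by ring
    rw [this]
    exact J.add_mem (J.mul_mem_left _ ha) (J.mul_mem_left _ hb)
  zero_mem' := ⟨1, fun h => hI.ne_top ((Ideal.eq_top_iff_one I).2 h), by simp⟩
  smul_mem' := by
    rintro c a ⟨s, hs, ha⟩
    refine ⟨s, hs, ?_⟩
    have : s * (c • a) = c * (s * a) := by rw [smul_eq_mul]; ring
    rw [this]
    exact J.mul_mem_left _ ha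

variable {I : Ideal R} [hI : I.IsPrime] {J : Ideal R}

theorem mem_sat {g : R} : g ∈ sat I J ↔ ∃ s, s ∉ I ∧ s * g ∈ J := Iff.rfl

theorem le_sat : J ≤ sat I J := fun g hg =>
  ⟨1, fun h => hI.ne_top ((Ideal.eq_top_iff_one I).2 h), by simpa using hg⟩

theorem sat_cancel {t x : R} (ht : t ∉ I) (h : t * x ∈ sat I J) : x ∈ sat I J := by
  obtain ⟨s, hs, h1⟩ := h
  exact ⟨s * t, fun h => (hI.mem_or_mem h).elim hs ht, by rwa [mul_assoc]⟩

theorem sat_mono {J' : Ideal R} (h : J ≤ J') : sat I J ≤ sat I J' := by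
  rintro g ⟨s, hs, h1⟩
  exact ⟨s, hs, h h1⟩

theorem sat_le (h : J ≤ I) : sat I J ≤ I := by
  rintro g ⟨s, hs, h1⟩
  exact (hI.mem_or_mem (h h1)).resolve_left hs

/-- the elements whose derivatives of order `≤ k` are in `I` -/
def Ord {A : Type} [CommRing A] [Algebra ℂ A] (D : Derivation ℂ A A) (I : Ideal A) :
    ℕ → Ideal A
  | 0 => I
  | k + 1 =>
    { carrier := {x | x ∈ Ord D I k ∧ D x ∈ Ord D I k}
      add_mem' := by
        rintro a b ⟨ha, ha'⟩ ⟨hb, hb'⟩
        exact ⟨Ideal.add_mem _ ha hb, by rw [map_add]; exact Ideal.add_mem _ ha' hb'⟩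
      zero_mem' := ⟨Ideal.zero_mem _, by rw [map_zero]; exact Ideal.zero_mem _⟩
      smul_mem' := by
        rintro c a ⟨ha, ha'⟩
        refine ⟨Ideal.mul_mem_left _ _ ha, ?_⟩
        rw [smul_eq_mul, Derivation.leibniz]
        exact Ideal.add_mem _ (Ideal.mul_mem_left _ _ ha')
          (by rw [smul_eq_mul, mul_comm]; exact Ideal.mul_mem_left _ _ ha) }

end

section

variable {A : Type} [CommRing A] [Algebra ℂ A] {D : Derivation ℂ A A} {I : Ideal A}

theorem mem_Ord_succ {k : ℕ} {x : A} :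
    x ∈ Ord D I (k + 1) ↔ x ∈ Ord D I k ∧ D x ∈ Ord D I k := Iff.rfl

theorem le_Ord {J : Ideal A} (h : J ≤ I) (hD : ∀ x ∈ J, D x ∈ J) (k : ℕ) : J ≤ Ord D I k := by
  induction k with
  | zero => exact h
  | succ k ih => exact fun x hx => ⟨ih hx, ih (hD x hx)⟩

/-- derivations and powers -/
theorem der_pow (k : ℕ) : ∀ x ∈ I ^ (k + 1), D x ∈ I ^ k := by
  induction k with
  | zero => intro x _; simp
  | succ k ih =>
    intro x hx
    rw [pow_succ] at hx
    refine Submodule.mul_induction_on hx ?_ ?_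
    · intro a ha b hb
      rw [Derivation.leibniz, smul_eq_mul, smul_eq_mul]
      apply Ideal.add_mem
      · exact Ideal.mul_mem_right _ _ ha
      · rw [mul_comm, pow_succ]
        exact Ideal.mul_mem_mul (ih a ha) hb
    · intro a b ha hb
      rw [map_add]
      exact Ideal.add_mem _ ha hb

theorem pow_le_Ord (k : ℕ) : I ^ (k + 1) ≤ Ord D I k := by
  induction k with
  | zero => rw [zero_add, pow_one]; exact le_refl _
  | succ k ih =>
    intro x hx
    exact ⟨ih (Ideal.pow_le_pow_right (by omega) hx), ih (der_pow _ x hx)⟩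

theorem lead [hI : I.IsPrime] {h : A} (hh : h ∈ I) (hD : D h ∉ I) (k : ℕ) :
    ∀ g, g * h ^ k ∈ Ord D I k → g ∈ I := by
  induction k with
  | zero =>
    intro g hg
    rw [pow_zero, mul_one] at hg
    exact hg
  | succ k ih =>
    intro g hg
    have h1 := hg.2
    rw [Derivation.leibniz, Derivation.leibniz_pow, smul_eq_mul, smul_eq_mul, smul_eq_mul,
      nsmul_eq_mul] at h1
    have h2 : h ^ (k + 1) * D g ∈ Ord D I k :=
      Ideal.mul_mem_right _ _ (pow_le_Ord k (Ideal.pow_mem_pow hh _))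
    have h3 := (Ideal.add_mem_iff_left _ h2).1 h1
    have h4 : g * (((k + 1 : ℕ) : A) * (h ^ (k + 1 - 1) * D h)) =
        algebraMap ℂ A ((k + 1 : ℕ) : ℂ) * (g * D h * h ^ k) := by
      rw [map_natCast, Nat.add_sub_cancel]; ring
    rw [h4] at h3
    have h5 : g * D h * h ^ k ∈ Ord D I k := by
      have h6 := Ideal.mul_mem_left (Ord D I k) (algebraMap ℂ A (((k + 1 : ℕ) : ℂ)⁻¹)) h3
      have h7 : algebraMap ℂ A (((k + 1 : ℕ) : ℂ)⁻¹) * (algebraMap ℂ A ((k + 1 : ℕ) : ℂ) *
          (g * D h * h ^ k)) = g * D h * h ^ k := by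
        rw [← mul_assoc, ← map_mul, inv_mul_cancel₀ (by exact_mod_cast Nat.succ_ne_zero k),
          map_one, one_mul]
      rwa [h7] at h6
    exact (hI.mem_or_mem (ih _ h5)).resolve_right hD

/-- derivations and saturation -/
theorem sat_der [hI : I.IsPrime] {J J' : Ideal A} (hJ : J ≤ J') (hD : ∀ x ∈ J, D x ∈ J') :
    ∀ x ∈ sat I J, D x ∈ sat I J' := by
  rintro x ⟨s, hs, h1⟩
  refine ⟨s * s, fun h => (hI.mem_or_mem h).elim hs hs, ?_⟩
  have h2 := hD _ h1
  rw [Derivation.leibniz, smul_eq_mul, smul_eq_mul] at h2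
  have h3 : s * s * D x = s * (s * D x + x * D s) - D s * (s * x) := by ring
  rw [h3]
  exact Ideal.sub_mem _ (Ideal.mul_mem_left _ _ h2) (Ideal.mul_mem_left _ _ (hJ h1))

end

section

variable {ι : Type} [DecidableEq ι]

theorem main (f : MvPolynomial ι ℂ) (Z : Finset ι) (I : Ideal (MvPolynomial ι ℂ))
    [hI : I.IsPrime] (hZ : ∀ z ∈ Z, pderiv z f ∈ I) (hdt : dt f Z ∉ I) (b : ι) (L : List ι)
    (hstab : ∀ b, ∀ g ∈ Zi f Z, dl f Z b g ∈ Zi f Z)
    (hw : ∀ L' : List ι, L'.length ≤ L.length → wd f Z L' ∈ I) (hb : wd f Z (b :: L) ∉ I)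
    (hs : ∃ s, s ∉ I ∧ ∀ g ∈ I, s * g ∈ Zi f Z ⊔ Ideal.span {wd f Z L}) :
      ∃ s w, s ∉ I ∧ w ∉ I ∧ s * f - w * wd f Z L ^ (L.length + 1) ∈
        Zi f Z ^ 2 ⊔ Zi f Z * Ideal.span {wd f Z L ^ L.length} := by
  classical
  set h := wd f Z L with hh
  set ζ := Zi f Z with hζ
  have hζI : ζ ≤ I := by
    rw [hζ, Zi, Ideal.span_le]
    rintro _ ⟨z, hz, rfl⟩
    exact hZ z hz
  have hhI : h ∈ I := hw L le_rfl
  have hDh : dl f Z b h ∉ I := hb
  obtain ⟨s1, hs1, hs1'⟩ := hs
  -- the words are of high order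
  have hord : ∀ (k : ℕ) (L' : List ι), L'.length + k ≤ L.length → wd f Z L' ∈ Ord (dl f Z b) I k := by
    intro k
    induction k with
    | zero => intro L' hL'; exact hw L' (by omega)
    | succ k ih =>
      intro L' hL'
      exact ⟨ih L' (by omega), ih (b :: L') (by rw [List.length_cons]; omega)⟩
  have hζord : ∀ k, ζ ≤ Ord (dl f Z b) I k := le_Ord hζI (hstab b)
  have hup : ∀ (k : ℕ) (s a g : MvPolynomial ι ℂ), s ∉ I → a ∈ ζ → g ∈ I →
      s * f = a + g * h ^ k → f ∈ sat I (ζ ⊔ Ideal.span {h ^ (k + 1)}) := by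
    intro k s a g hs ha hg e
    have h1 := hs1' g hg
    obtain ⟨a', ha', y, hy, hay⟩ := Submodule.mem_sup.1 h1
    obtain ⟨c, rfl⟩ := Ideal.mem_span_singleton'.1 hy
    refine ⟨s1 * s, fun h => (hI.mem_or_mem h).elim hs1 hs, ?_⟩
    have h2 : s1 * s * f = (s1 * a + a' * h ^ k) + c * h ^ (k + 1) := by
      rw [mul_assoc, e]
      have : s1 * (a + g * h ^ k) = s1 * a + (s1 * g) * h ^ k := by ring
      rw [this, ← hay]; ring
    rw [h2]
    exact Submodule.add_mem_sup (Ideal.add_mem _ (Ideal.mul_mem_left _ _ ha)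
      (Ideal.mul_mem_right _ _ ha')) (Ideal.mem_span_singleton'.2 ⟨c, rfl⟩)
  -- A
  have hA : ∀ k, k ≤ L.length → f ∈ sat I (ζ ⊔ Ideal.span {h ^ (k + 1)}) := by
    intro k
    induction k with
    | zero =>
      intro _
      have hf : f ∈ I := hw [] (by simp)
      refine ⟨s1, hs1, ?_⟩
      rw [zero_add, pow_one]
      exact hs1' f hf
    | succ k ih =>
      intro hk
      obtain ⟨s, hs, h1⟩ := ih (by omega)
      obtain ⟨a, ha, y, hy, hay⟩ := Submodule.mem_sup.1 h1
      obtain ⟨g, rfl⟩ := Ideal.mem_span_singleton'.1 hy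
      have h2 : g * h ^ (k + 1) ∈ Ord (dl f Z b) I (k + 1) := by
        have : g * h ^ (k + 1) = s * f - a := by rw [← hay]; ring
        rw [this]
        exact Ideal.sub_mem _ (Ideal.mul_mem_left _ _
          (hord (k + 1) [] (by simpa using hk))) (hζord _ ha)
      exact hup (k + 1) s a g hs ha (lead hhI hDh _ g h2) hay.symm
  obtain ⟨s, hs, h1⟩ := hA L.length le_rfl
  obtain ⟨a, ha, y, hy, hay⟩ := Submodule.mem_sup.1 h1
  obtain ⟨w, rfl⟩ := Ideal.mem_span_singleton'.1 hy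
  -- derivations lower the order by one
  have hlow : ∀ (D : Derivation ℂ (MvPolynomial ι ℂ) (MvPolynomial ι ℂ)), (∀ g ∈ ζ, D g ∈ ζ) →
      ∀ k, ∀ x ∈ sat I (ζ ⊔ Ideal.span {h ^ (k + 1)}), D x ∈ sat I (ζ ⊔ Ideal.span {h ^ k}) := by
    intro D hD k
    have hle : ζ ⊔ Ideal.span {h ^ (k + 1)} ≤ ζ ⊔ Ideal.span {h ^ k} := by
      apply sup_le_sup_left
      rw [Ideal.span_singleton_le_span_singleton]
      exact pow_dvd_pow _ (by omega)
    apply sat_der hle
    intro x hx
    obtain ⟨a, ha, y, hy, rfl⟩ := Submodule.mem_sup.1 hx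
    obtain ⟨g, rfl⟩ := Ideal.mem_span_singleton'.1 hy
    rw [map_add, Derivation.leibniz, Derivation.leibniz_pow, smul_eq_mul, smul_eq_mul,
      smul_eq_mul, nsmul_eq_mul]
    apply Submodule.add_mem_sup (hD a ha)
    rw [Ideal.mem_span_singleton', Nat.add_sub_cancel]
    exact ⟨g * ((k + 1 : ℕ) * D h) + h * D g, by rw [pow_succ]; ring⟩
  -- B
  have hwI : w ∉ I := by
    intro hwI
    have h2 := hup (L.length + 1) s a w hs ha hwI hay.symm
    have h3 : ∀ (n : ℕ) (L' : List ι), L'.length = n → n ≤ L.length + 2 →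
        wd f Z L' ∈ sat I (ζ ⊔ Ideal.span {h ^ (L.length + 2 - n)}) := by
      intro n
      induction n with
      | zero =>
        intro L' hL' _
        rw [List.length_eq_zero_iff] at hL'
        subst hL'
        exact h2
      | succ n ih =>
        intro L' hL' hn
        obtain ⟨c, L'', rfl⟩ : ∃ c L'', L' = c :: L'' := by
          cases L' with
          | nil => simp at hL'
          | cons c L'' => exact ⟨c, L'', rfl⟩
        have h4 := ih L'' (by simpa using hL') (by omega)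
        have h5 : L.length + 2 - n = (L.length + 2 - (n + 1)) + 1 := by omega
        rw [h5] at h4
        exact hlow (dl f Z c) (hstab c) _ _ h4
    have h4 := h3 (L.length + 1) (b :: L) (by simp) (by omega)
    apply hb
    refine sat_le ?_ h4
    rw [show L.length + 2 - (L.length + 1) = 1 by omega, pow_one]
    exact sup_le hζI ((Ideal.span_singleton_le_iff_mem I).2 hhI)
  -- C
  obtain ⟨c, hc⟩ := (Submodule.mem_span_image_finset_iff_exists_fun (MvPolynomial ι ℂ)
    (v := fun a => pderiv a f) (s := Z)).1 (by simpa [hζ, Zi, Ideal.span] using ha)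
  set Q := sat I (ζ ⊔ Ideal.span {h ^ L.length}) with hQ
  have hζQ : ζ ≤ Q := le_sup_left.trans le_sat
  have hhQ : h ^ L.length ∈ Q :=
    le_sat (Submodule.mem_sup_right (Ideal.mem_span_singleton_self _))
  have hfQ : f ∈ Q := by
    have hle : ζ ⊔ Ideal.span {h ^ (L.length + 1)} ≤ ζ ⊔ Ideal.span {h ^ L.length} := by
      apply sup_le_sup_left
      rw [Ideal.span_singleton_le_span_singleton]
      exact pow_dvd_pow _ (by omega)
    exact sat_mono hle ⟨s, hs, h1⟩
  have hz : ∀ z ∈ Z, pderiv z f ∈ ζ := fun z hz => Ideal.subset_span ⟨z, hz, rfl⟩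
  have hH : ∀ z' : Z, ∑ z : Z, HM f Z z' z * c z ∈ Q := by
    intro z'
    have h2 : pderiv (z' : ι) (s * f) = pderiv (z' : ι) (a + w * h ^ (L.length + 1)) := by
      rw [hay]
    rw [← hc, Derivation.leibniz, map_add, map_sum, Derivation.leibniz, Derivation.leibniz_pow,
      Nat.add_sub_cancel] at h2
    simp only [smul_eq_mul, nsmul_eq_mul, Derivation.leibniz] at h2
    rw [Finset.sum_add_distrib] at h2
    have h3 : ∑ z : Z, HM f Z z' z * c z = ∑ z : Z, c z * pderiv (z' : ι) (pderiv (z : ι) f) := by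
      apply Finset.sum_congr rfl
      intro z _
      rw [HM, Matrix.of_apply, mul_comm]
    rw [h3]
    have h4 : ∑ z : Z, c z * pderiv (z' : ι) (pderiv (z : ι) f) =
        s * pderiv (z' : ι) f + pderiv (z' : ι) s * f -
          ∑ z : Z, pderiv (z' : ι) (c z) * pderiv (z : ι) f -
          (w * ((L.length + 1 : ℕ) * pderiv (z' : ι) h) + h * pderiv (z' : ι) w) *
            h ^ L.length := by
      have h5 : ∑ z : Z, pderiv (z : ι) f * pderiv (z' : ι) (c z) =
          ∑ z : Z, pderiv (z' : ι) (c z) * pderiv (z : ι) f :=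
        Finset.sum_congr rfl fun z _ => mul_comm _ _
      rw [h5] at h2
      linear_combination -h2
    rw [h4]
    refine Ideal.sub_mem _ (Ideal.sub_mem _ (Ideal.add_mem _ ?_ ?_) ?_) ?_
    · exact Ideal.mul_mem_left _ _ (hζQ (hz _ z'.2))
    · exact Ideal.mul_mem_left _ _ hfQ
    · exact Ideal.sum_mem _ fun z _ => Ideal.mul_mem_left _ _ (hζQ (hz _ z.2))
    · exact Ideal.mul_mem_left _ _ hhQ
  have hcQ : ∀ z : Z, c z ∈ Q := by
    intro z
    apply sat_cancel hdt
    have h2 : dt f Z * c z = ∑ z' : Z, (HM f Z).adjugate z z' *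
        ∑ z'' : Z, HM f Z z' z'' * c z'' := by
      have h3 : ((HM f Z).adjugate * HM f Z).mulVec c z = dt f Z * c z := by
        rw [Matrix.adjugate_mul]
        simp [Matrix.smul_mulVec, dt]
      rw [← h3, ← Matrix.mulVec_mulVec]
      rfl
    rw [h2]
    exact Ideal.sum_mem _ fun z' _ => Ideal.mul_mem_left _ _ (hH z')
  have haQ : a ∈ sat I (ζ ^ 2 ⊔ ζ * Ideal.span {h ^ L.length}) := by
    rw [← hc]
    apply Ideal.sum_mem
    intro z _
    obtain ⟨t, ht, h2⟩ := hcQ z
    refine ⟨t, ht, ?_⟩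
    rw [smul_eq_mul, ← mul_assoc, pow_two, ← Ideal.mul_sup, mul_comm (t * c z)]
    exact Ideal.mul_mem_mul (hz _ z.2) h2
  obtain ⟨t, ht, h2⟩ := haQ
  refine ⟨t * s, t * w, fun h => (hI.mem_or_mem h).elim ht hs,
    fun h => (hI.mem_or_mem h).elim ht hwI, ?_⟩
  have h3 : t * s * f - t * w * h ^ (L.length + 1) = t * a := by
    rw [mul_assoc, mul_assoc, ← mul_sub, ← hay]; ring
  rw [h3]
  exact h2

end

end GSC9Aux

theorem stmt_GSC9 (hDER : Stmt_DER9) : Stmt_GSC9 := by
  intro ι _ _ f Z I hI hZ hdt b L _ hw hb hs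
  have := hI
  exact GSC9Aux.main f Z I hZ hdt b L (hDER ι f Z).2.2.2.1 hw hb hs

end Pool.Agent.Mono.C9
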