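import Pool.Agent.Work.Monodromy.Interface9

/-!
# Monodromy, phase 9, block INV9: inversion of étale coordinates in families (helper49)
-/

set_option autoImplicit false

namespace Pool.Agent.Mono.C9

open MvPolynomial TS RO SP PC

namespace INV9Aux

variable {ι : Type}

/-- the ideal of the variables `inr` -/
noncomputable def JJ (ι : Type) : Ideal (MvPolynomial (ι ⊕ ι) ℂ) :=
  Ideal.span (Set.range fun a : ι => X (Sum.inr a))

/-- parameters -/
noncomputable def il (g : MvPolynomial ι ℂ) : MvPolynomial (ι ⊕ ι) ℂ := rename Sum.inl g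

lemma X_mem (a : ι) : (X (Sum.inr a) : MvPolynomial (ι ⊕ ι) ℂ) ∈ JJ ι :=
  Ideal.subset_span ⟨a, rfl⟩

/-- a substitution which maps the ideal of the variables to itself -/
lemma map_pw {σ : MvPolynomial (ι ⊕ ι) ℂ →ₐ[ℂ] MvPolynomial (ι ⊕ ι) ℂ}
    (h1 : ∀ a, σ (X (Sum.inr a)) ∈ JJ ι) (k : ℕ) {g : MvPolynomial (ι ⊕ ι) ℂ}
    (hg : g ∈ JJ ι ^ k) : σ g ∈ JJ ι ^ k := by
  have h : (JJ ι).map σ.toRingHom ≤ JJ ι := by
    rw [JJ, Ideal.map_span, Ideal.span_le]
    rintro _ ⟨_, ⟨a, rfl⟩, rfl⟩
    exact h1 a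
  have h2 : (JJ ι ^ k).map σ.toRingHom ≤ JJ ι ^ k := by
    rw [Ideal.map_pow]
    exact Ideal.pow_right_mono h k
  exact h2 (Ideal.mem_map_of_mem _ hg)

lemma sub_mem {σ : MvPolynomial (ι ⊕ ι) ℂ →ₐ[ℂ] MvPolynomial (ι ⊕ ι) ℂ}
    (h0 : ∀ a, σ (X (Sum.inl a)) = X (Sum.inl a))
    (h1 : ∀ a, σ (X (Sum.inr a)) ∈ JJ ι) (g : MvPolynomial (ι ⊕ ι) ℂ) : σ g - g ∈ JJ ι := by
  induction g using MvPolynomial.induction_on with
  | C c => simp [MvPolynomial.algHom_C]
  | add p q hp hq =>
    have : σ (p + q) - (p + q) = (σ p - p) + (σ q - q) := by rw [map_add]; ring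
    rw [this]
    exact Ideal.add_mem _ hp hq
  | mul_X p a hp =>
    have : σ (p * X a) - p * X a = σ (X a) * (σ p - p) + p * (σ (X a) - X a) := by
      rw [map_mul]; ring
    rw [this]
    refine Ideal.add_mem _ (Ideal.mul_mem_left _ _ hp) (Ideal.mul_mem_left _ _ ?_)
    rcases a with a | a
    · rw [h0]; simp
    · exact Ideal.sub_mem _ (h1 a) (X_mem a)

lemma lin {σ : MvPolynomial (ι ⊕ ι) ℂ →ₐ[ℂ] MvPolynomial (ι ⊕ ι) ℂ} {μ : MvPolynomial (ι ⊕ ι) ℂ}
    (h0 : ∀ a, σ (X (Sum.inl a)) = X (Sum.inl a))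
    (h1 : ∀ a, σ (X (Sum.inr a)) ∈ JJ ι)
    (h2 : ∀ a, σ (X (Sum.inr a)) - μ * X (Sum.inr a) ∈ JJ ι ^ 2)
    {g : MvPolynomial (ι ⊕ ι) ℂ} (hg : g ∈ JJ ι) : σ g - μ * g ∈ JJ ι ^ 2 := by
  rw [JJ] at hg
  induction hg using Submodule.span_induction with
  | mem x hx =>
    obtain ⟨a, rfl⟩ := hx
    exact h2 a
  | zero => simp
  | add x y _ _ hx hy =>
    have : σ (x + y) - μ * (x + y) = (σ x - μ * x) + (σ y - μ * y) := by rw [map_add]; ring
    rw [this]
    exact Ideal.add_mem _ hx hy
  | smul c x hx0 hx =>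
    have : σ (c • x) - μ * (c • x) = σ c * (σ x - μ * x) + μ * ((σ c - c) * x) := by
      rw [smul_eq_mul, map_mul]; ring
    rw [this]
    refine Ideal.add_mem _ (Ideal.mul_mem_left _ _ hx) (Ideal.mul_mem_left _ _ ?_)
    rw [pow_two]
    exact Ideal.mul_mem_mul (sub_mem h0 h1 c) hx0

lemma pow_lin {σ : MvPolynomial (ι ⊕ ι) ℂ →ₐ[ℂ] MvPolynomial (ι ⊕ ι) ℂ}
    {μ : MvPolynomial (ι ⊕ ι) ℂ}
    (h0 : ∀ a, σ (X (Sum.inl a)) = X (Sum.inl a))
    (h1 : ∀ a, σ (X (Sum.inr a)) ∈ JJ ι)
    (h2 : ∀ a, σ (X (Sum.inr a)) - μ * X (Sum.inr a) ∈ JJ ι ^ 2) :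
    ∀ (k : ℕ) {g : MvPolynomial (ι ⊕ ι) ℂ}, g ∈ JJ ι ^ k → σ g - μ ^ k * g ∈ JJ ι ^ (k + 1) := by
  intro k
  induction k with
  | zero =>
    intro g _
    simpa using sub_mem h0 h1 g
  | succ k ih =>
    intro g hg
    rw [pow_succ] at hg
    refine Submodule.mul_induction_on hg ?_ ?_
    · intro u hu v hv
      have e : σ (u * v) - μ ^ (k + 1) * (u * v) =
          σ u * (σ v - μ * v) + μ * ((σ u - μ ^ k * u) * v) := by
        rw [map_mul]; ring
      rw [e]
      refine Ideal.add_mem _ ?_ (Ideal.mul_mem_left _ _ ?_)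
      · have := Ideal.mul_mem_mul (map_pw h1 k hu) (lin h0 h1 h2 hv)
        rwa [← pow_add] at this
      · have := Ideal.mul_mem_mul (ih hu) hv
        rwa [← pow_succ] at this
    · intro x y hx hy
      have e : σ (x + y) - μ ^ (k + 1) * (x + y) =
          (σ x - μ ^ (k + 1) * x) + (σ y - μ ^ (k + 1) * y) := by rw [map_add]; ring
      rw [e]
      exact Ideal.add_mem _ hx hy

/-- Taylor expansion of order one -/
lemma taylor [Fintype ι] (h : ι → MvPolynomial (ι ⊕ ι) ℂ) (hh : ∀ a, h a ∈ JJ ι)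
    (P : MvPolynomial ι ℂ) :
    aeval (fun a => X (Sum.inl a) + h a) P - il P - ∑ b, il (pderiv b P) * h b ∈ JJ ι ^ 2 := by
  classical
  induction P using MvPolynomial.induction_on with
  | C c => simp [il, algebraMap_eq]
  | add p q hp hq =>
    have : aeval (fun a => X (Sum.inl a) + h a) (p + q) - il (p + q) -
        ∑ b, il (pderiv b (p + q)) * h b =
        (aeval (fun a => X (Sum.inl a) + h a) p - il p - ∑ b, il (pderiv b p) * h b) +
        (aeval (fun a => X (Sum.inl a) + h a) q - il q - ∑ b, il (pderiv b q) * h b) := by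
      simp only [map_add, il, add_mul, Finset.sum_add_distrib]
      ring
    rw [this]
    exact Ideal.add_mem _ hp hq
  | mul_X p a hp =>
    have e1 : ∑ b, il (pderiv b (p * X a)) * h b =
        (∑ b, il (pderiv b p) * h b) * X (Sum.inl a) + il p * h a := by
      have : ∀ b, il (pderiv b (p * X a)) * h b =
          il (pderiv b p) * h b * X (Sum.inl a) + (if b = a then il p * h b else 0) := by
        intro b
        rw [Derivation.leibniz, pderiv_X]
        simp only [il, smul_eq_mul, map_add, map_mul, rename_X]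
        by_cases hb : b = a
        · subst hb
          simp
          ring
        · rw [if_neg hb, Pi.single_apply]
          first
            | rw [if_neg hb]
            | rw [if_neg (fun h => hb h.symm)]
          simp
          ring
      rw [Finset.sum_congr rfl fun b _ => this b, Finset.sum_add_distrib, Finset.sum_mul]
      simp
    have e2 : aeval (fun a => X (Sum.inl a) + h a) (p * X a) - il (p * X a) -
        ∑ b, il (pderiv b (p * X a)) * h b =
        (X (Sum.inl a) + h a) * (aeval (fun a => X (Sum.inl a) + h a) p - il p -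
          ∑ b, il (pderiv b p) * h b) + ∑ b, il (pderiv b p) * (h b * h a) := by
      rw [e1]
      have : ∑ b, il (pderiv b p) * (h b * h a) = (∑ b, il (pderiv b p) * h b) * h a := by
        rw [Finset.sum_mul]
        exact Finset.sum_congr rfl fun b _ => by ring
      rw [this]
      simp only [map_mul, aeval_X, il, rename_X]
      ring
    rw [e2]
    refine Ideal.add_mem _ (Ideal.mul_mem_left _ _ hp) (Ideal.sum_mem _ fun b _ => ?_)
    refine Ideal.mul_mem_left _ _ ?_
    rw [pow_two]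
    exact Ideal.mul_mem_mul (hh b) (hh a)

variable [Fintype ι] [DecidableEq ι]

/-- the Jacobian matrix -/
noncomputable def DM (Y : ι → MvPolynomial ι ℂ) : Matrix ι ι (MvPolynomial ι ℂ) :=
  Matrix.of fun a b => pderiv b (Y a)

/-- the generic statement -/
lemma generic (Y : ι → MvPolynomial ι ℂ) (k : ℕ) (hk : 2 ≤ k) :
    ∃ (φ : ι → MvPolynomial (ι ⊕ ι) ℂ) (m : ℕ),
      (∀ a, φ a - X (Sum.inl a) - il (DM Y).det ^ m * ∑ b, il ((DM Y).adjugate a b) *
        X (Sum.inr b) ∈ JJ ι ^ 2) ∧
      ∀ a, aeval φ (Y a) - il (Y a) - il (DM Y).det ^ (m + 1) * X (Sum.inr a) ∈ JJ ι ^ k := by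
  induction k, hk using Nat.le_induction with
  | base =>
    refine ⟨fun a => X (Sum.inl a) + ∑ b, il ((DM Y).adjugate a b) * X (Sum.inr b), 0, ?_, ?_⟩
    · intro a
      simp
    · intro a
      have h1 := taylor (fun a => ∑ b, il ((DM Y).adjugate a b) * X (Sum.inr b))
        (fun a => Ideal.sum_mem _ fun b _ => Ideal.mul_mem_left _ _ (X_mem b)) (Y a)
      have e : ∑ b, il (pderiv b (Y a)) * ∑ c, il ((DM Y).adjugate b c) * X (Sum.inr c) =
          il (DM Y).det ^ (0 + 1) * (X (Sum.inr a) : MvPolynomial (ι ⊕ ι) ℂ) := by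
        have h2 : ∀ c, ∑ b, pderiv b (Y a) * (DM Y).adjugate b c =
            if a = c then (DM Y).det else 0 := by
          intro c
          have := congrFun (congrFun (Matrix.mul_adjugate (DM Y)) a) c
          rw [Matrix.mul_apply] at this
          simp only [Matrix.smul_apply, Matrix.one_apply, smul_eq_mul, mul_ite, mul_one,
            mul_zero] at this
          exact this
        simp only [Finset.mul_sum]
        rw [Finset.sum_comm]
        have h3 : ∀ c, ∑ b, il (pderiv b (Y a)) * (il ((DM Y).adjugate b c) *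
            (X (Sum.inr c) : MvPolynomial (ι ⊕ ι) ℂ)) =
            if a = c then il (DM Y).det * X (Sum.inr c) else 0 := by
          intro c
          have : ∑ b, il (pderiv b (Y a)) * (il ((DM Y).adjugate b c) *
              (X (Sum.inr c) : MvPolynomial (ι ⊕ ι) ℂ)) =
              il (∑ b, pderiv b (Y a) * (DM Y).adjugate b c) * X (Sum.inr c) := by
            simp only [il, map_sum, map_mul, Finset.sum_mul]
            exact Finset.sum_congr rfl fun b _ => by ring
          rw [this, h2 c]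
          split_ifs
          · rfl
          · simp [il]
        rw [Finset.sum_congr rfl fun c _ => h3 c]
        simp
      rw [e] at h1
      exact h1
  | succ k hk ih =>
    obtain ⟨φ, m, hφ, hk'⟩ := ih
    set μ : MvPolynomial (ι ⊕ ι) ℂ := il (DM Y).det ^ (m + 1) with hμ
    set Er : ι → MvPolynomial (ι ⊕ ι) ℂ := fun a => aeval φ (Y a) - il (Y a) -
      μ * X (Sum.inr a) with hEr
    have hEk : ∀ a, Er a ∈ JJ ι ^ k := hk'
    let σ : MvPolynomial (ι ⊕ ι) ℂ →ₐ[ℂ] MvPolynomial (ι ⊕ ι) ℂ :=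
      aeval (Sum.elim (fun a => X (Sum.inl a)) fun a => μ * X (Sum.inr a) - μ ^ (k - 1) * Er a)
    have h0 : ∀ a, σ (X (Sum.inl a)) = X (Sum.inl a) := by
      intro a
      simp [σ]
    have hr : ∀ a, σ (X (Sum.inr a)) = μ * X (Sum.inr a) - μ ^ (k - 1) * Er a := by
      intro a
      simp [σ]
    have hE2 : ∀ a, Er a ∈ JJ ι ^ 2 := fun a => Ideal.pow_le_pow_right hk (hEk a)
    have hE1 : ∀ a, Er a ∈ JJ ι := fun a => by
      have := Ideal.pow_le_pow_right (I := JJ ι) (show 1 ≤ k by omega) (hEk a)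
      simpa using this
    have h1 : ∀ a, σ (X (Sum.inr a)) ∈ JJ ι := by
      intro a
      rw [hr]
      exact Ideal.sub_mem _ (Ideal.mul_mem_left _ _ (X_mem a)) (Ideal.mul_mem_left _ _ (hE1 a))
    have h2 : ∀ a, σ (X (Sum.inr a)) - μ * X (Sum.inr a) ∈ JJ ι ^ 2 := by
      intro a
      rw [hr]
      have : μ * X (Sum.inr a) - μ ^ (k - 1) * Er a - μ * X (Sum.inr a) =
        -(μ ^ (k - 1)) * Er a := by ring
      rw [this]
      exact Ideal.mul_mem_left _ _ (hE2 a)
    have hil : ∀ g : MvPolynomial ι ℂ, σ (il g) = il g := by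
      intro g
      have : (σ.comp (rename Sum.inl)) = (rename Sum.inl : MvPolynomial ι ℂ →ₐ[ℂ] _) := by
        apply MvPolynomial.algHom_ext
        intro a
        simp [σ]
      exact congrArg (fun F => F g) (congrArg DFunLike.coe this)
    have hμσ : σ μ = μ := by
      rw [hμ, map_pow, hil]
    refine ⟨fun a => σ (φ a), 2 * m + 1, ?_, ?_⟩
    · intro a
      have e : σ (φ a) - X (Sum.inl a) - il (DM Y).det ^ (2 * m + 1) *
          ∑ b, il ((DM Y).adjugate a b) * X (Sum.inr b) =
          σ (φ a - X (Sum.inl a) - il (DM Y).det ^ m * ∑ b, il ((DM Y).adjugate a b) *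
            X (Sum.inr b)) + il (DM Y).det ^ m * ∑ b, il ((DM Y).adjugate a b) *
              (σ (X (Sum.inr b)) - μ * X (Sum.inr b)) := by
        simp only [map_sub, map_mul, map_pow, map_sum, h0, hil]
        have : ∑ b, il ((DM Y).adjugate a b) *
              (σ (X (Sum.inr b)) - μ * X (Sum.inr b)) =
            ∑ b, il ((DM Y).adjugate a b) * σ (X (Sum.inr b)) -
              μ * ∑ b, il ((DM Y).adjugate a b) * X (Sum.inr b) := by
          rw [Finset.mul_sum, ← Finset.sum_sub_distrib]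
          exact Finset.sum_congr rfl fun b _ => by ring
        rw [this, hμ]
        ring
      rw [e]
      refine Ideal.add_mem _ (map_pw h1 2 (hφ a)) (Ideal.mul_mem_left _ _
        (Ideal.sum_mem _ fun b _ => Ideal.mul_mem_left _ _ (h2 b)))
    · intro a
      have e0 : aeval (fun a => σ (φ a)) (Y a) = σ (aeval φ (Y a)) := by
        have : (σ.comp (aeval φ)) = aeval fun a => σ (φ a) := by
          apply MvPolynomial.algHom_ext
          intro a
          simp
        rw [← this]
        rfl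
      have e1 : aeval φ (Y a) = il (Y a) + μ * X (Sum.inr a) + Er a := by
        rw [hEr]; ring
      have e2 : aeval (fun a => σ (φ a)) (Y a) - il (Y a) -
          il (DM Y).det ^ (2 * m + 1 + 1) * X (Sum.inr a) = σ (Er a) - μ ^ k * Er a := by
        rw [e0, e1]
        simp only [map_add, map_mul, hil, hμσ, hr]
        have hkk : μ ^ k = μ * μ ^ (k - 1) := by
          rw [← pow_succ']
          congr 1
          omega
        rw [hkk, show il (DM Y).det ^ (2 * m + 1 + 1) = μ * μ by rw [hμ]; ring]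
        ring
      rw [e2]
      exact pow_lin h0 h1 h2 k (hEk a)

/-- specialisation -/
noncomputable def spA (q : ι → ℂ) : MvPolynomial (ι ⊕ ι) ℂ →ₐ[ℂ] MvPolynomial ι ℂ :=
  aeval (Sum.elim (fun a => C (q a)) X)

omit [Fintype ι] [DecidableEq ι] in
lemma spA_il (q : ι → ℂ) (g : MvPolynomial ι ℂ) : spA q (il g) = C (eval q g) := by
  induction g using MvPolynomial.induction_on with
  | C c => simp [il, spA]
  | add p q hp hq =>
    have : ∀ g : MvPolynomial ι ℂ, il g = rename Sum.inl g := fun _ => rfl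
    simp only [this, map_add] at *
    rw [hp, hq]
  | mul_X p a hp =>
    have : ∀ g : MvPolynomial ι ℂ, il g = rename Sum.inl g := fun _ => rfl
    simp only [this, map_mul] at *
    rw [hp]
    simp [spA]

omit [Fintype ι] [DecidableEq ι] in
lemma spA_mem (q : ι → ℂ) (k : ℕ) {g : MvPolynomial (ι ⊕ ι) ℂ} (hg : g ∈ JJ ι ^ k) :
    spA q g ∈ mI (fun _ : ι => (0 : ℂ)) ^ k := by
  have h : (JJ ι).map (spA q).toRingHom ≤ mI (fun _ : ι => (0 : ℂ)) := by
    rw [JJ, Ideal.map_span, Ideal.span_le]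
    rintro _ ⟨_, ⟨a, rfl⟩, rfl⟩
    simp [spA, mI, RingHom.mem_ker]
  have h2 : (JJ ι ^ k).map (spA q).toRingHom ≤ mI (fun _ : ι => (0 : ℂ)) ^ k := by
    rw [Ideal.map_pow]
    exact Ideal.pow_right_mono h k
  exact h2 (Ideal.mem_map_of_mem _ hg)

omit [Fintype ι] [DecidableEq ι] in
lemma pderiv_sq (p : ι → ℂ) {g : MvPolynomial ι ℂ} (hg : g ∈ mI p ^ 2) (b : ι) :
    eval p (pderiv b g) = 0 := by
  rw [pow_two] at hg
  refine Submodule.mul_induction_on hg ?_ ?_
  · intro u hu v hv
    rw [mI, RingHom.mem_ker] at hu hv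
    rw [Derivation.leibniz]
    simp [hu, hv]
  · intro x y hx hy
    rw [map_add, map_add, hx, hy, add_zero]

omit [DecidableEq ι] in
lemma pderiv_lin (p : ι → ℂ) (c : ℂ) (v : ι → ℂ) (b : ι) :
    eval p (pderiv b (C c * ∑ x, C (v x) * X x)) = c * v b := by
  classical
  rw [← smul_eq_C_mul, Derivation.map_smul, map_sum, smul_eval, map_sum, Finset.sum_eq_single b]
  · rw [← smul_eq_C_mul, Derivation.map_smul, smul_eval, pderiv_X_self]
    simp
  · intro x _ hx
    rw [← smul_eq_C_mul, Derivation.map_smul, smul_eval, pderiv_X_of_ne hx]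
    simp
  · intro h
    exact absurd (Finset.mem_univ b) h

end INV9Aux

open INV9Aux in
theorem stmt_INV9 : Stmt_INV9 := by
  intro ι _ _ S Y hY k
  obtain ⟨φ, m, h1, h2⟩ := generic Y (max k 2) (le_max_right _ _)
  refine ⟨φ, (DM Y).det ^ (m + 1), ?_⟩
  intro q hq
  have hdet : eval q (DM Y).det ≠ 0 := by
    have := hY q hq
    rw [RingHom.map_det]
    convert this using 2
    rfl
  have hsp : ∀ g : MvPolynomial (ι ⊕ ι) ℂ, sp q g = spA q g := fun _ => rfl
  have hlin : ∀ a, sp q (φ a) - C (q a) - C (eval q (DM Y).det ^ m) *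
      ∑ b, C (eval q ((DM Y).adjugate a b)) * X b ∈ mI (fun _ : ι => (0 : ℂ)) ^ 2 := by
    intro a
    have := spA_mem q 2 (h1 a)
    simp only [map_sub, map_mul, map_pow, map_sum, spA_il] at this
    have e1 : spA q (X (Sum.inl a)) = C (q a) := by simp [spA]
    have e2 : ∀ b : ι, spA q (X (Sum.inr b)) = X b := by intro b; simp [spA]
    simp only [e1, e2] at this
    rw [hsp]
    rw [C_pow]
    exact this
  refine ⟨?_, ⟨?_, ?_⟩, ?_⟩
  · rw [map_pow]
    exact pow_ne_zero _ hdet
  · intro a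
    have h3 := hlin a
    have h4 : sp q (φ a) - C (q a) - C (eval q (DM Y).det ^ m) *
      ∑ b, C (eval q ((DM Y).adjugate a b)) * X b ∈ mI (fun _ : ι => (0 : ℂ)) := by
      have := Ideal.pow_le_pow_right (I := mI (fun _ : ι => (0 : ℂ))) (show 1 ≤ 2 by omega) h3
      simpa using this
    rw [mI, RingHom.mem_ker] at h4
    simp only [map_sub, map_mul, map_sum, eval_C, eval_X, mul_zero, Finset.sum_const_zero,
      sub_zero] at h4
    exact sub_eq_zero.1 h4
  · have e : (Matrix.of fun a b => eval (fun _ => (0 : ℂ)) (pderiv b (sp q (φ a)))) =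
        (eval q (DM Y).det ^ m) • ((DM Y).map (eval q)).adjugate := by
      ext a b
      have h3 := pderiv_sq _ (hlin a) b
      rw [map_sub, map_sub, map_sub, pderiv_C, sub_zero, pderiv_lin, sub_eq_zero] at h3
      rw [Matrix.of_apply, Matrix.smul_apply, smul_eq_mul, h3]
      have h5 : ((DM Y).map (eval q)).adjugate a b = eval q ((DM Y).adjugate a b) := by
        have := RingHom.map_adjugate (eval q) (DM Y)
        have h6 := congrFun (congrFun this a) b
        simpa using h6.symm
      rw [h5]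
    rw [e, Matrix.det_smul]
    refine mul_ne_zero (pow_ne_zero _ (pow_ne_zero _ hdet)) ?_
    rw [Matrix.det_adjugate]
    refine pow_ne_zero _ ?_
    have := RingHom.map_det (eval q) (DM Y)
    rw [this] at hdet
    exact hdet
  · intro a
    have h3 := spA_mem q _ (h2 a)
    have h4 := Ideal.pow_le_pow_right (I := mI (fun _ : ι => (0 : ℂ))) (le_max_left k 2) h3
    have e1 : spA q (aeval φ (Y a)) = bind₁ (fun c => sp q (φ c)) (Y a) := by
      have : ((spA q).comp (aeval φ)) = bind₁ fun c => sp q (φ c) := by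
        apply MvPolynomial.algHom_ext
        intro a
        simp [hsp]
      rw [← this]
      rfl
    simp only [map_sub, map_mul, map_pow, spA_il] at h4
    rw [e1] at h4
    have e2 : ∀ b : ι, spA q (X (Sum.inr b)) = X b := by intro b; simp [spA]
    rw [e2] at h4
    rw [map_pow, C_pow]
    exact h4

end Pool.Agent.Mono.C9
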