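import Pool.Agent.Work.Monodromy.Interface9

/-!
# Block KER9 (helper94): the kernel of the formal parametrisation
-/

set_option autoImplicit false
set_option linter.unusedSectionVars false

namespace Pool.Agent.Mono.C9

open MvPolynomial TS RO SP PC

namespace KER9Aux

/-- the coefficient of `x^i y^j` -/
noncomputable def cf (i j : ℕ) (g : N2) : ℂ := PowerSeries.coeff i (PowerSeries.coeff j g)

theorem cf_add (i j : ℕ) (g h : N2) : cf i j (g + h) = cf i j g + cf i j h := by
  simp [cf]

theorem cf_sum {α : Type} (i j : ℕ) (s : Finset α) (g : α → N2) :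
    cf i j (∑ a ∈ s, g a) = ∑ a ∈ s, cf i j (g a) := by
  simp [cf, map_sum]

theorem cf_cc (i j : ℕ) (c : ℂ) (g : N2) : cf i j (cc c * g) = c * cf i j g := by
  unfold cf cc
  rw [PowerSeries.coeff_C_mul, PowerSeries.coeff_C_mul]

theorem cf_mul (i j : ℕ) (g h : N2) : cf i j (g * h) =
    ∑ p ∈ Finset.HasAntidiagonal.antidiagonal j, ∑ q ∈ Finset.HasAntidiagonal.antidiagonal i, cf q.1 p.1 g * cf q.2 p.2 h := by
  unfold cf
  rw [PowerSeries.coeff_mul, map_sum]
  apply Finset.sum_congr rfl
  intro p _
  rw [PowerSeries.coeff_mul]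

theorem cf_mono (i j k l : ℕ) : cf i j (xx ^ k * yy ^ l) = if i = k ∧ j = l then 1 else 0 := by
  unfold cf xx yy
  rw [← map_pow, PowerSeries.coeff_C_mul, PowerSeries.coeff_X_pow]
  by_cases h : j = l
  · rw [if_pos h, mul_one, PowerSeries.coeff_X_pow]
    simp [h]
  · rw [if_neg h, mul_zero, map_zero]
    simp [h]

/-- all coefficients of total degree `< N` vanish -/
def JN (N : ℕ) : Ideal N2 where
  carrier := {g | ∀ i j, i + j < N → cf i j g = 0}
  add_mem' := by
    intro a b ha hb i j hij
    rw [cf_add, ha i j hij, hb i j hij, add_zero]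
  zero_mem' := by
    intro i j _
    simp [cf]
  smul_mem' := by
    intro c x hx i j hij
    rw [smul_eq_mul, cf_mul]
    apply Finset.sum_eq_zero
    intro p hp
    apply Finset.sum_eq_zero
    intro q hq
    rw [Finset.HasAntidiagonal.mem_antidiagonal] at hp hq
    rw [hx q.2 p.2 (by omega), mul_zero]

theorem mem_JN {N : ℕ} {g : N2} : g ∈ JN N ↔ ∀ i j, i + j < N → cf i j g = 0 := Iff.rfl

theorem JN_xx {N : ℕ} {g : N2} (hg : g ∈ JN N) : g * xx ∈ JN (N + 1) := by
  rw [mem_JN] at hg ⊢
  intro i j hij
  unfold cf xx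
  rw [mul_comm, PowerSeries.coeff_C_mul]
  cases i with
  | zero => simp
  | succ i =>
    rw [mul_comm, PowerSeries.coeff_succ_mul_X]
    exact hg i j (by omega)

theorem JN_yy {N : ℕ} {g : N2} (hg : g ∈ JN N) : g * yy ∈ JN (N + 1) := by
  rw [mem_JN] at hg ⊢
  intro i j hij
  unfold cf yy
  cases j with
  | zero => simp
  | succ j =>
    rw [PowerSeries.coeff_succ_mul_X]
    exact hg i j (by omega)

theorem m2_le (N : ℕ) : m2 ^ N ≤ JN N := by
  induction N with
  | zero => intro g _ i j hij; omega
  | succ N ih =>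
    rw [pow_succ, Ideal.mul_le]
    intro a ha b hb
    unfold m2 at hb
    rw [Ideal.mem_span_pair] at hb
    obtain ⟨r, s, rfl⟩ := hb
    have e : a * (r * xx + s * yy) = r * (a * xx) + s * (a * yy) := by ring
    rw [e]
    exact Ideal.add_mem _ (Ideal.mul_mem_left _ _ (JN_xx (ih ha)))
      (Ideal.mul_mem_left _ _ (JN_yy (ih ha)))

/-- the maximal ideal -/
theorem mem_m2 {g : N2} (hg : e0 g = 0) : g ∈ m2 := by
  have h1 : g - PowerSeries.C (PowerSeries.constantCoeff g) ∈ m2 := by
    have : (PowerSeries.X : N2) ∣ g - PowerSeries.C (PowerSeries.constantCoeff g) := by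
      rw [PowerSeries.X_dvd_iff]
      simp
    obtain ⟨r, hr⟩ := this
    rw [hr]
    exact Ideal.mul_mem_right _ _ (Ideal.subset_span (by simp [yy]))
  have h2 : PowerSeries.C (PowerSeries.constantCoeff g) ∈ m2 := by
    have : (PowerSeries.X : PowerSeries ℂ) ∣ PowerSeries.constantCoeff g := by
      rw [PowerSeries.X_dvd_iff]
      exact hg
    obtain ⟨r, hr⟩ := this
    rw [hr, map_mul]
    exact Ideal.mul_mem_right _ _ (Ideal.subset_span (by simp [xx]))
  have := Ideal.add_mem _ h1 h2
  rwa [sub_add_cancel] at this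

end KER9Aux

open KER9Aux in
theorem stmt_KER9 (hRED : Stmt_RED9) : Stmt_KER9 := by
  intro ι _ _ f Z p u v huv hZ hz hdt lam ρ hρ N g hg
  obtain ⟨G, hG, hgG⟩ := hRED ι f Z p hz hdt N g
  -- `ρ` maps the error to `m2^N`
  have hI : ∀ x ∈ Zi f Z ⊔ mI p ^ N, ρ x ∈ m2 ^ N := by
    intro x hx
    obtain ⟨a, ha, b, hb, rfl⟩ := Submodule.mem_sup.1 hx
    rw [map_add]
    refine Ideal.add_mem _ ?_ ?_
    · have hle : Zi f Z ≤ RingHom.ker ρ := by
        unfold Zi
        rw [Ideal.span_le]
        rintro y ⟨z, hzZ, rfl⟩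
        exact hρ.hz z hzZ
      have : ρ a = 0 := hle ha
      rw [this]
      exact Ideal.zero_mem _
    · have hle : mI p ≤ m2.comap ρ := by
        intro y hy
        apply mem_m2
        rw [hρ.h0 y]
        exact hy
      have h1 : mI p ^ N ≤ (m2 ^ N).comap ρ := by
        refine le_trans (Ideal.pow_right_mono hle N) ?_
        exact Ideal.le_comap_pow ρ N
      exact h1 hb
  have h1 : ρ (aeval (fun a => X a - C (p a)) G) ∈ m2 ^ N := by
    have := Ideal.sub_mem _ hg (hI _ hgG)
    rwa [← map_sub, sub_sub_cancel] at this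
  -- `G = 0`
  have hG0 : G = 0 := by
    by_contra hne
    obtain ⟨d, hd, hmax⟩ := Finset.exists_max_image G.support (fun d => d u)
      (by rwa [Finset.nonempty_iff_ne_empty, Ne, MvPolynomial.support_eq_empty])
    have hdeg : ∀ d' ∈ G.support, Finsupp.degree d' = d' u + d' v := by
      intro d' hd'
      have h2 := (hG d' hd').1
      rw [Finsupp.degree_eq_sum]
      have h3 : (Finset.univ : Finset ι) = Z ∪ Zᶜ := by rw [Finset.union_compl]
      rw [h3, Finset.sum_union disjoint_compl_right, Finset.sum_eq_zero (fun z hzz => h2 z hzz),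
        zero_add, hZ, Finset.sum_pair huv]
    have key : ∀ d' ∈ G.support, ρ (aeval (fun a => X a - C (p a)) (monomial d' (coeff d' G))) =
        cc (coeff d' G) * ((xx + cc lam * yy) ^ d' u * yy ^ d' v) := by
      intro d' hd'
      have h2 := (hG d' hd').1
      rw [aeval_monomial, map_mul, Finsupp.prod_fintype _ _ (by intro i; rw [pow_zero]), map_prod]
      have h3 : (Finset.univ : Finset ι) = Z ∪ Zᶜ := by rw [Finset.union_compl]
      rw [h3, Finset.prod_union disjoint_compl_right,
        Finset.prod_eq_one (fun z hzz => by rw [h2 z hzz, pow_zero, map_one]), one_mul, hZ,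
        Finset.prod_pair huv, map_pow, map_pow, map_sub, map_sub, hρ.hu, hρ.hv]
      have hC : ∀ c : ℂ, ρ (C c) = cc c := by
        intro c
        have : (C c : MvPolynomial ι ℂ) = algebraMap ℂ _ c := rfl
        rw [this, AlgHom.commutes, PowerSeries.algebraMap_apply, PowerSeries.algebraMap_apply]
        rfl
      have hA : (algebraMap ℂ (MvPolynomial ι ℂ)) (coeff d' G) = C (coeff d' G) := rfl
      rw [hA, hC, hC, hC]
      congr 3 <;> ring
    have h2 : cf (d u) (d v) (ρ (aeval (fun a => X a - C (p a)) G)) = 0 := by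
      apply m2_le N h1
      rw [← hdeg d hd]
      exact (hG d hd).2
    have h3 : ρ (aeval (fun a => X a - C (p a)) G) =
        ∑ d' ∈ G.support, cc (coeff d' G) * ((xx + cc lam * yy) ^ d' u * yy ^ d' v) := by
      conv_lhs => rw [G.as_sum, map_sum, map_sum]
      exact Finset.sum_congr rfl key
    rw [h3, cf_sum] at h2
    have h4 : ∀ a b : ℕ, a ≤ d u → cf (d u) (d v) ((xx + cc lam * yy) ^ a * yy ^ b) =
        if a = d u ∧ b = d v then 1 else 0 := by
      intro a b hab
      rw [add_pow, Finset.sum_mul, cf_sum]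
      have h5 : ∀ k ∈ Finset.range (a + 1), cf (d u) (d v)
          (xx ^ k * (cc lam * yy) ^ (a - k) * ((a.choose k : ℕ) : N2) * yy ^ b) =
          if k = a ∧ (a = d u ∧ b = d v) then 1 else 0 := by
        intro k hk
        rw [Finset.mem_range] at hk
        have e : xx ^ k * (cc lam * yy) ^ (a - k) * ((a.choose k : ℕ) : N2) * yy ^ b =
            cc (lam ^ (a - k) * (a.choose k : ℂ)) * (xx ^ k * yy ^ (a - k + b)) := by
          unfold cc
          simp only [map_mul, map_pow, map_natCast]
          rw [mul_pow, pow_add]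
          ring
        rw [e, cf_cc, cf_mono]
        by_cases h6 : k = a ∧ (a = d u ∧ b = d v)
        · have h7 : d u = k ∧ d v = a - k + b := ⟨by omega, by omega⟩
          rw [if_pos h6, if_pos h7, h6.1]
          simp
        · rw [if_neg h6, if_neg, mul_zero]
          rintro ⟨h7, h8⟩
          apply h6
          have : k = a := by omega
          exact ⟨this, by omega, by omega⟩
      rw [Finset.sum_congr rfl h5]
      by_cases h6 : a = d u ∧ b = d v
      · rw [if_pos h6, Finset.sum_eq_single a]
        · rw [if_pos ⟨rfl, h6⟩]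
        · intro k _ hk
          rw [if_neg (fun h => hk h.1)]
        · intro h; exact absurd (Finset.mem_range.2 (Nat.lt_succ_self a)) h
      · rw [if_neg h6]
        apply Finset.sum_eq_zero
        intro k _
        rw [if_neg (fun h => h6 h.2)]
    rw [Finset.sum_eq_single d] at h2
    · rw [cf_cc, h4 _ _ le_rfl, if_pos ⟨rfl, rfl⟩, mul_one] at h2
      exact (mem_support_iff.1 hd) h2
    · intro d' hd' hne'
      rw [cf_cc, h4 _ _ (hmax d' hd'), if_neg, mul_zero]
      rintro ⟨h5, h6⟩
      apply hne'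
      ext a
      by_cases ha : a ∈ Z
      · rw [(hG d' hd').1 a ha, (hG d hd).1 a ha]
      · have : a ∈ Zᶜ := Finset.mem_compl.2 ha
        rw [hZ] at this
        rcases Finset.mem_insert.1 this with rfl | h7
        · exact h5
        · rw [Finset.mem_singleton.1 h7]; exact h6
    · intro h; exact absurd hd h
  rw [hG0, map_zero, sub_zero] at hgG
  exact hgG

end Pool.Agent.Mono.C9
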