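import Pool.Agent.Work.Monodromy9.N2Lib

/-! MONODROMY, phase 9, block LAM9: generic direction (helper60). -/

set_option autoImplicit false

namespace Pool.Agent.Mono.C9

open MvPolynomial TS RO SP PC

namespace LAM9Aux

open N2Lib

/-- the homogeneous part of degree `k` at `(lam, 1)` -/
noncomputable def q (lam : ℂ) (k : ℕ) (H : N2) : ℂ :=
  ∑ i ∈ Finset.range (k + 1), lam ^ i * cf i (k - i) H

/-- `∂_y + lam ∂_x` -/
noncomputable def Dl (lam : ℂ) (H : N2) : N2 := dY H + cc lam * dX H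

theorem Dl_mem {lam : ℂ} {k : ℕ} {H : N2} (h : H ∈ m2 ^ (k + 1)) : Dl lam H ∈ m2 ^ k :=
  Ideal.add_mem _ (dY_mem h) (Ideal.mul_mem_left _ _ (dX_mem h))

theorem q_Dl (lam : ℂ) (k : ℕ) (H : N2) : q lam k (Dl lam H) = (k + 1) * q lam (k + 1) H := by
  have h1 : q lam k (Dl lam H) = ∑ i ∈ Finset.range (k + 1),
      (lam ^ i * (((k + 1 - i : ℕ) : ℂ) * cf i (k + 1 - i) H)) +
      ∑ i ∈ Finset.range (k + 1), (lam ^ (i + 1) * (((i + 1 : ℕ) : ℂ) * cf (i + 1) (k - i) H)) := by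
    rw [← Finset.sum_add_distrib]
    unfold q Dl
    refine Finset.sum_congr rfl fun i hi => ?_
    have hik := Finset.mem_range.1 hi
    rw [cf_add, cf_dY, cf_cc_mul, cf_dX]
    have h2 : k + 1 - i = k - i + 1 := by omega
    rw [h2]
    push_cast
    ring
  have h2 : ∑ i ∈ Finset.range (k + 1),
      (lam ^ i * (((k + 1 - i : ℕ) : ℂ) * cf i (k + 1 - i) H)) =
      ∑ i ∈ Finset.range (k + 2), (lam ^ i * (((k + 1 - i : ℕ) : ℂ) * cf i (k + 1 - i) H)) := by
    rw [Finset.sum_range_succ _ (k + 1), Nat.sub_self]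
    simp
  have h3 : ∑ i ∈ Finset.range (k + 1),
      (lam ^ (i + 1) * (((i + 1 : ℕ) : ℂ) * cf (i + 1) (k - i) H)) =
      ∑ i ∈ Finset.range (k + 2), (lam ^ i * (((i : ℕ) : ℂ) * cf i (k + 1 - i) H)) := by
    rw [Finset.sum_range_succ' _ (k + 1)]
    simp only [Nat.cast_zero, zero_mul, mul_zero, add_zero]
    refine Finset.sum_congr rfl fun i hi => ?_
    have h4 : k + 1 - (i + 1) = k - i := by omega
    rw [h4]
  rw [h1, h2, h3, ← Finset.sum_add_distrib]
  unfold q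
  rw [Finset.mul_sum]
  refine Finset.sum_congr rfl fun i hi => ?_
  have hik := Finset.mem_range.1 hi
  have h4 : (((k + 1 - i : ℕ) : ℂ)) = (k : ℂ) + 1 - i := by
    rw [Nat.cast_sub (by omega)]
    push_cast
    ring
  rw [h4]
  ring

theorem q_mul (lam : ℂ) (k : ℕ) (τ H : N2) (h : H ∈ m2 ^ k) :
    q lam k (τ * H) = e0 τ * q lam k H := by
  have h1 : (τ - cc (e0 τ)) * H ∈ m2 ^ (k + 1) := by
    have h2 : τ - cc (e0 τ) ∈ m2 := by
      rw [mem_m2_iff, map_sub, e0_cc, sub_self]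
    have h3 := Ideal.mul_mem_mul h2 h
    rwa [← pow_succ'] at h3
  unfold q
  rw [Finset.mul_sum]
  refine Finset.sum_congr rfl fun i hi => ?_
  have hik := Finset.mem_range.1 hi
  have h4 := mem_pow_iff.1 h1 i (k - i) (by omega)
  rw [sub_mul, cf_sub, cf_cc_mul, sub_eq_zero] at h4
  rw [h4]
  ring

/-- the operator `τ (∂_y + lam ∂_x)` -/
noncomputable def T (lam : ℂ) (τ : N2) (H : N2) : N2 := τ * Dl lam H

theorem T_iter (lam : ℂ) (τ : N2) (hτ : e0 τ ≠ 0) (a : ℕ) (G : N2) (hG : G ∈ m2 ^ a)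
    (hq : q lam a G ≠ 0) (l k : ℕ) (hl : l + k = a) :
    (T lam τ)^[l] G ∈ m2 ^ k ∧ q lam k ((T lam τ)^[l] G) ≠ 0 := by
  induction l generalizing k with
  | zero =>
    have : k = a := by omega
    rw [this]
    exact ⟨hG, hq⟩
  | succ l ih =>
    obtain ⟨h1, h2⟩ := ih (k + 1) (by omega)
    rw [Function.iterate_succ', Function.comp_apply]
    refine ⟨Ideal.mul_mem_left _ _ (Dl_mem h1), ?_⟩
    show q lam k (τ * Dl lam ((T lam τ)^[l] G)) ≠ 0
    rw [q_mul _ _ _ _ (Dl_mem h1), q_Dl]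
    refine mul_ne_zero hτ (mul_ne_zero ?_ h2)
    exact_mod_cast Nat.succ_ne_zero k

/-- a direction -/
theorem exists_dir (G : N2) (hG : G ≠ 0) : ∃ (a : ℕ) (lam : ℂ), G ∈ m2 ^ a ∧ q lam a G ≠ 0 := by
  classical
  have h1 : ∃ k, G ∉ m2 ^ k := by
    by_contra hc
    push Not at hc
    exact hG (eq_zero_of_forall hc)
  have h2 := Nat.find_spec h1
  have h3 : Nat.find h1 ≠ 0 := by
    intro h
    rw [h, pow_zero] at h2
    exact h2 (by rw [Ideal.one_eq_top]; trivial)
  obtain ⟨a, ha⟩ := Nat.exists_eq_succ_of_ne_zero h3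
  have h4 : G ∈ m2 ^ a := by
    by_contra hc
    have := Nat.find_min' h1 hc
    omega
  rw [ha] at h2
  have h5 : ∃ i j, i + j < a + 1 ∧ cf i j G ≠ 0 := by
    by_contra hc
    push Not at hc
    exact h2 (mem_pow_iff.2 fun i j hij => hc i j hij)
  obtain ⟨i, j, hij, hne⟩ := h5
  have h6 : i + j = a := by
    by_contra hc
    exact hne (mem_pow_iff.1 h4 i j (by omega))
  -- the polynomial
  set Q : Polynomial ℂ := ∑ i ∈ Finset.range (a + 1),
    Polynomial.C (cf i (a - i) G) * Polynomial.X ^ i with hQ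
  have h7 : Q.coeff i = cf i (a - i) G := by
    rw [hQ, Polynomial.finsetSum_coeff, Finset.sum_eq_single i]
    · rw [Polynomial.coeff_C_mul_X_pow, if_pos rfl]
    · intro b _ hb
      rw [Polynomial.coeff_C_mul_X_pow, if_neg (Ne.symm hb)]
    · intro h
      exact absurd (Finset.mem_range.2 (by omega)) h
  have h8 : Q ≠ 0 := by
    intro h
    rw [h, Polynomial.coeff_zero] at h7
    have h9 : a - i = j := by omega
    rw [h9] at h7
    exact hne h7.symm
  have h10 : ∃ lam : ℂ, Q.eval lam ≠ 0 := by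
    by_contra hc
    push Not at hc
    exact h8 (Polynomial.funext fun t => by rw [hc t, Polynomial.eval_zero])
  obtain ⟨lam, hlam⟩ := h10
  refine ⟨a, lam, h4, ?_⟩
  have h11 : Q.eval lam = q lam a G := by
    rw [hQ, Polynomial.eval_finsetSum]
    unfold q
    refine Finset.sum_congr rfl fun i _ => ?_
    rw [Polynomial.eval_mul, Polynomial.eval_C, Polynomial.eval_pow, Polynomial.eval_X, mul_comm]
  rwa [← h11]

end LAM9Aux

open LAM9Aux N2Lib in
/-- **LAM9** -/
theorem stmt_LAM9 (hD : Stmt_DER9) (hC : Stmt_CHI9) (hR : Stmt_DRV9) : Stmt_LAM9 := by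
  intro ι _ _ f Z p u v huv hZ hz hdt hL
  obtain ⟨ρ, hρ⟩ := hC ι f Z p u v huv hZ hz hdt 0
  have hR0 := hR ι f Z p u v huv hZ hdt 0 ρ hρ
  have hG : ρ f ≠ 0 := by
    intro h0
    have h1 : ∀ L : List ι, ρ (wd f Z L) = 0 := by
      intro L
      induction L with
      | nil => exact h0
      | cons b L ih =>
        show ρ (dl f Z b (wd f Z L)) = 0
        by_cases hb : b ∈ Z
        · rw [(hD ι f Z).2.2.1 b hb, map_zero]
        · rw [← Finset.mem_compl, hZ, Finset.mem_insert, Finset.mem_singleton] at hb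
          rcases hb with rfl | rfl
          · rw [(hR0 _).1, ih, dX_zero, mul_zero]
          · rw [(hR0 _).2, ih, dX_zero, dY_zero, mul_zero, sub_zero, mul_zero]
    obtain ⟨L, hL⟩ := hL
    apply hL
    rw [← hρ.h0, h1, map_zero]
  obtain ⟨a, lam, ha, hq⟩ := exists_dir (ρ f) hG
  refine ⟨lam, fun ρ' hρ' hdvd => ?_⟩
  have hR1 := hR ι f Z p u v huv hZ hdt lam ρ' hρ'
  set D : MvPolynomial ι ℂ → MvPolynomial ι ℂ := fun g => dl f Z v g + C lam * dl f Z u g with hDd
  -- under `ρ`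
  have h2 : ∀ g, ρ (D g) = T lam (ρ (dt f Z)) (ρ g) := by
    intro g
    show ρ (dl f Z v g + C lam * dl f Z u g) = ρ (dt f Z) * (dY (ρ g) + cc lam * dX (ρ g))
    rw [map_add, map_mul, (hR0 g).1, (hR0 g).2, algHom_C, N2Lib.algebraMap_eq, cc_zero]
    ring
  have h3 : ∀ l, ρ (D^[l] f) = (T lam (ρ (dt f Z)))^[l] (ρ f) := by
    intro l
    induction l with
    | zero => rfl
    | succ l ih =>
      rw [Function.iterate_succ', Function.comp_apply, h2, ih, Function.iterate_succ',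
        Function.comp_apply]
  have h4 : eval p (D^[a] f) ≠ 0 := by
    rw [← hρ.h0, h3]
    have h5 := (T_iter lam (ρ (dt f Z)) (by rw [hρ.h0]; exact hdt) a (ρ f) ha hq a 0 (by omega)).2
    unfold q at h5
    rw [zero_add, Finset.sum_range_one, pow_zero, one_mul, Nat.sub_self, ← e0_eq] at h5
    exact h5
  -- under `ρ'`
  have h5 : ∀ g, ρ' (D g) = ρ' (dt f Z) * dY (ρ' g) := by
    intro g
    show ρ' (dl f Z v g + C lam * dl f Z u g) = ρ' (dt f Z) * dY (ρ' g)
    rw [map_add, map_mul, (hR1 g).1, (hR1 g).2, algHom_C, N2Lib.algebraMap_eq]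
    ring
  have h6 : ∀ l, xx ∣ ρ' (D^[l] f) := by
    intro l
    induction l with
    | zero => exact hdvd
    | succ l ih =>
      rw [Function.iterate_succ', Function.comp_apply, h5]
      obtain ⟨H, hH⟩ := ih
      refine Dvd.dvd.mul_left ⟨dY H, ?_⟩ _
      rw [hH, dY_mul, dY_xx, mul_zero, add_zero]
  apply h4
  obtain ⟨H, hH⟩ := h6 a
  rw [← hρ'.h0, hH, map_mul, e0_xx, zero_mul]

end Pool.Agent.Mono.C9
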