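import Pool.Agent.Work.Monodromy9.CTAux

/-!
# Phase 9, block MO9 (helper99): the Morse lemma modulo powers of the maximal ideal
-/

set_option autoImplicit false
set_option linter.unusedSectionVars false

namespace Pool.Agent.Mono.C9

open MvPolynomial TS RO SP PC

namespace MO9Aux

open CTAux

/-- A symmetric complex matrix is of the form `Tᵀ T`. -/
lemma exists_T {n : Type} [Fintype n] [DecidableEq n] (M : Matrix n n ℂ) (hs : M.transpose = M) :
    ∃ T : Matrix n n ℂ, T.transpose * T = M := by
  set B : LinearMap.BilinForm ℂ (n → ℂ) := Matrix.toBilin' M with hB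
  have hBs : LinearMap.IsSymm B := by
    refine ⟨fun x y => ?_⟩
    show B x y = B y x
    rw [hB, Matrix.toBilin'_apply, Matrix.toBilin'_apply, Finset.sum_comm]
    refine Finset.sum_congr rfl fun i _ => Finset.sum_congr rfl fun j _ => ?_
    have h1 : M j i = M i j := by
      conv_lhs => rw [← hs]
      rfl
    rw [h1]
    ring
  obtain ⟨v, hv⟩ := LinearMap.BilinForm.exists_orthogonal_basis hBs
  have e : Fin (Module.finrank ℂ (n → ℂ)) ≃ n :=
    Fintype.equivOfCardEq (by rw [Fintype.card_fin, Module.finrank_fintype_fun_eq_card])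
  set v' := v.reindex e with hv'
  have hort : ∀ i j, i ≠ j → B (v' i) (v' j) = 0 := by
    intro i j hij
    rw [hv', Module.Basis.reindex_apply, Module.Basis.reindex_apply]
    exact hv (fun h => hij (e.symm.injective h))
  set P : Matrix n n ℂ := Matrix.of fun i j => v' j i with hP
  set Q : Matrix n n ℂ := v'.toMatrix (Pi.basisFun ℂ n) with hQ
  have hPQ : P * Q = 1 := by
    have h1 : P = (Pi.basisFun ℂ n).toMatrix v' := by
      ext i j
      rw [hP, Matrix.of_apply, Module.Basis.toMatrix_apply]
      simp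
    rw [h1, hQ, Module.Basis.toMatrix_mul_toMatrix_flip]
  have hPMP : P.transpose * M * P = Matrix.diagonal fun i => B (v' i) (v' i) := by
    ext i j
    have h1 : (P.transpose * M * P) i j = B (v' i) (v' j) := by
      rw [hB, Matrix.toBilin'_apply]
      simp only [Matrix.mul_apply, Matrix.transpose_apply, Finset.sum_mul]
      rw [Finset.sum_comm]
      refine Finset.sum_congr rfl fun a _ => Finset.sum_congr rfl fun b _ => ?_
      rw [hP, Matrix.of_apply, Matrix.of_apply]
    rw [h1, Matrix.diagonal_apply]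
    split_ifs with hij
    · rw [hij]
    · exact hort i j hij
  have hsq : ∀ z : ℂ, ∃ s : ℂ, s * s = z := fun z => by
    obtain ⟨s, hs⟩ := IsAlgClosed.exists_pow_nat_eq z (n := 2) (by norm_num)
    exact ⟨s, by rw [← pow_two]; exact hs⟩
  choose s hs' using fun i => hsq (B (v' i) (v' i))
  refine ⟨Matrix.diagonal s * Q, ?_⟩
  have h2 : (Matrix.diagonal s * Q).transpose * (Matrix.diagonal s * Q) =
      Q.transpose * (Matrix.diagonal fun i => B (v' i) (v' i)) * Q := by
    rw [Matrix.transpose_mul, Matrix.diagonal_transpose]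
    have h3 : Matrix.diagonal s * Matrix.diagonal s = Matrix.diagonal fun i => B (v' i) (v' i) := by
      rw [Matrix.diagonal_mul_diagonal]
      congr 1
      funext i
      exact hs' i
    rw [← h3]
    simp only [Matrix.mul_assoc]
  rw [h2, ← hPMP]
  calc Q.transpose * (P.transpose * M * P) * Q = (P * Q).transpose * M * (P * Q) := by
        rw [Matrix.transpose_mul]
        simp only [Matrix.mul_assoc]
    _ = M := by rw [hPQ]; simp

section

variable {R : Type*} [CommRing R] {n : Type} [Fintype n] [DecidableEq n]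

/-- All entries are in `I`. -/
def EM (I : Ideal R) (M : Matrix n n R) : Prop := ∀ i j, M i j ∈ I

lemma EM.add {I : Ideal R} {M N : Matrix n n R} (h : EM I M) (h' : EM I N) : EM I (M + N) :=
  fun i j => I.add_mem (h i j) (h' i j)

lemma EM.mul {I J : Ideal R} {M N : Matrix n n R} (h : EM I M) (h' : EM J N) :
    EM (I * J) (M * N) := fun i j => by
  rw [Matrix.mul_apply]
  exact Ideal.sum_mem _ fun k _ => Ideal.mul_mem_mul (h i k) (h' k j)

lemma EM.mul_left {I : Ideal R} {N : Matrix n n R} (M : Matrix n n R) (h' : EM I N) :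
    EM I (M * N) := fun i j => by
  rw [Matrix.mul_apply]
  exact Ideal.sum_mem _ fun k _ => Ideal.mul_mem_left _ _ (h' k j)

lemma EM.mul_right {I : Ideal R} {N : Matrix n n R} (M : Matrix n n R) (h' : EM I N) :
    EM I (N * M) := fun i j => by
  rw [Matrix.mul_apply]
  exact Ideal.sum_mem _ fun k _ => Ideal.mul_mem_right _ _ (h' i k)

lemma EM.transpose {I : Ideal R} {N : Matrix n n R} (h : EM I N) : EM I N.transpose :=
  fun i j => h j i

lemma EM.neg {I : Ideal R} {N : Matrix n n R} (h : EM I N) : EM I (-N) :=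
  fun i j => I.neg_mem (h i j)

lemma EM.mono {I J : Ideal R} {N : Matrix n n R} (h : EM I N) (hIJ : I ≤ J) : EM J N :=
  fun i j => hIJ (h i j)

end

/-- Lifting of the factorisation modulo powers of the maximal ideal. -/
lemma lift_S {ι : Type} {n : Type} [Fintype n] [DecidableEq n] (p : ι → ℂ)
    (c : Matrix n n (MvPolynomial ι ℂ)) (hc : c.transpose = c) (T U : Matrix n n ℂ)
    (hTU : U * T = 1) (hT : T.transpose * T = c.map (eval p)) (k : ℕ) :
    ∃ S : Matrix n n (MvPolynomial ι ℂ), EM (mI p) (S - T.map C) ∧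
      EM (mI p ^ (k + 1)) (S.transpose * S - c) := by
  set m := mI p with hm
  induction k with
  | zero =>
    refine ⟨T.map C, ?_, ?_⟩
    · intro i j
      rw [sub_self]
      exact m.zero_mem
    · intro i j
      rw [zero_add, pow_one, hm, mem_mI, Matrix.sub_apply, map_sub]
      have h1 : eval p (((T.map (C : ℂ → MvPolynomial ι ℂ)).transpose *
          T.map (C : ℂ → MvPolynomial ι ℂ)) i j) = (T.transpose * T) i j := by
        rw [Matrix.mul_apply, Matrix.mul_apply, map_sum]
        refine Finset.sum_congr rfl fun a _ => ?_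
        simp [Matrix.map_apply, Matrix.transpose_apply]
      rw [h1, hT, Matrix.map_apply, sub_self]
  | succ k ih =>
    obtain ⟨S, hS1, hS2⟩ := ih
    set D := S.transpose * S - c with hD
    have hDs : D.transpose = D := by
      rw [hD, Matrix.transpose_sub, Matrix.transpose_mul, Matrix.transpose_transpose, hc]
    set h2 : MvPolynomial ι ℂ := C (1 / 2 : ℂ) with hh2
    have hhalf : h2 + h2 = 1 := by
      rw [hh2, ← C_add]
      norm_num
    set W : Matrix n n (MvPolynomial ι ℂ) := (U.map C).transpose with hW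
    have hTW : (T.map C).transpose * W = 1 := by
      rw [hW, ← Matrix.transpose_mul, ← Matrix.map_mul, hTU, Matrix.map_one C C.map_zero C.map_one,
        Matrix.transpose_one]
    set A : Matrix n n (MvPolynomial ι ℂ) := -(h2 • (W * D)) with hA
    have hAm : EM (m ^ (k + 1)) A := by
      intro i j
      rw [hA, Matrix.neg_apply, Matrix.smul_apply, smul_eq_mul]
      exact (m ^ (k + 1)).neg_mem (Ideal.mul_mem_left _ _ (EM.mul_left W hS2 i j))
    have hAm1 : EM m A := hAm.mono (Ideal.pow_le_self (Nat.succ_ne_zero k))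
    -- `Sᵀ A`
    have hSA : EM (m ^ (k + 1 + 1)) (S.transpose * A + h2 • D) := by
      have h3 : S.transpose * A + h2 • D = (S - T.map C).transpose * A := by
        have h4 : (T.map C).transpose * A = -(h2 • D) := by
          rw [hA, Matrix.mul_neg, Matrix.mul_smul, ← Matrix.mul_assoc, hTW, Matrix.one_mul]
        rw [Matrix.transpose_sub, Matrix.sub_mul, h4]
        abel
      rw [h3]
      have h5 := EM.mul (EM.transpose hS1) hAm
      refine h5.mono ?_
      rw [pow_succ' m (k + 1)]
    refine ⟨S + A, ?_, ?_⟩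
    · have h3 : S + A - T.map C = (S - T.map C) + A := by abel
      rw [h3]
      exact hS1.add hAm1
    · have h3 : (S + A).transpose * (S + A) - c =
          (S.transpose * A + h2 • D) + (S.transpose * A + h2 • D).transpose +
            A.transpose * A := by
        have h4 : (h2 • D).transpose = h2 • D := by rw [Matrix.transpose_smul, hDs]
        have h5 : (S.transpose * A).transpose = A.transpose * S := by
          rw [Matrix.transpose_mul, Matrix.transpose_transpose]
        have h10 : (S.transpose * A + h2 • D).transpose = A.transpose * S + h2 • D := by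
          rw [Matrix.transpose_add, h4, h5]
        rw [h10, Matrix.transpose_add, Matrix.add_mul, Matrix.mul_add, Matrix.mul_add]
        have h6 : D = h2 • D + h2 • D := by rw [← add_smul, hhalf, one_smul]
        have h7 : S.transpose * S - c = h2 • D + h2 • D := by rw [← hD]; exact h6
        have h8 : S.transpose * S = h2 • D + h2 • D + c := by rw [← h7]; abel
        rw [h8]
        abel
      rw [h3]
      refine (hSA.add hSA.transpose).add ?_
      have h9 := EM.mul (EM.transpose hAm) hAm1
      refine h9.mono ?_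
      rw [← pow_succ]

theorem pd_comm {ι : Type} (i j : ι) (p : MvPolynomial ι ℂ) :
    pderiv i (pderiv j p) = pderiv j (pderiv i p) := by
  classical
  have key : ∀ D1 D2 : Derivation ℂ (MvPolynomial ι ℂ) (MvPolynomial ι ℂ), D1 = pderiv i →
      D2 = pderiv j → ⁅D1, D2⁆ = 0 := by
    rintro _ _ rfl rfl
    refine MvPolynomial.derivation_ext fun k => ?_
    rw [Derivation.commutator_apply]
    simp [pderiv_X, Pi.single_apply, apply_ite]
  have h2 := congrArg (fun D : Derivation ℂ (MvPolynomial ι ℂ) (MvPolynomial ι ℂ) => D p)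
    (key _ _ rfl rfl)
  simp only [Derivation.commutator_apply, Derivation.coe_zero, Pi.zero_apply] at h2
  exact sub_eq_zero.1 h2

lemma dd {ι : Type} (p : ι → ℂ) (g ζ ζ' : MvPolynomial ι ℂ) (hζ : eval p ζ = 0)
    (hζ' : eval p ζ' = 0) (a b : ι) : eval p (pderiv a (pderiv b (g * ζ * ζ'))) =
      eval p g * (eval p (pderiv b ζ) * eval p (pderiv a ζ') +
        eval p (pderiv a ζ) * eval p (pderiv b ζ')) := by
  simp only [Derivation.leibniz, map_add, smul_eq_mul, map_mul, hζ, hζ']
  ring

end MO9Aux

open CTAux MO9Aux in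
/-- **MO9** -/
theorem stmt_MO9 : Stmt_MO9 := by
  intro ι _ _ f r Z p hz hdt hrf N hN hr
  obtain ⟨r0, hr0, t, ht, hrt⟩ := Submodule.mem_sup.1 hr
  obtain ⟨c, hc, hr0c⟩ := mem_Zi_sq f Z r0 hr0
  set h : Matrix Z Z ℂ := Matrix.of fun a b : Z => eval p (pderiv (a : ι) (pderiv (b : ι) f))
    with hh
  have hha : ∀ a b : Z, eval p (pderiv (a : ι) (pderiv (b : ι) f)) = h a b := fun a b => rfl
  have hdet : h.det ≠ 0 := by
    rw [hh, ← eval_dt]
    exact hdt
  have hhs : h.transpose = h := by
    ext a b
    rw [Matrix.transpose_apply, ← hha, ← hha, pd_comm]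
  have hz' : ∀ z : Z, eval p (pderiv (z : ι) f) = 0 := fun z => hz z z.2
  set c0 : Matrix Z Z ℂ := c.map (eval p) with hc0
  have hc0s : c0.transpose = c0 := by
    rw [hc0, ← Matrix.transpose_map, hc]
  -- second derivatives
  have ht2 : ∀ a b : ι, eval p (pderiv a (pderiv b t)) = 0 := by
    intro a b
    have h1 : t ∈ mI p ^ (2 + 1) := Ideal.pow_le_pow_right hN ht
    have h2 := der_pow (pderiv b) (mI p) 2 t h1
    have h3 := der_pow (pderiv a) (mI p) 1 _ h2
    rw [pow_one] at h3
    exact mem_mI.1 h3
  have hsec : ∀ a b : Z, 2 * (h * c0 * h) a b = h a b := by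
    intro a b
    have h1 : eval p (pderiv (a : ι) (pderiv (b : ι) r)) =
        ∑ x, ∑ y, c0 x y * (h b x * h a y + h a x * h b y) := by
      rw [← hrt, map_add, map_add, map_add, ht2, add_zero, hr0c]
      simp only [map_sum]
      refine Finset.sum_congr rfl fun x _ => Finset.sum_congr rfl fun y _ => ?_
      rw [dd p _ _ _ (hz' x) (hz' y)]
      rfl
    rw [hrf a a.2 b b.2, hha] at h1
    have h2 : ∀ a b : Z, (h * c0 * h) a b = ∑ x, ∑ y, c0 x y * (h a x * h b y) := by
      intro a b
      simp only [Matrix.mul_apply, Finset.sum_mul]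
      rw [Finset.sum_comm]
      refine Finset.sum_congr rfl fun x _ => Finset.sum_congr rfl fun y _ => ?_
      have h3 : h y b = h b y := by
        conv_lhs => rw [← hhs]
        rfl
      rw [h3]
      ring
    have h4 : (h * c0 * h) b a = (h * c0 * h) a b := by
      have h5 : (h * c0 * h).transpose = h * c0 * h := by
        rw [Matrix.transpose_mul, Matrix.transpose_mul, hhs, hc0s, Matrix.mul_assoc]
      conv_lhs => rw [← h5]
      rfl
    have h6 : ∑ x, ∑ y, c0 x y * (h b x * h a y + h a x * h b y) =
        (h * c0 * h) b a + (h * c0 * h) a b := by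
      rw [h2 b a, h2 a b, ← Finset.sum_add_distrib]
      refine Finset.sum_congr rfl fun x _ => ?_
      rw [← Finset.sum_add_distrib]
      refine Finset.sum_congr rfl fun y _ => ?_
      ring
    rw [h6, h4] at h1
    rw [h1]
    ring
  have hunit : IsUnit h.det := isUnit_iff_ne_zero.2 hdet
  have hch : c0 * ((2 : ℂ) • h) = 1 := by
    have h1 : (2 : ℂ) • (h * c0 * h) = h := by
      ext a b
      rw [Matrix.smul_apply, smul_eq_mul]
      exact hsec a b
    have h2 : h * (c0 * ((2 : ℂ) • h)) = h * 1 := by
      rw [Matrix.mul_smul, Matrix.mul_smul, ← Matrix.mul_assoc, h1, Matrix.mul_one]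
    have h3 : h⁻¹ * (h * (c0 * ((2 : ℂ) • h))) = h⁻¹ * (h * 1) := by rw [h2]
    rwa [← Matrix.mul_assoc, Matrix.nonsing_inv_mul h hunit, Matrix.one_mul, Matrix.mul_one,
      Matrix.nonsing_inv_mul h hunit] at h3
  obtain ⟨T, hT⟩ := exists_T c0 hc0s
  have hTU : (((2 : ℂ) • h).transpose * T.transpose) * T = 1 := by
    rw [Matrix.mul_assoc, hT, ← hc0s, ← Matrix.transpose_mul, hch, Matrix.transpose_one]
  have hTdet : T.det ≠ 0 := by
    intro h0
    have h1 := congrArg Matrix.det hTU
    rw [Matrix.det_mul, h0, mul_zero, Matrix.det_one] at h1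
    exact zero_ne_one h1
  obtain ⟨S, hS1, hS2⟩ := lift_S p c hc T _ hTU hT (N - 1)
  have hN1 : N - 1 + 1 = N := by omega
  rw [hN1] at hS2
  have hSp : ∀ a b, eval p (S a b) = T a b := by
    intro a b
    have h1 := mem_mI.1 (hS1 a b)
    rw [Matrix.sub_apply, map_sub, Matrix.map_apply, eval_C, sub_eq_zero] at h1
    exact h1
  refine ⟨fun a => ∑ z, S a z * pderiv (z : ι) f, ?_, ?_, ?_⟩
  · intro a
    rw [mem_mI, map_sum]
    refine Finset.sum_eq_zero fun z _ => ?_
    rw [map_mul, hz' z, mul_zero]
  · have h1 : (Matrix.of fun (a b : Z) => eval p (pderiv (b : ι)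
        (∑ z, S a z * pderiv (z : ι) f))) = T * h := by
      ext a b
      rw [Matrix.of_apply, map_sum, map_sum, Matrix.mul_apply]
      refine Finset.sum_congr rfl fun z _ => ?_
      rw [Derivation.leibniz, map_add, smul_eq_mul, smul_eq_mul, map_mul, map_mul, hz' z,
        zero_mul, add_zero, hSp, pd_comm, hha]
    rw [h1, Matrix.det_mul]
    exact mul_ne_zero hTdet hdet
  · have h1 : ∑ a, (∑ z, S a z * pderiv (z : ι) f) ^ 2 =
        ∑ x, ∑ y, (S.transpose * S) x y * pderiv (x : ι) f * pderiv (y : ι) f := by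
      have h2 : ∀ a, (∑ z, S a z * pderiv (z : ι) f) ^ 2 =
          ∑ x, ∑ y, S a x * S a y * pderiv (x : ι) f * pderiv (y : ι) f := by
        intro a
        rw [pow_two, Finset.sum_mul_sum]
        refine Finset.sum_congr rfl fun x _ => Finset.sum_congr rfl fun y _ => ?_
        ring
      rw [Finset.sum_congr rfl fun a _ => h2 a, Finset.sum_comm]
      refine Finset.sum_congr rfl fun x _ => ?_
      rw [Finset.sum_comm]
      refine Finset.sum_congr rfl fun y _ => ?_
      rw [Matrix.mul_apply, Finset.sum_mul, Finset.sum_mul]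
      refine Finset.sum_congr rfl fun a _ => ?_
      rw [Matrix.transpose_apply]
    have h3 : r - ∑ a, (∑ z, S a z * pderiv (z : ι) f) ^ 2 = t -
        ∑ x, ∑ y, (S.transpose * S - c) x y * pderiv (x : ι) f * pderiv (y : ι) f := by
      rw [h1, ← hrt, hr0c]
      have h4 : ∑ x, ∑ y, (S.transpose * S - c) x y * pderiv (x : ι) f * pderiv (y : ι) f =
          ∑ x, ∑ y, (S.transpose * S) x y * pderiv (x : ι) f * pderiv (y : ι) f -
            ∑ x, ∑ y, c x y * pderiv (x : ι) f * pderiv (y : ι) f := by
        rw [← Finset.sum_sub_distrib]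
        refine Finset.sum_congr rfl fun x _ => ?_
        rw [← Finset.sum_sub_distrib]
        refine Finset.sum_congr rfl fun y _ => ?_
        rw [Matrix.sub_apply]
        ring
      rw [h4]
      ring
    rw [h3]
    refine Ideal.sub_mem _ ht (Ideal.sum_mem _ fun x _ => Ideal.sum_mem _ fun y _ => ?_)
    exact Ideal.mul_mem_right _ _ (Ideal.mul_mem_right _ _ (hS2 x y))

end Pool.Agent.Mono.C9
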