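import Pool.Agent.Work.Monodromy9.N2Lib

/-! MONODROMY, phase 9, block PL9: plane germs (helper60). -/

set_option autoImplicit false

namespace Pool.Agent.Mono.C9

open MvPolynomial TS RO SP PC

namespace PL9Aux

open N2Lib

theorem cc_mul (a b : ℂ) : cc (a * b) = cc a * cc b := by
  unfold cc
  rw [map_mul, map_mul]

/-- the case of positive `n` -/
theorem main (n : ℕ) (hn : 1 ≤ n) (g : N2) (W : ℕ → Polynomial (PowerSeries ℂ)) (w : N2)
    (hw : IsUnit w) (hg : g = w * ∏ j ∈ Finset.Icc 1 n, (W j : N2) ^ j)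
    (hmul : ∀ j ∈ Finset.Icc 1 n, 1 ≤ (W j).natDegree → ∃ π g' : N2, Prime π ∧ ¬ π ∣ xx ∧
      ¬ π ∣ dY π ∧ g = π ^ j * g' ∧ ¬ π ∣ g')
    (G : ℕ → P2) (hsq : Squarefree (∏ j ∈ Finset.Icc 1 n, G j))
    (hG1 : ∀ j ∈ Finset.Icc 1 n, (W j).natDegree = 0 → G j = 1)
    (heq : ∀ k : ℕ, ∃ (ψ : N2) (v : ℕ → N2), xx ∣ ψ - yy ∧
      (∀ j ∈ Finset.Icc 1 n, e0 (v j) = 1) ∧
        ∀ j ∈ Finset.Icc 1 n, xx ^ k ∣ sub2 (G j) ψ - v j * (W j : N2)) :
    ∃ (n : ℕ) (G : ℕ → P2), PGerm g n G := by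
  classical
  set c : ℂ := e0 w with hc
  have hc0 : c ≠ 0 := N2Lib.isUnit_iff.1 hw
  have hCc : IsUnit (C c : P2) := (isUnit_iff_ne_zero.2 hc0).map C
  have h1n : (1 : ℕ) ∈ Finset.Icc 1 n := Finset.mem_Icc.2 ⟨le_rfl, hn⟩
  have hprod1 : ∏ j ∈ Finset.Icc 1 n, ((if j = 1 then C c else 1) * G j) =
      C c * ∏ j ∈ Finset.Icc 1 n, G j := by
    rw [Finset.prod_mul_distrib, Finset.prod_ite_eq', if_pos h1n]
  have hprodj : ∏ j ∈ Finset.Icc 1 n, ((if j = 1 then C c else 1) * G j) ^ j =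
      C c * ∏ j ∈ Finset.Icc 1 n, G j ^ j := by
    have h1 : ∀ j ∈ Finset.Icc 1 n, ((if j = 1 then C c else 1) * G j) ^ j =
        (if j = 1 then C c else 1) * G j ^ j := by
      intro j _
      rw [mul_pow]
      by_cases hj : j = 1
      · rw [if_pos hj, hj, pow_one]
      · rw [if_neg hj, one_pow]
    rw [Finset.prod_congr rfl h1, Finset.prod_mul_distrib, Finset.prod_ite_eq', if_pos h1n]
  refine ⟨n, fun j => (if j = 1 then C c else 1) * G j, ⟨?_, ?_, ?_⟩⟩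
  · rw [hprod1]
    exact hsq.squarefree_of_dvd (hCc.mul_left_dvd.2 dvd_rfl)
  · intro j hj h2j hnu
    refine hmul j hj ?_
    by_contra hlt
    apply hnu
    show IsUnit ((if j = 1 then C c else 1) * G j)
    rw [if_neg (by omega), one_mul, hG1 j hj (by omega)]
    exact isUnit_one
  · intro k
    obtain ⟨ψ, v, h1, h2, h3⟩ := heq k
    have h4 : ∀ j ∈ Finset.Icc 1 n, ∃ u : N2, v j * u = 1 := by
      intro j hj
      have h5 : IsUnit (v j) := by
        rw [N2Lib.isUnit_iff, h2 j hj]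
        exact one_ne_zero
      exact h5.exists_right_inv
    choose! u hu using h4
    have hu0 : ∀ j ∈ Finset.Icc 1 n, e0 (u j) = 1 := by
      intro j hj
      have h5 := congrArg e0 (hu j hj)
      rw [map_mul, h2 j hj, one_mul, map_one] at h5
      exact h5
    refine ⟨ψ, w * cc c⁻¹ * ∏ j ∈ Finset.Icc 1 n, u j ^ j, h1, ?_, ?_⟩
    · rw [map_mul, map_mul, e0_cc, ← hc, mul_inv_cancel₀ hc0, one_mul, map_prod]
      refine Finset.prod_eq_one fun j hj => ?_
      rw [map_pow, hu0 j hj, one_pow]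
    · have hmk : ∀ a b : N2, xx ^ k ∣ a - b ↔
          Ideal.Quotient.mk (Ideal.span {xx ^ k}) a = Ideal.Quotient.mk (Ideal.span {xx ^ k}) b := by
        intro a b
        rw [Ideal.Quotient.eq, Ideal.mem_span_singleton]
      rw [hmk, hprodj]
      have h6 : sub2 (C c * ∏ j ∈ Finset.Icc 1 n, G j ^ j) ψ =
          cc c * ∏ j ∈ Finset.Icc 1 n, sub2 (G j) ψ ^ j := by
        unfold sub2
        rw [map_mul, map_prod, algHom_C, N2Lib.algebraMap_eq]
        congr 1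
        exact Finset.prod_congr rfl fun j _ => by rw [map_pow]
      rw [h6]
      have h7 : w * cc c⁻¹ * (∏ j ∈ Finset.Icc 1 n, u j ^ j) *
          (cc c * ∏ j ∈ Finset.Icc 1 n, sub2 (G j) ψ ^ j) =
          w * (cc c⁻¹ * cc c) * ∏ j ∈ Finset.Icc 1 n, (u j * sub2 (G j) ψ) ^ j := by
        have h8 : ∏ j ∈ Finset.Icc 1 n, (u j * sub2 (G j) ψ) ^ j =
            (∏ j ∈ Finset.Icc 1 n, u j ^ j) * ∏ j ∈ Finset.Icc 1 n, sub2 (G j) ψ ^ j := by
          rw [← Finset.prod_mul_distrib]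
          exact Finset.prod_congr rfl fun j _ => mul_pow _ _ _
        rw [h8]
        ring
      rw [h7, ← cc_mul, inv_mul_cancel₀ hc0, cc_one, mul_one, hg, map_mul, map_mul, map_prod,
        map_prod]
      congr 1
      refine Finset.prod_congr rfl fun j hj => ?_
      rw [map_pow, map_pow, map_mul, (hmk _ _).1 (h3 j hj), map_mul, ← mul_assoc, ← map_mul,
        mul_comm (u j), hu j hj, map_one, one_mul]

end PL9Aux

open PL9Aux N2Lib in
/-- **PL9** -/
theorem stmt_PL9 (hW : Stmt_WPS9) (hC : Stmt_CE9) : Stmt_PL9 := by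
  intro g hg
  obtain ⟨n, W, w, h1, hw, h2, h3⟩ := hW g hg
  rcases Nat.eq_zero_or_pos n with hn | hn
  · -- `g` is a unit
    subst hn
    have hgw : g = w := by rw [h2]; simp
    have hWP : WP9 1 (fun _ => (1 : Polynomial (PowerSeries ℂ))) := by
      refine ⟨fun _ => Polynomial.monic_one, fun _ => ?_, fun j _ => ⟨0, 1, 0, ?_⟩⟩
      · rw [Polynomial.map_one, Polynomial.natDegree_one, pow_zero]
      · simp
    obtain ⟨G, hG1, hG2, hG3⟩ := hC 1 _ hWP
    refine main 1 le_rfl g (fun _ => 1) w hw ?_ ?_ G hG1 (fun j hj _ => hG2 j hj (by simp)) hG3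
    · rw [hgw]
      simp
    · intro j _ hj
      rw [Polynomial.natDegree_one] at hj
      omega
  · obtain ⟨G, hG1, hG2, hG3⟩ := hC n W h1
    exact main n hn g W w hw h2 h3 G hG1 hG2 hG3

end Pool.Agent.Mono.C9
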