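import Pool.Agent.Work.Monodromy.Interface9

/-!
# Phase 9, block PTQ9: functionals of `G` plus squares (helper54)
-/

set_option autoImplicit false

namespace Pool.Agent.Mono.C9

open MvPolynomial TS RO SP PC

namespace PTQ9Aux

variable {ι : Type}

/-- `g` as a polynomial in the last variable -/
noncomputable def Th : MvPolynomial (ι ⊕ Unit) ℂ →ₐ[ℂ] Polynomial (MvPolynomial ι ℂ) :=
  aeval (Sum.elim (fun i => Polynomial.C (X i)) fun _ => Polynomial.X)

theorem Th_inl (F : MvPolynomial ι ℂ) : Th (rename Sum.inl F) = Polynomial.C F := by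
  have h : (Th (ι := ι)).comp (rename Sum.inl) =
      (IsScalarTower.toAlgHom ℂ (MvPolynomial ι ℂ) (Polynomial (MvPolynomial ι ℂ))) := by
    apply MvPolynomial.algHom_ext
    intro i
    simp [Th]
  have := DFunLike.congr_fun h F
  simpa using this

theorem Th_Xinl (i : ι) : Th (X (Sum.inl i)) = Polynomial.C (X i) := by simp [Th]

theorem Th_Xinr : Th (X (Sum.inr ()) : MvPolynomial (ι ⊕ Unit) ℂ) = Polynomial.X := by
  simp [Th]

theorem Th_oplus (F : MvPolynomial ι ℂ) :
    Th (oplus F (X () ^ 2 : MvPolynomial Unit ℂ)) = Polynomial.C F + Polynomial.X ^ 2 := by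
  rw [oplus, map_add, Th_inl, map_pow, map_pow, rename_X, Th_Xinr]

theorem pderiv_inl (F : MvPolynomial ι ℂ) (a : ι) :
    pderiv (Sum.inl a) (oplus F (X () ^ 2 : MvPolynomial Unit ℂ)) =
      rename Sum.inl (pderiv a F) := by
  classical
  rw [oplus, map_add, pderiv_rename Sum.inl_injective, map_pow, rename_X, Derivation.leibniz_pow,
    pderiv_X_of_ne (by simp)]
  simp

theorem pderiv_inr (F : MvPolynomial ι ℂ) :
    pderiv (Sum.inr ()) (oplus F (X () ^ 2 : MvPolynomial Unit ℂ)) =
      2 * X (Sum.inr ()) := by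
  classical
  have h : pderiv (Sum.inr ()) (rename Sum.inl F : MvPolynomial (ι ⊕ Unit) ℂ) = 0 := by
    apply pderiv_eq_zero_of_notMem_vars
    intro hmem
    have := vars_rename Sum.inl F hmem
    simp at this
  rw [oplus, map_add, h, map_pow, rename_X, Derivation.leibniz_pow, pderiv_X_self]
  simp

/-- the coefficients of the derivatives -/
theorem coeff_pderiv_inl (a : ι) (g : MvPolynomial (ι ⊕ Unit) ℂ) (n : ℕ) :
    (Th (pderiv (Sum.inl a) g)).coeff n = pderiv a ((Th g).coeff n) := by
  classical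
  induction g using MvPolynomial.induction_on generalizing n with
  | C c =>
    rw [pderiv_C, map_zero, Polynomial.coeff_zero]
    have : Th (C c : MvPolynomial (ι ⊕ Unit) ℂ) = Polynomial.C (C c) := by
      rw [← rename_C Sum.inl c, Th_inl]
    rw [this, Polynomial.coeff_C]
    split_ifs <;> simp
  | add p q hp hq => simp [hp, hq]
  | mul_X p i hp =>
    rw [Derivation.leibniz, map_add, smul_eq_mul, smul_eq_mul, map_mul, map_mul, map_mul]
    rcases i with i | i
    · rw [Th_Xinl, Polynomial.coeff_mul_C, Polynomial.coeff_add, Polynomial.coeff_C_mul, hp,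
        Derivation.leibniz, smul_eq_mul, smul_eq_mul]
      by_cases h : a = i
      · subst h
        rw [pderiv_X_self, pderiv_X_self, map_one, mul_one, mul_one]
      · rw [pderiv_X_of_ne (fun h' => h (Sum.inl_injective h').symm), pderiv_X_of_ne (Ne.symm h)]
        simp
    · rw [Th_Xinr, pderiv_X_of_ne (by simp), map_zero, mul_zero, zero_add]
      cases n with
      | zero => simp
      | succ n => rw [mul_comm, Polynomial.coeff_mul_X, Polynomial.coeff_mul_X, hp]

theorem coeff_pderiv_inr (g : MvPolynomial (ι ⊕ Unit) ℂ) :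
    Th (pderiv (Sum.inr ()) g) = Polynomial.derivative (Th g) := by
  classical
  induction g using MvPolynomial.induction_on with
  | C c =>
    rw [pderiv_C, map_zero]
    have : Th (C c : MvPolynomial (ι ⊕ Unit) ℂ) = Polynomial.C (C c) := by
      rw [← rename_C Sum.inl c, Th_inl]
    rw [this]; simp
  | add p q hp hq => simp [hp, hq]
  | mul_X p i hp =>
    rw [Derivation.leibniz, map_add, smul_eq_mul, smul_eq_mul, map_mul, map_mul, map_mul, hp,
      Polynomial.derivative_mul]
    rcases i with i | i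
    · rw [Th_Xinl, pderiv_X_of_ne (by simp)]
      simp [mul_comm]
    · rw [Th_Xinr, pderiv_X_self]
      simp [mul_comm, add_comm]

/-- the coefficients of elements of powers of the maximal ideal -/
theorem coeff_mem (N : ℕ) : ∀ g ∈ mI (fun _ : ι ⊕ Unit => (0 : ℂ)) ^ N, ∀ n,
    (Th g).coeff n ∈ mI (fun _ : ι => (0 : ℂ)) ^ (N - n) := by
  induction N with
  | zero => intro g _ n; simp
  | succ N ih =>
    intro g hg n
    rw [pow_succ] at hg
    refine Submodule.mul_induction_on hg ?_ ?_
    · intro a ha b hb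
      rw [map_mul, Polynomial.coeff_mul]
      apply Ideal.sum_mem
      rintro ⟨i, j⟩ hij
      rw [Finset.HasAntidiagonal.mem_antidiagonal] at hij
      simp only at hij ⊢
      have h1 := ih a ha i
      have h2 : (Th b).coeff j ∈ mI (fun _ : ι => (0 : ℂ)) ^ (1 - j) := by
        cases j with
        | succ j => simp
        | zero =>
          rw [Nat.sub_zero, pow_one]
          have hb0 : eval (fun _ : ι ⊕ Unit => (0 : ℂ)) b = 0 := hb
          show eval (fun _ : ι => (0 : ℂ)) ((Th b).coeff 0) = 0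
          rw [Polynomial.coeff_zero_eq_eval_zero]
          have h3 : ((eval (fun _ : ι => (0 : ℂ))).comp
              ((Polynomial.evalRingHom (0 : MvPolynomial ι ℂ)).comp
              (Th (ι := ι)).toRingHom)) = eval (fun _ : ι ⊕ Unit => (0 : ℂ)) := by
            apply MvPolynomial.ringHom_ext
            · intro r
              have : Th (C r : MvPolynomial (ι ⊕ Unit) ℂ) = Polynomial.C (C r) := by
                rw [← rename_C Sum.inl r, Th_inl]
              simp [this]
            · intro i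
              rcases i with i | i
              · simp [Th_Xinl]
              · have e : Th (X (Sum.inr i) : MvPolynomial (ι ⊕ Unit) ℂ) = Polynomial.X := Th_Xinr
                simp [e]
          exact (DFunLike.congr_fun h3 b).trans hb0
      have h3 := Ideal.mul_mem_mul h1 h2
      rw [← pow_add] at h3
      exact Ideal.pow_le_pow_right (by omega) h3
    · intro a b ha hb
      rw [map_add, Polynomial.coeff_add]
      exact Ideal.add_mem _ ha hb

/-- the constants of the functionals of `z ^ 2` -/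
noncomputable def cc : ℕ → ℂ
  | 0 => 1
  | n + 1 => -((n : ℂ) + 1 / 2) * cc n

/-- the coefficient of `z ^ n` -/
noncomputable def cf (n : ℕ) : MvPolynomial (ι ⊕ Unit) ℂ →ₗ[ℂ] MvPolynomial ι ℂ :=
  ((Polynomial.lcoeff (MvPolynomial ι ℂ) n).restrictScalars ℂ) ∘ₗ (Th (ι := ι)).toLinearMap

theorem cf_apply (n : ℕ) (g : MvPolynomial (ι ⊕ Unit) ℂ) : cf n g = (Th g).coeff n := rfl

/-- the functionals of `F + z ^ 2` -/
noncomputable def W (v : ℕ → MvPolynomial ι ℂ →ₗ[ℂ] ℂ) (m : ℕ) :
    MvPolynomial (ι ⊕ Unit) ℂ →ₗ[ℂ] ℂ :=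
  ∑ p ∈ Finset.HasAntidiagonal.antidiagonal m, cc p.2 • (v p.1 ∘ₗ cf (2 * p.2))

theorem W_apply (v : ℕ → MvPolynomial ι ℂ →ₗ[ℂ] ℂ) (m : ℕ) (g : MvPolynomial (ι ⊕ Unit) ℂ) :
    W v m g = ∑ p ∈ Finset.HasAntidiagonal.antidiagonal m, cc p.2 * v p.1 ((Th g).coeff (2 * p.2)) := by
  simp [W, LinearMap.sum_apply, cf_apply]

theorem step [Fintype ι] (F : MvPolynomial ι ℂ) (β : ℂ) (h : PtW (fun _ => 0) F β) :
    PtW (fun _ => 0) (oplus F (X () ^ 2 : MvPolynomial Unit ℂ)) (β - 1 / 2) := by
  classical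
  obtain ⟨v, hv0, hsupp, hd0, hF0, hd, hF⟩ := h
  refine ⟨W v, ?_, ?_, ?_, ?_, ?_, ?_⟩
  · intro hW
    apply hv0
    refine LinearMap.ext fun g => ?_
    have := DFunLike.congr_fun hW (rename Sum.inl g)
    rw [W_apply, Finset.Nat.antidiagonal_zero, Finset.sum_singleton, Th_inl] at this
    simpa [cc] using this
  · intro m
    choose N hN using hsupp
    refine ⟨∑ p ∈ Finset.HasAntidiagonal.antidiagonal m, (N p.1 + 2 * p.2), ?_⟩
    intro g hg
    rw [W_apply]
    apply Finset.sum_eq_zero
    intro p hp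
    have h1 : N p.1 + 2 * p.2 ≤ ∑ p ∈ Finset.HasAntidiagonal.antidiagonal m, (N p.1 + 2 * p.2) :=
      Finset.single_le_sum (f := fun p : ℕ × ℕ => N p.1 + 2 * p.2) (fun _ _ => Nat.zero_le _) hp
    have h2 := coeff_mem _ g hg (2 * p.2)
    have h3 := hN p.1 _ (Ideal.pow_le_pow_right (by omega) h2)
    rw [h3, mul_zero]
  · intro a g
    rw [W_apply, Finset.Nat.antidiagonal_zero, Finset.sum_singleton]
    rcases a with a | a
    · rw [pderiv_inl, map_mul, Th_inl, Polynomial.coeff_C_mul, hd0, mul_zero]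
    · rw [pderiv_inr, map_mul, map_mul, Th_Xinr]
      simp
  · intro g
    rw [W_apply, Finset.Nat.antidiagonal_zero, Finset.sum_singleton, map_mul, Th_oplus,
      add_mul, Polynomial.coeff_add, Polynomial.coeff_C_mul, map_add]
    have h0 : (Polynomial.X ^ 2 * Th g).coeff (2 * 0) = 0 := by
      rw [pow_two, mul_assoc]; simp
    rw [show ((0 : ℕ), (0 : ℕ)).1 = 0 from rfl, hF0, h0]
    simp
  · intro m a g
    rw [W_apply, W_apply]
    rcases a with a | a
    · rw [Finset.Nat.sum_antidiagonal_succ, pderiv_inl]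
      simp only [map_mul, Th_inl, Polynomial.coeff_C_mul, hd0, mul_zero, zero_add, hd]
      rw [← Finset.sum_neg_distrib]
      apply Finset.sum_congr rfl
      intro p _
      rw [coeff_pderiv_inl]
      ring
    · rw [Finset.Nat.sum_antidiagonal_succ', pderiv_inr]
      have h0 : (Th (2 * X (Sum.inr ()) * g : MvPolynomial (ι ⊕ Unit) ℂ)).coeff (2 * 0) = 0 := by
        rw [map_mul, map_mul, Th_Xinr]
        simp
      rw [h0, map_zero, mul_zero, zero_add, ← Finset.sum_neg_distrib]
      apply Finset.sum_congr rfl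
      intro p _
      have h1 : (Th (2 * X (Sum.inr ()) * g : MvPolynomial (ι ⊕ Unit) ℂ)).coeff
          (2 * (p.2 + 1)) = (2 : ℂ) • (Th g).coeff (2 * p.2 + 1) := by
        rw [map_mul, map_mul, Th_Xinr, show 2 * (p.2 + 1) = 2 * p.2 + 1 + 1 by ring, mul_assoc,
          mul_left_comm, Polynomial.coeff_X_mul]
        have : (Th (2 : MvPolynomial (ι ⊕ Unit) ℂ)) = Polynomial.C (C 2) := by
          have : (2 : MvPolynomial (ι ⊕ Unit) ℂ) = C 2 := (map_ofNat C 2).symm
          rw [this, ← rename_C Sum.inl, Th_inl]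
        rw [this, Polynomial.coeff_C_mul, MvPolynomial.C_mul']
      have h2 : (Th (pderiv (Sum.inr ()) g)).coeff (2 * p.2) =
          (2 * (p.2 : ℂ) + 1) • (Th g).coeff (2 * p.2 + 1) := by
        rw [coeff_pderiv_inr, Polynomial.coeff_derivative, mul_comm, ← MvPolynomial.C_mul']
        congr 1
        rw [map_add, map_mul, map_one, map_ofNat, map_natCast]
        push_cast
        ring
      show cc (p.2 + 1) * v p.1 ((Th (2 * X (Sum.inr ()) * g : MvPolynomial (ι ⊕ Unit) ℂ)).coeff
          (2 * (p.2 + 1))) = _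
      rw [h1, h2, map_smul, map_smul, smul_eq_mul, smul_eq_mul, cc]
      ring
  · intro m g
    rw [W_apply, W_apply]
    have e1 : ∀ n, (Th (oplus F (X () ^ 2 : MvPolynomial Unit ℂ) * g)).coeff n =
        F * (Th g).coeff n + (Polynomial.X ^ 2 * Th g).coeff n := by
      intro n
      rw [map_mul, Th_oplus, add_mul, Polynomial.coeff_add, Polynomial.coeff_C_mul]
    simp only [e1, map_add, mul_add]
    rw [Finset.sum_add_distrib, Finset.Nat.sum_antidiagonal_succ,
      Finset.Nat.sum_antidiagonal_succ']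
    have h0 : (Polynomial.X ^ 2 * Th g).coeff (2 * 0) = 0 := by
      rw [pow_two, mul_assoc]; simp
    rw [hF0, mul_zero, zero_add, h0, map_zero, mul_zero, zero_add, ← Finset.sum_add_distrib,
      Finset.mul_sum]
    apply Finset.sum_congr rfl
    intro p hp
    rw [Finset.HasAntidiagonal.mem_antidiagonal] at hp
    have h1 : (Polynomial.X ^ 2 * Th g).coeff (2 * (p.2 + 1)) = (Th g).coeff (2 * p.2) := by
      rw [show 2 * (p.2 + 1) = 2 * p.2 + 2 by ring, Polynomial.coeff_X_pow_mul]
    show cc p.2 * v (p.1 + 1) (F * (Th g).coeff (2 * p.2)) +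
      cc (p.2 + 1) * v p.1 ((Polynomial.X ^ 2 * Th g).coeff (2 * (p.2 + 1))) = _
    rw [hF, h1, cc, ← hp]
    push_cast
    ring

theorem ren {ι κ : Type} (φ : ι ≃ κ) (F : MvPolynomial ι ℂ) (β : ℂ)
    (h : PtW (fun _ => 0) F β) : PtW (fun _ => 0) (rename φ F) β := by
  obtain ⟨v, hv0, hsupp, hd0, hF0, hd, hF⟩ := h
  have hsymm : ∀ g : MvPolynomial ι ℂ, rename φ.symm (rename φ g) = g := by
    intro g
    rw [rename_rename]
    simp
  have hpd : ∀ (a : κ) (g : MvPolynomial κ ℂ),
      rename φ.symm (pderiv a g) = pderiv (φ.symm a) (rename φ.symm g) := by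
    intro a g
    rw [pderiv_rename φ.symm.injective]
  refine ⟨fun i => v i ∘ₗ (rename φ.symm).toLinearMap, ?_, ?_, ?_, ?_, ?_, ?_⟩
  · intro h0
    apply hv0
    refine LinearMap.ext fun g => ?_
    have := DFunLike.congr_fun h0 (rename φ g)
    simpa [hsymm] using this
  · intro i
    obtain ⟨N, hN⟩ := hsupp i
    refine ⟨N, fun g hg => ?_⟩
    show v i (rename φ.symm g) = 0
    apply hN
    have h1 : (mI (fun _ : κ => (0 : ℂ)) ^ N).map
        ((rename φ.symm : MvPolynomial κ ℂ →ₐ[ℂ] MvPolynomial ι ℂ) : _ →+* _) ≤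
        mI (fun _ : ι => (0 : ℂ)) ^ N := by
      rw [Ideal.map_pow]
      apply Ideal.pow_right_mono
      rw [Ideal.map_le_iff_le_comap]
      intro b hb
      show eval (fun _ : ι => (0 : ℂ)) (rename φ.symm b) = 0
      have hb0 : eval (fun _ : κ => (0 : ℂ)) b = 0 := hb
      rw [eval_rename]
      exact hb0
    exact h1 (Ideal.mem_map_of_mem _ hg)
  · intro a g
    show v 0 (rename φ.symm (pderiv a (rename φ F) * g)) = 0
    rw [map_mul, hpd, hsymm, hd0]
  · intro g
    show v 0 (rename φ.symm (rename φ F * g)) = 0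
    rw [map_mul, hsymm, hF0]
  · intro i a g
    show v (i + 1) (rename φ.symm (pderiv a (rename φ F) * g)) =
      -v i (rename φ.symm (pderiv a g))
    rw [map_mul, hpd, hsymm, hd, hpd]
  · intro i g
    show v (i + 1) (rename φ.symm (rename φ F * g)) = (β - i) * v i (rename φ.symm g)
    rw [map_mul, hsymm, hF]

end PTQ9Aux

open PTQ9Aux in
theorem stmt_PTQ9 (hGGI : Stmt_GGI9) : Stmt_PTQ9 := by
  intro G β h ι _ _ Z u v huv hZ
  refine hGGI (fun ι _ F k => PtW (fun _ => 0) F (β - (k : ℂ) / 2)) ?_ ?_ G ?_ ι Z u v huv hZ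
  · intro ι _ F k hk
    have := step F _ hk
    have e : β - (k : ℂ) / 2 - 1 / 2 = β - ((k + 1 : ℕ) : ℂ) / 2 := by push_cast; ring
    rwa [e] at this
  · intro ι κ _ _ φ F k hk
    exact ren φ F _ hk
  · simpa using h

end Pool.Agent.Mono.C9
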