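import Pool.Agent.Work.Monodromy.Interface9
import Pool.Agent.Work.Monodromy8.ISO8A
import Pool.Agent.Work.Monodromy6.WE

/-!
# Block PTS9 (helper72): functionals at semi-quasi-homogeneous points, with support
-/

set_option autoImplicit false
set_option linter.unusedSectionVars false

namespace Pool.Agent.Mono.C9

open MvPolynomial TS RO SP PC

namespace PTS9Aux

open WDAux WCAux WBAux

variable {ι : Type} [Fintype ι] [DecidableEq ι]

/-- polynomials in a power of the maximal ideal of the origin have weight at least the exponent -/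
theorem hi_of_mI {w : ι → ℕ} (hw : ∀ a, 1 ≤ w a) (N : ℕ) {g : MvPolynomial ι ℂ}
    (hg : g ∈ mI (fun _ : ι => (0 : ℂ)) ^ N) : g ∈ hi w N := by
  have h1 : g ∈ idealOfVars ι ℂ ^ N := by
    have e : mI (fun _ : ι => (0 : ℂ)) = idealOfVars ι ℂ := by
      ext g
      rw [ISO8Aux.mem_mm]
      rfl
    rwa [e] at hg
  rw [mem_pow_idealOfVars_iff] at h1
  intro d hd
  refine le_trans (h1 d hd) ?_
  rw [Finsupp.degree, Finsupp.weight_apply, Finsupp.sum]
  refine Finset.sum_le_sum fun a _ => ?_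
  rw [smul_eq_mul]
  exact Nat.le_mul_of_pos_right _ (hw a)

/-- support of the truncated exponential series -/
theorem SS_supp {w : ι → ℕ} (hw : ∀ a, 1 ≤ w a) {D : ℕ} {v : ℕ → MvPolynomial ι ℂ →ₗ[ℂ] ℂ}
    (hS : ∀ i, Sup w (D * i) (v i)) (h : MvPolynomial ι ℂ) (J i : ℕ) {g : MvPolynomial ι ℂ}
    (hg : g ∈ mI (fun _ : ι => (0 : ℂ)) ^ (D * (i + J) + 1)) : SS v h J i g = 0 := by
  rw [SS_apply]
  refine Finset.sum_eq_zero fun j hj => ?_
  rw [Finset.mem_range] at hj
  have h1 : h ^ j * g ∈ hi w (D * (i + J) + 1) := Ideal.mul_mem_left _ _ (hi_of_mI hw _ hg)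
  rw [sup_hi (N := D * (i + j)) (M := D * (i + J) + 1) ?_ (hS (i + j)) h1, mul_zero]
  have : D * (i + j) ≤ D * (i + J) := Nat.mul_le_mul_left _ (by omega)
  omega

/-- functionals with support, `v_0` a multiple of the evaluation -/
def FWS (p : ι → ℂ) (F : MvPolynomial ι ℂ) (β : ℂ) : Prop :=
  eval p F = 0 ∧ (∀ a, eval p (pderiv a F) = 0) ∧
    ∃ (v : ℕ → MvPolynomial ι ℂ →ₗ[ℂ] ℂ) (c : ℂ), c ≠ 0 ∧ (∀ g, v 0 g = c * eval p g) ∧
      (∀ i, ∃ N : ℕ, ∀ g ∈ mI p ^ N, v i g = 0) ∧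
      (∀ i a g, v (i + 1) (pderiv a F * g) = -v i (pderiv a g)) ∧
      ∀ (i : ℕ) (g : MvPolynomial ι ℂ), v (i + 1) (F * g) = (β - i) * v i g

theorem FWS.ptw {p : ι → ℂ} {F : MvPolynomial ι ℂ} {β : ℂ} (h : FWS p F β) : PtW p F β := by
  obtain ⟨hF, hF', v, c, hc, h0, hN, h1, h2⟩ := h
  refine ⟨v, ?_, hN, ?_, ?_, h1, h2⟩
  · intro h
    have h3 := h0 1
    rw [h, map_one (eval p), mul_one, LinearMap.zero_apply] at h3
    exact hc h3.symm
  · intro a g
    rw [h0, map_mul, hF' a, zero_mul, mul_zero]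
  · intro g
    rw [h0, map_mul, hF, zero_mul, mul_zero]

/-- `Stmt_WC` with support -/
theorem wc (w : ι → ℕ) (D : ℕ) (F0 F : MvPolynomial ι ℂ) (β : ℂ)
    (hw : ∀ a, 1 ≤ w a) (_hD : 1 ≤ D) (_hF0 : IsWeightedHomogeneous w F0 D)
    (hF : ∀ d ∈ (F - F0).support, D < Finsupp.weight w d)
    (hF00 : eval (fun _ => 0) F = 0) (hFd : ∀ a, eval (fun _ => 0) (pderiv a F) = 0)
    (v : ℕ → MvPolynomial ι ℂ →ₗ[ℂ] ℂ) (hv0 : ∀ g, v 0 g = eval (fun _ => 0) g)
    (hS : ∀ (i : ℕ) (g : MvPolynomial ι ℂ), (∀ d ∈ g.support, Finsupp.weight w d ≠ D * i) →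
        v i g = 0)
    (hR : ∀ i a g, v (i + 1) (pderiv a F0 * g) = -v i (pderiv a g))
    (hE : ∀ (i : ℕ) (g : MvPolynomial ι ℂ), v (i + 1) (F0 * g) = (β - i) * v i g) :
    FWS (fun _ => 0) F β := by
  set h : MvPolynomial ι ℂ := F - F0 with hh
  have hF' : F = F0 + h := by rw [hh]; ring
  have hhi : h ∈ hi w (D + 1) := fun d hd => hF d hd
  have hfac : ∀ j : ℕ, ((j + 1).factorial : ℂ)⁻¹ * ((j + 1 : ℕ) : ℂ) = (j.factorial : ℂ)⁻¹ := by
    intro j
    have h1 : (j.factorial : ℂ) ≠ 0 := by exact_mod_cast j.factorial_ne_zero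
    have h2 : ((j + 1 : ℕ) : ℂ) ≠ 0 := by exact_mod_cast j.succ_ne_zero
    rw [Nat.factorial_succ]
    push_cast at h2 ⊢
    field_simp
  refine ⟨hF00, hFd, fun i => SS v h (D * i + 1) i, 1, one_ne_zero, ?_, ?_, ?_, ?_⟩
  · intro g
    rw [SS_apply]
    simp [hv0]
  · intro i
    exact ⟨_, fun g hg => SS_supp hw hS h _ i hg⟩
  · intro i a g
    have hJ1 : D * (i + 1) + 1 ≤ D * (i + 1) + 1 + 1 := by omega
    rw [SS_eq hS hhi hJ1, SS_eq hS hhi (J := D * (i + 1) + 1 + 1) (by rw [mul_add]; omega)]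
    set J := D * (i + 1) + 1 with hJ
    have h1 : ∀ j, v (i + 1 + j) (h ^ j * (pderiv a F * g)) =
        v (i + 1 + j) (h ^ j * (pderiv a h * g)) - v (i + j) (h ^ j * pderiv a g) -
          v (i + j) (pderiv a (h ^ j) * g) := by
      intro j
      have h2 : h ^ j * (pderiv a F * g) = h ^ j * (pderiv a h * g) +
          pderiv a F0 * (h ^ j * g) := by
        rw [hF', map_add]
        ring
      have h3 := hR (i + j) a (h ^ j * g)
      rw [show i + j + 1 = i + 1 + j by ring] at h3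
      rw [h2, map_add, h3, Derivation.leibniz, map_add]
      simp only [smul_eq_mul]
      rw [mul_comm g (pderiv a (h ^ j))]
      ring
    rw [SS_apply, SS_apply]
    have h4 : ∑ j ∈ Finset.range (J + 1), (j.factorial : ℂ)⁻¹ * v (i + j) (pderiv a (h ^ j) * g) =
        ∑ j ∈ Finset.range (J + 1), (j.factorial : ℂ)⁻¹ *
          v (i + 1 + j) (h ^ j * (pderiv a h * g)) := by
      rw [Finset.sum_range_succ' _ J, Finset.sum_range_succ _ J]
      have h5 : v (i + 1 + J) (h ^ J * (pderiv a h * g)) = 0 := van hS hhi (by omega) _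
      have h55 : pderiv a (h ^ 0) = 0 := by rw [pow_zero, pderiv_one]
      rw [h5, h55, zero_mul, map_zero, mul_zero, mul_zero, add_zero, add_zero]
      refine Finset.sum_congr rfl fun j _ => ?_
      rw [Derivation.leibniz_pow]
      simp only [Nat.add_sub_cancel, smul_eq_mul, nsmul_eq_mul]
      have h6 : ((j + 1 : ℕ) : MvPolynomial ι ℂ) * (h ^ j * pderiv a h) * g =
          (j + 1) • (h ^ j * (pderiv a h * g)) := by
        rw [nsmul_eq_mul]
        ring
      rw [h6, map_nsmul, nsmul_eq_mul, ← mul_assoc, hfac, show i + (j + 1) = i + 1 + j by ring]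
    rw [Finset.sum_congr rfl fun j _ => by rw [h1 j]]
    simp only [mul_sub, Finset.sum_sub_distrib]
    rw [h4]
    ring
  · intro i g
    have hJ1 : D * (i + 1) + 1 ≤ D * (i + 1) + 1 + 1 := by omega
    rw [SS_eq hS hhi hJ1, SS_eq hS hhi (J := D * (i + 1) + 1 + 1) (by rw [mul_add]; omega)]
    set J := D * (i + 1) + 1 with hJ
    have h1 : ∀ j, v (i + 1 + j) (h ^ j * (F * g)) =
        (β - i - j) * v (i + j) (h ^ j * g) + v (i + (j + 1)) (h ^ (j + 1) * g) := by
      intro j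
      have h2 : h ^ j * (F * g) = F0 * (h ^ j * g) + h ^ (j + 1) * g := by
        rw [hF']
        ring
      have h3 := hE (i + j) (h ^ j * g)
      rw [show i + j + 1 = i + 1 + j by ring] at h3
      rw [h2, map_add, h3, show i + (j + 1) = i + 1 + j by ring]
      push_cast
      ring
    rw [SS_apply, SS_apply, Finset.sum_congr rfl fun j _ => by rw [h1 j]]
    simp only [mul_add, Finset.sum_add_distrib]
    have h4 : ∑ j ∈ Finset.range (J + 1), (j.factorial : ℂ)⁻¹ *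
        v (i + (j + 1)) (h ^ (j + 1) * g) =
        ∑ j ∈ Finset.range (J + 1), (j.factorial : ℂ)⁻¹ * (j * v (i + j) (h ^ j * g)) := by
      rw [Finset.sum_range_succ _ J, Finset.sum_range_succ' _ J]
      have h5 : v (i + (J + 1)) (h ^ (J + 1) * g) = 0 :=
        van hS hhi (by rw [hJ, mul_add]; omega) _
      rw [h5]
      simp only [mul_zero, add_zero, Nat.cast_zero, zero_mul]
      refine Finset.sum_congr rfl fun j _ => ?_
      rw [← mul_assoc, hfac]
    rw [h4, ← Finset.sum_add_distrib, Finset.mul_sum]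
    refine Finset.sum_congr rfl fun j _ => ?_
    ring

/-- `Stmt_WB` with support -/
theorem wb (p : ι → ℂ) (φ : ι → MvPolynomial ι ℂ)
    (f : MvPolynomial ι ℂ) (β : ℂ) (hφ : ∀ a, eval (fun _ => 0) (φ a) = p a)
    (hJ : (Matrix.of fun a b => eval (fun _ => (0 : ℂ)) (pderiv b (φ a))).det ≠ 0)
    (hFW : FWS (fun _ => 0) (bind₁ φ f) β) : FWS p f β := by
  obtain ⟨hf, hf', v, c, hc, h0, hN, h1, h2⟩ := hFW
  have hdet : eval (fun _ => (0 : ℂ)) (jac φ).det =
      (Matrix.of fun a b => eval (fun _ => (0 : ℂ)) (pderiv b (φ a))).det := by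
    rw [RingHom.map_det]
    rfl
  have hJ0 : eval (fun _ => (0 : ℂ)) (jac φ).det ≠ 0 := by
    rw [hdet]
    exact hJ
  have hJ1 : (jac φ).det ≠ 0 := by
    intro h
    apply hJ0
    rw [h, map_zero]
  refine ⟨?_, ?_, fun i => (v i).comp ((LinearMap.mulLeft ℂ (jac φ).det).comp
    (bind₁ φ).toLinearMap), c * eval (fun _ => 0) (jac φ).det, mul_ne_zero hc hJ0, ?_, ?_, ?_, ?_⟩
  · rw [← eval_bind φ f p hφ]
    exact hf
  · have key : Matrix.vecMul (fun a => eval p (pderiv a f))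
        (Matrix.of fun a b => eval (fun _ => (0 : ℂ)) (pderiv b (φ a))) = 0 := by
      funext b
      have h3 := hf' b
      rw [chain, map_sum] at h3
      rw [Pi.zero_apply]
      refine Eq.trans ?_ h3
      change ∑ a, eval p (pderiv a f) * eval (fun _ => (0 : ℂ)) (pderiv b (φ a)) = _
      refine Finset.sum_congr rfl fun a _ => ?_
      rw [map_mul, eval_bind φ _ p hφ]
    have h4 := Matrix.eq_zero_of_vecMul_eq_zero hJ key
    exact fun a => congrFun h4 a
  · intro g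
    change v 0 ((jac φ).det * bind₁ φ g) = _
    rw [h0, map_mul, eval_bind φ g p hφ]
    ring
  · intro i
    obtain ⟨N, hN⟩ := hN i
    refine ⟨N, fun g hg => ?_⟩
    change v i ((jac φ).det * bind₁ φ g) = 0
    refine hN _ (Ideal.mul_mem_left _ _ ?_)
    have e1 : Ideal.map (bind₁ φ : MvPolynomial ι ℂ →+* MvPolynomial ι ℂ) (mI p) ≤
        mI (fun _ => (0 : ℂ)) := by
      rw [Ideal.map_le_iff_le_comap]
      intro x hx
      change eval (fun _ => (0 : ℂ)) (bind₁ φ x) = 0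
      rw [eval_bind φ x p hφ]
      exact hx
    have e2 : Ideal.map (bind₁ φ : MvPolynomial ι ℂ →+* MvPolynomial ι ℂ) (mI p ^ N) ≤
        mI (fun _ => (0 : ℂ)) ^ N := by
      rw [Ideal.map_pow]
      exact Ideal.pow_right_mono e1 N
    exact e2 (Ideal.mem_map_of_mem _ hg)
  · intro i a g
    change v (i + 1) ((jac φ).det * bind₁ φ (pderiv a f * g)) =
      -v i ((jac φ).det * bind₁ φ (pderiv a g))
    rw [map_mul (bind₁ φ), ← mul_assoc, det_bind, Finset.sum_mul, map_sum]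
    have h3 : ∀ b, v (i + 1) (pderiv b (bind₁ φ f) * (jac φ).adjugate b a * bind₁ φ g) =
        -v i (pderiv b ((jac φ).adjugate b a * bind₁ φ g)) := by
      intro b
      rw [mul_assoc, h1]
    simp only [h3]
    rw [Finset.sum_neg_distrib, ← map_sum, det_bind]
    congr 2
    have h4 : ∀ b, pderiv b ((jac φ).adjugate b a * bind₁ φ g) =
        pderiv b (bind₁ φ g) * (jac φ).adjugate b a +
          pderiv b ((jac φ).adjugate b a) * bind₁ φ g := by
      intro b
      rw [Derivation.leibniz]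
      simp only [smul_eq_mul]
      ring
    simp only [h4]
    rw [Finset.sum_add_distrib, ← Finset.sum_mul (f := fun b => pderiv b ((jac φ).adjugate b a)),
      piola φ hJ1 a, zero_mul, add_zero]
  · intro i g
    change v (i + 1) ((jac φ).det * bind₁ φ (f * g)) = (β - i) * v i ((jac φ).det * bind₁ φ g)
    rw [map_mul (bind₁ φ), ← h2]
    congr 1
    ring

end PTS9Aux

open PTS9Aux WEAux

theorem stmt_PTS9 : Stmt_PTS9 := by
  rintro ι _ _ f p r hf hcrit ⟨w, D, φ, hφ, hJ, hSQ, hr⟩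
  rw [hf, C_0, sub_zero] at hSQ
  have hSQ' := hSQ
  obtain ⟨hw, hD, hsup, hini⟩ := hSQ'
  have he0 : eval (fun _ => (0 : ℂ)) (bind₁ φ f) = 0 := by
    rw [WBAux.eval_bind φ f p hφ, hf]
  have hg0 : ∀ b, eval (fun _ => (0 : ℂ)) (pderiv b (bind₁ φ f)) = 0 := by
    intro b
    rw [WBAux.chain φ f b, map_sum]
    refine Finset.sum_eq_zero fun a _ => ?_
    rw [map_mul, WBAux.eval_bind φ _ p hφ, hcrit a, zero_mul]
  obtain ⟨v, h0, h1, h2, h3⟩ := stmt_WD stmt_K6 ι w D _ (SQ_ini hSQ) (ini_homog w D _)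
  have hFW0 := wc w D _ _ _ hw hD (ini_homog w D _) (rest_support hsup) he0 hg0 v h0 h1 h2 h3
  have hβ : (-(r : ℂ)) = -((∑ a, w a : ℕ) : ℂ) / (D : ℂ) := by
    rw [hr]
    push_cast
    ring
  rw [hβ]
  exact (wb p φ _ _ hφ hJ hFW0).ptw

end Pool.Agent.Mono.C9
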