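import Pool.Agent.Work.Monodromy.Interface9

/-!
# Phase 9, block PTT9: functionals of the plane germ (helper54)
-/

set_option autoImplicit false

namespace Pool.Agent.Mono.C9

open MvPolynomial TS RO SP PC

namespace PTT9Aux

theorem mI_le (ι : Type) : mI (fun _ : ι => (0 : ℂ)) ≤ idealOfVars ι ℂ := by
  intro g hg
  rw [← pow_one (idealOfVars ι ℂ), mem_pow_idealOfVars_iff']
  intro x hx
  have hx0 : x = 0 := by
    have : Finsupp.degree x = 0 := by omega
    exact (Finsupp.degree_eq_zero_iff x).1 this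
  subst hx0
  have h0 : eval (fun _ : ι => (0 : ℂ)) g = 0 := hg
  have h1 : constantCoeff g = 0 := by
    rw [← h0]
    exact (RingHom.congr_fun (eval_zero' (R := ℂ) (σ := ι)) g).symm
  exact h1

/-- a functional which kills the multiples of all monomials of degree `≥ K` kills `m ^ K` -/
theorem kills (l : P2 →ₗ[ℂ] ℂ) (K : ℕ)
    (h : ∀ a b : ℕ, K ≤ a + b → ∀ ψ, l (X 0 ^ a * X 1 ^ b * ψ) = 0) :
    ∀ g ∈ mI (fun _ : Fin 2 => (0 : ℂ)) ^ K, l g = 0 := by
  intro g hg
  have hg1 : g ∈ idealOfVars (Fin 2) ℂ ^ K := Ideal.pow_right_mono (mI_le (Fin 2)) K hg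
  rw [mem_pow_idealOfVars_iff] at hg1
  rw [g.as_sum, map_sum]
  apply Finset.sum_eq_zero
  intro d hd
  have h1 : K ≤ d 0 + d 1 := by
    have := hg1 d hd
    rwa [Finsupp.degree_eq_sum, Fin.sum_univ_two] at this
  have h2 : monomial d (coeff d g) = X 0 ^ d 0 * X 1 ^ d 1 * C (coeff d g) := by
    rw [monomial_eq, Finsupp.prod_fintype _ _ (by simp), Fin.prod_univ_two, mul_comm]
  rw [h2]
  exact h _ _ h1 _

end PTT9Aux

open PTT9Aux in
theorem stmt_PTT9 : Stmt_PTT9 := by
  intro G r hG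
  obtain ⟨ga, z, hneg, hga, l, hl, hne⟩ := hG
  classical
  set i0 := Nat.find hne with hi0
  have hi0' : l i0 ≠ 0 := Nat.find_spec hne
  have hlt : ∀ i < i0, l i = 0 := by
    intro i hi
    have := Nat.find_min hne hi
    push Not at this
    exact this
  refine ⟨ga - i0, z - i0, ?_, ?_, fun i => l (i + i0), ?_, ?_, ?_, ?_, ?_, ?_⟩
  · have : (0 : ℚ) ≤ (i0 : ℚ) := by positivity
    linarith
  · push_cast
    rw [hga]; ring
  · simpa using hi0'
  · intro i
    obtain ⟨K, hK⟩ := hl.supp (i + i0)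
    exact ⟨K, kills _ K hK⟩
  · intro a g
    show l (0 + i0) (pderiv a G * g) = 0
    have hax : (∀ i ψ, l (i + 1) (pderiv a G * ψ) = -l i (pderiv a ψ)) ∧
        ∀ ψ, l 0 (pderiv a G * ψ) = 0 := by
      fin_cases a
      · exact hl.ax0.2 rfl
      · exact hl.ax1.2 rfl
    rw [zero_add]
    rcases Nat.eq_zero_or_pos i0 with h | h
    · rw [h]; exact hax.2 g
    · obtain ⟨k, hk⟩ := Nat.exists_eq_succ_of_ne_zero h.ne'
      rw [hk, Nat.succ_eq_add_one, hax.1, hlt k (by omega)]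
      simp
  · intro g
    show l (0 + i0) (G * g) = 0
    rw [zero_add]
    rcases Nat.eq_zero_or_pos i0 with h | h
    · rw [h]; exact hl.mul0 g
    · obtain ⟨k, hk⟩ := Nat.exists_eq_succ_of_ne_zero h.ne'
      rw [hk, Nat.succ_eq_add_one, hl.mulG, hlt k (by omega)]
      simp
  · intro i a g
    show l (i + 1 + i0) (pderiv a G * g) = -l (i + i0) (pderiv a g)
    have hax : (∀ i ψ, l (i + 1) (pderiv a G * ψ) = -l i (pderiv a ψ)) := by
      fin_cases a
      · exact (hl.ax0.2 rfl).1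
      · exact (hl.ax1.2 rfl).1
    rw [show i + 1 + i0 = i + i0 + 1 by ring, hax]
  · intro i g
    show l (i + 1 + i0) (G * g) = (((ga - i0 : ℚ) : ℂ) - i) * l (i + i0) g
    rw [show i + 1 + i0 = i + i0 + 1 by ring, hl.mulG]
    push_cast
    ring

end Pool.Agent.Mono.C9
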