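import Pool.Agent.Work.Monodromy.Interface9

/-!
# Block REC9 (helper58): sequences with the recurrence of `VGC9`
-/

set_option autoImplicit false

namespace Pool.Agent.Mono.C9

open MvPolynomial TS RO SP PC

theorem stmt_REC9 : Stmt_REC9 := by
  intro κ D ν hD h
  have hden : ((denP [(1, 1), (D, ν)] : Polynomial K) : PowerSeries K) =
      (1 - PowerSeries.C xq * PowerSeries.X ^ 1) *
        (1 - PowerSeries.C (xq ^ ν) * PowerSeries.X ^ D) := by
    simp [denP]
  refine ⟨[(1, 1), (D, ν)],
    PowerSeries.trunc (D + 2) ((denP [(1, 1), (D, ν)] : PowerSeries K) * PowerSeries.mk κ),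
    ?_, ?_⟩
  · intro q hq
    simp only [List.mem_cons, List.not_mem_nil, or_false] at hq
    rcases hq with rfl | rfl
    · exact ⟨le_rfl, by simp⟩
    · exact ⟨hD, by simp⟩
  · ext n
    rw [Polynomial.coeff_coe, PowerSeries.coeff_trunc]
    split_ifs with hn
    · rfl
    · obtain ⟨m, hm⟩ : ∃ m, n = m + 1 + D := ⟨n - 1 - D, by omega⟩
      have hm1 : 1 ≤ m := by omega
      subst hm
      rw [hden, mul_assoc, sub_mul, one_mul, map_sub, mul_assoc (PowerSeries.C xq),
        PowerSeries.coeff_C_mul, show m + 1 + D = (m + D) + 1 by ring,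
        PowerSeries.coeff_X_pow_mul, sub_mul, one_mul, map_sub, map_sub,
        mul_assoc (PowerSeries.C (xq ^ ν)), PowerSeries.coeff_C_mul, PowerSeries.coeff_C_mul,
        show m + D + 1 = (m + 1) + D by ring, PowerSeries.coeff_X_pow_mul,
        PowerSeries.coeff_X_pow_mul]
      simp only [PowerSeries.coeff_mk]
      linear_combination h m hm1

end Pool.Agent.Mono.C9
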