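import Pool.Agent.Work.Monodromy.Interface9

/-! # Phase 9, block RED9: reduction modulo the `∂_z f` -/

set_option autoImplicit false
set_option linter.unusedSectionVars false

namespace Pool.Agent.Mono.C9

open MvPolynomial TS RO SP PC

namespace RED9Aux

variable {ι : Type} [Fintype ι] [DecidableEq ι]

/-- local coordinates -/
noncomputable def vv (q : ι → ℂ) (a : ι) : MvPolynomial ι ℂ := X a - C (q a)

lemma mem_mI (q : ι → ℂ) (g : MvPolynomial ι ℂ) : g ∈ mI q ↔ eval q g = 0 := RingHom.mem_ker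

lemma vv_mem (q : ι → ℂ) (a : ι) : vv q a ∈ mI q := by
  rw [mem_mI]; simp [vv]

/-- first order Taylor formula -/
lemma taylor (q : ι → ℂ) (g : MvPolynomial ι ℂ) :
    g - C (eval q g) - ∑ a, C (eval q (pderiv a g)) * vv q a ∈ mI q ^ 2 := by
  induction g using MvPolynomial.induction_on with
  | C c => simp
  | add p r hp hr =>
    have e : p + r - C (eval q (p + r)) - ∑ a, C (eval q (pderiv a (p + r))) * vv q a =
        (p - C (eval q p) - ∑ a, C (eval q (pderiv a p)) * vv q a) +
        (r - C (eval q r) - ∑ a, C (eval q (pderiv a r)) * vv q a) := by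
      simp only [map_add, add_mul, Finset.sum_add_distrib]
      ring
    rw [e]
    exact Ideal.add_mem _ hp hr
  | mul_X p b hp =>
    have h1 : ∀ a, C (eval q (pderiv a (p * X b))) * vv q a =
        C (q b) * (C (eval q (pderiv a p)) * vv q a) +
          (if b = a then C (eval q p) * vv q a else 0) := by
      intro a
      rw [Derivation.leibniz, pderiv_X]
      simp only [smul_eq_mul, map_add, map_mul, eval_X]
      by_cases hab : b = a
      · subst hab
        simp
        ring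
      · have : (Pi.single b (1 : MvPolynomial ι ℂ) : ι → MvPolynomial ι ℂ) a = 0 := by
          rw [Pi.single_eq_of_ne (fun h => hab h.symm)]
        simp [hab]
        ring
    have e : p * X b - C (eval q (p * X b)) - ∑ a, C (eval q (pderiv a (p * X b))) * vv q a =
        C (q b) * (p - C (eval q p) - ∑ a, C (eval q (pderiv a p)) * vv q a) +
        (p - C (eval q p)) * vv q b := by
      rw [Finset.sum_congr rfl fun a _ => h1 a, Finset.sum_add_distrib, Finset.sum_ite_eq,
        ← Finset.mul_sum]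
      simp only [Finset.mem_univ, if_true, map_mul, eval_X, vv]
      ring
    rw [e]
    refine Ideal.add_mem _ (Ideal.mul_mem_left _ _ hp) ?_
    rw [pow_two]
    refine Ideal.mul_mem_mul ?_ (vv_mem q b)
    rw [mem_mI]; simp

/-- polynomials in the `x_b`, `b ∉ Z` -/
noncomputable def SS (Z : Finset ι) (q : ι → ℂ) : Subalgebra ℂ (MvPolynomial ι ℂ) :=
  (supported ℂ ((Z : Set ι)ᶜ)).map (aeval fun a => X a - C (q a))

lemma vv_SS (Z : Finset ι) (q : ι → ℂ) {b : ι} (hb : b ∉ Z) : vv q b ∈ SS Z q := by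
  refine ⟨X b, ?_, ?_⟩
  · change X b ∈ supported ℂ _
    rw [mem_supported]
    intro a ha
    rw [vars_X, Finset.coe_singleton, Set.mem_singleton_iff] at ha
    subst ha
    simpa using hb
  · show aeval _ (X b) = _
    rw [aeval_X]; rfl

/-- the sum of the polynomials in the `x_b`, `b ∉ Z`, of order `k` and of `(∂_Z f) + m^(k+1)` -/
noncomputable def MM (f : MvPolynomial ι ℂ) (Z : Finset ι) (q : ι → ℂ) (k : ℕ) :
    Submodule ℂ (MvPolynomial ι ℂ) :=
  (Subalgebra.toSubmodule (SS Z q) ⊓ (mI q ^ k).restrictScalars ℂ) ⊔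
    (Zi f Z ⊔ mI q ^ (k + 1)).restrictScalars ℂ

lemma mem_MM {f : MvPolynomial ι ℂ} {Z : Finset ι} {q : ι → ℂ} {k : ℕ} {g : MvPolynomial ι ℂ} :
    g ∈ MM f Z q k ↔ ∃ s ∈ SS Z q, s ∈ mI q ^ k ∧ g - s ∈ Zi f Z ⊔ mI q ^ (k + 1) := by
  unfold MM
  rw [Submodule.mem_sup]
  constructor
  · rintro ⟨s, ⟨h1, h2⟩, r, hr, rfl⟩
    refine ⟨s, h1, h2, ?_⟩
    rw [add_sub_cancel_left]
    exact hr
  · rintro ⟨s, h1, h2, h3⟩
    exact ⟨s, ⟨h1, h2⟩, g - s, h3, by ring⟩

lemma mm0 (f : MvPolynomial ι ℂ) (Z : Finset ι) (q : ι → ℂ) (g : MvPolynomial ι ℂ) :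
    g ∈ MM f Z q 0 := by
  rw [mem_MM]
  refine ⟨C (eval q g), ?_, by simp, ?_⟩
  · exact (SS Z q).algebraMap_mem (eval q g)
  · refine Ideal.mem_sup_right ?_
    rw [zero_add, pow_one, mem_mI]; simp

lemma mm1 (f : MvPolynomial ι ℂ) (Z : Finset ι) (q : ι → ℂ)
    (h0 : ∀ z ∈ Z, eval q (pderiv z f) = 0) (hd : eval q (dt f Z) ≠ 0)
    (g : MvPolynomial ι ℂ) (hg : g ∈ mI q) : g ∈ MM f Z q 1 := by
  have hsq : ∀ r ∈ mI q ^ 2, r ∈ MM f Z q 1 := by
    intro r hr
    rw [mem_MM]
    exact ⟨0, (SS Z q).zero_mem, Ideal.zero_mem _, Ideal.mem_sup_right (by simpa using hr)⟩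
  have hzi : ∀ r ∈ Zi f Z, r ∈ MM f Z q 1 := by
    intro r hr
    rw [mem_MM]
    exact ⟨0, (SS Z q).zero_mem, Ideal.zero_mem _, Ideal.mem_sup_left (by simpa using hr)⟩
  have hb : ∀ b, b ∉ Z → vv q b ∈ MM f Z q 1 := by
    intro b hb
    rw [mem_MM]
    exact ⟨vv q b, vv_SS Z q hb, by simpa using vv_mem q b, by simp⟩
  -- linear combinations of the `v_z`
  have hlin : ∀ z' : Z, ∑ z : Z, C (eval q (pderiv (z : ι) (pderiv (z' : ι) f))) * vv q z ∈
      MM f Z q 1 := by
    intro z'
    have h1 := taylor q (pderiv (z' : ι) f)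
    rw [h0 z' z'.2, map_zero, sub_zero] at h1
    have h2 : ∑ a, C (eval q (pderiv a (pderiv (z' : ι) f))) * vv q a =
        ∑ z : Z, C (eval q (pderiv (z : ι) (pderiv (z' : ι) f))) * vv q z +
        ∑ a ∈ Zᶜ, C (eval q (pderiv a (pderiv (z' : ι) f))) * vv q a := by
      rw [← Finset.sum_add_sum_compl Z, ← Finset.sum_coe_sort Z]
    have h3 : ∑ z : Z, C (eval q (pderiv (z : ι) (pderiv (z' : ι) f))) * vv q z =
        pderiv (z' : ι) f - (pderiv (z' : ι) f -
          ∑ a, C (eval q (pderiv a (pderiv (z' : ι) f))) * vv q a) -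
        ∑ a ∈ Zᶜ, C (eval q (pderiv a (pderiv (z' : ι) f))) * vv q a := by
      rw [h2]; ring
    rw [h3]
    refine Submodule.sub_mem _ (Submodule.sub_mem _ (hzi _ ?_) (hsq _ h1)) ?_
    · exact Ideal.subset_span ⟨z', z'.2, rfl⟩
    · refine Submodule.sum_mem _ fun a ha => ?_
      rw [← smul_eq_C_mul]
      exact Submodule.smul_mem _ _ (hb a (by simpa using ha))
  -- invert the matrix
  have hz : ∀ z : Z, vv q z ∈ MM f Z q 1 := by
    intro z
    set H : Matrix Z Z ℂ := Matrix.of fun a b => eval q (pderiv (a : ι) (pderiv (b : ι) f))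
      with hH
    have hdet : H.det ≠ 0 := by
      have : H = (HM f Z).map (eval q) := rfl
      rw [this]
      have h2 := (RingHom.map_det (eval q) (HM f Z)).symm
      unfold dt at hd
      rw [show (HM f Z).map (eval q) = (eval q).mapMatrix (HM f Z) from rfl, h2]
      exact hd
    have hinv : H * H⁻¹ = 1 := Matrix.mul_nonsing_inv _ (Ne.isUnit hdet)
    have e : vv q z = ∑ z' : Z, C (H⁻¹ z' z) *
        ∑ z'' : Z, C (eval q (pderiv (z'' : ι) (pderiv (z' : ι) f))) * vv q z'' := by
      have e1 : ∀ z' : Z, C (H⁻¹ z' z) *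
          ∑ z'' : Z, C (eval q (pderiv (z'' : ι) (pderiv (z' : ι) f))) * vv q z'' =
          ∑ z'' : Z, C (H z'' z' * H⁻¹ z' z) * vv q z'' := by
        intro z'
        rw [Finset.mul_sum]
        refine Finset.sum_congr rfl fun z'' _ => ?_
        rw [C_mul, hH]
        simp only [Matrix.of_apply]
        ring
      rw [Finset.sum_congr rfl fun z' _ => e1 z', Finset.sum_comm]
      have e2 : ∀ z'' : Z, ∑ z' : Z, C (H z'' z' * H⁻¹ z' z) * vv q z'' =
          if z'' = z then vv q z else 0 := by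
        intro z''
        rw [← Finset.sum_mul, ← map_sum, ← Matrix.mul_apply, hinv, Matrix.one_apply]
        by_cases h : z'' = z
        · subst h; simp
        · simp [h]
      rw [Finset.sum_congr rfl fun z'' _ => e2 z'']
      simp
    rw [e]
    refine Submodule.sum_mem _ fun z' _ => ?_
    rw [← smul_eq_C_mul]
    exact Submodule.smul_mem _ _ (hlin z')
  have hv : ∀ a, vv q a ∈ MM f Z q 1 := by
    intro a
    by_cases ha : a ∈ Z
    · exact hz ⟨a, ha⟩
    · exact hb a ha
  have h1 := taylor q g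
  rw [(mem_mI q g).1 hg, map_zero, sub_zero] at h1
  have e : g = (g - ∑ a, C (eval q (pderiv a g)) * vv q a) +
      ∑ a, C (eval q (pderiv a g)) * vv q a := by ring
  rw [e]
  refine Submodule.add_mem _ (hsq _ h1) (Submodule.sum_mem _ fun a _ => ?_)
  rw [← smul_eq_C_mul]
  exact Submodule.smul_mem _ _ (hv a)

lemma mmk (f : MvPolynomial ι ℂ) (Z : Finset ι) (q : ι → ℂ)
    (h0 : ∀ z ∈ Z, eval q (pderiv z f) = 0) (hd : eval q (dt f Z) ≠ 0) (k : ℕ) :
    ∀ g ∈ mI q ^ k, g ∈ MM f Z q k := by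
  induction k with
  | zero => intro g _; exact mm0 f Z q g
  | succ k ih =>
    intro g hg
    rw [pow_succ] at hg
    refine Submodule.mul_induction_on hg ?_ ?_
    · intro a ha b hb
      obtain ⟨sa, h1, h2, h3⟩ := mem_MM.1 (ih a ha)
      obtain ⟨sb, h4, h5, h6⟩ := mem_MM.1 (mm1 f Z q h0 hd b hb)
      rw [pow_one] at h5
      rw [mem_MM]
      refine ⟨sa * sb, (SS Z q).mul_mem h1 h4, ?_, ?_⟩
      · rw [pow_succ]
        exact Ideal.mul_mem_mul h2 h5
      · have e : a * b - sa * sb = a * (b - sb) + sb * (a - sa) := by ring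
        rw [e]
        refine Ideal.add_mem _ ?_ ?_
        · obtain ⟨u, hu, v, hv, huv⟩ := Submodule.mem_sup.1 h6
          rw [← huv, mul_add]
          refine Ideal.add_mem _ (Ideal.mem_sup_left (Ideal.mul_mem_left _ _ hu))
            (Ideal.mem_sup_right ?_)
          have : k + 1 + 1 = k + 2 := rfl
          rw [this, pow_add]
          exact Ideal.mul_mem_mul ha hv
        · obtain ⟨u, hu, v, hv, huv⟩ := Submodule.mem_sup.1 h3
          rw [← huv, mul_add]
          refine Ideal.add_mem _ (Ideal.mem_sup_left (Ideal.mul_mem_left _ _ hu))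
            (Ideal.mem_sup_right ?_)
          rw [pow_succ (mI q) (k + 1), mul_comm sb v]
          exact Ideal.mul_mem_mul hv h5
    · intro a b ha hb
      exact Submodule.add_mem _ ha hb

lemma red (f : MvPolynomial ι ℂ) (Z : Finset ι) (q : ι → ℂ)
    (h0 : ∀ z ∈ Z, eval q (pderiv z f) = 0) (hd : eval q (dt f Z) ≠ 0) (N : ℕ)
    (g : MvPolynomial ι ℂ) : ∃ s ∈ SS Z q, g - s ∈ Zi f Z ⊔ mI q ^ N := by
  induction N with
  | zero =>
    exact ⟨0, (SS Z q).zero_mem, by simp⟩
  | succ N ih =>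
    obtain ⟨s, hs, h1⟩ := ih
    obtain ⟨u, hu, v, hv, huv⟩ := Submodule.mem_sup.1 h1
    obtain ⟨s', h2, -, h4⟩ := mem_MM.1 (mmk f Z q h0 hd N v hv)
    refine ⟨s + s', (SS Z q).add_mem hs h2, ?_⟩
    have e : g - (s + s') = u + (v - s') := by
      have : g - s = u + v := huv.symm
      calc g - (s + s') = (g - s) - s' := by ring
        _ = u + (v - s') := by rw [this]; ring
    rw [e]
    exact Ideal.add_mem _ (Ideal.mem_sup_left hu) h4

end RED9Aux

open RED9Aux in
theorem stmt_RED9 : Stmt_RED9 := by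
  intro ι _ _ f Z q h0 hd N g
  obtain ⟨s, ⟨G, hG, hs⟩, h1⟩ := red f Z q h0 hd N g
  change G ∈ supported ℂ _ at hG
  rw [mem_supported] at hG
  have hs' : aeval (fun a => X a - C (q a)) G = s := hs
  set T := G.support.filter fun d => Finsupp.degree d < N with hT
  refine ⟨∑ d ∈ T, monomial d (coeff d G), ?_, ?_⟩
  · intro d hd'
    have h2 : d ∈ T := by
      by_contra h3
      refine (mem_support_iff.1 hd') ?_
      rw [coeff_sum]
      refine Finset.sum_eq_zero fun d' hd'' => ?_
      rw [coeff_monomial, if_neg]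
      rintro rfl
      exact h3 hd''
    rw [hT, Finset.mem_filter] at h2
    refine ⟨?_, h2.2⟩
    intro z hz
    by_contra h3
    have h4 : z ∈ G.vars := by
      rw [mem_vars_iff_mem_support]
      exact ⟨d, h2.1, by rwa [Finsupp.mem_support_iff]⟩
    exact (hG h4) hz
  · have e : g - aeval (fun a => X a - C (q a)) (∑ d ∈ T, monomial d (coeff d G)) =
        (g - s) + ∑ d ∈ G.support.filter (fun d => ¬ Finsupp.degree d < N),
          aeval (fun a => X a - C (q a)) (monomial d (coeff d G)) := by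
      have h2 : s = ∑ d ∈ T, aeval (fun a => X a - C (q a)) (monomial d (coeff d G)) +
          ∑ d ∈ G.support.filter (fun d => ¬ Finsupp.degree d < N),
            aeval (fun a => X a - C (q a)) (monomial d (coeff d G)) := by
        rw [hT, Finset.sum_filter_add_sum_filter_not, ← map_sum, ← as_sum, hs']
      rw [map_sum, h2]
      ring
    rw [e]
    refine Ideal.add_mem _ h1 (Ideal.mem_sup_right (Ideal.sum_mem _ fun d hd' => ?_))
    rw [Finset.mem_filter, not_lt] at hd'
    rw [aeval_monomial]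
    refine Ideal.mul_mem_left _ _ (Ideal.pow_le_pow_right hd'.2 ?_)
    rw [Finsupp.degree_eq_sum, Finsupp.prod_fintype _ _ (fun _ => pow_zero _),
      ← Finset.prod_pow_eq_pow_sum]
    exact Ideal.prod_mem_prod fun a _ => Ideal.pow_mem_pow (vv_mem q a) _

end Pool.Agent.Mono.C9
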