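import Pool.Agent.Work.Monodromy.Interface9
import Pool.Agent.Work.Monodromy4.Q1
import Pool.Agent.Work.Monodromy4.Q2
import Pool.Agent.Work.Monodromy4.Q3
import Pool.Agent.Work.Monodromy7.HP7
import Pool.Agent.Work.Monodromy7.MU7
import Pool.Agent.Work.Monodromy7.RP7

/-!
# Phase 9, block SG9: volumes of `F + z ^ 2` (helper54)
-/

set_option autoImplicit false
set_option linter.unusedSectionVars false

namespace Pool.Agent.Mono.C9

open MvPolynomial TS RO SP PC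

namespace SG9Aux

open RO.VGAux

section lib

variable {E E' ι κ : Type}

/-- regular functions which depend on the coefficients below `K` only -/
theorem levelK [Fintype ι] {φ : (E → ℂ) × (ι → PowerSeries ℂ) → ℂ} (h : RF φ) (K : ι → ℕ)
    (hN : ∀ p x y, (∀ i, ∀ l < K i, PowerSeries.coeff l (x i) = PowerSeries.coeff l (y i)) →
      φ (p, x) = φ (p, y)) :
    ∃ A : MvPolynomial (E ⊕ (Σ i : ι, Fin (K i))) ℂ, ∀ p x,
      φ (p, x) = eval (CV.trd K p x) A := by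
  classical
  obtain ⟨N0, h0⟩ := h
  set M := max N0 (Finset.univ.sup K) with hM
  have hKM : ∀ i, K i ≤ M := fun i =>
    le_trans (Finset.le_sup (f := K) (Finset.mem_univ i)) (le_max_right _ _)
  obtain ⟨-, A1, hA1⟩ := h0 M (le_max_left _ _)
  set g : E ⊕ (Σ _ : ι, Fin M) → MvPolynomial (E ⊕ (Σ i : ι, Fin (K i))) ℂ :=
    Sum.elim (fun e => X (Sum.inl e)) (fun s => if h : (s.2 : ℕ) < K s.1 then
      X (Sum.inr ⟨s.1, ⟨(s.2 : ℕ), h⟩⟩) else 0) with hg
  refine ⟨bind₁ g A1, fun p x => ?_⟩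
  have e1 : eval (CV.trd K p x) (bind₁ g A1) =
      eval (fun a => eval (CV.trd K p x) (g a)) A1 :=
    eval₂Hom_bind₁ _ _ _ _
  rw [e1, ← hA1]
  have e2 : (fun q : E => eval (CV.trd K p x) (g (Sum.inl q))) = p := by
    funext q
    simp only [hg, Sum.elim_inl, eval_X]
    rfl
  rw [e2]
  refine hN p _ _ fun i l hl => ?_
  have hl2 : l < M := lt_of_lt_of_le hl (hKM i)
  rw [toArc, PowerSeries.coeff_mk, dif_pos hl2]
  simp only [hg, Sum.elim_inr]
  rw [dif_pos hl, eval_X]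
  rfl

/-- coefficients of `t z ^ 2` -/
theorem coeff_Xsq (z : PowerSeries ℂ) (l : ℕ) :
    PowerSeries.coeff l (PowerSeries.X * z ^ 2) =
      ∑ k ∈ Finset.range l, PowerSeries.coeff k z * PowerSeries.coeff (l - 1 - k) z := by
  rcases l with _ | l
  · simp
  · rw [mul_comm, PowerSeries.coeff_succ_mul_X, pow_two, PowerSeries.coeff_mul,
      Finset.Nat.sum_antidiagonal_eq_sum_range_succ (fun a b => PowerSeries.coeff a z *
        PowerSeries.coeff b z)]
    rfl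

/-- the new variable -/
noncomputable def nv (g : PowerSeries ℂ) (c : ℂ) (z : PowerSeries ℂ) : PowerSeries ℂ :=
  g + PowerSeries.C (2 * c) * z + PowerSeries.X * z ^ 2

theorem coeff_nv (g : PowerSeries ℂ) (c : ℂ) (z : PowerSeries ℂ) (l : ℕ) :
    PowerSeries.coeff l (nv g c z) = PowerSeries.coeff l g + 2 * c * PowerSeries.coeff l z +
      ∑ k ∈ Finset.range l, PowerSeries.coeff k z * PowerSeries.coeff (l - 1 - k) z := by
  rw [nv, map_add, map_add, PowerSeries.coeff_C_mul, coeff_Xsq]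

theorem nv_inj {g g' : PowerSeries ℂ} {c : ℂ} (hc : c ≠ 0) {z z' : PowerSeries ℂ} (N : ℕ)
    (hg : ∀ l < N, PowerSeries.coeff l g = PowerSeries.coeff l g')
    (h : ∀ l < N, PowerSeries.coeff l (nv g c z) = PowerSeries.coeff l (nv g' c z')) :
    ∀ l < N, PowerSeries.coeff l z = PowerSeries.coeff l z' := by
  intro l
  induction l using Nat.strong_induction_on with
  | _ l ih =>
    intro hl
    have h1 := h l hl
    rw [coeff_nv, coeff_nv, hg l hl] at h1
    have h2 : ∑ k ∈ Finset.range l, PowerSeries.coeff k z * PowerSeries.coeff (l - 1 - k) z =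
        ∑ k ∈ Finset.range l, PowerSeries.coeff k z' * PowerSeries.coeff (l - 1 - k) z' := by
      apply Finset.sum_congr rfl
      intro k hk
      rw [Finset.mem_range] at hk
      rw [ih k hk (by omega), ih (l - 1 - k) (by omega) (by omega)]
    rw [h2] at h1
    have h3 : 2 * c * PowerSeries.coeff l z = 2 * c * PowerSeries.coeff l z' := by
      linear_combination h1
    exact mul_left_cancel₀ (mul_ne_zero two_ne_zero hc) h3

theorem nv_surj (g : PowerSeries ℂ) {c : ℂ} (hc : c ≠ 0) (y : PowerSeries ℂ) (N : ℕ) :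
    ∃ z, ∀ l < N, PowerSeries.coeff l (nv g c z) = PowerSeries.coeff l y := by
  induction N with
  | zero => exact ⟨0, fun l hl => absurd hl (by omega)⟩
  | succ n ih =>
    obtain ⟨z, hz⟩ := ih
    set a : ℂ := (PowerSeries.coeff n y - PowerSeries.coeff n (nv g c z)) / (2 * c) with ha
    refine ⟨z + PowerSeries.C a * PowerSeries.X ^ n, fun l hl => ?_⟩
    have e1 : ∀ l, PowerSeries.coeff l (z + PowerSeries.C a * PowerSeries.X ^ n) =
        PowerSeries.coeff l z + if l = n then a else 0 := by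
      intro l
      rw [map_add, PowerSeries.coeff_C_mul, PowerSeries.coeff_X_pow]
      split_ifs <;> simp
    have h2 : ∑ k ∈ Finset.range l, PowerSeries.coeff k (z + PowerSeries.C a * PowerSeries.X ^ n) *
        PowerSeries.coeff (l - 1 - k) (z + PowerSeries.C a * PowerSeries.X ^ n) =
        ∑ k ∈ Finset.range l, PowerSeries.coeff k z * PowerSeries.coeff (l - 1 - k) z := by
      apply Finset.sum_congr rfl
      intro k hk
      rw [Finset.mem_range] at hk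
      rw [e1, e1, if_neg (by omega), if_neg (by omega), add_zero, add_zero]
    rw [coeff_nv, h2, e1]
    rcases Nat.lt_succ_iff_lt_or_eq.1 hl with hl' | rfl
    · rw [if_neg (by omega), add_zero, ← coeff_nv]
      exact hz l hl'
    · rw [if_pos rfl]
      have h3 : 2 * c * a = PowerSeries.coeff l y - PowerSeries.coeff l (nv g c z) := by
        rw [ha]; field_simp
      rw [coeff_nv] at h3
      linear_combination h3

theorem RF_nv {g : (E → ℂ) × (ι → PowerSeries ℂ) → PowerSeries ℂ}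
    (hg : ∀ l, RF fun z => PowerSeries.coeff l (g z)) (e0 : E) (i : ι) (l : ℕ) :
    RF fun z : (E → ℂ) × (ι → PowerSeries ℂ) =>
      PowerSeries.coeff l (nv (g z) (z.1 e0) (z.2 i)) := by
  simp only [coeff_nv]
  refine ((hg l).add (((RF.const 2).mul (RF.par e0)).mul (RF.arc i l))).add ?_
  exact PL.RF.sum _ fun k _ => (RF.arc i k).mul (RF.arc i _)

/-- the change of the last arc -/
theorem vol_shear (P : HodgeMeasure) [Finite E] [Fintype κ]
    {S : Set ((E → ℂ) × (κ ⊕ Unit → PowerSeries ℂ))} (hS : Cy S) (e0 : E)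
    (hne : ∀ z ∈ S, z.1 e0 ≠ 0) (g : (κ → PowerSeries ℂ) → PowerSeries ℂ) (d : ℕ)
    (hg : ∀ l, RF fun z : (E → ℂ) × (κ ⊕ Unit → PowerSeries ℂ) =>
      PowerSeries.coeff l (g fun a => z.2 (Sum.inl a)))
    (hloc : ∀ l x y, (∀ i, ∀ n < l + d, PowerSeries.coeff n (x i) = PowerSeries.coeff n (y i)) →
      PowerSeries.coeff l (g x) = PowerSeries.coeff l (g y)) :
    vol P.rat xq {z : (E → ℂ) × (κ ⊕ Unit → PowerSeries ℂ) | (z.1,
      Sum.elim (fun a => z.2 (Sum.inl a)) fun _ =>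
        nv (g fun a => z.2 (Sum.inl a)) (z.1 e0) (z.2 (Sum.inr ()))) ∈ S} = vol P.rat xq S := by
  classical
  have hR : ∀ i l, RF fun z : (E → ℂ) × (κ ⊕ Unit → PowerSeries ℂ) => PowerSeries.coeff l
      ((Sum.elim (fun a => z.2 (Sum.inl a)) fun _ =>
        nv (g fun a => z.2 (Sum.inl a)) (z.1 e0) (z.2 (Sum.inr ())) :
          κ ⊕ Unit → PowerSeries ℂ) i) := by
    rintro (a | a) l
    · exact RF.arc _ l
    · exact RF_nv hg e0 _ l
  have hS' : Cy {z : (E → ℂ) × (κ ⊕ Unit → PowerSeries ℂ) | (z.1,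
      Sum.elim (fun a => z.2 (Sum.inl a)) fun _ =>
        nv (g fun a => z.2 (Sum.inl a)) (z.1 e0) (z.2 (Sum.inr ()))) ∈ S} :=
    BV.RMAux.cy_sub hS (φ := fun z => z.1) (fun s => RF.par s) (ψ := fun z =>
      Sum.elim (fun a => z.2 (Sum.inl a)) fun _ =>
        nv (g fun a => z.2 (Sum.inl a)) (z.1 e0) (z.2 (Sum.inr ()))) hR
  obtain ⟨N1, hN1⟩ := hS
  obtain ⟨N2, hN2⟩ := hS'
  set N := max N1 N2 with hN
  set K : κ ⊕ Unit → ℕ := Sum.elim (fun _ => N + d) fun _ => N with hK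
  have hNK : ∀ i, N ≤ K i := by
    rintro (a | a)
    · exact Nat.le_add_right _ _
    · exact le_refl _
  have c1 : IsCyl K S := (hN1 N (le_max_left _ _)).mono hNK
  have c2 := (hN2 N (le_max_right _ _)).mono hNK
  have hB : ∀ s : (Σ i : κ ⊕ Unit, Fin (K i)),
      ∃ A : MvPolynomial (E ⊕ (Σ i : κ ⊕ Unit, Fin (K i))) ℂ, ∀ p x,
      PowerSeries.coeff (s.2 : ℕ) ((Sum.elim (fun a => x (Sum.inl a)) fun _ =>
        nv (g fun a => x (Sum.inl a)) (p e0) (x (Sum.inr ())) :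
          κ ⊕ Unit → PowerSeries ℂ) s.1) = eval (CV.trd K p x) A := by
    rintro ⟨i, l⟩
    refine levelK (hR i l) K ?_
    intro p x y hxy
    rcases i with i | i
    · exact hxy (Sum.inl i) l l.2
    · have hl : (l : ℕ) < N := l.2
      change PowerSeries.coeff (l : ℕ) (nv _ _ _) = PowerSeries.coeff (l : ℕ) (nv _ _ _)
      rw [coeff_nv, coeff_nv, hloc l (fun a => x (Sum.inl a)) (fun a => y (Sum.inl a))
        (fun i n hn => hxy (Sum.inl i) n (show n < N + d by omega)), hxy (Sum.inr ()) l hl]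
      congr 1
      apply Finset.sum_congr rfl
      intro k hk
      rw [Finset.mem_range] at hk
      rw [hxy (Sum.inr ()) k (show k < N by omega),
        hxy (Sum.inr ()) (l - 1 - k) (show (l : ℕ) - 1 - k < N by omega)]
  choose A hA using hB
  have key := CV.vol_cv P c1 c2 (fun p x => Sum.elim (fun a => x (Sum.inl a)) fun _ =>
        nv (g fun a => x (Sum.inl a)) (p e0) (x (Sum.inr ()))) A (fun p x _ s => hA s p x)
        (fun p x h => h) ?_ ?_
  · have hx : xq ≠ 0 := by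
      rw [xq]; exact inv_ne_zero RatFunc.X_ne_zero
    exact (mul_right_cancel₀ (pow_ne_zero _ hx) key).symm
  · intro p x x' h h' hxx
    have hc : p e0 ≠ 0 := hne _ h
    rintro (j | j) l hl
    · exact hxx (Sum.inl j) l hl
    · refine nv_inj hc N ?_ (fun l hl => hxx (Sum.inr ()) l hl) l hl
      intro l hl
      exact hloc l _ _ fun i n hn => hxx (Sum.inl i) n (show n < N + d by omega)
  · intro p y hy
    obtain ⟨z, hz⟩ := nv_surj (g fun a => y (Sum.inl a)) (hne _ hy) (y (Sum.inr ())) N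
    have hlev : ∀ i, ∀ l < K i, PowerSeries.coeff l ((Sum.elim (fun a => y (Sum.inl a)) fun _ =>
        nv (g fun a => y (Sum.inl a)) (p e0) z : κ ⊕ Unit → PowerSeries ℂ) i) =
          PowerSeries.coeff l (y i) := by
      rintro (i | i) l hl
      · rfl
      · exact hz l hl
    exact ⟨Sum.elim (fun a => y (Sum.inl a)) fun _ => z, (c1.1 p _ _ hlev).2 hy, hlev⟩

/-- products -/
theorem vol_prod2 (P : HodgeMeasure) [Finite E] [Finite E'] [Fintype ι] [Fintype κ]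
    {C : Set ((E → ℂ) × (ι → PowerSeries ℂ))} (hC : Cy C)
    {D : Set ((E' → ℂ) × (κ → PowerSeries ℂ))} (hD : Cy D) :
    vol P.rat xq {z : (E ⊕ E' → ℂ) × (κ ⊕ ι → PowerSeries ℂ) |
      ((fun e => z.1 (Sum.inl e)), fun a => z.2 (Sum.inr a)) ∈ C ∧
      ((fun e => z.1 (Sum.inr e)), fun a => z.2 (Sum.inl a)) ∈ D} =
    vol P.rat xq C * vol P.rat xq D := by
  obtain ⟨N1, hN1⟩ := hC
  obtain ⟨N2, hN2⟩ := hD
  set N := max N1 N2 with hN
  have hc := hN1 N (le_max_left _ _)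
  have hd := hN2 N (le_max_right _ _)
  let g : (E ⊕ (Σ _ : ι, Fin N)) ⊕ (E' ⊕ (Σ _ : κ, Fin N)) ≃
      (E ⊕ E') ⊕ (Σ _ : κ ⊕ ι, Fin N) :=
    { toFun := Sum.elim (Sum.elim (fun e => Sum.inl (Sum.inl e)) fun s =>
          Sum.inr ⟨Sum.inr s.1, s.2⟩)
        (Sum.elim (fun e => Sum.inl (Sum.inr e)) fun s => Sum.inr ⟨Sum.inl s.1, s.2⟩)
      invFun := Sum.elim (Sum.elim (fun e => Sum.inl (Sum.inl e)) fun e => Sum.inr (Sum.inl e))
        fun s => match s with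
          | ⟨Sum.inl a, l⟩ => Sum.inr (Sum.inr ⟨a, l⟩)
          | ⟨Sum.inr a, l⟩ => Sum.inl (Sum.inr ⟨a, l⟩)
      left_inv := by rintro ((e | s) | (e | s)) <;> rfl
      right_inv := by rintro ((e | e) | ⟨a | a, l⟩) <;> rfl }
  have e1 : sec (fun _ => N) {z : (E ⊕ E' → ℂ) × (κ ⊕ ι → PowerSeries ℂ) |
      ((fun e => z.1 (Sum.inl e)), fun a => z.2 (Sum.inr a)) ∈ C ∧
      ((fun e => z.1 (Sum.inr e)), fun a => z.2 (Sum.inl a)) ∈ D} =
      {x | (fun j => x (g j)) ∈ {y : (E ⊕ (Σ _ : ι, Fin N)) ⊕ (E' ⊕ (Σ _ : κ, Fin N)) → ℂ |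
        (fun i => y (Sum.inl i)) ∈ sec (fun _ => N) C ∧
          (fun i => y (Sum.inr i)) ∈ sec (fun _ => N) D}} := rfl
  have h1 : Constructible {y : (E ⊕ (Σ _ : ι, Fin N)) ⊕ (E' ⊕ (Σ _ : κ, Fin N)) → ℂ |
        (fun i => y (Sum.inl i)) ∈ sec (fun _ => N) C ∧
          (fun i => y (Sum.inr i)) ∈ sec (fun _ => N) D} :=
    (Constructible.comap _ hc.2).and (Constructible.comap _ hd.2)
  have h2 : IsCyl (fun _ => N) {z : (E ⊕ E' → ℂ) × (κ ⊕ ι → PowerSeries ℂ) |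
      ((fun e => z.1 (Sum.inl e)), fun a => z.2 (Sum.inr a)) ∈ C ∧
      ((fun e => z.1 (Sum.inr e)), fun a => z.2 (Sum.inl a)) ∈ D} := by
    refine ⟨fun p x y hxy => ?_, ?_⟩
    · exact and_congr (hc.1 _ _ _ fun i l hl => hxy (Sum.inr i) l hl)
        (hd.1 _ _ _ fun i l hl => hxy (Sum.inl i) l hl)
    · rw [e1]
      exact Constructible.comap _ h1
  have hL := VAAux.L_mul P
  rw [vol_eq P.rat hL h2, vol_eq P.rat hL hc, vol_eq P.rat hL hd, e1, P.rat.reindex g h1,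
    P.rat.prod _ _ hc.2 hd.2, Fintype.sum_sum_type, pow_add]
  ring

end lib

section dec

variable {E ι : Type} [Finite E] [Fintype ι]

/-- `F + z ^ 2` -/
noncomputable abbrev Fq (F : MvPolynomial ι ℂ) : MvPolynomial (ι ⊕ Unit) ℂ :=
  oplus F (X () ^ 2 : MvPolynomial Unit ℂ)

theorem aeval_Fq (F : MvPolynomial ι ℂ) (z : ι ⊕ Unit → PowerSeries ℂ) :
    aeval z (Fq F) = aeval (fun a => z (Sum.inl a)) F + z (Sum.inr ()) ^ 2 := by
  rw [Fq, oplus, map_add, aeval_rename, map_pow, map_pow, rename_X, aeval_X]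
  rfl

theorem cy_ZL0 (F : MvPolynomial ι ℂ) {Q : Set (E ⊕ Unit → ℂ)} (hQ : Constructible Q) (m : ℕ) :
    Cy (ZL F {fun _ => 0} Q m) := by
  have h1 : Cy {z : (E → ℂ) × (ι → PowerSeries ℂ) |
      (fun a => PowerSeries.coeff 0 (z.2 a)) ∈ ({fun _ => 0} : Set (ι → ℂ))} := by
    have hcon : Constructible ({fun _ => 0} : Set (ι → ℂ)) := by
      have h1 : Constructible {v : ι → ℂ | ∀ a, eval v (X a) = 0} :=
        Constructible.all fun a => Constructible.zero _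
      convert h1 using 1
      ext v
      simp only [Set.mem_singleton_iff, Set.mem_ofPred_eq, eval_X]
      exact funext_iff
    exact Cy.mem hcon fun a => RF.arc a 0
  refine Cy.and h1 (Cy.and (Cy.all_lt m fun j _ => Cy.zero (RF.coef F j)) (Cy.mem hQ fun s => ?_))
  rcases s with s | s
  · exact RF.par s
  · exact RF.coef F m

/-- the tail -/
noncomputable def tls (n : ℕ) (G : PowerSeries ℂ) : PowerSeries ℂ :=
  PowerSeries.mk fun l => PowerSeries.coeff (l + n) G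

theorem coeff_tls (n : ℕ) (G : PowerSeries ℂ) (l : ℕ) :
    PowerSeries.coeff l (tls n G) = PowerSeries.coeff (l + n) G := by
  rw [tls, PowerSeries.coeff_mk]

theorem coeff_add_arcE (G : PowerSeries ℂ) (d : ℂ) (k : ℕ) (w : PowerSeries ℂ) (l : ℕ) :
    PowerSeries.coeff l (G + BV.arcE d k w) = PowerSeries.coeff l G +
      if l < k then 0 else if l = k then d else PowerSeries.coeff (l - (k + 1)) w := by
  rw [map_add, BV.RP7Aux.coeff_arcE]

theorem lead_lt (Q : Set (E ⊕ Unit → ℂ)) {m k : ℕ} (hk : k < m) (p : E → ℂ) (G : PowerSeries ℂ)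
    (d : ℂ) (w : PowerSeries ℂ) :
    Lead Q m p (G + BV.arcE d k w) ↔ ((∀ l < k, PowerSeries.coeff l G = 0) ∧
      PowerSeries.coeff k G = -d) ∧ Lead Q (m - k - 1) p (tls (k + 1) G + w) := by
  have e1 : ∀ l, PowerSeries.coeff (l + (k + 1)) (G + BV.arcE d k w) =
      PowerSeries.coeff l (tls (k + 1) G + w) := by
    intro l
    rw [coeff_add_arcE, if_neg (by omega), if_neg (by omega), map_add, coeff_tls,
      Nat.add_sub_cancel]
  have e2 : m - k - 1 + (k + 1) = m := by omega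
  constructor
  · rintro ⟨h1, h2⟩
    refine ⟨⟨fun l hl => ?_, ?_⟩, fun l hl => ?_, ?_⟩
    · have := h1 l (by omega)
      rwa [coeff_add_arcE, if_pos hl, add_zero] at this
    · have := h1 k hk
      rw [coeff_add_arcE, if_neg (by omega), if_pos rfl] at this
      exact eq_neg_of_add_eq_zero_left this
    · rw [← e1]
      exact h1 _ (by omega)
    · rw [← e1, e2]
      exact h2
  · rintro ⟨⟨h1, h2⟩, h3, h4⟩
    refine ⟨fun l hl => ?_, ?_⟩
    · rcases lt_trichotomy l k with h | h | h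
      · rw [coeff_add_arcE, if_pos h, add_zero, h1 l h]
      · rw [coeff_add_arcE, if_neg (by omega), if_pos h, h, h2, neg_add_cancel]
      · have := h3 (l - (k + 1)) (by omega)
        rw [← e1, Nat.sub_add_cancel (by omega)] at this
        exact this
    · rw [← e1, e2] at h4
      exact h4

theorem lead_eq (Q : Set (E ⊕ Unit → ℂ)) (m : ℕ) (p : E → ℂ) (G : PowerSeries ℂ)
    (d : ℂ) (w : PowerSeries ℂ) :
    Lead Q m p (G + BV.arcE d m w) ↔ (∀ l < m, PowerSeries.coeff l G = 0) ∧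
      (Sum.elim p fun _ => PowerSeries.coeff m G + d) ∈ Q := by
  have e1 : ∀ l < m, PowerSeries.coeff l (G + BV.arcE d m w) = PowerSeries.coeff l G := by
    intro l hl
    rw [coeff_add_arcE, if_pos hl, add_zero]
  have e2 : PowerSeries.coeff m (G + BV.arcE d m w) = PowerSeries.coeff m G + d := by
    rw [coeff_add_arcE, if_neg (by omega), if_pos rfl]
  rw [Lead, e2]
  exact and_congr (forall₂_congr fun l hl => by rw [e1 l hl]) Iff.rfl

theorem arcE_sq (c : ℂ) (j : ℕ) (z : PowerSeries ℂ) :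
    BV.arcE c j z ^ 2 = BV.arcE (c ^ 2) (2 * j)
      (PowerSeries.C (2 * c) * z + PowerSeries.X * z ^ 2) := by
  rw [BV.arcE, BV.arcE, map_mul, map_pow]
  have h2 : (PowerSeries.C (2 : ℂ)) = (2 : PowerSeries ℂ) := map_ofNat _ 2
  rw [h2]
  ring

/-- the parameter is a square root of minus the leading coefficient -/
def QD : Set (Unit ⊕ Unit → ℂ) :=
  {v | v (Sum.inl ()) ≠ 0 ∧ v (Sum.inr ()) = -(v (Sum.inl ())) ^ 2}

theorem con_QD : Constructible QD := by
  have h := Constructible.and (Constructible.ne (X (Sum.inl ()) : MvPolynomial (Unit ⊕ Unit) ℂ))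
    (Constructible.eq (X (Sum.inr ())) (-(X (Sum.inl ())) ^ 2))
  simp only [eval_X, map_neg, map_pow] at h
  exact h

theorem qu_QD : QU QD := by
  refine ⟨con_QD, ?_⟩
  rintro z ⟨h1, h2⟩
  rw [h2]
  exact neg_ne_zero.2 (pow_ne_zero _ h1)

/-- the middle term -/
def BB (F : MvPolynomial ι ℂ) (Q : Set (E ⊕ Unit → ℂ)) (m : ℕ) :
    Set ((E ⊕ Unit → ℂ) × (ι → PowerSeries ℂ)) :=
  {z | z.1 (Sum.inr ()) ≠ 0 ∧
    (fun a => PowerSeries.coeff 0 (z.2 a)) ∈ ({fun _ => 0} : Set (ι → ℂ)) ∧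
    (∀ l < m, PowerSeries.coeff l (aeval z.2 F) = 0) ∧
    (Sum.elim (fun e => z.1 (Sum.inl e)) fun _ =>
      PowerSeries.coeff m (aeval z.2 F) + z.1 (Sum.inr ()) ^ 2) ∈ Q}

theorem cy_start : Cy {z : (E → ℂ) × (ι → PowerSeries ℂ) |
      (fun a => PowerSeries.coeff 0 (z.2 a)) ∈ ({fun _ => 0} : Set (ι → ℂ))} := by
  have hcon : Constructible ({fun _ => 0} : Set (ι → ℂ)) := by
    have h1 : Constructible {v : ι → ℂ | ∀ a, eval v (X a) = 0} :=
      Constructible.all fun a => Constructible.zero _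
    convert h1 using 1
    ext v
    simp only [Set.mem_singleton_iff, Set.mem_ofPred_eq, eval_X]
    exact funext_iff
  exact Cy.mem hcon fun a => RF.arc a 0

theorem cy_BB (F : MvPolynomial ι ℂ) {Q : Set (E ⊕ Unit → ℂ)} (hQ : Constructible Q) (m : ℕ) :
    Cy (BB F Q m) := by
  refine Cy.and (Cy.not (Cy.zero (RF.par _))) (Cy.and cy_start
    (Cy.and (Cy.all_lt m fun j _ => Cy.zero (RF.coef F j)) ?_))
  have h := Cy.mem (E' := E ⊕ Unit) (ι := ι) hQ (φ := Sum.elim (fun e z => z.1 (Sum.inl e))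
    fun _ z => PowerSeries.coeff m (aeval z.2 F) + z.1 (Sum.inr ()) ^ 2) (by
      rintro (e | a)
      · exact RF.par _
      · have h1 := (RF.coef (E := E ⊕ Unit) F m).add
          ((RF.par (ι := ι) (Sum.inr () : E ⊕ Unit)).mul (RF.par (Sum.inr ())))
        simp only [← pow_two] at h1
        exact h1)
  convert h using 1
  ext z
  have e : (Sum.elim (fun e => z.1 (Sum.inl e)) (fun _ : Unit =>
      PowerSeries.coeff m (aeval z.2 F) + z.1 (Sum.inr ()) ^ 2) : E ⊕ Unit → ℂ) =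
      fun s => (Sum.elim (fun e z => z.1 (Sum.inl e))
        (fun _ z => PowerSeries.coeff m (aeval z.2 F) + z.1 (Sum.inr ()) ^ 2) :
        E ⊕ Unit → (E ⊕ Unit → ℂ) × (ι → PowerSeries ℂ) → ℂ) s z := by
    funext s
    rcases s with s | s <;> rfl
  rw [Set.mem_ofPred_eq, Set.mem_ofPred_eq, e]

variable (P : HodgeMeasure)

/-- the volumes of the pieces `ord z = j`, `2 j < m` -/
theorem piece_lt (F : MvPolynomial ι ℂ) {Q : Set (E ⊕ Unit → ℂ)} (hQ : Constructible Q)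
    {m j : ℕ} (hj : 1 ≤ j) (hm : 2 * j < m) :
    vol P.rat xq {z : (E ⊕ Unit → ℂ) × (ι ⊕ Unit → PowerSeries ℂ) |
      z.1 (Sum.inr ()) ≠ 0 ∧ ((fun e => z.1 (Sum.inl e)), Sum.elim (fun a => z.2 (Sum.inl a))
        fun _ => BV.arcE (z.1 (Sum.inr ())) j (z.2 (Sum.inr ()))) ∈
          (ZL (Fq F) {fun _ => 0} Q m)} =
    xq ^ (m - 2 * j) * P.rat.val Q * vol P.rat xq (ZL F {fun _ => 0} QD (2 * j)) := by
  classical
  set C : Set ((E → ℂ) × (Unit → PowerSeries ℂ)) :=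
    {z | Lead Q (m - 2 * j - 1) z.1 (z.2 ())} with hC
  set D : Set ((Unit → ℂ) × (ι → PowerSeries ℂ)) := ZL F {fun _ => 0} QD (2 * j) with hD
  have cC : Cy C := by
    refine Cy.and (Cy.all_lt _ fun l _ => Cy.zero (RF.arc () l)) (Cy.mem hQ fun s => ?_)
    rcases s with s | s
    · exact RF.par s
    · exact RF.arc () _
  have cD : Cy D := cy_ZL0 F con_QD _
  have h1 := vol_prod2 P cC cD
  set S : Set ((E ⊕ Unit → ℂ) × (ι ⊕ Unit → PowerSeries ℂ)) :=
    {z | ((fun e => z.1 (Sum.inl e)), fun a => z.2 (Sum.inr a)) ∈ C ∧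
      ((fun e => z.1 (Sum.inr e)), fun a => z.2 (Sum.inl a)) ∈ D} with hS
  have cS : Cy S := by
    have a1 : Cy {z : (E ⊕ Unit → ℂ) × (ι ⊕ Unit → PowerSeries ℂ) |
        ((fun e => z.1 (Sum.inl e)), fun a => z.2 (Sum.inr a)) ∈ C} :=
      BV.RMAux.cy_sub cC (φ := fun z e => z.1 (Sum.inl e)) (fun s => RF.par _)
        (ψ := fun z a => z.2 (Sum.inr a)) fun a l => RF.arc _ l
    have a2 : Cy {z : (E ⊕ Unit → ℂ) × (ι ⊕ Unit → PowerSeries ℂ) |
        ((fun e => z.1 (Sum.inr e)), fun a => z.2 (Sum.inl a)) ∈ D} :=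
      BV.RMAux.cy_sub cD (φ := fun z e => z.1 (Sum.inr e)) (fun s => RF.par _)
        (ψ := fun z a => z.2 (Sum.inl a)) fun a l => RF.arc _ l
    exact Cy.and a1 a2
  have h2 := vol_shear P cS (Sum.inr ()) (fun z hz => hz.2.2.2.1)
    (fun x => tls (2 * j + 1) (aeval x F)) (2 * j + 2) (fun l => by
      simp only [coeff_tls]
      exact PL.RF.aeval (fun i l => RF.arc (Sum.inl i) l) F _) (fun l x y hxy => by
      rw [coeff_tls, coeff_tls]
      exact GJetAux.aeval_congr F (l + (2 * j + 2)) x y hxy _ (by omega))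
  have h3 : vol P.rat xq C = xq ^ (m - 2 * j - 1 + 1) * P.rat.val Q := PL.vol_pl1 P hQ _
  rw [h3] at h1
  have e1 : m - 2 * j - 1 + 1 = m - 2 * j := by omega
  rw [e1] at h1
  rw [← h1, ← h2]
  congr 1
  ext z
  have e2 : nv (tls (2 * j + 1) (aeval (fun a => z.2 (Sum.inl a)) F)) (z.1 (Sum.inr ()))
      (z.2 (Sum.inr ())) = tls (2 * j + 1) (aeval (fun a => z.2 (Sum.inl a)) F) +
        (PowerSeries.C (2 * z.1 (Sum.inr ())) * z.2 (Sum.inr ()) +
          PowerSeries.X * z.2 (Sum.inr ()) ^ 2) := by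
    rw [nv, add_assoc]
  have e3 : aeval (Sum.elim (fun a => z.2 (Sum.inl a)) fun _ =>
      BV.arcE (z.1 (Sum.inr ())) j (z.2 (Sum.inr ())) : ι ⊕ Unit → PowerSeries ℂ) (Fq F) =
      aeval (fun a => z.2 (Sum.inl a)) F + BV.arcE (z.1 (Sum.inr ()) ^ 2) (2 * j)
        (PowerSeries.C (2 * z.1 (Sum.inr ())) * z.2 (Sum.inr ()) +
          PowerSeries.X * z.2 (Sum.inr ()) ^ 2) := by
    rw [aeval_Fq, ← arcE_sq]
    rfl
  have e4 : (fun a => PowerSeries.coeff 0 ((Sum.elim (fun a => z.2 (Sum.inl a)) fun _ =>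
      BV.arcE (z.1 (Sum.inr ())) j (z.2 (Sum.inr ())) : ι ⊕ Unit → PowerSeries ℂ) a)) ∈
        ({fun _ => 0} : Set (ι ⊕ Unit → ℂ)) ↔
      (fun a => PowerSeries.coeff 0 (z.2 (Sum.inl a))) ∈ ({fun _ => 0} : Set (ι → ℂ)) := by
    simp only [Set.mem_singleton_iff, _root_.funext_iff]
    constructor
    · intro h a
      exact h (Sum.inl a)
    · rintro h (a | a)
      · exact h a
      · change PowerSeries.coeff 0 (BV.arcE _ j _) = 0
        rw [BV.RP7Aux.coeff_arcE, if_pos (by omega)]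
  constructor
  · rintro ⟨hc, h4, h5⟩
    rw [e3, lead_lt Q hm] at h5
    refine ⟨?_, e4.1 h4, h5.1.1, hc, h5.1.2⟩
    change Lead Q (m - 2 * j - 1) _ (nv _ _ _)
    rw [e2]
    exact h5.2
  · rintro ⟨h4, h5, h6, hc, h7⟩
    refine ⟨hc, e4.2 h5, ?_⟩
    change Lead Q (m - 2 * j - 1) _ (nv _ _ _) at h4
    rw [e2] at h4
    rw [e3, lead_lt Q hm]
    exact ⟨⟨h6, h7⟩, h4⟩

/-- the volume of the piece `2 ord z = m` -/
theorem piece_eq (F : MvPolynomial ι ℂ) {Q : Set (E ⊕ Unit → ℂ)} (hQ : Constructible Q)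
    {j : ℕ} (hj : 1 ≤ j) :
    vol P.rat xq {z : (E ⊕ Unit → ℂ) × (ι ⊕ Unit → PowerSeries ℂ) |
      z.1 (Sum.inr ()) ≠ 0 ∧ ((fun e => z.1 (Sum.inl e)), Sum.elim (fun a => z.2 (Sum.inl a))
        fun _ => BV.arcE (z.1 (Sum.inr ())) j (z.2 (Sum.inr ()))) ∈
          (ZL (Fq F) {fun _ => 0} Q (2 * j))} =
    vol P.rat xq (BB F Q (2 * j)) := by
  have h1 := BV.HP7Aux.vol_ordB P (cy_BB F hQ (2 * j)) 0
  rw [pow_zero, one_mul] at h1
  rw [← h1]
  congr 1
  ext z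
  have e3 : aeval (Sum.elim (fun a => z.2 (Sum.inl a)) fun _ =>
      BV.arcE (z.1 (Sum.inr ())) j (z.2 (Sum.inr ())) : ι ⊕ Unit → PowerSeries ℂ) (Fq F) =
      aeval (fun a => z.2 (Sum.inl a)) F + BV.arcE (z.1 (Sum.inr ()) ^ 2) (2 * j)
        (PowerSeries.C (2 * z.1 (Sum.inr ())) * z.2 (Sum.inr ()) +
          PowerSeries.X * z.2 (Sum.inr ()) ^ 2) := by
    rw [aeval_Fq, ← arcE_sq]
    rfl
  have e4 : (fun a => PowerSeries.coeff 0 ((Sum.elim (fun a => z.2 (Sum.inl a)) fun _ =>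
      BV.arcE (z.1 (Sum.inr ())) j (z.2 (Sum.inr ())) : ι ⊕ Unit → PowerSeries ℂ) a)) ∈
        ({fun _ => 0} : Set (ι ⊕ Unit → ℂ)) ↔
      (fun a => PowerSeries.coeff 0 (z.2 (Sum.inl a))) ∈ ({fun _ => 0} : Set (ι → ℂ)) := by
    simp only [Set.mem_singleton_iff, _root_.funext_iff]
    constructor
    · intro h a
      exact h (Sum.inl a)
    · rintro h (a | a)
      · exact h a
      · change PowerSeries.coeff 0 (BV.arcE _ j _) = 0
        rw [BV.RP7Aux.coeff_arcE, if_pos (by omega)]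
  constructor
  · rintro ⟨hc, h4, h5⟩
    rw [e3, lead_eq] at h5
    exact ⟨⟨hc, e4.1 h4, h5⟩, fun l hl => absurd hl (by omega)⟩
  · rintro ⟨⟨hc, h4, h5⟩, -⟩
    refine ⟨hc, e4.2 h4, ?_⟩
    rw [e3, lead_eq]
    exact h5

theorem sq_zero {z : PowerSeries ℂ} {M : ℕ} (h : ∀ l < M, PowerSeries.coeff l z = 0) :
    ∀ l < 2 * M, PowerSeries.coeff l (z ^ 2) = 0 := by
  have h1 : PowerSeries.X ^ M ∣ z := PowerSeries.X_pow_dvd_iff.2 h
  have h2 : PowerSeries.X ^ (2 * M) ∣ z ^ 2 := by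
    rw [mul_comm, pow_mul]
    exact pow_dvd_pow_of_dvd h1 2
  exact PowerSeries.X_pow_dvd_iff.1 h2

/-- the piece `2 ord z > m` -/
theorem piece_gt (F : MvPolynomial ι ℂ) {Q : Set (E ⊕ Unit → ℂ)} (hQ : Constructible Q)
    (m : ℕ) :
    vol P.rat xq {z : (E → ℂ) × (ι ⊕ Unit → PowerSeries ℂ) | z ∈ ZL (Fq F) {fun _ => 0} Q m ∧
      ∀ l < m / 2 + 1, PowerSeries.coeff l (z.2 (Sum.inr ())) = 0} =
    xq ^ (m / 2 + 1) * vol P.rat xq (ZL F {fun _ => 0} Q m) := by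
  rw [← BV.HP7Aux.vol_ordB P (cy_ZL0 F hQ m) (m / 2 + 1)]
  congr 1
  ext z
  refine and_congr_left fun hz => ?_
  have e1 : ∀ l ≤ m, PowerSeries.coeff l (aeval z.2 (Fq F)) =
      PowerSeries.coeff l (aeval (fun a => z.2 (Sum.inl a)) F) := by
    intro l hl
    rw [aeval_Fq, map_add, sq_zero hz l (by omega), add_zero]
  have e4 : (fun a => PowerSeries.coeff 0 (z.2 a)) ∈ ({fun _ => 0} : Set (ι ⊕ Unit → ℂ)) ↔
      (fun a => PowerSeries.coeff 0 (z.2 (Sum.inl a))) ∈ ({fun _ => 0} : Set (ι → ℂ)) := by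
    simp only [Set.mem_singleton_iff, _root_.funext_iff]
    constructor
    · intro h a
      exact h (Sum.inl a)
    · rintro h (a | a)
      · exact h a
      · exact hz 0 (by omega)
  refine and_congr e4 (and_congr (forall₂_congr fun l hl => ?_) ?_)
  · rw [e1 l (by omega)]
  · rw [e1 m le_rfl]

/-- the sequence for the cancellations -/
noncomputable def kap (F : MvPolynomial ι ℂ) (i : ℕ) : K :=
  if 2 ∣ i ∧ 1 ≤ i then xq ^ (i / 2 + 1) * vol P.rat xq (ZL F {fun _ => 0} QD i) else 0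

theorem sum_even {M : Type} [AddCommMonoid M] (f : ℕ → M) (hf : ∀ i, ¬ 2 ∣ i → f i = 0) (m : ℕ) :
    ∑ i ∈ Finset.range m, f i = ∑ j ∈ Finset.range ((m + 1) / 2), f (2 * j) := by
  induction m with
  | zero => simp
  | succ m ih =>
    rw [Finset.sum_range_succ, ih]
    rcases Nat.even_or_odd' m with ⟨k, rfl | rfl⟩
    · rw [show (2 * k + 1) / 2 = k by omega, show (2 * k + 1 + 1) / 2 = k + 1 by omega,
        Finset.sum_range_succ]
    · rw [show (2 * k + 1 + 1) / 2 = k + 1 by omega, show (2 * k + 1 + 1 + 1) / 2 = k + 1 by omega,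
        hf (2 * k + 1) (by omega), add_zero]

/-- the volumes of `F + z ^ 2` -/
theorem decomp (F : MvPolynomial ι ℂ) {Q : Set (E ⊕ Unit → ℂ)} (hQ : Constructible Q)
    {m : ℕ} (hm : 1 ≤ m) :
    vol P.rat xq (ZL (Fq F) {fun _ => 0} Q m) =
      xq ^ (m / 2 + 1) * vol P.rat xq (ZL F {fun _ => 0} Q m) +
      (if 2 ∣ m then xq ^ (m / 2 + 1) * vol P.rat xq (BB F Q m) else 0) +
      P.rat.val Q * ∑ i ∈ Finset.range m, kap P F i * xq ^ (m - i) := by
  have hcy := cy_ZL0 (Fq F) hQ m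
  rw [BV.HP7Aux.vol_dec P hcy (m / 2 + 1), piece_gt P F hQ m]
  set A : ℕ → K := fun j => vol P.rat xq {z : (E → ℂ) × (ι ⊕ Unit → PowerSeries ℂ) |
    z ∈ ZL (Fq F) {fun _ => 0} Q m ∧
      (∀ l < j, PowerSeries.coeff l (z.2 (Sum.inr ())) = 0) ∧
        PowerSeries.coeff j (z.2 (Sum.inr ())) ≠ 0} with hA
  have hA0 : A 0 = 0 := by
    have : {z : (E → ℂ) × (ι ⊕ Unit → PowerSeries ℂ) |
        z ∈ ZL (Fq F) {fun _ => 0} Q m ∧
        (∀ l < 0, PowerSeries.coeff l (z.2 (Sum.inr ())) = 0) ∧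
        PowerSeries.coeff 0 (z.2 (Sum.inr ())) ≠ 0} = ∅ := by
      rw [Set.eq_empty_iff_forall_notMem]
      rintro z ⟨⟨h1, -⟩, -, h2⟩
      exact h2 (congrFun h1 (Sum.inr ()))
    simp only [hA]
    rw [this]
    exact vol_empty P.rat (VAAux.L_mul P)
  have hAlt : ∀ j, 2 * j < m → A j = P.rat.val Q * (kap P F (2 * j) * xq ^ (m - 2 * j)) := by
    intro j hj
    rcases Nat.eq_zero_or_pos j with rfl | hj0
    · rw [hA0, kap, if_neg (by omega)]; ring
    · rw [kap, if_pos ⟨by omega, by omega⟩]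
      simp only [hA]
      rw [BV.HP7Aux.vol_ordA P hcy j, piece_lt P F hQ hj0 hj, show 2 * j / 2 = j by omega]
      ring
  have hsum : P.rat.val Q * ∑ i ∈ Finset.range m, kap P F i * xq ^ (m - i) =
      ∑ j ∈ Finset.range ((m + 1) / 2), A j := by
    rw [sum_even (fun i => kap P F i * xq ^ (m - i)) (fun i hi => by
      rw [kap, if_neg (fun h => hi h.1), zero_mul]) m, Finset.mul_sum]
    apply Finset.sum_congr rfl
    intro j hj
    rw [Finset.mem_range] at hj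
    rw [hAlt j (by omega)]
  rw [hsum]
  by_cases h2 : 2 ∣ m
  · obtain ⟨k, rfl⟩ := h2
    rw [if_pos (Dvd.intro k rfl), show (2 * k + 1) / 2 = k by omega,
      show 2 * k / 2 = k by omega, Finset.sum_range_succ]
    have h3 : A k = xq ^ (k + 1) * vol P.rat xq (BB F Q (2 * k)) := by
      simp only [hA]
      rw [BV.HP7Aux.vol_ordA P hcy k, piece_eq P F hQ (show 1 ≤ k by omega)]
    change ∑ j ∈ Finset.range k, A j + A k + _ = _
    rw [h3]
    ring
  · rw [if_neg h2, show m / 2 + 1 = (m + 1) / 2 by omega]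
    change ∑ j ∈ Finset.range ((m + 1) / 2), A j + _ = _
    ring

/-! ### Classes -/

/-- `c ≠ 0`, `(p, c ^ 2) ∈ Q` -/
def Q2 (Q : Set (E ⊕ Unit → ℂ)) : Set (E ⊕ Unit → ℂ) :=
  {v | v (Sum.inr ()) ≠ 0 ∧
    (Sum.elim (fun e => v (Sum.inl e)) fun _ => v (Sum.inr ()) ^ 2) ∈ Q}

/-- `c ≠ 0`, `l ≠ 0`, `(p, l + c ^ 2) ∈ Q` -/
def Q3 (Q : Set (E ⊕ Unit → ℂ)) : Set ((E ⊕ Unit) ⊕ Unit → ℂ) :=
  {v | v (Sum.inl (Sum.inr ())) ≠ 0 ∧ v (Sum.inr ()) ≠ 0 ∧
    (Sum.elim (fun e => v (Sum.inl (Sum.inl e))) fun _ =>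
      v (Sum.inr ()) + v (Sum.inl (Sum.inr ())) ^ 2) ∈ Q}

/-- `c ≠ 0`, `(p, l + c ^ 2) ∈ Q` -/
def QW (Q : Set (E ⊕ Unit → ℂ)) : Set ((E ⊕ Unit) ⊕ Unit → ℂ) :=
  {v | v (Sum.inl (Sum.inr ())) ≠ 0 ∧
    (Sum.elim (fun e => v (Sum.inl (Sum.inl e))) fun _ =>
      v (Sum.inr ()) + v (Sum.inl (Sum.inr ())) ^ 2) ∈ Q}

theorem con_Q2 {Q : Set (E ⊕ Unit → ℂ)} (hQ : Constructible Q) : Constructible (Q2 Q) := by
  have h1 := Constructible.ne (X (Sum.inr ()) : MvPolynomial (E ⊕ Unit) ℂ)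
  simp only [eval_X] at h1
  have h2 := Constructible.preimage (Sum.elim (fun e => X (Sum.inl e)) fun _ =>
    X (Sum.inr ()) ^ 2 : E ⊕ Unit → MvPolynomial (E ⊕ Unit) ℂ) hQ
  refine Constructible.and h1 ?_
  convert h2 using 1
  ext v
  rw [Set.mem_ofPred_eq, Set.mem_ofPred_eq]
  have e : (Sum.elim (fun e => v (Sum.inl e)) (fun _ : Unit => v (Sum.inr ()) ^ 2) :
      E ⊕ Unit → ℂ) = fun j => eval v ((Sum.elim (fun e => X (Sum.inl e)) fun _ =>
    X (Sum.inr ()) ^ 2 : E ⊕ Unit → MvPolynomial (E ⊕ Unit) ℂ) j) := by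
    funext s
    rcases s with s | s <;> simp
  rw [e]

theorem con_QW {Q : Set (E ⊕ Unit → ℂ)} (hQ : Constructible Q) : Constructible (QW Q) := by
  have h1 := Constructible.ne (X (Sum.inl (Sum.inr ())) : MvPolynomial ((E ⊕ Unit) ⊕ Unit) ℂ)
  simp only [eval_X] at h1
  have h2 := Constructible.preimage (Sum.elim (fun e => X (Sum.inl (Sum.inl e))) fun _ =>
    X (Sum.inr ()) + X (Sum.inl (Sum.inr ())) ^ 2 :
      E ⊕ Unit → MvPolynomial ((E ⊕ Unit) ⊕ Unit) ℂ) hQ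
  refine Constructible.and h1 ?_
  convert h2 using 1
  ext v
  rw [Set.mem_ofPred_eq, Set.mem_ofPred_eq]
  have e : (Sum.elim (fun e => v (Sum.inl (Sum.inl e))) (fun _ : Unit =>
      v (Sum.inr ()) + v (Sum.inl (Sum.inr ())) ^ 2) :
      E ⊕ Unit → ℂ) = fun j => eval v ((Sum.elim (fun e => X (Sum.inl (Sum.inl e))) fun _ =>
    X (Sum.inr ()) + X (Sum.inl (Sum.inr ())) ^ 2 :
      E ⊕ Unit → MvPolynomial ((E ⊕ Unit) ⊕ Unit) ℂ) j) := by
    funext s
    rcases s with s | s <;> simp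
  rw [e]

theorem con_Q3 {Q : Set (E ⊕ Unit → ℂ)} (hQ : Constructible Q) : Constructible (Q3 Q) := by
  have h1 := Constructible.ne (X (Sum.inr ()) : MvPolynomial ((E ⊕ Unit) ⊕ Unit) ℂ)
  simp only [eval_X] at h1
  have h2 : Q3 Q = {v | v (Sum.inr ()) ≠ 0} ∩ QW Q := by
    ext v
    constructor
    · rintro ⟨a, b, c⟩
      exact ⟨b, a, c⟩
    · rintro ⟨b, a, c⟩
      exact ⟨a, b, c⟩
  rw [h2]
  exact h1.inter (con_QW hQ)

theorem qu_Q3 {Q : Set (E ⊕ Unit → ℂ)} (hQ : Constructible Q) : QU (Q3 Q) :=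
  ⟨con_Q3 hQ, fun _ hz => hz.2.1⟩

theorem val_QW {Q : Set (E ⊕ Unit → ℂ)} (hQ : Constructible Q) :
    P.rat.val (QW Q) = (P.rat.L - 1) * P.rat.val Q := by
  have hc : Constructible {z : Unit → ℂ | z () ≠ 0} := by
    have := Constructible.ne (X () : MvPolynomial Unit ℂ)
    simpa only [eval_X] using this
  rw [← M5Aux.val_ne_zero P, ← P.rat.prod _ _ hc hQ]
  refine P.rat.val_of_inv (con_QW hQ) (Constructible.prodSet hc hQ)
    (Sum.elim (fun _ => X (Sum.inl (Sum.inr ()))) (Sum.elim (fun e => X (Sum.inl (Sum.inl e)))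
      fun _ => X (Sum.inr ()) + X (Sum.inl (Sum.inr ())) ^ 2))
    (fun y => Sum.elim (Sum.elim (fun e => y (Sum.inr (Sum.inl e))) fun _ => y (Sum.inl ()))
      fun _ => y (Sum.inr (Sum.inr ())) - y (Sum.inl ()) ^ 2) ?_ ?_ ?_ ?_
  · rintro v ⟨h1, h2⟩
    refine ⟨?_, ?_⟩
    · simpa using h1
    · have e : (fun j => eval v ((Sum.elim (fun _ => X (Sum.inl (Sum.inr ())))
          (Sum.elim (fun e => X (Sum.inl (Sum.inl e))) fun _ =>
            X (Sum.inr ()) + X (Sum.inl (Sum.inr ())) ^ 2) :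
            Unit ⊕ (E ⊕ Unit) → MvPolynomial ((E ⊕ Unit) ⊕ Unit) ℂ) (Sum.inr j))) =
          (Sum.elim (fun e => v (Sum.inl (Sum.inl e))) fun _ =>
            v (Sum.inr ()) + v (Sum.inl (Sum.inr ())) ^ 2) := by
        funext s
        rcases s with s | s <;> simp
      rw [← e] at h2
      exact h2
  · rintro y ⟨h1, h2⟩
    refine ⟨h1, ?_⟩
    simp only [Sum.elim_inl, Sum.elim_inr, sub_add_cancel]
    convert h2 using 1
    funext s
    rcases s with s | s <;> rfl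
  · intro v _
    funext s
    rcases s with (s | s) | s <;> simp
  · intro y _
    funext s
    rcases s with s | (s | s) <;> simp

theorem val_Q23 {Q : Set (E ⊕ Unit → ℂ)} (hQ : Constructible Q) :
    P.rat.val (Q2 Q) + P.rat.val (Q3 Q) = (P.rat.L - 1) * P.rat.val Q := by
  have h0 := Constructible.zero (X (Sum.inr ()) : MvPolynomial ((E ⊕ Unit) ⊕ Unit) ℂ)
  simp only [eval_X] at h0
  have c0 : Constructible ({v : (E ⊕ Unit) ⊕ Unit → ℂ | v (Sum.inr ()) = 0} ∩ QW Q) :=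
    h0.inter (con_QW hQ)
  have h1 : P.rat.val ({v : (E ⊕ Unit) ⊕ Unit → ℂ | v (Sum.inr ()) = 0} ∩ QW Q) =
      P.rat.val (Q2 Q) := by
    refine P.rat.val_of_inv c0 (con_Q2 hQ) (fun j => X (Sum.inl j))
      (fun y => Sum.elim y fun _ => 0) ?_ ?_ ?_ ?_
    · rintro v ⟨a, b, c⟩
      have a' : v (Sum.inr ()) = 0 := a
      simp only [eval_X]
      refine ⟨b, ?_⟩
      rw [a', zero_add] at c
      exact c
    · rintro y ⟨a, b⟩
      refine ⟨rfl, a, ?_⟩
      simp only [Sum.elim_inl, Sum.elim_inr, zero_add]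
      exact b
    · rintro v ⟨a, -⟩
      funext s
      rcases s with s | s
      · simp
      · exact (show v (Sum.inr ()) = 0 from a).symm
    · intro y _
      funext s
      simp
  rw [← val_QW P hQ, ← h1, ← P.rat.union _ _ c0 (con_Q3 hQ)]
  · congr 1
    ext v
    constructor
    · rintro (⟨-, h⟩ | ⟨a, -, c⟩)
      · exact h
      · exact ⟨a, c⟩
    · rintro ⟨a, c⟩
      by_cases h : v (Sum.inr ()) = 0
      · exact Or.inl ⟨h, a, c⟩
      · exact Or.inr ⟨a, h, c⟩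
  · rw [Set.disjoint_left]
    rintro v ⟨a, -⟩ ⟨-, b, -⟩
    exact b a

/-! ### The middle term -/

/-- arcs along which the order of `F` is larger than `m` -/
def TT (F : MvPolynomial ι ℂ) (m : ℕ) : Set ((Empty → ℂ) × (ι → PowerSeries ℂ)) :=
  {z | (∀ a, PowerSeries.coeff 0 (z.2 a) = 0) ∧
    ∀ l ≤ m, PowerSeries.coeff l (aeval z.2 F) = 0}

theorem TT_eq (F : MvPolynomial ι ℂ) (m : ℕ) :
    TT F m = ZL F {fun _ => 0} Set.univ (m + 1) := by
  ext z
  constructor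
  · rintro ⟨h1, h2⟩
    exact ⟨funext h1, fun l hl => h2 l (by omega), trivial⟩
  · rintro ⟨h1, h2, -⟩
    exact ⟨fun a => congrFun h1 a, fun l hl => h2 l (by omega)⟩

theorem cy_TT (F : MvPolynomial ι ℂ) (m : ℕ) : Cy (TT F m) := by
  rw [TT_eq]
  exact cy_ZL0 F Constructible.univ _

theorem vol_par0 {H : Set (E → ℂ)} (hH : Constructible H)
    {D : Set ((Empty → ℂ) × (ι → PowerSeries ℂ))} (hD : Cy D) :
    vol P.rat xq {z : (E → ℂ) × (ι → PowerSeries ℂ) | z.1 ∈ H ∧ (Empty.elim, z.2) ∈ D} =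
      P.rat.val H * vol P.rat xq D := by
  rw [← BV.MU7Aux.vol_pp P (Equiv.emptySum Empty E) hH hD]
  congr 1
  ext z
  have e1 : (fun a : Empty => z.1 ((Equiv.emptySum Empty E) (Sum.inl a))) = Empty.elim :=
    Subsingleton.elim _ _
  rw [Set.mem_ofPred_eq, Set.mem_ofPred_eq, e1]
  exact Iff.rfl

theorem bb_qu (F : MvPolynomial ι ℂ) {Q : Set (E ⊕ Unit → ℂ)} (hQ : Constructible Q) (m : ℕ) :
    vol P.rat xq (BB F Q m) = P.rat.val (Q2 Q) * vol P.rat xq (TT F m) +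
      vol P.rat xq (ZL F {fun _ => 0} (Q3 Q) m) := by
  have c1 : Cy {z : (E ⊕ Unit → ℂ) × (ι → PowerSeries ℂ) |
      z.1 ∈ Q2 Q ∧ (Empty.elim, z.2) ∈ TT F m} := by
    have a1 : Cy {z : (E ⊕ Unit → ℂ) × (ι → PowerSeries ℂ) | (Empty.elim, z.2) ∈ TT F m} :=
      BV.RMAux.cy_sub (cy_TT F m) (φ := fun z => Empty.elim) (fun s => s.elim)
        (ψ := fun z => z.2) fun a l => RF.arc a l
    exact Cy.and (Cy.param (con_Q2 hQ)) a1
  rw [← vol_par0 P (con_Q2 hQ) (cy_TT F m), ← vol_uni P c1 (cy_ZL0 F (con_Q3 hQ) m)]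
  · congr 1
    ext z
    constructor
    · rintro ⟨h1, h2, h3, h4⟩
      by_cases h : PowerSeries.coeff m (aeval z.2 F) = 0
      · left
        rw [h, zero_add] at h4
        refine ⟨⟨h1, h4⟩, fun a => congrFun h2 a, fun l hl => ?_⟩
        rcases Nat.lt_or_eq_of_le hl with hl | rfl
        · exact h3 l hl
        · exact h
      · right
        exact ⟨h2, h3, h1, h, h4⟩
    · rintro (⟨⟨h1, h4⟩, h2, h3⟩ | ⟨h2, h3, h1, h, h4⟩)
      · refine ⟨h1, funext h2, fun l hl => h3 l hl.le, ?_⟩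
        rw [h3 m le_rfl, zero_add]
        exact h4
      · exact ⟨h1, h2, h3, h4⟩
  · rw [Set.disjoint_left]
    rintro z ⟨-, -, h1⟩ ⟨-, -, -, h2, -⟩
    exact h2 (h1 m le_rfl)

theorem val_cst : P.rat.val {v : Empty ⊕ Unit → ℂ | v (Sum.inr ()) ≠ 0} = P.rat.L - 1 := by
  rw [← M5Aux.val_ne_zero P]
  have hc : Constructible {z : Unit → ℂ | z () ≠ 0} := by
    have := Constructible.ne (X () : MvPolynomial Unit ℂ)
    simpa only [eval_X] using this
  exact P.rat.reindex (Equiv.emptySum Empty Unit).symm hc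

theorem val_un : P.rat.val (Set.univ : Set (Empty ⊕ Unit → ℂ)) = P.rat.L :=
  P.rat.reindex (Equiv.emptySum Empty Unit).symm Constructible.univ

theorem bb_un (F : MvPolynomial ι ℂ) (m : ℕ) :
    vol P.rat xq (BB F (Set.univ : Set (Empty ⊕ Unit → ℂ)) (m + 1)) =
      (P.rat.L - 1) * vol P.rat xq (TT F m) := by
  have hc : Constructible {v : Empty ⊕ Unit → ℂ | v (Sum.inr ()) ≠ 0} := by
    have := Constructible.ne (X (Sum.inr ()) : MvPolynomial (Empty ⊕ Unit) ℂ)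
    simpa only [eval_X] using this
  rw [← val_cst P, ← vol_par0 P hc (cy_TT F m)]
  congr 1
  ext z
  constructor
  · rintro ⟨h1, h2, h3, -⟩
    exact ⟨h1, fun a => congrFun h2 a, fun l hl => h3 l (by omega)⟩
  · rintro ⟨h1, h2, h3⟩
    exact ⟨h1, funext h2, fun l hl => h3 l (by omega), trivial⟩

/-! ### Sequences -/

theorem xq_ne : xq ≠ 0 := by
  rw [xq]
  exact inv_ne_zero RatFunc.X_ne_zero

theorem eseq_pow : ESeq {1} fun m => xq ^ m := by
  have h := stmt_Q1.2.2.2.2.1 {1} 1 1 le_rfl (by norm_num)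
  simpa using h

theorem eseq_half : ESeq {1 / 2} fun m => xq ^ (m / 2) := by
  have h := (stmt_Q1.2.2.2.2.2.2 {1} _ 2 (by norm_num) eseq_pow).2
  refine stmt_Q1.1 _ _ _ ?_ h
  intro r hr
  have h1 : ((2 : ℕ) : ℚ) * r = 1 := hr
  rw [Set.mem_singleton_iff]
  push_cast at h1
  linarith

theorem eseq_half' : ESeq {1 / 2} fun m => if 2 ∣ m then xq ^ (m / 2) else 0 := by
  have h := stmt_Q1.2.2.2.2.1 {1 / 2} 2 1 (by norm_num) (by norm_num)
  simpa using h

theorem eseq_mul_half {Λ : Set ℚ} {s : ℕ → K} (hs : ESeq Λ s) :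
    ESeq {r | r - 1 / 2 ∈ Λ} fun m => xq ^ (m / 2 + 1) * s m := by
  have h := stmt_Q1.2.2.1 _ _ xq (stmt_Q2 _ _ _ _ eseq_half hs)
  refine stmt_Q1.1 _ {r | r - 1 / 2 ∈ Λ} _ ?_ (Eq.mp (congrArg _ ?_) h)
  · rintro r ⟨a, ha, b, hb, rfl⟩
    rw [Set.mem_singleton_iff] at ha
    subst ha
    change (1 / 2 + b) - 1 / 2 ∈ Λ
    rwa [add_sub_cancel_left]
  · funext m
    rw [pow_succ]; ring

theorem eseq_mul_half' {Λ : Set ℚ} {s : ℕ → K} (hs : ESeq Λ s) :
    ESeq {r | r - 1 / 2 ∈ Λ} fun m => if 2 ∣ m then xq ^ (m / 2 + 1) * s m else 0 := by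
  have h := stmt_Q1.2.2.1 _ _ xq (stmt_Q2 _ _ _ _ eseq_half' hs)
  refine stmt_Q1.1 _ {r | r - 1 / 2 ∈ Λ} _ ?_ (Eq.mp (congrArg _ ?_) h)
  · rintro r ⟨a, ha, b, hb, rfl⟩
    rw [Set.mem_singleton_iff] at ha
    subst ha
    change (1 / 2 + b) - 1 / 2 ∈ Λ
    rwa [add_sub_cancel_left]
  · funext m
    split_ifs
    · rw [pow_succ]; ring
    · ring

/-- the Haar part of the sum -/
theorem haar_sum (α : K) (m : ℕ) :
    ∑ i ∈ Finset.range m, (if 2 ∣ i ∧ 1 ≤ i then xq ^ (i / 2 + 1) * (α * xq ^ i * (P.rat.L - 1))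
      else 0) * xq ^ (m - i) = α * xq ^ (m + 1) - α * xq ^ (m + 1 + (m - 1) / 2) := by
  have hL := VAAux.L_mul P
  rw [sum_even (fun i => (if 2 ∣ i ∧ 1 ≤ i then xq ^ (i / 2 + 1) *
    (α * xq ^ i * (P.rat.L - 1)) else 0) * xq ^ (m - i)) (fun i hi => by
      rw [if_neg (fun h => hi h.1), zero_mul]) m]
  have h1 : ∀ k, k ≤ (m + 1) / 2 → 1 ≤ k →
      ∑ j ∈ Finset.range k, (if 2 ∣ 2 * j ∧ 1 ≤ 2 * j then xq ^ (2 * j / 2 + 1) *
        (α * xq ^ (2 * j) * (P.rat.L - 1)) else 0) * xq ^ (m - 2 * j) =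
      α * xq ^ (m + 1) - α * xq ^ (m + 1 + (k - 1)) := by
    intro k hk hk1
    induction k, hk1 using Nat.le_induction with
    | base => simp
    | succ k hk1 ih =>
      rw [Finset.sum_range_succ, ih (by omega), if_pos ⟨by omega, by omega⟩,
        show 2 * k / 2 = k by omega]
      have e1 : xq ^ (2 * k) * xq ^ (m - 2 * k) = xq ^ m := by
        rw [← pow_add]; congr 1; omega
      obtain ⟨k, rfl⟩ : ∃ k', k = k' + 1 := ⟨k - 1, by omega⟩
      rw [Nat.add_sub_cancel, Nat.add_sub_cancel]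
      have e2 : xq ^ (k + 1 + 1) * (α * xq ^ (2 * (k + 1)) * (P.rat.L - 1)) *
          xq ^ (m - 2 * (k + 1)) = α * xq ^ (k + 1) * xq ^ m * (P.rat.L * xq - xq) := by
        rw [← e1]; ring
      rw [e2, hL]
      ring
  rcases Nat.eq_zero_or_pos m with rfl | hm
  · simp
  · have := h1 ((m + 1) / 2) le_rfl (by omega)
    rw [this, show (m + 1) / 2 - 1 = (m - 1) / 2 by omega]

end dec

/-! ### The theorem -/

section fin

variable {ι : Type} [Fintype ι] (P : HodgeMeasure)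

theorem val_QD : P.rat.val QD = P.rat.L - 1 := by
  rw [← M5Aux.val_ne_zero P]
  have hc : Constructible {z : Unit → ℂ | z () ≠ 0} := by
    have := Constructible.ne (X () : MvPolynomial Unit ℂ)
    simpa only [eval_X] using this
  refine P.rat.val_of_inv con_QD hc (fun _ => X (Sum.inl ()))
    (fun y => Sum.elim (fun _ => y ()) fun _ => -(y ()) ^ 2) ?_ ?_ ?_ ?_
  · rintro v ⟨a, -⟩
    simpa using a
  · intro y hy
    exact ⟨hy, rfl⟩
  · rintro v ⟨-, b⟩
    funext s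
    rcases s with s | s
    · simp
    · exact (show v (Sum.inr ()) = _ from b).symm ▸ (by simp)
  · intro y _
    funext s
    simp

theorem main (F : MvPolynomial ι ℂ) (Λ : Set ℚ) (hΛ : Λ ⊆ Set.Ioi 0) (h : PD9 P F Λ) :
    PD9 P (Fq F) {r | r - 1 / 2 ∈ Λ} := by
  obtain ⟨α, h1, h2⟩ := h
  have hL := VAAux.L_mul P
  have h2' : ESeq Λ fun m => vol P.rat xq (TT F m) - α * xq ^ m := h2
  have hD := h1 Unit QD qu_QD
  have hk := eseq_mul_half' hD
  have hΛ' : {r : ℚ | r - 1 / 2 ∈ Λ} ⊆ Set.Ioi 0 := by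
    intro r hr
    have : 0 < r - 1 / 2 := hΛ hr
    exact lt_trans (by norm_num) (sub_pos.1 this)
  obtain ⟨a, ha⟩ := stmt_Q4 _ _ hΛ' hk
  -- the sums
  have hsum : ∀ m, ∑ i ∈ Finset.range m, kap P F i * xq ^ (m - i) =
      (∑ i ∈ Finset.range m, (if 2 ∣ i then xq ^ (i / 2 + 1) *
        (if i = 0 then 0 else vol P.rat xq (ZL F {fun _ => 0} QD i) - α * xq ^ i * P.rat.val QD)
          else 0) * xq ^ (m - i)) +
        (α * xq ^ (m + 1) - α * xq ^ (m + 1 + (m - 1) / 2)) := by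
    intro m
    rw [← haar_sum P α m, ← Finset.sum_add_distrib]
    apply Finset.sum_congr rfl
    intro i _
    rw [← add_mul, kap, val_QD]
    congr 1
    by_cases hi : 2 ∣ i
    · by_cases hi0 : i = 0
      · subst hi0
        simp
      · rw [if_pos ⟨hi, by omega⟩, if_pos hi, if_neg hi0, if_pos ⟨hi, by omega⟩]
        ring
    · rw [if_neg (fun h => hi h.1), if_neg hi, if_neg (fun h => hi h.1), add_zero]
  refine ⟨α * xq + a, ?_, ?_⟩
  · intro E _ Q hQ
    have g1 := eseq_mul_half (h1 E Q hQ)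
    have g2 := eseq_mul_half' (stmt_Q1.2.2.1 _ _ (P.rat.val (Q2 Q)) h2')
    have g3 := eseq_mul_half' (h1 (E ⊕ Unit) (Q3 Q) (qu_Q3 hQ.1))
    have g4 := stmt_Q1.2.2.1 _ _ (P.rat.val Q) ha
    have g5 := stmt_Q1.2.1 _ _ _ (stmt_Q1.2.1 _ _ _ g1 g2) (stmt_Q1.2.1 _ _ _ g3 g4)
    have g6 := stmt_Q1.2.2.2.1 {r : ℚ | r - 1 / 2 ∈ Λ} (fun m =>
      (if m = 0 then 0 else vol P.rat xq (ZL (Fq F) {fun _ => 0} Q m) -
        (α * xq + a) * xq ^ m * P.rat.val Q) -
      ((xq ^ (m / 2 + 1) * (if m = 0 then 0 else vol P.rat xq (ZL F {fun _ => 0} Q m) -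
        α * xq ^ m * P.rat.val Q)) + (if 2 ∣ m then xq ^ (m / 2 + 1) *
          (P.rat.val (Q2 Q) * (vol P.rat xq (TT F m) - α * xq ^ m)) else 0) +
        ((if 2 ∣ m then xq ^ (m / 2 + 1) * (if m = 0 then 0 else
          vol P.rat xq (ZL F {fun _ => 0} (Q3 Q) m) - α * xq ^ m * P.rat.val (Q3 Q)) else 0) +
        P.rat.val Q * ((∑ i ∈ Finset.range m, (if 2 ∣ i then xq ^ (i / 2 + 1) *
          (if i = 0 then 0 else vol P.rat xq (ZL F {fun _ => 0} QD i) -
            α * xq ^ i * P.rat.val QD) else 0) * xq ^ (m - i)) - a * xq ^ m)))) 1 ?_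
    · have g7 := stmt_Q1.2.1 _ _ _ g6 g5
      refine Eq.mp (congrArg _ ?_) g7
      funext m
      exact sub_add_cancel _ _
    · intro m hm
      have hm0 : m ≠ 0 := by omega
      rw [if_neg hm0, if_neg hm0, if_neg hm0, decomp P F hQ.1 hm, hsum m]
      have hQ23 := val_Q23 P hQ.1
      by_cases h2m : 2 ∣ m
      · obtain ⟨k, rfl⟩ := h2m
        obtain ⟨k, rfl⟩ : ∃ k', k = k' + 1 := ⟨k - 1, by omega⟩
        rw [if_pos (Dvd.intro _ rfl), if_pos (Dvd.intro _ rfl), if_pos (Dvd.intro _ rfl),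
          bb_qu P F hQ.1, show 2 * (k + 1) / 2 = k + 1 by omega,
          show (2 * (k + 1) - 1) / 2 = k by omega]
        have e : xq ^ (k + 1 + 1) * (α * xq ^ (2 * (k + 1)) * P.rat.val (Q2 Q)) +
            xq ^ (k + 1 + 1) * (α * xq ^ (2 * (k + 1)) * P.rat.val (Q3 Q)) =
            α * xq ^ (2 * (k + 1)) * xq ^ (k + 1) * (P.rat.L * xq - xq) * P.rat.val Q := by
          rw [← mul_add, ← mul_add, hQ23]; ring
        rw [hL] at e
        linear_combination e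
      · obtain ⟨k, rfl⟩ : ∃ k, m = 2 * k + 1 := ⟨m / 2, by omega⟩
        rw [if_neg h2m, if_neg h2m, if_neg h2m, show (2 * k + 1) / 2 = k by omega,
          show (2 * k + 1 - 1) / 2 = k by omega]
        ring
  · have g1 := eseq_mul_half h2'
    have g4 := stmt_Q1.2.1 _ _ _ hk ha
    have g5 := stmt_Q1.2.1 _ _ _ g1 g4
    refine Eq.mp (congrArg _ ?_) g5
    funext m
    have e0 : {z : (Empty → ℂ) × (ι ⊕ Unit → PowerSeries ℂ) |
        (∀ a, PowerSeries.coeff 0 (z.2 a) = 0) ∧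
          ∀ l ≤ m, PowerSeries.coeff l (aeval z.2 (Fq F)) = 0} = TT (Fq F) m := rfl
    rw [e0, TT_eq (Fq F) m, decomp P F Constructible.univ (Nat.succ_pos m), hsum (m + 1), val_un,
      bb_un, ← TT_eq]
    rw [Finset.sum_range_succ]
    have e1 : ∀ i ∈ Finset.range m, (if 2 ∣ i then xq ^ (i / 2 + 1) *
        (if i = 0 then 0 else vol P.rat xq (ZL F {fun _ => 0} QD i) - α * xq ^ i * P.rat.val QD)
          else 0) * xq ^ (m + 1 - i) = (if 2 ∣ i then xq ^ (i / 2 + 1) *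
        (if i = 0 then 0 else vol P.rat xq (ZL F {fun _ => 0} QD i) - α * xq ^ i * P.rat.val QD)
          else 0) * xq ^ (m - i) * xq := by
      intro i hi
      rw [Finset.mem_range] at hi
      have e2 : xq ^ (m + 1 - i) = xq ^ (m - i) * xq := by
        rw [← pow_succ]
        congr 1
        omega
      rw [e2, ← mul_assoc]
    rw [Finset.sum_congr rfl e1, ← Finset.sum_mul, show m + 1 - m = 1 by omega, pow_one]
    by_cases h2m : 2 ∣ m + 1
    · obtain ⟨k, rfl⟩ : ∃ k, m = 2 * k + 1 := ⟨m / 2, by omega⟩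
      rw [if_pos h2m, show (2 * k + 1 + 1) / 2 = k + 1 by omega, show (2 * k + 1) / 2 = k by omega,
        show (2 * k + 1 + 1 - 1) / 2 = k by omega]
      set S := ∑ i ∈ Finset.range (2 * k + 1), (if 2 ∣ i then xq ^ (i / 2 + 1) *
        (if i = 0 then 0 else vol P.rat xq (ZL F {fun _ => 0} QD i) - α * xq ^ i * P.rat.val QD)
          else 0) * xq ^ (2 * k + 1 - i)
      set U := (if 2 ∣ 2 * k + 1 then xq ^ (k + 1) *
        (if 2 * k + 1 = 0 then 0 else vol P.rat xq (ZL F {fun _ => 0} QD (2 * k + 1)) -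
          α * xq ^ (2 * k + 1) * P.rat.val QD) else 0)
      linear_combination (-(S + U + α * xq ^ (2 * k + 1 + 1) - α * xq ^ (2 * k + 1 + 1 + k)) -
        xq ^ (k + 1) * vol P.rat xq (TT F (2 * k + 1))) * hL
    · obtain ⟨k, rfl⟩ : ∃ k, m = 2 * k := ⟨m / 2, by omega⟩
      rw [if_neg h2m, show (2 * k + 1) / 2 = k by omega, show 2 * k / 2 = k by omega,
        show (2 * k + 1 - 1) / 2 = k by omega]
      set S := ∑ i ∈ Finset.range (2 * k), (if 2 ∣ i then xq ^ (i / 2 + 1) *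
        (if i = 0 then 0 else vol P.rat xq (ZL F {fun _ => 0} QD i) - α * xq ^ i * P.rat.val QD)
          else 0) * xq ^ (2 * k - i)
      set U := (if 2 ∣ 2 * k then xq ^ (k + 1) *
        (if 2 * k = 0 then 0 else vol P.rat xq (ZL F {fun _ => 0} QD (2 * k)) -
          α * xq ^ (2 * k) * P.rat.val QD) else 0)
      linear_combination (-(S + U + α * xq ^ (2 * k + 1) - α * xq ^ (2 * k + 1 + k))) * hL

end fin


end SG9Aux

theorem stmt_SG9 : Stmt_SG9 := by
  intro P ι _ F Λ hΛ h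
  exact SG9Aux.main P F Λ hΛ h

end Pool.Agent.Mono.C9
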