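import Pool.Agent.Work.Monodromy9.SG9

/-!
# Phase 9, block SGI9: volumes of `G` plus squares (helper54)
-/

set_option autoImplicit false

namespace Pool.Agent.Mono.C9

open MvPolynomial TS RO SP PC

namespace SGI9Aux

open RO.VGAux SG9Aux

theorem aeval_ren {ι κ : Type} (φ : ι ≃ κ) (F : MvPolynomial ι ℂ) (x : κ → PowerSeries ℂ) :
    aeval x (rename φ F) = aeval (fun a => x (φ a)) F := by
  rw [aeval_rename]
  rfl

theorem vol_ren (P : HodgeMeasure) {E ι κ : Type} [Finite E] [Fintype ι] [Fintype κ] (φ : ι ≃ κ)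
    (F : MvPolynomial ι ℂ) {Q : Set (E ⊕ Unit → ℂ)} (hQ : Constructible Q) (m : ℕ) :
    vol P.rat xq (ZL (rename φ F) {fun _ => 0} Q m) = vol P.rat xq (ZL F {fun _ => 0} Q m) := by
  refine BV.HP7Aux.vol_iso P (Equiv.refl E) φ (cy_ZL0 F hQ m) ?_
  intro p x
  have e1 : (fun a => PowerSeries.coeff 0 (x a)) ∈ ({fun _ => 0} : Set (κ → ℂ)) ↔
      (fun a => PowerSeries.coeff 0 (x (φ a))) ∈ ({fun _ => 0} : Set (ι → ℂ)) := by
    simp only [Set.mem_singleton_iff, _root_.funext_iff]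
    constructor
    · intro h a
      exact h (φ a)
    · intro h a
      have := h (φ.symm a)
      rwa [Equiv.apply_symm_apply] at this
  refine and_congr e1 ?_
  change Lead Q m p (aeval x (rename φ F)) ↔ Lead Q m p (aeval (fun a => x (φ a)) F)
  rw [aeval_ren]

theorem ren (P : HodgeMeasure) {ι κ : Type} [Fintype ι] [Fintype κ] (φ : ι ≃ κ)
    (F : MvPolynomial ι ℂ) (Λ : Set ℚ) (h : PD9 P F Λ) : PD9 P (rename φ F) Λ := by
  obtain ⟨α, h1, h2⟩ := h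
  refine ⟨α, ?_, ?_⟩
  · intro E _ Q hQ
    refine Eq.mp (congrArg _ ?_) (h1 E Q hQ)
    funext m
    rw [vol_ren P φ F hQ.1]
  · refine Eq.mp (congrArg _ ?_) h2
    funext m
    have e1 : {z : (Empty → ℂ) × (ι → PowerSeries ℂ) |
        (∀ a, PowerSeries.coeff 0 (z.2 a) = 0) ∧
          ∀ l ≤ m, PowerSeries.coeff l (aeval z.2 F) = 0} = TT F m := rfl
    have e2 : {z : (Empty → ℂ) × (κ → PowerSeries ℂ) |
        (∀ a, PowerSeries.coeff 0 (z.2 a) = 0) ∧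
          ∀ l ≤ m, PowerSeries.coeff l (aeval z.2 (rename φ F)) = 0} = TT (rename φ F) m := rfl
    rw [e1, e2, TT_eq, TT_eq, vol_ren P φ F Constructible.univ]

end SGI9Aux

theorem stmt_SGI9 (hSG : Stmt_SG9) (hGGI : Stmt_GGI9) : Stmt_SGI9 := by
  intro P G Λ hΛ h ι _ _ Z u v huv hZ
  refine hGGI (fun ι _ F k => PD9 P F {r | r - (k : ℚ) / 2 ∈ Λ}) ?_ ?_ G ?_ ι Z u v huv hZ
  · intro ι _ F k hk
    have h1 := hSG P ι F {r | r - (k : ℚ) / 2 ∈ Λ} (by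
      intro r hr
      have h2 : (0 : ℚ) < r - (k : ℚ) / 2 := hΛ hr
      have h3 : (0 : ℚ) ≤ (k : ℚ) / 2 := by positivity
      exact lt_of_le_of_lt h3 (sub_pos.1 h2)) hk
    have h2 : {r : ℚ | r - 1 / 2 ∈ {r : ℚ | r - (k : ℚ) / 2 ∈ Λ}} =
        {r : ℚ | r - ((k + 1 : ℕ) : ℚ) / 2 ∈ Λ} := by
      ext r
      change r - 1 / 2 - (k : ℚ) / 2 ∈ Λ ↔ r - ((k + 1 : ℕ) : ℚ) / 2 ∈ Λ
      have : r - 1 / 2 - (k : ℚ) / 2 = r - ((k + 1 : ℕ) : ℚ) / 2 := by push_cast; ring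
      rw [this]
    rwa [h2] at h1
  · intro ι κ _ _ φ F k hk
    exact SGI9Aux.ren P φ F _ hk
  · simpa using h

end Pool.Agent.Mono.C9
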