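import Pool.Agent.Work.Monodromy.Interface9
import Pool.Agent.Work.Monodromy8.SMZ8
import Pool.Agent.Work.Monodromy6.VMU

/-!
# Block SMU9 (helper58): smooth germs and their powers
-/

set_option autoImplicit false
set_option linter.unusedSectionVars false

namespace Pool.Agent.Mono.C9

open MvPolynomial TS RO SP PC

namespace SMUAux

open VGAux O5Aux VSMAux VMUAux SMZ8Aux

theorem conZ {ι : Type} [Finite ι] : Constructible ({fun _ => 0} : Set (ι → ℂ)) := Constructible.point _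

theorem valZ (P : HodgeMeasure) : P.rat.val ({fun _ => 0} : Set (Fin 2 → ℂ)) = 1 :=
  P.rat.val_point (fun _ : Fin 2 => (0 : ℂ))

/-- the volume of the arcs at the origin with the coefficients `1, …, N` of `g(x)` equal to zero -/
theorem vol_tail (P : HodgeMeasure) (g : P2) (h1 : ∃ i, eval 0 (pderiv i g) ≠ 0) (N : ℕ) :
    vol P.rat xq (DN g (ZP (E := Empty) ({fun _ => 0} : Set (Fin 2 → ℂ))) (fun _ => 0) N) =
      xq ^ (2 + N) := by
  classical
  rw [vol_DN P g N _ Finset.univ _ (con_ZP conZ) ?_]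
  · have h2 : P.rat.val (ZP (E := Empty) ({fun _ => 0} : Set (Fin 2 → ℂ))) = 1 := by
      have h3 := P.rat.val_prod (Constructible.univ (ι := Empty)) (conZ (ι := Fin 2))
      rw [P.rat.point, valZ, one_mul] at h3
      rw [← h3]
      congr 1
      ext u
      exact ⟨fun h => ⟨trivial, h⟩, fun h => h.2⟩
    rw [h2, mul_one, Fintype.card_fin]
  · intro u hu
    obtain ⟨i, hi⟩ := h1
    have hu' : (fun j => u (Sum.inr j)) = (0 : Fin 2 → ℂ) := hu
    exact ⟨i, Finset.mem_univ i, by rw [hu']; exact hi⟩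

theorem vol_smooth {E : Type} [Finite E] (P : HodgeMeasure) (F : P2) (h0 : eval 0 F = 0)
    (h1 : ∃ i, eval 0 (pderiv i F) ≠ 0) (Q : Set (E ⊕ Unit → ℂ)) (hQ : QU Q) {m : ℕ}
    (hm : 1 ≤ m) :
    vol P.rat xq (ZL F {fun _ => 0} Q m) = xq ^ (2 + m) * P.rat.val Q := by
  have hz : ∀ x ∈ ({fun _ => 0} : Set (Fin 2 → ℂ)), eval x F = 0 := by
    intro x hx
    rw [Set.mem_singleton_iff] at hx
    rw [hx]; exact h0
  have hz' : ∀ x ∈ ({fun _ => 0} : Set (Fin 2 → ℂ)), ∃ i, eval x (pderiv i F) ≠ 0 := by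
    intro x hx
    rw [Set.mem_singleton_iff] at hx
    rw [hx]; exact h1
  rw [ZL_eq F _ hz Q hm, vol_SDz P F conZ hz' (con_QZ hQ.1) hm, Fintype.card_fin]
  congr 1
  have h3 := P.rat.val_prod hQ.1 (conZ (ι := Fin 2))
  rw [valZ, mul_one] at h3
  rw [← h3]
  congr 1
  ext u
  constructor
  · rintro ⟨h4, h5⟩
    exact ⟨(by
      have h6 := h4.2
      convert h6 using 1
      funext s
      rcases s with s | s <;> rfl), h5⟩
  · rintro ⟨h4, h5⟩
    refine ⟨⟨?_, ?_⟩, h5⟩
    · exact hz _ h5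
    · convert h4 using 1
      funext s
      rcases s with s | s <;> rfl

theorem tail_set (F g h : P2) (e : ℕ) (he : 2 ≤ e) (hF : F = C 0 + g ^ e * h)
    (hg : eval 0 g = 0) (hh : eval 0 h ≠ 0) (m : ℕ) :
    {z : (Empty → ℂ) × (Fin 2 → PowerSeries ℂ) |
      (∀ a, PowerSeries.coeff 0 (z.2 a) = 0) ∧ ∀ l ≤ m, PowerSeries.coeff l (aeval z.2 F) = 0} =
    DN g (ZP (E := Empty) ({fun _ => 0} : Set (Fin 2 → ℂ))) (fun _ => 0) (m / e) := by
  ext z
  have key : (∀ a, PowerSeries.coeff 0 (z.2 a) = 0) →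
      PowerSeries.coeff 0 (aeval z.2 g) = 0 ∧ PowerSeries.coeff 0 (aeval z.2 h) ≠ 0 := by
    intro hz
    have h1 : (fun a => PowerSeries.coeff 0 (z.2 a)) = (0 : Fin 2 → ℂ) := funext hz
    rw [coeff_zero', coeff_zero', h1]
    exact ⟨hg, hh⟩
  constructor
  · rintro ⟨h1, h2⟩
    obtain ⟨h3, h4⟩ := key h1
    refine ⟨funext h1, fun l hl => ?_⟩
    rw [map_zero]
    exact (tail_iff he hF h3 h4 m).1 (fun j _ hj => h2 j (by omega)) l hl
  · rintro ⟨h1, h2⟩
    have h1' : ∀ a, PowerSeries.coeff 0 (z.2 a) = 0 := fun a => congrFun h1 a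
    obtain ⟨h3, h4⟩ := key h1'
    refine ⟨h1', fun l hl => ?_⟩
    rcases Nat.eq_zero_or_pos l with rfl | hl'
    · rw [coeff_f0 he hF h3]
    · refine (tail_iff he hF h3 h4 m).2 (fun j hj => ?_) l hl' (by omega)
      have := h2 j hj
      rwa [map_zero] at this

end SMUAux

open SMUAux VGAux O5Aux VSMAux VMUAux SMZ8Aux

theorem stmt_SMU9 : Stmt_SMU9 := by
  classical
  intro P g h e he hg hg' hh
  rcases Nat.lt_or_ge e 2 with h2 | h2
  · have he1 : e = 1 := by omega
    subst he1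
    have hF0 : eval 0 (g ^ 1 * h) = 0 := by
      rw [map_mul, pow_one, hg, zero_mul]
    have hF1 : ∃ i, eval 0 (pderiv i (g ^ 1 * h)) ≠ 0 := by
      obtain ⟨i, hi⟩ := hg'
      refine ⟨i, ?_⟩
      rw [pow_one, Derivation.leibniz, map_add]
      simp only [smul_eq_mul, map_mul, hg, zero_mul, zero_add]
      exact mul_ne_zero hh hi
    refine ⟨xq ^ 2, ?_, ?_⟩
    · intro E _ Q hQ
      refine stmt_Q1.2.2.2.1 _ _ 0 fun m _ => ?_
      rcases Nat.eq_zero_or_pos m with rfl | hm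
      · rw [if_pos rfl]
      · rw [if_neg (by omega), vol_smooth P _ hF0 hF1 Q hQ hm, pow_add]
        ring
    · refine stmt_Q1.2.2.2.1 _ _ 0 fun m _ => ?_
      have hs : {z : (Empty → ℂ) × (Fin 2 → PowerSeries ℂ) |
          (∀ a, PowerSeries.coeff 0 (z.2 a) = 0) ∧
            ∀ l ≤ m, PowerSeries.coeff l (aeval z.2 (g ^ 1 * h)) = 0} =
          DN (g ^ 1 * h) (ZP (E := Empty) ({fun _ => 0} : Set (Fin 2 → ℂ))) (fun _ => 0) m := by
        ext z
        constructor
        · rintro ⟨h3, h4⟩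
          refine ⟨funext h3, fun l hl => ?_⟩
          rw [map_zero]
          exact h4 _ (by omega)
        · rintro ⟨h3, h4⟩
          have h3' : (fun a => PowerSeries.coeff 0 (z.2 a)) = (0 : Fin 2 → ℂ) := h3
          refine ⟨fun a => congrFun h3 a, fun l hl => ?_⟩
          rcases Nat.eq_zero_or_pos l with rfl | hl'
          · rw [coeff_zero', h3']; exact hF0
          · have := h4 (l - 1) (by omega)
            rwa [Nat.sub_add_cancel hl', map_zero] at this
      rw [hs, vol_tail P _ hF1 m, pow_add]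
      ring
  · have hF : g ^ e * h = C 0 + g ^ e * h := by rw [map_zero, zero_add]
    have hZ : ∀ x ∈ ({fun _ => 0} : Set (Fin 2 → ℂ)), eval x g = 0 ∧ eval x h ≠ 0 ∧
        ∃ i, eval x (pderiv i g) ≠ 0 := by
      intro x hx
      rw [Set.mem_singleton_iff] at hx
      rw [hx]
      exact ⟨hg, hh, hg'⟩
    have hz : ∀ x ∈ ({fun _ => 0} : Set (Fin 2 → ℂ)), eval x (g ^ e * h) = 0 := by
      intro x hx
      rw [map_mul, map_pow, (hZ x hx).1, zero_pow (by omega), zero_mul]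
    have hΛ : (1 / (e : ℚ)) ∈ {r : ℚ | 2 ≤ e ∧ r = 1 / (e : ℚ)} := ⟨h2, rfl⟩
    refine ⟨0, ?_, ?_⟩
    · intro E _ Q hQ
      have hQ' : QOk Set.univ true (QZ Q) :=
        ⟨con_QZ hQ.1, fun w hw => ⟨trivial, fun _ => hQ.2 _ hw.2⟩⟩
      set c : K := xq ^ 2 * P.rat.val (RM h 0 e {fun _ => 0} (QZ Q)) with hc
      have h3 := stmt_Q1.2.1 _ _ _ (TC5Aux.eseq_hpow _ e (by omega) hΛ c)
        (stmt_Q1.2.2.2.1 {r : ℚ | 2 ≤ e ∧ r = 1 / (e : ℚ)} (fun m => if m = 0 then -c else 0) 1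
          (fun m hm => if_neg (by omega)))
      refine cast ?_ h3
      congr 1
      funext m
      rcases Nat.eq_zero_or_pos m with rfl | hm
      · simp
      · rw [if_neg (by omega : ¬ m = 0), if_neg (by omega : ¬ m = 0), zero_mul, zero_mul, sub_zero,
          add_zero, ZL_eq _ _ hz Q hm]
        by_cases hd : e ∣ m
        · obtain ⟨l, rfl⟩ := hd
          have hl : 1 ≤ l := by
            rcases Nat.eq_zero_or_pos l with rfl | h
            · omega
            · exact h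
          rw [vol_MU P h2 hF conZ hZ hQ' hl, if_pos (Dvd.intro l rfl),
            Nat.mul_div_cancel_left _ (by omega), Fintype.card_fin, pow_add, hc]
          ring
        · rw [vol_MU0 P h2 hF hZ hQ' hm hd, if_neg hd]
    · have h3 := TC5Aux.eseq_hfloor _ e (by omega) hΛ (xq ^ 2)
      refine cast ?_ h3
      congr 1
      funext m
      rw [tail_set _ g h e h2 hF hg hh m, vol_tail P g hg' (m / e), pow_add, zero_mul, sub_zero]

end Pool.Agent.Mono.C9
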