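import Pool.Agent.Work.Monodromy9.N2Lib
import Pool.Agent.Work.Monodromy8.MAIN8

/-! MONODROMY, phase 9, block SPC9: special points (helper60). -/

set_option autoImplicit false

namespace Pool.Agent.Mono.C9

open MvPolynomial TS RO SP PC

namespace SPC9Aux

open N2Lib

theorem e0_sub2 (G : P2) (ψ : N2) (hψ : xx ∣ ψ - yy) : e0 (sub2 G ψ) = eval 0 G := by
  have h0 : e0 ψ = 0 := by
    obtain ⟨c, hc⟩ := hψ
    have h1 : ψ = xx * c + yy := by rw [← hc]; ring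
    rw [h1, map_add, map_mul, e0_xx, e0_yy, zero_mul, add_zero]
  unfold sub2
  induction G using MvPolynomial.induction_on with
  | C c => rw [algHom_C, eval_C, e0_algebraMap]
  | add g h hg hh => rw [map_add, map_add, map_add, hg, hh]
  | mul_X g b hg =>
    rw [map_mul, map_mul, map_mul, hg, aeval_X, eval_X]
    fin_cases b
    · simp
    · simp [h0]

/-- the germ vanishes at the origin -/
theorem eval_zero (g : N2) (hg : e0 g = 0) (n : ℕ) (G : ℕ → P2) (h : PGerm g n G) :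
    eval 0 (∏ j ∈ Finset.Icc 1 n, G j) = 0 := by
  obtain ⟨ψ, U, h1, h2, h3⟩ := h.eq 1
  obtain ⟨c, hc⟩ := h3
  have h4 := congrArg e0 hc
  rw [map_sub, map_mul, map_mul, e0_sub2 _ _ h1, h2, hg, pow_one, e0_xx, zero_mul, one_mul,
    zero_sub, neg_eq_zero, map_prod] at h4
  obtain ⟨j, hj, h5⟩ := Finset.prod_eq_zero_iff.1 h4
  rw [map_pow] at h5
  rw [map_prod]
  exact Finset.prod_eq_zero hj (pow_eq_zero_iff (Nat.one_le_iff_ne_zero.1 (Finset.mem_Icc.1 hj).1) |>.1 h5)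

end SPC9Aux

open SPC9Aux in
/-- **SPC9** -/
theorem stmt_SPC9 (hCHI : Stmt_CHI9) (hLAM : Stmt_LAM9) (hPL : Stmt_PL9) (hCT : Stmt_CT9)
    (hCTV : Stmt_CTV9) (hTRL : Stmt_TRL9) (hSGI : Stmt_SGI9) (hPTT : Stmt_PTT9)
    (hPTQ : Stmt_PTQ9) (hCTW : Stmt_CTW9) (hW5F : Stmt_W5F9) (hDMF : Stmt_DMF9) :
    Stmt_SPC9 := by
  intro ι _ _ f Z p htd hp hZ hdt hL
  obtain ⟨u, v, huv, hZuv⟩ := Finset.card_eq_two.1 hZ
  have hz : ∀ z ∈ Z, eval p (pderiv z f) = 0 := fun z _ => hp.2 z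
  obtain ⟨lam, hlam⟩ := hLAM ι f Z p u v huv hZuv hz hdt hL
  obtain ⟨ρ, hρ⟩ := hCHI ι f Z p u v huv hZuv hz hdt lam
  obtain ⟨n, G, hG⟩ := hPL (ρ f) (hlam ρ hρ)
  have hCtt := hCT ι f Z p u v huv hZuv hz hdt lam ρ hρ n G hG
  have h0 := eval_zero (ρ f) (by rw [hρ.h0]; exact hp.1) n G hG
  have hEx : Ex9 n G ⊆ Set.Ioi 0 := fun r hr => hr.1
  have hΛ : {r : ℚ | r - (Z.card : ℚ) / 2 ∈ Ex9 n G} ⊆ {1} ∪ EV f := by
    rintro r ⟨hr0, hr⟩
    refine Or.inr ?_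
    rcases hr with hr | ⟨j, hj, h2j, hnu, hr⟩
    · obtain ⟨β, z, hβ, hβz, hPtW⟩ := hPTT _ _ hr
      have h1 := hPTQ _ _ hPtW ι Z u v huv hZuv
      have h2 := hCTW ι f p _ hCtt _ h1
      have hc : ((β : ℂ) - (Z.card : ℂ) / 2) = ((β - (Z.card : ℚ) / 2 : ℚ) : ℂ) := by
        push_cast
        ring
      have hZ0 : (0 : ℚ) ≤ (Z.card : ℚ) := Nat.cast_nonneg _
      have hne : ∀ n : ℕ, ((β : ℂ) - (Z.card : ℂ) / 2) ≠ n := by
        intro n h
        rw [hc] at h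
        have h3 : β - (Z.card : ℚ) / 2 = (n : ℚ) := by exact_mod_cast h
        have : (0 : ℚ) ≤ (n : ℚ) := Nat.cast_nonneg _
        linarith
      refine ⟨by linarith, (β : ℂ) - (Z.card : ℂ) / 2, fun b hb => hW5F ι f _ hne h2 b hb, ?_⟩
      have h3 : (β : ℂ) - (Z.card : ℂ) / 2 = -(r : ℂ) + z := by
        rw [hβz]
        push_cast
        ring
      rw [h3, mul_add, Complex.exp_add]
      have h4 : Complex.exp (2 * Real.pi * Complex.I * (z : ℂ)) = 1 := by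
        rw [Complex.exp_eq_one_iff]
        exact ⟨z, by ring⟩
      rw [h4, mul_one]
    · obtain ⟨W, g', hW, h1, h2, h3, h4⟩ := hG.mul j hj h2j hnu
      have h5 := hDMF ι f Z p u v htd huv hZuv hz hdt lam ρ hρ W g' j h2j hW h1 h2 h3 h4
      have h6 : r = (Z.card : ℚ) / 2 + 1 / (j : ℚ) := by linarith
      rw [h6]
      exact h5
  intro P E _ Q hQ
  obtain ⟨α, hα, -⟩ := hSGI P _ _ hEx (hTRL P n G hG.sq h0) ι Z u v huv hZuv
  have h1 := stmt_Q1.1 _ _ _ hΛ (hα E Q hQ)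
  have h2 : ESeq ({1} ∪ EV f) fun m => (α * P.rat.val Q) * xq ^ m :=
    SQV8Aux.eseq_one (Or.inl rfl) _
  have h3 : ESeq ({1} ∪ EV f) fun m => if m = 0 then
      vol P.rat xq (ZL (GG Z u v (∏ j ∈ Finset.Icc 1 n, G j ^ j)) {fun _ => 0} Q m) -
        (α * P.rat.val Q) else 0 :=
    stmt_Q1.2.2.2.1 _ _ 1 (fun m hm => if_neg (by omega))
  have h4 := stmt_Q1.2.1 _ _ _ (stmt_Q1.2.1 _ _ _ h1 h2) h3
  have h5 : (fun m => vol P.rat xq (ZL f {p} Q m)) = fun m =>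
      ((if m = 0 then 0 else
        vol P.rat xq (ZL (GG Z u v (∏ j ∈ Finset.Icc 1 n, G j ^ j)) {fun _ => 0} Q m) -
          α * xq ^ m * P.rat.val Q) + α * P.rat.val Q * xq ^ m) + if m = 0 then
      vol P.rat xq (ZL (GG Z u v (∏ j ∈ Finset.Icc 1 n, G j ^ j)) {fun _ => 0} Q m) -
        (α * P.rat.val Q) else 0 := by
    funext m
    rw [hCTV ι f p _ hCtt P E Q hQ m]
    by_cases hm : m = 0
    · rw [if_pos hm, if_pos hm, hm, pow_zero]
      ring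
    · rw [if_neg hm, if_neg hm]
      ring
  rw [h5]
  exact h4

end Pool.Agent.Mono.C9
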