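import Pool.Agent.Work.Monodromy.Interface9

/-!
# Monodromy, phase 9, block STR9: the two structures (helper49)
-/

set_option autoImplicit false

namespace Pool.Agent.Mono.C9

open MvPolynomial TS RO SP PC

namespace STR9Aux

variable {ι : Type}

/-- partial derivatives commute -/
lemma pd_comm' (i j : ι) (g : MvPolynomial ι ℂ) :
    pderiv i (pderiv j g) = pderiv j (pderiv i g) := by
  classical
  have h : ⁅(pderiv i : Derivation ℂ (MvPolynomial ι ℂ) (MvPolynomial ι ℂ)),
      (pderiv j : Derivation ℂ (MvPolynomial ι ℂ) (MvPolynomial ι ℂ))⁆ = 0 := by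
    apply MvPolynomial.derivation_ext
    intro l
    rw [Derivation.commutator_apply]
    simp [pderiv_X, Pi.single_apply]
    split_ifs <;> simp
  have h1 := DFunLike.congr_fun h g
  rw [Derivation.commutator_apply, Derivation.zero_apply, sub_eq_zero] at h1
  exact h1

lemma mem_mI (q : ι → ℂ) (g : MvPolynomial ι ℂ) : g ∈ mI q ↔ eval q g = 0 := by
  rw [mI, RingHom.mem_ker]

lemma pderiv_pow (q : ι → ℂ) (a : ι) : ∀ (k : ℕ) {g : MvPolynomial ι ℂ}, g ∈ mI q ^ (k + 1) →
    pderiv a g ∈ mI q ^ k := by
  intro k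
  induction k with
  | zero => intro g _; simp
  | succ k ih =>
    intro g hg
    rw [pow_succ] at hg
    refine Submodule.mul_induction_on hg ?_ ?_
    · intro u hu v hv
      rw [Derivation.leibniz, smul_eq_mul, smul_eq_mul]
      refine Ideal.add_mem _ (Ideal.mul_mem_right _ _ hu) ?_
      rw [pow_succ', ]
      exact Ideal.mul_mem_mul hv (ih hu)
    · intro x y hx hy
      rw [map_add]
      exact Ideal.add_mem _ hx hy

lemma second (q : ι → ℂ) (a b : ι) {g : MvPolynomial ι ℂ} (hg : g ∈ mI q ^ 3) :
    eval q (pderiv a (pderiv b g)) = 0 := by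
  have := pderiv_pow q a 1 (pderiv_pow q b 2 hg)
  rw [pow_one, mem_mI] at this
  exact this

lemma second_mul (q : ι → ℂ) (a b : ι) (c u v : MvPolynomial ι ℂ) (hu : eval q u = 0)
    (hv : eval q v = 0) : eval q (pderiv a (pderiv b (c * (u * v)))) =
      eval q c * (eval q (pderiv a u) * eval q (pderiv b v) +
        eval q (pderiv b u) * eval q (pderiv a v)) := by
  simp only [Derivation.leibniz, smul_eq_mul, map_add, map_mul, hu, hv]
  ring

lemma zi_mem (f : MvPolynomial ι ℂ) (Z : Finset ι) {g : MvPolynomial ι ℂ} (hg : g ∈ Zi f Z) :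
    ∃ c : ι → MvPolynomial ι ℂ, g = ∑ z ∈ Z, c z * pderiv z f := by
  classical
  rw [Zi] at hg
  induction hg using Submodule.span_induction with
  | mem x hx =>
    obtain ⟨a, ha, rfl⟩ := hx
    refine ⟨fun z => if z = a then 1 else 0, ?_⟩
    rw [Finset.sum_eq_single a]
    · simp
    · intro b _ hb
      simp [hb]
    · intro h
      exact absurd ha h
  | zero => exact ⟨0, by simp⟩
  | add x y _ _ hx hy =>
    obtain ⟨c, rfl⟩ := hx
    obtain ⟨d, rfl⟩ := hy
    refine ⟨fun z => c z + d z, ?_⟩
    rw [← Finset.sum_add_distrib]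
    exact Finset.sum_congr rfl fun z _ => by ring
  | smul r x _ hx =>
    obtain ⟨c, rfl⟩ := hx
    refine ⟨fun z => r * c z, ?_⟩
    rw [smul_eq_mul, Finset.mul_sum]
    exact Finset.sum_congr rfl fun z _ => by ring

lemma zi_sq (f : MvPolynomial ι ℂ) (Z : Finset ι) {g : MvPolynomial ι ℂ} (hg : g ∈ Zi f Z ^ 2) :
    ∃ c : ι → ι → MvPolynomial ι ℂ,
      g = ∑ z ∈ Z, ∑ z' ∈ Z, c z z' * (pderiv z f * pderiv z' f) := by
  rw [pow_two] at hg
  refine Submodule.mul_induction_on hg ?_ ?_
  · intro u hu v hv
    obtain ⟨c, rfl⟩ := zi_mem f Z hu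
    obtain ⟨d, rfl⟩ := zi_mem f Z hv
    refine ⟨fun z z' => c z * d z', ?_⟩
    rw [Finset.sum_mul_sum]
    exact Finset.sum_congr rfl fun z _ => Finset.sum_congr rfl fun z' _ => by ring
  · rintro x y ⟨c, rfl⟩ ⟨d, rfl⟩
    refine ⟨fun z z' => c z z' + d z z', ?_⟩
    rw [← Finset.sum_add_distrib]
    refine Finset.sum_congr rfl fun z _ => ?_
    rw [← Finset.sum_add_distrib]
    exact Finset.sum_congr rfl fun z' _ => by ring

lemma zi_mul (f : MvPolynomial ι ℂ) (Z : Finset ι) (k : MvPolynomial ι ℂ) {g : MvPolynomial ι ℂ}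
    (hg : g ∈ Zi f Z * Ideal.span {k}) :
    ∃ d : ι → MvPolynomial ι ℂ, g = ∑ z ∈ Z, d z * (pderiv z f * k) := by
  refine Submodule.mul_induction_on hg ?_ ?_
  · intro u hu v hv
    obtain ⟨c, rfl⟩ := zi_mem f Z hu
    obtain ⟨r, rfl⟩ := Ideal.mem_span_singleton'.1 hv
    refine ⟨fun z => c z * r, ?_⟩
    rw [Finset.sum_mul]
    exact Finset.sum_congr rfl fun z _ => by ring
  · rintro x y ⟨c, rfl⟩ ⟨d, rfl⟩
    refine ⟨fun z => c z + d z, ?_⟩
    rw [← Finset.sum_add_distrib]
    exact Finset.sum_congr rfl fun z _ => by ring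

variable [DecidableEq ι]

lemma dt_eval (f : MvPolynomial ι ℂ) (Z : Finset ι) (q : ι → ℂ) :
    eval q (dt f Z) = (HZ f Z q).det := by
  rw [dt, RingHom.map_det]
  congr 1

/-- vectors killed by `H_ZZ` -/
lemma hz_ker (f : MvPolynomial ι ℂ) (Z : Finset ι) (q : ι → ℂ) (hd : eval q (dt f Z) ≠ 0)
    (v : ι → ℂ) (h : ∀ a ∈ Z, ∑ b ∈ Z, eval q (pderiv b (pderiv a f)) * v b = 0) :
    ∀ a ∈ Z, v a = 0 := by
  rw [dt_eval] at hd
  by_contra hne
  push Not at hne
  obtain ⟨a, ha, hva⟩ := hne
  apply hd
  rw [← Matrix.exists_mulVec_eq_zero_iff]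
  refine ⟨fun a => v a, ?_, ?_⟩
  · intro h0
    exact hva (congrFun h0 ⟨a, ha⟩)
  · ext a
    have := h a a.2
    rw [← Finset.sum_coe_sort Z] at this
    rw [Matrix.mulVec, dotProduct]
    simp only [Pi.zero_apply]
    rw [← this]
    refine Finset.sum_congr rfl fun b _ => ?_
    simp only [HZ, Hs, Matrix.submatrix_apply, Matrix.of_apply]
    rw [pd_comm']

/-- the form `c + c^T` is nondegenerate -/
lemma nondeg (f s : MvPolynomial ι ℂ) (Z : Finset ι) (q : ι → ℂ) (hc : q ∈ Crit0 f)
    (hd : eval q (dt f Z) ≠ 0) (hs : eval q s ≠ 0) (c : ι → ι → MvPolynomial ι ℂ)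
    (h : s * f - ∑ z ∈ Z, ∑ z' ∈ Z, c z z' * (pderiv z f * pderiv z' f) ∈ mI q ^ 3)
    (x : ι → ℂ) (hx : ∀ a ∈ Z, ∑ z ∈ Z, (eval q (c a z) + eval q (c z a)) * x z = 0) :
    ∀ a ∈ Z, x a = 0 := by
  -- the second derivatives
  have h2 : ∀ a ∈ Z, ∀ b ∈ Z, eval q s * eval q (pderiv a (pderiv b f)) =
      ∑ z ∈ Z, ∑ z' ∈ Z, (eval q (c z z') + eval q (c z' z)) *
        (eval q (pderiv a (pderiv z f)) * eval q (pderiv b (pderiv z' f))) := by
    intro a _ b _
    have h3 := second q a b h
    rw [map_sub, map_sub, map_sub, sub_eq_zero] at h3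
    have h4 : eval q (pderiv a (pderiv b (s * f))) =
        eval q s * eval q (pderiv a (pderiv b f)) := by
      simp only [Derivation.leibniz, smul_eq_mul, map_add, map_mul, hc.1, hc.2 a, hc.2 b]
      ring
    rw [h4] at h3
    rw [h3]
    simp only [map_sum]
    have h5 : ∀ z z', eval q (pderiv a (pderiv b (c z z' * (pderiv z f * pderiv z' f)))) =
        eval q (c z z') * (eval q (pderiv a (pderiv z f)) * eval q (pderiv b (pderiv z' f))) +
        eval q (c z z') * (eval q (pderiv a (pderiv z' f)) * eval q (pderiv b (pderiv z f))) := by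
      intro z z'
      rw [second_mul q a b _ _ _ (hc.2 z) (hc.2 z')]
      ring
    simp only [h5, add_mul, Finset.sum_add_distrib]
    congr 1
    exact Finset.sum_comm
  -- solve `H v = x`
  have hd' := hd
  rw [dt_eval] at hd'
  obtain ⟨v, hv⟩ : ∃ v : Z → ℂ, (HZ f Z q).mulVec v = fun a : Z => x a := by
    have hu : IsUnit (HZ f Z q).det := isUnit_iff_ne_zero.2 hd'
    refine ⟨(HZ f Z q)⁻¹.mulVec fun a : Z => x a, ?_⟩
    rw [Matrix.mulVec_mulVec, Matrix.mul_nonsing_inv _ hu, Matrix.one_mulVec]
  have hv' : ∀ a ∈ Z, ∑ b : Z, eval q (pderiv (b : ι) (pderiv a f)) * v b = x a := by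
    intro a ha
    have := congrFun hv ⟨a, ha⟩
    rw [Matrix.mulVec, dotProduct] at this
    simp only [HZ, Hs, Matrix.submatrix_apply, Matrix.of_apply] at this
    rw [← this]
    exact Finset.sum_congr rfl fun b _ => by rw [pd_comm']
  intro a ha
  have e : eval q s * x a = 0 := by
    rw [← hv' a ha, Finset.mul_sum]
    have e1 : ∀ b : Z, eval q s * (eval q (pderiv (b : ι) (pderiv a f)) * v b) =
        ∑ z ∈ Z, eval q (pderiv a (pderiv z f)) * ∑ z' ∈ Z,
          (eval q (c z z') + eval q (c z' z)) * (eval q (pderiv (b : ι) (pderiv z' f)) * v b) := by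
      intro b
      rw [pd_comm', ← mul_assoc, h2 a ha b b.2, Finset.sum_mul]
      refine Finset.sum_congr rfl fun z _ => ?_
      rw [Finset.sum_mul, Finset.mul_sum]
      exact Finset.sum_congr rfl fun z' _ => by ring
    rw [Finset.sum_congr rfl fun b _ => e1 b, Finset.sum_comm]
    refine Finset.sum_eq_zero fun z hz => ?_
    rw [← Finset.mul_sum, Finset.sum_comm]
    have e2 : ∑ z' ∈ Z, ∑ b : Z, (eval q (c z z') + eval q (c z' z)) *
        (eval q (pderiv (b : ι) (pderiv z' f)) * v b) =
        ∑ z' ∈ Z, (eval q (c z z') + eval q (c z' z)) * x z' := by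
      refine Finset.sum_congr rfl fun z' hz' => ?_
      rw [← Finset.mul_sum, hv' z' hz']
    rw [e2, hx z hz, mul_zero]
  exact (mul_eq_zero.1 e).resolve_left hs

/-- derivatives of the quadratic form -/
lemma quad_deriv (Z : Finset ι) (c : ι → ι → ℂ) (x : ι → ℂ) (a : ι) (ha : a ∈ Z) :
    eval x (pderiv a (∑ z ∈ Z, ∑ z' ∈ Z, C (c z z') * (X z * X z'))) =
      ∑ z ∈ Z, (c a z + c z a) * x z := by
  simp only [map_sum]
  have h : ∀ z z', eval x (pderiv a (C (c z z') * (X z * X z') : MvPolynomial ι ℂ)) =
      (if z = a then c z z' * x z' else 0) + (if z' = a then c z z' * x z else 0) := by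
    intro z z'
    rw [← smul_eq_C_mul, Derivation.map_smul, smul_eval, Derivation.leibniz, smul_eq_mul,
      smul_eq_mul, map_add, map_mul, map_mul, eval_X, eval_X]
    by_cases h1 : z = a
    · by_cases h2 : z' = a
      · subst h1
        subst h2
        simp
        ring
      · subst h1
        simp [pderiv_X_of_ne (fun h => h2 h), h2]
    · by_cases h2 : z' = a
      · subst h2
        simp [pderiv_X_of_ne (fun h => h1 h), h1]
      · simp [pderiv_X_of_ne (fun h => h1 h), pderiv_X_of_ne (fun h => h2 h), h1, h2]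
  simp only [h, Finset.sum_add_distrib, add_mul]
  congr 1
  · rw [Finset.sum_comm]
    refine Finset.sum_congr rfl fun z' _ => ?_
    rw [Finset.sum_ite_eq' Z a]
    simp [ha]
  · refine Finset.sum_congr rfl fun z _ => ?_
    rw [Finset.sum_ite_eq' Z a]
    simp [ha]

lemma supp_quad {R : Type} [CommRing R] (P : (ι →₀ ℕ) → Prop) (Z : Finset ι) (c : ι → ι → R)
    (h : ∀ z ∈ Z, ∀ z' ∈ Z, P (Finsupp.single z 1 + Finsupp.single z' 1)) :
    ∀ d ∈ (∑ z ∈ Z, ∑ z' ∈ Z, C (c z z') * (X z * X z') : MvPolynomial ι R).support, P d := by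
  intro d hd
  rw [mem_support_iff, coeff_sum] at hd
  obtain ⟨z, hz, hd⟩ := Finset.exists_ne_zero_of_sum_ne_zero hd
  rw [coeff_sum] at hd
  obtain ⟨z', hz', hd⟩ := Finset.exists_ne_zero_of_sum_ne_zero hd
  have e : (C (c z z') * (X z * X z') : MvPolynomial ι R) =
      monomial (Finsupp.single z 1 + Finsupp.single z' 1) (c z z') := by
    rw [X, X, monomial_mul, C_mul_monomial]
    simp
  rw [e, coeff_monomial] at hd
  split_ifs at hd with he
  · rw [← he]
    exact h z hz z' hz'
  · exact absurd rfl hd

lemma supp_add {R : Type} [CommRing R] (P : (ι →₀ ℕ) → Prop) (F G : MvPolynomial ι R)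
    (hF : ∀ d ∈ F.support, P d) (hG : ∀ d ∈ G.support, P d) : ∀ d ∈ (F + G).support, P d := by
  intro d hd
  rcases Finset.mem_union.1 (support_add hd) with h | h
  · exact hF d h
  · exact hG d h

lemma supp_lin {R : Type} [CommRing R] (P : (ι →₀ ℕ) → Prop) (Z : Finset ι) (b : ι) (k : ℕ)
    (c : ι → R) (h : ∀ z ∈ Z, P (Finsupp.single z 1 + Finsupp.single b k)) :
    ∀ d ∈ (∑ z ∈ Z, C (c z) * (X z * X b ^ k) : MvPolynomial ι R).support, P d := by
  intro d hd
  rw [mem_support_iff, coeff_sum] at hd
  obtain ⟨z, hz, hd⟩ := Finset.exists_ne_zero_of_sum_ne_zero hd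
  have e : (C (c z) * (X z * X b ^ k) : MvPolynomial ι R) =
      monomial (Finsupp.single z 1 + Finsupp.single b k) (c z) := by
    rw [X_pow_eq_monomial, X, monomial_mul, C_mul_monomial]
    simp
  rw [e, coeff_monomial] at hd
  split_ifs at hd with he
  · rw [← he]
    exact h z hz
  · exact absurd rfl hd

lemma supp_pow {R : Type} [CommRing R] (P : (ι →₀ ℕ) → Prop) (b : ι) (k : ℕ)
    (c : R) (h : P (Finsupp.single b k)) :
    ∀ d ∈ (C c * X b ^ k : MvPolynomial ι R).support, P d := by
  intro d hd
  have e : (C c * X b ^ k : MvPolynomial ι R) = monomial (Finsupp.single b k) c := by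
    rw [X_pow_eq_monomial, C_mul_monomial]
    simp
  rw [e, mem_support_iff, coeff_monomial] at hd
  split_ifs at hd with he
  · rw [← he]
    exact h
  · exact absurd rfl hd

/-- the derivation `δ_b` on the kernel -/
lemma dl_ker [Fintype ι] (f : MvPolynomial ι ℂ) (Z : Finset ι) (q : ι → ℂ) (b : ι) (hb : b ∉ Z)
    (h : MvPolynomial ι ℂ) (v : ι → ℂ) (hv : ∀ a, a ∉ insert b Z → v a = 0)
    (h1 : ∀ a ∈ Z, ∑ c, eval q (pderiv c (pderiv a f)) * v c = 0)
    (h2 : ∑ c, eval q (pderiv c h) * v c = 0) : v b * eval q (dl f Z b h) = 0 := by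
  set M : Matrix Z Z ℂ := (HM f Z).map (eval q) with hM
  have hadj : ∀ a a' : Z, eval q ((HM f Z).adjugate a a') = M.adjugate a a' := by
    intro a a'
    have := congrFun (congrFun (RingHom.map_adjugate (eval q) (HM f Z)) a) a'
    simpa using this
  have hdet : eval q (dt f Z) = M.det := by
    rw [dt, RingHom.map_det]
    rfl
  have hsum : ∀ g : ι → ℂ, ∑ c, g c * v c = g b * v b + ∑ c : Z, g c * v c := by
    intro g
    rw [Finset.sum_coe_sort Z (fun c => g c * v c),
      ← Finset.sum_insert (f := fun c => g c * v c) hb]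
    refine (Finset.sum_subset (Finset.subset_univ _) fun c _ hc => ?_).symm
    rw [hv c hc, mul_zero]
  have h3 : M.mulVec (fun c : Z => v c) = fun a : Z => -(v b * eval q (pderiv (a : ι) (pderiv b f))) := by
    ext a
    have := h1 a a.2
    rw [hsum] at this
    rw [Matrix.mulVec, dotProduct]
    have e : ∑ c : Z, M a c * v c = ∑ c : Z, eval q (pderiv (c : ι) (pderiv (a : ι) f)) * v c := by
      refine Finset.sum_congr rfl fun c _ => ?_
      rw [hM, Matrix.map_apply, HM, Matrix.of_apply, pd_comm']
    rw [e, pd_comm' (a : ι) b]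
    linear_combination this
  have h4 : ∀ a : Z, M.det * v a = -(v b * ∑ a' : Z, M.adjugate a a' *
      eval q (pderiv (a' : ι) (pderiv b f))) := by
    intro a
    have e := congrArg (fun u => M.adjugate.mulVec u) h3
    simp only [Matrix.mulVec_mulVec, Matrix.adjugate_mul] at e
    have e1 := congrFun e a
    rw [Matrix.smul_mulVec, Matrix.one_mulVec] at e1
    simp only [Pi.smul_apply, smul_eq_mul] at e1
    rw [e1, Matrix.mulVec, dotProduct, Finset.mul_sum, ← Finset.sum_neg_distrib]
    exact Finset.sum_congr rfl fun a' _ => by ring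
  have h5 : eval q (dl f Z b h) = M.det * eval q (pderiv b h) -
      ∑ a : Z, (∑ a' : Z, M.adjugate a a' * eval q (pderiv (a' : ι) (pderiv b f))) *
        eval q (pderiv (a : ι) h) := by
    rw [dl, Derivation.sub_apply, Derivation.smul_apply]
    have e : (∑ a : Z, (∑ a' : Z, (HM f Z).adjugate a a' * pderiv (a' : ι) (pderiv b f)) •
      (pderiv (a : ι) : Derivation ℂ (MvPolynomial ι ℂ) (MvPolynomial ι ℂ))) h =
        ∑ a : Z, (∑ a' : Z, (HM f Z).adjugate a a' * pderiv (a' : ι) (pderiv b f)) *
          pderiv (a : ι) h := by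
      rw [← Derivation.coeFnAddMonoidHom_apply, map_sum, Finset.sum_apply]
      rfl
    rw [e, map_sub, smul_eq_mul, map_mul, hdet, map_sum]
    congr 1
    refine Finset.sum_congr rfl fun a _ => ?_
    rw [map_mul, map_sum]
    congr 1
    refine Finset.sum_congr rfl fun a' _ => ?_
    rw [map_mul, hadj]
  rw [hsum] at h2
  rw [h5, mul_sub, Finset.mul_sum]
  have e : ∑ a : Z, v b * ((∑ a' : Z, M.adjugate a a' * eval q (pderiv (a' : ι) (pderiv b f))) *
        eval q (pderiv (a : ι) h)) = -(M.det * ∑ c : Z, eval q (pderiv (c : ι) h) * v c) := by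
    rw [Finset.mul_sum, ← Finset.sum_neg_distrib]
    refine Finset.sum_congr rfl fun a _ => ?_
    have := h4 a
    linear_combination (eval q (pderiv (a : ι) h)) * this
  rw [e]
  linear_combination M.det * h2

lemma ini_TH (Z : Finset ι) (b : ι) (hbz : b ∉ Z) (q : ι → ℂ) (e : ℕ) (he : 3 ≤ e)
    (c : ι → ι → MvPolynomial ι ℂ) (d : ι → MvPolynomial ι ℂ) (w : MvPolynomial ι ℂ) :
    ini (fun a => if a ∈ Z then e else if a = b then 2 else 0) (2 * e)
          (map (eval q) (∑ z ∈ Z, ∑ z' ∈ Z, C (c z z') * (X z * X z') +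
          ∑ z ∈ Z, C (d z) * (X z * X b ^ (e - 1)) + C w * X b ^ e :
            MvPolynomial ι (MvPolynomial ι ℂ))) =
          ∑ z ∈ Z, ∑ z' ∈ Z, C (eval q (c z z')) * (X z * X z') + C (eval q w) * X b ^ e := by
    rw [ini]
    simp only [map_sum, map_add, map_mul, map_pow, map_C, map_X]
    have hX : ∀ z ∈ Z, IsWeightedHomogeneous (fun a => if a ∈ Z then e else if a = b then 2
        else 0) (X z : MvPolynomial ι ℂ) e := by
      intro z hz
      have := isWeightedHomogeneous_X ℂ (fun a => if a ∈ Z then e else if a = b then 2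
        else 0) z
      simpa [hz] using this
    have hB : ∀ k : ℕ, IsWeightedHomogeneous (fun a => if a ∈ Z then e else if a = b then 2
        else 0) (X b ^ k : MvPolynomial ι ℂ) (k * 2) := by
      intro k
      have := (isWeightedHomogeneous_X ℂ (fun a => if a ∈ Z then e else if a = b then 2
        else 0) b).pow k
      simpa [hbz] using this
    have t1 : ∑ z ∈ Z, ∑ z' ∈ Z, weightedHomogeneousComponent (fun a => if a ∈ Z then e
        else if a = b then 2 else 0) (2 * e) (C (eval q (c z z')) * (X z * X z')) =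
        ∑ z ∈ Z, ∑ z' ∈ Z, (C (eval q (c z z')) * (X z * X z') : MvPolynomial ι ℂ) := by
      refine Finset.sum_congr rfl fun z hz => Finset.sum_congr rfl fun z' hz' => ?_
      apply IsWeightedHomogeneous.weightedHomogeneousComponent_same
      have h3 := ((hX z hz).mul (hX z' hz')).C_mul (eval q (c z z'))
      rwa [← two_mul] at h3
    have t2 : ∑ z ∈ Z, weightedHomogeneousComponent (fun a => if a ∈ Z then e
        else if a = b then 2 else 0) (2 * e) (C (eval q (d z)) * (X z * X b ^ (e - 1)) :
          MvPolynomial ι ℂ) = 0 := by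
      refine Finset.sum_eq_zero fun z hz => ?_
      have h3 := ((hX z hz).mul (hB (e - 1))).C_mul (eval q (d z))
      apply h3.weightedHomogeneousComponent_ne
      omega
    have t3 : weightedHomogeneousComponent (fun a => if a ∈ Z then e
        else if a = b then 2 else 0) (2 * e) (C (eval q w) * X b ^ e :
          MvPolynomial ι ℂ) = C (eval q w) * X b ^ e := by
      apply IsWeightedHomogeneous.weightedHomogeneousComponent_same
      have h3 := (hB e).C_mul (eval q w)
      rwa [mul_comm e 2] at h3
    rw [t1, t2, t3, add_zero]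

end STR9Aux

open STR9Aux in
theorem stmt_STR9 : Stmt_STR9 := by
  intro ι _ _ f S Z s
  refine ⟨?_, ?_⟩
  · intro h
    obtain ⟨c, hc⟩ := zi_sq f Z h.eq
    refine ⟨fun a => if a ∈ Z then pderiv a f else X a,
      ∑ z ∈ Z, ∑ z' ∈ Z, C (c z z') * (X z * X z'), ?_⟩
    refine ⟨?_, ?_, by norm_num, ?_, ?_, ?_, h.s0, ?_, ?_, ?_⟩
    · intro a ha
      simp [ha]
    · intro a ha
      simp [ha]
    · intro a ha
      simp [ha]
    · intro q hq a ha
      simp only [ha, if_true]
      exact (h.crit q hq).2 a
    · intro q hq h0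
      rw [← Matrix.exists_mulVec_eq_zero_iff] at h0
      obtain ⟨v, hv, hv0⟩ := h0
      have h1 : ∀ a, a ∉ Z → v a = 0 := by
        intro a ha
        have := congrFun hv0 a
        rw [Matrix.mulVec, dotProduct] at this
        simp only [Matrix.of_apply, ha, if_false, pderiv_X, Pi.zero_apply] at this
        rw [Finset.sum_eq_single a] at this
        · simpa using this
        · intro b _ hb
          simp [Pi.single_apply, hb, Ne.symm hb]
        · intro h
          exact absurd (Finset.mem_univ a) h
      have h2 := hz_ker f Z q (h.det q hq) v (by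
        intro a ha
        have := congrFun hv0 a
        rw [Matrix.mulVec, dotProduct] at this
        simp only [Matrix.of_apply, ha, if_true, Pi.zero_apply] at this
        rw [← this]
        refine Finset.sum_subset (Finset.subset_univ _) fun b _ hb => ?_
        rw [h1 b hb, mul_zero])
      apply hv
      ext a
      by_cases ha : a ∈ Z
      · exact h2 a ha
      · exact h1 a ha
    · apply supp_quad
      intro z hz z' hz'
      refine ⟨?_, ?_⟩
      · intro a ha
        have h1 : z ≠ a := fun h => ha (h ▸ hz)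
        have h2 : z' ≠ a := fun h => ha (h ▸ hz')
        simp [Finsupp.single_apply, h1, h2]
      · rw [map_add]
        simp [Finsupp.weight_apply, hz, hz']
    · rw [hc]
      simp only [map_sum, map_mul, eval_C, eval_X]
      refine Finset.sum_congr rfl fun z hz => Finset.sum_congr rfl fun z' hz' => ?_
      simp [hz, hz']
    · intro q hq x hx hx2
      have e : ini (fun a => if a ∈ Z then 1 else 0) 2 (map (eval q)
          (∑ z ∈ Z, ∑ z' ∈ Z, C (c z z') * (X z * X z') : MvPolynomial ι (MvPolynomial ι ℂ))) =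
          ∑ z ∈ Z, ∑ z' ∈ Z, C (eval q (c z z')) * (X z * X z') := by
        rw [ini]
        simp only [map_sum, map_mul, map_C, map_X]
        refine Finset.sum_congr rfl fun z hz => Finset.sum_congr rfl fun z' hz' => ?_
        apply IsWeightedHomogeneous.weightedHomogeneousComponent_same
        have h1 := isWeightedHomogeneous_X ℂ (fun a => if a ∈ Z then 1 else 0) z
        have h2 := isWeightedHomogeneous_X ℂ (fun a => if a ∈ Z then 1 else 0) z'
        have h3 := (h1.mul h2).C_mul (eval q (c z z'))
        simpa [hz, hz'] using h3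
      rw [e] at hx2
      have h3 := nondeg f s Z q (h.crit q hq) (h.det q hq) (h.s0 q hq) c (by
        rw [hc, sub_self]; exact Ideal.zero_mem _) x (by
          intro a ha
          rw [← quad_deriv Z (fun z z' => eval q (c z z')) x a ha]
          exact hx2 a ha)
      ext a
      by_cases ha : a ∈ Z
      · exact h3 a ha
      · exact hx a ha
  · intro b h w e H
    obtain ⟨g1, hg1, g2, hg2, hg⟩ := Submodule.mem_sup.1 H.eq
    obtain ⟨c, hc⟩ := zi_sq f Z hg1
    obtain ⟨d, hd⟩ := zi_mul f Z _ hg2
    have he := H.he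
    have hbz := H.hb
    refine ⟨fun a => if a ∈ Z then pderiv a f else if a = b then h else X a,
      ∑ z ∈ Z, ∑ z' ∈ Z, C (c z z') * (X z * X z') +
        ∑ z ∈ Z, C (d z) * (X z * X b ^ (e - 1)) + C w * X b ^ e, ?_⟩
    refine ⟨?_, ?_, by omega, ?_, ?_, ?_, H.s0, ?_, ?_, ?_⟩
    · intro a ha
      rcases Finset.mem_insert.1 ha with rfl | ha
      · simp [hbz]
      · simp only [ha, if_true]
        omega
    · intro a ha
      rw [Finset.mem_insert, not_or] at ha
      simp [ha.1, ha.2]
    · intro a ha
      rw [Finset.mem_insert, not_or] at ha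
      simp [ha.1, ha.2]
    · intro q hq a ha
      rcases Finset.mem_insert.1 ha with rfl | ha
      · simp only [hbz, if_false, if_true]
        exact H.h0 q hq
      · simp only [ha, if_true]
        exact (H.crit q hq).2 a
    · intro q hq h0
      rw [← Matrix.exists_mulVec_eq_zero_iff] at h0
      obtain ⟨v, hv, hv0⟩ := h0
      have h1 : ∀ a, a ∉ insert b Z → v a = 0 := by
        intro a ha
        rw [Finset.mem_insert, not_or] at ha
        have := congrFun hv0 a
        rw [Matrix.mulVec, dotProduct] at this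
        simp only [Matrix.of_apply, ha.1, ha.2, if_false, pderiv_X, Pi.zero_apply] at this
        rw [Finset.sum_eq_single a] at this
        · simpa using this
        · intro b _ hb
          simp [Pi.single_apply, hb, Ne.symm hb]
        · intro h
          exact absurd (Finset.mem_univ a) h
      have h2 : ∀ a ∈ Z, ∑ c, eval q (pderiv c (pderiv a f)) * v c = 0 := by
        intro a ha
        have := congrFun hv0 a
        rw [Matrix.mulVec, dotProduct] at this
        simpa only [Matrix.of_apply, ha, if_true, Pi.zero_apply] using this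
      have h3 : ∑ c, eval q (pderiv c h) * v c = 0 := by
        have := congrFun hv0 b
        rw [Matrix.mulVec, dotProduct] at this
        simpa only [Matrix.of_apply, hbz, if_false, if_true, Pi.zero_apply] using this
      have h4 := dl_ker f Z q b hbz h v h1 h2 h3
      have h5 : v b = 0 := (mul_eq_zero.1 h4).resolve_right (H.h1 q hq)
      have h6 : ∀ a, a ∉ Z → v a = 0 := by
        intro a ha
        by_cases hab : a = b
        · rw [hab, h5]
        · exact h1 a (by rw [Finset.mem_insert, not_or]; exact ⟨hab, ha⟩)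
      have h7 := hz_ker f Z q (H.det q hq) v (by
        intro a ha
        rw [← h2 a ha]
        refine Finset.sum_subset (Finset.subset_univ _) fun b _ hb => ?_
        rw [h6 b hb, mul_zero])
      apply hv
      ext a
      by_cases ha : a ∈ Z
      · exact h7 a ha
      · exact h6 a ha
    · refine supp_add _ _ _ (supp_add _ _ _ (supp_quad _ _ _ ?_) (supp_lin _ _ _ _ _ ?_))
        (supp_pow _ _ _ _ ?_)
      · intro z hz z' hz'
        refine ⟨?_, ?_⟩
        · intro a ha
          rw [Finset.mem_insert, not_or] at ha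
          have h1 : z ≠ a := fun h => ha.2 (h ▸ hz)
          have h2 : z' ≠ a := fun h => ha.2 (h ▸ hz')
          simp [h1, h2]
        · rw [map_add]
          simp [Finsupp.weight_apply, hz, hz']
          omega
      · intro z hz
        refine ⟨?_, ?_⟩
        · intro a ha
          rw [Finset.mem_insert, not_or] at ha
          have h1 : z ≠ a := fun h => ha.2 (h ▸ hz)
          have h2 : b ≠ a := fun h => ha.1 h.symm
          simp [h1, h2]
        · rw [map_add, Finsupp.weight_apply, Finsupp.weight_apply,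
            Finsupp.sum_single_index (by simp), Finsupp.sum_single_index (by simp)]
          simp only [hz, hbz, if_false, if_true, smul_eq_mul]
          omega
      · refine ⟨?_, ?_⟩
        · intro a ha
          rw [Finset.mem_insert, not_or] at ha
          have h2 : b ≠ a := fun h => ha.1 h.symm
          simp [h2]
        · rw [Finsupp.weight_apply, Finsupp.sum_single_index (by simp)]
          simp only [hbz, if_false, if_true, smul_eq_mul]
          omega
    · have e0 : s * f = g1 + g2 + w * h ^ e := by rw [hg]; ring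
      rw [e0, hc, hd, map_add, map_add, map_mul, map_pow, eval_C, eval_X, map_sum, map_sum]
      have t1 : (∑ z ∈ Z, ∑ z' ∈ Z, c z z' * (pderiv z f * pderiv z' f)) =
          ∑ z ∈ Z, eval (fun a => if a ∈ Z then pderiv a f else if a = b then h else X a)
            (∑ z' ∈ Z, C (c z z') * (X z * X z')) := by
        refine Finset.sum_congr rfl fun z hz => ?_
        rw [map_sum]
        refine Finset.sum_congr rfl fun z' hz' => ?_
        rw [map_mul, map_mul, eval_C, eval_X, eval_X, if_pos hz, if_pos hz']
      have t2 : (∑ z ∈ Z, d z * (pderiv z f * h ^ (e - 1))) =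
          ∑ z ∈ Z, eval (fun a => if a ∈ Z then pderiv a f else if a = b then h else X a)
            (C (d z) * (X z * X b ^ (e - 1))) := by
        refine Finset.sum_congr rfl fun z hz => ?_
        rw [map_mul, map_mul, map_pow, eval_C, eval_X, eval_X, if_pos hz, if_neg hbz, if_pos rfl]
      rw [t1, t2, if_neg hbz, if_pos rfl]
    · intro q hq x hx hx2
      have e1 := ini_TH Z b hbz q e he c d w
      rw [e1] at hx2
      have hxb : x b = 0 := by
        have := hx2 b (Finset.mem_insert_self _ _)
        rw [map_add, map_add] at this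
        have t1 : eval x (pderiv b (∑ z ∈ Z, ∑ z' ∈ Z, C (eval q (c z z')) * (X z * X z') :
            MvPolynomial ι ℂ)) = 0 := by
          simp only [map_sum]
          refine Finset.sum_eq_zero fun z hz => Finset.sum_eq_zero fun z' hz' => ?_
          have h1 : z ≠ b := fun h => hbz (h ▸ hz)
          have h2 : z' ≠ b := fun h => hbz (h ▸ hz')
          simp [Derivation.leibniz, pderiv_X_of_ne h1, pderiv_X_of_ne h2]
        have t2 : eval x (pderiv b (C (eval q w) * X b ^ e : MvPolynomial ι ℂ)) =
            eval q w * (e * x b ^ (e - 1)) := by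
          simp [Derivation.leibniz, Derivation.leibniz_pow]
        rw [t1, t2, zero_add] at this
        have h1 := (mul_eq_zero.1 this).resolve_left (H.w0 q hq)
        have h2 := (mul_eq_zero.1 h1).resolve_left (by
          have : e ≠ 0 := by omega
          exact_mod_cast this)
        exact pow_eq_zero_iff (by omega) |>.1 h2
      have h3 := nondeg f s Z q (H.crit q hq) (H.det q hq) (H.s0 q hq) c (by
        have e0 : s * f - ∑ z ∈ Z, ∑ z' ∈ Z, c z z' * (pderiv z f * pderiv z' f) =
            g2 + w * h ^ e := by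
          rw [← hc]
          have : s * f = g1 + g2 + w * h ^ e := by rw [hg]; ring
          rw [this]
          ring
        have hh : h ∈ mI q := (mem_mI q h).2 (H.h0 q hq)
        have hp : ∀ k : ℕ, h ^ k ∈ mI q ^ k := fun k => Ideal.pow_mem_pow hh k
        rw [e0, hd]
        refine Ideal.add_mem _ (Ideal.sum_mem _ fun z hz => Ideal.mul_mem_left _ _ ?_)
          (Ideal.mul_mem_left _ _ (Ideal.pow_le_pow_right he (hp e)))
        have h4 : pderiv z f * h ^ (e - 1) ∈ mI q * mI q ^ (e - 1) :=
          Ideal.mul_mem_mul ((mem_mI q _).2 ((H.crit q hq).2 z)) (hp (e - 1))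
        rw [← pow_succ'] at h4
        exact Ideal.pow_le_pow_right (by omega) h4) x (by
          intro a ha
          rw [← quad_deriv Z (fun z z' => eval q (c z z')) x a ha]
          have := hx2 a (Finset.mem_insert_of_mem ha)
          rw [map_add, map_add] at this
          have hab : b ≠ a := fun h => hbz (h ▸ ha)
          have t2 : eval x (pderiv a (C (eval q w) * X b ^ e : MvPolynomial ι ℂ)) = 0 := by
            simp [Derivation.leibniz, Derivation.leibniz_pow, pderiv_X_of_ne hab]
          rw [t2, add_zero] at this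
          exact this)
      ext a
      by_cases ha : a ∈ Z
      · exact h3 a ha
      · by_cases hab : a = b
        · rw [hab, hxb]
          rfl
        · exact hx a (by rw [Finset.mem_insert, not_or]; exact ⟨hab, ha⟩)

end Pool.Agent.Mono.C9
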