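import Pool.Agent.Work.Monodromy9.TRE9A
import Pool.Agent.Work.Monodromy6.TREE
import Pool.Agent.Work.Monodromy6.CERT
import Pool.Agent.Work.Monodromy7.EX7F
import Pool.Agent.Work.Monodromy7.AUT7
import Pool.Agent.Work.Monodromy.Interface9

/-! Phase 9, block TRE9 (local version of `Monodromy6/TI`, `TJ`, `TREE`). -/

set_option autoImplicit false
set_option linter.unusedSimpArgs false
set_option linter.unusedVariables false

namespace Pool.Agent.Mono.C9.TREAux

open MvPolynomial PC PC.TT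

variable {Λ : Set ℚ} {n : ℕ} {g : ℕ → P2}

/-- automorphisms which fix the origin -/
def Fix0 (α : P2 ≃ₐ[ℂ] P2) : Prop := ∀ i, eval (0 : Fin 2 → ℂ) (α (X i)) = 0

lemma Fix0.eval {α : P2 ≃ₐ[ℂ] P2} (h : Fix0 α) (F : P2) :
    MvPolynomial.eval (0 : Fin 2 → ℂ) (α F) = MvPolynomial.eval 0 F := by
  have : ((MvPolynomial.eval (0 : Fin 2 → ℂ)).comp ((α : P2 →ₐ[ℂ] P2) : P2 →+* P2)) =
      MvPolynomial.eval 0 := by
    apply MvPolynomial.ringHom_ext
    · intro a
      have h1 : α (C a) = C a := α.commutes a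
      simp [h1]
    · intro i
      have h1 : MvPolynomial.eval (0 : Fin 2 → ℂ) (α (X i)) = 0 := h i
      change MvPolynomial.eval (0 : Fin 2 → ℂ) (α (X i)) = MvPolynomial.eval 0 (X i)
      rw [h1, MvPolynomial.eval_X]
      rfl
  exact RingHom.congr_fun this F

lemma Fix0.trans {α β : P2 ≃ₐ[ℂ] P2} (h : Fix0 α) (h' : Fix0 β) : Fix0 (α.trans β) := by
  intro i
  rw [AlgEquiv.trans_apply, h'.eval]
  exact h i

lemma fix0_shiftE (ψ : Polynomial ℂ) (h0 : ψ.coeff 0 = 0) : Fix0 (shiftE ψ) := by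
  intro i
  rw [shiftE_apply]
  have hψ : MvPolynomial.eval (0 : Fin 2 → ℂ) (Polynomial.aeval (X 0 : P2) ψ) = 0 := by
    have h1 : MvPolynomial.eval (0 : Fin 2 → ℂ) (Polynomial.aeval (X 0 : P2) ψ) =
        Polynomial.eval 0 ψ := by
      have := Polynomial.hom_eval₂ ψ (algebraMap ℂ P2) (MvPolynomial.eval (0 : Fin 2 → ℂ)) (X 0)
      rw [Polynomial.aeval_def, this]
      have h2 : (MvPolynomial.eval (0 : Fin 2 → ℂ)).comp (algebraMap ℂ P2) = RingHom.id ℂ := by
        ext a; simp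
      rw [h2, MvPolynomial.eval_X]
      rfl
    rw [h1, ← Polynomial.coeff_zero_eq_eval_zero, h0]
  fin_cases i
  · simp [shift]
  · have h3 : shift ψ (X 1) = X 1 + Polynomial.aeval (X 0 : P2) ψ := by simp [shift]
    change MvPolynomial.eval (0 : Fin 2 → ℂ) (shift ψ (X 1)) = 0
    rw [h3, map_add, hψ, MvPolynomial.eval_X, add_zero]
    rfl

lemma fix0_swpE : Fix0 swpE := by
  intro i
  rw [swpE_apply]
  fin_cases i <;> simp [swp]

/-- the setting without certificate -/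
structure Pre9 (Λ : Set ℚ) (n : ℕ) (g : ℕ → P2) : Prop where
  sq : Squarefree (RR n g)
  exp : ∀ α : P2 ≃ₐ[ℂ] P2, Fix0 α → ∀ r : ℚ, GoodExp (α (TT.FF n g)) r → 0 < r → r ∈ Λ
  mul : ∀ j ∈ Finset.Icc 1 n, 2 ≤ j → ¬ IsUnit (g j) → 1 / (j : ℚ) ∈ Λ

lemma fix0_refl : Fix0 AlgEquiv.refl := by
  intro i
  simp

lemma Pre9.exp0 (h : Pre9 Λ n g) (r : ℚ) (hr : GoodExp (TT.FF n g) r) (h0 : 0 < r) : r ∈ Λ :=
  h.exp AlgEquiv.refl fix0_refl r (by simpa using hr) h0

lemma Pre9.ctx (hC : Stmt_CERT) (h : Pre9 Λ n g) : Ctx9 Λ n g := ⟨h.sq, h.exp0, h.mul, hC _ h.sq⟩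

lemma Pre9.map (α : P2 ≃ₐ[ℂ] P2) (hα : Fix0 α) (h : Pre9 Λ n g) :
    Pre9 Λ n (fun j => α (g j)) := by
  refine ⟨?_, ?_, ?_⟩
  · rw [RR_map]
    intro x hx
    have h1 : α.symm x * α.symm x ∣ RR n g := by
      have := map_dvd α.symm hx
      rwa [map_mul, AlgEquiv.symm_apply_apply] at this
    have h2 := (h.sq _ h1).map α
    rwa [AlgEquiv.apply_symm_apply] at h2
  · intro β hβ r hr hr0
    refine h.exp (α.trans β) (hα.trans hβ) r ?_ hr0
    rw [FF_map] at hr
    exact hr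
  · intro j hj hj2 hu
    refine h.mul j hj hj2 fun hu' => hu (hu'.map α)

/-- three tangents -/
lemma level_three (hC : Ctx9 Λ n g) (hF : Gen (TT.FF n g)) (hR : Gen (RR n g))
    (ht : 3 ≤ (inF 1 1 (RR n g)).roots.toFinset.card) : Good0 Λ (TT.FF n g) := by
  have hR3 : 3 ≤ ordN 1 1 (RR n g) := by
    have h1 := Multiset.toFinset_card_le (inF 1 1 (RR n g)).roots
    have h2 := Polynomial.card_roots' (inF 1 1 (RR n g))
    rw [hR.natDegree] at h2
    omega
  obtain ⟨I, hgood, hsub, hdeg⟩ := gen_edge hF hR (RR_dvd_FF n g) (by omega) (by omega)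
  have hVF := vtx_axis hF.ax0
  have hVR := vtx_axis hR.ax0
  have hF3 : ordN 1 1 (RR n g) ≤ ordN 1 1 (TT.FF n g) :=
    (vtx_le_of_dvd le_rfl hVF hVR (RR_dvd_FF n g)).2
  have hid : ∀ P : P2, chartMap 1 0 0 P = P := by
    intro P; rw [chartMap_one_zero, shift_zero]
  have hc : Chart 1 0 0 0 := Chart.base 0 (by simp)
  have hcore := edge_core hC hc (p := 1) (q := 0) (A := 0) (B := ordN 1 1 (TT.FF n g)) (AR := 0)
    (BR := ordN 1 1 (RR n g)) (p2 := 1) (q2 := 1) (bR := 0) (I := I) le_rfl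
    (by rw [hid]; exact hVF) (by rw [hid]; exact hVR) (by omega) (Or.inr le_rfl)
    (by rw [hid, hid]; exact hgood) (by omega)
    (by
      unfold special
      have := Finset.card_le_card hsub
      omega)
    (fun {M H e Φ} hc {p q A B AR BR'} hp hF hR hlt heA hepq hN hr hr1 =>
      (region hC (BR' + 1) hc hp hF hR (by omega) heA hepq hN).2 hr hr1)
  rw [hid] at hcore
  obtain ⟨h1, h2, h3, h4⟩ := hcore
  refine Good0.edge (TT.FF n g) 1 1 0 0 I hgood.edge ?_ h3 h4 ?_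
  · rw [hdeg, one_mul, zero_add]
    exact h1
  · refine RB.fin0 _ 1 1 1 (ordN 1 1 (TT.FF n g)) le_rfl (by omega) ?_ ?_ ?_
    · rw [coeff_swp]; exact hF.ax0
    · rw [one_mul]; exact low_swp (low_ordN le_rfl 1 _)
    · have e : rate 1 (ordN 1 1 (TT.FF n g)) 0 1 1 = rate (1 + 0) 0 (ordN 1 1 (TT.FF n g)) 1 1 := by
        unfold rate; simp
      rw [e]; exact h1

/-- one tangent -/
lemma level_one (hC : Ctx9 Λ n g) (h2 : 2 ≤ ordN 1 1 (RR n g)) {c : ℂ} (hc : c ≠ 0)
    (hin : inF 1 1 (RR n g) = Polynomial.C c * Polynomial.X ^ (ordN 1 1 (RR n g))) :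
    Good0 Λ (TT.FF n g) := by
  have hVR := vtx_of_mono hC.RR_ne hc hin
  rw [Nat.sub_self] at hVR
  obtain ⟨N, S, hS⟩ := GRdvd n g
  have hS0 : S ≠ 0 := by
    rintro rfl
    rw [mul_zero] at hS
    exact pow_ne_zero N hC.RR_ne hS
  obtain ⟨A, B, hVF⟩ := exists_vtx le_rfl 1 hC.FF_ne
  obtain ⟨A', B', hVS⟩ := exists_vtx le_rfl 1 hS0
  have h1 := hVF.mul le_rfl hVS
  rw [← hS] at h1
  obtain ⟨e1, e2⟩ := h1.unique le_rfl (hVR.pow le_rfl N)
  have hA : A = 0 := by omega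
  subst hA
  have hB := (vtx_le_of_dvd le_rfl hVF hVR (RR_dvd_FF n g)).2
  obtain ⟨a, b, ρ₀, hρ₀, hab⟩ := hC.cert
  obtain ⟨ψ, hψ, p2, q2, bR, I, hgood⟩ := key hρ₀ h2 ρ₀.natTrailingDegree
    (TT.FF n g) (RR n g) 1 1 le_rfl hVF hVR (RR_dvd_FF n g) (GRdvd n g) ⟨a, b, hab⟩ (by omega)
  have hψ0 : ψ.coeff 0 = 0 := by
    by_contra hne
    have := hψ 0 (Polynomial.mem_support_iff.2 hne)
    omega
  have hc' : Chart 1 0 0 ψ := Chart.base ψ hψ0
  have hF' := hVF.shift le_rfl ψ hψ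
  have hR' := hVR.shift le_rfl ψ hψ
  rw [← chartMap_one_zero] at hF' hR'
  rw [← chartMap_one_zero, ← chartMap_one_zero] at hgood
  obtain ⟨hr1, hr2, hch, hnx⟩ := some_of_good hC hc' le_rfl hF' hR' h2 (by omega)
    (Or.inr le_rfl) hgood
    (fun {M H e Φ} hc {p q A B AR BR'} hp hF hR hlt heA hepq hN hr hr1 =>
      (region hC (BR' + 1) hc hp hF hR (by omega) heA hepq hN).2 hr hr1)
  refine Good0.coord _ ψ hψ0 ?_
  rw [← chartMap_one_zero]
  have hp2 := hgood.edge.hp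
  have hq2 := hgood.edge.hq
  refine Good0.edge _ p2 q2 0 bR I hgood.edge ?_ ?_ ?_ ?_
  · rw [hgood.hB]; exact hr1
  · intro lam hl hlam
    have := hch lam hl hlam
    rwa [show p2 * (1 + 0) + q2 = p2 + q2 by ring] at this
  · exact hnx
  · refine RB.fin0 _ 1 q2 p2 B hq2 (by omega) ?_ ?_ ?_
    · rw [coeff_swp]; exact hF'.ne
    · have h3 := low_ordN hp2 q2 (chartMap 1 0 ψ (TT.FF n g))
      rw [hgood.ordG, mul_zero, zero_add] at h3
      exact low_swp h3
    · have e : rate 1 B 0 q2 p2 = rate (1 + 0) 0 B p2 q2 := by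
        unfold rate
        congr 2 <;> ring
      rw [e]; exact hr1

/-- two tangents, normal form -/
lemma level_two (hCERT : Stmt_CERT) (hP : Pre9 Λ n g) {AR BR : ℕ} {c : ℂ} (hc : c ≠ 0)
    (hAR : 1 ≤ AR) (hBR : 1 ≤ BR)
    (hVR : Vtx (RR n g) 1 1 AR BR)
    (hin : inF 1 1 (RR n g) = Polynomial.C c * Polynomial.X ^ BR)
    (hnode : ordN 1 1 (TT.FF n g) = 2 → (1 : ℚ) ∈ Λ) :
    Good0 Λ (TT.FF n g) := by
  have hC := hP.ctx hCERT
  obtain ⟨A, B, hVF⟩ := exists_vtx le_rfl 1 hC.FF_ne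
  obtain ⟨hA, hB⟩ := vtx_le_of_dvd le_rfl hVF hVR (RR_dvd_FF n g)
  -- the in-form of `F` is a monomial
  obtain ⟨N, hN⟩ := GRdvd n g
  have h1 : inF 1 1 (TT.FF n g) ∣ Polynomial.C (c ^ N) * Polynomial.X ^ (BR * N) := by
    have h2 : inF 1 1 (TT.FF n g) ∣ inF 1 1 (RR n g ^ N) := inF_dvd hN
    have h3 : ∀ m : ℕ, inF 1 1 (RR n g ^ m) = inF 1 1 (RR n g) ^ m := by
      intro m
      induction m with
      | zero =>
        have := inF_C 1 1 1
        simpa using this
      | succ m ih => rw [pow_succ, inF_mul, ih, pow_succ]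
    rw [h3, hin, mul_pow, ← map_pow, ← pow_mul] at h2
    exact h2
  obtain ⟨c', i, hc', hi⟩ := mono_of_dvd (pow_ne_zero N hc) h1
  have hVF' := vtx_of_mono hC.FF_ne hc' hi
  obtain ⟨eA, eB⟩ := hVF.unique le_rfl hVF'
  subst eB
  have hordF := hVF.ord le_rfl
  have hcc : c' = (TT.FF n g).coeff (mon A B) := by
    have h3 := inF11_coeff (F := TT.FF n g) (b := B) (by omega)
    rw [hi, Polynomial.coeff_C_mul_X_pow, if_pos rfl, ← eA] at h3
    exact h3
  -- the swapped family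
  have hPs := hP.map swpE fix0_swpE
  have hCs := hPs.ctx hCERT
  have eFs : TT.FF n (fun j => swpE (g j)) = swp (TT.FF n g) := FF_map swpE
  have eRs : RR n (fun j => swpE (g j)) = swp (RR n g) := RR_map swpE
  have swpV : ∀ {P : P2} {a b : ℕ} {c : ℂ}, P ≠ 0 → c ≠ 0 → Vtx P 1 1 a b →
      inF 1 1 P = Polynomial.C c * Polynomial.X ^ b → Vtx (swp P) 1 1 b a := by
    intro P a b c hP0 hc0 hV hI
    have ho := hV.ord le_rfl
    refine ⟨by rw [coeff_swp]; exact hV.ne, ?_, ?_⟩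
    · intro d hd
      have h4 := hV.le _ (mem_support_swp.1 hd)
      simp only [mon_zero, mon_one] at h4
      omega
    · intro d hd hlt
      have h4 := hV.le _ (mem_support_swp.1 hd)
      simp only [mon_zero, mon_one] at h4
      by_contra hcon
      have h5 := inF_coeff le_rfl 1 (F := P) (d := mon (d 1) (d 0))
        (by simp only [W, mon_zero, mon_one]; omega)
      rw [mon_one, hI, Polynomial.coeff_C_mul_X_pow, if_neg (by omega)] at h5
      exact (mem_support_iff.1 (mem_support_swp.1 hd)) h5.symm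
  have hVFs := swpV hC.FF_ne hc' hVF hi
  have hVRs := swpV hC.RR_ne hc hVR hin
  have hb : Chart 1 0 0 0 := Chart.base 0 (by simp)
  have s1 := (region hC (BR + 1) hb (p := 1) (q := 1) (A := A) (B := B) (AR := AR) (BR := BR)
    le_rfl (by rw [chart_base_id]; exact hVF) (by rw [chart_base_id]; exact hVR) (by omega)
    (by omega) (Or.inr le_rfl) (by omega)).1 (by omega)
  have s2 := (region hCs (AR + 1) hb (p := 1) (q := 1) (A := B) (B := A) (AR := BR) (BR := AR)
    le_rfl (by rw [chart_base_id, eFs]; exact hVFs) (by rw [chart_base_id, eRs]; exact hVRs)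
    (by omega) (by omega) (Or.inr le_rfl) (by omega)).1 (by omega)
  rw [chart_base_id] at s1 s2
  rw [eFs] at s2
  obtain ⟨p', q', r1, n1, o1⟩ := s1
  obtain ⟨q'', p'', r2, n2, o2⟩ := s2
  rw [coeff_swp] at r2
  rw [← hcc] at r1 r2
  have hrs : rate 1 A B p'' q'' = rate (1 + 0) B A q'' p'' := by
    unfold rate
    congr 2 <;> ring
  refine Good0.two (TT.FF n g) A B c' p' q' p'' q'' (by omega) (by omega) ?_ r1 r2 ?_
  · have h3 := above_of_tw (q := 1) le_rfl hi (E := C c' * X 0 ^ A * X 1 ^ B)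
      (by rw [tw_C_mul_X, hordF])
    rw [hordF, one_mul, one_mul] at h3
    exact h3
  · refine ⟨by rw [add_comm]; exact n2, n1, ?_⟩
    rw [hrs]
    rcases o1 with o1 | ⟨o1, o1', o1''⟩
    · rcases o2 with o2 | ⟨o2, o2', o2''⟩
      · exact Or.inl ⟨o2.1, o1.1⟩
      · exact Or.inr (Or.inr ⟨o2', o2, o2'', rfl, o1.1, o1.2.ne⟩)
    · rcases o2 with o2 | ⟨o2, o2', o2''⟩
      · exact Or.inr (Or.inl ⟨o1, o1', o1'', o2.1, o2.2.ne⟩)
      · left
        subst o1 o1' o1'' o2 o2' o2''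
        have h3 := hnode (by omega)
        constructor
        · have : rate (1 + 0) 1 1 0 1 = 1 := by unfold rate; simp
          rw [this]; exact h3
        · have : rate 1 1 1 0 1 = 1 := by unfold rate; simp
          rw [this]; exact h3

/-- two tangents in generic position: reduction to the normal form -/
lemma level_two_gen (hCERT : Stmt_CERT) (hP : Pre9 Λ n g) (hF : Gen (TT.FF n g)) (hR : Gen (RR n g))
    (ht : (inF 1 1 (RR n g)).roots.toFinset.card = 2) : Good0 Λ (TT.FF n g) := by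
  classical
  have hC := hP.ctx hCERT
  have heR0 := inF_ne_zero le_rfl 1 hR.ne
  have hR2 : 2 ≤ ordN 1 1 (RR n g) := by
    have h1 := Multiset.toFinset_card_le (inF 1 1 (RR n g)).roots
    have h2 := Polynomial.card_roots' (inF 1 1 (RR n g))
    rw [hR.natDegree] at h2
    omega
  have hnode : ordN 1 1 (TT.FF n g) = 2 → (1 : ℚ) ∈ Λ := by
    intro h2
    refine hP.exp0 1 ?_ one_pos
    exact node_exp hF hR (RR_dvd_FF n g) h2 (by omega) ht.ge
  obtain ⟨l1, l2, hl12, hl⟩ := Finset.card_eq_two.1 ht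
  have hroots : ∀ x, (inF 1 1 (RR n g)).eval x = 0 ↔ x = l1 ∨ x = l2 := by
    intro x
    have : x ∈ (inF 1 1 (RR n g)).roots.toFinset ↔ x = l1 ∨ x = l2 := by rw [hl]; simp
    rw [← this, Multiset.mem_toFinset, Polynomial.mem_roots heR0]; rfl
  -- first shift
  set R1 := shift (lin l1) (RR n g) with hR1d
  have hR10 : R1 ≠ 0 := shift_ne_zero _ hR.ne
  have ho1 : ordN 1 1 R1 = ordN 1 1 (RR n g) := ordN11_lin l1 hR.ne
  have hi1 : inF 1 1 R1 = (inF 1 1 (RR n g)).comp (Polynomial.X + Polynomial.C l1) :=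
    inF11_lin l1 hR.ne
  have hd1 : (inF 1 1 R1).natDegree = ordN 1 1 R1 := by
    rw [hi1, Polynomial.natDegree_comp, Polynomial.natDegree_X_add_C, mul_one, hR.natDegree, ho1]
  have hr1 : ∀ x, (inF 1 1 R1).eval x = 0 ↔ x = 0 ∨ x = l2 - l1 := by
    intro x
    rw [hi1, Polynomial.eval_comp, hroots]
    simp only [Polynomial.eval_add, Polynomial.eval_X, Polynomial.eval_C]
    constructor
    · rintro (h | h)
      · left; linear_combination h
      · right; linear_combination h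
    · rintro (h | h)
      · left; rw [h]; ring
      · right; rw [h]; ring
  have hδ : l2 - l1 ≠ 0 := sub_ne_zero.2 hl12.symm
  -- exchange
  set R2 := swp R1 with hR2d
  have hR20 : R2 ≠ 0 := swp_ne_zero hR10
  have ho2 : ordN 1 1 R2 = ordN 1 1 R1 := ordN11_swp hR10
  have hi2 : inF 1 1 R2 = (inF 1 1 R1).reflect (ordN 1 1 R1) := inF11_swp hR10
  have he20 := inF_ne_zero le_rfl 1 hR20
  have hc20 : (inF 1 1 R2).coeff 0 ≠ 0 := by
    rw [hi2, Polynomial.coeff_reflect, Polynomial.revAt_le (Nat.zero_le _), Nat.sub_zero, ← hd1,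
      Polynomial.coeff_natDegree]
    exact Polynomial.leadingCoeff_ne_zero.2 (inF_ne_zero le_rfl 1 hR10)
  have hr2 : ∀ x, (inF 1 1 R2).eval x = 0 → x = (l2 - l1)⁻¹ := by
    intro x hx
    have hx0 : x ≠ 0 := by
      rintro rfl
      rw [← Polynomial.coeff_zero_eq_eval_zero] at hx
      exact hc20 hx
    rw [hi2, eval_reflect (inF11_natDegree_le R1) hx0, hr1] at hx
    rcases hx with h | h
    · exact absurd h (inv_ne_zero hx0)
    · rw [← h, inv_inv]
  have hr2' : (inF 1 1 R2).eval (l2 - l1)⁻¹ = 0 := by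
    rw [hi2, eval_reflect (inF11_natDegree_le R1) (inv_ne_zero hδ), inv_inv, hr1]
    exact Or.inr rfl
  have hd2 : (inF 1 1 R2).natDegree < ordN 1 1 R2 := by
    refine lt_of_le_of_ne (inF11_natDegree_le R2) fun heq => ?_
    have h1 : (inF 1 1 R2).coeff (ordN 1 1 R2) ≠ 0 := by
      rw [← heq, Polynomial.coeff_natDegree]; exact Polynomial.leadingCoeff_ne_zero.2 he20
    apply h1
    rw [hi2, ho2, Polynomial.coeff_reflect, Polynomial.revAt_le le_rfl, Nat.sub_self,
      Polynomial.coeff_zero_eq_eval_zero, hr1]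
    exact Or.inl rfl
  have hd2' : 1 ≤ (inF 1 1 R2).natDegree := by
    by_contra h0
    obtain ⟨c, hc⟩ := Polynomial.natDegree_eq_zero.1 (show (inF 1 1 R2).natDegree = 0 by omega)
    have hc0 : c ≠ 0 := by rintro rfl; exact he20 (by rw [← hc, map_zero])
    rw [← hc, Polynomial.eval_C] at hr2'
    exact hc0 hr2'
  -- second shift
  obtain ⟨c, hc, hmono⟩ := mono_of_root he20 _ hr2
  set R3 := shift (lin (l2 - l1)⁻¹) R2 with hR3d
  have hR30 : R3 ≠ 0 := shift_ne_zero _ hR20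
  have ho3 : ordN 1 1 R3 = ordN 1 1 R2 := ordN11_lin _ hR20
  have hi3 : inF 1 1 R3 = Polynomial.C c * Polynomial.X ^ (inF 1 1 R2).natDegree := by
    rw [hR3d, inF11_lin _ hR20, hmono]
  have hV3 := vtx_of_mono hR30 hc hi3
  -- the family
  refine good0_shift (lin l1) (lin_coeff_zero l1) (good0_swp
    (good0_shift (lin (l2 - l1)⁻¹) (lin_coeff_zero _) ?_))
  have hP3 := ((hP.map (shiftE (lin l1)) (fix0_shiftE _ (lin_coeff_zero _))).map swpE fix0_swpE).map
    (shiftE (lin (l2 - l1)⁻¹)) (fix0_shiftE _ (lin_coeff_zero _))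
  have eR : RR n (fun j => shiftE (lin (l2 - l1)⁻¹) (swpE (shiftE (lin l1) (g j)))) = R3 := by
    rw [RR_map (g := fun j => swpE (shiftE (lin l1) (g j))),
      RR_map (g := fun j => shiftE (lin l1) (g j)), RR_map]
    rfl
  have eF : TT.FF n (fun j => shiftE (lin (l2 - l1)⁻¹) (swpE (shiftE (lin l1) (g j)))) =
      shift (lin (l2 - l1)⁻¹) (swp (shift (lin l1) (TT.FF n g))) := by
    rw [FF_map (g := fun j => swpE (shiftE (lin l1) (g j))),
      FF_map (g := fun j => shiftE (lin l1) (g j)), FF_map]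
    rfl
  refine level_two hCERT hP3 (AR := ordN 1 1 R3 - (inF 1 1 R2).natDegree)
    (BR := (inF 1 1 R2).natDegree) hc (by omega) hd2' (by rw [eR]; exact hV3)
    (by rw [eR]; exact hi3) ?_
  intro h
  apply hnode
  rw [eF, ordN11_lin _ (swp_ne_zero (shift_ne_zero _ hF.ne)),
    ordN11_swp (shift_ne_zero _ hF.ne), ordN11_lin _ hF.ne] at h
  exact h

/-- generic position -/
theorem level_gen (hCERT : Stmt_CERT) (hP : Pre9 Λ n g) (hR : Gen (RR n g))
    (h2 : 2 ≤ ordN 1 1 (RR n g)) : Good0 Λ (TT.FF n g) := by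
  classical
  have hC := hP.ctx hCERT
  have hF : Gen (TT.FF n g) := hR.transfer hC.FF_ne (GRdvd n g)
  have heR0 := inF_ne_zero le_rfl 1 hR.ne
  rcases lt_trichotomy (inF 1 1 (RR n g)).roots.toFinset.card 2 with ht | ht | ht
  · -- one tangent
    have hex : ∃ δ : ℂ, (inF 1 1 (RR n g)).eval δ = 0 :=
      Complex.exists_root (f := inF 1 1 (RR n g))
        (Polynomial.natDegree_pos_iff_degree_pos.1 (by rw [hR.natDegree]; omega))
    obtain ⟨δ, hδ⟩ := hex
    have hall : ∀ x, (inF 1 1 (RR n g)).eval x = 0 → x = δ := by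
      intro x hx
      have h1 : x ∈ (inF 1 1 (RR n g)).roots.toFinset := by
        rw [Multiset.mem_toFinset, Polynomial.mem_roots heR0]; exact hx
      have h2 : δ ∈ (inF 1 1 (RR n g)).roots.toFinset := by
        rw [Multiset.mem_toFinset, Polynomial.mem_roots heR0]; exact hδ
      exact Finset.card_le_one.1 (by omega) x h1 δ h2
    obtain ⟨c, hc, hmono⟩ := mono_of_root heR0 δ hall
    refine good0_shift (lin δ) (lin_coeff_zero δ) ?_
    have hP1 := hP.map (shiftE (lin δ)) (fix0_shiftE _ (lin_coeff_zero _))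
    have eR : RR n (fun j => shiftE (lin δ) (g j)) = shift (lin δ) (RR n g) := RR_map _
    refine level_one (hP1.ctx hCERT) ?_ hc ?_
    · rw [eR, ordN11_lin δ hR.ne]; exact h2
    · rw [eR, ordN11_lin δ hR.ne, inF11_lin δ hR.ne, hmono, hR.natDegree]
  · exact level_two_gen hCERT hP hF hR ht
  · exact level_three hC hF hR ht

theorem level0 (hCERT : Stmt_CERT) (hP : Pre9 Λ n g) (h2 : 2 ≤ ordN 1 1 (RR n g)) :
    Good0 Λ (TT.FF n g) := by
  have hC := hP.ctx hCERT
  have hR0 := hC.RR_ne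
  obtain ⟨l1, hl1⟩ := exists_eval_ne (inF_ne_zero le_rfl 1 hR0)
  set R1 := shift (lin l1) (RR n g) with hR1d
  have hR10 : R1 ≠ 0 := shift_ne_zero _ hR0
  have ho1 : ordN 1 1 R1 = ordN 1 1 (RR n g) := ordN11_lin l1 hR0
  have hi1 : inF 1 1 R1 = (inF 1 1 (RR n g)).comp (Polynomial.X + Polynomial.C l1) :=
    inF11_lin l1 hR0
  have hc1 : (inF 1 1 R1).coeff 0 ≠ 0 := by
    rw [hi1, Polynomial.coeff_zero_eq_eval_zero, Polynomial.eval_comp]
    simpa using hl1
  set R2 := swp R1 with hR2d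
  have hR20 : R2 ≠ 0 := swp_ne_zero hR10
  have ho2 : ordN 1 1 R2 = ordN 1 1 R1 := ordN11_swp hR10
  have hi2 : inF 1 1 R2 = (inF 1 1 R1).reflect (ordN 1 1 R1) := inF11_swp hR10
  have hd2 : (inF 1 1 R2).natDegree = ordN 1 1 R2 := by
    apply le_antisymm (inF11_natDegree_le R2)
    apply Polynomial.le_natDegree_of_ne_zero
    rw [hi2, ho2, Polynomial.coeff_reflect, Polynomial.revAt_le le_rfl, Nat.sub_self]
    exact hc1
  obtain ⟨l2, hl2⟩ := exists_eval_ne (inF_ne_zero le_rfl 1 hR20)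
  set R3 := shift (lin l2) R2 with hR3d
  have hR30 : R3 ≠ 0 := shift_ne_zero _ hR20
  have ho3 : ordN 1 1 R3 = ordN 1 1 R2 := ordN11_lin l2 hR20
  have hi3 : inF 1 1 R3 = (inF 1 1 R2).comp (Polynomial.X + Polynomial.C l2) :=
    inF11_lin l2 hR20
  have hd3 : (inF 1 1 R3).natDegree = ordN 1 1 R3 := by
    rw [hi3, Polynomial.natDegree_comp, Polynomial.natDegree_X_add_C, mul_one, hd2, ho3]
  have hGen : Gen R3 := by
    refine ⟨hR30, ?_, ?_⟩
    · have h1 : (inF 1 1 R3).coeff (ordN 1 1 R3) ≠ 0 := by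
        rw [← hd3, Polynomial.coeff_natDegree]
        exact Polynomial.leadingCoeff_ne_zero.2 (inF_ne_zero le_rfl 1 hR30)
      rwa [inF11_coeff le_rfl, Nat.sub_self] at h1
    · rw [hi3, Polynomial.coeff_zero_eq_eval_zero, Polynomial.eval_comp]
      simpa using hl2
  refine good0_shift (lin l1) (lin_coeff_zero l1) (good0_swp
    (good0_shift (lin l2) (lin_coeff_zero _) ?_))
  have hP3 := ((hP.map (shiftE (lin l1)) (fix0_shiftE _ (lin_coeff_zero _))).map swpE fix0_swpE).map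
    (shiftE (lin l2)) (fix0_shiftE _ (lin_coeff_zero _))
  have eR : RR n (fun j => shiftE (lin l2) (swpE (shiftE (lin l1) (g j)))) = R3 := by
    rw [RR_map (g := fun j => swpE (shiftE (lin l1) (g j))),
      RR_map (g := fun j => shiftE (lin l1) (g j)), RR_map]
    rfl
  refine level_gen hCERT hP3 (by rw [eR]; exact hGen) ?_
  rw [eR, ho3, ho2, ho1]
  exact h2

end TREAux

open TREAux MvPolynomial PC PC.TT in
theorem stmt_TRE9 : Stmt_TRE9 := by
  intro n G hsq h0 h1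
  have hsq' : Squarefree (RR n G) := hsq
  have hPre : Pre9 (Ex9 n G) n G := by
    refine ⟨hsq', ?_, ?_⟩
    · intro α hα r hr hr0
      refine ⟨hr0, Or.inl ?_⟩
      have h2 := BG.stmt_EX7F (α (TT.FF n G)) r hr
      exact BG.stmt_AUT7 α (TT.FF n G) r hα h2
    · intro j hj hj2 hu
      refine ⟨?_, Or.inr ⟨j, hj, hj2, hu, rfl⟩⟩
      have : (0 : ℚ) < j := by
        have : 0 < j := by omega
        exact_mod_cast this
      positivity
  refine level0 PC.stmt_CERT hPre ?_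
  have hlow : Low 1 1 2 (RR n G) := low_two_of h0 h1
  have hne : RR n G ≠ 0 := hsq'.ne_zero
  obtain ⟨A, B, hV⟩ := exists_vtx le_rfl 1 hne
  rw [hV.ord le_rfl]
  have := hlow _ (mem_support_iff.2 hV.ne)
  simpa using this

end Pool.Agent.Mono.C9
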