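import Pool.Agent.Work.Monodromy.Interface9
import Pool.Agent.Work.Monodromy4.Q1

/-!
# Block TRL9 (helper58): plane germs, assembly of TRE9, BAS9, SMU9
-/

set_option autoImplicit false

namespace Pool.Agent.Mono.C9

open MvPolynomial TS RO SP PC

namespace TRLAux

theorem PD9.mono {P : HodgeMeasure} {ι : Type} [Fintype ι] {F : MvPolynomial ι ℂ} {Λ Λ' : Set ℚ}
    (h : Λ ⊆ Λ') (hF : PD9 P F Λ) : PD9 P F Λ' := by
  obtain ⟨α, h1, h2⟩ := hF
  exact ⟨α, fun E _ Q hQ => stmt_Q1.1 _ _ _ h (h1 E Q hQ), stmt_Q1.1 _ _ _ h h2⟩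

end TRLAux

open TRLAux in
theorem stmt_TRL9 (hT : Stmt_TRE9) (hB : Stmt_BAS9) (hS : Stmt_SMU9) : Stmt_TRL9 := by
  classical
  intro P n G hsq h0
  by_cases hd : ∀ i, eval 0 (pderiv i (∏ j ∈ Finset.Icc 1 n, G j)) = 0
  · exact hB P _ _ (fun r hr => hr.1) (hT n G hsq h0 hd)
  · push Not at hd
    obtain ⟨i, hi⟩ := hd
    rw [map_prod, Finset.prod_eq_zero_iff] at h0
    obtain ⟨j0, hj0, h0⟩ := h0
    have hj1 := (Finset.mem_Icc.1 hj0).1
    have hR : ∏ j ∈ Finset.Icc 1 n, G j = G j0 * ∏ j ∈ (Finset.Icc 1 n).erase j0, G j :=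
      (Finset.mul_prod_erase (Finset.Icc 1 n) (fun j => G j) hj0).symm
    have hF : ∏ j ∈ Finset.Icc 1 n, G j ^ j =
        G j0 ^ j0 * ∏ j ∈ (Finset.Icc 1 n).erase j0, G j ^ j :=
      (Finset.mul_prod_erase (Finset.Icc 1 n) (fun j => G j ^ j) hj0).symm
    rw [hR, Derivation.leibniz, map_add] at hi
    simp only [smul_eq_mul, map_mul, h0, zero_mul, zero_add] at hi
    have hi1 := left_ne_zero_of_mul hi
    have hi2 := right_ne_zero_of_mul hi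
    have hh : eval 0 (∏ j ∈ (Finset.Icc 1 n).erase j0, G j ^ j) ≠ 0 := by
      rw [map_prod] at hi1 ⊢
      rw [Finset.prod_ne_zero_iff] at hi1 ⊢
      intro j hj
      rw [map_pow]
      exact pow_ne_zero _ (hi1 j hj)
    rw [hF]
    refine PD9.mono ?_ (hS P (G j0) _ j0 hj1 h0 ⟨i, hi2⟩ hh)
    rintro r ⟨h2, rfl⟩
    have hpos : (0 : ℚ) < j0 := by exact_mod_cast hj1
    refine ⟨by positivity, Or.inr ⟨j0, hj0, h2, fun hu => ?_, rfl⟩⟩
    exact (hu.map (eval (0 : Fin 2 → ℂ))).ne_zero h0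

end Pool.Agent.Mono.C9
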