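import Pool.Agent.Work.Monodromy.Interface9
import Pool.Agent.Work.Monodromy8.ZB8

/-!
# Block VG9 (helper94): generic volumes
-/

set_option autoImplicit false
set_option linter.unusedSectionVars false

namespace Pool.Agent.Mono.C9

open MvPolynomial TS RO SP PC

namespace VG9Aux

section

variable {σ τ : Type}

theorem wh_monomial (w : σ → ℕ) (w' : τ → ℕ) (φ : MvPolynomial σ ℂ →ₐ[ℂ] MvPolynomial τ ℂ)
    (hφ : ∀ i, IsWeightedHomogeneous w' (φ (X i)) (w i)) (e : σ →₀ ℕ) (c : ℂ) :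
    IsWeightedHomogeneous w' (φ (monomial e c)) (Finsupp.weight w e) := by
  have h1 : φ (monomial e c) = C c * ∏ i ∈ e.support, φ (X i) ^ e i := by
    rw [monomial_eq, map_mul, Finsupp.prod, map_prod]
    congr 1
    · exact φ.commutes c
    · exact Finset.prod_congr rfl fun i _ => by rw [map_pow]
  rw [h1]
  have h2 : IsWeightedHomogeneous w' (∏ i ∈ e.support, φ (X i) ^ e i)
      (∑ i ∈ e.support, e i • w i) :=
    IsWeightedHomogeneous.prod _ _ _ fun i _ => (hφ i).pow (e i)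
  have h3 := (isWeightedHomogeneous_C w' c).mul h2
  rw [zero_add] at h3
  exact h3

theorem wh_comm (w : σ → ℕ) (w' : τ → ℕ) (φ : MvPolynomial σ ℂ →ₐ[ℂ] MvPolynomial τ ℂ)
    (hφ : ∀ i, IsWeightedHomogeneous w' (φ (X i)) (w i)) (n : ℕ) (P : MvPolynomial σ ℂ) :
    ini w' n (φ P) = φ (ini w n P) := by
  unfold ini
  conv_lhs => rw [P.as_sum, map_sum, map_sum]
  conv_rhs => rw [P.as_sum, map_sum, map_sum]
  refine Finset.sum_congr rfl fun e _ => ?_
  have h1 := wh_monomial w w' φ hφ e (P.coeff e)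
  have h2 : IsWeightedHomogeneous w (monomial e (P.coeff e)) (Finsupp.weight w e) :=
    isWeightedHomogeneous_monomial w e _ rfl
  by_cases h : Finsupp.weight w e = n
  · subst h
    rw [h1.weightedHomogeneousComponent_same, h2.weightedHomogeneousComponent_same]
  · rw [h1.weightedHomogeneousComponent_ne n (Ne.symm h),
      h2.weightedHomogeneousComponent_ne n (Ne.symm h), map_zero]

/-- if all monomials of `P` have weight at least `D`, so have those of `φ P` -/
theorem wh_low (w : σ → ℕ) (w' : τ → ℕ) (φ : MvPolynomial σ ℂ →ₐ[ℂ] MvPolynomial τ ℂ)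
    (hφ : ∀ i, IsWeightedHomogeneous w' (φ (X i)) (w i)) (D : ℕ) (P : MvPolynomial σ ℂ)
    (hP : ∀ e ∈ P.support, D ≤ Finsupp.weight w e) :
    ∀ d ∈ (φ P).support, D ≤ Finsupp.weight w' d := by
  intro d hd
  by_contra hcon
  push Not at hcon
  have h1 : ini w (Finsupp.weight w' d) P = 0 := by
    unfold ini
    ext e
    rw [coeff_weightedHomogeneousComponent, coeff_zero]
    by_cases he : Finsupp.weight w e = Finsupp.weight w' d
    · rw [if_pos he]
      by_contra h2
      have := hP e (mem_support_iff.2 h2)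
      omega
    · rw [if_neg he]
  have h2 := wh_comm w w' φ hφ (Finsupp.weight w' d) P
  rw [h1, map_zero] at h2
  have h3 : coeff d (ini w' (Finsupp.weight w' d) (φ P)) = coeff d (φ P) := by
    unfold ini
    rw [coeff_weightedHomogeneousComponent, if_pos rfl]
  rw [h2, coeff_zero] at h3
  exact (mem_support_iff.1 hd) h3.symm

theorem coeff_high [Fintype τ] (P : MvPolynomial τ ℂ) (k : ℕ)
    (hP : ∀ d ∈ P.support, k ≤ Finsupp.degree d) (y : τ → PowerSeries ℂ)
    (hy : ∀ b, PowerSeries.coeff 0 (y b) = 0) : ∀ l < k, PowerSeries.coeff l (aeval y P) = 0 := by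
  have h1 : (PowerSeries.X : PowerSeries ℂ) ^ k ∣ aeval y P := by
    rw [P.as_sum, map_sum]
    refine Finset.dvd_sum fun d hd => ?_
    rw [aeval_monomial]
    refine Dvd.dvd.mul_left ?_ _
    have h2 : (PowerSeries.X : PowerSeries ℂ) ^ (Finsupp.degree d) ∣ d.prod fun i e => y i ^ e := by
      rw [Finsupp.degree_apply, Finsupp.prod, ← Finset.prod_pow_eq_pow_sum]
      refine Finset.prod_dvd_prod_of_dvd _ _ fun i _ => ?_
      refine pow_dvd_pow_of_dvd ?_ _
      rw [PowerSeries.X_dvd_iff, ← PowerSeries.coeff_zero_eq_constantCoeff_apply]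
      exact hy i
    exact dvd_trans (pow_dvd_pow _ (hP d hd)) h2
  exact PowerSeries.X_pow_dvd_iff.1 h1

end

section

variable {E ι : Type} [Fintype ι] [DecidableEq ι]

/-- set the variables outside of `A` to zero -/
noncomputable def rest (A : Finset ι) : MvPolynomial ι ℂ →ₐ[ℂ] MvPolynomial A ℂ :=
  aeval fun a => if h : a ∈ A then X ⟨a, h⟩ else 0

theorem rest_X (A : Finset ι) (a : ι) :
    rest A (X a) = if h : a ∈ A then (X ⟨a, h⟩ : MvPolynomial A ℂ) else 0 := by
  rw [rest, aeval_X]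

theorem pderiv_rest (A : Finset ι) (a : A) (P : MvPolynomial ι ℂ) :
    pderiv a (rest A P) = rest A (pderiv (a : ι) P) := by
  induction P using MvPolynomial.induction_on with
  | C c =>
    rw [pderiv_C, map_zero]
    have : rest A (C c) = C c := (rest A).commutes c
    rw [this, pderiv_C]
  | add p q hp hq => simp only [map_add, hp, hq]
  | mul_X p i hp =>
    rw [map_mul, Derivation.leibniz, Derivation.leibniz, map_add, smul_eq_mul, smul_eq_mul,
      smul_eq_mul, smul_eq_mul, map_mul, map_mul, hp]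
    congr 2
    rw [rest_X, pderiv_X]
    by_cases h : i ∈ A
    · rw [dif_pos h, pderiv_X]
      by_cases h2 : i = (a : ι)
      · subst h2
        simp
      · have h3 : (⟨i, h⟩ : A) ≠ a := fun h4 => h2 (by rw [← h4])
        rw [Pi.single_eq_of_ne h3, Pi.single_eq_of_ne h2, map_zero]
    · rw [dif_neg h, map_zero]
      have h2 : i ≠ (a : ι) := fun h3 => h (h3 ▸ a.2)
      rw [Pi.single_eq_of_ne h2, map_zero]

/-- extension by zero -/
noncomputable def ext0 (A : Finset ι) (x : A → ℂ) : ι → ℂ := fun b =>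
  if h : b ∈ A then x ⟨b, h⟩ else 0

theorem eval_rest (A : Finset ι) (x : A → ℂ) (P : MvPolynomial ι ℂ) :
    eval x (rest A P) = eval (ext0 A x) P := by
  induction P using MvPolynomial.induction_on with
  | C c =>
    have : rest A (C c) = C c := (rest A).commutes c
    rw [this, eval_C, eval_C]
  | add p q hp hq => simp only [map_add, hp, hq]
  | mul_X p i hp =>
    rw [map_mul, map_mul, map_mul, hp, rest_X, eval_X]
    congr 1
    unfold ext0
    by_cases h : i ∈ A
    · rw [dif_pos h, dif_pos h, eval_X]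
    · rw [dif_neg h, dif_neg h, map_zero]

theorem ini_rest (A : Finset ι) (w : ι → ℕ) (D : ℕ) (P : MvPolynomial ι ℂ) :
    ini (fun a : A => w a) D (rest A P) = rest A (ini w D P) := by
  refine wh_comm w _ (rest A) (fun i => ?_) D P
  rw [rest_X]
  by_cases h : i ∈ A
  · rw [dif_pos h]
    exact isWeightedHomogeneous_X _ _ _
  · rw [dif_neg h]
    exact isWeightedHomogeneous_zero _ _ _

/-- the substitution in `spc` -/
noncomputable def spcH (A : Finset ι) (N : ℕ) :
    MvPolynomial (E ⊕ ι) ℂ →ₐ[ℂ]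
      MvPolynomial ((E ⊕ ({b : ι // b ∉ A} × Fin N)) ⊕ (Unit ⊕ A)) ℂ :=
  aeval (Sum.elim (fun e => X (Sum.inl (Sum.inl e)))
    (fun a => if h : a ∈ A then X (Sum.inr (Sum.inr ⟨a, h⟩)) else
      ∑ j : Fin N, X (Sum.inl (Sum.inr (⟨a, h⟩, j))) * X (Sum.inr (Sum.inl ())) ^ (j : ℕ)))

theorem spcH_eq (A : Finset ι) (N : ℕ) (F : MvPolynomial (E ⊕ ι) ℂ) : spc A N F = spcH A N F :=
  rfl

theorem spc_mon [Finite E] (A : Finset ι) (w : ι → ℕ) (hw0 : ∀ a, a ∉ A → w a = 0) (D N : ℕ)
    (F : MvPolynomial (E ⊕ ι) ℂ) (hF : HiW w D F) :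
    ∀ d ∈ (spc A N F).support, D ≤ ∑ b : A, w b * d (Sum.inr (Sum.inr b)) := by
  classical
  have := Fintype.ofFinite E
  set w1 : E ⊕ ι → ℕ := Sum.elim (fun _ => 0) w with hw1
  set w2 : (E ⊕ ({b : ι // b ∉ A} × Fin N)) ⊕ (Unit ⊕ A) → ℕ :=
    Sum.elim (fun _ => 0) (Sum.elim (fun _ => 0) fun a : A => w a) with hw2
  have h1 : ∀ e ∈ F.support, D ≤ Finsupp.weight w1 e := by
    intro e he
    have h2 := hF e he
    rw [Finsupp.weight_apply, Finsupp.sum_fintype e (fun i c => c • w1 i)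
      (fun i => zero_smul _ _), Fintype.sum_sum_type]
    simp only [hw1, Sum.elim_inl, Sum.elim_inr, smul_zero, Finset.sum_const_zero, zero_add]
    refine le_trans h2 (le_of_eq (Finset.sum_congr rfl fun b _ => ?_))
    rw [smul_eq_mul, mul_comm]
  have h2 := wh_low w1 w2 (spcH A N) (fun i => ?_) D F h1
  · intro d hd
    have h3 := h2 d (by rw [← spcH_eq]; exact hd)
    rw [Finsupp.weight_apply, Finsupp.sum_fintype d (fun i c => c • w2 i)
      (fun i => zero_smul _ _)] at h3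
    simp only [Fintype.sum_sum_type, hw2, Sum.elim_inl, Sum.elim_inr, smul_zero,
      Finset.sum_const_zero, zero_add, Finset.univ_unique] at h3
    refine le_trans h3 (le_of_eq (Finset.sum_congr rfl fun b _ => ?_))
    rw [smul_eq_mul, mul_comm]
  · rw [spcH, aeval_X]
    rcases i with e | a
    · simp only [Sum.elim_inl]
      exact isWeightedHomogeneous_X _ _ _
    · simp only [Sum.elim_inr, hw1]
      by_cases h : a ∈ A
      · rw [dif_pos h]
        exact isWeightedHomogeneous_X ℂ w2 (Sum.inr (Sum.inr ⟨a, h⟩))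
      · rw [dif_neg h, hw0 a h]
        refine (weightedHomogeneousSubmodule ℂ w2 0).sum_mem fun j _ => ?_
        rw [mem_weightedHomogeneousSubmodule]
        have h4 : IsWeightedHomogeneous w2 (X (Sum.inl (Sum.inr (⟨a, h⟩, j))) :
            MvPolynomial ((E ⊕ ({b : ι // b ∉ A} × Fin N)) ⊕ (Unit ⊕ A)) ℂ) 0 :=
          isWeightedHomogeneous_X ℂ w2 _
        have h5 : IsWeightedHomogeneous w2 (X (Sum.inr (Sum.inl ())) :
            MvPolynomial ((E ⊕ ({b : ι // b ∉ A} × Fin N)) ⊕ (Unit ⊕ A)) ℂ) 0 :=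
          isWeightedHomogeneous_X ℂ w2 _
        have h6 := h4.mul (h5.pow (j : ℕ))
        rw [smul_zero, add_zero] at h6
        exact h6

/-- the special fibre -/
theorem spH_spc (A : Finset ι) (N : ℕ) (F : MvPolynomial (E ⊕ ι) ℂ)
    (p : E ⊕ ({b : ι // b ∉ A} × Fin N) → ℂ)
    (hp : ∀ (b : {b : ι // b ∉ A}) (j : Fin N), (j : ℕ) = 0 → p (Sum.inr (b, j)) = 0) :
    spH (spc A N F) p = rest A (sp (fun e => p (Sum.inl e)) F) := by
  rw [spH, spcH_eq, spcH, sp, rest]
  have h1 := MvPolynomial.comp_aeval (R := ℂ) (Sum.elim (fun e => X (Sum.inl (Sum.inl e)))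
    (fun a => if h : a ∈ A then X (Sum.inr (Sum.inr ⟨a, h⟩)) else
      ∑ j : Fin N, X (Sum.inl (Sum.inr (⟨a, h⟩, j))) * X (Sum.inr (Sum.inl ())) ^ (j : ℕ)) :
      E ⊕ ι → MvPolynomial ((E ⊕ ({b : ι // b ∉ A} × Fin N)) ⊕ (Unit ⊕ A)) ℂ)
    (MvPolynomial.aeval (Sum.elim (fun e => C (p e)) (Sum.elim (fun _ => 0) X)) :
      MvPolynomial ((E ⊕ ({b : ι // b ∉ A} × Fin N)) ⊕ (Unit ⊕ A)) ℂ →ₐ[ℂ] MvPolynomial A ℂ)
  have h2 := MvPolynomial.comp_aeval (R := ℂ) (Sum.elim (fun e => C (p (Sum.inl e))) X :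
      E ⊕ ι → MvPolynomial ι ℂ)
    (MvPolynomial.aeval (fun a => if h : a ∈ A then X ⟨a, h⟩ else 0) :
      MvPolynomial ι ℂ →ₐ[ℂ] MvPolynomial A ℂ)
  have h3 := DFunLike.congr_fun h1 F
  have h4 := DFunLike.congr_fun h2 F
  rw [AlgHom.comp_apply] at h3 h4
  rw [h3, h4]
  congr 2
  funext s
  rcases s with e | a
  · simp only [Sum.elim_inl, aeval_X, aeval_C]
    rfl
  · simp only [Sum.elim_inr, aeval_X]
    by_cases h : a ∈ A
    · rw [dif_pos h, dif_pos h, aeval_X]
      rfl
    · rw [dif_neg h, dif_neg h, map_sum]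
      refine Finset.sum_eq_zero fun j _ => ?_
      rw [map_mul, map_pow, aeval_X, aeval_X]
      simp only [Sum.elim_inl, Sum.elim_inr]
      by_cases hj : (j : ℕ) = 0
      · rw [hp ⟨a, h⟩ j hj, C_0, zero_mul]
      · rw [zero_pow hj, mul_zero]

end

section

open SP.ZB8Aux SP.CZC8Aux SP.EVF TS.VAAux TS.VPAux TS.VSAux RO.VGAux RO.CVSQAux

variable {ι : Type} [Fintype ι] [DecidableEq ι]

/-- the part of small weight of the special fibre has large degree -/
theorem sp_lo (w : ι → ℕ) (D k : ℕ) (G : MvPolynomial (ι ⊕ ι) ℂ) (p : ι → ℂ)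
    (h : ∀ d ∈ (sp p G).support, D ≤ Finsupp.weight w d ∨ k ≤ Finsupp.degree d) :
    (∀ d ∈ (sp p G - sp p (hi w D G)).support, k ≤ Finsupp.degree d) ∧
      ini w D (sp p G) = ini w D (sp p (hi w D G)) := by
  classical
  set lo : MvPolynomial (ι ⊕ ι) ℂ :=
    ∑ e ∈ G.support.filter (fun e => ¬ D ≤ ∑ b, w b * e (Sum.inr b)), monomial e (G.coeff e)
    with hlo
  have h1 : G = hi w D G + lo := by
    conv_lhs => rw [G.as_sum]
    rw [hi, hlo, Finset.sum_filter_add_sum_filter_not]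
  have h2 : sp p G = sp p (hi w D G) + sp p lo := by
    conv_lhs => rw [h1]
    rw [sp_add]
  have h3 : ∀ d, D ≤ Finsupp.weight w d → (sp p lo).coeff d = 0 := by
    intro d hd
    by_contra h4
    obtain ⟨e, he, rfl⟩ := support_sp p lo d h4
    rw [mem_support_iff, hlo, coeff_sum] at he
    obtain ⟨e', he', h5⟩ := Finset.exists_ne_zero_of_sum_ne_zero he
    rw [coeff_monomial] at h5
    have h6 : e' = e := by
      by_contra h7
      rw [if_neg h7] at h5
      exact h5 rfl
    subst h6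
    rw [weight_rs] at hd
    exact (Finset.mem_filter.1 he').2 hd
  have h4 : ∀ d, ¬ D ≤ Finsupp.weight w d → (sp p (hi w D G)).coeff d = 0 := by
    intro d hd
    by_contra h5
    obtain ⟨e, he, rfl⟩ := support_sp p (hi w D G) d h5
    apply hd
    rw [weight_rs]
    exact hiW_hi w D G e he
  have h5 : sp p G - sp p (hi w D G) = sp p lo := by rw [h2]; ring
  constructor
  · intro d hd
    rw [h5] at hd
    have hd1 : ¬ D ≤ Finsupp.weight w d := fun h6 => (mem_support_iff.1 hd) (h3 d h6)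
    have hd2 : d ∈ (sp p G).support := by
      rw [mem_support_iff, h2, coeff_add, h4 d hd1, zero_add]
      exact mem_support_iff.1 hd
    rcases h d hd2 with h6 | h6
    · exact absurd h6 hd1
    · exact h6
  · have h6 : ini w D (sp p lo) = 0 := by
      unfold ini
      ext d
      rw [coeff_weightedHomogeneousComponent, coeff_zero]
      by_cases hd : Finsupp.weight w d = D
      · rw [if_pos hd, h3 d hd.ge]
      · rw [if_neg hd]
    have h7 : ini w D (sp p G) = ini w D (sp p (hi w D G)) + ini w D (sp p lo) := by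
      conv_lhs => rw [h2]
      unfold ini
      rw [map_add]
    rw [h7, h6, add_zero]

/-- parameters and leading coefficients -/
def Qp {E : Type} (S : Set (ι → ℂ)) (Q : Set (E ⊕ Unit → ℂ)) : Set ((E ⊕ ι) ⊕ Unit → ℂ) :=
  {v | (fun a => v (Sum.inl (Sum.inr a))) ∈ S ∧
    (Sum.elim (fun e => v (Sum.inl (Sum.inl e))) fun _ => v (Sum.inr ())) ∈ Q}

theorem Qp_QU {E : Type} {S : Set (ι → ℂ)} (hS : Constructible S)
    {Q : Set (E ⊕ Unit → ℂ)} (hQ : QU Q) : QU (Qp S Q) := by
  constructor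
  · refine Constructible.and ?_ ?_
    · have h1 := Constructible.preimage (fun a : ι => (X (Sum.inl (Sum.inr a)) :
        MvPolynomial ((E ⊕ ι) ⊕ Unit) ℂ)) hS
      simpa only [eval_X] using h1
    · have h1 := Constructible.preimage (Sum.elim (fun e : E => (X (Sum.inl (Sum.inl e)) :
        MvPolynomial ((E ⊕ ι) ⊕ Unit) ℂ)) fun _ : Unit => X (Sum.inr ())) hQ.1
      convert h1 using 2
      ext v
      have e1 : (Sum.elim (fun e => v (Sum.inl (Sum.inl e))) fun _ => v (Sum.inr ())) =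
          fun j : E ⊕ Unit => eval v ((Sum.elim (fun e : E => (X (Sum.inl (Sum.inl e)) :
            MvPolynomial ((E ⊕ ι) ⊕ Unit) ℂ)) fun _ : Unit => X (Sum.inr ())) j) := by
        funext j
        rcases j with j | j
        · simp only [Sum.elim_inl, eval_X]
        · simp only [Sum.elim_inr, eval_X]
      rw [e1]
  · rintro v ⟨-, hv⟩
    exact hQ.2 _ hv

/-- change of coordinates -/
theorem vol_chart (P : HodgeMeasure) {E : Type} [Finite E] (f : MvPolynomial ι ℂ)
    (S : Set (ι → ℂ)) (hS : Constructible S) (w : ι → ℕ) (D k : ℕ)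
    (φ : ι → MvPolynomial (ι ⊕ ι) ℂ)
    (hφ : ∀ p ∈ S, IsCo p (fun a => sp p (φ a)) ∧
      ∀ d ∈ (bind₁ (fun a => sp p (φ a)) f).support,
        D ≤ Finsupp.weight w d ∨ k ≤ Finsupp.degree d)
    (Q : Set (E ⊕ Unit → ℂ)) (hQ : QU Q) (m : ℕ) (hm : m < k) :
    vol P.rat xq (ZL f S Q m) = vol P.rat xq {z : (E ⊕ ι → ℂ) × (ι → PowerSeries ℂ) |
      (∀ b, PowerSeries.coeff 0 (z.2 b) = 0) ∧ Lead (Qp S Q) m z.1
        (evF (rename (Sum.map Sum.inr id) (hi w D (bind₁ φ f)) :
          MvPolynomial ((E ⊕ ι) ⊕ ι) ℂ) z.1 z.2)} := by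
  classical
  set G : MvPolynomial (ι ⊕ ι) ℂ := bind₁ φ f with hG
  set F : MvPolynomial (ι ⊕ ι) ℂ := hi w D G with hF
  set F' : MvPolynomial ((E ⊕ ι) ⊕ ι) ℂ := rename (Sum.map Sum.inr id) F with hF'
  obtain ⟨n, hn⟩ := cy_lead0 (E := E) hQ.1 m f
  have h4 := stmt_CVF8 P E ι φ S hS (fun p hp => (hφ p hp).1)
    {z : (E → ℂ) × (ι → PowerSeries ℂ) | Lead Q m z.1 (aeval z.2 f)} n (hn n le_rfl)
  have h5 : ZL f S Q m = {z : (E → ℂ) × (ι → PowerSeries ℂ) |
      (fun a => PowerSeries.coeff 0 (z.2 a)) ∈ S ∧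
        z ∈ {z : (E → ℂ) × (ι → PowerSeries ℂ) | Lead Q m z.1 (aeval z.2 f)}} := rfl
  rw [h5, h4]
  congr 1
  ext ⟨p, y⟩
  have e1 : (fun a => p (Sum.inr a)) ∈ S → (∀ b, PowerSeries.coeff 0 (y b) = 0) →
      ∀ l < k, PowerSeries.coeff l (evF F' p y) =
        PowerSeries.coeff l (aeval (fun a => evF (φ a) (fun b => p (Sum.inr b)) y) f) := by
    intro hp hy l hl
    rw [hF', evF_rename, evF_bind, evF_sp, evF_sp, hF, ← hG]
    have h6 := coeff_high (sp (fun a => p (Sum.inr a)) G - sp (fun a => p (Sum.inr a))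
      (hi w D G)) k (sp_lo w D k G _ (by
        intro d hd
        refine (hφ _ hp).2 d ?_
        rw [sp_bind]
        exact hd)).1 y hy l hl
    rw [map_sub, map_sub, sub_eq_zero] at h6
    exact h6.symm
  constructor
  · rintro ⟨h7, h8, h9, h10⟩
    have h7' : (fun a => p (Sum.inr a)) ∈ S := h7
    refine ⟨h8, ?_, ?_⟩
    · intro j hj
      dsimp only
      rw [e1 h7' h8 j (by omega)]
      exact h9 j hj
    · refine ⟨h7, ?_⟩
      dsimp only [Sum.elim_inl, Sum.elim_inr]
      rw [e1 h7' h8 m hm]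
      exact h10
  · rintro ⟨h8, h9, h7, h10⟩
    have h7' : (fun a => p (Sum.inr a)) ∈ S := h7
    have h8' : ∀ b, PowerSeries.coeff 0 (y b) = 0 := h8
    dsimp only [Sum.elim_inl, Sum.elim_inr] at h10
    rw [e1 h7' h8' m hm] at h10
    refine ⟨h7', h8', ?_, h10⟩
    intro j hj
    have h11 := h9 j hj
    dsimp only at h11
    rw [e1 h7' h8' j (by omega)] at h11
    exact h11

end

end VG9Aux

open VG9Aux SP.ZB8Aux SP.CZC8Aux in
theorem stmt_VG9 (hFUB : Stmt_FUB9) (hVGC : Stmt_VGC9) (hREC : Stmt_REC9) : Stmt_VG9 := by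
  intro P ι _ _ f S A w D hS hw hw0 hD hfam E _ Q hQ
  refine hREC _ D (∑ a ∈ A, w a) hD ?_
  intro m hm
  classical
  set k := m + 2 + D with hk
  obtain ⟨φ, hφ⟩ := hfam k (by omega)
  set G : MvPolynomial (ι ⊕ ι) ℂ := bind₁ φ f with hG
  set F : MvPolynomial (ι ⊕ ι) ℂ := hi w D G with hF
  set F' : MvPolynomial ((E ⊕ ι) ⊕ ι) ℂ := rename (Sum.map Sum.inr id) F with hF'
  set Q' := Qp S Q with hQ'
  have hQ'U : QU Q' := Qp_QU hS hQ
  have hHi : HiW w D F' := by
    intro d hd
    rw [hF', mem_support_iff] at hd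
    obtain ⟨u, hu, hu2⟩ := coeff_rename_ne_zero _ _ _ hd
    have h8 := hiW_hi w D G u (mem_support_iff.2 hu2)
    refine le_trans h8 (Finset.sum_le_sum fun b _ => ?_)
    rw [← hu]
    have hinj : Function.Injective (Sum.map Sum.inr id : ι ⊕ ι → (E ⊕ ι) ⊕ ι) :=
      Function.Injective.sumMap Sum.inr_injective Function.injective_id
    have h9 : Finsupp.mapDomain (Sum.map Sum.inr id : ι ⊕ ι → (E ⊕ ι) ⊕ ι) u (Sum.inr b) =
        u (Sum.inr b) := Finsupp.mapDomain_apply hinj u (Sum.inr b)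
    rw [h9]
  -- the parameters
  set T : Set ((E ⊕ ι) ⊕ ({b : ι // b ∉ A} × Fin k) → ℂ) :=
    {p | (fun a => p (Sum.inl (Sum.inr a))) ∈ S ∧
      ∀ (b : {b : ι // b ∉ A}) (j : Fin k), (j : ℕ) = 0 → p (Sum.inr (b, j)) = 0} with hT
  have hHW : HW9 (spc A k F') T (fun a : A => w a) D := by
    refine ⟨fun a => hw a a.2, hD, spc_mon A w hw0 D k F' hHi, ?_⟩
    rintro p ⟨hp1, hp2⟩ x hx
    rw [spH_spc A k F' p hp2] at hx
    set q : ι → ℂ := fun a => p (Sum.inl (Sum.inr a)) with hq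
    have h1 : sp (fun e => p (Sum.inl e)) F' = sp q F := by
      rw [hF', sp, aeval_rename, sp]
      congr 2
      funext s
      rcases s with s | s <;> rfl
    rw [h1, ini_rest] at hx
    obtain ⟨-, h2, h3⟩ := hφ q hp1
    have h4 := (sp_lo w D k G q (by
        intro d hd
        refine h2 d ?_
        rw [sp_bind]
        exact hd)).2
    have h5 : ext0 A x = 0 := by
      refine h3 _ ?_ ?_
      · intro b hb
        unfold ext0
        rw [dif_neg hb]
      · intro a ha
        rw [sp_bind, ← hG, h4]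
        have h6 := hx ⟨a, ha⟩
        rw [pderiv_rest, eval_rest] at h6
        exact h6
    funext a
    have h6 := congrFun h5 (a : ι)
    unfold ext0 at h6
    rw [dif_pos a.2] at h6
    exact h6
  have hQ2 : QU (Qspc A k Q') := by
    constructor
    · unfold Qspc
      refine Constructible.and ?_ ?_
      · have h1 := Constructible.preimage (Sum.elim
          (fun e : E ⊕ ι => (X (Sum.inl (Sum.inl e)) :
            MvPolynomial (((E ⊕ ι) ⊕ ({b : ι // b ∉ A} × Fin k)) ⊕ Unit) ℂ))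
          fun _ : Unit => X (Sum.inr ())) hQ'U.1
        convert h1 using 2
        ext v
        have e1 : (Sum.elim (fun e => v (Sum.inl (Sum.inl e))) fun _ => v (Sum.inr ())) =
            fun j : (E ⊕ ι) ⊕ Unit => eval v ((Sum.elim (fun e : E ⊕ ι =>
              (X (Sum.inl (Sum.inl e)) :
              MvPolynomial (((E ⊕ ι) ⊕ ({b : ι // b ∉ A} × Fin k)) ⊕ Unit) ℂ))
              fun _ : Unit => X (Sum.inr ())) j) := by
          funext j
          rcases j with j | j
          · simp only [Sum.elim_inl, eval_X]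
          · simp only [Sum.elim_inr, eval_X]
        rw [e1]
      · refine Constructible.all fun b => Constructible.all fun j => ?_
        by_cases hj : (j : ℕ) = 0
        · have h1 := Constructible.zero (X (Sum.inl (Sum.inr (b, j))) :
            MvPolynomial (((E ⊕ ι) ⊕ ({b : ι // b ∉ A} × Fin k)) ⊕ Unit) ℂ)
          convert h1 using 1
          ext v
          simp [hj]
        · have h1 := Constructible.zero (0 :
            MvPolynomial (((E ⊕ ι) ⊕ ({b : ι // b ∉ A} × Fin k)) ⊕ Unit) ℂ)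
          convert h1 using 1
          ext v
          simp [hj]
    · rintro z ⟨hz, -⟩
      exact hQ'U.2 _ hz
  have hsub : ∀ u ∈ Qspc A k Q', (fun e => u (Sum.inl e)) ∈ T := by
    rintro u ⟨⟨hu1, -⟩, hu2⟩
    exact ⟨hu1, hu2⟩
  have hrec := hVGC P ((E ⊕ ι) ⊕ ({b : ι // b ∉ A} × Fin k)) A (fun a : A => w a) D
    (spc A k F') T hHW (Qspc A k Q') hQ2 hsub m hm
  have hval : ∀ m' < k, vol P.rat xq (ZL f S Q m') =
      xq ^ (k * Aᶜ.card) * vol P.rat xq (H0 (spc A k F') (Qspc A k Q') m') := by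
    intro m' hm'
    rw [vol_chart P f S hS w D k φ (fun p hp => ⟨(hφ p hp).1, (hφ p hp).2.1⟩) Q hQ m' hm']
    exact hFUB P (E ⊕ ι) ι F' A Q' hQ'U m' k hm'
  have hsum : (∑ a : A, w a) = ∑ a ∈ A, w a := Finset.sum_coe_sort A w
  rw [hsum] at hrec
  rw [hval (m + 1 + D) (by omega), hval (m + D) (by omega), hval (m + 1) (by omega),
    hval m (by omega)]
  linear_combination (xq ^ (k * Aᶜ.card)) * hrec

end Pool.Agent.Mono.C9
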