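import Pool.Agent.Work.Monodromy9.EGG9
import Pool.Agent.Work.Monodromy9.COMM9

/-!
# Block VGG9 (helper94): volumes and eigenvalues for the two structures
-/

set_option autoImplicit false
set_option linter.unusedSectionVars false

namespace Pool.Agent.Mono.C9

open MvPolynomial TS RO SP PC

open EGG9Aux COM9Aux in
theorem stmt_VGG9 (hSTR : Stmt_STR9) (hFAM : Stmt_FAM9) (hVG : Stmt_VG9) (hEGG : Stmt_EGG9) :
    Stmt_VGG9 := by
  intro ι _ _ f htd S Z s hS
  have core : ∀ (A : Finset ι) (w : ι → ℕ) (D : ℕ) (Y : ι → MvPolynomial ι ℂ)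
      (Φ : MvPolynomial ι (MvPolynomial ι ℂ)), Str9 f S A w D Y s Φ →
      ((∑ a ∈ A, w a : ℕ) : ℚ) / (D : ℚ) ∈ EV f → Gd f S := by
    intro A w D Y Φ hStr hr P E _ Q hQ
    have h1 := hVG P ι f S A w D hS hStr.hw hStr.hw0 hStr.hD
      (fun k hk => hFAM ι f S A w D Y s Φ hStr k hk) E Q hQ
    refine stmt_Q1.1 _ _ _ ?_ h1
    rintro r (rfl | hr')
    · exact Or.inl rfl
    · rw [Set.mem_singleton_iff] at hr'
      rw [hr']
      exact Or.inr hr
  by_cases hne : S.Nonempty
  · obtain ⟨q, hq⟩ := hne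
    constructor
    · intro hT
      obtain ⟨Y, Φ, hStr⟩ := (hSTR ι f S Z s).1 hT
      have hTq : TZ f {q} Z s := by
        refine ⟨?_, ?_, ?_, hT.eq⟩
        · intro q' hq'; rw [Set.mem_singleton_iff.1 hq']; exact hT.crit q hq
        · intro q' hq'; rw [Set.mem_singleton_iff.1 hq']; exact hT.det q hq
        · intro q' hq'; rw [Set.mem_singleton_iff.1 hq']; exact hT.s0 q hq
      have h1 := (hEGG ι f htd q Z s).1 hTq
      rw [val_TZ Z] at h1
      exact core Z _ 2 Y Φ hStr h1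
    · intro b h w e hT
      obtain ⟨Y, Φ, hStr⟩ := (hSTR ι f S Z s).2 b h w e hT
      have hTq : TH f {q} Z b h s w e := by
        refine ⟨hT.hb, hT.he, ?_, ?_, ?_, ?_, ?_, ?_, hT.eq⟩
        · intro q' hq'; rw [Set.mem_singleton_iff.1 hq']; exact hT.crit q hq
        · intro q' hq'; rw [Set.mem_singleton_iff.1 hq']; exact hT.det q hq
        · intro q' hq'; rw [Set.mem_singleton_iff.1 hq']; exact hT.h0 q hq
        · intro q' hq'; rw [Set.mem_singleton_iff.1 hq']; exact hT.h1 q hq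
        · intro q' hq'; rw [Set.mem_singleton_iff.1 hq']; exact hT.s0 q hq
        · intro q' hq'; rw [Set.mem_singleton_iff.1 hq']; exact hT.w0 q hq
      have h1 := (hEGG ι f htd q Z s).2 b h w e hTq
      rw [val_TH Z b hT.hb e hT.he] at h1
      exact core (insert b Z) _ (2 * e) Y Φ hStr h1
  · rw [Set.not_nonempty_iff_eq_empty] at hne
    subst hne
    exact ⟨fun _ => gd_empty f, fun _ _ _ _ _ => gd_empty f⟩

end Pool.Agent.Mono.C9
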