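import Pool.Agent.Work.Monodromy.Interface9
import Pool.Agent.Work.Monodromy4.WPF

/-!
# Block W5F9 (helper72): long finite witnesses give roots of the Bernstein polynomial
-/

set_option autoImplicit false
set_option linter.unusedSectionVars false

namespace Pool.Agent.Mono.C9

open MvPolynomial TS RO SP PC Filter

namespace W5F9Aux

variable {ι : Type} [DecidableEq ι]

/-- vectors which behave like `f^{β-i}`, `i ≤ L` -/
structure FModel {V : Type} [AddCommGroup V] [Module ℂ V] (w : BP.WMod ℂ V ι)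
    (f : MvPolynomial ι ℂ) (β : ℂ) (u : ℕ → V) (L : ℕ) : Prop where
  der : ∀ i < L, ∀ a, w.D' a (u i) = (β - i) • w.pX (pderiv a f) (u (i + 1))
  mul : ∀ i < L, w.pX f (u (i + 1)) = u i

theorem FModel.pow {V : Type} [AddCommGroup V] [Module ℂ V] {w : BP.WMod ℂ V ι}
    {f : MvPolynomial ι ℂ} {β : ℂ} {u : ℕ → V} {L : ℕ}
    (M : FModel w f β u L) (i n : ℕ) (h : i + n ≤ L) : w.pX (f ^ n) (u (i + n)) = u i := by
  induction n with
  | zero => simp
  | succ n ih => rw [pow_succ, WBAux.pX_mul, ← add_assoc, M.mul (i + n) (by omega), ih (by omega)]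

/-- endomorphisms of all modules over the Weyl algebra -/
def UEnd (ι : Type) [DecidableEq ι] : Type 1 :=
  ∀ (V : Type) [AddCommGroup V] [Module ℂ V], BP.WMod ℂ V ι → Module.End ℂ V

/-- `Q` acts on families as `T` acts on the models -/
def UActs (f : MvPolynomial ι ℂ) (β : ℂ) (Q : Module.End ℂ (MvPolynomial ι ℂ)) (T : UEnd ι) :
    Prop :=
  ∀ (h : ℂ → MvPolynomial ι ℂ) (m : ℕ), WPF.PF h → ∃ (h' : ℂ → MvPolynomial ι ℂ) (m' : ℕ),
    m ≤ m' ∧ WPF.PF h' ∧ (∀ᶠ k : ℕ in atTop, Q (h k * f ^ (k - m)) = h' k * f ^ (k - m')) ∧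
      ∀ (V : Type) [AddCommGroup V] [Module ℂ V] (w : BP.WMod ℂ V ι) (u : ℕ → V) (L : ℕ),
        m' ≤ L → FModel w f β u L → T V w (w.pX (h β) (u m)) = w.pX (h' β) (u m')

variable {f : MvPolynomial ι ℂ} {β : ℂ}

theorem acts_add {Q Q' : Module.End ℂ (MvPolynomial ι ℂ)}
    {T T' : UEnd ι} (H : UActs f β Q T) (H' : UActs f β Q' T') :
    UActs f β (Q + Q') (fun V _ _ w => T V w + T' V w) := by
  intro h m hh
  obtain ⟨h1, m1, l1, hh1, e1, t1⟩ := H h m hh
  obtain ⟨h2, m2, l2, hh2, e2, t2⟩ := H' h m hh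
  refine ⟨fun c => h1 c * f ^ m2 + h2 c * f ^ m1, m1 + m2, by omega,
    (hh1.mul (WPF.PF.const _)).add (hh2.mul (WPF.PF.const _)), ?_, ?_⟩
  · filter_upwards [e1, e2, eventually_ge_atTop (m1 + m2)] with k a1 a2 hk
    obtain ⟨r, rfl⟩ := Nat.exists_eq_add_of_le hk
    rw [LinearMap.add_apply, a1, a2, show m1 + m2 + r - m1 = m2 + r by omega,
      show m1 + m2 + r - m2 = m1 + r by omega, show m1 + m2 + r - (m1 + m2) = r by omega]
    ring
  · intro V _ _ w u L hL M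
    rw [LinearMap.add_apply, t1 V w u L (by omega) M, t2 V w u L (by omega) M, WBAux.pX_add,
      WBAux.pX_mul, WBAux.pX_mul, M.pow _ _ hL, add_comm m1 m2, M.pow _ _ (by omega)]

theorem acts_mul {Q Q' : Module.End ℂ (MvPolynomial ι ℂ)}
    {T T' : UEnd ι} (H : UActs f β Q T) (H' : UActs f β Q' T') :
    UActs f β (Q * Q') (fun V _ _ w => T V w * T' V w) := by
  intro h m hh
  obtain ⟨h1, m1, l1, hh1, e1, t1⟩ := H' h m hh
  obtain ⟨h2, m2, l2, hh2, e2, t2⟩ := H h1 m1 hh1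
  refine ⟨h2, m2, by omega, hh2, ?_, ?_⟩
  · filter_upwards [e1, e2] with k a1 a2
    rw [Module.End.mul_apply, a1, a2]
  · intro V _ _ w u L hL M
    rw [Module.End.mul_apply, t1 V w u L (by omega) M, t2 V w u L (by omega) M]

theorem acts_smul (c : ℂ) : UActs f β (algebraMap ℂ _ c) (fun _ _ _ _ => algebraMap ℂ _ c) := by
  intro h m hh
  refine ⟨fun x => C c * h x, m, le_rfl, (WPF.PF.const _).mul hh, ?_, ?_⟩
  · filter_upwards with k
    rw [Module.algebraMap_end_apply, MvPolynomial.smul_eq_C_mul, mul_assoc]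
  · intro V _ _ w u L hL M
    rw [Module.algebraMap_end_apply, WBAux.pX_mul, WBAux.pX_C]

theorem acts_X (i : ι) : UActs f β (LinearMap.mulLeft ℂ (X i)) (fun _ _ _ w => w.X' i) := by
  intro h m hh
  refine ⟨fun x => X i * h x, m, le_rfl, (WPF.PF.const _).mul hh, ?_, ?_⟩
  · filter_upwards with k
    rw [LinearMap.mulLeft_apply, mul_assoc]
  · intro V _ _ w u L hL M
    rw [WBAux.pX_mul, BP.WMod.pX_X]

theorem acts_D (i : ι) : UActs f β
    ((pderiv i : Derivation ℂ (MvPolynomial ι ℂ) (MvPolynomial ι ℂ)) :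
      MvPolynomial ι ℂ →ₗ[ℂ] MvPolynomial ι ℂ) (fun _ _ _ w => w.D' i) := by
  intro h m hh
  refine ⟨fun x => f * pderiv i (h x) + C (x - m) * h x * pderiv i f, m + 1, by omega, ?_, ?_, ?_⟩
  · refine ((WPF.PF.const _).mul (hh.pderiv i)).add
      (((?_ : WPF.PF _).mul hh).mul (WPF.PF.const _))
    exact (WPF.PF.id.sub (WPF.PF.const (C (m : ℂ)))).congr fun c => by rw [C_sub]
  · filter_upwards [eventually_ge_atTop (m + 1)] with k hk
    exact WPF.pderiv_fam f h i m k hk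
  · intro V _ _ w u L hL M
    have h1 := LinearMap.congr_fun (w.D_pX i (h β)) (u m)
    rw [Module.End.mul_apply, LinearMap.add_apply, Module.End.mul_apply,
      M.der m (by omega)] at h1
    rw [h1, WBAux.pX_add, mul_assoc (C _), WBAux.pX_mul w (C _), WBAux.pX_C,
      WBAux.pX_mul w f, WBAux.pX_comm w f, M.mul m (by omega), WBAux.pX_mul w (h β), map_smul,
      add_comm]

/-- every differential operator acts on the models -/
theorem exists_acts (Q : Module.End ℂ (MvPolynomial ι ℂ)) (hQ : Q ∈ Weyl ι) :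
    ∃ T : UEnd ι, UActs f β Q T := by
  unfold Weyl at hQ
  induction hQ using Algebra.adjoin_induction with
  | mem x hx =>
    rcases hx with ⟨i, rfl⟩ | ⟨i, rfl⟩
    · exact ⟨_, acts_X i⟩
    · exact ⟨_, acts_D i⟩
  | algebraMap c => exact ⟨_, acts_smul c⟩
  | add x y _ _ hx hy =>
    obtain ⟨T, hT⟩ := hx
    obtain ⟨T', hT'⟩ := hy
    exact ⟨_, acts_add hT hT'⟩
  | mul x y _ _ hx hy =>
    obtain ⟨T, hT⟩ := hx
    obtain ⟨T', hT'⟩ := hy
    exact ⟨_, acts_mul hT hT'⟩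

/-- long models in which `f u_0 = 0` give a root -/
theorem root_of_models (hM : ∀ L : ℕ, ∃ (V : Type) (_ : AddCommGroup V) (_ : Module ℂ V)
    (w : BP.WMod ℂ V ι) (u : ℕ → V), u 0 ≠ 0 ∧ w.pX f (u 0) = 0 ∧ FModel w f β u L)
    {b : Polynomial ℂ} (hb : IsEvBernstein f b) : b.eval β = 0 := by
  classical
  obtain ⟨P, hP⟩ := hb
  have key : ∀ i : ℕ, ∃ (T : UEnd ι) (h : ℂ → MvPolynomial ι ℂ) (m : ℕ), WPF.PF h ∧
      (∀ᶠ k : ℕ in atTop, (P.coeff i : Module.End ℂ (MvPolynomial ι ℂ)) (f ^ (k + 1)) =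
        h k * f ^ (k - m)) ∧
        ∀ (V : Type) [AddCommGroup V] [Module ℂ V] (w : BP.WMod ℂ V ι) (u : ℕ → V) (L : ℕ),
          m ≤ L → FModel w f β u L → T V w (w.pX f (u 0)) = w.pX (h β) (u m) := by
    intro i
    obtain ⟨T, hT⟩ := exists_acts (f := f) (β := β)
      (P.coeff i : Module.End ℂ (MvPolynomial ι ℂ)) (P.coeff i).2
    obtain ⟨h, m, -, hh, e, t⟩ := hT (fun _ => f) 0 (WPF.PF.const f)
    refine ⟨T, h, m, hh, ?_, t⟩
    filter_upwards [e] with k hk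
    rw [← hk, Nat.sub_zero, pow_succ']
  choose T h m hh e t using key
  obtain ⟨n, hn⟩ : ∃ n, n = P.natDegree + 1 := ⟨_, rfl⟩
  obtain ⟨N, hN⟩ : ∃ N, ∀ i ∈ Finset.range n, m i ≤ N :=
    ⟨(Finset.range n).sup m, fun i hi => Finset.le_sup hi⟩
  have hH : WPF.PF fun c => ∑ i ∈ Finset.range n, C (c ^ i) * (h i c * f ^ (N - m i)) := by
    refine WPF.PF.sum _ fun i _ => ?_
    refine WPF.PF.mul ?_ ((hh i).mul (WPF.PF.const _))
    exact (WPF.PF.poly (Polynomial.X ^ i)).congr fun c => by simp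
  obtain ⟨V, i1, i2, w, u, h0, hf, M⟩ := hM N
  have hE : ∀ᶠ k : ℕ in atTop, (∑ i ∈ Finset.range n, C ((k : ℂ) ^ i) *
      (h i k * f ^ (N - m i))) = C (b.eval (k : ℂ)) * f ^ N := by
    have h1 : ∀ᶠ k : ℕ in atTop, ∀ i ∈ Finset.range n,
        (P.coeff i : Module.End ℂ (MvPolynomial ι ℂ)) (f ^ (k + 1)) = h i k * f ^ (k - m i) :=
      (Finset.eventually_all _).2 fun i _ => e i
    filter_upwards [hP, h1, eventually_ge_atTop N] with k hk h1 hkN
    obtain ⟨r, rfl⟩ := Nat.exists_eq_add_of_le hkN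
    by_cases hf0 : f = 0
    · exfalso
      obtain ⟨V, i1, i2, w, u, h0, hf, M⟩ := hM 1
      have h3 := M.mul 0 (by omega)
      rw [hf0, map_zero] at h3
      exact h0 h3.symm
    have hfr : f ^ r ≠ 0 := pow_ne_zero _ hf0
    apply mul_right_cancel₀ hfr
    rw [Finset.sum_mul, mul_assoc, ← pow_add, ← hk, wact_eq_sum P _ _ n (by omega)]
    refine Finset.sum_congr rfl fun i hi => ?_
    rw [h1 i hi, mul_assoc, mul_assoc, ← pow_add]
    congr 3
    have := hN i hi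
    omega
  have hE2 := WPF.PF.ext hH ((WPF.PF.poly b).mul (WPF.PF.const (f ^ N))) hE β
  have h3 := congrArg (fun p => w.pX p (u N)) hE2
  rw [WBAux.pX_mul, WBAux.pX_C] at h3
  have h4 : w.pX (f ^ N) (u N) = u 0 := by simpa using M.pow 0 N (by omega)
  rw [h4, map_sum, LinearMap.sum_apply] at h3
  have h5 : ∀ i ∈ Finset.range n, w.pX (C (β ^ i) * (h i β * f ^ (N - m i))) (u N) = 0 := by
    intro i hi
    have h6 := M.pow (m i) (N - m i) (by have := hN i hi; omega)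
    rw [Nat.add_sub_cancel' (hN i hi)] at h6
    rw [WBAux.pX_mul, WBAux.pX_C, WBAux.pX_mul, h6, ← t i V w u N (hN i hi) M, hf, map_zero,
      smul_zero]
  rw [Finset.sum_eq_zero h5] at h3
  exact (smul_eq_zero.1 h3.symm).resolve_right h0

end W5F9Aux

theorem stmt_W5F9 : Stmt_W5F9 := by
  intro ι _ _ f β hβ hW b hb
  obtain ⟨P, hP⟩ := hb
  refine W5F9Aux.root_of_models (f := f) (β := β) ?_ ⟨P, Eventually.of_forall hP⟩
  intro L
  obtain ⟨V, i1, i2, w, v, hv0, hf0, -, hD, hf⟩ := hW L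
  have hne : ∀ l : ℕ, β - l ≠ 0 := fun l => sub_ne_zero.2 (hβ l)
  obtain ⟨c, hc⟩ : ∃ c : ℕ → ℂ, ∀ i, c i = ∏ l ∈ Finset.range i, (β - l)⁻¹ := ⟨_, fun _ => rfl⟩
  have hcs : ∀ i, c (i + 1) * (β - i) = c i := by
    intro i
    rw [hc, hc, Finset.prod_range_succ, mul_assoc, inv_mul_cancel₀ (hne i), mul_one]
  refine ⟨V, i1, i2, w, fun i => c i • v i, ?_, ?_, ?_, ?_⟩
  · change c 0 • v 0 ≠ 0
    rw [hc]
    simpa using hv0
  · change w.pX f (c 0 • v 0) = 0
    rw [map_smul, hf0, smul_zero]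
  · intro i hi a
    change w.D' a (c i • v i) = (β - i) • w.pX (pderiv a f) (c (i + 1) • v (i + 1))
    rw [map_smul, hD i hi, map_smul, smul_smul, mul_comm, hcs]
  · intro i hi
    change w.pX f (c (i + 1) • v (i + 1)) = c i • v i
    rw [map_smul, hf i hi, smul_smul, hcs]

end Pool.Agent.Mono.C9
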