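import Pool.Agent.Work.Monodromy.Interface9

/-!
# WG9 : witnesses from slices (helper46)

`N` is the module of the expressions `∑ h_i e_i` (`e_i` behaves like `f^{β-i}/Γ(β-i+1)`) with
`∇_a (h e_i) = (∂_a h) e_i + (h ∂_a f) e_{i+1}`.  The witness module is the quotient of `N` by the
smallest submodule which contains the relations, is stable under the `∇_a`, `a ∈ A`, and is
saturated with respect to the functions which do not vanish at `q`.
-/

set_option autoImplicit false

namespace Pool.Agent.Mono.C9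

open MvPolynomial TS RO SP PC

namespace WG9Aux

variable {ι : Type}

theorem pderiv_comm (i j : ι) (g : MvPolynomial ι ℂ) :
    pderiv i (pderiv j g) = pderiv j (pderiv i g) := by
  classical
  induction g using MvPolynomial.induction_on with
  | C a => simp
  | add p q hp hq => simp [hp, hq]
  | mul_X p k hp =>
    simp only [Derivation.leibniz, pderiv_X, map_add, smul_eq_mul, hp]
    have h : ∀ a b c : ι, pderiv a ((Pi.single b 1 : ι → MvPolynomial ι ℂ) c) = 0 := by
      intro a b c
      by_cases hbc : c = b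
      · subst hbc; simp
      · rw [Pi.single_eq_of_ne hbc, map_zero]
    simp only [h]
    ring

/-- the module -/
abbrev N (ι : Type) : Type := ℕ →₀ MvPolynomial ι ℂ

/-- `∇_a (h e_i) = (∂_a h) e_i + (h ∂_a f) e_{i+1}` -/
noncomputable def nb (f : MvPolynomial ι ℂ) (a : ι) : N ι →ₗ[ℂ] N ι :=
  Finsupp.lsum ℂ fun i => (Finsupp.lsingle i).comp
    ((pderiv a : Derivation ℂ (MvPolynomial ι ℂ) (MvPolynomial ι ℂ)) :
      MvPolynomial ι ℂ →ₗ[ℂ] MvPolynomial ι ℂ) +
    (Finsupp.lsingle (i + 1)).comp (LinearMap.mulLeft ℂ (pderiv a f))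

theorem nb_single (f : MvPolynomial ι ℂ) (a : ι) (i : ℕ) (h : MvPolynomial ι ℂ) :
    nb f a (Finsupp.single i h) =
      Finsupp.single i (pderiv a h) + Finsupp.single (i + 1) (pderiv a f * h) := by
  unfold nb
  rw [Finsupp.lsum_single]
  simp

theorem nb_smul (f : MvPolynomial ι ℂ) (a : ι) (g : MvPolynomial ι ℂ) (y : N ι) :
    nb f a (g • y) = pderiv a g • y + g • nb f a y := by
  induction y using Finsupp.induction_linear with
  | zero => simp
  | add y z hy hz =>
    rw [smul_add, map_add, hy, hz, map_add, smul_add, smul_add]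
    abel
  | single i h =>
    rw [Finsupp.smul_single, nb_single, nb_single, smul_add, Finsupp.smul_single,
      Finsupp.smul_single, Finsupp.smul_single, ← add_assoc, ← Finsupp.single_add]
    simp only [smul_eq_mul, Derivation.leibniz]
    congr 1
    · congr 1
      ring
    · congr 1
      ring

theorem nb_comm (f : MvPolynomial ι ℂ) (a b : ι) (y : N ι) :
    nb f a (nb f b y) = nb f b (nb f a y) := by
  induction y using Finsupp.induction_linear with
  | zero => simp
  | add y z hy hz =>
    rw [map_add, map_add, map_add, map_add, hy, hz]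
  | single i h =>
    simp only [nb_single, map_add, Derivation.leibniz, smul_eq_mul, Finsupp.single_add,
      pderiv_comm b a]
    rw [show pderiv a f * (pderiv b f * h) = pderiv b f * (pderiv a f * h) by ring,
      show h * pderiv a (pderiv b f) = h * pderiv a (pderiv b f) by rfl]
    abel

/-- the saturated submodule of relations -/
inductive Sat (f : MvPolynomial ι ℂ) (A : Finset ι) (q : ι → ℂ) (β : ℂ) : N ι → Prop
  | rel (i : ℕ) (h : MvPolynomial ι ℂ) : Sat f A q β
      (Finsupp.single (i + 1) (f * h) - Finsupp.single i (C (β - i) * h))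
  | rf (h : MvPolynomial ι ℂ) : Sat f A q β (Finsupp.single 0 (f * h))
  | rd (a : ι) (h : MvPolynomial ι ℂ) : Sat f A q β (Finsupp.single 0 (pderiv a f * h))
  | add (y z : N ι) : Sat f A q β y → Sat f A q β z → Sat f A q β (y + z)
  | smul (g : MvPolynomial ι ℂ) (y : N ι) : Sat f A q β y → Sat f A q β (g • y)
  | nab (a : ι) (y : N ι) : a ∈ A → Sat f A q β y → Sat f A q β (nb f a y)
  | div (s : MvPolynomial ι ℂ) (y : N ι) : eval q s ≠ 0 → Sat f A q β (s • y) → Sat f A q β y

variable {f : MvPolynomial ι ℂ} {A : Finset ι} {q : ι → ℂ} {β : ℂ}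

theorem Sat.zero : Sat f A q β 0 := by
  have h := Sat.smul 0 _ (Sat.rf (f := f) (A := A) (q := q) (β := β) 0)
  rwa [zero_smul] at h

theorem Sat.neg {y : N ι} (hy : Sat f A q β y) : Sat f A q β (-y) := by
  have h := Sat.smul (-1) _ hy
  rwa [neg_one_smul] at h

theorem Sat.sub {y z : N ι} (hy : Sat f A q β y) (hz : Sat f A q β z) : Sat f A q β (y - z) := by
  rw [sub_eq_add_neg]
  exact Sat.add _ _ hy hz.neg

theorem Sat.sum {κ : Type} (s : Finset κ) (y : κ → N ι) (h : ∀ k ∈ s, Sat f A q β (y k)) :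
    Sat f A q β (∑ k ∈ s, y k) := by
  classical
  induction s using Finset.induction_on with
  | empty => simpa using Sat.zero
  | insert a s ha ih =>
    rw [Finset.sum_insert ha]
    exact Sat.add _ _ (h a (Finset.mem_insert_self a s))
      (ih fun k hk => h k (Finset.mem_insert_of_mem hk))

/-- `∇_b ((∂_a f) h e_0)`, `a ∈ A` -/
theorem Sat.rdA {a : ι} (ha : a ∈ A) (b : ι) (h : MvPolynomial ι ℂ) :
    Sat f A q β (nb f b (Finsupp.single 0 (pderiv a f * h))) := by
  have e : nb f b (Finsupp.single 0 (pderiv a f * h)) =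
      Finsupp.single 0 (pderiv a f * pderiv b h) +
        h • nb f a (Finsupp.single 0 (pderiv b f * 1)) := by
    rw [nb_single, nb_single, smul_add, Finsupp.smul_single, Finsupp.smul_single, ← add_assoc,
      ← Finsupp.single_add]
    simp only [smul_eq_mul, Derivation.leibniz, mul_one, pderiv_comm a b]
    congr 1
    congr 1
    ring
  rw [e]
  exact Sat.add _ _ (Sat.rd a _) (Sat.smul h _ (Sat.nab a _ ha (Sat.rd b 1)))

theorem Sat.nabla (hF : Fld9 f A q) (b : ι) {y : N ι} (hy : Sat f A q β y) :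
    Sat f A q β (nb f b y) := by
  induction hy with
  | rel i h =>
    have e : nb f b (Finsupp.single (i + 1) (f * h) - Finsupp.single i (C (β - i) * h)) =
        (Finsupp.single (i + 1) (f * pderiv b h) - Finsupp.single i (C (β - i) * pderiv b h)) +
        (Finsupp.single (i + 1 + 1) (f * (pderiv b f * h)) -
          Finsupp.single (i + 1) (C (β - (i + 1 : ℕ)) * (pderiv b f * h))) := by
      rw [map_sub, nb_single, nb_single]
      have e1 : pderiv b (f * h) = f * pderiv b h + pderiv b f * h := by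
        rw [Derivation.leibniz]
        simp only [smul_eq_mul]
        ring
      have e2 : pderiv b (C (β - i) * h) = C (β - i) * pderiv b h := pderiv_C_mul
      have e3 : pderiv b f * (C (β - i) * h) =
          C (β - (i + 1 : ℕ)) * (pderiv b f * h) + pderiv b f * h := by
        have : (C (β - i) : MvPolynomial ι ℂ) = C (β - (i + 1 : ℕ)) + 1 := by
          rw [← C_1, ← C_add]
          congr 1
          push_cast
          ring
        rw [this]
        ring
      rw [e1, e2, e3, Finsupp.single_add, Finsupp.single_add,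
        show pderiv b f * (f * h) = f * (pderiv b f * h) by ring]
      abel
    rw [e]
    exact Sat.add _ _ (Sat.rel i _) (Sat.rel (i + 1) _)
  | rf h =>
    have e : nb f b (Finsupp.single 0 (f * h)) =
        Finsupp.single 0 (pderiv b f * h) + Finsupp.single 0 (f * pderiv b h) +
        (Finsupp.single (0 + 1) (f * (pderiv b f * h)) -
          Finsupp.single 0 (C (β - (0 : ℕ)) * (pderiv b f * h))) +
        (C β : MvPolynomial ι ℂ) • Finsupp.single 0 (pderiv b f * h) := by
      rw [nb_single, Finsupp.smul_single]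
      have e1 : pderiv b (f * h) = pderiv b f * h + f * pderiv b h := by
        rw [Derivation.leibniz]
        simp only [smul_eq_mul]
        ring
      rw [e1, Finsupp.single_add, show pderiv b f * (f * h) = f * (pderiv b f * h) by ring,
        Nat.cast_zero, sub_zero, smul_eq_mul]
      abel
    rw [e]
    exact Sat.add _ _ (Sat.add _ _ (Sat.add _ _ (Sat.rd b h) (Sat.rf _)) (Sat.rel 0 _))
      (Sat.smul _ _ (Sat.rd b h))
  | rd a h =>
    by_cases ha : a ∈ A
    · exact Sat.rdA ha b h
    · obtain ⟨s, c, hs, hc⟩ := hF a ha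
      have h1 : Sat f A q β (nb f b (s • Finsupp.single 0 (pderiv a f * h))) := by
        have e : s • (Finsupp.single 0 (pderiv a f * h) : N ι) =
            ∑ a' ∈ A, Finsupp.single 0 (pderiv a' f * (c a' * h)) := by
          rw [Finsupp.smul_single, smul_eq_mul, ← mul_assoc, hc, Finset.sum_mul,
            Finsupp.single_finsetSum]
          refine Finset.sum_congr rfl fun a' _ => ?_
          congr 1
          ring
        rw [e, map_sum]
        exact Sat.sum _ _ fun a' ha' => Sat.rdA ha' b _
      rw [nb_smul] at h1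
      refine Sat.div s _ hs ?_
      have h2 := h1.sub (Sat.smul (pderiv b s) _ (Sat.rd (β := β) a h))
      rwa [add_sub_cancel_left] at h2
  | add y z _ _ hy hz =>
    rw [map_add]
    exact Sat.add _ _ hy hz
  | smul g y hy ih =>
    rw [nb_smul]
    exact Sat.add _ _ (Sat.smul _ _ hy) (Sat.smul _ _ ih)
  | nab a y ha _ ih =>
    rw [nb_comm]
    exact Sat.nab a _ ha ih
  | div s y hs hy ih =>
    rw [nb_smul] at ih
    refine Sat.div s _ hs ?_
    have h2 := ih.sub (Sat.smul (pderiv b s) _ (Sat.div s y hs hy))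
    rwa [add_sub_cancel_left] at h2

/-- the restriction to the slice -/
noncomputable def sl [DecidableEq ι] (A : Finset ι) (q : ι → ℂ) :
    MvPolynomial ι ℂ →ₐ[ℂ] MvPolynomial A ℂ :=
  aeval (fun a => if h : a ∈ A then X ⟨a, h⟩ else C (q a))

variable [DecidableEq ι]

theorem eval_sl (A : Finset ι) (q : ι → ℂ) (h : MvPolynomial ι ℂ) :
    eval (fun a : A => q a) (sl A q h) = eval q h := by
  unfold sl
  induction h using MvPolynomial.induction_on with
  | C a => simp
  | add g h hg hh => rw [map_add, map_add, hg, hh, map_add]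
  | mul_X g a hg =>
    rw [map_mul, map_mul, hg, map_mul, aeval_X, eval_X]
    split_ifs <;> simp

theorem pderiv_sl {a : ι} (ha : a ∈ A) (h : MvPolynomial ι ℂ) :
    pderiv (⟨a, ha⟩ : A) (sl A q h) = sl A q (pderiv a h) := by
  unfold sl
  induction h using MvPolynomial.induction_on with
  | C c => simp
  | add g h hg hh => rw [map_add, map_add, hg, hh, map_add, map_add]
  | mul_X g b hg =>
    rw [map_mul, Derivation.leibniz, hg, aeval_X, Derivation.leibniz]
    simp only [smul_eq_mul, map_add, map_mul, aeval_X]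
    congr 1
    congr 1
    by_cases hb : b ∈ A
    · rw [dif_pos hb]
      by_cases hab : b = a
      · subst hab
        simp
      · rw [pderiv_X_of_ne hab, map_zero, pderiv_X_of_ne]
        intro h
        exact hab (congrArg Subtype.val h)
    · rw [dif_neg hb, pderiv_C, pderiv_X_of_ne, map_zero]
      intro h
      exact hb (h ▸ ha)

theorem sl_pow {N : ℕ} {g : MvPolynomial ι ℂ} (hg : g ∈ mI q ^ N) :
    sl A q g ∈ mI (fun a : A => q a) ^ N := by
  have h1 : mI q ≤ (mI (fun a : A => q a)).comap (sl A q) := by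
    intro g hg
    rw [Ideal.mem_comap]
    unfold mI at hg ⊢
    rw [RingHom.mem_ker] at hg ⊢
    rw [eval_sl, hg]
  have h2 : mI q ^ N ≤ ((mI (fun a : A => q a)) ^ N).comap (sl A q) :=
    (Ideal.pow_right_mono h1 N).trans (Ideal.le_comap_pow _ N)
  exact h2 hg

omit [DecidableEq ι] in
theorem exists_inv {s : MvPolynomial ι ℂ} (hs : eval q s ≠ 0) (N : ℕ) :
    ∃ t : MvPolynomial ι ℂ, 1 - t * s ∈ mI q ^ N := by
  set u : MvPolynomial ι ℂ := 1 - C (eval q s)⁻¹ * s with hu
  have hu1 : u ∈ mI q := by
    unfold mI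
    rw [RingHom.mem_ker, hu]
    simp [hs]
  refine ⟨(∑ i ∈ Finset.range N, u ^ i) * C (eval q s)⁻¹, ?_⟩
  have h : 1 - (∑ i ∈ Finset.range N, u ^ i) * C (eval q s)⁻¹ * s = u ^ N := by
    have h1 := mul_neg_geom_sum u N
    have h2 : C (eval q s)⁻¹ * s = 1 - u := by rw [hu]; ring
    rw [mul_assoc, h2, mul_comm, h1]
    ring
  rw [h]
  exact Ideal.pow_mem_pow hu1 N

/-- the functional -/
noncomputable def Lam (A : Finset ι) (q : ι → ℂ) (v : ℕ → MvPolynomial A ℂ →ₗ[ℂ] ℂ) :
    N ι →ₗ[ℂ] ℂ :=
  Finsupp.lsum ℂ fun i => (v i).comp (sl A q).toLinearMap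

theorem Lam_single (A : Finset ι) (q : ι → ℂ) (v : ℕ → MvPolynomial A ℂ →ₗ[ℂ] ℂ) (i : ℕ)
    (h : MvPolynomial ι ℂ) : Lam A q v (Finsupp.single i h) = v i (sl A q h) := by
  unfold Lam
  rw [Finsupp.lsum_single]
  simp

/-- the functional kills `m_q^N` -/
theorem Lam_pow (v : ℕ → MvPolynomial A ℂ →ₗ[ℂ] ℂ)
    (hv : ∀ i, ∃ N : ℕ, ∀ g ∈ mI (fun a : A => q a) ^ N, v i g = 0) (y : N ι) :
    ∃ M : ℕ, ∀ g ∈ mI q ^ M, Lam A q v (g • y) = 0 := by
  induction y using Finsupp.induction_linear with
  | zero => exact ⟨0, fun g _ => by simp⟩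
  | add y z hy hz =>
    obtain ⟨M, hM⟩ := hy
    obtain ⟨M', hM'⟩ := hz
    refine ⟨max M M', fun g hg => ?_⟩
    rw [smul_add, map_add, hM g (Ideal.pow_le_pow_right (le_max_left M M') hg),
      hM' g (Ideal.pow_le_pow_right (le_max_right M M') hg), add_zero]
  | single i h =>
    obtain ⟨M, hM⟩ := hv i
    refine ⟨M, fun g hg => ?_⟩
    rw [Finsupp.smul_single, Lam_single, smul_eq_mul, map_mul]
    exact hM _ (Ideal.mul_mem_right _ _ (sl_pow hg))

theorem Sat.kill (hF : Fld9 f A q) (v : ℕ → MvPolynomial A ℂ →ₗ[ℂ] ℂ)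
    (hv : ∀ i, ∃ N : ℕ, ∀ g ∈ mI (fun a : A => q a) ^ N, v i g = 0)
    (h0d : ∀ a g, v 0 (pderiv a (sl A q f) * g) = 0) (h0f : ∀ g, v 0 (sl A q f * g) = 0)
    (hd : ∀ i a g, v (i + 1) (pderiv a (sl A q f) * g) = -v i (pderiv a g))
    (hf : ∀ (i : ℕ) (g : MvPolynomial A ℂ), v (i + 1) (sl A q f * g) = (β - i) * v i g)
    {y : N ι} (hy : Sat f A q β y) : ∀ g : MvPolynomial ι ℂ, Lam A q v (g • y) = 0 := by
  have hnab : ∀ a ∈ A, ∀ z : N ι, Lam A q v (nb f a z) = 0 := by
    intro a ha z
    induction z using Finsupp.induction_linear with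
    | zero => simp
    | add y z hy hz => rw [map_add, map_add, hy, hz, add_zero]
    | single i h =>
      rw [nb_single, map_add, Lam_single, Lam_single, map_mul, ← pderiv_sl ha, ← pderiv_sl ha,
        hd, add_neg_cancel]
  have hdiv : ∀ (s : MvPolynomial ι ℂ) (y : N ι), eval q s ≠ 0 →
      (∀ g : MvPolynomial ι ℂ, Lam A q v (g • s • y) = 0) →
      ∀ g : MvPolynomial ι ℂ, Lam A q v (g • y) = 0 := by
    intro s y hs h g
    obtain ⟨M, hM⟩ := Lam_pow v hv y
    obtain ⟨t, ht⟩ := exists_inv hs M
    have e : g • y = (g * t) • s • y + (g * (1 - t * s)) • y := by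
      rw [smul_smul, ← add_smul]
      congr 1
      ring
    rw [e, map_add, h, hM _ (Ideal.mul_mem_left _ _ ht), add_zero]
  induction hy with
  | rel i h =>
    intro g
    rw [smul_sub, Finsupp.smul_single, Finsupp.smul_single, map_sub, Lam_single, Lam_single]
    have e1 : sl A q (g • (f * h)) = sl A q f * sl A q (g * h) := by
      rw [← map_mul, smul_eq_mul]
      congr 1
      ring
    have e2 : sl A q (g • (C (β - i) * h)) = (β - i) • sl A q (g * h) := by
      rw [← map_smul, smul_eq_mul, smul_eq_C_mul]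
      congr 1
      ring
    rw [e1, e2, hf, map_smul, smul_eq_mul, sub_self]
  | rf h =>
    intro g
    rw [Finsupp.smul_single, Lam_single]
    have e1 : sl A q (g • (f * h)) = sl A q f * sl A q (g * h) := by
      rw [← map_mul, smul_eq_mul]
      congr 1
      ring
    rw [e1, h0f]
  | rd a h =>
    have hA : ∀ a ∈ A, ∀ g : MvPolynomial ι ℂ,
        Lam A q v (Finsupp.single 0 (pderiv a f * g)) = 0 := by
      intro a ha g
      rw [Lam_single, map_mul, ← pderiv_sl ha, h0d]
    by_cases ha : a ∈ A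
    · intro g
      rw [Finsupp.smul_single, smul_eq_mul, mul_left_comm, hA a ha]
    · obtain ⟨s, c, hs, hc⟩ := hF a ha
      refine hdiv s _ hs fun g => ?_
      have e : g • s • (Finsupp.single 0 (pderiv a f * h) : N ι) =
          ∑ a' ∈ A, Finsupp.single 0 (pderiv a' f * (c a' * h * g)) := by
        rw [Finsupp.smul_single, Finsupp.smul_single, smul_eq_mul, smul_eq_mul, ← mul_assoc s, hc,
          Finset.sum_mul, Finset.mul_sum, Finsupp.single_finsetSum]
        refine Finset.sum_congr rfl fun a' _ => ?_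
        congr 1
        ring
      rw [e, map_sum]
      exact Finset.sum_eq_zero fun a' ha' => hA a' ha' _
  | add y z _ _ hy hz =>
    intro g
    rw [smul_add, map_add, hy, hz, add_zero]
  | smul g' y _ ih =>
    intro g
    rw [smul_smul]
    exact ih _
  | nab a y ha _ ih =>
    intro g
    have e : g • nb f a y = nb f a (g • y) - pderiv a g • y := by
      rw [nb_smul]
      abel
    rw [e, map_sub, hnab a ha, ih, sub_zero]
  | div s y hs _ ih =>
    exact hdiv s y hs ih

/-- the submodule of relations -/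
def SatM (f : MvPolynomial ι ℂ) (A : Finset ι) (q : ι → ℂ) (β : ℂ) : Submodule ℂ (N ι) where
  carrier := {y | Sat f A q β y}
  add_mem' := fun {a b} ha hb => Sat.add a b ha hb
  zero_mem' := Sat.zero
  smul_mem' := fun c y hy => by
    have h := Sat.smul (C c) y hy
    have e : (C c : MvPolynomial ι ℂ) • y = c • y := by
      ext1 i
      rw [Finsupp.smul_apply, Finsupp.smul_apply, smul_eq_mul, smul_eq_C_mul]
    rwa [e] at h

/-- multiplication by `g` -/
noncomputable def mu (g : MvPolynomial ι ℂ) : N ι →ₗ[ℂ] N ι where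
  toFun := fun y => g • y
  map_add' := fun y z => smul_add g y z
  map_smul' := fun c y => smul_comm g c y

omit [DecidableEq ι] in
theorem mu_apply (g : MvPolynomial ι ℂ) (y : N ι) : mu g y = g • y := rfl

omit [DecidableEq ι] in
theorem mem_SatM (y : N ι) : y ∈ SatM f A q β ↔ Sat f A q β y := Iff.rfl

theorem mu_le (g : MvPolynomial ι ℂ) : SatM f A q β ≤ (SatM f A q β).comap (mu g) := by
  intro y hy
  rw [Submodule.mem_comap, mu_apply, mem_SatM]
  exact Sat.smul g y ((mem_SatM y).1 hy)

theorem nb_le (hF : Fld9 f A q) (a : ι) : SatM f A q β ≤ (SatM f A q β).comap (nb f a) := by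
  intro y hy
  rw [Submodule.mem_comap, mem_SatM]
  exact Sat.nabla hF a ((mem_SatM y).1 hy)

/-- multiplication on the quotient -/
noncomputable def mX (f : MvPolynomial ι ℂ) (A : Finset ι) (q : ι → ℂ) (β : ℂ)
    (g : MvPolynomial ι ℂ) : Module.End ℂ (N ι ⧸ SatM f A q β) :=
  (SatM f A q β).mapQ (SatM f A q β) (mu g) (mu_le g)

theorem mX_mk (g : MvPolynomial ι ℂ) (y : N ι) :
    mX f A q β g (Submodule.Quotient.mk y) = Submodule.Quotient.mk (g • y) := rfl

/-- derivation on the quotient -/
noncomputable def mD (β : ℂ) (hF : Fld9 f A q) (a : ι) : Module.End ℂ (N ι ⧸ SatM f A q β) :=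
  (SatM f A q β).mapQ (SatM f A q β) (nb f a) (nb_le hF a)

theorem mD_mk (hF : Fld9 f A q) (a : ι) (y : N ι) :
    mD β hF a (Submodule.Quotient.mk y) = Submodule.Quotient.mk (nb f a y) := rfl

/-- the witness module -/
noncomputable def Wm (f : MvPolynomial ι ℂ) (A : Finset ι) (q : ι → ℂ) (β : ℂ)
    (hF : Fld9 f A q) : BP.WMod ℂ (N ι ⧸ SatM f A q β) ι where
  X' := fun a => mX f A q β (X a)
  D' := fun a => mD β hF a
  XX := fun i j => by
    refine LinearMap.ext fun y => ?_
    obtain ⟨y, rfl⟩ := Submodule.Quotient.mk_surjective _ y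
    rw [Module.End.mul_apply, Module.End.mul_apply, mX_mk, mX_mk, mX_mk, mX_mk, smul_smul,
      smul_smul, mul_comm]
  DD := fun i j => by
    refine LinearMap.ext fun y => ?_
    obtain ⟨y, rfl⟩ := Submodule.Quotient.mk_surjective _ y
    rw [Module.End.mul_apply, Module.End.mul_apply, mD_mk, mD_mk, mD_mk, mD_mk, nb_comm]
  DX := fun i j => by
    refine LinearMap.ext fun y => ?_
    obtain ⟨y, rfl⟩ := Submodule.Quotient.mk_surjective _ y
    rw [LinearMap.add_apply, Module.End.mul_apply, Module.End.mul_apply, mD_mk, mX_mk, mD_mk,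
      mX_mk, nb_smul]
    by_cases hij : i = j
    · subst hij
      rw [pderiv_X_self, one_smul, if_pos rfl, Module.End.one_apply, add_comm,
        Submodule.Quotient.mk_add]
    · rw [pderiv_X_of_ne (Ne.symm hij), zero_smul, zero_add, if_neg hij, LinearMap.zero_apply,
        add_zero]

theorem Wm_pX (hF : Fld9 f A q) (g : MvPolynomial ι ℂ) (y : N ι) :
    (Wm f A q β hF).pX g (Submodule.Quotient.mk y) = Submodule.Quotient.mk (g • y) := by
  induction g using MvPolynomial.induction_on generalizing y with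
  | C c =>
    rw [BP.WMod.pX, BP.liftC_C, Module.algebraMap_end_apply, ← Submodule.Quotient.mk_smul]
    congr 1
    ext1 i
    rw [Finsupp.smul_apply, Finsupp.smul_apply, smul_eq_mul, smul_eq_C_mul]
  | add g h hg hh =>
    rw [map_add, LinearMap.add_apply, hg, hh, add_smul, Submodule.Quotient.mk_add]
  | mul_X g a hg =>
    rw [map_mul, Module.End.mul_apply, BP.WMod.pX_X]
    have h : (Wm f A q β hF).X' a (Submodule.Quotient.mk y) =
        Submodule.Quotient.mk ((X a : MvPolynomial ι ℂ) • y) := rfl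
    rw [h, hg, smul_smul]

theorem Wm_D (hF : Fld9 f A q) (a : ι) (y : N ι) :
    (Wm f A q β hF).D' a (Submodule.Quotient.mk y) = Submodule.Quotient.mk (nb f a y) := rfl

theorem sl_surj (A : Finset ι) (q : ι → ℂ) (H : MvPolynomial A ℂ) :
    ∃ g : MvPolynomial ι ℂ, sl A q g = H := by
  refine ⟨rename Subtype.val H, ?_⟩
  unfold sl
  rw [aeval_rename]
  induction H using MvPolynomial.induction_on with
  | C c => simp
  | add g h hg hh => rw [map_add, hg, hh]
  | mul_X g a hg =>
    rw [map_mul, hg, aeval_X]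
    simp

end WG9Aux

open WG9Aux in
theorem stmt_WG9 : Stmt_WG9 := by
  intro ι _ _ f A q β _ hF hP
  obtain ⟨v, hv0, hvN, h0d, h0f, hd, hf⟩ := hP
  have hkill : ∀ {y : N ι}, Sat f A q β y → ∀ g : MvPolynomial ι ℂ, Lam A q v (g • y) = 0 :=
    fun hy => Sat.kill hF v hvN h0d h0f hd hf hy
  have mk0 : ∀ {y : N ι}, Sat f A q β y →
      (Submodule.Quotient.mk y : N ι ⧸ SatM f A q β) = 0 :=
    fun hy => (Submodule.Quotient.mk_eq_zero _).2 hy
  refine ⟨N ι ⧸ SatM f A q β, inferInstance, inferInstance, Wm f A q β hF,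
    fun i => Submodule.Quotient.mk (Finsupp.single i 1), ?_, ?_, ?_, ?_, ?_⟩
  · intro h
    have h1 : Sat f A q β (Finsupp.single 0 1) := (Submodule.Quotient.mk_eq_zero _).1 h
    apply hv0
    refine LinearMap.ext fun H => ?_
    obtain ⟨g, rfl⟩ := sl_surj A q H
    have h2 := hkill h1 g
    rw [Finsupp.smul_single, Lam_single, smul_eq_mul, mul_one] at h2
    exact h2
  · rw [Wm_pX]
    apply mk0
    have h := Sat.rf (f := f) (A := A) (q := q) (β := β) 1
    rwa [Finsupp.smul_single, smul_eq_mul]
  · intro a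
    rw [Wm_pX]
    apply mk0
    have h := Sat.rd (f := f) (A := A) (q := q) (β := β) a 1
    rwa [Finsupp.smul_single, smul_eq_mul]
  · intro i a
    rw [Wm_pX, Wm_D, nb_single, pderiv_one, Finsupp.single_zero, zero_add, Finsupp.smul_single,
      smul_eq_mul]
  · intro i
    rw [Wm_pX, ← Submodule.Quotient.mk_smul, ← sub_eq_zero, ← Submodule.Quotient.mk_sub]
    apply mk0
    have h := Sat.rel (f := f) (A := A) (q := q) (β := β) i 1
    rw [Finsupp.smul_single, smul_eq_mul, Finsupp.smul_single, smul_eq_C_mul]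
    exact h

end Pool.Agent.Mono.C9
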