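import Pool.Agent.Work.Monodromy9.CE9

/-!
# Block WPS9 (helper1): Weierstrass preparation and squarefree decomposition
-/

set_option autoImplicit false
set_option linter.unusedSectionVars false

namespace Pool.Agent.Mono.C9

open MvPolynomial

namespace WPS9Aux

open CE9Aux

/-! ### completeness of `ℂ⟦x⟧` -/

theorem precomplete : IsPrecomplete (IsLocalRing.maximalIdeal (PowerSeries ℂ)) (PowerSeries ℂ) := by
  have hm : ∀ (n : ℕ) (a b : PowerSeries ℂ),
      a ≡ b [SMOD (IsLocalRing.maximalIdeal (PowerSeries ℂ) ^ n • ⊤ :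
        Submodule (PowerSeries ℂ) (PowerSeries ℂ))] ↔
        ∀ i < n, PowerSeries.coeff i a = PowerSeries.coeff i b := by
    intro n a b
    rw [SModEq.sub_mem, smul_eq_mul, Ideal.mul_top, PowerSeries.maximalIdeal_eq_span_X,
      Ideal.span_singleton_pow, Ideal.mem_span_singleton, PowerSeries.X_pow_dvd_iff]
    simp only [map_sub, sub_eq_zero]
  refine ⟨fun f hf => ?_⟩
  refine ⟨PowerSeries.mk fun i => PowerSeries.coeff i (f (i + 1)), fun n => ?_⟩
  rw [hm]
  intro i hi
  rw [PowerSeries.coeff_mk]
  exact ((hm (i + 1) _ _).1 (hf (by omega : i + 1 ≤ n)) i (by omega)).symm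

theorem adic : IsAdicComplete (IsLocalRing.maximalIdeal (PowerSeries ℂ)) (PowerSeries ℂ) where
  toIsHausdorff := inferInstance
  toIsPrecomplete := precomplete

attribute [local instance] adic

/-! ### distinguished polynomials as power series -/

section

variable {A : Type} [CommRing A] [IsDomain A] [IsLocalRing A]

theorem degree_eq (P : Polynomial A)
    (hP : P.IsDistinguishedAt (IsLocalRing.maximalIdeal A)) : P.degree =
      (((P : PowerSeries A).map (Ideal.Quotient.mk (IsLocalRing.maximalIdeal A))).order.toNat :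
        WithBot ℕ) := by
  have : P.natDegree = _ := congr(ENat.toNat $(hP.coe_natDegree_eq_order_map P 1
    (by rw [map_one, ← Ideal.ne_top_iff_one]; exact Ideal.IsPrime.ne_top inferInstance)
    (by simp)))
  rw [Polynomial.degree_eq_natDegree hP.monic.ne_zero, this]

theorem dvd_of_coe_dvd [IsHausdorff (IsLocalRing.maximalIdeal A) A] (P : Polynomial A)
    (hP : P.IsDistinguishedAt (IsLocalRing.maximalIdeal A)) (Q : Polynomial A)
    (h : (P : PowerSeries A) ∣ (Q : PowerSeries A)) : P ∣ Q := by
  obtain ⟨q, hq⟩ := h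
  have H := hP.isWeierstrassDivisorAt' (I := IsLocalRing.maximalIdeal A)
  have hd := degree_eq P hP
  have h1 := Polynomial.degree_modByMonic_lt Q hP.monic
  have h2 := Polynomial.modByMonic_add_div Q P
  have h3 : (P : PowerSeries A) * ((Q /ₘ P : Polynomial A) : PowerSeries A) +
      ((Q %ₘ P : Polynomial A) : PowerSeries A) =
      (P : PowerSeries A) * q + ((0 : Polynomial A) : PowerSeries A) := by
    rw [← hq, ← Polynomial.coe_mul, ← Polynomial.coe_add, Polynomial.coe_zero, add_zero]
    congr 1
    rw [add_comm]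
    exact h2
  have h4 := (H.eq_of_mul_add_eq_mul_add (by rw [← hd]; exact h1)
    (by rw [Polynomial.degree_zero]; exact WithBot.bot_lt_coe _) h3).2
  rw [← Polynomial.modByMonic_eq_zero_iff_dvd hP.monic]
  exact h4

theorem not_isUnit_coe (P : Polynomial A)
    (hP : P.IsDistinguishedAt (IsLocalRing.maximalIdeal A)) (h1 : 1 ≤ P.natDegree) :
    ¬ IsUnit (P : PowerSeries A) := by
  intro h
  rw [PowerSeries.isUnit_iff_constantCoeff, Polynomial.constantCoeff_coe] at h
  have := hP.mem (show 0 < P.natDegree by omega)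
  exact (IsLocalRing.mem_maximalIdeal _).1 this h

theorem prime_coe [IsAdicComplete (IsLocalRing.maximalIdeal A) A] (P : Polynomial A)
    (hP : P.IsDistinguishedAt (IsLocalRing.maximalIdeal A)) (h1 : 1 ≤ P.natDegree)
    (hp : Prime P) : Prime (P : PowerSeries A) := by
  have H := hP.isWeierstrassDivisorAt' (I := IsLocalRing.maximalIdeal A)
  refine ⟨?_, not_isUnit_coe P hP h1, ?_⟩
  · rw [Ne, Polynomial.coe_eq_zero_iff]
    exact hP.monic.ne_zero
  · intro a b hab
    have ha := (H.isWeierstrassDivisionAt_div_mod a).eq_mul_add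
    have hb := (H.isWeierstrassDivisionAt_div_mod b).eq_mul_add
    have h2 : (P : PowerSeries A) ∣ ((H.mod a * H.mod b : Polynomial A) : PowerSeries A) := by
      rw [Polynomial.coe_mul]
      have e : (H.mod a : PowerSeries A) * (H.mod b : PowerSeries A) =
          a * b - (P : PowerSeries A) * (H.div a * b + (H.mod a : PowerSeries A) * H.div b) := by
        linear_combination (-b) * ha - (H.mod a : PowerSeries A) * hb
      rw [e]
      exact dvd_sub hab (dvd_mul_right _ _)
    rcases hp.dvd_or_dvd (dvd_of_coe_dvd P hP _ h2) with h3 | h3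
    · left
      rw [ha]
      refine dvd_add (dvd_mul_right _ _) ?_
      obtain ⟨c, hc⟩ := h3
      exact ⟨(c : PowerSeries A), by rw [hc, Polynomial.coe_mul]⟩
    · right
      rw [hb]
      refine dvd_add (dvd_mul_right _ _) ?_
      obtain ⟨c, hc⟩ := h3
      exact ⟨(c : PowerSeries A), by rw [hc, Polynomial.coe_mul]⟩

/-! ### factorization of monic polynomials -/

theorem factor [WfDvdMonoid (Polynomial A)] : ∀ (n : ℕ) (P : Polynomial A), P.natDegree = n →
    P.Monic → ∃ s : Multiset (Polynomial A), (∀ p ∈ s, p.Monic ∧ Irreducible p) ∧ s.prod = P := by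
  intro n
  induction n using Nat.strong_induction_on with
  | _ n ih =>
    intro P hn hP
    by_cases h1 : P = 1
    · exact ⟨0, by simp, by simp [h1]⟩
    have hu : ¬ IsUnit P := fun h => h1 (hP.isUnit_iff.1 h)
    obtain ⟨q, hq, hqP⟩ := WfDvdMonoid.exists_irreducible_factor hu hP.ne_zero
    have hlu := hP.isUnit_leadingCoeff_of_dvd hqP
    obtain ⟨u, hu'⟩ := hlu.exists_left_inv
    have huu : IsUnit (Polynomial.C u) :=
      (IsUnit.of_mul_eq_one _ hu').map Polynomial.C
    have hq'm : (Polynomial.C u * q).Monic := by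
      rw [Polynomial.Monic, Polynomial.leadingCoeff_mul, Polynomial.leadingCoeff_C, hu']
    have hass : Associated q (Polynomial.C u * q) := by
      obtain ⟨v, hv⟩ := huu
      exact ⟨v, by rw [hv, mul_comm]⟩
    have hq'i : Irreducible (Polynomial.C u * q) := hass.irreducible hq
    obtain ⟨R, hR⟩ : Polynomial.C u * q ∣ P := hass.dvd_iff_dvd_left.1 hqP
    have hRm : R.Monic := hq'm.of_mul_monic_left (by rw [← hR]; exact hP)
    have hdeg : P.natDegree = (Polynomial.C u * q).natDegree + R.natDegree := by
      rw [hR, hq'm.natDegree_mul hRm]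
    have hpos : 1 ≤ (Polynomial.C u * q).natDegree := by
      by_contra h
      have h0 := Polynomial.eq_one_of_monic_natDegree_zero hq'm (by omega)
      rw [h0] at hq'i
      exact not_irreducible_one hq'i
    obtain ⟨s, hs, hsp⟩ := ih R.natDegree (by omega) R rfl hRm
    refine ⟨(Polynomial.C u * q) ::ₘ s, ?_, by rw [Multiset.prod_cons, hsp, ← hR]⟩
    intro p hp
    rcases Multiset.mem_cons.1 hp with rfl | hp
    · exact ⟨hq'm, hq'i⟩
    · exact hs p hp

end

/-! ### coprimality over the fraction field -/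

section

/-- the base ring -/
abbrev A1 : Type := PowerSeries ℂ

/-- its fraction field -/
abbrev K1 : Type := FractionRing A1

theorem map_inj : Function.Injective (Polynomial.map (algebraMap A1 K1)) :=
  Polynomial.map_injective _ (IsFractionRing.injective A1 K1)

theorem charA : CharZero A1 :=
  charZero_of_injective_algebraMap (algebraMap ℂ A1).injective

attribute [local instance] charA

theorem charK : CharZero K1 :=
  charZero_of_injective_algebraMap (IsFractionRing.injective A1 K1)

attribute [local instance] charK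

theorem copK {K : Type} [Field K] (p q : Polynomial K) (hp : Irreducible p) (hn : ¬ p ∣ q) :
    IsCoprime p q := hp.coprime_iff_not_dvd.2 hn

theorem irr_map (p : Polynomial A1) (hm : p.Monic) (hp : Irreducible p) :
    Irreducible (p.map (algebraMap A1 K1)) :=
  (hm.irreducible_iff_irreducible_map_fraction_map (K := K1)).1 hp

theorem cop (p q : Polynomial A1) (hm : p.Monic) (hp : Irreducible p) (hm' : q.Monic)
    (hq : Irreducible q) (hne : p ≠ q) :
    IsCoprime (p.map (algebraMap A1 K1)) (q.map (algebraMap A1 K1)) := by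
  refine copK _ _ (irr_map p hm hp) ?_
  intro h
  have h1 := (irr_map p hm hp).associated_of_dvd (irr_map q hm' hq) h
  have h2 := Polynomial.eq_of_monic_of_associated (hm.map _) (hm'.map _) h1
  exact hne (map_inj h2)

/-- factors of multiplicity `j` -/
noncomputable def Wj (T : Finset (Polynomial A1)) (m : Polynomial A1 → ℕ) (j : ℕ) :
    Polynomial A1 := by
  classical exact ∏ p ∈ T.filter (fun p => m p = j), p

theorem Wj_eq (T : Finset (Polynomial A1)) (m : Polynomial A1 → ℕ) (j : ℕ) :
    Wj T m j = (∏ p ∈ T.filter (fun p => m p = j), p) := by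
  classical
  unfold Wj
  rw [Finset.filter_congr_decidable]

variable (T : Finset (Polynomial A1)) (m : Polynomial A1 → ℕ)
  (hT : ∀ p ∈ T, p.Monic ∧ Irreducible p)

include hT

theorem Wj_monic (j : ℕ) : (Wj T m j).Monic := by
  rw [Wj_eq]
  exact Polynomial.monic_prod_of_monic _ _ fun p hp => (hT p (Finset.mem_filter.1 hp).1).1

theorem Wj_map (j : ℕ) : (Wj T m j).map (algebraMap A1 K1) =
    (∏ p ∈ T.filter (fun p => m p = j), p.map (algebraMap A1 K1)) := by
  rw [Wj_eq, Polynomial.map_prod]

theorem Wj_sep (j : ℕ) : ((Wj T m j).map (algebraMap A1 K1)).Separable := by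
  rw [Wj_map T m hT]
  refine Polynomial.separable_prod' ?_ ?_
  · intro x hx y hy hxy
    have h1 := hT x (Finset.mem_filter.1 hx).1
    have h2 := hT y (Finset.mem_filter.1 hy).1
    exact cop x y h1.1 h1.2 h2.1 h2.2 hxy
  · intro x hx
    have h1 := hT x (Finset.mem_filter.1 hx).1
    exact (irr_map x h1.1 h1.2).separable

theorem Wj_cop (i j : ℕ) (hij : i ≠ j) :
    IsCoprime ((Wj T m i).map (algebraMap A1 K1)) ((Wj T m j).map (algebraMap A1 K1)) := by
  rw [Wj_map T m hT, Wj_map T m hT]
  refine IsCoprime.prod_left fun x hx => IsCoprime.prod_right fun y hy => ?_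
  rw [Finset.mem_filter] at hx hy
  have h1 := hT x hx.1
  have h2 := hT y hy.1
  refine cop x y h1.1 h1.2 h2.1 h2.2 ?_
  rintro rfl
  exact hij (hx.2.symm.trans hy.2)

theorem Wj_cert (n j : ℕ) : ∃ (c : ℕ) (A B : Polynomial A1),
    Polynomial.C (PowerSeries.X ^ c) = A * Wj T m j +
      B * (∏ i ∈ (Finset.Icc 1 n).erase j, Wj T m i) * Polynomial.derivative (Wj T m j) := by
  have h1 : IsCoprime ((Wj T m j).map (algebraMap A1 K1))
      ((((∏ i ∈ (Finset.Icc 1 n).erase j, Wj T m i) *
        Polynomial.derivative (Wj T m j))).map (algebraMap A1 K1)) := by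
    rw [Polynomial.map_mul, Polynomial.map_prod]
    refine IsCoprime.mul_right (IsCoprime.prod_right fun i hi => ?_) ?_
    · exact Wj_cop T m hT j i (Finset.ne_of_mem_erase hi).symm
    · have := Wj_sep T m hT j
      rw [Polynomial.Separable, Polynomial.derivative_map] at this
      exact this
  set U := Wj T m j with hU
  set V := ((∏ i ∈ (Finset.Icc 1 n).erase j, Wj T m i) *
        Polynomial.derivative (Wj T m j)) with hV
  obtain ⟨a, b, hab⟩ := h1
  obtain ⟨d1, hd1, e1⟩ := IsLocalization.integerNormalization_spec (nonZeroDivisors A1) a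
  obtain ⟨d2, hd2, e2⟩ := IsLocalization.integerNormalization_spec (nonZeroDivisors A1) b
  set a' := IsLocalization.integerNormalization (nonZeroDivisors A1) a with ha'
  set b' := IsLocalization.integerNormalization (nonZeroDivisors A1) b with hb'
  have hd : d1 * d2 ≠ 0 := mul_ne_zero (nonZeroDivisors.ne_zero hd1) (nonZeroDivisors.ne_zero hd2)
  have e3 : Polynomial.C (d1 * d2) = (Polynomial.C d2 * a') * U + (Polynomial.C d1 * b') * V := by
    apply map_inj
    rw [Polynomial.map_add, Polynomial.map_mul, Polynomial.map_mul, Polynomial.map_mul,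
      Polynomial.map_mul, e1, e2, Polynomial.map_C, Polynomial.map_C, Polynomial.map_C, map_mul,
      Polynomial.C_mul]
    have s1 : d1 • a = Polynomial.C (algebraMap A1 K1 d1) * a := by
      rw [← Polynomial.smul_eq_C_mul, algebraMap_smul]
    have s2 : d2 • b = Polynomial.C (algebraMap A1 K1 d2) * b := by
      rw [← Polynomial.smul_eq_C_mul, algebraMap_smul]
    rw [s1, s2]
    linear_combination (-(Polynomial.C (algebraMap A1 K1 d1) *
      Polynomial.C (algebraMap A1 K1 d2))) * hab
  obtain ⟨c, u, hu⟩ := IsDiscreteValuationRing.associated_pow_irreducible hd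
    (PowerSeries.X_irreducible (R := ℂ))
  refine ⟨c, Polynomial.C (u : A1) * (Polynomial.C d2 * a'),
    Polynomial.C (u : A1) * (Polynomial.C d1 * b'), ?_⟩
  rw [← hu, Polynomial.C_mul, e3, hV]
  ring

end

/-! ### the theorem -/

theorem dist_of_map (P : Polynomial A1) (hm : P.Monic)
    (h : P.map (PowerSeries.constantCoeff (R := ℂ)) = Polynomial.X ^ P.natDegree) :
    P.IsDistinguishedAt (IsLocalRing.maximalIdeal A1) where
  mem := by
    intro n hn
    have h1 := congrArg (fun q => Polynomial.coeff q n) h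
    simp only [Polynomial.coeff_map, Polynomial.coeff_X_pow] at h1
    rw [if_neg (by omega)] at h1
    rw [PowerSeries.maximalIdeal_eq_span_X, Ideal.mem_span_singleton, PowerSeries.X_dvd_iff]
    exact h1
  monic := hm

theorem map_of_dist (P : Polynomial A1)
    (h : P.IsDistinguishedAt (IsLocalRing.maximalIdeal A1)) :
    P.map (PowerSeries.constantCoeff (R := ℂ)) = Polynomial.X ^ P.natDegree := by
  ext n
  rw [Polynomial.coeff_map, Polynomial.coeff_X_pow]
  rcases lt_trichotomy n P.natDegree with h1 | h1 | h1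
  · rw [if_neg (by omega)]
    have := h.mem h1
    rwa [PowerSeries.maximalIdeal_eq_span_X, Ideal.mem_span_singleton,
      PowerSeries.X_dvd_iff] at this
  · rw [if_pos h1, h1, h.monic.coeff_natDegree, map_one]
  · rw [if_neg (by omega), Polynomial.coeff_eq_zero_of_natDegree_lt h1, map_zero]

/-- monic divisors -/
theorem map_of_dvd (P p : Polynomial A1) (hm : p.Monic) (d : ℕ)
    (h : P.map (PowerSeries.constantCoeff (R := ℂ)) = Polynomial.X ^ d) (hp : p ∣ P) :
    p.map (PowerSeries.constantCoeff (R := ℂ)) = Polynomial.X ^ p.natDegree := by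
  have h1 : p.map (PowerSeries.constantCoeff (R := ℂ)) ∣ Polynomial.X ^ d := by
    rw [← h]
    exact Polynomial.map_dvd _ hp
  obtain ⟨i, -, hi⟩ := (dvd_prime_pow Polynomial.prime_X d).1 h1
  have h2 := Polynomial.eq_of_monic_of_associated (hm.map _) (Polynomial.monic_X_pow i) hi
  have h3 : p.natDegree = i := by
    rw [← hm.natDegree_map (PowerSeries.constantCoeff (R := ℂ)), h2, Polynomial.natDegree_X_pow]
  rw [h3]
  exact h2

attribute [local instance] charA

/-- irreducible Weierstrass polynomials -/
theorem irr_facts (p : Polynomial A1) (hm : p.Monic) (hi : Irreducible p)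
    (h : p.map (PowerSeries.constantCoeff (R := ℂ)) = Polynomial.X ^ p.natDegree) :
    Prime (p : N2) ∧ ¬ (p : N2) ∣ xx ∧ ¬ (p : N2) ∣ dY (p : N2) := by
  have hd := dist_of_map p hm h
  have h1 : 1 ≤ p.natDegree := by
    by_contra h0
    have := Polynomial.eq_one_of_monic_natDegree_zero hm (by omega)
    rw [this] at hi
    exact not_irreducible_one hi
  refine ⟨prime_coe p hd h1 hi.prime, ?_, ?_⟩
  · intro h2
    have h3 : (xx : N2) = ((Polynomial.C PowerSeries.X : Polynomial A1) : N2) := by
      rw [Polynomial.coe_C]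
      rfl
    rw [h3] at h2
    have h4 := dvd_of_coe_dvd p hd _ h2
    have h5 := Polynomial.natDegree_le_of_dvd h4
      (by rw [Ne, Polynomial.C_eq_zero]; exact PowerSeries.X_ne_zero)
    rw [Polynomial.natDegree_C] at h5
    omega
  · intro h2
    rw [dY_coe] at h2
    have h4 := dvd_of_coe_dvd p hd _ h2
    have h6 : p.derivative ≠ 0 := by
      intro h7
      have := Polynomial.derivative_eq_zero.1 h7
      omega
    have h5 := Polynomial.natDegree_le_of_dvd h4 h6
    have h8 := Polynomial.natDegree_derivative_lt (p := p) (by omega)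
    omega

end WPS9Aux

open CE9Aux WPS9Aux in
theorem stmt_WPS9 : Stmt_WPS9 := by
  classical
  intro g hg
  have := adic
  have hres : g.map (IsLocalRing.residue A1) ≠ 0 := by
    intro h
    apply hg
    rw [xx_dvd_iff]
    ext n
    have := congrArg (PowerSeries.coeff n) h
    rw [PowerSeries.coeff_map, map_zero, IsLocalRing.residue_eq_zero_iff,
      PowerSeries.maximalIdeal_eq_span_X, Ideal.mem_span_singleton, PowerSeries.X_dvd_iff] at this
    rw [r0, PowerSeries.coeff_map, map_zero]
    exact this
  obtain ⟨P, w, hP, hw, hgP⟩ := PowerSeries.exists_isWeierstrassFactorization hres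
  have hPm := hP.monic
  have hPmap := map_of_dist P hP
  obtain ⟨s, hs, hsP⟩ := factor P.natDegree P rfl hPm
  set T := s.toFinset with hTdef
  have hT : ∀ p ∈ T, p.Monic ∧ Irreducible p := fun p hp => hs p (Multiset.mem_toFinset.1 hp)
  set m : Polynomial A1 → ℕ := fun p => s.count p with hm
  set n := Multiset.card s with hn
  have hdvd : ∀ p ∈ T, p ∣ P := by
    intro p hp
    rw [← hsP]
    exact Multiset.dvd_prod (Multiset.mem_toFinset.1 hp)
  have hmap : ∀ p ∈ T, p.map (PowerSeries.constantCoeff (R := ℂ)) =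
      Polynomial.X ^ p.natDegree := fun p hp =>
    map_of_dvd P p (hT p hp).1 _ hPmap (hdvd p hp)
  have hprod : ∏ j ∈ Finset.Icc 1 n, (Wj T m j) ^ j = P := by
    rw [← hsP, Finset.prod_multiset_count, ← hTdef]
    rw [← Finset.prod_fiberwise_of_maps_to (t := Finset.Icc 1 n) (g := m)]
    · refine Finset.prod_congr rfl fun j _ => ?_
      rw [Wj_eq, ← Finset.prod_pow]
      refine Finset.prod_congr rfl fun p hp => ?_
      rw [(Finset.mem_filter.1 hp).2.symm]
    · intro p hp
      rw [Finset.mem_Icc]
      exact ⟨Multiset.one_le_count_iff_mem.2 (Multiset.mem_toFinset.1 hp), Multiset.count_le_card _ _⟩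
  have hprod' : (P : N2) = ∏ j ∈ Finset.Icc 1 n, (Wj T m j : N2) ^ j := by
    rw [← hprod, coe_prod]
    refine Finset.prod_congr rfl fun j _ => ?_
    rw [Polynomial.coe_pow]
  have hgw : g = w * ∏ j ∈ Finset.Icc 1 n, (Wj T m j : N2) ^ j := by
    rw [← hprod', hgP, mul_comm]
  refine ⟨n, Wj T m, w, ⟨Wj_monic T m hT, ?_, fun j _ => Wj_cert T m hT n j⟩, hw, hgw, ?_⟩
  · intro j
    rw [Wj_eq, Polynomial.map_prod, Polynomial.natDegree_prod_of_monic, ← Finset.prod_pow_eq_pow_sum]
    · exact Finset.prod_congr rfl fun p hp => hmap p (Finset.mem_filter.1 hp).1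
    · exact fun p hp => (hT p (Finset.mem_filter.1 hp).1).1
  · intro j hj hdeg
    have hne : (T.filter (fun p => m p = j)).Nonempty := by
      rw [Finset.nonempty_iff_ne_empty]
      intro h0
      rw [Wj_eq, h0, Finset.prod_empty, Polynomial.natDegree_one] at hdeg
      omega
    obtain ⟨p, hp⟩ := hne
    have hpT := (Finset.mem_filter.1 hp).1
    have hpm := (Finset.mem_filter.1 hp).2
    obtain ⟨f1, f2, f3⟩ := irr_facts p (hT p hpT).1 (hT p hpT).2 (hmap p hpT)
    have hd := dist_of_map p (hT p hpT).1 (hmap p hpT)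
    set R := ∏ q ∈ (T.filter (fun p => m p = j)).erase p, q with hR
    have hWR : Wj T m j = p * R := by
      rw [Wj_eq, hR, Finset.mul_prod_erase _ (fun q => q) hp]
    refine ⟨(p : N2), w * ((R ^ j * ∏ i ∈ (Finset.Icc 1 n).erase j, Wj T m i ^ i :
      Polynomial A1) : N2), f1, f2, f3, ?_, ?_⟩
    · rw [hgw, ← Finset.mul_prod_erase _ _ hj, hWR, Polynomial.coe_mul, Polynomial.coe_mul,
        coe_prod, mul_pow, Polynomial.coe_pow]
      have : ∏ i ∈ (Finset.Icc 1 n).erase j, ((Wj T m i ^ i : Polynomial A1) : N2) =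
          ∏ i ∈ (Finset.Icc 1 n).erase j, (Wj T m i : N2) ^ i :=
        Finset.prod_congr rfl fun i _ => Polynomial.coe_pow _
      rw [this]
      ring
    · intro h
      rcases f1.dvd_or_dvd h with h1 | h1
      · exact f1.not_isUnit (isUnit_of_dvd_unit h1 hw)
      · have h2 := dvd_of_coe_dvd p hd _ h1
        have hpp : Prime p := (hT p hpT).2.prime
        have hcontra : ∀ q ∈ T, q ≠ p → ¬ p ∣ q := by
          intro q hq hqp hpq
          have h3 := (hT p hpT).2.associated_of_dvd (hT q hq).2 hpq
          exact hqp (Polynomial.eq_of_monic_of_associated (hT p hpT).1 (hT q hq).1 h3).symm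
        rcases hpp.dvd_or_dvd h2 with h3 | h3
        · have h4 := hpp.dvd_of_dvd_pow h3
          obtain ⟨q, hq, hq2⟩ := hpp.exists_mem_finset_dvd h4
          rw [Finset.mem_erase, Finset.mem_filter] at hq
          exact hcontra q hq.2.1 hq.1 hq2
        · obtain ⟨i, hi, hi2⟩ := hpp.exists_mem_finset_dvd h3
          have h4 := hpp.dvd_of_dvd_pow hi2
          rw [Wj_eq] at h4
          obtain ⟨q, hq, hq2⟩ := hpp.exists_mem_finset_dvd h4
          rw [Finset.mem_filter] at hq
          refine hcontra q hq.1 ?_ hq2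
          rintro rfl
          exact Finset.ne_of_mem_erase hi (hq.2.symm.trans hpm)

end Pool.Agent.Mono.C9
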