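import Pool.Agent.Work.Monodromy6.AllPC
import Pool.Agent.Work.Monodromy6.EMB
import Pool.Agent.Work.Monodromy9.BAS9
import Pool.Agent.Work.Monodromy9.CE9
import Pool.Agent.Work.Monodromy9.CG9
import Pool.Agent.Work.Monodromy9.CHI9
import Pool.Agent.Work.Monodromy9.COMM9
import Pool.Agent.Work.Monodromy9.CT9
import Pool.Agent.Work.Monodromy9.CTV9
import Pool.Agent.Work.Monodromy9.CTW9
import Pool.Agent.Work.Monodromy9.DER9
import Pool.Agent.Work.Monodromy9.DMF9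
import Pool.Agent.Work.Monodromy9.DRV9
import Pool.Agent.Work.Monodromy9.EGG9
import Pool.Agent.Work.Monodromy9.FAM9
import Pool.Agent.Work.Monodromy9.FLD9
import Pool.Agent.Work.Monodromy9.FUB9
import Pool.Agent.Work.Monodromy9.Final9
import Pool.Agent.Work.Monodromy9.GEN9
import Pool.Agent.Work.Monodromy9.GGI9
import Pool.Agent.Work.Monodromy9.GSA9
import Pool.Agent.Work.Monodromy9.GSB9
import Pool.Agent.Work.Monodromy9.GSC9
import Pool.Agent.Work.Monodromy9.GSW9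
import Pool.Agent.Work.Monodromy9.INV9
import Pool.Agent.Work.Monodromy9.KER9
import Pool.Agent.Work.Monodromy9.LAM9
import Pool.Agent.Work.Monodromy9.MO9
import Pool.Agent.Work.Monodromy9.PL9
import Pool.Agent.Work.Monodromy9.POL9
import Pool.Agent.Work.Monodromy9.PTQ9
import Pool.Agent.Work.Monodromy9.PTS9
import Pool.Agent.Work.Monodromy9.PTT9
import Pool.Agent.Work.Monodromy9.REC9
import Pool.Agent.Work.Monodromy9.RED9
import Pool.Agent.Work.Monodromy9.RNK9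
import Pool.Agent.Work.Monodromy9.SCH9
import Pool.Agent.Work.Monodromy9.SG9
import Pool.Agent.Work.Monodromy9.SGI9
import Pool.Agent.Work.Monodromy9.SLS9
import Pool.Agent.Work.Monodromy9.SMU9
import Pool.Agent.Work.Monodromy9.SPC9
import Pool.Agent.Work.Monodromy9.STP9
import Pool.Agent.Work.Monodromy9.STR9
import Pool.Agent.Work.Monodromy9.TRE9
import Pool.Agent.Work.Monodromy9.TRL9
import Pool.Agent.Work.Monodromy9.VG9
import Pool.Agent.Work.Monodromy9.VGC9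
import Pool.Agent.Work.Monodromy9.VGG9
import Pool.Agent.Work.Monodromy9.W5F9
import Pool.Agent.Work.Monodromy9.WG9
import Pool.Agent.Work.Monodromy9.WPS9

/-!
# Phase 9: singularities of corank at most two (helper2)
-/

set_option autoImplicit false

namespace Pool.Agent.Mono.C9

open MvPolynomial

theorem gsb9 : Stmt_GSB9 := stmt_GSB9 stmt_DER9 stmt_RED9

theorem gsc9 : Stmt_GSC9 := stmt_GSC9 stmt_DER9

theorem rnk9 : Stmt_RNK9 := stmt_RNK9 stmt_DER9 stmt_SCH9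

theorem gen9 : Stmt_GEN9 := stmt_GEN9 stmt_DER9 gsb9 stmt_GSA9 gsc9

theorem fam9 : Stmt_FAM9 := stmt_FAM9 stmt_INV9

theorem vg9 : Stmt_VG9 := stmt_VG9 stmt_FUB9 stmt_VGC9 stmt_REC9

theorem egg9 : Stmt_EGG9 :=
  stmt_EGG9 stmt_STR9 (stmt_SLS9X fam9) stmt_PTS9 (stmt_FLD9 stmt_DER9) stmt_WG9

theorem vgg9 : Stmt_VGG9 := stmt_VGG9 stmt_STR9 fam9 vg9 egg9

theorem gsw9 : Stmt_GSW9 := stmt_GSW9 stmt_DER9 stmt_SCH9 stmt_RED9 gsb9 stmt_GSA9 gsc9 egg9

theorem ker9 : Stmt_KER9 := stmt_KER9 stmt_RED9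

theorem drv9 : Stmt_DRV9 := stmt_DRV9 stmt_DER9

theorem lam9 : Stmt_LAM9 := stmt_LAM9 stmt_DER9 stmt_CHI9 drv9

theorem pl9 : Stmt_PL9 := stmt_PL9 stmt_WPS9 stmt_CE9

theorem ct9 : Stmt_CT9 := stmt_CT9 (stmt_CG9 ker9) stmt_MO9 stmt_INV9

theorem dmf9 : Stmt_DMF9 := stmt_DMF9 stmt_DER9 drv9 gsw9

theorem bas9 : Stmt_BAS9 := stmt_BAS9 PC.all_VL0 PC.all_VM0 PC.stmt_EMB PC.stmt_ESUM

theorem trl9 : Stmt_TRL9 := stmt_TRL9 stmt_TRE9 bas9 stmt_SMU9

theorem sgi9 : Stmt_SGI9 := stmt_SGI9 stmt_SG9 stmt_GGI9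

theorem spc9 : Stmt_SPC9 :=
  stmt_SPC9 stmt_CHI9 lam9 pl9 ct9 stmt_CTV9 trl9 sgi9 stmt_PTT9 (stmt_PTQ9 stmt_GGI9)
    stmt_CTW9 stmt_W5F9 dmf9

theorem stp9 : Stmt_STP9 := stmt_STP9 rnk9 gen9 vgg9 spc9

/-- singularities of corank at most two: the topological zeta function -/
theorem mc_cor (P : HodgeMeasure) {ι : Type} [Fintype ι] [DecidableEq ι]
    (f : MvPolynomial ι ℂ) (hf : f.totalDegree ≠ 0)
    (h : ∀ p : ι → ℂ, eval p f = 0 → (∀ a, eval p (pderiv a f) = 0) →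
      Fintype.card ι ≤ (Matrix.of fun a b => eval p (pderiv a (pderiv b f))).rank + 2 ∨
        IsSemiQuasiHomogeneousAt f p)
    (R : RatFunc ℚ) (hR : IsTopologicalZeta P f R) : GoodPoles f R :=
  cor_top stp9 stmt_COM9 stmt_POL9 P f hf (cor2_of h) R hR

/-- singularities of corank at most two: the twisted topological zeta functions -/
theorem mc_cor_tw (P : HodgeMeasure) {ι : Type} [Fintype ι] [DecidableEq ι]
    (f : MvPolynomial ι ℂ) (hf : f.totalDegree ≠ 0)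
    (h : ∀ p : ι → ℂ, eval p f = 0 → (∀ a, eval p (pderiv a f) = 0) →
      Fintype.card ι ≤ (Matrix.of fun a b => eval p (pderiv a (pderiv b f))).rank + 2 ∨
        IsSemiQuasiHomogeneousAt f p)
    (e : ℕ) (he : 1 ≤ e) (R : RatFunc ℚ) (hR : IsTwTopZeta P f e R) : GoodPoles f R :=
  cor_tw stp9 stmt_COM9 stmt_POL9 P f hf (cor2_of h) e he R hR

end Pool.Agent.Mono.C9
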