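import Pool.Agent.Work.Monodromy9.GSW9
import Pool.Agent.Work.Monodromy9.N2Lib

/-!
# Phase 9, block DMF9: multiple factors of the germ give eigenvalues (helper52)
-/

set_option autoImplicit false

namespace Pool.Agent.Mono.C9

open MvPolynomial TS RO SP PC

namespace DMF9Aux

open N2Lib

theorem dX_pow_dvd {W g : N2} {k : ℕ} (h : W ^ (k + 1) ∣ g) : W ^ k ∣ dX g := by
  obtain ⟨r, rfl⟩ := h
  rw [dX_mul]
  refine dvd_add ?_ ?_
  · rw [pow_succ, mul_assoc]
    exact Dvd.intro _ rfl
  · apply Dvd.dvd.mul_left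
    induction k with
    | zero => simp
    | succ k ih =>
      rw [pow_succ W (k + 1), dX_mul]
      refine dvd_add (Dvd.intro _ rfl) ?_
      have h1 := mul_dvd_mul_left W ih
      rwa [← pow_succ'] at h1

theorem dY_pow_dvd {W g : N2} {k : ℕ} (h : W ^ (k + 1) ∣ g) : W ^ k ∣ dY g := by
  obtain ⟨r, rfl⟩ := h
  rw [dY_mul]
  refine dvd_add ?_ ?_
  · rw [pow_succ, mul_assoc]
    exact Dvd.intro _ rfl
  · apply Dvd.dvd.mul_left
    induction k with
    | zero => simp
    | succ k ih =>
      rw [pow_succ W (k + 1), dY_mul]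
      refine dvd_add (Dvd.intro _ rfl) ?_
      have h1 := mul_dvd_mul_left W ih
      rwa [← pow_succ'] at h1

/-- the derivation `t ∂_y` applied `k` times to `W^e g'` -/
theorem iter {W g' t : N2} {e : ℕ} : ∀ k : ℕ, k ≤ e → ∃ r : N2,
    (fun h => t * dY h)^[k] (W ^ e * g') =
      W ^ (e - k) * (((e.descFactorial k : ℕ) : N2) * (t * dY W) ^ k * g' + W * r) := by
  intro k
  induction k with
  | zero =>
    intro _
    exact ⟨0, by simp⟩
  | succ k ih =>
    intro hk
    obtain ⟨r, hr⟩ := ih (by omega)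
    obtain ⟨m, hm⟩ : ∃ m, e - k = m + 1 := ⟨e - k - 1, by omega⟩
    have hm' : e - (k + 1) = m := by omega
    rw [Function.iterate_succ_apply', hr, hm, hm']
    have hpow : ∀ n : ℕ, dY (W ^ (n + 1)) = ((n + 1 : ℕ) : N2) * W ^ n * dY W := by
      intro n
      induction n with
      | zero => simp
      | succ n ihn =>
        rw [pow_succ, dY_mul, ihn]
        push_cast
        ring
    set B : N2 := ((e.descFactorial k : ℕ) : N2) * (t * dY W) ^ k * g' with hB
    refine ⟨t * dY (B + W * r) + ((m + 1 : ℕ) : N2) * (t * dY W) * r, ?_⟩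
    rw [dY_mul, hpow]
    have hdf : ((e.descFactorial (k + 1) : ℕ) : N2) = ((m + 1 : ℕ) : N2) *
        ((e.descFactorial k : ℕ) : N2) := by
      rw [Nat.descFactorial_succ, hm]
      push_cast
      ring
    rw [hdf, hB]
    ring

end DMF9Aux

open DMF9Aux N2Lib in
theorem stmt_DMF9 (hDER : Stmt_DER9) (hDRV : Stmt_DRV9) (hGSW : Stmt_GSW9) : Stmt_DMF9 := by
  intro ι _ _ f Z p u v hf0 huv hZc hZ hdp lam ρ hρ W g' e he hW hWx hWy hWe hWg'
  have hprime : (Ideal.span {W} : Ideal N2).IsPrime :=
    (Ideal.span_singleton_prime hW.ne_zero).2 hW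
  let I : Ideal (MvPolynomial ι ℂ) := Ideal.comap ρ.toRingHom (Ideal.span {W})
  have hmem : ∀ g, g ∈ I ↔ W ∣ ρ g := fun g => by
    show ρ.toRingHom g ∈ Ideal.span {W} ↔ _
    rw [Ideal.mem_span_singleton]
    rfl
  have hI : I.IsPrime := Ideal.IsPrime.comap ρ.toRingHom
  have huZ : u ∉ Z := by
    rw [← Finset.mem_compl, hZc]
    simp
  have hvZ : v ∉ Z := by
    rw [← Finset.mem_compl, hZc]
    simp
  have huvZ : ∀ b, b ∉ Z → b = u ∨ b = v := by
    intro b hb
    rw [← Finset.mem_compl, hZc] at hb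
    simpa using hb
  have hunit : IsUnit (ρ (dt f Z)) := isUnit_iff.2 (by rw [hρ.h0]; exact hdp)
  have hdtI : dt f Z ∉ I := fun h => hW.not_isUnit (isUnit_of_dvd_unit ((hmem _).1 h) hunit)
  have hfI : f ∈ I := by
    rw [hmem, hWe]
    exact (dvd_pow_self W (by omega)).mul_right _
  have hZI : ∀ z ∈ Z, pderiv z f ∈ I := fun z hz => by
    rw [hmem, hρ.hz z hz]
    exact dvd_zero _
  have hZi : Zi f Z ≤ I := GEN9Aux.Zi_le hZI
  -- derivatives lower the power of `W` by at most one
  have hdl : ∀ (b : ι) (g : MvPolynomial ι ℂ) (k : ℕ), W ^ (k + 1) ∣ ρ g →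
      W ^ k ∣ ρ (dl f Z b g) := by
    intro b g k hg
    by_cases hb : b ∈ Z
    · rw [(hDER ι f Z).2.2.1 b hb, map_zero]
      exact dvd_zero _
    · rcases huvZ b hb with rfl | rfl
      · rw [(hDRV ι f Z p b v huv hZc hdp lam ρ hρ g).1]
        exact (dX_pow_dvd hg).mul_left _
      · rw [(hDRV ι f Z p u b huv hZc hdp lam ρ hρ g).2]
        exact (dvd_sub (dY_pow_dvd hg) ((dX_pow_dvd hg).mul_left _)).mul_left _
  have hwd : ∀ L : List ι, ∀ k : ℕ, L.length + k = e → W ^ k ∣ ρ (wd f Z L) := by
    intro L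
    induction L with
    | nil =>
      intro k hk
      rw [List.length_nil, zero_add] at hk
      rw [GEN9Aux.wd_nil, hWe, hk]
      exact Dvd.intro _ rfl
    | cons b L ih =>
      intro k hk
      rw [List.length_cons] at hk
      rw [GEN9Aux.wd_cons]
      exact hdl b _ k (ih (k + 1) (by omega))
  have hdf : ∀ a, pderiv a f ∈ I := by
    intro a
    by_cases ha : a ∈ Z
    · exact hZI a ha
    · have h1 := hZi ((hDER ι f Z).2.2.2.2.1 a)
      have h2 : dl f Z a f ∈ I := by
        rw [hmem, ← pow_one W]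
        have := hwd [a] (e - 1) (by simp; omega)
        exact (pow_dvd_pow W (by omega)).trans this
      have h3 : dt f Z * pderiv a f ∈ I := by
        have := I.sub_mem h2 h1
        rwa [sub_sub_cancel] at this
      exact (hI.mem_or_mem h3).resolve_left hdtI
  have hmax : ¬ I.IsMaximal := by
    intro hm
    obtain ⟨x, hx⟩ := (isMaximal_iff_eq_vanishingIdeal_singleton (K := ℂ)).1 hm
    have hX : ∀ a, X a - C (x a) ∈ I := by
      intro a
      rw [hx, mem_vanishingIdeal_iff]
      rintro y hy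
      rw [Set.mem_singleton_iff] at hy
      subst hy
      simp
    have hu := (hmem _).1 (hX u)
    have hv := (hmem _).1 (hX v)
    have hC : ∀ c : ℂ, ρ (C c) = cc c := fun c => by
      rw [← N2Lib.algebraMap_eq, ← ρ.commutes]
      rfl
    rw [map_sub, hρ.hu, hC] at hu
    rw [map_sub, hρ.hv, hC] at hv
    have hcomb : W ∣ xx + cc (p u - x u - lam * (p v - x v)) := by
      have := dvd_sub hu (hv.mul_left (cc lam))
      have e1 : cc (p u) + xx + cc lam * yy - cc (x u) - cc lam * (cc (p v) + yy - cc (x v)) =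
          xx + cc (p u - x u - lam * (p v - x v)) := by
        unfold cc
        simp only [map_sub, map_mul]
        ring
      rwa [e1] at this
    by_cases h0 : p u - x u - lam * (p v - x v) = 0
    · rw [h0, cc_zero, add_zero] at hcomb
      exact hWx hcomb
    · refine hW.not_isUnit (isUnit_of_dvd_unit hcomb (isUnit_iff.2 ?_))
      rw [map_add, e0_xx, e0_cc, zero_add]
      exact h0
  have hlt : ∀ L : List ι, L.length < e → wd f Z L ∈ I := by
    intro L hL
    rw [hmem]
    have := hwd L (e - L.length) (by omega)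
    exact (dvd_pow_self W (by omega)).trans this
  have hex : ∃ L : List ι, L.length = e ∧ wd f Z L ∉ I := by
    by_contra hno
    push Not at hno
    -- the iterated derivation
    let Δ : MvPolynomial ι ℂ →ₗ[ℂ] MvPolynomial ι ℂ :=
      (dl f Z v).toLinearMap + lam • (dl f Z u).toLinearMap
    have hΔ : ∀ g, Δ g = dl f Z v g + lam • dl f Z u g := fun g => rfl
    have hρΔ : ∀ g, ρ (Δ g) = ρ (dt f Z) * dY (ρ g) := by
      intro g
      rw [hΔ, map_add, map_smul, (hDRV ι f Z p u v huv hZc hdp lam ρ hρ g).1,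
        (hDRV ι f Z p u v huv hZc hdp lam ρ hρ g).2, smul_eq]
      ring
    have hspan : ∀ k : ℕ, (Δ^[k]) f ∈ Submodule.span ℂ {g | ∃ L : List ι, L.length = k ∧
        wd f Z L = g} := by
      intro k
      induction k with
      | zero => exact Submodule.subset_span ⟨[], rfl, rfl⟩
      | succ k ih =>
        rw [Function.iterate_succ_apply']
        have hle : Submodule.span ℂ {g | ∃ L : List ι, L.length = k ∧ wd f Z L = g} ≤
            (Submodule.span ℂ {g | ∃ L : List ι, L.length = k + 1 ∧ wd f Z L = g}).comap Δ := by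
          rw [Submodule.span_le]
          rintro _ ⟨L, hL, rfl⟩
          show Δ (wd f Z L) ∈ Submodule.span ℂ {g | ∃ L : List ι, L.length = k + 1 ∧
            wd f Z L = g}
          rw [hΔ]
          refine Submodule.add_mem _ (Submodule.subset_span ⟨v :: L, by simp [hL], rfl⟩)
            (Submodule.smul_mem _ _ (Submodule.subset_span ⟨u :: L, by simp [hL], rfl⟩))
        exact hle ih
    have hIC : ∀ g ∈ Submodule.span ℂ {g | ∃ L : List ι, L.length = e ∧ wd f Z L = g},
        g ∈ I := by
      intro g hg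
      have hle : Submodule.span ℂ {g | ∃ L : List ι, L.length = e ∧ wd f Z L = g} ≤
          Submodule.restrictScalars ℂ I := by
        rw [Submodule.span_le]
        rintro _ ⟨L, hL, rfl⟩
        exact hno L hL
      exact hle hg
    have hρk : ∀ k : ℕ, ρ ((Δ^[k]) f) = (fun h => ρ (dt f Z) * dY h)^[k] (ρ f) := by
      intro k
      induction k with
      | zero => rfl
      | succ k ih =>
        rw [Function.iterate_succ_apply', Function.iterate_succ_apply', hρΔ, ih]
    have h1 := (hmem _).1 (hIC _ (hspan e))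
    rw [hρk, hWe] at h1
    obtain ⟨r, hr⟩ := iter (W := W) (g' := g') (t := ρ (dt f Z)) (e := e) e le_rfl
    rw [hr, Nat.sub_self, pow_zero, one_mul] at h1
    have h2 : W ∣ ((e.descFactorial e : ℕ) : N2) * (ρ (dt f Z) * dY W) ^ e * g' :=
      (dvd_add_left (Dvd.intro r rfl)).1 h1
    rcases hW.dvd_or_dvd h2 with h3 | h3
    · rcases hW.dvd_or_dvd h3 with h4 | h4
      · have hne : (e.descFactorial e : ℕ) ≠ 0 := by
          rw [Nat.descFactorial_self]
          exact Nat.factorial_ne_zero e
        apply hW.not_isUnit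
        refine isUnit_of_dvd_unit h4 (isUnit_iff.2 ?_)
        rw [map_natCast]
        exact_mod_cast hne
      · have h5 := hW.dvd_of_dvd_pow h4
        rcases hW.dvd_or_dvd h5 with h6 | h6
        · exact hW.not_isUnit (isUnit_of_dvd_unit h6 hunit)
        · exact hWy h6
    · exact hWg' h3
  have hcard : Zᶜ.card = 2 := by
    rw [hZc]
    exact Finset.card_pair huv
  exact hGSW ι f I hf0 hI hmax hfI hdf Z e hcard hdtI he hlt hex

end Pool.Agent.Mono.C9
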