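import Pool.Agent.Work.Monodromy9.DER9

/-!
# Phase 9, common lemmas for GSA9 and others: Nakayama and Nullstellensatz (helper26)
-/

set_option autoImplicit false
set_option linter.unusedSectionVars false

namespace Pool.Agent.Mono.C9

open MvPolynomial TS RO SP PC

namespace GSAux

variable {ι : Type} [Fintype ι]

theorem mem_mI {q : ι → ℂ} {g : MvPolynomial ι ℂ} : g ∈ mI q ↔ eval q g = 0 :=
  RingHom.mem_ker

theorem mI_max (q : ι → ℂ) : (mI q).IsMaximal :=
  RingHom.ker_isMaximal_of_surjective (eval q : MvPolynomial ι ℂ →+* ℂ)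
    fun c => ⟨C c, eval_C c⟩

/-- Nullstellensatz: a polynomial outside of a prime ideal is nonzero at a point -/
theorem nullst (I : Ideal (MvPolynomial ι ℂ)) (hI : I.IsPrime) (g : MvPolynomial ι ℂ)
    (hg : g ∉ I) : ∃ q : ι → ℂ, (∀ x ∈ I, eval q x = 0) ∧ eval q g ≠ 0 := by
  by_contra h
  push Not at h
  apply hg
  have h1 : g ∈ MvPolynomial.vanishingIdeal ℂ (MvPolynomial.zeroLocus ℂ I) := by
    rw [MvPolynomial.mem_vanishingIdeal_iff]
    intro q hq
    rw [MvPolynomial.mem_zeroLocus_iff] at hq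
    have := h q (fun x hx => by
      have := hq x hx
      rwa [MvPolynomial.aeval_eq_eval] at this)
    rwa [MvPolynomial.aeval_eq_eval]
  rw [MvPolynomial.vanishingIdeal_zeroLocus_eq_radical (K := ℂ), hI.radical] at h1
  exact h1

/-- first order Taylor formula -/
theorem taylor1 (q : ι → ℂ) (g : MvPolynomial ι ℂ) :
    g - C (eval q g) - ∑ j, C (eval q (pderiv j g)) * (X j - C (q j)) ∈ mI q ^ 2 := by
  classical
  induction g using MvPolynomial.induction_on with
  | C c => simp
  | add g h hg hh =>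
    have h1 : g + h - C (eval q (g + h)) -
        ∑ j, C (eval q (pderiv j (g + h))) * (X j - C (q j)) =
        (g - C (eval q g) - ∑ j, C (eval q (pderiv j g)) * (X j - C (q j))) +
        (h - C (eval q h) - ∑ j, C (eval q (pderiv j h)) * (X j - C (q j))) := by
      simp only [map_add, add_mul, Finset.sum_add_distrib]
      ring
    rw [h1]
    exact Ideal.add_mem _ hg hh
  | mul_X g b hg =>
    have h1 : ∑ j, C (eval q (pderiv j (g * X b))) * (X j - C (q j)) =
        C (eval q g) * (X b - C (q b)) +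
          C (q b) * ∑ j, C (eval q (pderiv j g)) * (X j - C (q j)) := by
      have h2 : ∀ j, C (eval q (pderiv j (g * X b))) * (X j - C (q j)) =
          (if j = b then C (eval q g) * (X b - C (q b)) else 0) +
            C (q b) * (C (eval q (pderiv j g)) * (X j - C (q j))) := by
        intro j
        rw [Derivation.leibniz, smul_eq_mul, smul_eq_mul, pderiv_X]
        by_cases hab : j = b
        · subst hab
          rw [Pi.single_eq_same, if_pos rfl]
          simp only [mul_one, map_add, map_mul, eval_X]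
          ring
        · rw [Pi.single_eq_of_ne (Ne.symm hab), if_neg hab]
          simp only [mul_zero, map_add, map_mul, eval_X, map_zero]
          ring
      rw [Finset.sum_congr rfl fun a _ => h2 a, Finset.sum_add_distrib, Finset.sum_ite_eq',
        if_pos (Finset.mem_univ _), Finset.mul_sum]
    rw [h1]
    have h3 : g * X b - C (eval q (g * X b)) - (C (eval q g) * (X b - C (q b)) +
          C (q b) * ∑ j, C (eval q (pderiv j g)) * (X j - C (q j))) =
        C (q b) * (g - C (eval q g) - ∑ j, C (eval q (pderiv j g)) * (X j - C (q j))) +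
          (g - C (eval q g)) * (X b - C (q b)) := by
      simp only [map_mul, eval_X]
      ring
    rw [h3]
    refine Ideal.add_mem _ (Ideal.mul_mem_left _ _ hg) ?_
    rw [pow_two]
    refine Ideal.mul_mem_mul ?_ ?_
    · rw [mem_mI]; simp
    · rw [mem_mI]; simp

/-- Nakayama -/
theorem nakC (q : ι → ℂ) (A B : Ideal (MvPolynomial ι ℂ)) (h : B ≤ A ⊔ mI q * B) :
    ∃ r : MvPolynomial ι ℂ, eval q r ≠ 0 ∧ ∀ g ∈ B, r * g ∈ A := by
  have h1 : Submodule.map A.mkQ B ≤ mI q • Submodule.map A.mkQ B := by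
    rw [← Submodule.map_smul'']
    refine (Submodule.map_mono h).trans ?_
    rw [Submodule.map_sup]
    refine sup_le ?_ ?_
    · rw [Submodule.map_le_iff_le_comap]
      intro x hx
      rw [Submodule.mem_comap, Submodule.mkQ_apply, (Submodule.Quotient.mk_eq_zero A).2 hx]
      exact Submodule.zero_mem _
    · rw [smul_eq_mul]
  obtain ⟨r, hr, hr'⟩ := Submodule.exists_sub_one_mem_and_smul_eq_zero_of_fg_of_le_smul (mI q)
    (Submodule.map A.mkQ B) (Submodule.FG.map _ (IsNoetherian.noetherian _)) h1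
  refine ⟨r, ?_, fun g hg => ?_⟩
  · rw [mem_mI, map_sub, map_one, sub_eq_zero] at hr
    rw [hr]
    exact one_ne_zero
  · have h2 := hr' _ (Submodule.mem_map_of_mem hg)
    rw [Submodule.mkQ_apply, ← Submodule.Quotient.mk_smul, smul_eq_mul] at h2
    exact (Submodule.Quotient.mk_eq_zero A).1 h2

/-- Nakayama, with a denominator -/
theorem nakS (q : ι → ℂ) (A B : Ideal (MvPolynomial ι ℂ)) (s : MvPolynomial ι ℂ)
    (hs : eval q s ≠ 0) (h : ∀ g ∈ B, s * g ∈ A ⊔ mI q * B) :
    ∃ r : MvPolynomial ι ℂ, eval q r ≠ 0 ∧ ∀ g ∈ B, r * g ∈ A := by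
  refine nakC q A B fun g hg => ?_
  have h1 : g = C (eval q s)⁻¹ * (s * g) - C (eval q s)⁻¹ * ((s - C (eval q s)) * g) := by
    have h2 : C (eval q s)⁻¹ * C (eval q s) = (1 : MvPolynomial ι ℂ) := by
      rw [← C_mul, inv_mul_cancel₀ hs, C_1]
    linear_combination -g * h2
  rw [h1]
  refine Ideal.sub_mem _ (Ideal.mul_mem_left _ _ (h g hg)) (Ideal.mul_mem_left _ _ ?_)
  refine Ideal.mem_sup_right (Ideal.mul_mem_mul ?_ hg)
  rw [mem_mI]
  simp

/-- functions with independent linear terms generate the maximal ideal -/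
theorem gen_mI [DecidableEq ι] (q : ι → ℂ) (J : Ideal (MvPolynomial ι ℂ))
    (g : ι → MvPolynomial ι ℂ) (hg : ∀ i, g i ∈ J) (hq : ∀ i, eval q (g i) = 0)
    (hdet : (Matrix.of fun i j => eval q (pderiv j (g i))).det ≠ 0) :
    ∃ r : MvPolynomial ι ℂ, eval q r ≠ 0 ∧ ∀ x ∈ mI q, r * x ∈ J := by
  refine nakC q J (mI q) ?_
  rw [← pow_two]
  set M : Matrix ι ι ℂ := Matrix.of fun i j => eval q (pderiv j (g i)) with hM
  have hMi : M⁻¹ * M = 1 := Matrix.nonsing_inv_mul M (isUnit_iff_ne_zero.2 hdet)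
  have h1 : ∀ j, (X j - C (q j) : MvPolynomial ι ℂ) ∈ J ⊔ mI q ^ 2 := by
    intro j
    have h2 : ∑ i, C (M⁻¹ j i) * (∑ k, C (M i k) * (X k - C (q k))) =
        (X j - C (q j) : MvPolynomial ι ℂ) := by
      simp only [Finset.mul_sum]
      rw [Finset.sum_comm]
      have h3 : ∀ k, ∑ i, C (M⁻¹ j i) * (C (M i k) * (X k - C (q k))) =
          if k = j then (X k - C (q k) : MvPolynomial ι ℂ) else 0 := by
        intro k
        have h4 : ∑ i, C (M⁻¹ j i) * (C (M i k) * (X k - C (q k))) =
            C ((M⁻¹ * M) j k) * (X k - C (q k) : MvPolynomial ι ℂ) := by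
          rw [Matrix.mul_apply, map_sum, Finset.sum_mul]
          refine Finset.sum_congr rfl fun i _ => ?_
          rw [C_mul]
          ring
        rw [h4, hMi, Matrix.one_apply]
        by_cases hkj : k = j
        · rw [if_pos hkj, if_pos hkj.symm, C_1, one_mul]
        · rw [if_neg hkj, if_neg (Ne.symm hkj), C_0, zero_mul]
      simp only [h3]
      rw [Finset.sum_ite_eq', if_pos (Finset.mem_univ _)]
    rw [← h2]
    refine Ideal.sum_mem _ fun i _ => Ideal.mul_mem_left _ _ ?_
    have h5 := taylor1 q (g i)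
    rw [hq i, C_0, sub_zero] at h5
    have h6 : ∑ k, C (M i k) * (X k - C (q k)) = g i -
        (g i - ∑ k, C (eval q (pderiv k (g i))) * (X k - C (q k))) := by
      rw [sub_sub_cancel]
      rfl
    rw [h6]
    exact Ideal.sub_mem _ (Ideal.mem_sup_left (hg i)) (Ideal.mem_sup_right h5)
  intro x hx
  have h7 := taylor1 q x
  rw [mem_mI.1 hx, C_0, sub_zero] at h7
  have h8 : x = (x - ∑ j, C (eval q (pderiv j x)) * (X j - C (q j))) +
      ∑ j, C (eval q (pderiv j x)) * (X j - C (q j)) := by ring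
  rw [h8]
  exact Ideal.add_mem _ (Ideal.mem_sup_right h7)
    (Ideal.sum_mem _ fun j _ => Ideal.mul_mem_left _ _ (h1 j))

end GSAux

end Pool.Agent.Mono.C9
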