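import Pool.Agent.Work.Monodromy9.GEN9

/-!
# Phase 9, block GSW9: multiple components give eigenvalues (helper52)
-/

set_option autoImplicit false

namespace Pool.Agent.Mono.C9

open MvPolynomial TS RO SP PC

namespace GSW9Aux

variable {ι : Type} [Fintype ι] [DecidableEq ι]

theorem TH_mono {f : MvPolynomial ι ℂ} {S T : Set (ι → ℂ)} {Z : Finset ι} {b : ι}
    {h s w : MvPolynomial ι ℂ} {e : ℕ} (hT : TH f T Z b h s w e) (hST : S ⊆ T) :
    TH f S Z b h s w e where
  hb := hT.hb
  he := hT.he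
  crit := fun q hq => hT.crit q (hST hq)
  det := fun q hq => hT.det q (hST hq)
  h0 := fun q hq => hT.h0 q (hST hq)
  h1 := fun q hq => hT.h1 q (hST hq)
  s0 := fun q hq => hT.s0 q (hST hq)
  w0 := fun q hq => hT.w0 q (hST hq)
  eq := hT.eq

theorem TZ_mono {f : MvPolynomial ι ℂ} {S T : Set (ι → ℂ)} {Z : Finset ι}
    {s : MvPolynomial ι ℂ} (hT : TZ f T Z s) (hST : S ⊆ T) : TZ f S Z s where
  crit := fun q hq => hT.crit q (hST hq)
  det := fun q hq => hT.det q (hST hq)
  s0 := fun q hq => hT.s0 q (hST hq)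
  eq := hT.eq

theorem mem_mI (q : ι → ℂ) (g : MvPolynomial ι ℂ) : g ∈ mI q ↔ eval q g = 0 :=
  RingHom.mem_ker

theorem nak {q : ι → ℂ} {J : Ideal (MvPolynomial ι ℂ)} (h : mI q ≤ J ⊔ mI q ^ 2) :
    ∃ r : MvPolynomial ι ℂ, r - 1 ∈ mI q ∧ ∀ g ∈ mI q, r * g ∈ J := by
  have h1 : Submodule.map J.mkQ (mI q) ≤ mI q • Submodule.map J.mkQ (mI q) := by
    rw [← Submodule.map_smul'']
    refine (Submodule.map_mono h).trans ?_
    rw [Submodule.map_sup]
    refine sup_le ?_ ?_
    · rw [Submodule.map_le_iff_le_comap]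
      intro x hx
      rw [Submodule.mem_comap, Submodule.mkQ_apply, (Submodule.Quotient.mk_eq_zero J).2 hx]
      exact Submodule.zero_mem _
    · rw [sq, smul_eq_mul]
  obtain ⟨r, hr, hr'⟩ := Submodule.exists_sub_one_mem_and_smul_eq_zero_of_fg_of_le_smul (mI q)
    (Submodule.map J.mkQ (mI q)) (Submodule.FG.map _ (IsNoetherian.noetherian _)) h1
  refine ⟨r, hr, fun g hg => ?_⟩
  have h2 := hr' _ (Submodule.mem_map_of_mem hg)
  rw [Submodule.mkQ_apply, ← Submodule.Quotient.mk_smul, smul_eq_mul] at h2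
  exact (Submodule.Quotient.mk_eq_zero J).1 h2

theorem mI_max (q : ι → ℂ) : (mI q).IsMaximal := by
  unfold mI
  exact RingHom.ker_isMaximal_of_surjective (eval q) fun c => ⟨C c, eval_C c⟩

/-- if the whole Hessian matrix is invertible at a point of `V(I)`, then `I` is maximal -/
theorem full (hRED : Stmt_RED9) {f : MvPolynomial ι ℂ} {I : Ideal (MvPolynomial ι ℂ)}
    (hI : I.IsPrime) (hdf : ∀ a, pderiv a f ∈ I) {q : ι → ℂ} (hq : ∀ g ∈ I, eval q g = 0)
    (hdq : eval q (dt f Finset.univ) ≠ 0) : I.IsMaximal := by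
  have h1 : mI q ≤ Zi f Finset.univ ⊔ mI q ^ 2 := by
    intro g hg
    obtain ⟨G, hG, hgG⟩ := hRED ι f Finset.univ q (fun z _ => hq _ (hdf z)) hdq 2 g
    have hC : G = C (coeff 0 G) := by
      ext d
      rw [coeff_C]
      by_cases hd : 0 = d
      · subst hd
        simp
      · rw [if_neg hd]
        by_contra hc
        exact hd (Finsupp.ext fun z => ((hG d (mem_support_iff.2 hc)).1 z (Finset.mem_univ z)).symm)
    rw [hC] at hgG
    have e : (aeval (fun a => X a - C (q a)) : MvPolynomial ι ℂ →ₐ[ℂ] MvPolynomial ι ℂ)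
        (C (coeff 0 G)) = C (coeff 0 G) := by
      rw [aeval_C]
      rfl
    rw [e] at hgG
    have hle : Zi f Finset.univ ⊔ mI q ^ 2 ≤ mI q := by
      refine sup_le (GEN9Aux.Zi_le fun z _ => (mem_mI q _).2 (hq _ (hdf z)))
        (Ideal.pow_le_self (by norm_num))
    have h0 := (mem_mI q _).1 (hle hgG)
    rw [map_sub, (mem_mI q g).1 hg, eval_C, zero_sub, neg_eq_zero] at h0
    rw [h0, C_0, sub_zero] at hgG
    exact hgG
  obtain ⟨r, hr, hr'⟩ := nak h1
  have hrI : r ∉ I := by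
    intro h
    have h2 := (mem_mI q _).1 hr
    rw [map_sub, hq _ h, map_one] at h2
    norm_num at h2
  have hle : mI q ≤ I := fun g hg =>
    (hI.mem_or_mem (GEN9Aux.Zi_le (fun z _ => hdf z) (hr' g hg))).resolve_left hrI
  have := (mI_max q).eq_of_le hI.ne_top hle
  rw [← this]
  exact mI_max q

end GSW9Aux

theorem stmt_GSW9 (hDER : Stmt_DER9) (hSCH : Stmt_SCH9) (hRED : Stmt_RED9) (hGSB : Stmt_GSB9)
    (hGSA : Stmt_GSA9) (hGSC : Stmt_GSC9) (hEGG : Stmt_EGG9) : Stmt_GSW9 := by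
  intro ι _ _ f I hf0 hI hImax hfI hdf Z e hc2 hZ he hlt hex
  obtain ⟨L, hLe, hL⟩ := hex
  rcases Nat.lt_or_ge 2 e with h3 | h3
  · -- `e ≥ 3`
    cases L with
    | nil => exact absurd hfI hL
    | cons b L =>
      rw [List.length_cons] at hLe
      have hle : ∀ L' : List ι, L'.length ≤ L.length → wd f Z L' ∈ I := fun L' hL' =>
        hlt L' (by omega)
      obtain ⟨s₀, hs₀, s, w, h⟩ := GEN9Aux.gen_TH hDER hGSA hGSC hI hfI hdf hZ hc2.le
        (fun _ => hImax) b L (by omega) hle hL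
      obtain ⟨q, hq, hq0⟩ := RNK9Aux.exists_pt hI hs₀
      have h' := GSW9Aux.TH_mono h (S := {q}) (by
        rintro _ rfl
        exact ⟨hq, hq0⟩)
      have := ((hEGG ι f hf0 q Z s).2 b _ w _ h')
      rw [hLe] at this
      exact this
  · -- `e = 2`
    have he2 : e = 2 := by omega
    subst he2
    obtain ⟨b, c, rfl⟩ := List.length_eq_two.1 hLe
    obtain ⟨Z', hZ', hbc', hrk'⟩ := stmt_RNK9 hDER hSCH ι f I hI hdf
    have hprod : dt f Z * dt f Z' * wd f Z [b, c] ∉ I := by
      intro h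
      rcases hI.mem_or_mem h with h | h
      · exact (hI.mem_or_mem h).elim hZ hZ'
      · exact hL h
    obtain ⟨q, hq, hq0⟩ := RNK9Aux.exists_pt hI hprod
    have hdZ : eval q (dt f Z) ≠ 0 := by
      intro h0
      apply hq0
      simp only [map_mul]
      rw [h0]
      ring
    have hdZ' : eval q (dt f Z') ≠ 0 := by
      intro h0
      apply hq0
      simp only [map_mul]
      rw [h0]
      ring
    have hwq : eval q (wd f Z [b, c]) ≠ 0 := by
      intro h0
      apply hq0
      rw [map_mul, h0, mul_zero]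
    have hr' : (Hs f q).rank = Z'.card := hrk' q hq hdZ'
    have hne : (Hs f q).rank ≠ Z.card := by
      intro h
      exact hwq ((hSCH ι f Z q (fun a => hq _ (hdf a)) hdZ).1 h b c)
    have hge : Z.card ≤ (Hs f q).rank := by
      apply RNK9Aux.rank_sub
      have := (hDER ι f Z).2.2.2.2.2 q
      rw [this] at hdZ
      exact hdZ
    have hcard : Z.card + Zᶜ.card = Fintype.card ι := Finset.card_add_card_compl Z
    have hcard' : Z'.card + Z'ᶜ.card = Fintype.card ι := Finset.card_add_card_compl Z'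
    have hne0 : Z'ᶜ.card ≠ 0 := by
      intro h0
      rw [Finset.card_eq_zero, Finset.compl_eq_empty_iff] at h0
      rw [h0] at hdZ'
      exact hImax (GSW9Aux.full hRED hI hdf hq hdZ')
    have hc1 : Z'ᶜ.card = 1 := by omega
    have hZ1 : Z'.card = Z.card + 1 := by omega
    have hall : ∀ L : List ι, wd f Z' L ∈ I := by
      by_contra hnall
      obtain ⟨L, hL', hmin⟩ := GEN9Aux.min_word hnall
      cases L with
      | nil => exact hL' hfI
      | cons b' L =>
        have hle : ∀ L' : List ι, L'.length ≤ L.length → wd f Z' L' ∈ I := fun L' hL' =>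
          hmin L' (by rw [List.length_cons]; omega)
        exact hImax ((hGSA ι f Z' I hI (fun z _ => hdf z) hZ' (by omega) b' (wd f Z' L)
          (hle L le_rfl) hL').1 (by omega))
    obtain ⟨s₀, hs₀, s, h⟩ := GEN9Aux.gen_TZ hGSB hI hfI hdf hZ' hall
    obtain ⟨q', hq', hq'0⟩ := RNK9Aux.exists_pt hI hs₀
    have h' := GSW9Aux.TZ_mono h (S := {q'}) (by
      rintro _ rfl
      exact ⟨hq', hq'0⟩)
    have := (hEGG ι f hf0 q' Z' s).1 h'
    rw [hZ1] at this
    have e1 : (((Z.card + 1 : ℕ) : ℚ) / 2) = (Z.card : ℚ) / 2 + 1 / ((2 : ℕ) : ℚ) := by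
      push_cast
      ring
    rw [e1] at this
    exact this

end Pool.Agent.Mono.C9
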