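import Pool.Agent.Work.Monodromy.Interface9
import Pool.Agent.Work.Monodromy6.LA

/-!
# Block LA9 (helper2): leading terms by scaling, in families
-/

set_option autoImplicit false
set_option linter.unusedSectionVars false

namespace Pool.Agent.Mono.C9

open MvPolynomial TS RO SP PC

namespace LA9Aux

open LAAux

section

variable {E κ : Type} [Fintype κ] [DecidableEq κ]

/-- the `κ`-part of an exponent -/
noncomputable def dk (d : E ⊕ (Unit ⊕ κ) →₀ ℕ) : κ →₀ ℕ :=
  Finsupp.equivFunOnFinite.symm fun a => d (Sum.inr (Sum.inr a))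

theorem dk_apply (d : E ⊕ (Unit ⊕ κ) →₀ ℕ) (a : κ) : dk d a = d (Sum.inr (Sum.inr a)) := rfl

/-- homogenisation -/
noncomputable def Fh9 [Fintype E] (w : κ → ℕ) (M D r : ℕ) (H : MvPolynomial (E ⊕ (Unit ⊕ κ)) ℂ)
    (p : E → ℂ) : MvPolynomial (Option κ) ℂ :=
  ∑ d ∈ H.support, C (coeff d H * ∏ e, p e ^ d (Sum.inl e)) *
    X none ^ (M * d (Sum.inr (Sum.inl ())) + r * (Finsupp.weight w (dk d) - D)) *
      rename some (monomial (dk d) 1)

/-- the arcs after scaling -/
noncomputable def xh9 (w : κ → ℕ) (M r : ℕ) (y : κ → PowerSeries ℂ) (o : Option κ) :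
    PowerSeries ℂ := o.elim PowerSeries.X (yh w M r y)

variable {w m : κ → ℕ} {M D r : ℕ}

theorem weight_dk (d : E ⊕ (Unit ⊕ κ) →₀ ℕ) :
    Finsupp.weight w (dk d) = ∑ b, w b * d (Sum.inr (Sum.inr b)) := by
  rw [weight_eq]
  refine Finset.sum_congr rfl fun a _ => ?_
  rw [dk_apply, mul_comm]

theorem aeval_mon [Fintype E] {A : Type} [CommRing A] [Algebra ℂ A] (d : E ⊕ (Unit ⊕ κ) →₀ ℕ)
    (c : ℂ) (g : E → A) (T : A) (y : κ → A) :
    aeval (Sum.elim g (Sum.elim (fun _ => T) y)) (monomial d c) =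
      algebraMap ℂ A c * (∏ e, g e ^ d (Sum.inl e)) * T ^ d (Sum.inr (Sum.inl ())) *
        (dk d).prod fun a k => y a ^ k := by
  rw [aeval_monomial, Finsupp.prod_fintype _ _ (fun a => by simp), Fintype.prod_sum_type,
    Fintype.prod_sum_type, Finsupp.prod_fintype _ _ (fun a => by simp)]
  simp only [Sum.elim_inl, Sum.elim_inr, Finset.univ_unique, Finset.prod_singleton, dk_apply]
  change _ = _
  rw [show (default : Unit) = () from rfl]
  ring

/-- the scaling identity -/
theorem expand_H [Fintype E] (hM : M ≠ 0) (hw : ∀ a, 1 ≤ w a) (hwm : ∀ a, w a * m a = M)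
    {H : MvPolynomial (E ⊕ (Unit ⊕ κ)) ℂ}
    (hH : ∀ d ∈ H.support, D ≤ ∑ b, w b * d (Sum.inr (Sum.inr b))) (p : E → ℂ)
    {y : κ → PowerSeries ℂ} (hy : y ∈ Ar m r) :
    PowerSeries.expand M hM (evH H p y) =
      PowerSeries.X ^ (r * D) * aeval (xh9 w M r y) (Fh9 w M D r H p) := by
  have h1 : PowerSeries.expand M hM (evH H p y) =
      aeval (Sum.elim (fun e => PowerSeries.C (p e)) (Sum.elim (fun _ : Unit => PowerSeries.X ^ M)
        fun a => PowerSeries.X ^ (r * w a) * yh w M r y a)) H := by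
    have e : (Sum.elim (fun e => PowerSeries.C (p e)) (Sum.elim (fun _ : Unit => PowerSeries.X ^ M)
        fun a => PowerSeries.X ^ (r * w a) * yh w M r y a)) =
        fun i => PowerSeries.expand M hM ((Sum.elim (fun e => PowerSeries.C (p e))
          (Sum.elim (fun _ : Unit => PowerSeries.X) y)) i) := by
      funext i
      rcases i with e | u | a
      · exact (PowerSeries.expand_C M hM (p e)).symm
      · simp
      · exact (expand_y hM hw hwm hy a).symm
    rw [e]
    exact comp_aeval_apply _ (PowerSeries.expand M hM) H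
  rw [h1]
  conv_lhs => rw [H.as_sum]
  rw [map_sum, Fh9, map_sum, Finset.mul_sum]
  refine Finset.sum_congr rfl fun d hd => ?_
  rw [aeval_mon, map_mul, map_mul, map_pow, aeval_X, aeval_C, aeval_rename, aeval_monomial,
    map_one, one_mul]
  have e1 : xh9 w M r y none = PowerSeries.X := rfl
  have e2 : xh9 w M r y ∘ some = yh w M r y := rfl
  rw [e1, e2]
  have e3 : ((dk d).prod fun a k => (PowerSeries.X ^ (r * w a) * yh w M r y a) ^ k) =
      PowerSeries.X ^ (r * Finsupp.weight w (dk d)) * (dk d).prod fun a k =>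
        yh w M r y a ^ k := by
    rw [Finsupp.prod_fintype _ _ (fun a => by simp), Finsupp.prod_fintype _ _ (fun a => by simp)]
    simp only [mul_pow]
    rw [Finset.prod_mul_distrib, weight_eq, Finset.mul_sum, ← Finset.prod_pow_eq_pow_sum]
    congr 1
    refine Finset.prod_congr rfl fun a _ => ?_
    rw [← pow_mul]
    congr 1
    ring
  rw [e3, ← pow_mul]
  have h2 : D ≤ Finsupp.weight w (dk d) := by
    rw [weight_dk]
    exact hH d hd
  obtain ⟨k, hk⟩ := Nat.exists_eq_add_of_le h2
  have e4 : algebraMap ℂ (PowerSeries ℂ) (coeff d H * ∏ e, p e ^ d (Sum.inl e)) =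
      algebraMap ℂ (PowerSeries ℂ) (coeff d H) * ∏ e, PowerSeries.C (p e) ^ d (Sum.inl e) := by
    rw [map_mul, map_prod]
    congr 1
    refine Finset.prod_congr rfl fun e _ => ?_
    rw [map_pow]
    rfl
  rw [e4, hk, Nat.add_sub_cancel_left, mul_add, pow_add, pow_add]
  ring

theorem coeff_H [Fintype E] (hM : M ≠ 0) (hw : ∀ a, 1 ≤ w a) (hwm : ∀ a, w a * m a = M)
    {H : MvPolynomial (E ⊕ (Unit ⊕ κ)) ℂ}
    (hH : ∀ d ∈ H.support, D ≤ ∑ b, w b * d (Sum.inr (Sum.inr b))) (p : E → ℂ)
    {y : κ → PowerSeries ℂ} (hy : y ∈ Ar m r) (l : ℕ) :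
    PowerSeries.coeff l (evH H p y) = if r * D ≤ M * l then
      PowerSeries.coeff (M * l - r * D) (aeval (xh9 w M r y) (Fh9 w M D r H p)) else 0 := by
  rw [← PowerSeries.coeff_expand_mul M hM (evH H p y) l, expand_H hM hw hwm hH p hy,
    PowerSeries.coeff_X_pow_mul']

/-- `H(p, 0, y)` as a sum -/
theorem spH_eq [Fintype E] (H : MvPolynomial (E ⊕ (Unit ⊕ κ)) ℂ) (p : E → ℂ) : spH H p =
    ∑ d ∈ H.support, monomial (dk d)
      (if d (Sum.inr (Sum.inl ())) = 0 then coeff d H * ∏ e, p e ^ d (Sum.inl e) else 0) := by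
  unfold spH
  conv_lhs => rw [H.as_sum]
  rw [map_sum]
  refine Finset.sum_congr rfl fun d _ => ?_
  rw [aeval_mon]
  have e1 : (dk d).prod (fun a k => (X a : MvPolynomial κ ℂ) ^ k) = monomial (dk d) 1 := by
    rw [monomial_eq, C_1, one_mul]
  rw [e1]
  have e2 : (∏ e, (C (p e) : MvPolynomial κ ℂ) ^ d (Sum.inl e)) =
      C (∏ e, p e ^ d (Sum.inl e)) := by
    rw [map_prod]
    refine Finset.prod_congr rfl fun e _ => ?_
    rw [map_pow]
  rw [e2, algebraMap_eq]
  split_ifs with h
  · rw [h, pow_zero, mul_one, ← map_mul, C_mul_monomial, mul_one]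
  · rw [zero_pow h, mul_zero, zero_mul, map_zero]

theorem ini_spH [Fintype E] (H : MvPolynomial (E ⊕ (Unit ⊕ κ)) ℂ) (p : E → ℂ) :
    ini w D (spH H p) = ∑ d ∈ H.support, if Finsupp.weight w (dk d) = D then monomial (dk d)
      (if d (Sum.inr (Sum.inl ())) = 0 then coeff d H * ∏ e, p e ^ d (Sum.inl e) else 0)
        else 0 := by
  rw [spH_eq, ini, map_sum]
  refine Finset.sum_congr rfl fun d _ => ?_
  classical
  ext d'
  rw [coeff_weightedHomogeneousComponent]
  by_cases h : dk d = d'
  · subst h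
    split_ifs <;> simp
  · have e : ∀ c : ℂ, coeff d' (monomial (dk d) c) = 0 := fun c => by
      rw [coeff_monomial, if_neg h]
    rw [e]
    split_ifs <;> simp [e]

/-- the evaluation at `τ = 0` -/
theorem eval_zero_sum9 [Fintype E] (hr : 1 ≤ r) (hM : 1 ≤ M)
    {H : MvPolynomial (E ⊕ (Unit ⊕ κ)) ℂ}
    (hH : ∀ d ∈ H.support, D ≤ ∑ b, w b * d (Sum.inr (Sum.inr b))) (p : E → ℂ)
    (q : (κ →₀ ℕ) → MvPolynomial κ ℂ) (z : Option κ → ℂ) (hz : z none = 0) :
    eval z (∑ d ∈ H.support, C (coeff d H * ∏ e, p e ^ d (Sum.inl e)) *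
      X none ^ (M * d (Sum.inr (Sum.inl ())) + r * (Finsupp.weight w (dk d) - D)) *
        rename some (q (dk d))) =
    ∑ d ∈ H.support, if Finsupp.weight w (dk d) = D then
      (if d (Sum.inr (Sum.inl ())) = 0 then coeff d H * ∏ e, p e ^ d (Sum.inl e) else 0) *
        eval (fun a => z (some a)) (q (dk d)) else 0 := by
  rw [map_sum]
  refine Finset.sum_congr rfl fun d hd => ?_
  rw [map_mul, map_mul, map_pow, eval_C, eval_X, hz, eval_rename]
  have h : D ≤ Finsupp.weight w (dk d) := by
    rw [weight_dk]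
    exact hH d hd
  change _ * eval (fun a => z (some a)) (q (dk d)) = _
  split_ifs with h1 h2
  · rw [h1, h2, Nat.sub_self, mul_zero, mul_zero, add_zero, pow_zero, mul_one]
  · rw [zero_pow (by
      have : 1 ≤ M * d (Sum.inr (Sum.inl ())) := Nat.mul_pos hM (Nat.pos_of_ne_zero h2)
      omega), mul_zero]
  · rw [zero_pow (by
      have : 1 ≤ r * (Finsupp.weight w (dk d) - D) := Nat.mul_pos hr (by omega)
      omega), mul_zero, zero_mul]

theorem eval_Fh9 [Fintype E] (hr : 1 ≤ r) (hM : 1 ≤ M) {H : MvPolynomial (E ⊕ (Unit ⊕ κ)) ℂ}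
    (hH : ∀ d ∈ H.support, D ≤ ∑ b, w b * d (Sum.inr (Sum.inr b))) (p : E → ℂ)
    (z : Option κ → ℂ) (hz : z none = 0) :
    eval z (Fh9 w M D r H p) = eval (fun a => z (some a)) (ini w D (spH H p)) := by
  rw [Fh9, eval_zero_sum9 hr hM hH p (fun d => monomial d 1) z hz, ini_spH, map_sum]
  refine Finset.sum_congr rfl fun d hd => ?_
  split_ifs with h1 h2
  · rw [eval_monomial, eval_monomial, one_mul]
  · simp
  · simp

theorem eval_dFh9 [Fintype E] (hr : 1 ≤ r) (hM : 1 ≤ M) {H : MvPolynomial (E ⊕ (Unit ⊕ κ)) ℂ}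
    (hH : ∀ d ∈ H.support, D ≤ ∑ b, w b * d (Sum.inr (Sum.inr b))) (p : E → ℂ) (j : κ)
    (z : Option κ → ℂ) (hz : z none = 0) :
    eval z (pderiv (some j) (Fh9 w M D r H p)) =
      eval (fun a => z (some a)) (pderiv j (ini w D (spH H p))) := by
  have h1 : pderiv (some j) (Fh9 w M D r H p) =
      ∑ d ∈ H.support, C (coeff d H * ∏ e, p e ^ d (Sum.inl e)) *
        X none ^ (M * d (Sum.inr (Sum.inl ())) + r * (Finsupp.weight w (dk d) - D)) *
          rename some (pderiv j (monomial (dk d) (1 : ℂ))) := by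
    rw [Fh9, map_sum]
    refine Finset.sum_congr rfl fun d _ => ?_
    rw [Derivation.leibniz, Derivation.leibniz, Derivation.leibniz_pow, pderiv_C,
      pderiv_X_of_ne (by simp), pderiv_rename (Option.some_injective κ)]
    simp only [smul_eq_mul, mul_zero, add_zero, smul_zero, nsmul_zero]
  rw [h1, eval_zero_sum9 hr hM hH p (fun d => pderiv j (monomial d (1 : ℂ))) z hz, ini_spH,
    map_sum, map_sum]
  refine Finset.sum_congr rfl fun d hd => ?_
  split_ifs with h1 h2
  · have e : (monomial (dk d) (coeff d H * ∏ e, p e ^ d (Sum.inl e)) : MvPolynomial κ ℂ) =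
        C (coeff d H * ∏ e, p e ^ d (Sum.inl e)) * monomial (dk d) 1 := by
      rw [C_mul_monomial, mul_one]
    rw [e, pderiv_C_mul, map_mul, eval_C]
  · simp
  · simp

theorem xh9_cc (hM : M ≠ 0) (hw : ∀ a, 1 ≤ w a) (hwm : ∀ a, w a * m a = M)
    (y : κ → PowerSeries ℂ) :
    (fun o => PowerSeries.constantCoeff (xh9 w M r y o)) = fun o => o.elim 0 (ls m r y) := by
  funext o
  rcases o with _ | a
  · exact PowerSeries.constantCoeff_X
  · exact cc_yh hM hw hwm y a

/-- changing one coefficient -/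
theorem xh9_upd (hM : M ≠ 0) (y : κ → PowerSeries ℂ) (j : κ) (t : ℂ) {s N : ℕ}
    (hs : s * M = N + r * w j) :
    xh9 w M r (Function.update y j (y j + PowerSeries.C t * PowerSeries.X ^ s)) =
      Function.update (xh9 w M r y) (some j)
        (xh9 w M r y (some j) + PowerSeries.C t * PowerSeries.X ^ N) := by
  have h := xh_upd (r := r) hM y j t hs
  funext o
  rcases o with _ | a
  · rw [Function.update_of_ne (by simp)]
    rfl
  · have h1 := congrFun h (some a)
    by_cases ha : a = j
    · subst ha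
      rw [Function.update_self] at h1 ⊢
      exact h1
    · rw [Function.update_of_ne (by simpa using ha)] at h1 ⊢
      exact h1

end

end LA9Aux

open LAAux LA9Aux in
theorem stmt_LA9 : Stmt_LA9 := by
  classical
  intro E κ _ _ _ w m M D H hw hH hM1 hwm r hr p y hy
  haveI := Fintype.ofFinite E
  have hM : M ≠ 0 := by omega
  have hcc := xh9_cc (m := m) (r := r) hM hw hwm y
  refine ⟨?_, ?_, ?_⟩
  · intro l hl
    rw [coeff_H hM hw hwm hH p hy, if_neg]
    rw [mul_comm M l]
    omega
  · intro l hl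
    rw [coeff_H hM hw hwm hH p hy, if_pos (by rw [mul_comm M l]; omega), mul_comm M l, hl,
      Nat.sub_self, PowerSeries.coeff_zero_eq_constantCoeff_apply, GJetAux.constantCoeff_aeval,
      hcc, eval_Fh9 hr hM1 hH p _ rfl]
    rfl
  · intro j hj l hl
    obtain ⟨k, hk⟩ := exp_of_ne hw hwm (spH H p) (ls_off y) j hj
    have hkl : k < l := by
      have h1 : M * k < M * l := by
        calc M * k ≤ r * D := by omega
          _ < M * l := by rw [mul_comm M l]; exact hl
      exact lt_of_mul_lt_mul_left h1 (Nat.zero_le _)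
    obtain ⟨s, rfl⟩ := Nat.exists_eq_add_of_lt hkl
    obtain ⟨s', hs'⟩ : ∃ s', s' = s + 1 := ⟨_, rfl⟩
    have el : k + s + 1 = k + s' := by omega
    rw [el] at hl ⊢
    have hs : s' * M + r * D = (k + s') * M + r * w j := by
      rw [hk]
      ring
    obtain ⟨N, hN⟩ := Nat.exists_eq_add_of_lt hl
    obtain ⟨N', hN'⟩ : ∃ N', N' = N + 1 := ⟨_, rfl⟩
    have hN2 : (k + s') * M = r * D + N' := by omega
    have hN1 : 1 ≤ N' := by omega
    have hsN : s' * M = N' + r * w j := by omega
    have hrs : r < s' * m j := by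
      have h1 : r * w j < s' * M := by omega
      rw [← hwm j] at h1
      have h2 : w j * r < w j * (s' * m j) := by
        calc w j * r = r * w j := mul_comm _ _
          _ < s' * (w j * m j) := h1
          _ = w j * (s' * m j) := by ring
      exact lt_of_mul_lt_mul_left h2 (Nat.zero_le _)
    refine ⟨s', hs, hrs, ?_, ?_⟩
    · intro t
      have hy' : Function.update y j (y j + PowerSeries.C t * PowerSeries.X ^ s') ∈ Ar m r := by
        intro a l' hl'
        have h1 := O5Aux.coeff_upd_arc y j s' t a l' (fun ha => by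
          rintro rfl
          rw [ha] at hl'
          omega)
        rw [h1]
        exact hy a l' hl'
      have e1 : r * D ≤ M * (k + s') := by rw [mul_comm M]; omega
      have e2 : M * (k + s') - r * D = N' := by rw [mul_comm M]; omega
      rw [coeff_H hM hw hwm hH p hy', coeff_H hM hw hwm hH p hy, if_pos e1, if_pos e1, e2,
        xh9_upd hM y j t hsN, O5Aux.coeff_upd (Fh9 w M D r H p) (xh9 w M r y) (some j) hN1 t]
      congr 2
      have e3 : (fun o => PowerSeries.coeff 0 (xh9 w M r y o)) = fun o => o.elim 0 (ls m r y) := by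
        rw [← hcc]
        funext o
        exact PowerSeries.coeff_zero_eq_constantCoeff_apply _
      rw [e3, eval_dFh9 hr hM1 hH p j _ rfl]
      rfl
    · intro y' hy' h1 h2 l' hl'
      rw [coeff_H hM hw hwm hH p hy', coeff_H hM hw hwm hH p hy]
      by_cases h3 : r * D ≤ M * l'
      · rw [if_pos h3, if_pos h3]
        have h4 : M * l' - r * D < N' := by
          have h5 : M * l' < M * (k + s') := Nat.mul_lt_mul_of_pos_left hl' (Nat.pos_of_ne_zero hM)
          rw [mul_comm M (k + s')] at h5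
          omega
        refine GJetAux.aeval_congr (Fh9 w M D r H p) N' _ _ ?_ _ h4
        intro o n hn
        rcases o with _ | a
        · rfl
        · change PowerSeries.coeff n (yh w M r y' a) = PowerSeries.coeff n (yh w M r y a)
          rw [yh, yh, PowerSeries.coeff_mk, PowerSeries.coeff_mk]
          by_cases ha : a = j
          · subst ha
            split_ifs with h6
            · obtain ⟨q, hq⟩ := h6
              rw [hq, Nat.mul_div_cancel_left _ (Nat.pos_of_ne_zero hM)]
              refine h2 q ?_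
              have h7 : M * q < M * s' := by
                rw [← hq, mul_comm M s']
                omega
              exact lt_of_mul_lt_mul_left h7 (Nat.zero_le _)
            · rfl
          · rw [h1 a ha]
      · rw [if_neg h3, if_neg h3]

end Pool.Agent.Mono.C9
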