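import Pool.Agent.Work.Monodromy9.LA9
import Pool.Agent.Work.Monodromy6.LB
import Pool.Agent.Work.Monodromy8.VOBux

/-!
# Block LB9 (helper2): volumes of arcs with given slope and prescribed coefficients, in families
-/

set_option autoImplicit false
set_option linter.unusedSectionVars false
set_option maxHeartbeats 200000

namespace Pool.Agent.Mono.C9

open MvPolynomial TS RO SP PC

namespace LB9Aux

open RO.VGAux LAAux LBAux LA9Aux

/-! ### the leading forms as polynomials -/

section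

variable {E κ : Type} [Fintype κ] [DecidableEq κ]

/-- specialisation of the parameters -/
noncomputable def spe (p : E → ℂ) : MvPolynomial (E ⊕ κ) ℂ →ₐ[ℂ] MvPolynomial κ ℂ :=
  aeval (Sum.elim (fun e => C (p e)) X)

theorem eval_spe (p : E → ℂ) (x : κ → ℂ) (G : MvPolynomial (E ⊕ κ) ℂ) :
    eval x (spe p G) = eval (Sum.elim p x) G := by
  unfold spe
  induction G using MvPolynomial.induction_on with
  | C a => simp
  | add f g hf hg => simp only [map_add, hf, hg]
  | mul_X f i hf =>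
    simp only [map_mul, hf, aeval_X, eval_X]
    rcases i with e | a <;> simp

theorem pderiv_spe (p : E → ℂ) (j : κ) (G : MvPolynomial (E ⊕ κ) ℂ) :
    pderiv j (spe p G) = spe p (pderiv (Sum.inr j) G) := by
  classical
  induction G using MvPolynomial.induction_on with
  | C a => simp [spe]
  | add f g hf hg => simp only [map_add, hf, hg]
  | mul_X f i hf =>
    rw [map_mul, Derivation.leibniz, hf, Derivation.leibniz, map_add]
    simp only [smul_eq_mul, map_mul]
    congr 2
    rcases i with e | a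
    · rw [pderiv_X_of_ne (by simp), map_zero]
      simp [spe]
    · have : spe p (X (Sum.inr a) : MvPolynomial (E ⊕ κ) ℂ) = X a := by simp [spe]
      rw [this]
      by_cases h : a = j
      · subst h
        rw [pderiv_X_self, pderiv_X_self, map_one]
      · rw [pderiv_X_of_ne h, pderiv_X_of_ne (by simpa using h), map_zero]

/-- the leading form as a polynomial in parameters and variables -/
noncomputable def AH [Fintype E] (w : κ → ℕ) (D : ℕ) (H : MvPolynomial (E ⊕ (Unit ⊕ κ)) ℂ) :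
    MvPolynomial (E ⊕ κ) ℂ :=
  ∑ d ∈ H.support, if Finsupp.weight w (dk d) = D then
    (if d (Sum.inr (Sum.inl ())) = 0 then C (coeff d H) * (∏ e, X (Sum.inl e) ^ d (Sum.inl e)) *
      rename Sum.inr (monomial (dk d) (1 : ℂ)) else 0) else 0

theorem spe_AH [Fintype E] (w : κ → ℕ) (D : ℕ) (H : MvPolynomial (E ⊕ (Unit ⊕ κ)) ℂ)
    (p : E → ℂ) : spe p (AH w D H) = ini w D (spH H p) := by
  rw [AH, ini_spH, map_sum]
  refine Finset.sum_congr rfl fun d _ => ?_
  split_ifs with h1 h2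
  · have e1 : spe p (rename Sum.inr (monomial (dk d) (1 : ℂ)) : MvPolynomial (E ⊕ κ) ℂ) =
        monomial (dk d) 1 := by
      unfold spe
      rw [aeval_rename]
      have : (Sum.elim (fun e => C (p e)) X : E ⊕ κ → MvPolynomial κ ℂ) ∘ Sum.inr = X := rfl
      rw [this, aeval_X_left_apply]
    have e2 : spe p ((∏ e, X (Sum.inl e) ^ d (Sum.inl e)) : MvPolynomial (E ⊕ κ) ℂ) =
        C (∏ e, p e ^ d (Sum.inl e)) := by
      rw [map_prod, map_prod]
      refine Finset.prod_congr rfl fun e _ => ?_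
      rw [map_pow, map_pow]
      simp [spe]
    have e3 : spe p (C (coeff d H) : MvPolynomial (E ⊕ κ) ℂ) = C (coeff d H) := by
      simp [spe]
    rw [map_mul, map_mul, e1, e2, e3, ← map_mul, C_mul_monomial, mul_one]
  · simp
  · simp

/-- the value of a derivative of the leading form is a polynomial function -/
theorem eval_AH [Fintype E] (w : κ → ℕ) (D : ℕ) (H : MvPolynomial (E ⊕ (Unit ⊕ κ)) ℂ) (j : κ)
    (u : E ⊕ κ → ℂ) : eval u (pderiv (Sum.inr j) (AH w D H)) =
      eval (fun a => u (Sum.inr a)) (pderiv j (ini w D (spH H fun e => u (Sum.inl e)))) := by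
  rw [← spe_AH, pderiv_spe, eval_spe]
  congr 2
  funext s
  rcases s with s | s <;> rfl

theorem eval_AH0 [Fintype E] (w : κ → ℕ) (D : ℕ) (H : MvPolynomial (E ⊕ (Unit ⊕ κ)) ℂ)
    (u : E ⊕ κ → ℂ) : eval u (AH w D H) =
      eval (fun a => u (Sum.inr a)) (ini w D (spH H fun e => u (Sum.inl e))) := by
  rw [← spe_AH, eval_spe]
  congr 2
  funext s
  rcases s with s | s <;> rfl

end

section

variable {E ι : Type} [Fintype ι] [DecidableEq ι] {w m : ι → ℕ} {M D r : ℕ}

theorem Cy_DN9 [Finite E] (hm : ∀ a, 1 ≤ m a) (H : MvPolynomial (E ⊕ (Unit ⊕ ι)) ℂ)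
    {R : Set (E ⊕ ι → ℂ)} (hR : Constructible R) (B : ℕ → MvPolynomial (E ⊕ ι) ℂ) (L : ℕ) :
    Cy (DN9 m M D r H R B L) := by
  refine Cy.and (Cy_Ar hm) (Cy.and (Cy.mem hR RF_bsr) ?_)
  have h := Cy.all_lt (E := E) (ι := ι) (L + 1) (S := fun l z => r * D < l * M →
    PowerSeries.coeff l (evH H z.1 z.2) = eval (bsr m r z) (B l))
    fun l _ => Cy.imp fun _ => Cy.eq
      (VOAux.rs_evH H (fun e => RF.par e) (fun i l => RF.arc i l) l) (RF.eval RF_bsr (B l))
  convert h using 2
  ext z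
  exact ⟨fun hz l hl => hz l (by omega), fun hz l hl => hz l (by omega)⟩

theorem DN9_base {H : MvPolynomial (E ⊕ (Unit ⊕ ι)) ℂ} {R : Set (E ⊕ ι → ℂ)}
    {B : ℕ → MvPolynomial (E ⊕ ι) ℂ} {L : ℕ} (hL : L * M ≤ r * D) :
    DN9 m M D r H R B L = S0 m r R := by
  ext z
  constructor
  · rintro ⟨h1, h2, -⟩
    exact ⟨h1, h2⟩
  · rintro ⟨h1, h2⟩
    refine ⟨h1, h2, fun l hl hl' => ?_⟩
    exfalso
    have : l * M ≤ L * M := Nat.mul_le_mul_right M hl
    omega

theorem hj_ne9 {H : MvPolynomial (E ⊕ (Unit ⊕ ι)) ℂ} {R : Set (E ⊕ ι → ℂ)} {j : ι}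
    (hj : ∀ u ∈ R, eval (fun a => u (Sum.inr a))
      (pderiv j (ini w D (spH H fun e => u (Sum.inl e)))) ≠ 0)
    {z : (E → ℂ) × (ι → PowerSeries ℂ)} (hz : bsr m r z ∈ R) :
    eval (ls m r z.2) (pderiv j (ini w D (spH H z.1))) ≠ 0 := by
  have h := hj _ hz
  rw [bsr_inr] at h
  exact h

/-- one direction of the cylinder property -/
theorem dep_DN9 [Finite E] {H : MvPolynomial (E ⊕ (Unit ⊕ ι)) ℂ} (hw : ∀ a, 1 ≤ w a)
    (hH : ∀ d ∈ H.support, D ≤ ∑ b, w b * d (Sum.inr (Sum.inr b))) (hM : 1 ≤ M) (hwm : ∀ a, w a * m a = M)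
    (hr : 1 ≤ r) (hm : ∀ a, 1 ≤ m a) {R : Set (E ⊕ ι → ℂ)} (j : ι)
    (hj : ∀ u ∈ R, eval (fun a => u (Sum.inr a))
      (pderiv j (ini w D (spH H fun e => u (Sum.inl e)))) ≠ 0)
    (B : ℕ → MvPolynomial (E ⊕ ι) ℂ) {L s N : ℕ} (hL : r * D / M ≤ L)
    (hs : s * M + r * D = (L + 1) * M + r * w j) (hrs : r < s * m j)
    (hN : ∀ a, r / m a + 1 ≤ N) (hN' : L + 1 ≤ N) {p : E → ℂ} {x y : ι → PowerSeries ℂ}
    (hxy : ∀ a, ∀ l < (if a = j then s else N),
      PowerSeries.coeff l (x a) = PowerSeries.coeff l (y a))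
    (hx : (p, x) ∈ DN9 m M D r H R B L) : (p, y) ∈ DN9 m M D r H R B L := by
  have hrs' : r / m j < s := (Nat.div_lt_iff_lt_mul (hm j)).2 hrs
  have hlev : ∀ a, ∀ l, l < r / m a + 1 → PowerSeries.coeff l (x a) = PowerSeries.coeff l (y a) := by
    intro a l hl
    refine hxy a l ?_
    split_ifs with ha
    · subst ha
      omega
    · exact lt_of_lt_of_le hl (hN a)
  obtain ⟨h1, h2, h3⟩ := hx
  have e1 : bsr m r (p, x) = bsr m r (p, y) := bsr_congr fun a _ => hlev a _ (Nat.lt_succ_self _)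
  have hy : y ∈ Ar m r := (Ar_congr fun a l hl => hlev a l (lt_lev hm hl)).1 h1
  have h2y : bsr m r (p, y) ∈ R := by rw [← e1]; exact h2
  refine ⟨hy, h2y, fun l hl hl' => ?_⟩
  rw [← e1, ← h3 l hl hl']
  dsimp only
  -- the intermediate arc
  have hLM : r * D < (L + 1) * M := by
    exact Nat.lt_mul_of_div_lt (lt_of_le_of_lt hL (Nat.lt_succ_self L)) hM
  have hjy : eval (ls m r y) (pderiv j (ini w D (spH H p))) ≠ 0 := hj_ne9 (z := (p, y)) hj h2y
  have hLA0 := stmt_LA9 E ι w m M D H hw hH hM hwm r hr p y hy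
  obtain ⟨s', hs', hrs'', -, hdep⟩ := hLA0.2.2 j hjy (L + 1) hLM
  have hss : s' = s := by
    have : s' * M = s * M := by omega
    exact Nat.eq_of_mul_eq_mul_right hM this
  subst hss
  have hx' : Function.update y j (x j) ∈ Ar m r := by
    intro a l hl
    by_cases ha : a = j
    · subst ha
      rw [Function.update_self]
      exact h1 a l hl
    · rw [Function.update_of_ne ha]
      exact hy a l hl
  have e2 := hdep (Function.update y j (x j)) hx' (fun a ha n => by rw [Function.update_of_ne ha])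
    (fun n hn => by
      rw [Function.update_self]
      exact hxy j n (by rw [if_pos rfl]; exact hn)) l (by omega)
  rw [← e2]
  refine VOAux.evH_congr H p (L + 1) _ _ (fun a n hn => ?_) l (by omega)
  by_cases ha : a = j
  · subst ha
    rw [Function.update_self]
  · rw [Function.update_of_ne ha]
    exact (hxy a n (by rw [if_neg ha]; omega)).symm

theorem cyl_DN9 [Finite E] {H : MvPolynomial (E ⊕ (Unit ⊕ ι)) ℂ} (hw : ∀ a, 1 ≤ w a)
    (hH : ∀ d ∈ H.support, D ≤ ∑ b, w b * d (Sum.inr (Sum.inr b))) (hM : 1 ≤ M)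
    (hwm : ∀ a, w a * m a = M)
    (hr : 1 ≤ r) (hm : ∀ a, 1 ≤ m a) {R : Set (E ⊕ ι → ℂ)} (hR : Constructible R) (j : ι)
    (hj : ∀ u ∈ R, eval (fun a => u (Sum.inr a))
      (pderiv j (ini w D (spH H fun e => u (Sum.inl e)))) ≠ 0)
    (B : ℕ → MvPolynomial (E ⊕ ι) ℂ) {L s N : ℕ} (hL : r * D / M ≤ L)
    (hs : s * M + r * D = (L + 1) * M + r * w j) (hrs : r < s * m j)
    (hN : ∀ a, r / m a + 1 ≤ N) (hN' : L + 1 ≤ N) :
    IsCyl (fun a => if a = j then s else N) (DN9 m M D r H R B L) := by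
  refine ⟨fun p x y hxy => ⟨?_, ?_⟩, O5Aux.con_sec (Cy_DN9 hm H hR B L) _⟩
  · exact dep_DN9 hw hH hM hwm hr hm j hj B hL hs hrs hN hN' hxy
  · exact dep_DN9 hw hH hM hwm hr hm j hj B hL hs hrs hN hN' fun a l hl => (hxy a l hl).symm

/-- one step -/
theorem DN9_step [Finite E] (P : HodgeMeasure) {H : MvPolynomial (E ⊕ (Unit ⊕ ι)) ℂ} (hw : ∀ a, 1 ≤ w a)
    (hH : ∀ d ∈ H.support, D ≤ ∑ b, w b * d (Sum.inr (Sum.inr b)))
    (hM : 1 ≤ M) (hwm : ∀ a, w a * m a = M) (hr : 1 ≤ r) (hm : ∀ a, 1 ≤ m a)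
    {R : Set (E ⊕ ι → ℂ)} (hR : Constructible R)
    (hO : ∀ u ∈ R, Off m r fun a => u (Sum.inr a)) (j : ι)
    (hj : ∀ u ∈ R, eval (fun a => u (Sum.inr a))
      (pderiv j (ini w D (spH H fun e => u (Sum.inl e)))) ≠ 0)
    (B : ℕ → MvPolynomial (E ⊕ ι) ℂ) {L : ℕ} (hL : r * D / M ≤ L) :
    vol P.rat xq (DN9 m M D r H R B (L + 1)) = xq * vol P.rat xq (DN9 m M D r H R B L) := by
  have hLv := VAAux.L_mul P
  rcases R.eq_empty_or_nonempty with rfl | ⟨u, hu⟩
  · have e : ∀ L, DN9 m M D r H (∅ : Set (E ⊕ ι → ℂ)) B L = ∅ := by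
      intro L
      ext z
      constructor
      · rintro ⟨-, h, -⟩
        exact h
      · intro h
        exact absurd h (Set.notMem_empty z)
    rw [e, e, vol_empty P.rat hLv, mul_zero]
  · have hLM : r * D < (L + 1) * M :=
      Nat.lt_mul_of_div_lt (lt_of_le_of_lt hL (Nat.lt_succ_self L)) hM
    obtain ⟨k, hk⟩ := exp_of_ne hw hwm _ (hO u hu) j (hj u hu)
    have hkL : k < L + 1 := by
      have h1 : M * k < M * (L + 1) := by
        rw [mul_comm M (L + 1)]
        omega
      exact lt_of_mul_lt_mul_left h1 (Nat.zero_le _)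
    obtain ⟨s, hs⟩ : ∃ s, s + k = L + 1 := ⟨L + 1 - k, by omega⟩
    have hs1 : s * M + r * D = (L + 1) * M + r * w j := by
      rw [← hs, hk]
      ring
    have hs2 : (s + 1) * M + r * D = (L + 1 + 1) * M + r * w j := by
      rw [add_mul s, add_mul (L + 1) 1]
      omega
    have hrs : r < s * m j := by
      have h1 : r * w j < s * M := by omega
      rw [← hwm j] at h1
      have h2 : w j * r < w j * (s * m j) := by
        calc w j * r = r * w j := mul_comm _ _
          _ < s * (w j * m j) := h1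
          _ = w j * (s * m j) := by ring
      exact lt_of_mul_lt_mul_left h2 (Nat.zero_le _)
    have hrs2 : r < (s + 1) * m j := lt_of_lt_of_le hrs (Nat.mul_le_mul_right _ (Nat.le_succ s))
    have hrs' : r / m j < s := (Nat.div_lt_iff_lt_mul (hm j)).2 hrs
    set N := (∑ a, (r / m a + 1)) + L + 2 with hN
    have hN1 : ∀ a, r / m a + 1 ≤ N := by
      intro a
      have := Finset.single_le_sum (f := fun a => r / m a + 1) (fun a _ => Nat.zero_le _)
        (Finset.mem_univ a)
      omega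
    have c1 := cyl_DN9 hw hH hM hwm hr hm hR j hj B (L := L + 1) (s := s + 1) (N := N) (by omega) hs2
      hrs2 hN1 (by omega)
    have c0 := cyl_DN9 hw hH hM hwm hr hm hR j hj B (L := L) (s := s) (N := N) hL hs1
      hrs hN1 (by omega)
    -- facts about the modified arc
    have key : ∀ z : (E → ℂ) × (ι → PowerSeries ℂ), z ∈ DN9 m M D r H R B L → ∀ t : ℂ,
        (Function.update z.2 j (z.2 j + PowerSeries.C t * PowerSeries.X ^ s)) ∈ Ar m r ∧
        bsr m r (z.1, Function.update z.2 j (z.2 j + PowerSeries.C t * PowerSeries.X ^ s)) =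
          bsr m r z ∧
        (∀ l < L + 1, PowerSeries.coeff l (evH H z.1 (Function.update z.2 j
          (z.2 j + PowerSeries.C t * PowerSeries.X ^ s))) =
            PowerSeries.coeff l (evH H z.1 z.2)) ∧
        PowerSeries.coeff (L + 1) (evH H z.1 (Function.update z.2 j
          (z.2 j + PowerSeries.C t * PowerSeries.X ^ s))) =
            PowerSeries.coeff (L + 1) (evH H z.1 z.2) +
              t * eval (ls m r z.2) (pderiv j (ini w D (spH H z.1))) := by
      rintro ⟨p, y⟩ ⟨h1, h2, h3⟩ t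
      have h4 : ∀ a l, (a = j → l ≠ s) → PowerSeries.coeff l (Function.update y j
          (y j + PowerSeries.C t * PowerSeries.X ^ s) a) = PowerSeries.coeff l (y a) :=
        fun a l hl => O5Aux.coeff_upd_arc y j s t a l hl
      have h5 : (Function.update y j (y j + PowerSeries.C t * PowerSeries.X ^ s)) ∈ Ar m r := by
        refine (Ar_congr fun a l hl => h4 a l ?_).2 h1
        rintro rfl rfl
        omega
      have hjy : eval (ls m r y) (pderiv j (ini w D (spH H p))) ≠ 0 := hj_ne9 (z := (p, y)) hj h2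
      have hLA0 := stmt_LA9 E ι w m M D H hw hH hM hwm r hr p y h1
      obtain ⟨s', hs', -, hupd, hdep⟩ := hLA0.2.2 j hjy (L + 1) hLM
      have hss : s' = s := by
        have : s' * M = s * M := by omega
        exact Nat.eq_of_mul_eq_mul_right hM this
      subst hss
      refine ⟨h5, ?_, ?_, hupd t⟩
      · refine bsr_congr fun a _ => h4 a _ ?_
        rintro rfl
        omega
      · intro l hl
        refine hdep _ h5 (fun a ha n => ?_) (fun n hn => ?_) l hl
        · exact h4 a n fun h => absurd h ha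
        · exact h4 j n fun _ => by omega
    refine O5Aux.vol_step P (K := fun a => if a = j then s else N)
      (K' := fun a => if a = j then s + 1 else N) j (by simp) (fun a ha => by simp [ha]) c1 c0
      ?_ ?_ ?_
    · rintro z ⟨h1, h2, h3⟩
      exact ⟨h1, h2, fun l hl hl' => h3 l (by omega) hl'⟩
    · simp only [if_true]
      intro z hz
      have hz' := hz
      obtain ⟨h1, h2, h3⟩ := hz'
      have hc0' : eval (ls m r z.2) (pderiv j (ini w D (spH H z.1))) ≠ 0 := hj_ne9 hj h2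
      set c := eval (ls m r z.2) (pderiv j (ini w D (spH H z.1))) with hc
      have hc0 : c ≠ 0 := hc0'
      refine ⟨(eval (bsr m r z) (B (L + 1)) - PowerSeries.coeff (L + 1) (evH H z.1 z.2)) / c, ?_⟩
      obtain ⟨k1, k2, k3, k4⟩ := key z hz
        ((eval (bsr m r z) (B (L + 1)) - PowerSeries.coeff (L + 1) (evH H z.1 z.2)) / c)
      refine ⟨k1, by rw [k2]; exact h2, fun l hl hl' => ?_⟩
      rw [k2]
      dsimp only
      by_cases hlL : l = L + 1
      · subst hlL
        rw [k4, div_mul_cancel₀ _ hc0]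
        ring
      · rw [k3 l (by omega)]
        exact h3 l (by omega) hl'
    · simp only [if_true]
      intro z hz t t' ht ht'
      obtain ⟨k1, k2, k3, k4⟩ := key z hz t
      obtain ⟨k1', k2', k3', k4'⟩ := key z hz t'
      have h5 := ht.2.2 (L + 1) le_rfl hLM
      have h6 := ht'.2.2 (L + 1) le_rfl hLM
      rw [k2] at h5
      rw [k2'] at h6
      dsimp only at h5 h6
      rw [k4] at h5
      rw [k4'] at h6
      have hc0 : eval (ls m r z.2) (pderiv j (ini w D (spH H z.1))) ≠ 0 := hj_ne9 hj hz.2.1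
      have h7 : t * eval (ls m r z.2) (pderiv j (ini w D (spH H z.1))) =
          t' * eval (ls m r z.2) (pderiv j (ini w D (spH H z.1))) := by
        linear_combination h5 - h6
      exact mul_right_cancel₀ hc0 h7

theorem DN9_pivot [Finite E] (P : HodgeMeasure) {H : MvPolynomial (E ⊕ (Unit ⊕ ι)) ℂ} (hw : ∀ a, 1 ≤ w a)
    (hH : ∀ d ∈ H.support, D ≤ ∑ b, w b * d (Sum.inr (Sum.inr b)))
    (hM : 1 ≤ M) (hwm : ∀ a, w a * m a = M) (hr : 1 ≤ r) (hm : ∀ a, 1 ≤ m a)
    {R : Set (E ⊕ ι → ℂ)} (hR : Constructible R)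
    (hO : ∀ u ∈ R, Off m r fun a => u (Sum.inr a)) (j : ι)
    (hj : ∀ u ∈ R, eval (fun a => u (Sum.inr a))
      (pderiv j (ini w D (spH H fun e => u (Sum.inl e)))) ≠ 0)
    (B : ℕ → MvPolynomial (E ⊕ ι) ℂ) (n : ℕ) :
    vol P.rat xq (DN9 m M D r H R B (r * D / M + n)) =
      xq ^ (∑ a, (r / m a + 1) + n) * P.rat.val R := by
  induction n with
  | zero =>
    rw [add_zero, add_zero, DN9_base (Nat.div_mul_le_self _ _), vol_S0 P hm hR hO]
  | succ n ih =>
    rw [← add_assoc, DN9_step P hw hH hM hwm hr hm hR hO j hj B (Nat.le_add_right _ _), ih]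
    ring

theorem vol_DN9 [Fintype E] (P : HodgeMeasure) {H : MvPolynomial (E ⊕ (Unit ⊕ ι)) ℂ} (hw : ∀ a, 1 ≤ w a)
    (hH : ∀ d ∈ H.support, D ≤ ∑ b, w b * d (Sum.inr (Sum.inr b)))
    (hM : 1 ≤ M) (hwm : ∀ a, w a * m a = M) (hr : 1 ≤ r) (hm : ∀ a, 1 ≤ m a)
    (B : ℕ → MvPolynomial (E ⊕ ι) ℂ) (n : ℕ) (S : Finset ι) :
    ∀ R : Set (E ⊕ ι → ℂ), Constructible R → (∀ u ∈ R, Off m r fun a => u (Sum.inr a)) →
    (∀ u ∈ R, ∃ j ∈ S, eval (fun a => u (Sum.inr a))
      (pderiv j (ini w D (spH H fun e => u (Sum.inl e)))) ≠ 0) →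
    vol P.rat xq (DN9 m M D r H R B (r * D / M + n)) =
      xq ^ (∑ a, (r / m a + 1) + n) * P.rat.val R := by
  classical
  induction S using Finset.induction_on with
  | empty =>
    intro R hR hO h
    have hR0 : R = ∅ := by
      ext u
      simp only [Set.mem_empty_iff_false, iff_false]
      intro hu
      obtain ⟨i, hi, -⟩ := h u hu
      exact absurd hi (Finset.notMem_empty i)
    subst hR0
    have e : DN9 m M D r H (∅ : Set (E ⊕ ι → ℂ)) B (r * D / M + n) = ∅ := by
      ext z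
      constructor
      · rintro ⟨-, h, -⟩
        exact h
      · intro h
        exact absurd h (Set.notMem_empty z)
    rw [e, vol_empty P.rat (VAAux.L_mul P), P.rat.val_empty, mul_zero]
  | insert a S _ ih =>
    intro R hR hO h
    have hc : Constructible {u : E ⊕ ι → ℂ |
        eval u (pderiv (Sum.inr a) (AH w D H) : MvPolynomial (E ⊕ ι) ℂ) = 0} :=
      Constructible.zero _
    have ev : ∀ u : E ⊕ ι → ℂ,
        eval u (pderiv (Sum.inr a) (AH w D H) : MvPolynomial (E ⊕ ι) ℂ) =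
        eval (fun j => u (Sum.inr j)) (pderiv a (ini w D (spH H fun e => u (Sum.inl e)))) :=
      fun u => eval_AH w D H a u
    set R1 : Set (E ⊕ ι → ℂ) := R ∩ {u | ¬ eval u (pderiv (Sum.inr a) (AH w D H)) = 0}
      with hR1
    set R2 : Set (E ⊕ ι → ℂ) := R ∩ {u | eval u (pderiv (Sum.inr a) (AH w D H)) = 0}
      with hR2
    have c1 : Constructible R1 := hR.inter hc.not
    have c2 : Constructible R2 := hR.inter hc
    have hRu : R = R1 ∪ R2 := by
      ext u
      simp only [hR1, hR2, Set.mem_union, Set.mem_inter_iff, Set.mem_ofPred_eq]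
      tauto
    have hd : Disjoint R1 R2 := by
      rw [Set.disjoint_left]
      rintro u ⟨-, h1⟩ ⟨-, h2⟩
      exact h1 h2
    have hDu : DN9 m M D r H R B (r * D / M + n) =
        DN9 m M D r H R1 B (r * D / M + n) ∪ DN9 m M D r H R2 B (r * D / M + n) := by
      ext z
      simp only [DN9, Set.mem_union, Set.mem_ofPred_eq]
      rw [hRu, Set.mem_union]
      tauto
    have hDd : Disjoint (DN9 m M D r H R1 B (r * D / M + n))
        (DN9 m M D r H R2 B (r * D / M + n)) := by
      rw [Set.disjoint_left]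
      rintro z ⟨-, h1, -⟩ ⟨-, h2, -⟩
      exact Set.disjoint_left.1 hd h1 h2
    rw [hDu, vol_uni P (Cy_DN9 hm H c1 B _) (Cy_DN9 hm H c2 B _) hDd]
    rw [DN9_pivot P hw hH hM hwm hr hm c1 (fun u hu => hO u hu.1) a (fun u hu => by
      have := hu.2
      rw [Set.mem_ofPred_eq, ev] at this
      exact this) B n, ih R2 c2 (fun u hu => hO u hu.1) ?_, ← mul_add,
      ← P.rat.union _ _ c1 c2 hd, ← hRu]
    rintro u ⟨h1, h2⟩
    obtain ⟨i, hi, h3⟩ := h u h1
    rcases Finset.mem_insert.1 hi with rfl | hi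
    · rw [Set.mem_ofPred_eq, ev] at h2
      exact absurd h2 h3
    · exact ⟨i, hi, h3⟩

end

end LB9Aux

open LB9Aux LBAux in
theorem stmt_LB9 : Stmt_LB9 := by
  intro P E κ _ _ _ w m M D H S hH9 hM hwm r hr R hR hRS hO B L
  haveI := Fintype.ofFinite E
  obtain ⟨hw, -, hH, hiso⟩ := hH9
  have hm : ∀ a, 1 ≤ m a := by
    intro a
    rcases Nat.eq_zero_or_pos (m a) with h | h
    · have := hwm a
      rw [h, mul_zero] at this
      omega
    · exact h
  refine ⟨fun hL => ?_, fun hj hL => ?_⟩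
  · rw [DN9_base hL, vol_S0 P hm hR hO]
  · obtain ⟨n, rfl⟩ := Nat.exists_eq_add_of_le hL
    rw [vol_DN9 P hw hH hM hwm hr hm B n Finset.univ R hR hO fun u hu => by
      by_contra h
      push Not at h
      exact hj u hu (hiso _ (hRS u hu) _ fun a => h a (Finset.mem_univ a)),
      Nat.add_sub_cancel_left]

end Pool.Agent.Mono.C9
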