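import Pool.Agent.Work.Monodromy9.LB9
import Pool.Agent.Work.Monodromy6.LC

/-!
# Block LC9 (helper2): the volumes of the arcs which start at the origin, in families
-/

set_option autoImplicit false
set_option linter.unusedSectionVars false
set_option maxHeartbeats 200000

namespace Pool.Agent.Mono.C9

open MvPolynomial TS RO SP PC

namespace LC9Aux

open RO.VGAux LB9Aux LA9Aux LCAux

section

variable {E κ : Type} [Fintype κ] [DecidableEq κ]

/-! ### one more parameter -/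

/-- `H` with an additional parameter -/
noncomputable def hx (H : MvPolynomial (E ⊕ (Unit ⊕ κ)) ℂ) :
    MvPolynomial ((E ⊕ Unit) ⊕ (Unit ⊕ κ)) ℂ := rename (Sum.map Sum.inl id) H

theorem evH_hx (H : MvPolynomial (E ⊕ (Unit ⊕ κ)) ℂ) (p : E ⊕ Unit → ℂ)
    (y : κ → PowerSeries ℂ) : evH (hx H) p y = evH H (fun e => p (Sum.inl e)) y := by
  unfold evH hx
  rw [aeval_rename]
  congr 2
  funext s
  rcases s with s | s <;> rfl

theorem spH_hx (H : MvPolynomial (E ⊕ (Unit ⊕ κ)) ℂ) (p : E ⊕ Unit → ℂ) :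
    spH (hx H) p = spH H fun e => p (Sum.inl e) := by
  unfold spH hx
  rw [aeval_rename]
  congr 2
  funext s
  rcases s with s | s <;> rfl

theorem inj_hx : Function.Injective
    (Sum.map Sum.inl id : E ⊕ (Unit ⊕ κ) → (E ⊕ Unit) ⊕ (Unit ⊕ κ)) :=
  Sum.map_injective.2 ⟨Sum.inl_injective, Function.injective_id⟩

theorem HW9_hx {H : MvPolynomial (E ⊕ (Unit ⊕ κ)) ℂ} {S : Set (E → ℂ)} {w : κ → ℕ} {D : ℕ}
    (h : HW9 H S w D) : HW9 (hx H) {p : E ⊕ Unit → ℂ | (fun e => p (Sum.inl e)) ∈ S} w D := by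
  classical
  refine ⟨h.hw, h.hD, ?_, ?_⟩
  · intro d hd
    rw [hx, support_rename_of_injective inj_hx, Finset.mem_image] at hd
    obtain ⟨d', hd', rfl⟩ := hd
    refine (h.mon d' hd').trans (le_of_eq ?_)
    refine Finset.sum_congr rfl fun b _ => ?_
    have : (Sum.inr (Sum.inr b) : (E ⊕ Unit) ⊕ (Unit ⊕ κ)) =
        Sum.map Sum.inl id (Sum.inr (Sum.inr b) : E ⊕ (Unit ⊕ κ)) := rfl
    rw [this, Finsupp.mapDomain_apply inj_hx]
  · intro p hp x hx'
    refine h.iso _ hp x fun a => ?_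
    have := hx' a
    rw [spH_hx] at this
    exact this

/-! ### constructible sets -/

/-- parameters and leading form in `Q` -/
def Q0 (w m : κ → ℕ) (D r : ℕ) (H : MvPolynomial (E ⊕ (Unit ⊕ κ)) ℂ)
    (Q : Set (E ⊕ Unit → ℂ)) : Set (E ⊕ κ → ℂ) :=
  {u : E ⊕ κ → ℂ | (Off m r fun a => u (Sum.inr a)) ∧
    Sum.elim (fun e => u (Sum.inl e)) (fun _ => eval (fun a => u (Sum.inr a))
      (ini w D (spH H fun e => u (Sum.inl e)))) ∈ Q}

theorem con_Q0 [Finite E] (w m : κ → ℕ) (D r : ℕ) (H : MvPolynomial (E ⊕ (Unit ⊕ κ)) ℂ)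
    {Q : Set (E ⊕ Unit → ℂ)} (hQ : Constructible Q) : Constructible (Q0 w m D r H Q) := by
  haveI := Fintype.ofFinite E
  refine Constructible.and (Constructible.comap Sum.inr (con_off m r)) ?_
  have h := Constructible.preimage (ι := E ⊕ κ) (Sum.elim (fun p => X (Sum.inl p))
    (fun _ : Unit => AH w D H)) hQ
  have e : ∀ u : E ⊕ κ → ℂ, (fun j => eval u (Sum.elim (fun p => X (Sum.inl p))
      (fun _ : Unit => AH w D H) j)) =
      Sum.elim (fun p => u (Sum.inl p)) (fun _ => eval (fun a => u (Sum.inr a))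
        (ini w D (spH H fun e => u (Sum.inl e)))) := by
    intro u
    funext s
    rcases s with p | s
    · simp only [Sum.elim_inl, eval_X]
    · simp only [Sum.elim_inr]
      exact eval_AH0 w D H u
  simpa only [e] using h

/-- parameters in `Q`, leading coefficients a nonzero zero of the leading form -/
def Q1 (w m : κ → ℕ) (D r : ℕ) (H : MvPolynomial (E ⊕ (Unit ⊕ κ)) ℂ)
    (Q : Set (E ⊕ Unit → ℂ)) : Set ((E ⊕ Unit) ⊕ κ → ℂ) :=
  {u : (E ⊕ Unit) ⊕ κ → ℂ | (fun e => u (Sum.inl e)) ∈ Q ∧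
    (Off m r fun a => u (Sum.inr a)) ∧ (fun a => u (Sum.inr a)) ≠ 0 ∧
    eval (fun a => u (Sum.inr a)) (ini w D (spH H fun e => u (Sum.inl (Sum.inl e)))) = 0}

theorem con_Q1 [Finite E] (w m : κ → ℕ) (D r : ℕ) (H : MvPolynomial (E ⊕ (Unit ⊕ κ)) ℂ)
    {Q : Set (E ⊕ Unit → ℂ)} (hQ : Constructible Q) : Constructible (Q1 w m D r H Q) := by
  haveI := Fintype.ofFinite E
  refine Constructible.and (Constructible.comap Sum.inl hQ) (Constructible.and
    (Constructible.comap Sum.inr (con_off m r)) (Constructible.and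
    (Constructible.comap Sum.inr con_ne) ?_))
  have h : Constructible {u : (E ⊕ Unit) ⊕ κ → ℂ | eval u (AH w D (hx H)) = 0} :=
    Constructible.zero _
  have e : ∀ u : (E ⊕ Unit) ⊕ κ → ℂ, eval u (AH w D (hx H)) =
      eval (fun a => u (Sum.inr a)) (ini w D (spH H fun e => u (Sum.inl (Sum.inl e)))) := by
    intro u
    rw [eval_AH0, spH_hx]
  simpa only [e] using h

/-! ### arcs of slope `r` -/

/-- the part of `H0` of slope `r` -/
def H0r (m : κ → ℕ) (H : MvPolynomial (E ⊕ (Unit ⊕ κ)) ℂ) (Q : Set (E ⊕ Unit → ℂ)) (i r : ℕ) :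
    Set ((E → ℂ) × (κ → PowerSeries ℂ)) :=
  {z | z ∈ H0 H Q i ∧ z.2 ∈ Ar m r ∧ ls m r z.2 ≠ 0}

theorem RF_evH (H : MvPolynomial (E ⊕ (Unit ⊕ κ)) ℂ) (l : ℕ) :
    RF fun z : (E → ℂ) × (κ → PowerSeries ℂ) => PowerSeries.coeff l (evH H z.1 z.2) :=
  VOAux.rs_evH H (fun e => RF.par e) (fun i l => RF.arc i l) l

theorem Cy_H0 [Finite E] (H : MvPolynomial (E ⊕ (Unit ⊕ κ)) ℂ) {Q : Set (E ⊕ Unit → ℂ)}
    (hQ : Constructible Q) (i : ℕ) : Cy (H0 H Q i) := by
  refine Cy.and ?_ (Cy.and (Cy.all_lt i fun l _ => Cy.zero (RF_evH H l)) (Cy.mem hQ ?_))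
  · have h := Cy_all_finset (E := E) (ι := κ) Finset.univ
      (S := fun a z => PowerSeries.coeff 0 (z.2 a) = 0) (fun a _ => Cy.zero (RF.arc a 0))
    simpa only [Finset.mem_univ, true_implies] using h
  · intro s
    rcases s with p | u
    · exact RF.par p
    · exact RF_evH H i

theorem Cy_H0r [Finite E] (m : κ → ℕ) (hm : ∀ a, 1 ≤ m a)
    (H : MvPolynomial (E ⊕ (Unit ⊕ κ)) ℂ) {Q : Set (E ⊕ Unit → ℂ)}
    (hQ : Constructible Q) (i r : ℕ) : Cy (H0r m H Q i r) :=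
  Cy.and (Cy_H0 H hQ i) (Cy.and (Cy_Ar m hm r) (Cy_ls_ne m r))

variable {w m : κ → ℕ} {M D : ℕ} {H : MvPolynomial (E ⊕ (Unit ⊕ κ)) ℂ} {S : Set (E → ℂ)}

theorem vol_eq9 [Finite E] (P : HodgeMeasure) (hH : HW9 H S w D) (hM : 1 ≤ M)
    (hwm : ∀ a, w a * m a = M)
    (hm : ∀ a, 1 ≤ m a) {Q : Set (E ⊕ Unit → ℂ)} (hQ : QU Q)
    (hQS : ∀ u ∈ Q, (fun e => u (Sum.inl e)) ∈ S) (i r : ℕ) (hr : 1 ≤ r) (h : r * D = M * i) :
    vol P.rat xq (H0r m H Q i r) = xq ^ (∑ a, (r / m a + 1)) * lc9' P w m D H r Q := by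
  have e : H0r m H Q i r = DN9 m M D r H (Q0 w m D r H Q) (fun _ => 0) 0 := by
    ext z
    constructor
    · rintro ⟨⟨h1, h2, h3⟩, h4, h5⟩
      refine ⟨h4, ⟨ls_off m r z.2, ?_⟩, ?_⟩
      · have h6 := (stmt_LA9 E κ w m M D H hH.hw hH.mon hM hwm r hr z.1 z.2 h4).2.1 i
          (by rw [h, mul_comm])
        rw [h6] at h3
        exact h3
      · intro l hl hl'
        have : l = 0 := by omega
        rw [this] at hl'
        omega
    · rintro ⟨h1, ⟨h2, h3⟩, h4⟩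
      have hLA := stmt_LA9 E κ w m M D H hH.hw hH.mon hM hwm r hr z.1 z.2 h1
      have h6 := hLA.2.1 i (by rw [h, mul_comm])
      have h3' : Sum.elim z.1 (fun _ => eval (ls m r z.2) (ini w D (spH H z.1))) ∈ Q := h3
      refine ⟨⟨(mem_Ar_one m hm).1 (Ar_anti m hr h1), ?_, ?_⟩, h1, ?_⟩
      · intro l hl
        apply hLA.1
        rw [h, mul_comm M i]
        exact Nat.mul_lt_mul_of_pos_right hl hM
      · rw [h6]
        exact h3'
      · intro h0
        have h7 := hQ.2 _ h3'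
        apply h7
        simp only [Sum.elim_inr]
        rw [h0]
        exact ini_zero w D _ hH.hD
  rw [e, (stmt_LB9 P E κ w m M D H S hH hM hwm r hr (Q0 w m D r H Q) (con_Q0 w m D r H hQ.1)
    (fun u hu => hQS _ hu.2) (fun u hu => hu.1) (fun _ => 0) 0).1
      (by rw [zero_mul]; exact Nat.zero_le _)]
  rfl

theorem ls_zero9 [Finite E] (hH : HW9 H S w D) (hM : 1 ≤ M) (hwm : ∀ a, w a * m a = M)
    (r : ℕ) (hr : 1 ≤ r) {p : E → ℂ} {y : κ → PowerSeries ℂ} (hy : y ∈ Ar m r)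
    (h : M ∣ r * D → PowerSeries.coeff (r * D / M) (evH H p y) = 0) :
    eval (ls m r y) (ini w D (spH H p)) = 0 := by
  by_cases hd : M ∣ r * D
  · rw [← (stmt_LA9 E κ w m M D H hH.hw hH.mon hM hwm r hr p y hy).2.1 (r * D / M)
      (Nat.div_mul_cancel hd)]
    exact h hd
  · exact ini_off w m M D _ hwm r hd (ls_off m r y)

theorem vol_lt9 [Finite E] (P : HodgeMeasure) (hH : HW9 H S w D) (hM : 1 ≤ M)
    (hwm : ∀ a, w a * m a = M)
    (hm : ∀ a, 1 ≤ m a) {Q : Set (E ⊕ Unit → ℂ)} (hQ : QU Q)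
    (hQS : ∀ u ∈ Q, (fun e => u (Sum.inl e)) ∈ S) (i r : ℕ) (hr : 1 ≤ r) (h : r * D < M * i) :
    vol P.rat xq (H0r m H Q i r) = xq ^ (∑ a, (r / m a + 1) + (i - r * D / M)) *
      zc9 P w m D H r Q := by
  have hd : r * D / M < i := by
    rw [Nat.div_lt_iff_lt_mul hM, mul_comm i M]
    exact h
  obtain ⟨B, hBd⟩ : ∃ B : ℕ → MvPolynomial ((E ⊕ Unit) ⊕ κ) ℂ,
      B = fun l => if l = i then X (Sum.inl (Sum.inr ())) else 0 := ⟨_, rfl⟩
  have e1 := (stmt_LB9 P (E ⊕ Unit) κ w m M D (hx H) _ (HW9_hx hH) hM hwm r hr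
    (Q1 w m D r H Q) (con_Q1 w m D r H hQ.1)
    (fun u hu => hQS _ hu.1) (fun u hu => hu.2.1) B i).2 (fun u hu => hu.2.2.1) hd.le
  change _ = xq ^ (∑ a, (r / m a + 1) + (i - r * D / M)) * P.rat.val (Q1 w m D r H Q)
  rw [← e1]
  symm
  refine vol_base P (LB9Aux.Cy_DN9 hm (hx H) (con_Q1 w m D r H hQ.1) B i)
    (Cy_H0r m hm H hQ.1 i r) Sum.inl ?_ ?_ ?_
  · rintro z ⟨h1, ⟨h2, h3⟩, h4⟩
    have hLA := stmt_LA9 E κ w m M D H hH.hw hH.mon hM hwm r hr (fun e => z.1 (Sum.inl e)) z.2 h1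
    have h5 := h4 i le_rfl (by rw [mul_comm i M]; exact h)
    rw [hBd] at h5
    simp only [if_true, eval_X, evH_hx] at h5
    refine ⟨⟨(mem_Ar_one m hm).1 (Ar_anti m hr h1), ?_, ?_⟩, h1, h3.2.1⟩
    · intro l hl
      dsimp only
      rcases lt_trichotomy (l * M) (r * D) with h6 | h6 | h6
      · exact hLA.1 l h6
      · rw [hLA.2.1 l h6]
        exact h3.2.2
      · have h7 := h4 l hl.le h6
        rw [hBd] at h7
        simp only [if_neg hl.ne, map_zero, evH_hx] at h7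
        exact h7
    · dsimp only
      rw [h5]
      have h8 : (Sum.elim (fun e => z.1 (Sum.inl e)) (fun _ : Unit =>
          bsr m r z (Sum.inl (Sum.inr ())))) = fun p => bsr m r z (Sum.inl p) := by
        funext s
        rcases s with s | s
        · rfl
        · rfl
      rw [h8]
      exact h2
  · rintro z ⟨-, -, h4⟩ z' ⟨-, -, h4'⟩ h5 h6
    have h7 := h4 i le_rfl (by rw [mul_comm i M]; exact h)
    have h8 := h4' i le_rfl (by rw [mul_comm i M]; exact h)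
    rw [hBd] at h7 h8
    simp only [if_true, eval_X, evH_hx] at h7 h8
    rw [h5, h6, h8] at h7
    funext s
    rcases s with s | s
    · exact congrFun h5 s
    · exact h7.symm
  · rintro ⟨p, y⟩ ⟨⟨h1, h2, h3⟩, h4, h5⟩
    refine ⟨Sum.elim p (fun _ => PowerSeries.coeff i (evH H p y)), rfl, h4, ⟨h3, ?_⟩, ?_⟩
    · refine ⟨ls_off m r y, h5, ?_⟩
      exact ls_zero9 hH hM hwm r hr h4 fun _ => h2 _ hd
    · intro l hl h6
      rw [hBd]
      by_cases hli : l = i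
      · simp only [if_pos hli, eval_X, evH_hx]
        rw [hli]
        rfl
      · simp only [if_neg hli, map_zero, evH_hx]
        exact h2 l (lt_of_le_of_ne hl hli)

theorem H0_gt [Finite E] (hH : HW9 H S w D) (hM : 1 ≤ M) (hwm : ∀ a, w a * m a = M)
    {Q : Set (E ⊕ Unit → ℂ)} (hQ : QU Q)
    (i r : ℕ) (hr : 1 ≤ r) {z : (E → ℂ) × (κ → PowerSeries ℂ)} (hz : z ∈ H0 H Q i)
    (hy : z.2 ∈ Ar m r) : ¬ M * i < r * D := by
  intro h
  have h1 := (stmt_LA9 E κ w m M D H hH.hw hH.mon hM hwm r hr z.1 z.2 hy).1 i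
    (by rw [mul_comm i M]; exact h)
  exact hQ.2 _ hz.2.2 h1

end

end LC9Aux

open LC9Aux LCAux RO.VGAux in
theorem stmt_LC9 : Stmt_LC9 := by
  classical
  intro P E κ _ _ _ w m M D H S hH hM hwm Q hQ hQS i hi
  have hD : 1 ≤ D := hH.hD
  have hm : ∀ a, 1 ≤ m a := by
    intro a
    rcases Nat.eq_zero_or_pos (m a) with h0 | h0
    · have := hwm a
      rw [h0, mul_zero] at this
      omega
    · exact h0
  have e1 : H0 H Q i = ⋃ r ∈ Finset.Ico 1 (M * i + 1), H0r m H Q i r := by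
    ext z
    simp only [Set.mem_iUnion, Finset.mem_Ico]
    constructor
    · intro hz
      obtain ⟨r, h1, h2, h3, h4⟩ := exists_slope m hm ((mem_Ar_one m hm).2 hz.1) (M * i) (by
        intro h5
        apply H0_gt hH hM hwm hQ i (M * i + 1) (by omega) hz h5
        calc M * i < M * i + 1 := Nat.lt_succ_self _
          _ ≤ (M * i + 1) * D := Nat.le_mul_of_pos_right _ hD)
      exact ⟨r, ⟨h1, h2⟩, hz, h3, h4⟩
    · rintro ⟨r, -, hz, -⟩
      exact hz
  rw [e1, vol_biU P (Finset.Ico 1 (M * i + 1)) (fun r _ => Cy_H0r m hm H hQ.1 i r) (by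
    intro r _ r' _ hne
    rw [Set.disjoint_left]
    rintro z ⟨-, h1, h2⟩ ⟨-, h3, h4⟩
    exact hne (le_antisymm (slope_unique m hm h3 h4 h1) (slope_unique m hm h1 h2 h3)))]
  have e2 : ∀ r ∈ Finset.Ico 1 (M * i + 1), vol P.rat xq (H0r m H Q i r) =
      (if r * D = M * i then xq ^ (∑ a, (r / m a + 1)) * lc9' P w m D H r Q else 0) +
      (if r * D < M * i then xq ^ (∑ a, (r / m a + 1) + (i - r * D / M)) *
        zc9 P w m D H r Q else 0) := by
    intro r hr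
    have hr1 := (Finset.mem_Ico.1 hr).1
    rcases lt_trichotomy (r * D) (M * i) with h | h | h
    · rw [if_neg h.ne, if_pos h, zero_add]
      exact vol_lt9 P hH hM hwm hm hQ hQS i r hr1 h
    · rw [if_pos h, if_neg h.not_lt, add_zero]
      exact vol_eq9 P hH hM hwm hm hQ hQS i r hr1 h
    · rw [if_neg h.ne', if_neg (not_lt.2 h.le), add_zero]
      have e3 : H0r m H Q i r = ∅ := by
        rw [Set.eq_empty_iff_forall_notMem]
        rintro z ⟨hz, h4, -⟩
        exact H0_gt hH hM hwm hQ i r hr1 hz h4 h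
      rw [e3, vol_empty P.rat (VAAux.L_mul P)]
  rw [Finset.sum_congr rfl e2, Finset.sum_add_distrib]
  congr 1
  by_cases hd : D ∣ M * i
  · rw [if_pos hd]
    have h1 : 1 ≤ M * i / D := by
      rw [Nat.one_le_div_iff (by omega)]
      exact Nat.le_of_dvd (by positivity) hd
    rw [Finset.sum_eq_single (M * i / D)]
    · rw [if_pos (Nat.div_mul_cancel hd)]
    · intro r _ hr
      rw [if_neg]
      intro h2
      apply hr
      rw [← h2, Nat.mul_div_cancel _ (by omega)]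
    · intro h2
      exfalso
      apply h2
      rw [Finset.mem_Ico]
      exact ⟨h1, Nat.lt_succ_of_le (Nat.div_le_self _ _)⟩
  · rw [if_neg hd]
    refine Finset.sum_eq_zero fun r _ => ?_
    rw [if_neg]
    intro h2
    apply hd
    rw [← h2]
    exact Dvd.intro_left r rfl

end Pool.Agent.Mono.C9
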