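import Pool.Agent.Work.Monodromy.Interface9
import Pool.Agent.Work.Monodromy8.RNK8

/-!
# Phase 9, block RNK9: the rank at the generic points of `V(I)` (helper52)
-/

set_option autoImplicit false

namespace Pool.Agent.Mono.C9

open MvPolynomial TS RO SP PC

namespace RNK9Aux

variable {ι : Type}

/-- Nullstellensatz for a prime ideal -/
theorem null [Finite ι] {I : Ideal (MvPolynomial ι ℂ)} (hI : I.IsPrime) {g : MvPolynomial ι ℂ}
    (h : ∀ q : ι → ℂ, (∀ g ∈ I, eval q g = 0) → eval q g = 0) : g ∈ I := by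
  haveI := hI
  have h1 := MvPolynomial.IsPrime.vanishingIdeal_zeroLocus (K := ℂ) I
  rw [← h1, mem_vanishingIdeal_iff]
  intro q hq
  have e : ∀ g : MvPolynomial ι ℂ, aeval q g = eval q g := fun g => by
    rw [← MvPolynomial.coe_aeval_eq_eval]
    rfl
  rw [e]
  exact h q (fun g hg => (e g).symm.trans ((mem_zeroLocus_iff.1 hq) g hg))

/-- a point where a given element outside of `I` does not vanish -/
theorem exists_pt [Finite ι] {I : Ideal (MvPolynomial ι ℂ)} (hI : I.IsPrime)
    {g : MvPolynomial ι ℂ} (h : g ∉ I) :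
    ∃ q : ι → ℂ, (∀ g ∈ I, eval q g = 0) ∧ eval q g ≠ 0 := by
  by_contra hc
  push Not at hc
  exact h (null hI hc)

theorem rank_sub [Fintype ι] [DecidableEq ι] (H : Matrix ι ι ℂ) (Z : Finset ι)
    (h : (H.submatrix (fun a : Z => (a : ι)) fun a : Z => (a : ι)).det ≠ 0) :
    Z.card ≤ H.rank := by
  have e : H.submatrix (fun a : Z => (a : ι)) (fun a : Z => (a : ι)) =
      (1 : Matrix ι ι ℂ).submatrix (fun a : Z => (a : ι)) (Equiv.refl ι) * H *
        (1 : Matrix ι ι ℂ).submatrix (Equiv.refl ι) (fun a : Z => (a : ι)) := by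
    rw [Matrix.one_submatrix_mul, Matrix.mul_submatrix_one]
    rfl
  have hr : (H.submatrix (fun a : Z => (a : ι)) fun a : Z => (a : ι)).rank = Z.card := by
    rw [Matrix.rank_of_isUnit _ ((Matrix.isUnit_iff_isUnit_det _).2 (isUnit_iff_ne_zero.2 h)),
      Fintype.card_coe]
  rw [← hr, e]
  exact (Matrix.rank_mul_le_left _ _).trans (Matrix.rank_mul_le_right _ _)

end RNK9Aux

theorem stmt_RNK9 (hDER : Stmt_DER9) (hSCH : Stmt_SCH9) : Stmt_RNK9 := by
  intro ι _ _ f I hI hdf
  classical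
  have hex : ∃ Z ∈ (Finset.univ : Finset (Finset ι)).filter (fun Z => dt f Z ∉ I),
      ∀ Z' ∈ (Finset.univ : Finset (Finset ι)).filter (fun Z => dt f Z ∉ I),
        Z'.card ≤ Z.card := by
    apply Finset.exists_max_image
    refine ⟨∅, ?_⟩
    simp only [Finset.mem_filter, Finset.mem_univ, true_and]
    have : dt f (∅ : Finset ι) = 1 := by
      unfold dt
      exact Matrix.det_isEmpty
    rw [this]
    exact fun h => hI.ne_top ((Ideal.eq_top_iff_one _).2 h)
  obtain ⟨Z, hZ, hmax⟩ := hex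
  simp only [Finset.mem_filter, Finset.mem_univ, true_and] at hZ hmax
  have hrk : ∀ q : ι → ℂ, (∀ g ∈ I, eval q g = 0) → eval q (dt f Z) ≠ 0 →
      (Hs f q).rank = Z.card := by
    intro q hq hdq
    have hev := fun Z => (hDER ι f Z).2.2.2.2.2 q
    apply le_antisymm
    · obtain ⟨Z', hd', hr'⟩ := stmt_RNK8 ι f q
      rw [hr']
      apply hmax
      intro h
      exact hd' ((hev Z').symm.trans (hq _ h))
    · apply RNK9Aux.rank_sub
      have := hev Z
      rw [this] at hdq
      exact hdq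
  refine ⟨Z, hZ, ?_, hrk⟩
  intro b c
  have : dt f Z * dl f Z b (dl f Z c f) ∈ I := by
    apply RNK9Aux.null hI
    intro q hq
    by_cases hd : eval q (dt f Z) = 0
    · rw [map_mul, hd, zero_mul]
    · rw [map_mul, ((hSCH ι f Z q (fun a => hq _ (hdf a)) hd).1 (hrk q hq hd)) b c, mul_zero]
  exact (hI.mem_or_mem this).resolve_left hZ

end Pool.Agent.Mono.C9
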