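import Pool.Agent.Work.Monodromy6.TJ
import Pool.Agent.Work.Monodromy.Defs9

/-! Phase 9, block TRE9, first part: regions (local version of `Monodromy6/TG`, `TH`). -/

set_option autoImplicit false
set_option linter.unusedSimpArgs false
set_option linter.unusedVariables false

namespace Pool.Agent.Mono.C9.TREAux

open MvPolynomial PC PC.TT

variable {Λ : Set ℚ} {n : ℕ} {g : ℕ → P2}

/-- the setting, exponents of `TT.FF n g` at the origin only -/
structure Ctx9 (Λ : Set ℚ) (n : ℕ) (g : ℕ → P2) : Prop where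
  sq : Squarefree (RR n g)
  exp : ∀ r : ℚ, GoodExp (TT.FF n g) r → 0 < r → r ∈ Λ
  mul : ∀ j ∈ Finset.Icc 1 n, 2 ≤ j → ¬ IsUnit (g j) → 1 / (j : ℚ) ∈ Λ
  cert : ∃ (a b : P2) (ρ : Polynomial ℂ), ρ ≠ 0 ∧
    a * RR n g + b * pderiv 1 (RR n g) = Polynomial.aeval (X 0 : P2) ρ

lemma Ctx9.RR_ne (h : Ctx9 Λ n g) : RR n g ≠ 0 := h.sq.ne_zero

lemma Ctx9.g_ne (h : Ctx9 Λ n g) {j : ℕ} (hj : j ∈ Finset.Icc 1 n) : g j ≠ 0 := by
  intro h0
  apply h.RR_ne
  exact Finset.prod_eq_zero hj h0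

lemma Ctx9.FF_ne (h : Ctx9 Λ n g) : TT.FF n g ≠ 0 := by
  unfold TT.FF
  exact Finset.prod_ne_zero_iff.2 fun j hj => pow_ne_zero _ (h.g_ne hj)

/-! ## The last region -/

/-- height one -/
lemma reg_one (hC : Ctx9 Λ n g) {M H e : ℕ} {Φ : Polynomial ℂ} (hc : Chart M H e Φ)
    {p q A B AR : ℕ} (hp : 1 ≤ p) (hF : Vtx (chartMap M H Φ (TT.FF n g)) p q A B)
    (hR : Vtx (chartMap M H Φ (RR n g)) p q AR 1) (hN : 1 ≤ p * A + q * B) (hB1 : 1 ≤ B) :
    RB Λ (chartMap M H Φ (TT.FF n g)) (M + H) p q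
      (some ((chartMap M H Φ (TT.FF n g)).coeff (mon A B), A, B, 0, 1)) ∧
      (2 ≤ B → 1 / (B : ℚ) ∈ Λ) := by
  classical
  have hex : ∀ j : ℕ, ∃ z : ℕ × ℕ, j ∈ Finset.Icc 1 n →
      Vtx (chartMap M H Φ (g j)) p q z.1 z.2 := by
    intro j
    by_cases hj : j ∈ Finset.Icc 1 n
    · obtain ⟨A', B', h⟩ := exists_vtx hp q (Chart.map_ne_zero hc (hC.g_ne hj))
      exact ⟨(A', B'), fun _ => h⟩
    · exact ⟨(0, 0), fun h => absurd h hj⟩
  choose z hz using hex
  have hRp : chartMap M H Φ (RR n g) = ∏ j ∈ Finset.Icc 1 n, chartMap M H Φ (g j) := by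
    unfold RR; rw [map_prod]
  have hFp : chartMap M H Φ (TT.FF n g) = ∏ j ∈ Finset.Icc 1 n, chartMap M H Φ (g j) ^ j := by
    unfold TT.FF; rw [map_prod]; simp only [map_pow]
  have hR' := vtx_prod (Finset.Icc 1 n) (fun j => chartMap M H Φ (g j)) (fun j => (z j).1)
    (fun j => (z j).2) hp (fun j hj => hz j hj)
  rw [← hRp] at hR'
  obtain ⟨_, hsum⟩ := hR.unique hp hR'
  -- the factor of height one
  obtain ⟨j0, hj0, hj0z⟩ : ∃ j0 ∈ Finset.Icc 1 n, (z j0).2 ≠ 0 := by
    by_contra hall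
    push Not at hall
    rw [Finset.sum_eq_zero hall] at hsum
    omega
  have hsum2 := Finset.add_sum_erase (Finset.Icc 1 n) (fun j => (z j).2) hj0
  have hj01 : (z j0).2 = 1 := by omega
  have hrest : ∀ j ∈ (Finset.Icc 1 n).erase j0, (z j).2 = 0 := by
    have : ∑ j ∈ (Finset.Icc 1 n).erase j0, (z j).2 = 0 := by omega
    exact Finset.sum_eq_zero_iff.1 this
  set gg := chartMap M H Φ (g j0) with hgg
  set hh := ∏ j ∈ (Finset.Icc 1 n).erase j0, chartMap M H Φ (g j) ^ j with hhh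
  have hFgh : chartMap M H Φ (TT.FF n g) = gg ^ j0 * hh := by
    rw [hFp, hgg, hhh, Finset.mul_prod_erase (Finset.Icc 1 n)
      (fun j => chartMap M H Φ (g j) ^ j) hj0]
  have hVg : Vtx gg p q (z j0).1 1 := by rw [← hj01]; exact hz j0 hj0
  have hVh : Vtx hh p q (∑ j ∈ (Finset.Icc 1 n).erase j0, j * (z j).1) 0 := by
    have := vtx_prod ((Finset.Icc 1 n).erase j0) (fun j => chartMap M H Φ (g j) ^ j)
      (fun j => j * (z j).1) (fun j => j * (z j).2) hp
      (fun j hj => (hz j (Finset.mem_of_mem_erase hj)).pow hp j)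
    rwa [Finset.sum_eq_zero (s := (Finset.Icc 1 n).erase j0) (f := fun j => j * (z j).2)
      (fun j hj => by rw [hrest j hj, mul_zero])] at this
  set A2 := ∑ j ∈ (Finset.Icc 1 n).erase j0, j * (z j).1 with hA2
  have hj0p := (Finset.mem_Icc.1 hj0).1
  have hVF := (hVg.pow hp j0).mul hp hVh
  rw [← hFgh] at hVF
  obtain ⟨eA, eB⟩ := hF.unique hp hVF
  rw [mul_one, add_zero] at eB
  subst eB
  have hcoef : (chartMap M H Φ (TT.FF n g)).coeff (mon A B) =
      gg.coeff (mon (z B).1 1) ^ B * hh.coeff (mon A2 0) := by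
    have c1 : ∀ {X : P2} {a b : ℕ}, Vtx X p q a b →
        X.coeff (mon a b) = (inF p q X).trailingCoeff := by
      intro X a b hX
      have := inF_coeff hp q (F := X) (d := mon a b) (by rw [hX.ord hp]; simp [W])
      rw [mon_one] at this
      rw [← this, Polynomial.trailingCoeff, hX.natTrailingDegree hp]
    rw [c1 hF, c1 hVg, c1 hVh, hFgh, inF_mul, Polynomial.trailingCoeff_mul]
    congr 1
    have : ∀ m : ℕ, (inF p q (gg ^ m)).trailingCoeff = (inF p q gg).trailingCoeff ^ m := by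
      intro m
      induction m with
      | zero =>
        have : inF p q (1 : P2) = 1 := by
          have := inF_C p q 1
          simpa using this
        rw [pow_zero, pow_zero, this]
        simp [Polynomial.trailingCoeff]
      | succ m ih => rw [pow_succ, inF_mul, Polynomial.trailingCoeff_mul, ih, pow_succ]
    exact this B
  constructor
  · have h1 := RB.fin1 (Λ := Λ) gg hh (M + H) p q (z B).1 A2 B hp hB1 hVg.ne
      (by intro d hd; have := hVg.le d hd; rw [mul_one] at this; exact this)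
      (by intro d hd h0; have := hVg.lt d hd (by omega); rw [h0, mul_one] at this; simpa using this)
      hVh.ne (by intro d hd; have := hVh.le d hd; simpa using this)
      (by rw [← eA]; exact hN)
    rw [hcoef, eA, hFgh]
    exact h1
  · intro hB2
    apply hC.mul B hj0 hB2
    intro hu
    obtain ⟨c, hc0, hcC⟩ : ∃ c : ℂ, c ≠ 0 ∧ g B = C c := by
      obtain ⟨c, hcu, hcg⟩ := MvPolynomial.isUnit_iff_eq_C_of_isReduced.1 hu
      exact ⟨c, hcu.ne_zero, hcg⟩
    have h1 : gg = C c := by rw [hgg, hcC, chartMap, aeval_C]; rfl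
    have h2 := vtx_C p q hc0
    rw [← h1] at h2
    have := (hVg.unique hp h2).2
    omega

/-- a good edge gives everything, from the result for the children and the next region -/
lemma edge_core (hC : Ctx9 Λ n g) {M H e : ℕ} {Φ : Polynomial ℂ} (hc : Chart M H e Φ)
    {p q A B AR BR p2 q2 bR : ℕ} {I : Polynomial ℂ} (hp : 1 ≤ p)
    (hF : Vtx (chartMap M H Φ (TT.FF n g)) p q A B) (hR : Vtx (chartMap M H Φ (RR n g)) p q AR BR)
    (heA : e * B ≤ A) (hq2' : 1 ≤ e ∨ p2 ≤ q2)
    (hgood : GoodNext (chartMap M H Φ (TT.FF n g)) (chartMap M H Φ (RR n g)) p q A B AR BR p2 q2 bR I)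
    (hlt1 : p2 * (M + H) + q2 < p2 * A + q2 * B) (hspec : 3 ≤ special p2 q2 A bR I)
    (ihN : ∀ {M H e : ℕ} {Φ : Polynomial ℂ}, Chart M H e Φ → ∀ {p q A B AR BR' : ℕ}, 1 ≤ p →
      Vtx (chartMap M H Φ (TT.FF n g)) p q A B → Vtx (chartMap M H Φ (RR n g)) p q AR BR' →
      BR' < BR → e * B ≤ A → (1 ≤ e ∨ p ≤ q) → 1 ≤ p * A + q * B →
      rate (M + H) A B p q ∈ Λ → rate (M + H) A B p q < 1 →
      RB Λ (chartMap M H Φ (TT.FF n g)) (M + H) p q none) :
    rate (M + H) A B p2 q2 ∈ Λ ∧ rate (M + H) A B p2 q2 < 1 ∧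
    (∀ lam : ℂ, lam ≠ 0 → I.eval (lam ^ p2) = 0 →
      RB Λ (chart p2 q2 lam (chartMap M H Φ (TT.FF n g))) (p2 * (M + H) + q2) 1 0 none) ∧
    RB Λ (chartMap M H Φ (TT.FF n g)) (M + H) p2 q2 none := by
  have hp2 := hgood.edge.hp
  have hq2 := hgood.edge.hq
  have hG0 := hF.ne_zero
  have hR0 := hR.ne_zero
  -- the exponent
  have hN : edgeN p2 q2 A bR I = p2 * A + q2 * B := by rw [edgeN, hgood.hB]
  have hrΛ : rate (M + H) A B p2 q2 ∈ Λ := by
    apply hC.exp
    · exact ⟨M, H, e, Φ, p2, q2, A, bR, I, hc, hgood.edge, by rw [hgood.hB]; exact heA,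
        Or.inl hspec, by rw [hN]; rfl⟩
    · exact rate_pos (by omega) (by omega)
  have hr1 : rate (M + H) A B p2 q2 < 1 := rate_lt_one hlt1
  refine ⟨hrΛ, hr1, fun lam hl hlam => ?_, ?_⟩
  · -- children
    have hcc := Chart.child hc hp2 hq2 hgood.edge.cop hl
    have hVF := vtx_chart hp2 q2 lam hG0
    have hVR := vtx_chart hp2 q2 lam hR0
    rw [chart_chartMap] at hVF hVR ⊢
    rw [hgood.ordG] at hVF
    have hI0 : I ≠ 0 := by
      intro h0
      have := hgood.edge.deg
      rw [h0] at this; simp at this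
    have hmult : (inF p2 q2 (chartMap M H Φ (TT.FF n g))).rootMultiplicity lam ≤ I.natDegree := by
      have hex : Polynomial.expand ℂ p2 I ≠ 0 := by rwa [Ne, Polynomial.expand_eq_zero hp2]
      rw [hgood.inG, Polynomial.rootMultiplicity_mul
        (mul_ne_zero (pow_ne_zero _ Polynomial.X_ne_zero) hex),
        Polynomial.rootMultiplicity_eq_zero (p := Polynomial.X ^ bR) (by
          rw [Polynomial.IsRoot, Polynomial.eval_pow, Polynomial.eval_X]
          exact pow_ne_zero _ hl), zero_add]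
      exact rootMult_expand hI0 hp2 hl
    have hnu : p2 * (M + H) + q2 = p2 * M + (p2 * H + q2) := by ring
    have hrate : rate (p2 * M + (p2 * H + q2)) (p2 * A + q2 * B)
        ((inF p2 q2 (chartMap M H Φ (TT.FF n g))).rootMultiplicity lam) 1 0 =
        rate (M + H) A B p2 q2 := by
      unfold rate
      rw [← hnu]; simp
    rw [hnu]
    refine ihN hcc le_rfl hVF hVR (hgood.mult lam hl) ?_ (Or.inl ?_) ?_ ?_ ?_
    · set μ := (inF p2 q2 (chartMap M H Φ (TT.FF n g))).rootMultiplicity lam with hμ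
      have h1 : p2 * μ ≤ B := by
        have := Nat.mul_le_mul_left p2 hmult
        have := hgood.hB
        omega
      calc p2 * (p2 * e + q2) * μ = (p2 * e + q2) * (p2 * μ) := by ring
        _ ≤ (p2 * e + q2) * B := Nat.mul_le_mul_left _ h1
        _ = p2 * (e * B) + q2 * B := by ring
        _ ≤ p2 * A + q2 * B := Nat.add_le_add_right (Nat.mul_le_mul_left p2 heA) _
    · have : 0 < p2 * (p2 * e + q2) := Nat.mul_pos hp2 (by omega)
      exact this
    · omega
    · rw [hrate]; exact hrΛ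
    · rw [hrate]; exact hr1
  · obtain ⟨A', B', hV'⟩ := exists_vtx hp2 q2 hG0
    obtain ⟨AR', BR', hVR'⟩ := exists_vtx hp2 q2 hR0
    have hB' : B' ≤ B := height_mono hp hF hV' hgood.hlt
    have hordeq : p2 * A' + q2 * B' = p2 * A + q2 * B :=
      (hV'.ord hp2).symm.trans hgood.ordG
    have hA' : A ≤ A' := by
      have h1 : q2 * B' ≤ q2 * B := Nat.mul_le_mul_left q2 hB'
      have h2 : p2 * A ≤ p2 * A' := by omega
      exact Nat.le_of_mul_le_mul_left h2 hp2
    have hBR' : BR' < BR := by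
      rw [← hVR'.natTrailingDegree hp2]; exact hgood.multR
    have hrate : rate (M + H) A' B' p2 q2 = rate (M + H) A B p2 q2 := by
      unfold rate; rw [hordeq]
    refine ihN hc hp2 hV' hVR' hBR' ?_ hq2' (by omega) (by rw [hrate]; exact hrΛ)
      (by rw [hrate]; exact hr1)
    exact (Nat.mul_le_mul_left e hB').trans (heA.trans hA')

/-- the case of the region beyond `(p, q)` -/
lemma some_of_good (hC : Ctx9 Λ n g) {M H e : ℕ} {Φ : Polynomial ℂ} (hc : Chart M H e Φ)
    {p q A B AR BR p2 q2 bR : ℕ} {I : Polynomial ℂ} (hp : 1 ≤ p)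
    (hF : Vtx (chartMap M H Φ (TT.FF n g)) p q A B) (hR : Vtx (chartMap M H Φ (RR n g)) p q AR BR)
    (hBR : 2 ≤ BR) (heA : e * B ≤ A) (hepq : 1 ≤ e ∨ p ≤ q)
    (hgood : GoodNext (chartMap M H Φ (TT.FF n g)) (chartMap M H Φ (RR n g)) p q A B AR BR p2 q2 bR I)
    (ihN : ∀ {M H e : ℕ} {Φ : Polynomial ℂ}, Chart M H e Φ → ∀ {p q A B AR BR' : ℕ}, 1 ≤ p →
      Vtx (chartMap M H Φ (TT.FF n g)) p q A B → Vtx (chartMap M H Φ (RR n g)) p q AR BR' →
      BR' < BR → e * B ≤ A → (1 ≤ e ∨ p ≤ q) → 1 ≤ p * A + q * B →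
      rate (M + H) A B p q ∈ Λ → rate (M + H) A B p q < 1 →
      RB Λ (chartMap M H Φ (TT.FF n g)) (M + H) p q none) :
    rate (M + H) A B p2 q2 ∈ Λ ∧ rate (M + H) A B p2 q2 < 1 ∧
    (∀ lam : ℂ, lam ≠ 0 → I.eval (lam ^ p2) = 0 →
      RB Λ (chart p2 q2 lam (chartMap M H Φ (TT.FF n g))) (p2 * (M + H) + q2) 1 0 none) ∧
    RB Λ (chartMap M H Φ (TT.FF n g)) (M + H) p2 q2 none := by
  have hp2 := hgood.edge.hp
  have hq2 := hgood.edge.hq
  have hBBR := (vtx_le_of_dvd hp hF hR (map_dvd _ (RR_dvd_FF n g))).2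
  have hB2 : 2 ≤ B := by omega
  have hq2' : 1 ≤ e ∨ p2 < q2 := by
    rcases hepq with h | h
    · exact Or.inl h
    · right
      have h1 := hgood.hlt
      have h2 : p * p2 < p * q2 := by nlinarith
      exact Nat.lt_of_mul_lt_mul_left h2
  have hlt1 : p2 * (M + H) + q2 < p2 * A + q2 * B := by
    have hnu := Chart.nu_le hc
    have h1 : p2 * (M + H) ≤ p2 * (e + 1) := Nat.mul_le_mul_left p2 hnu
    have h5 : q2 * 2 ≤ q2 * B := Nat.mul_le_mul_left q2 hB2
    rcases Nat.eq_zero_or_pos e with h0 | h0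
    · subst h0
      rcases hq2' with h | h
      · omega
      · rw [zero_add, mul_one] at h1; omega
    · have h2 : p2 * (e * B) ≤ p2 * A := Nat.mul_le_mul_left p2 heA
      have h3 : e * 2 ≤ e * B := Nat.mul_le_mul_left e hB2
      have h4 : p2 * (e * 2) ≤ p2 * (e * B) := Nat.mul_le_mul_left p2 h3
      have h6 : p2 * (e + 1) + q2 < p2 * (e * 2) + q2 * 2 := by nlinarith
      omega
  have hspec : 3 ≤ special p2 q2 A bR I := by
    have h1 : 2 ≤ q2 ∨ 1 ≤ A := by
      rcases hq2' with h | h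
      · right; nlinarith
      · left; omega
    unfold special
    rw [if_pos h1]
    have := hgood.sp
    omega
  exact edge_core hC hc hp hF hR heA (hq2'.imp id le_of_lt) hgood hlt1 hspec ihN

theorem region (hC : Ctx9 Λ n g) : ∀ (k : ℕ) {M H e : ℕ} {Φ : Polynomial ℂ}, Chart M H e Φ →
    ∀ {p q A B AR BR : ℕ}, 1 ≤ p →
      Vtx (chartMap M H Φ (TT.FF n g)) p q A B → Vtx (chartMap M H Φ (RR n g)) p q AR BR →
      BR < k → e * B ≤ A → (1 ≤ e ∨ p ≤ q) → 1 ≤ p * A + q * B →
      (1 ≤ B → SomeOK Λ (chartMap M H Φ (TT.FF n g)) (M + H) p q A B) ∧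
      (rate (M + H) A B p q ∈ Λ → rate (M + H) A B p q < 1 →
        RB Λ (chartMap M H Φ (TT.FF n g)) (M + H) p q none) := by
  intro k
  induction k with
  | zero => intro M H e Φ hc p q A B AR BR hp hF hR hk; omega
  | succ k ih =>
    intro M H e Φ hc p q A B AR BR hp hF hR hk heA hepq hN
    have hsome : 1 ≤ B → SomeOK Λ (chartMap M H Φ (TT.FF n g)) (M + H) p q A B := by
      intro hB
      have hGR : ∃ N, chartMap M H Φ (TT.FF n g) ∣ chartMap M H Φ (RR n g) ^ N :=
        ⟨n, by rw [← map_pow]; exact map_dvd _ (FF_dvd_pow n g)⟩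
      have hBR1 := vtx_pos_of_dvd_pow hp hF hR hGR hB
      rcases Nat.lt_or_ge BR 2 with h2 | h2
      · have hBR : BR = 1 := by omega
        subst hBR
        obtain ⟨h3, h4⟩ := reg_one hC hc hp hF hR hN hB
        refine ⟨0, 1, h3, by omega, ?_⟩
        rcases Nat.lt_or_ge B 2 with h5 | h5
        · exact Or.inr ⟨rfl, rfl, by omega⟩
        · left
          have hr : rate (M + H) A B 0 1 = 1 / (B : ℚ) := by
            unfold rate; simp
          rw [hr]
          refine ⟨h4 h5, ?_⟩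
          have : (1 : ℚ) < B := by exact_mod_cast h5
          rw [div_lt_one (by linarith)]
          exact this
      · obtain ⟨a, b, ρ₀, hρ₀, hab⟩ := hC.cert
        obtain ⟨ρ, hρ, hcert⟩ := cert_chart hρ₀ hab (Chart.M_pos hc) H
        obtain ⟨ψ, hψ, p2, q2, bR, I, hgood⟩ := key hρ h2 ρ.natTrailingDegree
          (chartMap M H Φ (TT.FF n g)) (chartMap M H Φ (RR n g)) p q hp hF hR
          (map_dvd _ (RR_dvd_FF n g)) hGR (hcert Φ) (by nlinarith)
        have hψ0 : ψ.coeff 0 = 0 := by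
          by_contra hne
          have := hψ 0 (Polynomial.mem_support_iff.2 hne)
          omega
        have hc' := Chart.addShift hc ψ hψ0
        have hF' := hF.shift hp ψ hψ
        have hR' := hR.shift hp ψ hψ
        have hcoef := hF.coeff_shift hp ψ hψ
        rw [shift_chartMap] at hF' hcoef
        rw [shift_chartMap] at hR'
        rw [shift_chartMap, shift_chartMap] at hgood
        obtain ⟨hr1, hr2, hch, hnx⟩ := some_of_good hC hc' hp hF' hR' h2 heA hepq hgood
          (fun {M H e Φ} hc {p q A B AR BR'} hp hF hR hlt heA hepq hN hr hr1 =>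
            (ih hc hp hF hR (by omega) heA hepq hN).2 hr hr1)
        refine ⟨p2, q2, ?_, ?_, Or.inl ⟨hr1, hr2⟩⟩
        · refine RB.coord _ _ _ _ _ ψ hψ ?_
          rw [shift_chartMap]
          have hst := RB.step (Λ := Λ) (chartMap M H (Φ + Polynomial.X ^ H * ψ) (TT.FF n g)) (M + H)
            p q p2 q2 A bR I hp hgood.hlt hgood.edge
            (by rw [hgood.hB]; exact fun d hd => hF'.le d hd) (by rw [hgood.hB]; exact hN)
            (by rw [hgood.hB]; exact hr1) hch hnx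
          rw [hgood.hB, hgood.lead, hcoef] at hst
          exact hst
        · have := hgood.edge.hq
          nlinarith
    refine ⟨hsome, fun hr hr1 => ?_⟩
    rcases Nat.eq_zero_or_pos B with h0 | h0
    · subst h0
      rw [mul_zero, add_zero] at hN
      have hA : 1 ≤ A := by
        rcases Nat.eq_zero_or_pos A with h | h
        · rw [h] at hN; omega
        · exact h
      exact RB.fin0 _ _ p q A hp hA hF.ne (by intro d hd; have := hF.le d hd; simpa using this) hr
    · exact none_of_some h0 hN hr hr1 (hsome h0)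

end Pool.Agent.Mono.C9.TREAux
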