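import Pool.Agent.Work.Monodromy9.LC9

/-!
# Block VGC9 (helper2): the recurrence
-/

set_option autoImplicit false
set_option linter.unusedSectionVars false
set_option maxHeartbeats 200000

namespace Pool.Agent.Mono.C9

open MvPolynomial TS RO SP PC

namespace VGC9Aux

section

variable {E κ : Type} [Fintype κ] [DecidableEq κ] {w m : κ → ℕ} {M D : ℕ}

theorem off_add (hwm : ∀ a, w a * m a = M) (r : ℕ) (z : κ → ℂ) :
    Off m (r + M) z ↔ Off m r z := by
  have h : ∀ a, m a ∣ r + M ↔ m a ∣ r := fun a =>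
    (Nat.dvd_add_iff_left (Dvd.intro_left (w a) (hwm a))).symm
  unfold Off
  refine forall_congr' fun a => ?_
  rw [h]

theorem lc_add [Finite E] (P : HodgeMeasure) (hwm : ∀ a, w a * m a = M)
    (H : MvPolynomial (E ⊕ (Unit ⊕ κ)) ℂ) (r : ℕ) (Q : Set (E ⊕ Unit → ℂ)) :
    lc9' P w m D H (r + M) Q = lc9' P w m D H r Q := by
  unfold lc9'
  simp only [off_add hwm]

theorem zc_add [Finite E] (P : HodgeMeasure) (hwm : ∀ a, w a * m a = M)
    (H : MvPolynomial (E ⊕ (Unit ⊕ κ)) ℂ) (r : ℕ) (Q : Set (E ⊕ Unit → ℂ)) :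
    zc9 P w m D H (r + M) Q = zc9 P w m D H r Q := by
  unfold zc9
  simp only [off_add hwm]

theorem sum_add (hm : ∀ a, 1 ≤ m a) (hwm : ∀ a, w a * m a = M) (r : ℕ) :
    ∑ a, ((r + M) / m a + 1) = ∑ a, w a + ∑ a, (r / m a + 1) := by
  rw [← Finset.sum_add_distrib]
  refine Finset.sum_congr rfl fun a _ => ?_
  rw [← hwm a, Nat.add_mul_div_right _ _ (hm a)]
  omega

/-- shift of the sum -/
theorem sum_split (f : ℕ → K) {M N : ℕ} (h : M ≤ N) : ∑ r ∈ Finset.Ico 1 (N + 1), f r =
    ∑ r ∈ Finset.Ico 1 (M + 1), f r + ∑ r ∈ Finset.Ico 1 (N - M + 1), f (r + M) := by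
  rw [← Finset.sum_Ico_consecutive f (show 1 ≤ M + 1 by omega) (show M + 1 ≤ N + 1 by omega)]
  congr 1
  rw [Finset.sum_Ico_eq_sum_range, Finset.sum_Ico_eq_sum_range]
  refine Finset.sum_congr (by congr 1; omega) fun r _ => ?_
  congr 1
  omega

theorem sum_trunc (f : ℕ → K) {a b : ℕ} (h : a ≤ b) (h0 : ∀ r, a ≤ r → f r = 0) :
    ∑ r ∈ Finset.Ico 1 (b + 1), f r = ∑ r ∈ Finset.Ico 1 (a + 1), f r := by
  symm
  refine Finset.sum_subset (fun r hr => ?_) fun r _ hr => ?_
  · rw [Finset.mem_Ico] at hr ⊢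
    omega
  · refine h0 r ?_
    by_contra h1
    apply hr
    rw [Finset.mem_Ico] at *
    omega

/-- the recurrence, first form -/
theorem rec [Finite E] (P : HodgeMeasure) {H : MvPolynomial (E ⊕ (Unit ⊕ κ)) ℂ}
    {S : Set (E → ℂ)} (hH : HW9 H S w D) (hM : 1 ≤ M) (hwm : ∀ a, w a * m a = M)
    (hm : ∀ a, 1 ≤ m a) {Q : Set (E ⊕ Unit → ℂ)} (hQ : QU Q)
    (hQS : ∀ u ∈ Q, (fun e => u (Sum.inl e)) ∈ S) (i : ℕ) (hi : 1 ≤ i) :
    vol P.rat xq (H0 H Q (i + D)) = xq ^ (∑ a, w a) * vol P.rat xq (H0 H Q i) +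
      xq ^ i * ∑ r ∈ Finset.Ico 1 (M + 1), xq ^ (∑ a, (r / m a + 1) + (D - r * D / M)) *
        zc9 P w m D H r Q := by
  have hD : 1 ≤ D := hH.hD
  rw [stmt_LC9 P E κ w m M D H S hH hM hwm Q hQ hQS (i + D) (by omega),
    stmt_LC9 P E κ w m M D H S hH hM hwm Q hQ hQS i hi]
  have e1 : (if D ∣ M * (i + D) then xq ^ (∑ a, (M * (i + D) / D / m a + 1)) *
      lc9' P w m D H (M * (i + D) / D) Q else 0) = xq ^ (∑ a, w a) *
      (if D ∣ M * i then xq ^ (∑ a, (M * i / D / m a + 1)) *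
        lc9' P w m D H (M * i / D) Q else 0) := by
    have h1 : D ∣ M * (i + D) ↔ D ∣ M * i := by
      rw [mul_add]
      exact (Nat.dvd_add_iff_left (Dvd.intro_left M rfl)).symm
    have h2 : M * (i + D) / D = M * i / D + M := by
      rw [mul_add, Nat.add_mul_div_right _ _ hD]
    rw [h2, lc_add P hwm, sum_add hm hwm]
    by_cases h3 : D ∣ M * i
    · rw [if_pos (h1.2 h3), if_pos h3, pow_add, mul_assoc]
    · rw [if_neg fun h => h3 (h1.1 h), if_neg h3, mul_zero]
  have e2 : (∑ r ∈ Finset.Ico 1 (M * (i + D) + 1), if r * D < M * (i + D) then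
      xq ^ (∑ a, (r / m a + 1) + (i + D - r * D / M)) * zc9 P w m D H r Q else 0) =
      xq ^ i * (∑ r ∈ Finset.Ico 1 (M + 1), xq ^ (∑ a, (r / m a + 1) + (D - r * D / M)) *
        zc9 P w m D H r Q) +
      xq ^ (∑ a, w a) * ∑ r ∈ Finset.Ico 1 (M * i + 1), if r * D < M * i then
          xq ^ (∑ a, (r / m a + 1) + (i - r * D / M)) * zc9 P w m D H r Q else 0 := by
    have hMM : M ≤ M * (i + D) := Nat.le_mul_of_pos_right M (by omega)
    rw [sum_split _ hMM]
    congr 1
    · rw [Finset.mul_sum]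
      refine Finset.sum_congr rfl fun r hr => ?_
      have hr' := Finset.mem_Ico.1 hr
      have h1 : r * D ≤ M * D := Nat.mul_le_mul_right D (by omega)
      have h2 : M * D < M * (i + D) := by
        have : 0 < M * i := Nat.mul_pos hM hi
        rw [mul_add]
        omega
      have h3 : r * D / M ≤ D := by
        calc r * D / M ≤ M * D / M := Nat.div_le_div_right h1
          _ = D := Nat.mul_div_cancel_left _ hM
      rw [if_pos (lt_of_le_of_lt h1 h2), ← mul_assoc, ← pow_add]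
      congr 2
      omega
    · rw [Finset.mul_sum]
      have h1 : M * (i + D) - M = M * (i + D - 1) := by
        rw [Nat.mul_sub, mul_one]
      have h2 : M * i ≤ M * (i + D) - M := by
        rw [h1]
        exact Nat.mul_le_mul_left M (by omega)
      have h3 : ∀ r, (r + M) * D < M * (i + D) ↔ r * D < M * i := by
        intro r
        rw [add_mul, mul_add]
        omega
      rw [sum_trunc _ h2]
      · refine Finset.sum_congr rfl fun r _ => ?_
        by_cases h4 : r * D < M * i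
        · rw [if_pos ((h3 r).2 h4), if_pos h4, zc_add P hwm, sum_add hm hwm, ← mul_assoc,
            ← pow_add]
          congr 2
          have h5 : (r + M) * D / M = r * D / M + D := by
            rw [add_mul, mul_comm M D, Nat.add_mul_div_right _ _ hM]
          rw [h5]
          omega
        · rw [if_neg fun h => h4 ((h3 r).1 h), if_neg h4, mul_zero]
      · intro r hr
        rw [if_neg]
        intro h
        have h4 := (h3 r).1 h
        have h5 : r ≤ r * D := Nat.le_mul_of_pos_right r hD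
        omega
  rw [e1, e2]
  ring

end

end VGC9Aux

open VGC9Aux in
theorem stmt_VGC9 : Stmt_VGC9 := by
  classical
  intro P E κ _ _ _ w D H S hH Q hQ hQS m hm
  obtain ⟨M, hMd⟩ : ∃ M, M = ∏ b, w b := ⟨_, rfl⟩
  have hw := hH.hw
  have hM : 1 ≤ M := by
    rw [hMd]
    exact Nat.one_le_iff_ne_zero.2 (Finset.prod_ne_zero_iff.2 fun b _ => by
      have := hw b
      omega)
  have hwm : ∀ a, w a * (M / w a) = M := fun a =>
    Nat.mul_div_cancel' (hMd ▸ Finset.dvd_prod_of_mem w (Finset.mem_univ a))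
  have hm1 : ∀ a, 1 ≤ M / w a := by
    intro a
    rcases Nat.eq_zero_or_pos (M / w a) with h | h
    · have := hwm a
      rw [h, mul_zero] at this
      omega
    · exact h
  rw [VGC9Aux.rec P hH hM hwm hm1 hQ hQS (m + 1) (by omega),
    VGC9Aux.rec P hH hM hwm hm1 hQ hQS m hm]
  ring

end Pool.Agent.Mono.C9
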